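import Pool.Agent.K3C.C5y

/-!
# C5A: Clifford relations, lift of skew maps, scalars (CM fields)
-/

open scoped BigOperators
open Matrix

namespace Pool.Agent.K3C

open Pool.Agent.DRB Pool.Agent.K3D Pool.Agent.K3E

theorem C5a_proof (hq : DRB.Stmt_DescQ) : Stmt_C5a := by
  intro g A n m K
  refine ⟨C5X.rel K, C5X.cl_eq_zero K, C5X.lift K, ?_, C5X.Z_span K hq, C5X.Z_end K hq⟩
  intro Y h1 h2
  exact C5X.even_scalar K Y (C5X.comm_even K hq Y h1) h2

end Pool.Agent.K3C
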