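import Pool.Agent.K3C.C5c

/-!
# C5B: a rational subspace of `T` stable under the group is trivial
-/

open scoped BigOperators
open Matrix

namespace Pool.Agent.K3C

open Pool.Agent.DRB Pool.Agent.K3D Pool.Agent.K3E

namespace C5X

section

variable {g n m : ℕ} {A : AbVar g} {K : KSC A n m}

theorem isotropic (hq : DRB.Stmt_DescQ) (h3 : DRB.Stmt_Gb3) (h1e : DRB.Stmt_T1e) (h5l : Stmt_C5l)
    (hm : 1 ≤ m) (K : KSC A n m) (W : Submodule ℂ (Fin n → ℂ))
    (haut : ∀ (σ : ℂ ≃ₐ[ℚ] ℂ), ∀ v ∈ W, (fun i => σ (v i)) ∈ W)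
    (hgam : ∀ p ∈ Gam A, ∀ v ∈ W, ∃ w ∈ W, p.1.val * K.cl v * (p.1⁻¹).val = K.cl w)
    (hiso : ∀ v ∈ W, ∀ w ∈ W, K.bil v w = 0) : W = ⊥ := by
  classical
  have hr' : Rel K := rel K
  have hg := K.pos
  -- the common kernel
  let Kf : Submodule ℂ (Idx g → ℂ) :=
    { carrier := {h | ∀ w ∈ W, K.cl w *ᵥ h = 0}
      add_mem' := fun {a b} ha hb w hw => by
        rw [Matrix.mulVec_add, ha w hw, hb w hw, add_zero]
      zero_mem' := fun w _ => Matrix.mulVec_zero _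
      smul_mem' := fun c a ha w hw => by
        rw [Matrix.mulVec_smul, ha w hw, smul_zero] }
  have hKf : ∀ h, h ∈ Kf ↔ ∀ w ∈ W, K.cl w *ᵥ h = 0 := fun h => Iff.rfl
  have hKaut : ∀ (σ : ℂ ≃ₐ[ℚ] ℂ), ∀ h ∈ Kf, (fun i => σ (h i)) ∈ Kf := by
    intro σ h hh
    rw [hKf] at hh ⊢
    intro w hw
    have h1 := hh _ (haut σ.symm w hw)
    have h2 : K.cl w = (K.cl (fun i => σ.symm (w i))).map σ := by
      rw [← cl_map]
      congr 1
      funext i
      simp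
    rw [h2]
    funext r
    have h3 := congrFun h1 r
    simp only [Matrix.mulVec, dotProduct, Matrix.map_apply, Pi.zero_apply] at h3 ⊢
    have h4 := congrArg σ h3
    rw [map_sum, map_zero] at h4
    rw [← h4]
    exact Finset.sum_congr rfl fun j _ => by rw [map_mul]
  have hrat : RatSpan Kf := hq (Idx g) Kf fun σ h hh => hKaut σ h hh
  have hst : ∀ p ∈ Gam A, Kf.map p.1.val.mulVecLin ≤ Kf := by
    intro p hp
    rw [Submodule.map_le_iff_le_comap]
    intro h hh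
    rw [Submodule.mem_comap, hKf]
    intro w hw
    obtain ⟨w', hw', hw2⟩ := hgam p⁻¹ (inv_mem hp) w hw
    have h3 : K.cl w * p.1.val = p.1.val * K.cl w' := by
      rw [← hw2]
      have e1 : (p⁻¹).1 = p.1⁻¹ := rfl
      rw [e1, inv_inv]
      have : p.1.val * ((p.1⁻¹).val * K.cl w * p.1.val) = (p.1.val * (p.1⁻¹).val) * K.cl w * p.1.val := by
        noncomm_ring
      rw [this, mul_inv_self, Matrix.one_mul]
    rw [Matrix.mulVecLin_apply, Matrix.mulVec_mulVec, h3, ← Matrix.mulVec_mulVec,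
      (hKf h).1 hh w' hw', Matrix.mulVec_zero]
  obtain ⟨α, hα, -, -, hα2⟩ := h1e g A Kf hrat (h3 g A Kf hrat hst)
  have hst2 : ∀ a ∈ K.S, ∀ h ∈ Kf, K.Z a *ᵥ h ∈ Kf := by
    intro a ha h hh
    rw [hα2] at hh ⊢
    have h5 := Z_end K hq α hα a ha
    rw [Matrix.mulVec_mulVec, ← h5, ← Matrix.mulVec_mulVec, hh]
  -- suppose `W` is not zero
  by_contra hW
  obtain ⟨w, hw, hw0⟩ := Submodule.exists_mem_ne_zero_of_ne_bot hW
  obtain ⟨-, -, -, -, -, -, -, -, hlast, -⟩ := h5l g A n m K hm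
  -- the annihilator
  let N : Submodule ℂ (Fin n → ℂ) :=
    { carrier := {v | ∀ h ∈ Kf, K.cl v *ᵥ h = 0}
      add_mem' := fun {a b} ha hb h hh => by
        rw [cl_add, Matrix.add_mulVec, ha h hh, hb h hh, add_zero]
      zero_mem' := fun h _ => by rw [cl_zero, Matrix.zero_mulVec]
      smul_mem' := fun c a ha h hh => by
        rw [cl_smul, Matrix.smul_mulVec, ha h hh, smul_zero] }
  have hN : ∀ v, v ∈ N ↔ ∀ h ∈ Kf, K.cl v *ᵥ h = 0 := fun v => Iff.rfl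
  have hNS : ∀ a ∈ K.S, ∀ v ∈ N, a *ᵥ v ∈ N := by
    intro a ha v hv
    rw [hN] at hv ⊢
    intro h hh
    rw [← lift K a (S_skew K a ha) v, Matrix.sub_mulVec, ← Matrix.mulVec_mulVec,
      ← Matrix.mulVec_mulVec, hv h hh, Matrix.mulVec_zero, hv _ (hst2 a ha h hh), sub_zero]
  have hNaut : ∀ (σ : ℂ ≃ₐ[ℚ] ℂ), ∀ v ∈ N, (fun i => σ (v i)) ∈ N := by
    intro σ v hv
    rw [hN] at hv ⊢
    intro h hh
    have h1 := hv _ (hKaut σ.symm h hh)
    rw [cl_map]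
    funext r
    have h3 := congrFun h1 r
    simp only [Matrix.mulVec, dotProduct, Matrix.map_apply, Pi.zero_apply] at h3 ⊢
    have h4 := congrArg σ h3
    rw [map_sum, map_zero] at h4
    rw [← h4]
    exact Finset.sum_congr rfl fun j _ => by rw [map_mul, AlgEquiv.apply_symm_apply]
  have hNtop : N = ⊤ := by
    refine (hlast N hNaut hNS).resolve_left fun h0 => hw0 ?_
    have h1 : w ∈ N := by
      rw [hN]
      intro h hh
      exact (hKf h).1 hh w hw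
    rw [h0] at h1
    exact (Submodule.mem_bot ℂ).1 h1
  -- a vector with nonzero square
  obtain ⟨x, hxx⟩ : ∃ x : Fin n → ℂ, K.bil x x ≠ 0 := by
    have hne : ∃ i : Fin n, w i ≠ 0 := by
      by_contra hcon
      push Not at hcon
      exact hw0 (funext hcon)
    obtain ⟨i, -⟩ := hne
    refine ⟨Pi.single i 1, ?_⟩
    rw [bil_single]
    have hq : (K.q i : ℂ) ≠ 0 := by exact_mod_cast K.q_ne i
    simpa using hq
  have hbot : ∀ h ∈ Kf, h = 0 := by
    intro h hh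
    have hx : x ∈ N := by rw [hNtop]; exact Submodule.mem_top
    have e5 : K.cl x *ᵥ h = 0 := (hN x).1 hx h hh
    have e6 : (K.cl x * K.cl x) *ᵥ h = 0 := by
      rw [← Matrix.mulVec_mulVec, e5, Matrix.mulVec_zero]
    rw [sq hr', Matrix.smul_mulVec, Matrix.one_mulVec] at e6
    exact (smul_eq_zero.1 e6).resolve_left hxx
  obtain ⟨s, hs⟩ := (IsNoetherian.noetherian W : W.FG)
  have hsW : ∀ v ∈ s, v ∈ W := fun v hv => by
    rw [← hs]; exact Submodule.subset_span hv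
  obtain ⟨h, h0, h1⟩ := exists_ker hg hr' s fun v hv w hw => hiso v (hsW v hv) w (hsW w hw)
  apply h0
  apply hbot
  rw [hKf]
  intro w hw
  rw [← hs] at hw
  induction hw using Submodule.span_induction with
  | mem x hx => exact h1 x hx
  | zero => rw [cl_zero, Matrix.zero_mulVec]
  | add x y _ _ hx hy => rw [cl_add, Matrix.add_mulVec, hx, hy, add_zero]
  | smul c x _ hx => rw [cl_smul, Matrix.smul_mulVec, hx, smul_zero]

/-- A nondegenerate rational `Gam`-stable subspace is trivial. -/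
theorem nondeg (hq : DRB.Stmt_DescQ) (h2d : Stmt_C2d) (hfin : DRB.Stmt_Fin) (h5l : Stmt_C5l)
    (hm : 1 ≤ m) (K : KSC A n m) (W : Submodule ℂ (Fin n → ℂ))
    (haut : ∀ (σ : ℂ ≃ₐ[ℚ] ℂ), ∀ v ∈ W, (fun i => σ (v i)) ∈ W)
    (hgam : ∀ p ∈ Gam A, ∀ v ∈ W, ∃ w ∈ W, p.1.val * K.cl v * (p.1⁻¹).val = K.cl w)
    (hnd : ∀ v ∈ W, (∀ w ∈ W, K.bil v w = 0) → v = 0) : W = ⊥ ∨ W = ⊤ := by
  classical
  have hr' : Rel K := rel K
  have hg := K.pos
  obtain ⟨l, e, ρ, hV⟩ := exists_Vol K W hnd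
  have he := hV.he
  have hW1 := hV.mem
  have hW2 := hV.perp
  have hdec := hV.dec
  have hρ' := hV.sq
  have hρ0 := hV.hρ
  -- conjugation on `T`
  have hT : ∀ p ∈ Gam A, ∀ v, ∃ v', p.1.val * K.cl v * (p.1⁻¹).val = K.cl v' := fun p hp v =>
    (mem_TC K).1 ((h2d g A n m K).1 p hp _ ((mem_TC K).2 ⟨v, rfl⟩))
  have hperp : ∀ p ∈ Gam A, ∀ v, (∀ w ∈ W, K.bil v w = 0) →
      ∃ v', (∀ w ∈ W, K.bil v' w = 0) ∧ p.1.val * K.cl v * (p.1⁻¹).val = K.cl v' := by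
    intro p hp v hv
    obtain ⟨v', hv'⟩ := hT p hp v
    refine ⟨v', fun w hw => ?_, hv'⟩
    obtain ⟨w₁, hw₁, hw₂⟩ := hgam p⁻¹ (inv_mem hp) w hw
    have h1 : p.1.val * K.cl w₁ * (p.1⁻¹).val = K.cl w := by
      rw [← hw₂]
      have e1 : (p⁻¹).1 = p.1⁻¹ := rfl
      rw [e1, inv_inv]
      have : p.1.val * ((p.1⁻¹).val * K.cl w * p.1.val) * (p.1⁻¹).val =
        (p.1.val * (p.1⁻¹).val) * K.cl w * (p.1.val * (p.1⁻¹).val) := by noncomm_ring
      rw [this, mul_inv_self, Matrix.one_mul, Matrix.mul_one]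
    rw [bil_conj hg hr' p.1 hv' h1]
    exact hv w₁ hw₁
  set R := pr K l with hR
  -- the conjugates of `R`
  have hconjW : ∀ p ∈ Gam A, ∀ w ∈ W, (p.1.val * R * (p.1⁻¹).val) * K.cl w =
      e • (K.cl w * (p.1.val * R * (p.1⁻¹).val)) := by
    intro p hp w hw
    obtain ⟨w₁, hw₁, hw₂⟩ := hgam p⁻¹ (inv_mem hp) w hw
    have h1 : p.1.val * K.cl w₁ * (p.1⁻¹).val = K.cl w := by
      rw [← hw₂]
      have e1 : (p⁻¹).1 = p.1⁻¹ := rfl
      rw [e1, inv_inv]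
      have : p.1.val * ((p.1⁻¹).val * K.cl w * p.1.val) * (p.1⁻¹).val =
        (p.1.val * (p.1⁻¹).val) * K.cl w * (p.1.val * (p.1⁻¹).val) := by noncomm_ring
      rw [this, mul_inv_self, Matrix.one_mul, Matrix.mul_one]
    rw [← h1, ← conj_mul, ← conj_mul, hW1 w₁ hw₁, Matrix.mul_smul, Matrix.smul_mul]
  have hconjP : ∀ p ∈ Gam A, ∀ w, (∀ v ∈ W, K.bil w v = 0) →
      (p.1.val * R * (p.1⁻¹).val) * K.cl w =
      (-e) • (K.cl w * (p.1.val * R * (p.1⁻¹).val)) := by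
    intro p hp w hw
    obtain ⟨w₁, hw₁, hw₂⟩ := hperp p⁻¹ (inv_mem hp) w hw
    have h1 : p.1.val * K.cl w₁ * (p.1⁻¹).val = K.cl w := by
      rw [← hw₂]
      have e1 : (p⁻¹).1 = p.1⁻¹ := rfl
      rw [e1, inv_inv]
      have : p.1.val * ((p.1⁻¹).val * K.cl w * p.1.val) * (p.1⁻¹).val =
        (p.1.val * (p.1⁻¹).val) * K.cl w * (p.1.val * (p.1⁻¹).val) := by noncomm_ring
      rw [this, mul_inv_self, Matrix.one_mul, Matrix.mul_one]
    rw [← h1, ← conj_mul, ← conj_mul, hW2 w₁ hw₁, Matrix.mul_smul, Matrix.smul_mul]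
  -- products `R * R'`
  have hscal : ∀ p ∈ Gam A, ∃ c : ℂ, R * (p.1.val * R * (p.1⁻¹).val) = c • 1 := by
    intro p hp
    apply even_scalar K
    · obtain ⟨l', hl', hl2⟩ := pr_conj p.1 (hT p hp) l
      rw [hR, hl2, ← pr_append]
      exact pr_mem_Pw K (l ++ l') 0 (by rw [List.length_append, hl']; exact ⟨l.length, by ring⟩)
    · intro v
      obtain ⟨a, ha, u, hu, rfl⟩ := hdec v
      have h1 : R * (p.1.val * R * (p.1⁻¹).val) * K.cl a =
          K.cl a * (R * (p.1.val * R * (p.1⁻¹).val)) := by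
        rw [Matrix.mul_assoc, hconjW p hp a ha, Matrix.mul_smul, ← Matrix.mul_assoc, hW1 a ha,
          Matrix.smul_mul, smul_smul, he, one_smul, Matrix.mul_assoc]
      have h2 : R * (p.1.val * R * (p.1⁻¹).val) * K.cl u =
          K.cl u * (R * (p.1.val * R * (p.1⁻¹).val)) := by
        rw [Matrix.mul_assoc, hconjP p hp u hu, Matrix.mul_smul, ← Matrix.mul_assoc, hW2 u hu,
          Matrix.smul_mul, smul_smul, neg_mul_neg, he, one_smul, Matrix.mul_assoc]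
      rw [cl_add, Matrix.mul_add, h1, h2, Matrix.add_mul]
  have horb : ∀ p ∈ Gam A, p.1.val * R * (p.1⁻¹).val = R ∨ p.1.val * R * (p.1⁻¹).val = -R := by
    intro p hp
    obtain ⟨c, hc⟩ := hscal p hp
    have h1 : ρ • (p.1.val * R * (p.1⁻¹).val) = c • R := by
      have : R * (R * (p.1.val * R * (p.1⁻¹).val)) = c • R := by
        rw [hc, Matrix.mul_smul, Matrix.mul_one]
      rw [← Matrix.mul_assoc, hρ', Matrix.smul_mul, Matrix.one_mul] at this
      exact this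
    have h2 : p.1.val * R * (p.1⁻¹).val = (ρ⁻¹ * c) • R := by
      rw [← smul_smul, ← h1, smul_smul, inv_mul_cancel₀ hρ0, one_smul]
    have h3 : (p.1.val * R * (p.1⁻¹).val) * (p.1.val * R * (p.1⁻¹).val) = ρ • 1 := by
      rw [← conj_mul, hρ', Matrix.mul_smul, Matrix.smul_mul, Matrix.mul_one, mul_inv_self]
    rw [h2, Matrix.smul_mul, Matrix.mul_smul, smul_smul, hρ', smul_smul] at h3
    have h4 : ((ρ⁻¹ * c) * (ρ⁻¹ * c) * ρ - ρ) • (1 : Matrix (Idx g) (Idx g) ℂ) = 0 := by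
      rw [sub_smul, h3, sub_self]
    have h5 : (ρ⁻¹ * c) * (ρ⁻¹ * c) * ρ - ρ = 0 := (smul_eq_zero.1 h4).resolve_right (one_ne hg)
    have h6 : ρ * ((ρ⁻¹ * c - 1) * (ρ⁻¹ * c + 1)) = 0 := by linear_combination h5
    rcases mul_eq_zero.1 ((mul_eq_zero.1 h6).resolve_left hρ0) with h7 | h7
    · left; rw [h2, sub_eq_zero.1 h7, one_smul]
    · right; rw [h2, eq_neg_of_add_eq_zero_left h7, neg_smul, one_smul]
  have hRend := hfin g A R (by
    refine Set.Finite.subset (Set.toFinite {R, -R}) ?_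
    rintro Y ⟨p, hp, rfl⟩
    rcases horb p hp with h | h
    · rw [h]; exact Set.mem_insert _ _
    · rw [h]; exact Set.mem_insert_of_mem _ rfl)
  obtain ⟨-, -, -, -, -, -, -, -, hlast, -⟩ := h5l g A n m K hm
  exact hlast W haut fun a ha v hv => hV.S_stab hq hRend a ha v hv

end

end C5X

theorem C5b_proof (hq : DRB.Stmt_DescQ) (h3 : DRB.Stmt_Gb3) (h1e : DRB.Stmt_T1e)
    (hfin : DRB.Stmt_Fin) (h2d : Stmt_C2d) (h5l : Stmt_C5l) : Stmt_C5b := by
  intro g A n m K hm W haut hgam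
  -- the radical
  let W₀ : Submodule ℂ (Fin n → ℂ) :=
    { carrier := {v | v ∈ W ∧ ∀ w ∈ W, K.bil v w = 0}
      add_mem' := fun {a b} ha hb => ⟨W.add_mem ha.1 hb.1, fun w hw => by
        rw [C5X.bil_add_left, ha.2 w hw, hb.2 w hw, add_zero]⟩
      zero_mem' := ⟨W.zero_mem, fun w _ => by
        simpa using C5X.bil_smul_left K 0 0 w⟩
      smul_mem' := fun c a ha => ⟨W.smul_mem c ha.1, fun w hw => by
        rw [C5X.bil_smul_left, ha.2 w hw, mul_zero]⟩ }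
  have hW₀ : ∀ v, v ∈ W₀ ↔ v ∈ W ∧ ∀ w ∈ W, K.bil v w = 0 := fun v => Iff.rfl
  have h0 : W₀ = ⊥ := by
    refine C5X.isotropic hq h3 h1e h5l hm K W₀ ?_ ?_ ?_
    · intro σ v hv
      rw [hW₀] at hv ⊢
      refine ⟨haut σ v hv.1, fun w hw => ?_⟩
      have h1 := hv.2 _ (haut σ.symm w hw)
      have h2 := C5X.bil_map K σ v (fun i => σ.symm (w i))
      rw [h1, map_zero] at h2
      simpa using h2
    · intro p hp v hv
      obtain ⟨v', hv', hv2⟩ := hgam p hp v hv.1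
      refine ⟨v', ⟨hv', fun w hw => ?_⟩, hv2⟩
      obtain ⟨w₁, hw₁, hw₂⟩ := hgam p⁻¹ (inv_mem hp) w hw
      have h1 : p.1.val * K.cl w₁ * (p.1⁻¹).val = K.cl w := by
        rw [← hw₂]
        have e1 : (p⁻¹).1 = p.1⁻¹ := rfl
        rw [e1, inv_inv]
        have : p.1.val * ((p.1⁻¹).val * K.cl w * p.1.val) * (p.1⁻¹).val =
          (p.1.val * (p.1⁻¹).val) * K.cl w * (p.1.val * (p.1⁻¹).val) := by noncomm_ring
        rw [this, C5X.mul_inv_self, Matrix.one_mul, Matrix.mul_one]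
      rw [C5X.bil_conj K.pos (C5X.rel K) p.1 hv2 h1]
      exact hv.2 w₁ hw₁
    · intro v hv w hw
      exact hv.2 w hw.1
  refine C5X.nondeg hq h2d hfin h5l hm K W haut hgam fun v hv hv2 => ?_
  have : v ∈ W₀ := ⟨hv, hv2⟩
  rw [h0] at this
  exact (Submodule.mem_bot ℂ).1 this

end Pool.Agent.K3C
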