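import Pool.Agent.K3C.C5v

/-!
# C5C: a nondegenerate subspace stable under the Lie algebra is stable under `u_E(T)`
-/

open scoped BigOperators
open Matrix

namespace Pool.Agent.K3C

open Pool.Agent.DRB Pool.Agent.K3D Pool.Agent.K3E

namespace C5X

section

variable {g n m : ℕ} {A : AbVar g} {K : KSC A n m}

/-- The derivative of a product of vectors. -/
theorem ad_pr (X : Matrix (Idx g) (Idx g) ℂ) (hX : ∀ v, ∃ v', X * K.cl v - K.cl v * X = K.cl v') :
    ∀ (l : List (Fin n → ℂ)) (e : ℕ), Even (l.length + e) →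
      X * pr K l - pr K l * X ∈ Pw K Finset.univ e := by
  intro l
  induction l with
  | nil =>
    intro e _
    rw [pr_nil, Matrix.mul_one, Matrix.one_mul, sub_self]
    exact Submodule.zero_mem _
  | cons a l ih =>
    intro e he
    have he' : Even (l.length + (e + 1)) := by
      rw [List.length_cons] at he
      have : l.length + (e + 1) = l.length + 1 + e := by ring
      rw [this]
      exact he
    rw [pr_cons]
    have e1 : X * (K.cl a * pr K l) - K.cl a * pr K l * X =
        (X * K.cl a - K.cl a * X) * pr K l + K.cl a * (X * pr K l - pr K l * X) := by noncomm_ring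
    rw [e1]
    obtain ⟨a', ha'⟩ := hX a
    rw [ha']
    exact Submodule.add_mem _ (cl_mul_Pw K e a' _ (pr_mem_Pw K l (e + 1) he'))
      (cl_mul_Pw K e a _ (ih (e + 1) he'))

theorem pr_mul_Pw (l : List (Fin n → ℂ)) : ∀ (e : ℕ) (a : Matrix (Idx g) (Idx g) ℂ),
    a ∈ Pw K Finset.univ (e + l.length) → pr K l * a ∈ Pw K Finset.univ e := by
  induction l with
  | nil =>
    intro e a ha
    rw [pr_nil, Matrix.one_mul]
    simpa using ha
  | cons b l ih =>
    intro e a ha
    rw [pr_cons, Matrix.mul_assoc]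
    refine cl_mul_Pw K e b _ (ih (e + 1) a ?_)
    rw [List.length_cons] at ha
    have : e + 1 + l.length = e + (l.length + 1) := by ring
    rw [this]
    exact ha

/-- If a matrix normalizes `T` and preserves `W` it commutes with the volume element. -/
theorem Vol.ad_comm {W : Submodule ℂ (Fin n → ℂ)} {l : List (Fin n → ℂ)} {e ρ : ℂ}
    (h : Vol K W (pr K l) e ρ) (X : Matrix (Idx g) (Idx g) ℂ)
    (hT : ∀ v, ∃ v', X * K.cl v - K.cl v * X = K.cl v')
    (hstab : ∀ v ∈ W, ∃ w ∈ W, X * K.cl v - K.cl v * X = K.cl w) :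
    X * pr K l = pr K l * X := by
  have hperp : ∀ v, (∀ w ∈ W, K.bil v w = 0) →
      ∃ v', (∀ w ∈ W, K.bil v' w = 0) ∧ X * K.cl v - K.cl v * X = K.cl v' := by
    intro v hv
    obtain ⟨v', hv'⟩ := hT v
    refine ⟨v', fun w hw => ?_, hv'⟩
    obtain ⟨w', hw', hw2⟩ := hstab w hw
    have h1 := ad_skew X v w v' w' hv' hw2
    rw [hv w' hw', add_zero] at h1
    exact h1
  have hmem := ad_pr X hT l l.length ⟨l.length, rfl⟩
  set R := pr K l with hR
  have hY1 : ∀ w ∈ W, (X * R - R * X) * K.cl w = e • (K.cl w * (X * R - R * X)) := by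
    intro w hw
    obtain ⟨w', hw', hw2⟩ := hstab w hw
    have e1 : (X * R - R * X) * K.cl w = X * (R * K.cl w) - (R * K.cl w) * X -
        R * (X * K.cl w - K.cl w * X) := by noncomm_ring
    rw [e1, hw2, h.mem w hw, h.mem w' hw', ← hw2, Matrix.mul_smul, Matrix.smul_mul, ← smul_sub,
      ← smul_sub]
    congr 1
    noncomm_ring
  have hY2 : ∀ w, (∀ v ∈ W, K.bil w v = 0) →
      (X * R - R * X) * K.cl w = (-e) • (K.cl w * (X * R - R * X)) := by
    intro w hw
    obtain ⟨w', hw', hw2⟩ := hperp w hw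
    have e1 : (X * R - R * X) * K.cl w = X * (R * K.cl w) - (R * K.cl w) * X -
        R * (X * K.cl w - K.cl w * X) := by noncomm_ring
    rw [e1, hw2, h.perp w hw, h.perp w' hw', ← hw2, Matrix.mul_smul, Matrix.smul_mul, ← smul_sub,
      ← smul_sub]
    congr 1
    noncomm_ring
  obtain ⟨c, hc⟩ : ∃ c : ℂ, R * (X * R - R * X) = c • 1 := by
    apply even_scalar K
    · exact pr_mul_Pw l 0 _ (by rw [zero_add]; exact hmem)
    · intro v
      obtain ⟨a, ha, u, hu, rfl⟩ := h.dec v
      have h1 : R * (X * R - R * X) * K.cl a = K.cl a * (R * (X * R - R * X)) := by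
        rw [Matrix.mul_assoc, hY1 a ha, Matrix.mul_smul, ← Matrix.mul_assoc, h.mem a ha,
          Matrix.smul_mul, smul_smul, h.he, one_smul, Matrix.mul_assoc]
      have h2 : R * (X * R - R * X) * K.cl u = K.cl u * (R * (X * R - R * X)) := by
        rw [Matrix.mul_assoc, hY2 u hu, Matrix.mul_smul, ← Matrix.mul_assoc, h.perp u hu,
          Matrix.smul_mul, smul_smul, neg_mul_neg, h.he, one_smul, Matrix.mul_assoc]
      rw [cl_add, Matrix.mul_add, h1, h2, Matrix.add_mul]
  have h1 : ρ • (X * R - R * X) = c • R := by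
    have : R * (R * (X * R - R * X)) = c • R := by
      rw [hc, Matrix.mul_smul, Matrix.mul_one]
    rw [← Matrix.mul_assoc, h.sq, Matrix.smul_mul, Matrix.one_mul] at this
    exact this
  have h2 : X * R - R * X = (ρ⁻¹ * c) • R := by
    rw [← smul_smul, ← h1, smul_smul, inv_mul_cancel₀ h.hρ, one_smul]
  have h3 : (X * R - R * X) * R + R * (X * R - R * X) = 0 := by
    have e1 : (X * R - R * X) * R + R * (X * R - R * X) = X * (R * R) - (R * R) * X := by
      noncomm_ring
    rw [e1, h.sq, Matrix.mul_smul, Matrix.smul_mul, Matrix.mul_one, Matrix.one_mul, sub_self]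
  rw [h2, Matrix.smul_mul, Matrix.mul_smul, ← add_smul, h.sq, smul_smul] at h3
  have h4 := (smul_eq_zero.1 h3).resolve_right (one_ne K.pos)
  have h5 : ρ⁻¹ * c = 0 := by
    have h6 : (2 : ℂ) * ((ρ⁻¹ * c) * ρ) = 0 := by linear_combination h4
    have h7 := (mul_eq_zero.1 h6).resolve_left two_ne_zero
    exact (mul_eq_zero.1 h7).resolve_right h.hρ
  rw [h5, zero_smul] at h2
  exact sub_eq_zero.1 h2

/-- If the volume element of `W` is a combination of endomorphisms, `W` is stable under `S`. -/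
theorem Vol.S_stab (hq : DRB.Stmt_DescQ) {W : Submodule ℂ (Fin n → ℂ)}
    {R : Matrix (Idx g) (Idx g) ℂ} {e ρ : ℂ} (h : Vol K W R e ρ)
    (hR : R ∈ Submodule.span ℂ {Z | ∃ α ∈ A.EndQ, Z = AbVar.toC α})
    (a : Matrix (Fin n) (Fin n) ℂ) (ha : a ∈ K.S) (v : Fin n → ℂ) (hv : v ∈ W) : a *ᵥ v ∈ W :=
  h.ad_mem (K.Z a) (Z_span K hq R hR a ha).symm v _ hv (lift K a (S_skew K a ha) v)

end

end C5X

theorem C5c_proof (hq : DRB.Stmt_DescQ) (h2d : Stmt_C2d) (h4 : Stmt_K4) : Stmt_C5c := by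
  intro g A n m K W hstab hnd a ha v hv
  obtain ⟨l, e, ρ, hV⟩ := C5X.exists_Vol K W hnd
  have hT : ∀ X ξ, InLie (Gam A) X ξ → ∀ v, ∃ v', X * K.cl v - K.cl v * X = K.cl v' :=
    fun X ξ hX v => (C5X.mem_TC K).1 ((h2d g A n m K).2 X ξ hX _ ((C5X.mem_TC K).2 ⟨v, rfl⟩))
  have hR := h4 g A (C5X.pr K l) fun X ξ hX => hV.ad_comm X (hT X ξ hX) (hstab X ξ hX)
  exact hV.S_stab hq hR a ha v hv

end Pool.Agent.K3C
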