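import Pool.Agent.K3D.K5d
import Pool.Agent.K3C.C5b
import Pool.Agent.K3C.C5a

/-!
# C5d: a subspace stable under the Lie algebra is stable under `u_E(T)`
-/

open scoped BigOperators
open Matrix

namespace Pool.Agent.K3C

open Pool.Agent.DRB Pool.Agent.K3D Pool.Agent.K3E C5X

noncomputable section

namespace C5dX

variable {g n m : ℕ} {A : AbVar g} (K : KSC A n m)

theorem mem_TC' (Y : Matrix (Idx g) (Idx g) ℂ) : Y ∈ K.TC ↔ ∃ w, Y = K.cl w := by
  constructor
  · intro hY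
    unfold KSC.TC at hY
    refine Submodule.span_induction (p := fun Y _ => ∃ w, Y = K.cl w) ?_ ?_ ?_ ?_ hY
    · rintro _ ⟨j, rfl⟩
      exact ⟨Pi.single j 1, (cl_single K j).symm⟩
    · exact ⟨0, (cl_zero K).symm⟩
    · rintro _ _ _ _ ⟨v, rfl⟩ ⟨w, rfl⟩
      exact ⟨v + w, (cl_add K v w).symm⟩
    · rintro c _ _ ⟨v, rfl⟩
      exact ⟨c • v, (cl_smul K c v).symm⟩
  · rintro ⟨w, rfl⟩
    unfold KSC.cl KSC.TC
    exact Submodule.sum_mem _ fun j _ => Submodule.smul_mem _ _ (Submodule.subset_span ⟨j, rfl⟩)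

/-- stable subspaces -/
def St (W : Submodule ℂ (Fin n → ℂ)) : Prop :=
  ∀ X ξ, InLie (Gam A) X ξ → ∀ v ∈ W, ∃ w ∈ W, X * K.cl v - K.cl v * X = K.cl w

theorem mem_Tl_of (z : ℂ) (q : Matrix (Fin n) (Fin n) ℂ) (v : Fin n → ℂ)
    (h : ((K.thC - z • 1) * q) *ᵥ v = 0) : q *ᵥ v ∈ K.Tl z := by
  rw [← Matrix.mulVec_mulVec, Matrix.sub_mulVec, Matrix.smul_mulVec, Matrix.one_mulVec] at h
  exact sub_eq_zero.1 h

theorem cl_sub (v w : Fin n → ℂ) : K.cl (v - w) = K.cl v - K.cl w := by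
  rw [sub_eq_add_neg, cl_add, ← neg_one_smul ℂ w, cl_smul, neg_one_smul, ← sub_eq_add_neg]

theorem cl_inj' (hK5a : Stmt_C5a) {v w : Fin n → ℂ} (h : K.cl v = K.cl w) : v = w := by
  have h1 := (hK5a g A n m K).2.1 (v - w) (by rw [cl_sub, h, sub_self])
  exact sub_eq_zero.1 h1

theorem st_sup {W W' : Submodule ℂ (Fin n → ℂ)} (h : St K W) (h' : St K W') : St K (W ⊔ W') := by
  intro X ξ hX v hv
  obtain ⟨a, ha, b, hb, rfl⟩ := Submodule.mem_sup.1 hv
  obtain ⟨w, hw, h1⟩ := h X ξ hX a ha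
  obtain ⟨w', hw', h2⟩ := h' X ξ hX b hb
  refine ⟨w + w', Submodule.add_mem_sup hw hw', ?_⟩
  rw [cl_add, cl_add, mul_add, add_mul, ← h1, ← h2]
  abel

theorem st_inf (hK5a : Stmt_C5a) {W W' : Submodule ℂ (Fin n → ℂ)} (h : St K W) (h' : St K W') :
    St K (W ⊓ W') := by
  intro X ξ hX v hv
  obtain ⟨w, hw, h1⟩ := h X ξ hX v hv.1
  obtain ⟨w', hw', h2⟩ := h' X ξ hX v hv.2
  have h3 : w = w' := cl_inj' K hK5a (by rw [← h1, ← h2])
  exact ⟨w, ⟨hw, h3 ▸ hw'⟩, h1⟩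

theorem st_bot : St K ⊥ := by
  intro X ξ _ v hv
  rw [Submodule.mem_bot] at hv
  refine ⟨0, Submodule.zero_mem _, ?_⟩
  rw [hv, cl_zero, mul_zero, zero_mul, sub_zero]

theorem st_top (hK2d : Stmt_C2d) : St K ⊤ := by
  intro X ξ hX v _
  obtain ⟨w, hw⟩ := (mem_TC' K _).1 ((hK2d g A n m K).2 X ξ hX (K.cl v) ((mem_TC' K _).2 ⟨v, rfl⟩))
  exact ⟨w, Submodule.mem_top, hw⟩

/-- automorphisms of `ℂ` -/
theorem cl_map' (σ : ℂ ≃ₐ[ℚ] ℂ) (v : Fin n → ℂ) : (K.cl v).map σ = K.cl (K2X.sv σ v) := by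
  ext a b
  unfold KSC.cl
  rw [Matrix.map_apply, Matrix.sum_apply, Matrix.sum_apply, map_sum]
  refine Finset.sum_congr rfl fun i _ => ?_
  simp [Matrix.smul_apply, K2X.sv, AbVar.toC]

theorem st_sv (hG4 : Stmt_Gb4) (hK2b : Stmt_K2b) (σ : ℂ ≃ₐ[ℚ] ℂ) {W : Submodule ℂ (Fin n → ℂ)}
    (h : St K W) : St K (K2X.Dsv σ W) := by
  intro X ξ hX v hv
  have h1 : InLie (Gam A) (X.map σ) (σ ξ) :=
    hK2b (Idx g) (Gam A) (fun σ p hp q h1 h2 => hG4 g A σ p hp q h1 h2) σ X ξ hX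
  obtain ⟨w, hw, h2⟩ := h _ _ h1 _ hv
  refine ⟨K2X.sv σ.symm w, ?_, ?_⟩
  · rw [K2X.mem_Dsv]
    have : K2X.sv σ (K2X.sv σ.symm w) = w := by
      funext k; simp [K2X.sv]
    rw [this]
    exact hw
  · have h3 := congrArg (fun M : Matrix (Idx g) (Idx g) ℂ => M.map σ.symm) h2
    rw [← cl_map'] at h3
    have e : ∀ M : Matrix (Idx g) (Idx g) ℂ, (M.map σ).map σ.symm = M := by
      intro M
      ext a b
      simp
    have h4 : (X.map σ * (K.cl v).map σ - (K.cl v).map σ * X.map σ).map σ.symm =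
        X * K.cl v - K.cl v * X := by
      rw [← FinX.map_mul', ← FinX.map_mul']
      have : ((X * K.cl v).map σ - (K.cl v * X).map σ) = (X * K.cl v - K.cl v * X).map σ := by
        ext a b
        show σ _ - σ _ = σ (_ - _)
        rw [map_sub]
      rw [this, e]
    rw [← cl_map']
    rw [← h4]
    exact h3

/-- conjugation by the group -/
theorem exists_conj (hK5a : Stmt_C5a) (hK2d : Stmt_C2d) (p : GL (Idx g) ℂ × ℂˣ) (hp : p ∈ Gam A) :
    ∃ b : (Fin n → ℂ) →ₗ[ℂ] (Fin n → ℂ), ∀ v, p.1.val * K.cl v * (p.1⁻¹).val = K.cl (b v) := by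
  have h1 : ∀ v, ∃ w, p.1.val * K.cl v * (p.1⁻¹).val = K.cl w := fun v =>
    (mem_TC' K _).1 ((hK2d g A n m K).1 p hp (K.cl v) ((mem_TC' K _).2 ⟨v, rfl⟩))
  choose b hb using h1
  refine ⟨{ toFun := b, map_add' := ?_, map_smul' := ?_ }, hb⟩
  · intro v w
    apply cl_inj' K hK5a
    rw [← hb, cl_add, cl_add, ← hb, ← hb, mul_add, add_mul]
  · intro c v
    apply cl_inj' K hK5a
    rw [← hb, RingHom.id_apply, cl_smul, cl_smul, ← hb, Matrix.mul_smul, Matrix.smul_mul]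

theorem st_comap (hK2a : Stmt_K2a) (p : GL (Idx g) ℂ × ℂˣ) (hp : p ∈ Gam A)
    (b b' : (Fin n → ℂ) →ₗ[ℂ] (Fin n → ℂ))
    (hb : ∀ v, p.1.val * K.cl v * (p.1⁻¹).val = K.cl (b v))
    (hb' : ∀ v, (p.1⁻¹).val * K.cl v * p.1.val = K.cl (b' v))
    (hbb : ∀ v, b (b' v) = v)
    {W : Submodule ℂ (Fin n → ℂ)} (h : St K W) : St K (W.comap b) := by
  intro X ξ hX v hv
  have h1 := (hK2a (Idx g) (Gam A)).2.2.2 X ξ hX p hp
  obtain ⟨w, hw, h2⟩ := h _ _ h1 (b v) hv
  refine ⟨b' w, ?_, ?_⟩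
  · rw [Submodule.mem_comap, hbb]
    exact hw
  · have e1 : p.1.val * (p.1⁻¹).val = 1 := by rw [← Units.val_mul]; simp
    have e2 : (p.1⁻¹).val * p.1.val = 1 := by rw [← Units.val_mul]; simp
    rw [← hb', ← h2, ← hb]
    have h3 : (p.1⁻¹).val * (p.1.val * X * (p.1⁻¹).val * (p.1.val * K.cl v * (p.1⁻¹).val) -
        p.1.val * K.cl v * (p.1⁻¹).val * (p.1.val * X * (p.1⁻¹).val)) * p.1.val =
        ((p.1⁻¹).val * p.1.val) * X * ((p.1⁻¹).val * p.1.val) * K.cl v * ((p.1⁻¹).val * p.1.val) -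
        ((p.1⁻¹).val * p.1.val) * K.cl v * ((p.1⁻¹).val * p.1.val) * X * ((p.1⁻¹).val * p.1.val) := by
      simp only [mul_sub, sub_mul, mul_assoc]
    rw [h3, e2]
    simp only [one_mul, mul_one]

include K in
theorem n_pos (hn : 1 ≤ m) : 0 < n := by
  rw [K.dim]
  exact Nat.mul_pos (by omega) K.irr.natDegree_pos

/-- the socle is everything -/
theorem soc_top (hn : 1 ≤ m) (hG4 : Stmt_Gb4) (hK2a : Stmt_K2a) (hK2b : Stmt_K2b) (hK2d : Stmt_C2d)
    (hK5a : Stmt_C5a) (hK5b : Stmt_C5b) : K5dX.soc (St K) = ⊤ := by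
  have hnp : 0 < n := n_pos K hn
  have hne : K5dX.soc (St K) ≠ ⊥ := by
    have h0 : (⊤ : Submodule ℂ (Fin n → ℂ)) ≠ ⊥ := by
      intro h
      have h1 : (Pi.single ⟨0, by omega⟩ 1 : Fin n → ℂ) ∈ (⊥ : Submodule ℂ (Fin n → ℂ)) := by
        rw [← h]; exact Submodule.mem_top
      rw [Submodule.mem_bot] at h1
      have := congrFun h1 ⟨0, by omega⟩
      simp at this
    obtain ⟨M, hM, -⟩ := K5dX.exists_min (St K) ⊤ (st_top K hK2d) h0
    intro h
    apply hM.2.1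
    apply le_bot_iff.1
    rw [← h]
    exact le_sSup hM
  refine (hK5b g A n m K hn (K5dX.soc (St K)) ?_ ?_).resolve_left hne
  · intro σ v hv
    have hmono : ∀ σ : ℂ ≃ₐ[ℚ] ℂ, Monotone (K2X.Dsv (κ := Fin n) σ) := by
      intro σ W W' hWW u hu
      exact hWW hu
    have e1 : ∀ (σ : ℂ ≃ₐ[ℚ] ℂ) (W : Submodule ℂ (Fin n → ℂ)),
        K2X.Dsv σ (K2X.Dsv σ.symm W) = W := by
      intro σ W
      ext u
      rw [K2X.mem_Dsv, K2X.mem_Dsv]
      have : K2X.sv σ.symm (K2X.sv σ u) = u := by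
        funext k; simp [K2X.sv]
      rw [this]
    have e2 : ∀ (σ : ℂ ≃ₐ[ℚ] ℂ) (W : Submodule ℂ (Fin n → ℂ)),
        K2X.Dsv σ.symm (K2X.Dsv σ W) = W := by
      intro σ W
      ext u
      rw [K2X.mem_Dsv, K2X.mem_Dsv]
      have : K2X.sv σ (K2X.sv σ.symm u) = u := by
        funext k; simp [K2X.sv]
      rw [this]
    have h1 := K5dX.soc_le (St K) (K2X.Dsv σ) (K2X.Dsv σ.symm) (hmono σ) (hmono σ.symm) (e1 σ) (e2 σ)
      (fun W hW => st_sv K hG4 hK2b σ hW) (fun W hW => st_sv K hG4 hK2b σ.symm hW)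
    exact h1 hv
  · intro p hp v hv
    obtain ⟨b, hb⟩ := exists_conj K hK5a hK2d p hp
    obtain ⟨b', hb'0⟩ := exists_conj K hK5a hK2d p⁻¹ (inv_mem hp)
    have hb' : ∀ v, (p.1⁻¹).val * K.cl v * p.1.val = K.cl (b' v) := by
      intro v
      have h1 := hb'0 v
      have e3 : ((p⁻¹).1⁻¹).val = p.1.val := by
        show ((p.1⁻¹)⁻¹).val = _
        rw [inv_inv]
      have e4 : (p⁻¹).1.val = (p.1⁻¹).val := rfl
      rwa [e3, e4] at h1
    have e1 : p.1.val * (p.1⁻¹).val = 1 := by rw [← Units.val_mul]; simp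
    have e2 : (p.1⁻¹).val * p.1.val = 1 := by rw [← Units.val_mul]; simp
    have hbb : ∀ v, b (b' v) = v := by
      intro v
      apply cl_inj' K hK5a
      rw [← hb, ← hb']
      calc _ = (p.1.val * (p.1⁻¹).val) * K.cl v * (p.1.val * (p.1⁻¹).val) := by simp only [mul_assoc]
        _ = _ := by rw [e1, one_mul, mul_one]
    have hbb' : ∀ v, b' (b v) = v := by
      intro v
      apply cl_inj' K hK5a
      rw [← hb', ← hb]
      calc _ = ((p.1⁻¹).val * p.1.val) * K.cl v * ((p.1⁻¹).val * p.1.val) := by simp only [mul_assoc]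
        _ = _ := by rw [e2, one_mul, mul_one]
    have h1 := K5dX.soc_le (St K) (fun W => W.comap b) (fun W => W.comap b')
      (fun W W' h => Submodule.comap_mono h) (fun W W' h => Submodule.comap_mono h)
      (fun W => by
        ext u
        rw [Submodule.mem_comap, Submodule.mem_comap, hbb'])
      (fun W => by
        ext u
        rw [Submodule.mem_comap, Submodule.mem_comap, hbb])
      (fun W hW => st_comap K hK2a p hp b b' hb hb' hbb hW)
      (fun W hW => st_comap K hK2a p⁻¹ (inv_mem hp) b' b (by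
          intro v
          have e3 : ((p⁻¹).1⁻¹).val = p.1.val := by
            show ((p.1⁻¹)⁻¹).val = _
            rw [inv_inv]
          have e4 : (p⁻¹).1.val = (p.1⁻¹).val := rfl
          rw [e3, e4]
          exact hb' v) (by
          intro v
          have e3 : ((p⁻¹).1⁻¹).val = p.1.val := by
            show ((p.1⁻¹)⁻¹).val = _
            rw [inv_inv]
          have e4 : (p⁻¹).1.val = (p.1⁻¹).val := rfl
          rw [e3, e4]
          exact hb v) hbb' hW)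
    exact ⟨b v, h1 hv, hb v⟩

/-! ### The Lie algebra acting on `T` -/

variable {K}

theorem exists_act (h2d : Stmt_C2d) (X : Matrix (Idx g) (Idx g) ℂ) (ξ : ℂ)
    (hX : InLie (Gam A) X ξ) : ∃ a, K.Act X a := by
  have h1 : ∀ v, ∃ w, X * K.cl v - K.cl v * X = K.cl w := fun v =>
    (mem_TC' K _).1 ((h2d g A n m K).2 X ξ hX (K.cl v) ((mem_TC' K _).2 ⟨v, rfl⟩))
  choose b hb using h1
  let f : (Fin n → ℂ) →ₗ[ℂ] (Fin n → ℂ) :=
    { toFun := b
      map_add' := by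
        intro v w
        apply C5X.cl_inj K
        rw [← hb, cl_add, cl_add, ← hb, ← hb, mul_add, add_mul]
        abel
      map_smul' := by
        intro c v
        apply C5X.cl_inj K
        rw [← hb, RingHom.id_apply, cl_smul, cl_smul, ← hb, Matrix.mul_smul, Matrix.smul_mul, smul_sub] }
  refine ⟨LinearMap.toMatrix' f, fun v => ?_⟩
  rw [LinearMap.toMatrix'_mulVec]
  exact hb v

theorem lstab_iff (h2d : Stmt_C2d) (W : Submodule ℂ (Fin n → ℂ)) :
    K.LStab W ↔ ∀ a, K.LT a → ∀ v ∈ W, a *ᵥ v ∈ W := by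
  constructor
  · rintro h a ⟨X, ξ, hX, ha⟩ v hv
    obtain ⟨w, hw, h1⟩ := h X ξ hX v hv
    rw [ha v] at h1
    rw [C5X.cl_inj K h1]
    exact hw
  · intro h X ξ hX v hv
    obtain ⟨a, ha⟩ := exists_act (K := K) h2d X ξ hX
    exact ⟨a *ᵥ v, h a ⟨X, ξ, hX, ha⟩ v hv, ha v⟩

theorem lt_S (h2c : Stmt_K2c) (h5v : Stmt_C5v) (hm : 1 ≤ m) (a : Matrix (Fin n) (Fin n) ℂ) (ha : K.LT a) :
    a ∈ K.S := by
  obtain ⟨X, ξ, hX, ha⟩ := ha
  exact (h5v g A n m K hm).1 X a (fun α hα => (h2c g A X ξ hX).1 α hα) ha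

/-- A skew matrix commuting with the Lie algebra commutes with `S`. -/
theorem skew_comm (hq : DRB.Stmt_DescQ) (h2c : Stmt_K2c) (h2d : Stmt_C2d) (h4 : Stmt_K4)
    (b : Matrix (Fin n) (Fin n) ℂ) (hb : ∀ v w, K.bil (b *ᵥ v) w + K.bil v (b *ᵥ w) = 0)
    (hcomm : ∀ a, K.LT a → a * b = b * a) : ∀ s ∈ K.S, s * b = b * s := by
  have hbr := lift K b hb
  have hXZ : ∀ X ξ, InLie (Gam A) X ξ → X * K.Z b = K.Z b * X := by
    intro X ξ hX
    obtain ⟨a, ha⟩ := exists_act (K := K) h2d X ξ hX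
    have hab := hcomm a ⟨X, ξ, hX, ha⟩
    have ha' : ∀ v, X * K.cl v - K.cl v * X = K.cl (a *ᵥ v) := ha
    have h1 : ∀ v, (X * K.Z b - K.Z b * X) * K.cl v = K.cl v * (X * K.Z b - K.Z b * X) := by
      intro v
      have e1 : (X * K.Z b - K.Z b * X) * K.cl v - K.cl v * (X * K.Z b - K.Z b * X) =
          (X * (K.Z b * K.cl v - K.cl v * K.Z b) - (K.Z b * K.cl v - K.cl v * K.Z b) * X) -
          (K.Z b * (X * K.cl v - K.cl v * X) - (X * K.cl v - K.cl v * X) * K.Z b) := by noncomm_ring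
      rw [hbr, ha', ha', hbr, Matrix.mulVec_mulVec, Matrix.mulVec_mulVec, hab, sub_self] at e1
      exact sub_eq_zero.1 e1
    have hXe := comm_even K hq X fun α hα => (h2c g A X ξ hX).1 α hα
    obtain ⟨c, hc⟩ := even_scalar K _ (Submodule.sub_mem _ (Pw_mul K _ _ hXe (Z_even K b))
      (Pw_mul K _ _ (Z_even K b) hXe)) h1
    have h3 : Matrix.trace (X * K.Z b - K.Z b * X) = 0 := by
      rw [Matrix.trace_sub, Matrix.trace_mul_comm, sub_self]
    rw [hc, Matrix.trace_smul, Matrix.trace_one, smul_eq_mul] at h3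
    have hcard : ((Fintype.card (Idx g) : ℕ) : ℂ) ≠ 0 := by
      have : Nonempty (Idx g) := ⟨Sum.inl ⟨0, K.pos⟩⟩
      exact_mod_cast Fintype.card_ne_zero
    rw [(mul_eq_zero.1 h3).resolve_right hcard, zero_smul] at hc
    exact sub_eq_zero.1 hc
  have hmem := h4 g A (K.Z b) hXZ
  intro s hs
  have h5 := Z_span K hq (K.Z b) hmem s hs
  have hsl := lift K s (S_skew K s hs)
  refine mat_ext fun v => ?_
  apply C5X.cl_inj K
  rw [← Matrix.mulVec_mulVec, ← Matrix.mulVec_mulVec, ← hsl, ← hbr, ← hbr, ← hsl]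
  have e1 : K.Z s * (K.Z b * K.cl v - K.cl v * K.Z b) - (K.Z b * K.cl v - K.cl v * K.Z b) * K.Z s =
      (K.Z s * K.Z b) * K.cl v - K.Z s * K.cl v * K.Z b - K.Z b * K.cl v * K.Z s +
      K.cl v * (K.Z b * K.Z s) := by noncomm_ring
  have e2 : K.Z b * (K.Z s * K.cl v - K.cl v * K.Z s) - (K.Z s * K.cl v - K.cl v * K.Z s) * K.Z b =
      (K.Z b * K.Z s) * K.cl v - K.Z s * K.cl v * K.Z b - K.Z b * K.cl v * K.Z s +
      K.cl v * (K.Z s * K.Z b) := by noncomm_ring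
  rw [e1, e2, h5]

variable (K)

/-- the adjoint of a matrix -/
def adj (P : Matrix (Fin n) (Fin n) ℂ) : Matrix (Fin n) (Fin n) ℂ :=
  fun j i => (K.q j : ℂ)⁻¹ * P i j * (K.q i : ℂ)

variable {K}

theorem bil_adj (P : Matrix (Fin n) (Fin n) ℂ) (v w : Fin n → ℂ) :
    K.bil (P *ᵥ v) w = K.bil v (adj K P *ᵥ w) := by
  unfold KSC.bil
  have e1 : ∀ i, (P *ᵥ v) i = ∑ j, P i j * v j := fun i => rfl
  have e2 : ∀ j, (adj K P *ᵥ w) j = ∑ i, (K.q j : ℂ)⁻¹ * P i j * (K.q i : ℂ) * w i := fun j => rfl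
  simp only [e1, e2, Finset.mul_sum, Finset.sum_mul]
  rw [Finset.sum_comm]
  refine Finset.sum_congr rfl fun j _ => Finset.sum_congr rfl fun i _ => ?_
  have hqj : (K.q j : ℂ) ≠ 0 := by exact_mod_cast K.q_ne j
  field_simp

theorem bil_adj' (P : Matrix (Fin n) (Fin n) ℂ) (v w : Fin n → ℂ) :
    K.bil (adj K P *ᵥ v) w = K.bil v (P *ᵥ w) := by
  rw [bil_comm, ← bil_adj, bil_comm]

theorem bil_sub_left (a b c : Fin n → ℂ) : K.bil (a - b) c = K.bil a c - K.bil b c := by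
  rw [sub_eq_add_neg, bil_add_left, ← neg_one_smul ℂ b, bil_smul_left]
  ring

theorem bil_sub_right (a b c : Fin n → ℂ) : K.bil a (b - c) = K.bil a b - K.bil a c := by
  rw [bil_comm, bil_sub_left, bil_comm K b, bil_comm K c]

theorem skew_sub_adj (P : Matrix (Fin n) (Fin n) ℂ) (v w : Fin n → ℂ) :
    K.bil ((P - adj K P) *ᵥ v) w + K.bil v ((P - adj K P) *ᵥ w) = 0 := by
  rw [Matrix.sub_mulVec, Matrix.sub_mulVec, bil_sub_left, bil_sub_right, bil_adj, bil_adj']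
  ring

/-- The adjoint commutes with the Lie algebra. -/
theorem adj_comm (P : Matrix (Fin n) (Fin n) ℂ) (a : Matrix (Fin n) (Fin n) ℂ)
    (ha : ∀ v w, K.bil (a *ᵥ v) w + K.bil v (a *ᵥ w) = 0) (h : a * P = P * a) :
    a * adj K P = adj K P * a := by
  refine mat_ext fun v => ?_
  rw [← sub_eq_zero]
  refine bil_nondeg K _ fun w => ?_
  rw [bil_sub_left, ← Matrix.mulVec_mulVec, ← Matrix.mulVec_mulVec, bil_adj']
  have h1 := ha (adj K P *ᵥ v) w
  have h2 := ha v (P *ᵥ w)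
  rw [bil_adj' P v (a *ᵥ w)] at h1
  have h3 : a *ᵥ (P *ᵥ w) = P *ᵥ (a *ᵥ w) := by
    rw [Matrix.mulVec_mulVec, Matrix.mulVec_mulVec, h]
  rw [h3] at h2
  linear_combination h1 - h2

end C5dX

open C5dX in
theorem C5d_proof (hq : DRB.Stmt_DescQ) (hG4 : Stmt_Gb4) (hK2a : Stmt_K2a) (hK2b : Stmt_K2b) (hK2c : Stmt_K2c)
    (h2d : Stmt_C2d) (hK4 : Stmt_K4) (h5a : Stmt_C5a) (h5v : Stmt_C5v) (h5b : Stmt_C5b)
    (h5c : Stmt_C5c) (h5l : Stmt_C5l) : Stmt_C5d := by
  intro g A n m K hm W hW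
  obtain ⟨-, -, horth, hdual, -, hpres, hcen, hst, -, hscal⟩ := h5l g A n m K hm
  have hcompl : ∀ W, K.LStab W → ∃ M, K.LStab M ∧ IsCompl W M := fun W hW =>
    K5dX.exists_compl (St K) (fun _ _ h h' => st_sup K h h')
      (fun _ _ h h' => st_inf K h5a h h') (st_bot K) (soc_top K hm hG4 hK2a hK2b h2d h5a h5b) W hW
  obtain ⟨M, hM, hc⟩ := hcompl W hW
  -- the projection
  let Pl : (Fin n → ℂ) →ₗ[ℂ] (Fin n → ℂ) := W.projection M hc
  have hπ1 : ∀ v, Pl v ∈ W := fun v => Submodule.projection_apply_mem hc v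
  have hπ2 : ∀ v, v - Pl v ∈ M := fun v => Submodule.sub_projection_mem hc v
  have hπ3 : ∀ v ∈ W, Pl v = v := fun v hv => (Submodule.projection_eq_self_iff hc v).2 hv
  have hπ4 : ∀ v ∈ M, Pl v = 0 := fun v hv => (Submodule.projection_apply_eq_zero_iff hc).2 hv
  clear_value Pl
  set x : Matrix (Fin n) (Fin n) ℂ := LinearMap.toMatrix' Pl with hx
  have hxP : ∀ v, x *ᵥ v = Pl v := fun v => by rw [hx, LinearMap.toMatrix'_mulVec]
  clear_value x
  have hWi := (lstab_iff h2d W).1 hW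
  have hMi := (lstab_iff h2d M).1 hM
  have hLS : ∀ a, K.LT a → a ∈ K.S := fun a ha => lt_S hK2c h5v hm a ha
  have hxL : ∀ a, K.LT a → a * x = x * a := by
    intro a ha
    refine mat_ext fun v => ?_
    rw [← Matrix.mulVec_mulVec, ← Matrix.mulVec_mulVec, hxP, hxP]
    have e1 : a *ᵥ v = a *ᵥ Pl v + a *ᵥ (v - Pl v) := by
      rw [← Matrix.mulVec_add, add_sub_cancel]
    rw [e1, map_add, hπ3 _ (hWi a ha _ (hπ1 v)), hπ4 _ (hMi a ha _ (hπ2 v)), add_zero]
  -- the skew part commutes with `S`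
  set e : Matrix (Fin n) (Fin n) ℂ := x - adj K x with he
  have heL : ∀ a, K.LT a → a * e = e * a := by
    intro a ha
    rw [he, mul_sub, sub_mul, hxL a ha, adj_comm x a (S_skew K a (hLS a ha)) (hxL a ha)]
  have heS := skew_comm hq hK2c h2d hK4 e (fun v w => skew_sub_adj x v w) heL
  -- `x` acts by scalars on the eigenspaces
  have hsc : ∀ z : ℂ, Polynomial.aeval z K.P = 0 → ∃ c : ℂ, ∀ v ∈ K.Tl z, x *ᵥ v = c • v := by
    intro z hz
    have hz' : Polynomial.aeval ((starRingEnd ℂ) z) K.P = 0 := by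
      have h1 := Polynomial.aeval_conj (K.P.map (algebraMap ℚ ℝ)) z
      rw [Polynomial.aeval_map_algebraMap, Polynomial.aeval_map_algebraMap, hz, map_zero] at h1
      exact h1
    have hzc : (starRingEnd ℂ) ((starRingEnd ℂ) z) = z := Complex.conj_conj z
    have hzne : (starRingEnd ℂ) z ≠ z := by
      intro h
      have h1 := (K.cm z hz).1
      exact h1 (Complex.conj_eq_iff_im.1 h)
    obtain ⟨d, hd, hdS, hd1, hd2, hd3⟩ := hcen z hz
    -- the projections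
    set p : Matrix (Fin n) (Fin n) ℂ := (1 / 2 : ℂ) • (d * d + d) with hp
    set p' : Matrix (Fin n) (Fin n) ℂ := (1 / 2 : ℂ) • (d * d - d) with hp'
    have hpz : ∀ v ∈ K.Tl z, p *ᵥ v = v := by
      intro v hv
      rw [hp, Matrix.smul_mulVec, Matrix.add_mulVec, ← Matrix.mulVec_mulVec, hd1 v hv, hd1 v hv,
        ← two_smul ℂ v, smul_smul]
      norm_num
    have hp'z : ∀ v ∈ K.Tl ((starRingEnd ℂ) z), p' *ᵥ v = v := by
      intro v hv
      rw [hp', Matrix.smul_mulVec, Matrix.sub_mulVec, ← Matrix.mulVec_mulVec, hd2 v hv,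
        Matrix.mulVec_neg, hd2 v hv, neg_neg, sub_neg_eq_add, ← two_smul ℂ v, smul_smul]
      norm_num
    have hp'mem : ∀ v, p' *ᵥ v ∈ K.Tl ((starRingEnd ℂ) z) := by
      intro v
      have hcon : ((K.thC - ((starRingEnd ℂ) z) • 1) * p') *ᵥ v = 0 := by
        refine ext_Tl (K := K) h5l hm ((K.thC - ((starRingEnd ℂ) z) • 1) * p').mulVecLin 0
          (fun z' _ w' hw' => ?_) v
        rw [Matrix.mulVecLin_apply, LinearMap.zero_apply, ← Matrix.mulVec_mulVec]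
        by_cases e1 : z' = z
        · subst e1
          have : p' *ᵥ w' = 0 := by
            rw [hp', Matrix.smul_mulVec, Matrix.sub_mulVec, ← Matrix.mulVec_mulVec, hd1 w' hw',
              hd1 w' hw', sub_self, smul_zero]
          rw [this, Matrix.mulVec_zero]
        · by_cases e2 : z' = (starRingEnd ℂ) z
          · subst e2
            have hw1 : K.thC *ᵥ w' = ((starRingEnd ℂ) z) • w' := hw'
            rw [hp'z w' hw', Matrix.sub_mulVec, Matrix.smul_mulVec, Matrix.one_mulVec, hw1, sub_self]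
          · have : p' *ᵥ w' = 0 := by
              rw [hp', Matrix.smul_mulVec, Matrix.sub_mulVec, ← Matrix.mulVec_mulVec,
                hd3 z' e1 e2 w' hw', Matrix.mulVec_zero, sub_self, smul_zero]
            rw [this, Matrix.mulVec_zero]
      exact mem_Tl_of K _ _ _ hcon
    have hpS : ∀ s ∈ K.S, s * p = p * s := by
      intro s hs
      have h1 := hdS s hs
      rw [hp, Matrix.mul_smul, Matrix.smul_mul, mul_add, add_mul, ← mul_assoc, ← h1, mul_assoc d s d,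
        ← h1, mul_assoc]
    have hp'S : ∀ s ∈ K.S, s * p' = p' * s := by
      intro s hs
      have h1 := hdS s hs
      rw [hp', Matrix.mul_smul, Matrix.smul_mul, mul_sub, sub_mul, ← mul_assoc, ← h1, mul_assoc d s d,
        ← h1, mul_assoc]
    -- the adjoint of `x * p`
    have hadj : ∀ v w, K.bil ((x * p) *ᵥ v) w = K.bil v ((p' * adj K x) *ᵥ w) := by
      intro v w
      have hdd := S_skew K d hd
      have hpp : ∀ v w, K.bil (p *ᵥ v) w = K.bil v (p' *ᵥ w) := by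
        intro v w
        rw [hp, hp', Matrix.smul_mulVec, Matrix.smul_mulVec, bil_smul_left, bil_smul_right,
          Matrix.add_mulVec, Matrix.sub_mulVec, bil_add_left, bil_sub_right,
          ← Matrix.mulVec_mulVec, ← Matrix.mulVec_mulVec]
        have h1 := hdd (d *ᵥ v) w
        have h2 := hdd v (d *ᵥ w)
        have h3 := hdd v w
        linear_combination (1 / 2 : ℂ) * (h1 - h2 + h3)
      rw [← Matrix.mulVec_mulVec, bil_adj, hpp, Matrix.mulVec_mulVec]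
    -- `x p - p' x` commutes with `S`
    have hyS : ∀ s ∈ K.S, s * (x * p - p' * x) = (x * p - p' * x) * s := by
      have hy : x * p - p' * x = (x * p - p' * adj K x) - p' * e := by
        rw [he, mul_sub]
        abel
      have h1 : ∀ s ∈ K.S, s * (x * p - p' * adj K x) = (x * p - p' * adj K x) * s := by
        refine skew_comm hq hK2c h2d hK4 _ (fun v w => ?_) fun a ha => ?_
        · rw [Matrix.sub_mulVec, Matrix.sub_mulVec, bil_sub_left, bil_sub_right, hadj v w,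
            bil_comm K v ((x * p) *ᵥ w), hadj w v, bil_comm K w]
          ring
        · have h2 := hxL a ha
          have h3 := adj_comm x a (S_skew K a (hLS a ha)) h2
          have h4 := hpS a (hLS a ha)
          have h5 := hp'S a (hLS a ha)
          have e1 : a * (x * p - p' * adj K x) = (a * x) * p - (a * p') * adj K x := by noncomm_ring
          have e2 : (x * p - p' * adj K x) * a = x * (p * a) - p' * (adj K x * a) := by noncomm_ring
          rw [e1, e2, h2, h5, ← h4, ← h3]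
          noncomm_ring
      intro s hs
      have h2 := h1 s hs
      have h3 := heS s hs
      have h4 := hp'S s hs
      rw [hy, mul_sub, sub_mul, h2, ← mul_assoc, h4, mul_assoc, h3, mul_assoc]
    obtain ⟨c, hcz⟩ := hscal (x * p - p' * x) (fun s hs => (hyS s hs).symm) z hz
    -- `x v = c v + φ v`
    set φ : Matrix (Fin n) (Fin n) ℂ := p' * x with hφ
    have hxv : ∀ v ∈ K.Tl z, x *ᵥ v = c • v + φ *ᵥ v := by
      intro v hv
      have h1 := hcz v hv
      rw [Matrix.sub_mulVec, ← Matrix.mulVec_mulVec, hpz v hv] at h1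
      rw [← h1, sub_add_cancel]
    have hφmem : ∀ v, φ *ᵥ v ∈ K.Tl ((starRingEnd ℂ) z) := by
      intro v
      rw [hφ, ← Matrix.mulVec_mulVec]
      exact hp'mem _
    have hφL : ∀ a, K.LT a → ∀ v, a *ᵥ (φ *ᵥ v) = φ *ᵥ (a *ᵥ v) := by
      intro a ha v
      rw [Matrix.mulVec_mulVec, Matrix.mulVec_mulVec, hφ, ← mul_assoc, hp'S a (hLS a ha), mul_assoc,
        hxL a ha, mul_assoc]
    have hiso : ∀ v ∈ K.Tl z, ∀ w ∈ K.Tl z, K.bil v w = 0 := horth z z hz hzne.symm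
    have hiso' : ∀ v ∈ K.Tl ((starRingEnd ℂ) z), ∀ w ∈ K.Tl ((starRingEnd ℂ) z), K.bil v w = 0 :=
      horth _ _ hz' (by rw [hzc]; exact hzne)
    have hsym : ∀ v ∈ K.Tl z, ∀ w ∈ K.Tl z, K.bil (φ *ᵥ v) w = K.bil v (φ *ᵥ w) := by
      intro v hv w hw
      obtain ⟨c', hc'⟩ := hscal e (fun s hs => (heS s hs).symm) z hz
      have e1 : K.bil (φ *ᵥ v) w = K.bil (x *ᵥ v) w := by
        rw [hxv v hv, bil_add_left, bil_smul_left, hiso v hv w hw, mul_zero, zero_add]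
      have e2 : K.bil v (φ *ᵥ w) = K.bil v (x *ᵥ w) := by
        rw [hxv w hw, bil_add_right, bil_smul_right, hiso v hv w hw, mul_zero, zero_add]
      have e3 : adj K x *ᵥ w = x *ᵥ w - c' • w := by
        have h1 := hc' w hw
        rw [he, Matrix.sub_mulVec] at h1
        rw [← h1]
        abel
      rw [e1, e2, bil_adj, e3, bil_sub_right, bil_smul_right, hiso v hv w hw, mul_zero, sub_zero]
    -- the kernel of `φ` on `T_z`
    let Kφ : Submodule ℂ (Fin n → ℂ) := K.Tl z ⊓ LinearMap.ker φ.mulVecLin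
    have hKφ : ∀ v, v ∈ Kφ ↔ v ∈ K.Tl z ∧ φ *ᵥ v = 0 := by
      intro v
      rw [Submodule.mem_inf, LinearMap.mem_ker, Matrix.mulVecLin_apply]
    have hKL : K.LStab Kφ := by
      rw [lstab_iff h2d]
      intro a ha v hv
      rw [hKφ] at hv ⊢
      exact ⟨hpres a (hLS a ha) z v hv.1, by rw [← hφL a ha, hv.2, Matrix.mulVec_zero]⟩
    obtain ⟨M', hM', hc'⟩ := hcompl Kφ hKL
    have hM'i := (lstab_iff h2d M').1 hM'
    let U : Submodule ℂ (Fin n → ℂ) := M' ⊓ K.Tl z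
    have hdecU : ∀ v ∈ K.Tl z, ∃ k ∈ Kφ, ∃ u ∈ U, v = k + u := by
      intro v hv
      have h1 : v ∈ Kφ ⊔ M' := by rw [hc'.sup_eq_top]; exact Submodule.mem_top
      obtain ⟨k, hk, u, hu, rfl⟩ := Submodule.mem_sup.1 h1
      refine ⟨k, hk, u, ⟨hu, ?_⟩, rfl⟩
      have h2 : (k + u) - k ∈ K.Tl z := Submodule.sub_mem _ hv ((hKφ k).1 hk).1
      rwa [add_sub_cancel_left] at h2
    have hU0 : ∀ u ∈ U, φ *ᵥ u = 0 → u = 0 := by
      intro u hu h0
      have h1 : u ∈ Kφ := (hKφ u).2 ⟨hu.2, h0⟩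
      have h2 : u ∈ Kφ ⊓ M' := ⟨h1, hu.1⟩
      rw [hc'.inf_eq_bot] at h2
      exact (Submodule.mem_bot ℂ).1 h2
    let W' : Submodule ℂ (Fin n → ℂ) := U.map (LinearMap.id + φ.mulVecLin)
    have hW'mem : ∀ v, v ∈ W' ↔ ∃ u ∈ U, u + φ *ᵥ u = v := fun v => Iff.rfl
    have hW'L : K.LStab W' := by
      rw [lstab_iff h2d]
      intro a ha v hv
      obtain ⟨u, hu, rfl⟩ := (hW'mem v).1 hv
      rw [hW'mem]
      refine ⟨a *ᵥ u, ⟨hM'i a ha u hu.1, hpres a (hLS a ha) z u hu.2⟩, ?_⟩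
      rw [Matrix.mulVec_add, hφL a ha]
    have hbu : ∀ u ∈ K.Tl z, ∀ w ∈ K.Tl z,
        K.bil (u + φ *ᵥ u) (w + φ *ᵥ w) = 2 * K.bil (φ *ᵥ u) w := by
      intro u hu w hw
      rw [bil_add_left, bil_add_right, bil_add_right, hiso u hu w hw,
        hiso' _ (hφmem u) _ (hφmem w), ← hsym u hu w hw]
      ring
    have hφ0 : ∀ v ∈ K.Tl z, φ *ᵥ v = 0 := by
      have hnd : ∀ v ∈ W', (∀ w ∈ W', K.bil v w = 0) → v = 0 := by
        intro v hv hv0
        obtain ⟨u, hu, rfl⟩ := (hW'mem v).1 hv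
        have h1 : φ *ᵥ u = 0 := by
          refine hdual _ hz' _ (hφmem u) fun w hw => ?_
          rw [hzc] at hw
          obtain ⟨k, hk, u', hu', rfl⟩ := hdecU w hw
          have h2 := hv0 (u' + φ *ᵥ u') ((hW'mem _).2 ⟨u', hu', rfl⟩)
          rw [hbu u hu.2 u' hu'.2] at h2
          have h3 := (mul_eq_zero.1 h2).resolve_left two_ne_zero
          have h4 : K.bil (φ *ᵥ u) k = 0 := by
            rw [hsym u hu.2 k ((hKφ k).1 hk).1, ((hKφ k).1 hk).2]
            simpa using bil_smul_right K 0 u 0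
          rw [bil_add_right, h4, h3, add_zero]
        rw [h1, add_zero, hU0 u hu h1]
      have hS := h5c g A n m K W' hW'L hnd
      rcases hst W' hS z hz with h1 | h1
      · intro v hv
        obtain ⟨u, hu, huv⟩ := (hW'mem v).1 (h1 hv)
        have h2 : φ *ᵥ u ∈ K.Tl z := by
          have : φ *ᵥ u = v - u := by rw [← huv]; abel
          rw [this]
          exact Submodule.sub_mem _ hv hu.2
        have h3 : φ *ᵥ u = 0 := by
          have f1 : K.thC *ᵥ (φ *ᵥ u) = z • (φ *ᵥ u) := h2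
          have f2 : K.thC *ᵥ (φ *ᵥ u) = ((starRingEnd ℂ) z) • (φ *ᵥ u) := hφmem u
          have f3 : (z - (starRingEnd ℂ) z) • (φ *ᵥ u) = 0 := by
            rw [sub_smul, ← f1, ← f2, sub_self]
          exact (smul_eq_zero.1 f3).resolve_left (sub_ne_zero.2 hzne.symm)
        have h4 := hU0 u hu h3
        rw [← huv, h4, Matrix.mulVec_zero, add_zero, Matrix.mulVec_zero]
      · intro v hv
        obtain ⟨k, hk, u, hu, rfl⟩ := hdecU v hv
        have h2 : u = 0 := by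
          refine hdual z hz u hu.2 fun y hy => ?_
          have h3 := h1 (u + φ *ᵥ u) ((hW'mem _).2 ⟨u, hu, rfl⟩) y hy
          rw [bil_add_right, hiso' y hy _ (hφmem u), add_zero] at h3
          rw [bil_comm]
          exact h3
        rw [h2, add_zero]
        exact ((hKφ k).1 hk).2
    exact ⟨c, fun v hv => by rw [hxv v hv, hφ0 v hv, add_zero]⟩
  intro a ha v hv
  have hax : ∀ v, (a * x) *ᵥ v = (x * a) *ᵥ v := by
    intro v
    refine ext_Tl (K := K) h5l hm (a * x).mulVecLin (x * a).mulVecLin (fun z hz w hw => ?_) v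
    obtain ⟨c, hcz⟩ := hsc z hz
    rw [Matrix.mulVecLin_apply, Matrix.mulVecLin_apply, ← Matrix.mulVec_mulVec,
      ← Matrix.mulVec_mulVec, hcz w hw, hcz _ (hpres a ha z w hw), Matrix.mulVec_smul]
  have h1 := hax v
  rw [← Matrix.mulVec_mulVec, ← Matrix.mulVec_mulVec, hxP, hxP, hπ3 v hv] at h1
  rw [h1]
  exact hπ1 _

end

end Pool.Agent.K3C
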