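import Pool.Agent.K3C.C5l

/-!
# C5L: linear algebra of the eigenspaces of `E` (items 5, 8, 9, 10), and the whole statement
-/

set_option autoImplicit false

open scoped BigOperators
open Matrix Polynomial

namespace Pool.Agent.K3C

open Pool.Agent.DRB Pool.Agent.K3D

namespace C5L

open Pool.Agent.K3E.E5L (exists_aut)

variable {g n m : ℕ} {A : AbVar g} (K : KSC A n m)

/-! ### Elements of rank two -/

/-- the element `x ∧ y` -/
def wm (x y : Fin n → ℂ) : Matrix (Fin n) (Fin n) ℂ :=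
  Matrix.of fun i j => x i * ((K.q j : ℂ) * y j) - y i * ((K.q j : ℂ) * x j)

theorem wm_mulVec (x y v : Fin n → ℂ) : wm K x y *ᵥ v = K.bil y v • x - K.bil x v • y := by
  ext i
  simp only [Matrix.mulVec, dotProduct, wm, Matrix.of_apply, Pi.sub_apply, Pi.smul_apply,
    smul_eq_mul, KSC.bil, Finset.sum_mul]
  rw [← Finset.sum_sub_distrib]
  exact Finset.sum_congr rfl fun j _ => by ring

theorem bil_sub_left (x y w : Fin n → ℂ) : K.bil (x - y) w = K.bil x w - K.bil y w := by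
  rw [← bf_apply, map_sub, LinearMap.sub_apply, bf_apply, bf_apply]

theorem bil_sub_right (x y w : Fin n → ℂ) : K.bil w (x - y) = K.bil w x - K.bil w y := by
  rw [← bf_apply, map_sub, bf_apply, bf_apply]

theorem wm_mem {z : ℂ} (hz : aeval z K.P = 0) {x y : Fin n → ℂ} (hx : x ∈ K.Tl z)
    (hy : y ∈ K.Tl ((starRingEnd ℂ) z)) : wm K x y ∈ K.S := by
  have hne := conj_ne K hz
  refine (mem_S K).2 ⟨?_, ?_⟩
  · intro v w
    rw [wm_mulVec, wm_mulVec, bil_sub_left, bil_sub_right, bil_smul_left, bil_smul_left,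
      bil_smul_right, bil_smul_right, bil_comm K v x, bil_comm K v y]
    ring
  · refine mat_extT K fun z' _ v hv => ?_
    rw [← Matrix.mulVec_mulVec, ← Matrix.mulVec_mulVec, (mem_Tl K).1 hv, Matrix.mulVec_smul,
      wm_mulVec, Matrix.mulVec_sub, Matrix.mulVec_smul, Matrix.mulVec_smul, (mem_Tl K).1 hx,
      (mem_Tl K).1 hy]
    by_cases h1 : z' = z
    · subst h1
      rw [orth K (fun h => hne h.symm) hx hv, zero_smul, zero_smul, sub_zero, sub_zero, smul_comm]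
    · have h2 : K.bil y v = 0 := orth K (fun h => h1 (by rw [h, Complex.conj_conj])) hy hv
      rw [h2, zero_smul, zero_smul, zero_sub, zero_sub, smul_neg]
      by_cases h3 : z' = (starRingEnd ℂ) z
      · subst h3
        rw [smul_comm]
      · rw [orth K h3 hx hv, zero_smul, zero_smul, smul_zero]

/-- the projection onto `T_z` by a central element -/
theorem proj_mem {z : ℂ} {a : Matrix (Fin n) (Fin n) ℂ}
    (h1 : ∀ v ∈ K.Tl z, a *ᵥ v = v) (h2 : ∀ v ∈ K.Tl ((starRingEnd ℂ) z), a *ᵥ v = -v)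
    (h3 : ∀ z' : ℂ, z' ≠ z → z' ≠ (starRingEnd ℂ) z → ∀ v ∈ K.Tl z', a *ᵥ v = 0) (v : Fin n → ℂ) :
    a *ᵥ (a *ᵥ v) + a *ᵥ v ∈ K.Tl z := by
  refine indT K (p := fun v => a *ᵥ (a *ᵥ v) + a *ᵥ v ∈ K.Tl z) ?_ ?_ ?_ v
  · intro z' _ v hv
    by_cases hz1 : z' = z
    · subst hz1
      rw [h1 v hv, h1 v hv]
      exact Submodule.add_mem _ hv hv
    · by_cases hz2 : z' = (starRingEnd ℂ) z
      · subst hz2
        rw [h2 v hv, Matrix.mulVec_neg, h2 v hv, neg_neg, add_neg_cancel]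
        exact Submodule.zero_mem _
      · rw [h3 z' hz1 hz2 v hv, Matrix.mulVec_zero, add_zero]
        exact Submodule.zero_mem _
  · simp only [Matrix.mulVec_zero, add_zero]
    exact Submodule.zero_mem _
  · intro v w hv hw
    have e : a *ᵥ (a *ᵥ (v + w)) + a *ᵥ (v + w) =
        (a *ᵥ (a *ᵥ v) + a *ᵥ v) + (a *ᵥ (a *ᵥ w) + a *ᵥ w) := by
      rw [Matrix.mulVec_add, Matrix.mulVec_add]
      abel
    rw [e]
    exact Submodule.add_mem _ hv hw

/-- stable subspaces -/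
theorem stable {W : Submodule ℂ (Fin n → ℂ)} (hW : ∀ a ∈ K.S, ∀ v ∈ W, a *ᵥ v ∈ W) {z : ℂ}
    (hz : aeval z K.P = 0) :
    K.Tl z ≤ W ∨ ∀ w ∈ W, ∀ y ∈ K.Tl ((starRingEnd ℂ) z), K.bil y w = 0 := by
  by_cases h : ∀ w ∈ W, ∀ y ∈ K.Tl ((starRingEnd ℂ) z), K.bil y w = 0
  · exact Or.inr h
  left
  push Not at h
  obtain ⟨w, hw, y, hy, hne⟩ := h
  obtain ⟨a, ha, -, h1, h2, h3⟩ := central K hz
  have hw' := proj_mem K h1 h2 h3 w
  have hwW : a *ᵥ (a *ᵥ w) + a *ᵥ w ∈ W :=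
    Submodule.add_mem _ (hW a ha _ (hW a ha _ hw)) (hW a ha _ hw)
  have h4 : ∀ v, K.bil y (a *ᵥ v) = K.bil y v := by
    intro v
    have := bil_S K ha y v
    rw [h2 y hy, ← neg_one_smul ℂ y, bil_smul_left] at this
    have h5 : K.bil y (a *ᵥ v) = - (-1 * K.bil y v) := by rw [this, neg_neg]
    rw [h5]
    ring
  have h5 : K.bil y (a *ᵥ (a *ᵥ w) + a *ᵥ w) = 2 * K.bil y w := by
    rw [bil_add_right, h4, h4]
    ring
  have h6 : K.bil y (a *ᵥ (a *ᵥ w) + a *ᵥ w) ≠ 0 := by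
    rw [h5]
    exact mul_ne_zero two_ne_zero hne
  generalize a *ᵥ (a *ᵥ w) + a *ᵥ w = u at hw' hwW h6
  intro x hx
  have h7 := hW _ (wm_mem K hz hx hy) u hwW
  rw [wm_mulVec, orth K (fun h => conj_ne K hz h.symm) hx hw', zero_smul, sub_zero] at h7
  have h8 := W.smul_mem (K.bil y u)⁻¹ h7
  rwa [smul_smul, inv_mul_cancel₀ h6, one_smul] at h8

/-- rational stable subspaces -/
theorem stableQ {W : Submodule ℂ (Fin n → ℂ)}
    (hσ : ∀ (σ : ℂ ≃ₐ[ℚ] ℂ), ∀ v ∈ W, (fun i => σ (v i)) ∈ W)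
    (hW : ∀ a ∈ K.S, ∀ v ∈ W, a *ᵥ v ∈ W) : W = ⊥ ∨ W = ⊤ := by
  by_cases h0 : W = ⊥
  · exact Or.inl h0
  right
  obtain ⟨w, hw, hw0⟩ := Submodule.exists_mem_ne_zero_of_ne_bot h0
  have h1 : ∃ z : ℂ, aeval z K.P = 0 ∧ ∃ y ∈ K.Tl z, K.bil w y ≠ 0 := by
    by_contra hcon
    push Not at hcon
    exact hw0 (orth_all K fun z hz y hy => hcon z hz y hy)
  obtain ⟨z, hz, y, hy, hne⟩ := h1
  have hz1 := conj_root K hz
  have h2 : K.Tl ((starRingEnd ℂ) z) ≤ W := by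
    rcases stable K hW hz1 with h | h
    · exact h
    · exfalso
      rw [Complex.conj_conj] at h
      apply hne
      rw [bil_comm]
      exact h w hw y hy
  have h3 : ∀ z' : ℂ, aeval z' K.P = 0 → ∀ v ∈ K.Tl z', v ∈ W := by
    intro z' hz' v hv
    obtain ⟨σ, hσz⟩ := exists_aut K.irr hz1 hz'
    have h4 := map_Tl K σ.symm hv
    have h5 : σ.symm z' = (starRingEnd ℂ) z := by
      rw [← hσz]
      exact σ.symm_apply_apply _
    rw [h5] at h4
    have h6 := hσ σ _ (h2 h4)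
    have h7 : (fun i => σ ((fun i => σ.symm (v i)) i)) = v := by
      ext i
      exact σ.apply_symm_apply _
    rw [h7] at h6
    exact h6
  rw [eq_top_iff]
  intro v _
  exact indT K (p := fun v => v ∈ W) h3 W.zero_mem (fun v w hv hw => W.add_mem hv hw) v

/-- the commutant of `S` -/
theorem commutant {b : Matrix (Fin n) (Fin n) ℂ} (hb : ∀ a ∈ K.S, b * a = a * b) {z : ℂ}
    (hz : aeval z K.P = 0) : ∃ c : ℂ, ∀ v ∈ K.Tl z, b *ᵥ v = c • v := by
  by_cases h0 : ∀ v ∈ K.Tl z, v = 0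
  · refine ⟨0, fun v hv => ?_⟩
    rw [h0 v hv, Matrix.mulVec_zero, smul_zero]
  push Not at h0
  obtain ⟨x0, hx0, hx00⟩ := h0
  have h1 : ∃ y ∈ K.Tl ((starRingEnd ℂ) z), K.bil x0 y ≠ 0 := by
    by_contra hcon
    push Not at hcon
    exact hx00 (nondegT K hx0 hcon)
  obtain ⟨y, hy, hne⟩ := h1
  rw [bil_comm] at hne
  obtain ⟨a, ha, -, h1, h2, h3⟩ := central K hz
  have hbx : b *ᵥ x0 ∈ K.Tl z := by
    have h4 : a *ᵥ (b *ᵥ x0) = b *ᵥ x0 := by
      rw [Matrix.mulVec_mulVec, ← hb a ha, ← Matrix.mulVec_mulVec, h1 x0 hx0]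
    have h5 := proj_mem K h1 h2 h3 (b *ᵥ x0)
    rw [h4, h4] at h5
    have h6 := (K.Tl z).smul_mem (2 : ℂ)⁻¹ h5
    rwa [← two_smul ℂ, smul_smul, inv_mul_cancel₀ two_ne_zero, one_smul] at h6
  refine ⟨K.bil y (b *ᵥ x0) / K.bil y x0, fun x hx => ?_⟩
  have hzz : z ≠ (starRingEnd ℂ) z := fun h => conj_ne K hz h.symm
  have h4 := congrArg (fun M : Matrix (Fin n) (Fin n) ℂ => M *ᵥ x0) (hb _ (wm_mem K hz hx hy))
  rw [← Matrix.mulVec_mulVec, ← Matrix.mulVec_mulVec, wm_mulVec, wm_mulVec, orth K hzz hx hx0,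
    orth K hzz hx hbx, zero_smul, sub_zero, sub_zero, Matrix.mulVec_smul] at h4
  rw [div_eq_inv_mul, ← smul_smul, ← h4, smul_smul, inv_mul_cancel₀ hne, one_smul]

end C5L

open C5L in
theorem C5l_proof : Stmt_C5l := by
  intro g A n m K _
  refine ⟨fun z hz => finrank_Tl K hz, top' K, fun z z' _ h v hv w hw => orth K h hv hw,
    fun z _ v hv h => nondegT K hv h, fun z hz x hx y hy => ⟨wm K x y, wm_mem K hz hx hy,
      wm_mulVec K x y⟩, fun a ha z v hv => S_pres K ha hv, fun z hz => central K hz,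
    fun W hW z hz => stable K hW hz, fun W hσ hW => stableQ K hσ hW,
    fun b hb z hz => commutant K hb hz⟩

end Pool.Agent.K3C
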