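import Pool.Agent.K3C.C5y

/-!
# C5V: matrices commuting with the endomorphisms and preserving `T` act `E`-linearly on `T`
-/

open scoped BigOperators
open Matrix

namespace Pool.Agent.K3C

open Pool.Agent.DRB Pool.Agent.K3D Pool.Agent.K3E

namespace C5X

section

variable {g n m : ℕ} {A : AbVar g} (K : KSC A n m)

/-- `R` is the volume element of the nondegenerate subspace `W`. -/
structure Vol (W : Submodule ℂ (Fin n → ℂ)) (R : Matrix (Idx g) (Idx g) ℂ) (e ρ : ℂ) : Prop where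
  he : e * e = 1
  hρ : ρ ≠ 0
  sq : R * R = ρ • 1
  mem : ∀ w ∈ W, R * K.cl w = e • (K.cl w * R)
  perp : ∀ w, (∀ v ∈ W, K.bil w v = 0) → R * K.cl w = (-e) • (K.cl w * R)
  dec : ∀ v, ∃ a ∈ W, ∃ u, (∀ w ∈ W, K.bil u w = 0) ∧ v = a + u

theorem exists_Vol (W : Submodule ℂ (Fin n → ℂ))
    (hnd : ∀ v ∈ W, (∀ w ∈ W, K.bil v w = 0) → v = 0) :
    ∃ (l : List (Fin n → ℂ)) (e ρ : ℂ), Vol K W (pr K l) e ρ := by
  obtain ⟨k, b, hbW, hbinj, horth, hne, hspan, hdec⟩ := orth_basis K W hnd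
  obtain ⟨l, e, he, hunit, hW1, hW2⟩ := exists_vol K (rel K) W hnd
  obtain ⟨ρ, hρ⟩ : ∃ ρ : ℂ, pr K l * pr K l = ρ • 1 := by
    apply even_scalar K
    · rw [← pr_append]
      exact pr_mem_Pw K (l ++ l) 0 (by rw [List.length_append]; exact ⟨l.length, by ring⟩)
    · intro v
      obtain ⟨a, ha, u, hu, rfl⟩ := hdec v
      have h1 : pr K l * pr K l * K.cl a = K.cl a * (pr K l * pr K l) := by
        rw [Matrix.mul_assoc, hW1 a ha, Matrix.mul_smul, ← Matrix.mul_assoc, hW1 a ha,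
          Matrix.smul_mul, smul_smul, he, one_smul, Matrix.mul_assoc]
      have h2 : pr K l * pr K l * K.cl u = K.cl u * (pr K l * pr K l) := by
        rw [Matrix.mul_assoc, hW2 u hu, Matrix.mul_smul, ← Matrix.mul_assoc, hW2 u hu,
          Matrix.smul_mul, smul_smul, neg_mul_neg, he, one_smul, Matrix.mul_assoc]
      rw [cl_add, Matrix.mul_add, h1, h2, Matrix.add_mul]
  refine ⟨l, e, ρ, he, ?_, hρ, hW1, hW2, hdec⟩
  rintro rfl
  rw [zero_smul] at hρ
  have := hunit.mul hunit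
  rw [hρ] at this
  obtain ⟨u, hu⟩ := this
  have h1 := u.mul_inv
  rw [hu, Matrix.zero_mul] at h1
  exact one_ne K.pos h1.symm

variable {K}

theorem Vol.mem_of {W : Submodule ℂ (Fin n → ℂ)} {R : Matrix (Idx g) (Idx g) ℂ} {e ρ : ℂ}
    (h : Vol K W R e ρ) (w : Fin n → ℂ) (hw : R * K.cl w = e • (K.cl w * R)) : w ∈ W := by
  obtain ⟨a, ha, u, hu, rfl⟩ := h.dec w
  rw [cl_add, Matrix.mul_add, h.mem a ha, h.perp u hu, Matrix.add_mul, smul_add] at hw
  have h1 : (-e) • (K.cl u * R) = e • (K.cl u * R) := add_left_cancel hw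
  have he0 : e ≠ 0 := by
    intro h0
    have := h.he
    rw [h0, mul_zero] at this
    exact zero_ne_one this
  have h2 : (2 * e) • (K.cl u * R) = 0 := by
    have : (2 * e) • (K.cl u * R) = e • (K.cl u * R) - (-e) • (K.cl u * R) := by
      rw [← sub_smul]
      congr 1
      ring
    rw [this, h1, sub_self]
  have h3 : K.cl u * R = 0 := (smul_eq_zero.1 h2).resolve_left (mul_ne_zero two_ne_zero he0)
  have h4 : ρ • K.cl u = 0 := by
    have : K.cl u * R * R = ρ • K.cl u := by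
      rw [Matrix.mul_assoc, h.sq, Matrix.mul_smul, Matrix.mul_one]
    rw [← this, h3, Matrix.zero_mul]
  have h5 : K.cl u = 0 := (smul_eq_zero.1 h4).resolve_left h.hρ
  rw [cl_eq_zero K u h5, add_zero]
  exact ha

/-- A matrix commuting with the volume element preserves `W` (bracket). -/
theorem Vol.ad_mem {W : Submodule ℂ (Fin n → ℂ)} {R : Matrix (Idx g) (Idx g) ℂ} {e ρ : ℂ}
    (h : Vol K W R e ρ) (Y : Matrix (Idx g) (Idx g) ℂ) (hY : Y * R = R * Y) (w w' : Fin n → ℂ)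
    (hw : w ∈ W) (hw' : Y * K.cl w - K.cl w * Y = K.cl w') : w' ∈ W := by
  apply h.mem_of
  rw [← hw']
  have e1 : R * (Y * K.cl w - K.cl w * Y) = (R * Y) * K.cl w - (R * K.cl w) * Y := by noncomm_ring
  rw [e1, ← hY, h.mem w hw, Matrix.mul_assoc Y, h.mem w hw, Matrix.mul_smul, Matrix.smul_mul,
    ← smul_sub]
  congr 1
  have e2 : K.cl w * R * Y = K.cl w * (Y * R) := by rw [Matrix.mul_assoc, ← hY]
  rw [e2]
  noncomm_ring

/-- A matrix commuting with the volume element preserves `W` (conjugation). -/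
theorem Vol.conj_mem {W : Submodule ℂ (Fin n → ℂ)} {R : Matrix (Idx g) (Idx g) ℂ} {e ρ : ℂ}
    (h : Vol K W R e ρ) (x : GL (Idx g) ℂ) (hx : x.val * R = R * x.val) (w w' : Fin n → ℂ)
    (hw : w ∈ W) (hw' : x.val * K.cl w * (x⁻¹).val = K.cl w') : w' ∈ W := by
  apply h.mem_of
  rw [← hw']
  have hx' : R * (x⁻¹).val = (x⁻¹).val * R := by
    have e1 : (x⁻¹).val * (x.val * R) * (x⁻¹).val = (x⁻¹).val * (R * x.val) * (x⁻¹).val := by rw [hx]
    have e2 : (x⁻¹).val * (x.val * R) * (x⁻¹).val = ((x⁻¹).val * x.val) * R * (x⁻¹).val := by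
      noncomm_ring
    have e3 : (x⁻¹).val * (R * x.val) * (x⁻¹).val = (x⁻¹).val * R * (x.val * (x⁻¹).val) := by
      noncomm_ring
    rw [e2, e3, inv_mul_self, mul_inv_self, Matrix.one_mul, Matrix.mul_one] at e1
    exact e1
  have e1 : R * (x.val * K.cl w * (x⁻¹).val) = (R * x.val) * K.cl w * (x⁻¹).val := by noncomm_ring
  have e2 : x.val * K.cl w * (x⁻¹).val * R = x.val * K.cl w * ((x⁻¹).val * R) := by noncomm_ring
  rw [e1, ← hx, e2, ← hx', Matrix.mul_assoc x.val R, h.mem w hw, Matrix.mul_smul, Matrix.smul_mul]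
  congr 1
  noncomm_ring

/-- A skew endomorphism preserving `W` gives an element commuting with the volume element. -/
theorem Vol.Z_comm {W : Submodule ℂ (Fin n → ℂ)} {l : List (Fin n → ℂ)} {e ρ : ℂ}
    (h : Vol K W (pr K l) e ρ) (a : Matrix (Fin n) (Fin n) ℂ)
    (ha : ∀ v w, K.bil (a *ᵥ v) w + K.bil v (a *ᵥ w) = 0) (haW : ∀ w ∈ W, a *ᵥ w ∈ W) :
    K.Z a * pr K l = pr K l * K.Z a := by
  set R := pr K l with hR
  have hperp : ∀ u, (∀ w ∈ W, K.bil u w = 0) → ∀ w ∈ W, K.bil (a *ᵥ u) w = 0 := by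
    intro u hu w hw
    have := ha u w
    rw [hu _ (haW w hw), add_zero] at this
    exact this
  have hlift := lift K a ha
  have hc : ∀ (f : ℂ), f * f = 1 → ∀ w, R * K.cl w = f • (K.cl w * R) →
      R * K.cl (a *ᵥ w) = f • (K.cl (a *ᵥ w) * R) →
      (R * K.Z a * R - ρ • K.Z a) * K.cl w = K.cl w * (R * K.Z a * R - ρ • K.Z a) := by
    intro f hf w h1 h2
    have e1 : K.Z a * K.cl w = K.cl w * K.Z a + K.cl (a *ᵥ w) := by rw [← hlift w]; abel
    have e2 : R * K.Z a * R * K.cl w = K.cl w * (R * K.Z a * R) + ρ • K.cl (a *ᵥ w) := by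
      have e3 : R * K.Z a * R * K.cl w = R * K.Z a * (R * K.cl w) := by noncomm_ring
      rw [e3, h1, Matrix.mul_smul]
      have e4 : R * K.Z a * (K.cl w * R) = R * (K.Z a * K.cl w) * R := by noncomm_ring
      rw [e4, e1]
      have e5 : R * (K.cl w * K.Z a + K.cl (a *ᵥ w)) * R =
          (R * K.cl w) * K.Z a * R + (R * K.cl (a *ᵥ w)) * R := by noncomm_ring
      rw [e5, h1, h2, Matrix.smul_mul, Matrix.smul_mul, Matrix.smul_mul, smul_add, smul_smul,
        smul_smul, hf, one_smul, one_smul, Matrix.mul_assoc (K.cl (a *ᵥ w)), h.sq, Matrix.mul_smul,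
        Matrix.mul_one]
      congr 1
      noncomm_ring
    rw [Matrix.sub_mul, Matrix.mul_sub, e2, Matrix.smul_mul, e1, Matrix.mul_smul, smul_add]
    abel
  have hall : ∀ v, (R * K.Z a * R - ρ • K.Z a) * K.cl v = K.cl v * (R * K.Z a * R - ρ • K.Z a) := by
    intro v
    obtain ⟨b, hb, u, hu, rfl⟩ := h.dec v
    have h1 := hc e h.he b (h.mem b hb) (h.mem _ (haW b hb))
    have h2 := hc (-e) (by rw [neg_mul_neg, h.he]) u (h.perp u hu) (h.perp _ (hperp u hu))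
    rw [cl_add, Matrix.mul_add, h1, h2, Matrix.add_mul]
  obtain ⟨c, hc2⟩ := even_scalar K (R * K.Z a * R - ρ • K.Z a)
    (Submodule.sub_mem _ (RZR_even K a l) (Submodule.smul_mem _ _ (Z_even K a))) hall
  have htr : Matrix.trace (R * K.Z a * R - ρ • K.Z a) = 0 := by
    rw [Matrix.trace_sub, Matrix.trace_mul_comm, ← Matrix.mul_assoc, h.sq, Matrix.smul_mul,
      Matrix.one_mul, sub_self]
  rw [hc2, Matrix.trace_smul, Matrix.trace_one, smul_eq_mul] at htr
  have hcard : ((Fintype.card (Idx g) : ℕ) : ℂ) ≠ 0 := by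
    have : Nonempty (Idx g) := ⟨Sum.inl ⟨0, K.pos⟩⟩
    exact_mod_cast Fintype.card_ne_zero
  rw [(mul_eq_zero.1 htr).resolve_right hcard, zero_smul] at hc2
  have h3 : R * K.Z a * R = ρ • K.Z a := sub_eq_zero.1 hc2
  have h4 : ρ • (K.Z a * R) = ρ • (R * K.Z a) := by
    have e1 : R * (R * K.Z a * R) = (R * R) * K.Z a * R := by noncomm_ring
    rw [h3, h.sq, Matrix.mul_smul, Matrix.smul_mul, Matrix.smul_mul, Matrix.one_mul] at e1
    exact e1.symm
  exact smul_right_injective _ h.hρ h4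

/-- The action of a matrix normalizing `T` is skew. -/
theorem ad_skew (X : Matrix (Idx g) (Idx g) ℂ) (v w v' w' : Fin n → ℂ)
    (hv : X * K.cl v - K.cl v * X = K.cl v') (hw : X * K.cl w - K.cl w * X = K.cl w') :
    K.bil v' w + K.bil v w' = 0 := by
  have h1 := rel K v' w
  have h2 := rel K v w'
  rw [← hv] at h1
  rw [← hw] at h2
  have h3 : (X * K.cl v - K.cl v * X) * K.cl w + K.cl w * (X * K.cl v - K.cl v * X) +
      (K.cl v * (X * K.cl w - K.cl w * X) + (X * K.cl w - K.cl w * X) * K.cl v) =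
      X * (K.cl v * K.cl w + K.cl w * K.cl v) - (K.cl v * K.cl w + K.cl w * K.cl v) * X := by
    noncomm_ring
  rw [h1, h2, rel K v w] at h3
  rw [Matrix.mul_smul, Matrix.smul_mul, Matrix.mul_one, Matrix.one_mul, sub_self, ← add_smul] at h3
  rcases smul_eq_zero.1 h3 with h4 | h4
  · have h5 : (2 : ℂ) * (K.bil v' w + K.bil v w') = 0 := by
      rw [mul_add]
      exact h4
    exact (mul_eq_zero.1 h5).resolve_left two_ne_zero
  · exact absurd h4 (one_ne K.pos)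

/-- Matrices are determined by their action on vectors. -/
theorem mat_ext {a b : Matrix (Fin n) (Fin n) ℂ} (h : ∀ v, a *ᵥ v = b *ᵥ v) : a = b := by
  ext i j
  have h1 := h (Pi.single j 1)
  rw [Matrix.mulVec_single_one, Matrix.mulVec_single_one] at h1
  exact congrFun h1 i

/-- Skewness in matrix form. -/
theorem skew_mat (a : Matrix (Fin n) (Fin n) ℂ)
    (ha : ∀ v w, K.bil (a *ᵥ v) w + K.bil v (a *ᵥ w) = 0) :
    aᵀ * Matrix.diagonal (fun i => (K.q i : ℂ)) + Matrix.diagonal (fun i => (K.q i : ℂ)) * a = 0 := by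
  ext i j
  have h := ha (Pi.single i 1) (Pi.single j 1)
  rw [bil_single, bil_comm, bil_single, Matrix.mulVec_single_one, Matrix.mulVec_single_one] at h
  simp only [Matrix.col_apply, mul_one] at h
  rw [Matrix.add_apply, Matrix.mul_diagonal, Matrix.diagonal_mul, Matrix.transpose_apply,
    Matrix.zero_apply]
  linear_combination h

theorem mem_S (a : Matrix (Fin n) (Fin n) ℂ)
    (ha : ∀ v w, K.bil (a *ᵥ v) w + K.bil v (a *ᵥ w) = 0) (h : a * K.thC = K.thC * a) : a ∈ K.S :=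
  ⟨skew_mat a ha, h⟩

/-- Linear maps which agree on the eigenspaces are equal. -/
theorem ext_Tl (h5l : Stmt_C5l) (hm : 1 ≤ m) (f f' : (Fin n → ℂ) →ₗ[ℂ] (Fin n → ℂ))
    (h : ∀ z : ℂ, Polynomial.aeval z K.P = 0 → ∀ w ∈ K.Tl z, f w = f' w) (v : Fin n → ℂ) :
    f v = f' v := by
  obtain ⟨-, htop, -⟩ := h5l g A n m K hm
  have hle : (⨆ z ∈ {z : ℂ | Polynomial.aeval z K.P = 0}, K.Tl z) ≤ LinearMap.ker (f - f') := by
    refine iSup₂_le fun z hz w hw => ?_
    rw [LinearMap.mem_ker, LinearMap.sub_apply, h z hz w hw, sub_self]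
  have h1 := hle (htop v)
  rw [LinearMap.mem_ker, LinearMap.sub_apply] at h1
  exact sub_eq_zero.1 h1

/-- Equality of matrices from the action on the eigenspaces of `E`. -/
theorem comm_thC (h5l : Stmt_C5l) (hm : 1 ≤ m) (a : Matrix (Fin n) (Fin n) ℂ)
    (h : ∀ z : ℂ, Polynomial.aeval z K.P = 0 → ∀ w ∈ K.Tl z, a *ᵥ w ∈ K.Tl z) :
    a * K.thC = K.thC * a := by
  refine mat_ext fun v => ?_
  refine ext_Tl (K := K) h5l hm (a * K.thC).mulVecLin (K.thC * a).mulVecLin (fun z hz w hw => ?_) v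
  rw [Matrix.mulVecLin_apply, Matrix.mulVecLin_apply, ← Matrix.mulVec_mulVec, ← Matrix.mulVec_mulVec]
  have h1 : K.thC *ᵥ w = z • w := hw
  have h2 : K.thC *ᵥ (a *ᵥ w) = z • (a *ᵥ w) := h z hz w hw
  rw [h1, h2, Matrix.mulVec_smul]

/-- A matrix commuting with the central element of `z` preserves the eigenspace `T_z`. -/
theorem pres_of_comm (h5l : Stmt_C5l) (hm : 1 ≤ m) (z : ℂ) (hz : Polynomial.aeval z K.P = 0)
    (d : Matrix (Fin n) (Fin n) ℂ) (h1 : ∀ v ∈ K.Tl z, d *ᵥ v = v)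
    (h2 : ∀ v ∈ K.Tl ((starRingEnd ℂ) z), d *ᵥ v = -v)
    (h3 : ∀ z' : ℂ, z' ≠ z → z' ≠ (starRingEnd ℂ) z → ∀ v ∈ K.Tl z', d *ᵥ v = 0)
    (a : Matrix (Fin n) (Fin n) ℂ) (ha : ∀ v, a *ᵥ (d *ᵥ v) = d *ᵥ (a *ᵥ v)) :
    ∀ w ∈ K.Tl z, a *ᵥ w ∈ K.Tl z := by
  intro w hw
  have hψ : ∀ v, ((K.thC - z • 1) * (d * d + d)) *ᵥ v = 0 := by
    intro v
    refine ext_Tl (K := K) h5l hm ((K.thC - z • 1) * (d * d + d)).mulVecLin 0 (fun z' _ w' hw' => ?_) v
    rw [Matrix.mulVecLin_apply, LinearMap.zero_apply, ← Matrix.mulVec_mulVec, Matrix.add_mulVec,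
      ← Matrix.mulVec_mulVec]
    by_cases e1 : z' = z
    · subst e1
      have hw1 : K.thC *ᵥ w' = z' • w' := hw'
      rw [h1 w' hw', h1 w' hw', Matrix.mulVec_add, Matrix.sub_mulVec, Matrix.smul_mulVec,
        Matrix.one_mulVec, hw1, sub_self, add_zero]
    · by_cases e2 : z' = (starRingEnd ℂ) z
      · subst e2
        rw [h2 w' hw', Matrix.mulVec_neg, h2 w' hw', neg_neg, add_neg_cancel, Matrix.mulVec_zero]
      · rw [h3 z' e1 e2 w' hw', Matrix.mulVec_zero, add_zero, Matrix.mulVec_zero]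
  have h4 := hψ (a *ᵥ w)
  have h5 : d *ᵥ (a *ᵥ w) = a *ᵥ w := by rw [← ha, h1 w hw]
  rw [← Matrix.mulVec_mulVec, Matrix.add_mulVec, ← Matrix.mulVec_mulVec, h5, h5, Matrix.sub_mulVec,
    Matrix.smul_mulVec, Matrix.one_mulVec, Matrix.mulVec_add, smul_add, ← two_smul ℂ (K.thC *ᵥ _),
    ← smul_add, ← two_smul ℂ (a *ᵥ w), smul_comm z, ← smul_sub] at h4
  have h6 := (smul_eq_zero.1 h4).resolve_left two_ne_zero
  exact sub_eq_zero.1 h6

/-- Commuting elements of `S` have commuting images. -/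
theorem Z_comm_Z (a b : Matrix (Fin n) (Fin n) ℂ) (ha : a ∈ K.S) (hb : b ∈ K.S) (h : a * b = b * a) :
    K.Z a * K.Z b = K.Z b * K.Z a := by
  have la := lift K a (S_skew K a ha)
  have lb := lift K b (S_skew K b hb)
  have h1 : ∀ v, (K.Z a * K.Z b - K.Z b * K.Z a) * K.cl v = K.cl v * (K.Z a * K.Z b - K.Z b * K.Z a) := by
    intro v
    have e1 : (K.Z a * K.Z b - K.Z b * K.Z a) * K.cl v - K.cl v * (K.Z a * K.Z b - K.Z b * K.Z a) =
        (K.Z a * (K.Z b * K.cl v - K.cl v * K.Z b) - (K.Z b * K.cl v - K.cl v * K.Z b) * K.Z a) -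
        (K.Z b * (K.Z a * K.cl v - K.cl v * K.Z a) - (K.Z a * K.cl v - K.cl v * K.Z a) * K.Z b) := by
      noncomm_ring
    rw [la, lb, la, lb, Matrix.mulVec_mulVec, Matrix.mulVec_mulVec, h, sub_self] at e1
    exact sub_eq_zero.1 e1
  obtain ⟨c, hc⟩ := even_scalar K _ (Submodule.sub_mem _ (Pw_mul K _ _ (Z_even K a) (Z_even K b))
    (Pw_mul K _ _ (Z_even K b) (Z_even K a))) h1
  have h3 : Matrix.trace (K.Z a * K.Z b - K.Z b * K.Z a) = 0 := by
    rw [Matrix.trace_sub, Matrix.trace_mul_comm, sub_self]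
  rw [hc, Matrix.trace_smul, Matrix.trace_one, smul_eq_mul] at h3
  have hcard : ((Fintype.card (Idx g) : ℕ) : ℂ) ≠ 0 := by
    have : Nonempty (Idx g) := ⟨Sum.inl ⟨0, K.pos⟩⟩
    exact_mod_cast Fintype.card_ne_zero
  rw [(mul_eq_zero.1 h3).resolve_right hcard, zero_smul] at hc
  exact sub_eq_zero.1 hc

end

end C5X

theorem C5v_proof (hq : DRB.Stmt_DescQ) (h5l : Stmt_C5l) : Stmt_C5v := by
  intro g A n m K hm
  obtain ⟨-, -, -, -, -, -, hcen, -⟩ := h5l g A n m K hm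
  refine ⟨?_, ?_⟩
  · intro Y a hY ha
    refine C5X.mem_S a (fun v w => C5X.ad_skew Y v w _ _ (ha v) (ha w)) ?_
    apply C5X.comm_thC h5l hm
    intro z hz
    obtain ⟨d, hd, hdc, hd1, hd2, hd3⟩ := hcen z hz
    have h1 : Y * K.Z d = K.Z d * Y := C5X.comm_of K hq _ Y
      (fun b hb => C5X.Z_comm_Z b d hb hd (hdc b hb).symm) hY
    refine C5X.pres_of_comm h5l hm z hz d hd1 hd2 hd3 a fun v => ?_
    apply C5X.cl_inj K
    have la := C5X.lift K d (C5X.S_skew K d hd)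
    have ha' : ∀ v, Y * K.cl v - K.cl v * Y = K.cl (a *ᵥ v) := ha
    rw [← ha', ← la, ← la, ← ha']
    have e1 : Y * (K.Z d * K.cl v - K.cl v * K.Z d) - (K.Z d * K.cl v - K.cl v * K.Z d) * Y =
        (Y * K.Z d) * K.cl v - Y * K.cl v * K.Z d - K.Z d * K.cl v * Y + K.cl v * (K.Z d * Y) := by
      noncomm_ring
    have e2 : K.Z d * (Y * K.cl v - K.cl v * Y) - (Y * K.cl v - K.cl v * Y) * K.Z d =
        (K.Z d * Y) * K.cl v - Y * K.cl v * K.Z d - K.Z d * K.cl v * Y + K.cl v * (Y * K.Z d) := by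
      noncomm_ring
    rw [e1, e2, h1]
  · intro x b hx hb
    apply C5X.comm_thC h5l hm
    intro z hz
    obtain ⟨d, hd, hdc, hd1, hd2, hd3⟩ := hcen z hz
    have h1 : x.val * K.Z d = K.Z d * x.val := C5X.comm_of K hq _ x.val
      (fun b hb => C5X.Z_comm_Z b d hb hd (hdc b hb).symm) hx
    have h1' : (x⁻¹).val * K.Z d = K.Z d * (x⁻¹).val := by
      have e1 : (x⁻¹).val * (x.val * K.Z d) * (x⁻¹).val = (x⁻¹).val * (K.Z d * x.val) * (x⁻¹).val := by
        rw [h1]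
      have e2 : (x⁻¹).val * (x.val * K.Z d) * (x⁻¹).val = ((x⁻¹).val * x.val) * K.Z d * (x⁻¹).val := by
        noncomm_ring
      have e3 : (x⁻¹).val * (K.Z d * x.val) * (x⁻¹).val = (x⁻¹).val * K.Z d * (x.val * (x⁻¹).val) := by
        noncomm_ring
      rw [e2, e3, C5X.inv_mul_self, C5X.mul_inv_self, Matrix.one_mul, Matrix.mul_one] at e1
      exact e1.symm
    refine C5X.pres_of_comm h5l hm z hz d hd1 hd2 hd3 b fun v => ?_
    apply C5X.cl_inj K
    have la := C5X.lift K d (C5X.S_skew K d hd)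
    rw [← hb, ← la, ← la, ← hb]
    have e1 : x.val * (K.Z d * K.cl v - K.cl v * K.Z d) * (x⁻¹).val =
        (x.val * K.Z d) * K.cl v * (x⁻¹).val - x.val * K.cl v * (K.Z d * (x⁻¹).val) := by
      noncomm_ring
    rw [e1, h1, ← h1']
    noncomm_ring

end Pool.Agent.K3C
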