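import Pool.Agent.K3C.Stmts
import Pool.Agent.K3E.E5l

/-!
# C5L: linear algebra of the eigenspaces of `E` (items 1, 2, 3, 4, 6, 7)
-/

set_option autoImplicit false

open scoped BigOperators
open Matrix Polynomial

namespace Pool.Agent.K3C

open Pool.Agent.DRB Pool.Agent.K3D

namespace C5L

open Pool.Agent.K3E.E5L (exists_aut)

variable {g n m : ℕ} {A : AbVar g} (K : KSC A n m)

theorem mem_Tl {z : ℂ} {v : Fin n → ℂ} : v ∈ K.Tl z ↔ K.thC *ᵥ v = z • v := Iff.rfl

theorem Tl_eq (z : ℂ) : K.Tl z = Module.End.eigenspace (Matrix.toLin' K.thC) z := by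
  ext v
  rw [mem_Tl, Module.End.mem_eigenspace_iff, Matrix.toLin'_apply]

theorem aeval_thC (p : ℚ[X]) :
    aeval K.thC p = (aeval K.th p).map (fun x => (x : ℂ)) := by
  have h2 : aeval K.thC p = ((Algebra.ofId ℚ ℂ).mapMatrix (m := Fin n)) (aeval K.th p) := by
    rw [← Polynomial.aeval_algHom_apply]
    rfl
  rw [h2]
  rfl

theorem thC_aeval : aeval K.thC K.P = 0 := by
  rw [aeval_thC, K.root]
  ext i j
  simp

theorem T_aeval : aeval (Matrix.toLin' K.thC) (K.P.map (algebraMap ℚ ℂ)) = 0 := by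
  have h1 : aeval K.thC (K.P.map (algebraMap ℚ ℂ)) = 0 := by
    rw [Polynomial.aeval_map_algebraMap]
    exact thC_aeval K
  have h2 : Matrix.toLin' K.thC = (Matrix.toLinAlgEquiv' : Matrix (Fin n) (Fin n) ℂ ≃ₐ[ℂ] _) K.thC :=
    rfl
  rw [h2]
  have h3 := Polynomial.aeval_algHom_apply
    ((Matrix.toLinAlgEquiv' : Matrix (Fin n) (Fin n) ℂ ≃ₐ[ℂ] _).toAlgHom) K.thC
    (K.P.map (algebraMap ℚ ℂ))
  rw [h1, map_zero] at h3
  exact h3

theorem root_of_mem {z : ℂ} {v : Fin n → ℂ} (hv : v ∈ K.Tl z) (h0 : v ≠ 0) :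
    aeval z K.P = 0 := by
  rw [Tl_eq] at hv
  have h1 : Module.End.HasEigenvector (Matrix.toLin' K.thC) z v := ⟨hv, h0⟩
  have h2 := Module.End.aeval_apply_of_hasEigenvector (p := K.P.map (algebraMap ℚ ℂ)) h1
  rw [T_aeval, LinearMap.zero_apply] at h2
  have h3 := (smul_eq_zero.1 h2.symm).resolve_right h0
  rw [Polynomial.eval_map_algebraMap] at h3
  exact h3

theorem top : ⨆ z : ℂ, K.Tl z = ⊤ := by
  have hsq : Squarefree (K.P.map (algebraMap ℚ ℂ)) :=
    (K.irr.separable.map).squarefree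
  have h := Module.End.isSemisimple_of_squarefree_aeval_eq_zero hsq (T_aeval K)
  have h2 := h.iSup_eigenspace_eq_top
  rw [← h2]
  exact iSup_congr fun z => Tl_eq K z

theorem top' (v : Fin n → ℂ) : v ∈ ⨆ z ∈ {z : ℂ | aeval z K.P = 0}, K.Tl z := by
  have h : (⨆ z : ℂ, K.Tl z) ≤ ⨆ z ∈ {z : ℂ | aeval z K.P = 0}, K.Tl z := by
    refine iSup_le fun z => ?_
    by_cases hz : aeval z K.P = 0
    · exact le_iSup₂_of_le z hz le_rfl
    · intro w hw
      by_cases hw0 : w = 0
      · rw [hw0]; exact Submodule.zero_mem _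
      · exact absurd (root_of_mem K hw hw0) hz
  rw [top] at h
  exact h Submodule.mem_top

/-- induction on the eigenspaces -/
theorem indT {p : (Fin n → ℂ) → Prop} (h : ∀ z : ℂ, aeval z K.P = 0 → ∀ v ∈ K.Tl z, p v)
    (h0 : p 0) (hadd : ∀ v w, p v → p w → p (v + w)) (v : Fin n → ℂ) : p v := by
  have hv := top' K v
  rw [Submodule.mem_iSup] at hv
  let N : AddSubmonoid (Fin n → ℂ) := AddSubmonoid.closure {v | ∃ z : ℂ, aeval z K.P = 0 ∧ v ∈ K.Tl z}
  have hN : ∀ v ∈ N, p v := by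
    intro v hv
    induction hv using AddSubmonoid.closure_induction with
    | mem x hx => obtain ⟨z, hz, hx⟩ := hx; exact h z hz x hx
    | zero => exact h0
    | add x y _ _ hx hy => exact hadd x y hx hy
  have hsm : ∀ (c : ℂ) (x : Fin n → ℂ), x ∈ N → c • x ∈ N := by
    intro c x hx
    induction hx using AddSubmonoid.closure_induction with
    | mem x hx =>
      obtain ⟨z, hz, hx⟩ := hx
      exact AddSubmonoid.subset_closure ⟨z, hz, (K.Tl z).smul_mem c hx⟩
    | zero => rw [smul_zero]; exact N.zero_mem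
    | add x y hx0 hy0 hx hy => rw [smul_add]; exact N.add_mem hx hy
  let N' : Submodule ℂ (Fin n → ℂ) := { N with smul_mem' := fun c x hx => hsm c x hx }
  refine hN v (hv N' fun z => ?_)
  intro w hw
  by_cases hz : aeval z K.P = 0
  · have : w ∈ K.Tl z := by simpa [hz] using hw
    exact AddSubmonoid.subset_closure ⟨z, hz, this⟩
  · have : w = 0 := by simpa [hz] using hw
    rw [this]
    exact N.zero_mem

/-! ### The form -/

theorem bil_comm (v w : Fin n → ℂ) : K.bil v w = K.bil w v := by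
  simp only [KSC.bil]
  exact Finset.sum_congr rfl fun i _ => by ring

/-- the form as a bilinear map -/
noncomputable def bf : (Fin n → ℂ) →ₗ[ℂ] (Fin n → ℂ) →ₗ[ℂ] ℂ :=
  LinearMap.mk₂ ℂ (fun v w => K.bil v w)
    (by intro x x' y; simp only [KSC.bil, Pi.add_apply, mul_add, add_mul, Finset.sum_add_distrib])
    (by
      intro c x y
      simp only [KSC.bil, Pi.smul_apply, smul_eq_mul, Finset.mul_sum]
      exact Finset.sum_congr rfl fun i _ => by ring)
    (by intro x y y'; simp only [KSC.bil, Pi.add_apply, mul_add, Finset.sum_add_distrib])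
    (by
      intro c x y
      simp only [KSC.bil, Pi.smul_apply, smul_eq_mul, Finset.mul_sum]
      exact Finset.sum_congr rfl fun i _ => by ring)

theorem bf_apply (v w : Fin n → ℂ) : bf K v w = K.bil v w := rfl

theorem bil_dot (v w : Fin n → ℂ) :
    K.bil v w = v ⬝ᵥ (Matrix.diagonal (fun i => (K.q i : ℂ)) *ᵥ w) := by
  simp only [KSC.bil, dotProduct, Matrix.mulVec_diagonal]
  exact Finset.sum_congr rfl fun i _ => by ring

theorem qC_ne (i : Fin n) : (K.q i : ℂ) ≠ 0 := by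
  exact_mod_cast K.q_ne i

theorem bil_single (v : Fin n → ℂ) (i : Fin n) : K.bil (Pi.single i 1) v = (K.q i : ℂ) * v i := by
  rw [KSC.bil, Finset.sum_eq_single i]
  · simp
  · intro j _ hj; simp [Pi.single_eq_of_ne hj]
  · simp

theorem bil_nondeg (v : Fin n → ℂ) (h : ∀ w, K.bil v w = 0) : v = 0 := by
  ext i
  have := h (Pi.single i 1)
  rw [bil_comm, bil_single] at this
  exact (mul_eq_zero.1 this).resolve_left (qC_ne K i)

theorem bil_add_left (x y w : Fin n → ℂ) : K.bil (x + y) w = K.bil x w + K.bil y w := by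
  rw [← bf_apply, map_add, LinearMap.add_apply, bf_apply, bf_apply]

theorem bil_add_right (x y w : Fin n → ℂ) : K.bil w (x + y) = K.bil w x + K.bil w y := by
  rw [← bf_apply, map_add, bf_apply, bf_apply]

theorem bil_smul_left (c : ℂ) (x w : Fin n → ℂ) : K.bil (c • x) w = c * K.bil x w := by
  rw [← bf_apply, map_smul, LinearMap.smul_apply, bf_apply, smul_eq_mul]

theorem bil_smul_right (c : ℂ) (x w : Fin n → ℂ) : K.bil w (c • x) = c * K.bil w x := by
  rw [← bf_apply, map_smul, bf_apply, smul_eq_mul]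

theorem bil_zero_left (w : Fin n → ℂ) : K.bil 0 w = 0 := by
  rw [← bf_apply, map_zero, LinearMap.zero_apply]

theorem bil_zero_right (w : Fin n → ℂ) : K.bil w 0 = 0 := by
  rw [← bf_apply, map_zero]

theorem adjC : K.thCᵀ * Matrix.diagonal (fun i => (K.q i : ℂ)) =
    Matrix.diagonal (fun i => (K.q i : ℂ)) * aeval K.thC K.C := by
  have h := K.adj
  rw [aeval_thC]
  ext i j
  have h2 := congrFun (congrFun h i) j
  rw [Matrix.mul_diagonal, Matrix.diagonal_mul, Matrix.transpose_apply] at h2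
  rw [Matrix.mul_diagonal, Matrix.diagonal_mul, Matrix.transpose_apply, Matrix.map_apply]
  simp only [KSC.thC, Matrix.map_apply]
  rw [← Rat.cast_mul, ← Rat.cast_mul, h2]

theorem bil_th (v w : Fin n → ℂ) : K.bil (K.thC *ᵥ v) w = K.bil v (aeval K.thC K.C *ᵥ w) := by
  rw [bil_dot, bil_dot, Matrix.mulVec_mulVec, ← adjC, ← Matrix.mulVec_mulVec,
    Matrix.dotProduct_mulVec v, Matrix.vecMul_transpose]

/-- a polynomial in the generator acts as a scalar on the eigenspaces -/
theorem aeval_mulVec (p : ℚ[X]) {z : ℂ} {v : Fin n → ℂ} (hv : v ∈ K.Tl z) :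
    aeval K.thC p *ᵥ v = aeval z p • v := by
  induction p using Polynomial.induction_on' with
  | add p q hp hq => rw [map_add, map_add, Matrix.add_mulVec, hp, hq, add_smul]
  | monomial k c =>
    have h : ∀ k : ℕ, (K.thC ^ k) *ᵥ v = z ^ k • v := by
      intro k
      induction k with
      | zero => simp
      | succ k ih =>
        rw [pow_succ', ← Matrix.mulVec_mulVec, ih, Matrix.mulVec_smul, (mem_Tl K).1 hv, smul_smul,
          pow_succ]
    rw [aeval_monomial, aeval_monomial, Algebra.algebraMap_eq_smul_one, smul_mul_assoc, one_mul,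
      Algebra.algebraMap_eq_smul_one, smul_mul_assoc, one_mul, ← smul_one_smul ℂ c (K.thC ^ k),
      Matrix.smul_mulVec, h, smul_smul]
    congr 1
    rw [Algebra.smul_def, Algebra.smul_def, mul_one]

/-- a complex polynomial in the generator acts as a scalar on the eigenspaces -/
theorem aeval_mulVecC (p : ℂ[X]) {z : ℂ} {v : Fin n → ℂ} (hv : v ∈ K.Tl z) :
    aeval K.thC p *ᵥ v = p.eval z • v := by
  induction p using Polynomial.induction_on' with
  | add p q hp hq => rw [map_add, eval_add, Matrix.add_mulVec, hp, hq, add_smul]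
  | monomial k c =>
    have h : ∀ k : ℕ, (K.thC ^ k) *ᵥ v = z ^ k • v := by
      intro k
      induction k with
      | zero => simp
      | succ k ih =>
        rw [pow_succ', ← Matrix.mulVec_mulVec, ih, Matrix.mulVec_smul, (mem_Tl K).1 hv, smul_smul,
          pow_succ]
    rw [aeval_monomial, eval_monomial, Algebra.algebraMap_eq_smul_one, smul_mul_assoc, one_mul,
      Matrix.smul_mulVec, h, smul_smul]

/-- complex conjugation preserves the roots -/
theorem conj_root {z : ℂ} (hz : aeval z K.P = 0) : aeval ((starRingEnd ℂ) z) K.P = 0 := by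
  have h := congrArg (starRingEnd ℂ) hz
  rw [map_zero, aeval_def, Polynomial.hom_eval₂] at h
  rw [aeval_def]
  have h2 : ((starRingEnd ℂ).comp (algebraMap ℚ ℂ)) = algebraMap ℚ ℂ := by
    ext x
    simp
  rwa [h2] at h

theorem conj_ne {z : ℂ} (hz : aeval z K.P = 0) : (starRingEnd ℂ) z ≠ z := by
  intro h
  exact (K.cm z hz).1 (Complex.conj_eq_iff_im.1 h)

/-- orthogonality -/
theorem orth {z z' : ℂ} (hne : z' ≠ (starRingEnd ℂ) z) {v w : Fin n → ℂ} (hv : v ∈ K.Tl z)
    (hw : w ∈ K.Tl z') : K.bil v w = 0 := by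
  by_cases hw0 : w = 0
  · rw [hw0, bil_zero_right]
  have hz' := root_of_mem K hw hw0
  have h := bil_th K v w
  rw [(mem_Tl K).1 hv, aeval_mulVec K K.C hw, (K.cm z' hz').2, bil_smul_left, bil_smul_right] at h
  have h2 : (z - (starRingEnd ℂ) z') * K.bil v w = 0 := by rw [sub_mul, h, sub_self]
  refine (mul_eq_zero.1 h2).resolve_left (sub_ne_zero.2 fun h3 => hne ?_)
  rw [h3, Complex.conj_conj]

/-- a vector orthogonal to all the eigenspaces vanishes -/
theorem orth_all {v : Fin n → ℂ} (h : ∀ z : ℂ, aeval z K.P = 0 → ∀ w ∈ K.Tl z, K.bil v w = 0) :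
    v = 0 := by
  refine bil_nondeg K v fun w => ?_
  have hw := top' K w
  have : (⨆ z ∈ {z : ℂ | aeval z K.P = 0}, K.Tl z) ≤ LinearMap.ker (bf K v) :=
    iSup₂_le fun z hz w hw => h z hz w hw
  exact this hw

/-- duality -/
theorem nondegT {z : ℂ} {v : Fin n → ℂ} (hv : v ∈ K.Tl z)
    (h : ∀ w ∈ K.Tl ((starRingEnd ℂ) z), K.bil v w = 0) : v = 0 := by
  refine orth_all K fun z' _ w hw => ?_
  by_cases hz : z' = (starRingEnd ℂ) z
  · rw [hz] at hw; exact h w hw
  · exact orth K hz hv hw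

theorem mat_ext {M N : Matrix (Fin n) (Fin n) ℂ} (h : ∀ v, M *ᵥ v = N *ᵥ v) : M = N := by
  ext i j
  have := congrFun (h (Pi.single j 1)) i
  simpa using this

/-- two maps equal on the eigenspaces are equal -/
theorem mat_extT {M N : Matrix (Fin n) (Fin n) ℂ}
    (h : ∀ z : ℂ, aeval z K.P = 0 → ∀ v ∈ K.Tl z, M *ᵥ v = N *ᵥ v) : M = N := by
  refine mat_ext fun v => ?_
  refine indT K (p := fun v => M *ᵥ v = N *ᵥ v) h ?_ ?_ v
  · rw [Matrix.mulVec_zero, Matrix.mulVec_zero]
  · intro v w h1 h2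
    rw [Matrix.mulVec_add, Matrix.mulVec_add, h1, h2]

theorem S_pres {a : Matrix (Fin n) (Fin n) ℂ} (ha : a ∈ K.S) {z : ℂ} {v : Fin n → ℂ}
    (hv : v ∈ K.Tl z) : a *ᵥ v ∈ K.Tl z := by
  rw [mem_Tl] at hv ⊢
  rw [Matrix.mulVec_mulVec, ← ha.2, ← Matrix.mulVec_mulVec, hv, Matrix.mulVec_smul]

/-- membership in `S` in terms of the form -/
theorem mem_S {a : Matrix (Fin n) (Fin n) ℂ} :
    a ∈ K.S ↔ (∀ v w, K.bil (a *ᵥ v) w + K.bil v (a *ᵥ w) = 0) ∧ a * K.thC = K.thC * a := by
  have h1 : ∀ v w, K.bil (a *ᵥ v) w + K.bil v (a *ᵥ w) =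
      v ⬝ᵥ ((aᵀ * Matrix.diagonal (fun i => (K.q i : ℂ)) +
        Matrix.diagonal (fun i => (K.q i : ℂ)) * a) *ᵥ w) := by
    intro v w
    rw [bil_dot, bil_dot, Matrix.add_mulVec, dotProduct_add, ← Matrix.mulVec_mulVec w aᵀ,
      Matrix.dotProduct_mulVec v aᵀ, Matrix.vecMul_transpose, Matrix.mulVec_mulVec w]
  constructor
  · rintro ⟨h2, h3⟩
    refine ⟨fun v w => ?_, h3⟩
    rw [h1, h2, Matrix.zero_mulVec, dotProduct_zero]
  · rintro ⟨h2, h3⟩
    refine ⟨?_, h3⟩
    refine mat_ext fun w => ?_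
    rw [Matrix.zero_mulVec]
    ext i
    have h4 := h2 (Pi.single i 1) w
    rw [h1, single_one_dotProduct] at h4
    rw [h4, Pi.zero_apply]

theorem bil_S {a : Matrix (Fin n) (Fin n) ℂ} (ha : a ∈ K.S) (v w : Fin n → ℂ) :
    K.bil (a *ᵥ v) w = - K.bil v (a *ᵥ w) := by
  rw [eq_neg_iff_add_eq_zero]
  exact ((mem_S K).1 ha).1 v w

/-! ### Dimension -/

theorem finrank_Tl {z : ℂ} (hz : aeval z K.P = 0) : Module.finrank ℂ (K.Tl z) = m := by
  classical
  have hsq : Squarefree (K.P.map (algebraMap ℚ ℂ)) := (K.irr.separable.map).squarefree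
  have hss := Module.End.isSemisimple_of_squarefree_aeval_eq_zero hsq (T_aeval K)
  have h1 : ∀ z, Module.finrank ℂ (K.Tl z) =
      ((Matrix.toLin' K.thC).charpoly).rootMultiplicity z := by
    intro z
    rw [← LinearMap.finrank_maxGenEigenspace_eq,
      hss.isFinitelySemisimple.maxGenEigenspace_eq_eigenspace, ← Tl_eq]
  have hch : (Matrix.toLin' K.thC).charpoly = (K.th.charpoly).map (algebraMap ℚ ℂ) := by
    have h3 : Matrix.toLin' K.thC = Matrix.toLin (Pi.basisFun ℂ (Fin n)) (Pi.basisFun ℂ (Fin n)) K.thC := by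
      rw [Matrix.toLin_eq_toLin']
    rw [h3, Matrix.charpoly_toLin, ← Matrix.charpoly_map]
    rfl
  set c := (K.th.charpoly).map (algebraMap ℚ ℂ) with hc
  -- invariance
  have h2 : ∀ z', aeval z' K.P = 0 → c.rootMultiplicity z' = c.rootMultiplicity z := by
    intro z' hz'
    obtain ⟨σ, hσ⟩ := exists_aut K.irr hz hz'
    have h3 := Polynomial.eq_rootMultiplicity_map (p := c) (f := (σ : ℂ →+* ℂ))
      (RingHom.injective _) z
    have h4 : c.map (σ : ℂ →+* ℂ) = c := by
      rw [hc, Polynomial.map_map]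
      congr 1
      ext x
      simp
    rw [h4] at h3
    rw [h3]
    congr 1
    exact hσ.symm
  -- the roots of `P`
  let R : Finset ℂ := (K.P.aroots ℂ).toFinset
  have hR : ∀ w, w ∈ R ↔ aeval w K.P = 0 := by
    intro w
    rw [Multiset.mem_toFinset, Polynomial.mem_aroots]
    exact ⟨fun h => h.2, fun h => ⟨K.irr.ne_zero, h⟩⟩
  have hRcard : R.card = K.P.natDegree := by
    have h5 := Polynomial.card_rootSet_eq_natDegree (K := ℂ) K.irr.separable
      (IsAlgClosed.splits _)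
    rw [← h5, Fintype.card_of_finset' R]
    intro w
    rw [hR, Polynomial.mem_rootSet]
    exact ⟨fun h => ⟨K.irr.ne_zero, h⟩, fun h => h.2⟩
  have hcm : c.Monic := by rw [hc]; exact (Matrix.charpoly_monic _).map _
  have hdeg : c.natDegree = n := by
    rw [hc, Polynomial.natDegree_map, Matrix.charpoly_natDegree_eq_dim, Fintype.card_fin]
  have hsum : ∑ w ∈ R, c.rootMultiplicity w = n := by
    have h6 : ∀ w ∈ c.roots, w ∈ R := by
      intro w hw
      have h7 : 0 < c.rootMultiplicity w := by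
        rw [Polynomial.rootMultiplicity_pos hcm.ne_zero]
        exact (Polynomial.mem_roots hcm.ne_zero).1 hw
      rw [← hch, ← h1, Module.finrank_pos_iff_exists_ne_zero] at h7
      obtain ⟨v, hv⟩ := h7
      rw [hR]
      exact root_of_mem K v.2 (by simpa using hv)
    have h8 := Multiset.sum_count_eq_card h6
    have h9 : Multiset.card c.roots = n := by
      rw [← hdeg]
      exact (IsAlgClosed.splits c).natDegree_eq_card_roots.symm
    rw [← h9, ← h8]
    exact Finset.sum_congr rfl fun w _ => (Polynomial.count_roots c).symm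
  rw [Finset.sum_congr rfl fun w hw => h2 w ((hR w).1 hw), Finset.sum_const, hRcard, smul_eq_mul] at hsum
  rw [h1, hch]
  have hd : 0 < K.P.natDegree := K.irr.natDegree_pos
  have h10 : K.P.natDegree * c.rootMultiplicity z = K.P.natDegree * m := by
    rw [hsum, mul_comm]; exact K.dim
  exact Nat.eq_of_mul_eq_mul_left hd h10

theorem map_Tl (σ : ℂ ≃ₐ[ℚ] ℂ) {z : ℂ} {v : Fin n → ℂ} (hv : v ∈ K.Tl z) :
    (fun i => σ (v i)) ∈ K.Tl (σ z) := by
  rw [mem_Tl] at hv ⊢
  ext i
  have h := congrArg σ (congrFun hv i)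
  simp only [Matrix.mulVec, dotProduct, map_sum, map_mul, Pi.smul_apply, smul_eq_mul] at h ⊢
  rw [← h]
  refine Finset.sum_congr rfl fun j _ => ?_
  congr 1
  simp [KSC.thC]

/-! ### Central elements -/

theorem comm_aeval {b : Matrix (Fin n) (Fin n) ℂ} (hb : b * K.thC = K.thC * b) (p : ℂ[X]) :
    aeval K.thC p * b = b * aeval K.thC p := by
  have h1 : Commute b K.thC := hb
  have h2 : Commute b (aeval K.thC p) := by
    induction p using Polynomial.induction_on' with
    | add p q hp hq => rw [map_add]; exact hp.add_right hq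
    | monomial k c =>
      rw [aeval_monomial]
      exact (Algebra.commute_algebraMap_right c b).mul_right (h1.pow_right k)
  exact h2.symm

/-- a complex function on the roots which is odd gives a central element of `S` -/
theorem exists_central (f : ℂ → ℂ) (hf : ∀ z : ℂ, aeval z K.P = 0 → f ((starRingEnd ℂ) z) = - f z) :
    ∃ a ∈ K.S, (∀ b : Matrix (Fin n) (Fin n) ℂ, b * K.thC = K.thC * b → a * b = b * a) ∧
      ∀ z : ℂ, aeval z K.P = 0 → ∀ v ∈ K.Tl z, a *ᵥ v = f z • v := by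
  classical
  let R : Finset ℂ := (K.P.aroots ℂ).toFinset
  have hR : ∀ w, w ∈ R ↔ aeval w K.P = 0 := by
    intro w
    rw [Multiset.mem_toFinset, Polynomial.mem_aroots]
    exact ⟨fun h => h.2, fun h => ⟨K.irr.ne_zero, h⟩⟩
  let p : ℂ[X] := Lagrange.interpolate R id f
  have hp : ∀ z : ℂ, aeval z K.P = 0 → p.eval z = f z := by
    intro z hz
    have := Lagrange.eval_interpolate_at_node (s := R) (v := id) f (Function.injective_id.injOn)
      ((hR z).2 hz)
    exact this
  have hact : ∀ z : ℂ, aeval z K.P = 0 → ∀ v ∈ K.Tl z, aeval K.thC p *ᵥ v = f z • v := by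
    intro z hz v hv
    rw [aeval_mulVecC K p hv, hp z hz]
  refine ⟨aeval K.thC p, ?_, fun b hb => comm_aeval K hb p, hact⟩
  refine (mem_S K).2 ⟨?_, comm_aeval K rfl p⟩
  intro v w
  refine indT K (p := fun v => K.bil (aeval K.thC p *ᵥ v) w + K.bil v (aeval K.thC p *ᵥ w) = 0)
    ?_ ?_ ?_ v
  · intro z hz v hv
    refine indT K (p := fun w => K.bil (aeval K.thC p *ᵥ v) w + K.bil v (aeval K.thC p *ᵥ w) = 0)
      ?_ ?_ ?_ w
    · intro z' hz' w hw
      rw [hact z hz v hv, hact z' hz' w hw, bil_smul_left, bil_smul_right]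
      by_cases h : z' = (starRingEnd ℂ) z
      · rw [h, hf z hz]; ring
      · rw [orth K h hv hw]; ring
    · rw [Matrix.mulVec_zero, bil_zero_right, bil_zero_right, add_zero]
    · intro w w' h1 h2
      rw [bil_add_right, Matrix.mulVec_add, bil_add_right, add_add_add_comm, h1, h2, add_zero]
  · rw [Matrix.mulVec_zero, bil_zero_left, bil_zero_left, add_zero]
  · intro v v' h1 h2
    rw [Matrix.mulVec_add, bil_add_left, bil_add_left, add_add_add_comm, h1, h2, add_zero]

theorem central {z : ℂ} (hz : aeval z K.P = 0) : ∃ a ∈ K.S, (∀ b ∈ K.S, a * b = b * a) ∧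
      (∀ v ∈ K.Tl z, a *ᵥ v = v) ∧ (∀ v ∈ K.Tl ((starRingEnd ℂ) z), a *ᵥ v = -v) ∧
      ∀ z' : ℂ, z' ≠ z → z' ≠ (starRingEnd ℂ) z → ∀ v ∈ K.Tl z', a *ᵥ v = 0 := by
  classical
  let f : ℂ → ℂ := fun w => if w = z then 1 else if w = (starRingEnd ℂ) z then -1 else 0
  have hne := conj_ne K hz
  have hf : ∀ w : ℂ, aeval w K.P = 0 → f ((starRingEnd ℂ) w) = - f w := by
    intro w _
    simp only [f]
    by_cases h1 : w = z
    · subst h1
      rw [if_neg hne, if_pos rfl, if_pos rfl]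
    · by_cases h2 : w = (starRingEnd ℂ) z
      · subst h2
        rw [Complex.conj_conj, if_pos rfl, if_neg hne, if_pos rfl, neg_neg]
      · rw [if_neg h1, if_neg h2, if_neg, if_neg, neg_zero]
        · intro h; exact h1 ((starRingEnd ℂ).injective h)
        · intro h; apply h2; rw [← h, Complex.conj_conj]
  obtain ⟨a, ha, hb, hv⟩ := exists_central K f hf
  refine ⟨a, ha, fun b hbS => hb b hbS.2, fun v hv' => ?_, fun v hv' => ?_, fun z' h1 h2 v hv' => ?_⟩
  · rw [hv z hz v hv']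
    simp only [f, if_true, one_smul]
  · rw [hv _ (conj_root K hz) v hv']
    simp only [f, if_neg hne, if_true, neg_smul, one_smul]
  · by_cases h0 : v = 0
    · rw [h0, Matrix.mulVec_zero]
    · rw [hv z' (root_of_mem K hv' h0) v hv']
      simp only [f, if_neg h1, if_neg h2, zero_smul]

end C5L

open C5L in
/-- items 1, 2, 3, 4, 6, 7 of `Stmt_C5l` -/
theorem C5l_basic : ∀ (g : ℕ) (A : AbVar g) (n m : ℕ) (K : KSC A n m),
    (∀ z : ℂ, Polynomial.aeval z K.P = 0 → Module.finrank ℂ (K.Tl z) = m) ∧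
    (∀ v : Fin n → ℂ, v ∈ ⨆ z ∈ {z : ℂ | Polynomial.aeval z K.P = 0}, K.Tl z) ∧
    (∀ z z' : ℂ, Polynomial.aeval z K.P = 0 → z' ≠ (starRingEnd ℂ) z →
      ∀ v ∈ K.Tl z, ∀ w ∈ K.Tl z', K.bil v w = 0) ∧
    (∀ z : ℂ, Polynomial.aeval z K.P = 0 →
      ∀ v ∈ K.Tl z, (∀ w ∈ K.Tl ((starRingEnd ℂ) z), K.bil v w = 0) → v = 0) ∧
    (∀ a ∈ K.S, ∀ z : ℂ, ∀ v ∈ K.Tl z, a *ᵥ v ∈ K.Tl z) ∧
    (∀ z : ℂ, Polynomial.aeval z K.P = 0 → ∃ a ∈ K.S, (∀ b ∈ K.S, a * b = b * a) ∧
      (∀ v ∈ K.Tl z, a *ᵥ v = v) ∧ (∀ v ∈ K.Tl ((starRingEnd ℂ) z), a *ᵥ v = -v) ∧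
      ∀ z' : ℂ, z' ≠ z → z' ≠ (starRingEnd ℂ) z → ∀ v ∈ K.Tl z', a *ᵥ v = 0) := by
  intro g A n m K
  exact ⟨fun z hz => finrank_Tl K hz, top' K, fun z z' _ h v hv w hw => orth K h hv hw,
    fun z _ v hv h => nondegT K hv h, fun a ha z v hv => S_pres K ha hv, fun z hz => central K hz⟩

end Pool.Agent.K3C
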