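import Pool.Agent.K3C.C5v
import Pool.Agent.K3C.C5l

/-!
# C8T: the torus. If the Lie algebra contains the derived algebra of `u_E(T)` it is everything.
-/

set_option autoImplicit false

open scoped BigOperators
open Matrix Polynomial

namespace Pool.Agent.K3C

open Pool.Agent.DRB Pool.Agent.K3D

noncomputable section

namespace C8T

variable {g n m : ℕ} {A : AbVar g} (K : KSC A n m)

theorem root_aut (σ : ℂ ≃ₐ[ℚ] ℂ) {z : ℂ} (hz : aeval z K.P = 0) : aeval (σ z) K.P = 0 := by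
  have h : aeval (σ z) K.P = σ (aeval z K.P) := by
    have := Polynomial.aeval_algHom_apply (σ : ℂ →ₐ[ℚ] ℂ) z K.P
    exact this
  rw [h, hz, map_zero]

theorem conj_aut (σ : ℂ ≃ₐ[ℚ] ℂ) {z : ℂ} (hz : aeval z K.P = 0) :
    σ ((starRingEnd ℂ) z) = (starRingEnd ℂ) (σ z) := by
  rw [← (K.cm z hz).2, ← (K.cm (σ z) (root_aut K σ hz)).2]
  exact (Polynomial.aeval_algHom_apply (σ : ℂ →ₐ[ℚ] ℂ) z K.C).symm

theorem root_symm (σ : ℂ ≃ₐ[ℚ] ℂ) {z : ℂ} (hz : aeval z K.P ≠ 0) : aeval (σ z) K.P ≠ 0 := by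
  intro h
  apply hz
  have := root_aut K σ.symm h
  rwa [AlgEquiv.symm_apply_apply] at this

/-- `L_T` as a subspace. -/
def LTs (hK2a : Stmt_K2a) : Submodule ℂ (Matrix (Fin n) (Fin n) ℂ) where
  carrier := {a | K.LT a}
  add_mem' := by
    rintro a b ⟨X, ξ, hX, hXa⟩ ⟨Y, η, hY, hYb⟩
    refine ⟨X + (1 : ℂ) • Y, ξ + 1 * η, (hK2a (Idx g) (Gam A)).1 X Y ξ η 1 hX hY, fun v => ?_⟩
    rw [Matrix.add_mulVec, C5X.cl_add, ← hXa, ← hYb, one_smul, add_mul, mul_add]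
    abel
  zero_mem' := by
    refine ⟨0, 0, (hK2a (Idx g) (Gam A)).2.1, fun v => ?_⟩
    rw [Matrix.zero_mulVec, C5X.cl_zero, zero_mul, mul_zero, sub_zero]
  smul_mem' := by
    rintro c a ⟨X, ξ, hX, hXa⟩
    refine ⟨0 + c • X, 0 + c * ξ, (hK2a (Idx g) (Gam A)).1 0 X 0 ξ c
      (hK2a (Idx g) (Gam A)).2.1 hX, fun v => ?_⟩
    rw [Matrix.smul_mulVec, C5X.cl_smul, ← hXa, zero_add, smul_sub, Matrix.smul_mul, Matrix.mul_smul]

theorem mem_LTs (hK2a : Stmt_K2a) {a : Matrix (Fin n) (Fin n) ℂ} : a ∈ LTs K hK2a ↔ K.LT a := Iff.rfl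

theorem LT_map (hK2b : Stmt_K2b) (hG4 : Stmt_Gb4) (σ : ℂ ≃ₐ[ℚ] ℂ)
    {a : Matrix (Fin n) (Fin n) ℂ} (ha : K.LT a) : K.LT (a.map σ) := by
  obtain ⟨X, ξ, hX, hXa⟩ := ha
  refine ⟨X.map σ, σ ξ,
    hK2b (Idx g) (Gam A) (fun σ p hp q h1 h2 => hG4 g A σ p hp q h1 h2) σ X ξ hX, fun w => ?_⟩
  have h1 := congrArg (fun Z : Matrix (Idx g) (Idx g) ℂ => Z.map σ) (hXa fun i => σ.symm (w i))
  have h3 : ∀ Z Z' : Matrix (Idx g) (Idx g) ℂ, (Z * Z').map σ = Z.map σ * Z'.map σ :=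
    fun Z Z' => Matrix.map_mul (f := (σ : ℂ →+* ℂ))
  have h4 : ∀ Z Z' : Matrix (Idx g) (Idx g) ℂ, (Z - Z').map σ = Z.map σ - Z'.map σ := by
    intro Z Z'
    ext i j
    rw [Matrix.map_apply, Matrix.sub_apply, map_sub, Matrix.sub_apply, Matrix.map_apply,
      Matrix.map_apply]
  simp only [h4, h3] at h1
  rw [← C5X.cl_map, ← C5X.cl_map] at h1
  have h5 : (fun i => σ (σ.symm (w i))) = w := by funext i; simp
  rw [h5] at h1
  rw [h1]
  congr 1
  funext i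
  simp only [Matrix.mulVec, dotProduct, map_sum, map_mul, Matrix.map_apply, AlgEquiv.apply_symm_apply]

theorem S_map (σ : ℂ ≃ₐ[ℚ] ℂ) {a : Matrix (Fin n) (Fin n) ℂ} (ha : a ∈ K.S) : a.map σ ∈ K.S := by
  obtain ⟨h1, h2⟩ := ha
  have hm : ∀ Z Z' : Matrix (Fin n) (Fin n) ℂ, (Z * Z').map σ = Z.map σ * Z'.map σ :=
    fun Z Z' => Matrix.map_mul (f := (σ : ℂ →+* ℂ))
  have hq : (Matrix.diagonal (fun i => (K.q i : ℂ))).map σ = Matrix.diagonal (fun i => (K.q i : ℂ)) := by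
    ext i j
    by_cases h : i = j
    · subst h; simp
    · simp [Matrix.diagonal_apply_ne _ h]
  have ht : K.thC.map σ = K.thC := by
    ext i j
    simp [KSC.thC]
  refine ⟨?_, ?_⟩
  · have h3 := congrArg (fun Z : Matrix (Fin n) (Fin n) ℂ => Z.map σ) h1
    have h4 : ∀ Z Z' : Matrix (Fin n) (Fin n) ℂ, (Z + Z').map σ = Z.map σ + Z'.map σ := by
      intro Z Z'
      ext i j
      simp
    have h5 : (0 : Matrix (Fin n) (Fin n) ℂ).map σ = 0 := by
      ext i j; simp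
    simp only [h4, hm, hq, h5] at h3
    rw [← Matrix.transpose_map]
    exact h3
  · have h3 := congrArg (fun Z : Matrix (Fin n) (Fin n) ℂ => Z.map σ) h2
    simp only [hm, ht] at h3
    exact h3

/-- The functions given by the elements of `L_T` acting as scalars on the eigenspaces. -/
def FL (f : ℂ → ℂ) : Prop :=
  (∀ z : ℂ, aeval z K.P = 0 → f ((starRingEnd ℂ) z) = - f z) ∧
    ∃ a ∈ K.S, K.LT a ∧ ∀ z : ℂ, aeval z K.P = 0 → ∀ v ∈ K.Tl z, a *ᵥ v = f z • v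

variable {K}

theorem FL.congr {f f' : ℂ → ℂ} (h : FL K f) (he : ∀ z : ℂ, aeval z K.P = 0 → f z = f' z) : FL K f' := by
  obtain ⟨h1, a, ha, hl, h2⟩ := h
  refine ⟨fun z hz => ?_, a, ha, hl, fun z hz v hv => ?_⟩
  · rw [← he z hz, ← he _ (C5L.conj_root K hz), h1 z hz]
  · rw [← he z hz, h2 z hz v hv]

theorem FL.lin (hK2a : Stmt_K2a) {f f' : ℂ → ℂ} (h : FL K f) (h' : FL K f') (c : ℂ) :
    FL K (fun z => f z + c * f' z) := by
  obtain ⟨h1, a, ha, hl, h2⟩ := h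
  obtain ⟨h1', a', ha', hl', h2'⟩ := h'
  refine ⟨fun z hz => ?_, a + c • a', K.S.add_mem ha (K.S.smul_mem c ha'),
    (LTs K hK2a).add_mem hl ((LTs K hK2a).smul_mem c hl'), fun z hz v hv => ?_⟩
  · show f _ + c * f' _ = -(f z + c * f' z)
    rw [h1 z hz, h1' z hz]; ring
  · rw [Matrix.add_mulVec, Matrix.smul_mulVec, h2 z hz v hv, h2' z hz v hv, smul_smul, ← add_smul]

theorem FL.zero (hK2a : Stmt_K2a) : FL K (fun _ => 0) := by
  refine ⟨fun z _ => by simp, 0, K.S.zero_mem, (LTs K hK2a).zero_mem, fun z _ v _ => ?_⟩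
  rw [Matrix.zero_mulVec, zero_smul]

theorem FL.map (hK2b : Stmt_K2b) (hG4 : Stmt_Gb4) {f : ℂ → ℂ} (h : FL K f) (σ : ℂ ≃ₐ[ℚ] ℂ) :
    FL K (fun z => σ (f (σ.symm z))) := by
  obtain ⟨h1, a, ha, hl, h2⟩ := h
  refine ⟨fun z hz => ?_, a.map σ, S_map K σ ha, LT_map K hK2b hG4 σ hl, fun z hz v hv => ?_⟩
  · show σ (f (σ.symm ((starRingEnd ℂ) z))) = -σ (f (σ.symm z))
    rw [conj_aut K σ.symm hz, h1 _ (root_aut K σ.symm hz), map_neg]
  · have h3 := h2 (σ.symm z) (root_aut K σ.symm hz) (fun i => σ.symm (v i)) (C5L.map_Tl K σ.symm hv)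
    funext i
    have h4 := congrArg σ (congrFun h3 i)
    simp only [Matrix.mulVec, dotProduct, map_sum, map_mul, Pi.smul_apply, smul_eq_mul,
      AlgEquiv.apply_symm_apply] at h4
    simp only [Matrix.mulVec, dotProduct, Matrix.map_apply, Pi.smul_apply, smul_eq_mul]
    exact h4

/-- a matrix normalizing `T` acts on `T` -/
theorem exists_act (Y : Matrix (Idx g) (Idx g) ℂ)
    (h2 : ∀ v, ∃ w, Y * K.cl v - K.cl v * Y = K.cl w) : ∃ a : Matrix (Fin n) (Fin n) ℂ, K.Act Y a := by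
  choose b hb using h2
  let f : (Fin n → ℂ) →ₗ[ℂ] (Fin n → ℂ) :=
    { toFun := b
      map_add' := by
        intro v w
        apply C5X.cl_inj K
        rw [← hb, C5X.cl_add, C5X.cl_add, ← hb, ← hb, mul_add, add_mul]
        abel
      map_smul' := by
        intro c v
        apply C5X.cl_inj K
        rw [← hb, RingHom.id_apply, C5X.cl_smul, C5X.cl_smul, ← hb, Matrix.mul_smul, Matrix.smul_mul,
          smul_sub] }
  refine ⟨LinearMap.toMatrix' f, fun v => ?_⟩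
  rw [LinearMap.toMatrix'_mulVec, hb]
  rfl

/-- an element of the Lie algebra acts on `T` by an element of `S` -/
theorem exists_S (hm : 1 ≤ m) (hC2d : Stmt_C2d) (hK2c : Stmt_K2c) (hC5v : Stmt_C5v)
    {X : Matrix (Idx g) (Idx g) ℂ} {ξ : ℂ} (hX : InLie (Gam A) X ξ) : ∃ a ∈ K.S, K.Act X a := by
  have hT : ∀ v, ∃ w, X * K.cl v - K.cl v * X = K.cl w := by
    intro v
    have h1 := (hC2d g A n m K).2 X ξ hX (K.cl v) ((C5X.mem_TC K).2 ⟨v, rfl⟩)
    exact (C5X.mem_TC K).1 h1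
  obtain ⟨a, ha⟩ := exists_act X hT
  exact ⟨a, (hC5v g A n m K hm).1 X a (hK2c g A X ξ hX).1 ha, ha⟩

theorem FL.phi (hm : 1 ≤ m) (hC2d : Stmt_C2d) (hK2c : Stmt_K2c) (hC5v : Stmt_C5v) (hC8r : Stmt_C8r)
    {f : ℂ → ℂ} (h : FL K f) (φ : ℂ →ₗ[ℚ] ℂ) : FL K (fun z => φ (f z)) := by
  obtain ⟨h1, a, ha, ⟨X, ξ, hX, hXa⟩, h2⟩ := h
  obtain ⟨Y, hY, hYf⟩ := hC8r g A n m K hm X ξ f hX (fun z hz v hv => by
    rw [hXa v, h2 z hz v hv, C5X.cl_smul]) φ
  obtain ⟨b, hbS, hb⟩ := exists_S (K := K) hm hC2d hK2c hC5v hY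
  refine ⟨fun z hz => ?_, b, hbS, ⟨Y, _, hY, hb⟩, fun z hz v hv => ?_⟩
  · show φ (f _) = -φ (f z)
    rw [h1 z hz, map_neg]
  · apply C5X.cl_inj K
    rw [← hb v, hYf z hz v hv, C5X.cl_smul]

/-- the roots -/
def roots (K : KSC A n m) : Finset ℂ := (K.P.aroots ℂ).toFinset

theorem mem_roots {w : ℂ} : w ∈ roots K ↔ aeval w K.P = 0 := by
  unfold roots
  rw [Multiset.mem_toFinset, Polynomial.mem_aroots]
  exact ⟨fun h => h.2, fun h => ⟨K.irr.ne_zero, h⟩⟩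

theorem sum_conj {M : Type*} [AddCommMonoid M] (f : ℂ → M) :
    ∑ z ∈ roots K, f ((starRingEnd ℂ) z) = ∑ z ∈ roots K, f z := by
  refine Finset.sum_bij' (fun z _ => (starRingEnd ℂ) z) (fun z _ => (starRingEnd ℂ) z) ?_ ?_ ?_ ?_ ?_
  · intro z hz
    exact mem_roots.2 (C5L.conj_root K (mem_roots.1 hz))
  · intro z hz
    exact mem_roots.2 (C5L.conj_root K (mem_roots.1 hz))
  · intro z _; exact Complex.conj_conj z
  · intro z _; exact Complex.conj_conj z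
  · intro z _; rfl

theorem sum_aut {M : Type*} [AddCommMonoid M] (σ : ℂ ≃ₐ[ℚ] ℂ) (f : ℂ → M) :
    ∑ z ∈ roots K, f (σ z) = ∑ z ∈ roots K, f z := by
  refine Finset.sum_bij' (fun z _ => σ z) (fun z _ => σ.symm z) ?_ ?_ ?_ ?_ ?_
  · intro z hz
    exact mem_roots.2 (root_aut K σ (mem_roots.1 hz))
  · intro z hz
    exact mem_roots.2 (root_aut K σ.symm (mem_roots.1 hz))
  · intro z _; exact σ.symm_apply_apply z
  · intro z _; exact σ.apply_symm_apply z
  · intro z _; rfl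

/-- integral functionals -/
theorem exists_int (R : Finset ℂ) (W : Submodule ℚ ({z // z ∈ R} → ℚ)) (e : {z // z ∈ R} → ℚ)
    (he : e ∉ W) : ∃ d : ℂ → ℤ, (∀ z, z ∉ R → d z = 0) ∧
      (∀ h ∈ W, ∑ w : {z // z ∈ R}, (d w : ℚ) * h w = 0) ∧
      ∑ w : {z // z ∈ R}, (d w : ℚ) * e w ≠ 0 := by
  classical
  obtain ⟨φ, hφe, hφW⟩ := Submodule.exists_le_ker_of_notMem he
  obtain ⟨b, hb⟩ := IsLocalization.exist_integer_multiples_of_finite (nonZeroDivisors ℤ)
    (S := ℚ) (fun w : {z // z ∈ R} => φ (fun j => if w = j then 1 else 0))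
  choose c hc using hb
  have hb0 : ((b : ℤ) : ℚ) ≠ 0 := by
    have := nonZeroDivisors.coe_ne_zero b
    exact_mod_cast this
  have key : ∀ h : {z // z ∈ R} → ℚ, ∑ w : {z // z ∈ R}, ((c w : ℤ) : ℚ) * h w = (b : ℤ) * φ h := by
    intro h
    rw [LinearMap.pi_apply_eq_sum_univ φ h, Finset.mul_sum]
    refine Finset.sum_congr rfl fun w _ => ?_
    have h1 := hc w
    have h2 : ((c w : ℤ) : ℚ) = (b : ℤ) * φ (fun j => if w = j then 1 else 0) := by
      rw [eq_intCast] at h1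
      rw [h1, zsmul_eq_mul]
    rw [h2, smul_eq_mul]
    ring
  refine ⟨fun z => if hz : z ∈ R then c ⟨z, hz⟩ else 0, fun z hz => dif_neg hz, fun h hh => ?_, ?_⟩
  · have h1 := key h
    rw [show φ h = 0 from hφW hh, mul_zero] at h1
    rw [← h1]
    refine Finset.sum_congr rfl fun w _ => ?_
    show (((if hz : (w : ℂ) ∈ R then c ⟨w, hz⟩ else 0 : ℤ)) : ℚ) * h w = _
    rw [dif_pos w.2]
  · have h1 := key e
    have h2 : ∑ w : {z // z ∈ R}, (((if hz : (w : ℂ) ∈ R then c ⟨w, hz⟩ else 0 : ℤ)) : ℚ) * e w =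
        (b : ℤ) * φ e := by
      rw [← h1]
      refine Finset.sum_congr rfl fun w _ => ?_
      rw [dif_pos w.2]
    rw [h2]
    exact mul_ne_zero hb0 hφe

/-- the elementary odd function -/
def ef (z0 : ℂ) (z : ℂ) : ℚ := if z = z0 then 1 else if z = (starRingEnd ℂ) z0 then -1 else 0

theorem ef_conj {z0 : ℂ} (hz0 : aeval z0 K.P = 0) (z : ℂ) : ef z0 ((starRingEnd ℂ) z) = - ef z0 z := by
  have hne := C5L.conj_ne K hz0
  unfold ef
  by_cases h1 : z = z0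
  · subst h1
    rw [if_neg hne, if_pos rfl, if_pos rfl]
  · by_cases h2 : z = (starRingEnd ℂ) z0
    · subst h2
      rw [Complex.conj_conj, if_pos rfl, if_neg hne, if_pos rfl, neg_neg]
    · rw [if_neg h1, if_neg h2, if_neg, if_neg, neg_zero]
      · intro h; exact h1 ((starRingEnd ℂ).injective h)
      · intro h; apply h2; rw [← h, Complex.conj_conj]

/-- the annihilator in the integral odd functions -/
def Ann (K : KSC A n m) : AddSubgroup (ℂ → ℤ) where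
  carrier := {d | (∀ z, aeval z K.P ≠ 0 → d z = 0) ∧ (∀ z, d ((starRingEnd ℂ) z) = - d z) ∧
    ∀ f, FL K f → ∑ z ∈ roots K, (d z : ℂ) * f z = 0}
  add_mem' := by
    rintro d d' ⟨h1, h2, h3⟩ ⟨h1', h2', h3'⟩
    refine ⟨fun z hz => ?_, fun z => ?_, fun f hf => ?_⟩
    · rw [Pi.add_apply, h1 z hz, h1' z hz, add_zero]
    · rw [Pi.add_apply, Pi.add_apply, h2, h2', neg_add]
    · have h4 : ∀ z, (((d + d') z : ℤ) : ℂ) * f z = (d z : ℂ) * f z + (d' z : ℂ) * f z := by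
        intro z
        rw [Pi.add_apply, Int.cast_add, add_mul]
      rw [Finset.sum_congr rfl fun z _ => h4 z, Finset.sum_add_distrib, h3 f hf, h3' f hf, add_zero]
  zero_mem' := by
    refine ⟨fun z _ => rfl, fun z => by simp, fun f _ => ?_⟩
    exact Finset.sum_eq_zero fun z _ => by simp
  neg_mem' := by
    rintro d ⟨h1, h2, h3⟩
    refine ⟨fun z hz => ?_, fun z => ?_, fun f hf => ?_⟩
    · rw [Pi.neg_apply, h1 z hz, neg_zero]
    · rw [Pi.neg_apply, Pi.neg_apply, h2]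
    · have h4 : ∀ z, (((-d) z : ℤ) : ℂ) * f z = -((d z : ℂ) * f z) := by
        intro z
        rw [Pi.neg_apply, Int.cast_neg, neg_mul]
      rw [Finset.sum_congr rfl fun z _ => h4 z, Finset.sum_neg_distrib, h3 f hf, neg_zero]

theorem Ann_aut (hK2b : Stmt_K2b) (hG4 : Stmt_Gb4) (σ : ℂ ≃ₐ[ℚ] ℂ) (d : ℂ → ℤ) (hd : d ∈ Ann K) :
    (fun z => d (σ z)) ∈ Ann K := by
  obtain ⟨h1, h2, h3⟩ := hd
  refine ⟨fun z hz => h1 _ (root_symm K σ hz), fun z => ?_, fun f hf => ?_⟩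
  · show d (σ ((starRingEnd ℂ) z)) = - d (σ z)
    by_cases hz : aeval z K.P = 0
    · rw [conj_aut K σ hz, h2]
    · have hz' : aeval ((starRingEnd ℂ) z) K.P ≠ 0 := by
        intro h
        apply hz
        have := C5L.conj_root K h
        rwa [Complex.conj_conj] at this
      rw [h1 _ (root_symm K σ hz), h1 _ (root_symm K σ hz'), neg_zero]
  · have h4 := h3 _ (hf.map hK2b hG4 σ)
    have h5 := congrArg σ.symm h4
    rw [map_sum, map_zero, ← sum_aut (K := K) σ (fun z => σ.symm ((d z : ℂ) * σ (f (σ.symm z))))] at h5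
    rw [← h5]
    refine Finset.sum_congr rfl fun z _ => ?_
    show (d (σ z) : ℂ) * f z = σ.symm ((d (σ z) : ℂ) * σ (f (σ.symm (σ z))))
    rw [map_mul, AlgEquiv.symm_apply_apply, AlgEquiv.symm_apply_apply, map_intCast]

/-- if the annihilator vanishes then all elementary functions are in `FL` -/
theorem FL_ef (hK2a : Stmt_K2a) (hm : 1 ≤ m) (hC2d : Stmt_C2d) (hK2c : Stmt_K2c) (hC5v : Stmt_C5v)
    (hC8r : Stmt_C8r) (hbot : Ann K = ⊥) {z0 : ℂ} (hz0 : aeval z0 K.P = 0) :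
    FL K (fun z => (ef z0 z : ℂ)) := by
  classical
  by_contra hcon
  set R := roots K with hR
  let ext : ({z // z ∈ R} → ℚ) → ℂ → ℂ := fun h z => if hz : z ∈ R then ((h ⟨z, hz⟩ : ℚ) : ℂ) else 0
  have hext : ∀ (h : {z // z ∈ R} → ℚ) (w : {z // z ∈ R}), ext h w = (h w : ℂ) := by
    intro h w
    simp only [ext]
    rw [dif_pos w.2]
  let W : Submodule ℚ ({z // z ∈ R} → ℚ) :=
    { carrier := {h | FL K (ext h)}
      add_mem' := by
        intro h h' hh hh'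
        have := FL.lin hK2a hh hh' 1
        refine this.congr fun z hz => ?_
        have hzR : z ∈ R := mem_roots.2 hz
        simp only [ext, dif_pos hzR, Pi.add_apply]
        push_cast
        ring
      zero_mem' := by
        refine (FL.zero (K := K) hK2a).congr fun z hz => ?_
        have hzR : z ∈ R := mem_roots.2 hz
        simp only [ext, dif_pos hzR, Pi.zero_apply]
        norm_num
      smul_mem' := by
        intro c h hh
        have := FL.lin hK2a (FL.zero (K := K) hK2a) hh (c : ℂ)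
        refine this.congr fun z hz => ?_
        have hzR : z ∈ R := mem_roots.2 hz
        simp only [ext, dif_pos hzR, Pi.smul_apply, smul_eq_mul]
        push_cast
        ring }
  have hW : ∀ h, h ∈ W ↔ FL K (ext h) := fun h => Iff.rfl
  let e : {z // z ∈ R} → ℚ := fun w => ef z0 w
  have heW : e ∉ W := by
    intro h
    apply hcon
    refine ((hW e).1 h).congr fun z hz => ?_
    have hzR : z ∈ R := mem_roots.2 hz
    simp only [ext, dif_pos hzR, e]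
  obtain ⟨d, hd0, hdW, hde⟩ := exists_int R W e heW
  -- sums over the subtype
  have hsub : ∀ F : ℂ → ℚ, ∑ w : {z // z ∈ R}, F w = ∑ z ∈ R, F z := by
    intro F
    exact Finset.sum_coe_sort R F
  let D : ℂ → ℤ := fun z => d z - d ((starRingEnd ℂ) z)
  have hDsum : ∀ F : ℂ → ℚ, (∀ z : ℂ, aeval z K.P = 0 → F ((starRingEnd ℂ) z) = - F z) →
      ∑ z ∈ R, (D z : ℚ) * F z = 2 * ∑ z ∈ R, (d z : ℚ) * F z := by
    intro F hF
    have h1 : ∑ z ∈ R, (d ((starRingEnd ℂ) z) : ℚ) * F z = - ∑ z ∈ R, (d z : ℚ) * F z := by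
      rw [← sum_conj (K := K) (fun z => (d z : ℚ) * F z), ← Finset.sum_neg_distrib]
      refine Finset.sum_congr rfl fun z hz => ?_
      rw [hF z (mem_roots.1 hz)]
      ring
    have h2 : ∑ z ∈ R, (D z : ℚ) * F z =
        ∑ z ∈ R, (d z : ℚ) * F z - ∑ z ∈ R, (d ((starRingEnd ℂ) z) : ℚ) * F z := by
      rw [← Finset.sum_sub_distrib]
      refine Finset.sum_congr rfl fun z _ => ?_
      simp only [D]
      push_cast
      ring
    rw [h2, h1]
    ring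
  have hDmem : D ∈ Ann K := by
    refine ⟨fun z hz => ?_, fun z => ?_, fun f hf => ?_⟩
    · have hz' : aeval ((starRingEnd ℂ) z) K.P ≠ 0 := by
        intro h
        apply hz
        have := C5L.conj_root K h
        rwa [Complex.conj_conj] at this
      show d z - d ((starRingEnd ℂ) z) = 0
      rw [hd0 z (fun h => hz (mem_roots.1 h)), hd0 _ (fun h => hz' (mem_roots.1 h)), sub_zero]
    · show d ((starRingEnd ℂ) z) - d ((starRingEnd ℂ) ((starRingEnd ℂ) z)) = -(d z - d ((starRingEnd ℂ) z))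
      rw [Complex.conj_conj]
      ring
    · rw [← Module.forall_dual_apply_eq_zero_iff ℚ]
      intro ψ
      rw [map_sum]
      have h1 : ∀ z, ψ ((D z : ℂ) * f z) = (D z : ℚ) * ψ (f z) := by
        intro z
        have : (D z : ℂ) * f z = (D z : ℤ) • f z := by rw [zsmul_eq_mul]
        rw [this, map_zsmul, zsmul_eq_mul]
      rw [Finset.sum_congr rfl fun z _ => h1 z]
      have h2 : FL K (fun z => ((ψ (f z) : ℚ) : ℂ)) := by
        have := hf.phi hm hC2d hK2c hC5v hC8r ((Algebra.linearMap ℚ ℂ).comp ψ)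
        exact this
      have h3 : (fun w : {z // z ∈ R} => ψ (f w)) ∈ W := by
        rw [hW]
        refine h2.congr fun z hz => ?_
        have hzR : z ∈ R := mem_roots.2 hz
        simp only [ext, dif_pos hzR]
      have h4 := hdW _ h3
      rw [hsub (fun z => (d z : ℚ) * ψ (f z))] at h4
      have h5 := hDsum (fun z => ψ (f z)) (fun z hz => by
        show ψ (f _) = -ψ (f z)
        rw [hf.1 z hz, map_neg])
      rw [h5, h4, mul_zero]
  rw [hbot, AddSubgroup.mem_bot] at hDmem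
  have h5 := hDsum (fun z => ef z0 z) (fun z _ => ef_conj hz0 z)
  rw [hsub (fun z => (d z : ℚ) * ef z0 z)] at hde
  have h6 : ∑ z ∈ R, (D z : ℚ) * ef z0 z = 0 := by
    refine Finset.sum_eq_zero fun z _ => ?_
    rw [hDmem, Pi.zero_apply, Int.cast_zero, zero_mul]
  rw [h6] at h5
  apply hde
  linarith

/-- the central element with the scalars `τ z a / m` -/
theorem sum_ef (τ : ℂ → (Matrix (Fin n) (Fin n) ℂ →ₗ[ℂ] ℂ))
    (hodd : ∀ z : ℂ, Polynomial.aeval z K.P = 0 → ∀ a ∈ K.S, τ ((starRingEnd ℂ) z) a = - τ z a)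
    {a : Matrix (Fin n) (Fin n) ℂ} (ha : a ∈ K.S) (δ : {z // z ∈ roots K} → Matrix (Fin n) (Fin n) ℂ)
    (hδ : ∀ z0 : {z // z ∈ roots K}, ∀ z : ℂ, aeval z K.P = 0 → ∀ v ∈ K.Tl z,
      δ z0 *ᵥ v = ((ef z0 z : ℚ) : ℂ) • v) :
    ∀ z : ℂ, aeval z K.P = 0 → ∀ v ∈ K.Tl z,
      (∑ z0 : {z // z ∈ roots K}, (τ z0 a / m / 2) • δ z0) *ᵥ v = (τ z a / m) • v := by
  classical
  intro z hz v hv
  rw [Matrix.sum_mulVec]
  have h5 : ∀ z0 : {z // z ∈ roots K}, ((τ z0 a / m / 2) • δ z0) *ᵥ v =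
      ((τ z0 a / m / 2) * (ef z0 z : ℂ)) • v := by
    intro z0
    rw [Matrix.smul_mulVec, hδ z0 z hz v hv, smul_smul]
  rw [Finset.sum_congr rfl fun z0 _ => h5 z0, ← Finset.sum_smul]
  congr 1
  rw [Finset.sum_coe_sort (roots K) (fun z0 => (τ z0 a / m / 2) * (ef z0 z : ℂ))]
  have hzc : aeval ((starRingEnd ℂ) z) K.P = 0 := C5L.conj_root K hz
  have hne : (starRingEnd ℂ) z ≠ z := C5L.conj_ne K hz
  rw [← Finset.sum_subset (s₁ := {z, (starRingEnd ℂ) z})]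
  · rw [Finset.sum_pair hne.symm, hodd z hz a ha]
    simp only [ef, Complex.conj_conj, if_true, if_neg hne.symm]
    push_cast
    ring
  · intro w hw
    rw [Finset.mem_insert, Finset.mem_singleton] at hw
    rcases hw with rfl | rfl
    · exact mem_roots.2 hz
    · exact mem_roots.2 hzc
  · intro w _ hw
    rw [Finset.mem_insert, Finset.mem_singleton] at hw
    push Not at hw
    have h6 : ef w z = 0 := by
      unfold ef
      rw [if_neg (fun h => hw.1 h.symm), if_neg]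
      intro h
      apply hw.2
      rw [h, Complex.conj_conj]
    rw [h6]
    norm_num

/-- The core of C8T. -/
theorem core (hK2a : Stmt_K2a) (hK2b : Stmt_K2b) (hG4 : Stmt_Gb4) (hK2c : Stmt_K2c) (hK4 : Stmt_K4)
    (hC2d : Stmt_C2d) (hC5a : Stmt_C5a) (hC5v : Stmt_C5v) (hC8r : Stmt_C8r) (hm : 1 ≤ m)
    (hTrit : K.Trit) (hder : ∀ a ∈ K.S, ∀ b ∈ K.S, K.LT (a * b - b * a))
    (τ : ℂ → (Matrix (Fin n) (Fin n) ℂ →ₗ[ℂ] ℂ))
    (h2 : ∀ z : ℂ, Polynomial.aeval z K.P = 0 → ∀ a ∈ K.S, ∀ c : ℂ, (∀ v ∈ K.Tl z, a *ᵥ v = c • v) →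
        τ z a = m * c)
    (hodd : ∀ z : ℂ, Polynomial.aeval z K.P = 0 → ∀ a ∈ K.S, τ ((starRingEnd ℂ) z) a = - τ z a)
    (h3 : ∀ a ∈ K.S, (∀ z : ℂ, Polynomial.aeval z K.P = 0 → τ z a = 0) →
        a ∈ Submodule.span ℂ {c | ∃ b ∈ K.S, ∃ b' ∈ K.S, c = b * b' - b' * b})
    (h4 : ∀ U : Finset ℂ, (∀ z ∈ U, Polynomial.aeval z K.P = 0 ∧ (starRingEnd ℂ) z ∉ U) →
        ∃ Ω : Matrix (Idx g) (Idx g) ℂ, Ω ≠ 0 ∧ ∀ (Y : Matrix (Idx g) (Idx g) ℂ), ∀ a ∈ K.S, K.Act Y a →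
          Y * Ω - Ω * Y = (∑ z ∈ U, τ z a) • Ω) :
    ∀ a ∈ K.S, K.LT a := by
  classical
  have hm0 : (m : ℂ) ≠ 0 := by
    have : m ≠ 0 := by omega
    exact_mod_cast this
  have hderS : Submodule.span ℂ {c | ∃ b ∈ K.S, ∃ b' ∈ K.S, c = b * b' - b' * b} ≤ LTs K hK2a := by
    rw [Submodule.span_le]
    rintro _ ⟨b, hb, b', hb', rfl⟩
    exact hder b hb b' hb'
  -- splitting
  have hsplit : ∀ a ∈ K.S, ∃ b ∈ K.S, (∀ z : ℂ, aeval z K.P = 0 → ∀ v ∈ K.Tl z,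
      b *ᵥ v = (τ z a / m) • v) ∧ a - b ∈ LTs K hK2a := by
    intro a ha
    obtain ⟨b, hb, -, hbv⟩ := C5L.exists_central K (fun z => τ z a / m) (fun z hz => by
      show τ _ a / m = -(τ z a / m)
      rw [hodd z hz a ha, neg_div])
    refine ⟨b, hb, hbv, hderS (h3 _ (K.S.sub_mem ha hb) fun z hz => ?_)⟩
    rw [map_sub, h2 z hz b hb _ (hbv z hz)]
    field_simp
    ring
  have hFL : ∀ a ∈ K.S, K.LT a → FL K (fun z => τ z a / m) := by
    intro a ha hl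
    obtain ⟨b, hb, hbv, hab⟩ := hsplit a ha
    refine ⟨fun z hz => ?_, b, hb, ?_, hbv⟩
    · show τ _ a / m = -(τ z a / m)
      rw [hodd z hz a ha, neg_div]
    · have : b = a - (a - b) := by abel
      rw [this]
      exact (LTs K hK2a).sub_mem hl hab
  -- the annihilator vanishes
  have hbot : Ann K = ⊥ := by
    by_contra hne
    obtain ⟨d, hd, hd0, c, hc⟩ := hTrit (Ann K) (fun d hd => hd.1) (fun d hd => hd.2.1)
      (fun σ d hd => Ann_aut hK2b hG4 σ d hd) hne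
    obtain ⟨z1, hz1⟩ : ∃ z, d z ≠ 0 := by
      by_contra hh
      push Not at hh
      exact hd0 (funext hh)
    have hc0 : c ≠ 0 := by
      rintro rfl
      rcases hc z1 with h | h | h
      · exact hz1 h
      · exact hz1 h
      · exact hz1 (by simpa using h)
    have hcc : -c ≠ c := by omega
    set U : Finset ℂ := (roots K).filter fun z => d z = c with hU
    have hUm : ∀ z, z ∈ U ↔ aeval z K.P = 0 ∧ d z = c := by
      intro z
      rw [hU, Finset.mem_filter, mem_roots]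
    have hconjU : ∀ z ∈ U, (starRingEnd ℂ) z ∉ U := by
      intro z hz h
      have h5 := ((hUm _).1 h).2
      rw [hd.2.1, ((hUm z).1 hz).2] at h5
      exact hcc h5
    obtain ⟨z0, hz0⟩ : ∃ z, z ∈ U := by
      have hr : aeval z1 K.P = 0 := by
        by_contra h
        exact hz1 (hd.1 z1 h)
      rcases hc z1 with h | h | h
      · exact absurd h hz1
      · exact ⟨z1, (hUm _).2 ⟨hr, h⟩⟩
      · refine ⟨(starRingEnd ℂ) z1, (hUm _).2 ⟨C5L.conj_root K hr, ?_⟩⟩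
        rw [hd.2.1, h, neg_neg]
    obtain ⟨Ω, hΩ0, hΩ⟩ := h4 U fun z hz => ⟨((hUm z).1 hz).1, hconjU z hz⟩
    -- sums
    have hsum : ∀ f : ℂ → ℂ, FL K f → ∑ z ∈ U, f z = 0 := by
      intro f hf
      have h5 := hd.2.2 f hf
      have h6 : ∀ z ∈ roots K, (d z : ℂ) * f z =
          (if d z = c then (c : ℂ) * f z else 0) +
            (if d ((starRingEnd ℂ) z) = c then (c : ℂ) * f ((starRingEnd ℂ) z) else 0) := by
        intro z hz
        rw [hf.1 z (mem_roots.1 hz), hd.2.1]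
        rcases hc z with h | h | h
        · rw [h, if_neg (fun h => hc0 h.symm), neg_zero, if_neg (fun h => hc0 h.symm)]
          simp
        · rw [h, if_pos rfl, if_neg hcc, add_zero]
        · rw [h, if_neg hcc, neg_neg, if_pos rfl, zero_add]
          push_cast
          ring
      rw [Finset.sum_congr rfl h6, Finset.sum_add_distrib,
        sum_conj (K := K) (fun z => if d z = c then (c : ℂ) * f z else 0), ← Finset.sum_filter,
        ← Finset.mul_sum, ← two_mul] at h5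
      have hcC : (c : ℂ) ≠ 0 := by exact_mod_cast hc0
      have h7 := (mul_eq_zero.1 h5).resolve_left two_ne_zero
      exact (mul_eq_zero.1 h7).resolve_left hcC
    -- Ω commutes with the Lie algebra
    have hcomm : ∀ X ξ, InLie (Gam A) X ξ → X * Ω = Ω * X := by
      intro X ξ hX
      obtain ⟨a, ha, hXa⟩ := exists_S (K := K) hm hC2d hK2c hC5v hX
      have h5 := hsum _ (hFL a ha ⟨X, ξ, hX, hXa⟩)
      have h6 := hΩ X a ha hXa
      have h7 : ∑ z ∈ U, τ z a = 0 := by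
        rw [← Finset.sum_div] at h5
        rcases div_eq_zero_iff.1 h5 with h | h
        · exact h
        · exact absurd h hm0
      rw [h7, zero_smul] at h6
      exact sub_eq_zero.1 h6
    have hspan := hK4 g A Ω hcomm
    obtain ⟨-, -, hlift, -, hend, -⟩ := hC5a g A n m K
    have hz0r : aeval z0 K.P = 0 := ((hUm z0).1 hz0).1
    obtain ⟨δ, hδS, -, hδ⟩ := C5L.exists_central K (fun z => ((ef z0 z : ℚ) : ℂ)) (fun z _ => by
      show ((ef z0 ((starRingEnd ℂ) z) : ℚ) : ℂ) = -((ef z0 z : ℚ) : ℂ)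
      rw [ef_conj hz0r]
      push_cast
      rfl)
    have hact : K.Act (K.Z δ) δ := fun v => hlift δ (fun v w => C5X.S_skew K δ hδS v w) v
    have h5 := hΩ (K.Z δ) δ hδS hact
    have h6 : K.Z δ * Ω - Ω * K.Z δ = 0 := by
      rw [hend Ω hspan δ hδS, sub_self]
    have h7 : ∑ z ∈ U, τ z δ = m := by
      rw [Finset.sum_eq_single z0]
      · rw [h2 z0 hz0r δ hδS 1 (fun v hv => by
          rw [hδ z0 hz0r v hv, ef, if_pos rfl]
          norm_num), mul_one]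
      · intro z hz hne
        have hne' : z ≠ (starRingEnd ℂ) z0 := by
          rintro rfl
          exact hconjU z0 hz0 hz
        rw [h2 z ((hUm z).1 hz).1 δ hδS 0 (fun v hv => by
          rw [hδ z ((hUm z).1 hz).1 v hv, ef, if_neg hne, if_neg hne']
          norm_num), mul_zero]
      · intro h; exact absurd hz0 h
    rw [h6, h7] at h5
    rcases smul_eq_zero.1 h5.symm with h | h
    · exact hm0 h
    · exact hΩ0 h
  -- conclusion
  have hef : ∀ z0 : ℂ, aeval z0 K.P = 0 → FL K (fun z => (ef z0 z : ℂ)) := fun z0 hz0 =>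
    FL_ef hK2a hm hC2d hK2c hC5v hC8r hbot hz0
  intro a ha
  obtain ⟨b, hb, hbv, hab⟩ := hsplit a ha
  choose δ hδ using fun z0 : {z // z ∈ roots K} => (hef z0 (mem_roots.1 z0.2)).2
  have hbe : b = ∑ z0 : {z // z ∈ roots K}, (τ z0 a / m / 2) • δ z0 := by
    refine C5L.mat_extT K fun z hz v hv => ?_
    rw [hbv z hz v hv, sum_ef τ hodd ha δ (fun z0 => (hδ z0).2.2) z hz v hv]
  have hLb : b ∈ LTs K hK2a := by
    rw [hbe]
    exact Submodule.sum_mem _ fun z0 _ => (LTs K hK2a).smul_mem _ (hδ z0).2.1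
  have : a = (a - b) + b := by abel
  rw [this]
  exact (LTs K hK2a).add_mem hab hLb

end C8T

/-- C5W with oddness of `τ`. -/
def Stmt_C5w2 : Prop :=
  ∀ (g : ℕ) (A : AbVar g) (n m : ℕ) (K : KSC A n m), 1 ≤ m →
    ∃ τ : ℂ → (Matrix (Fin n) (Fin n) ℂ →ₗ[ℂ] ℂ),
      (∀ z : ℂ, Polynomial.aeval z K.P = 0 → ∀ a ∈ K.S, ∀ b ∈ K.S, τ z (a * b - b * a) = 0) ∧
      (∀ z : ℂ, Polynomial.aeval z K.P = 0 → ∀ a ∈ K.S, ∀ c : ℂ, (∀ v ∈ K.Tl z, a *ᵥ v = c • v) →
        τ z a = m * c) ∧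
      (∀ z : ℂ, Polynomial.aeval z K.P = 0 → ∀ a ∈ K.S, τ ((starRingEnd ℂ) z) a = - τ z a) ∧
      (∀ a ∈ K.S, (∀ z : ℂ, Polynomial.aeval z K.P = 0 → τ z a = 0) →
        a ∈ Submodule.span ℂ {c | ∃ b ∈ K.S, ∃ b' ∈ K.S, c = b * b' - b' * b}) ∧
      ∀ U : Finset ℂ, (∀ z ∈ U, Polynomial.aeval z K.P = 0 ∧ (starRingEnd ℂ) z ∉ U) →
        ∃ Ω : Matrix (Idx g) (Idx g) ℂ, Ω ≠ 0 ∧ ∀ (Y : Matrix (Idx g) (Idx g) ℂ), ∀ a ∈ K.S, K.Act Y a →
          Y * Ω - Ω * Y = (∑ z ∈ U, τ z a) • Ω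

theorem C8t_proof (hK2a : Stmt_K2a) (hK2b : Stmt_K2b) (hG4 : Stmt_Gb4) (hK2c : Stmt_K2c) (hK4 : Stmt_K4)
    (hC2d : Stmt_C2d) (hC5a : Stmt_C5a) (hC5v : Stmt_C5v) (hC8r : Stmt_C8r) (hC5w : Stmt_C5w2) :
    Stmt_C8t := by
  intro g A n m K hm hTrit hder
  obtain ⟨τ, -, h2, hodd, h3, h4⟩ := hC5w g A n m K hm
  exact C8T.core hK2a hK2b hG4 hK2c hK4 hC2d hC5a hC5v hC8r hm hTrit hder τ h2 hodd h3 h4

end

end Pool.Agent.K3C
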