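import Pool.Agent.K3C.C7x
import Pool.Agent.K3C.C8t

/-!
# C5w: weight vectors in the Clifford algebra
-/

open scoped BigOperators
open Matrix

namespace Pool.Agent.K3C

open Pool.Agent.DRB Pool.Agent.K3D Pool.Agent.K3E C5X C5dX

noncomputable section

namespace C5W

variable {g n m : ℕ} {A : AbVar g} (K : KSC A n m)

/-- the matrix of `x ∧ y` -/
def wm (x y : Fin n → ℂ) : Matrix (Fin n) (Fin n) ℂ :=
  Matrix.of fun i j => x i * ((K.q j : ℂ) * y j) - y i * ((K.q j : ℂ) * x j)

theorem wm_mulVec (x y v : Fin n → ℂ) : wm K x y *ᵥ v = K.bil y v • x - K.bil x v • y := by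
  ext i
  simp only [Matrix.mulVec, dotProduct, wm, Matrix.of_apply, Pi.sub_apply, Pi.smul_apply,
    smul_eq_mul, KSC.bil, Finset.sum_mul]
  rw [← Finset.sum_sub_distrib]
  exact Finset.sum_congr rfl fun j _ => by ring

/-- dual bases of the conjugate eigenspaces -/
theorem exists_dual (h5l : Stmt_C5l) (hm : 1 ≤ m) (z : ℂ) (hz : Polynomial.aeval z K.P = 0) :
    ∃ b b' : Fin m → (Fin n → ℂ), (∀ i, b i ∈ K.Tl z) ∧ (∀ i, b' i ∈ K.Tl ((starRingEnd ℂ) z)) ∧
      (∀ i j, K.bil (b i) (b' j) = if i = j then 1 else 0) ∧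
      (∀ v ∈ K.Tl z, v = ∑ j, K.bil v (b' j) • b j) ∧
      (∀ v ∈ K.Tl ((starRingEnd ℂ) z), v = ∑ j, K.bil (b j) v • b' j) := by
  classical
  obtain ⟨hdim, -, -, hdual, -⟩ := h5l g A n m K hm
  have hzc := C7X.conj_root K z hz
  -- the map to the dual space
  let f : K.Tl ((starRingEnd ℂ) z) →ₗ[ℂ] Module.Dual ℂ (K.Tl z) :=
    ((bf K).compl₁₂ (K.Tl z).subtype (K.Tl ((starRingEnd ℂ) z)).subtype).flip
  have hf : ∀ w v, f w v = K.bil v w := fun w v => rfl
  have hinj : Function.Injective f := by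
    rw [← LinearMap.ker_eq_bot, LinearMap.ker_eq_bot']
    intro w hw
    apply Subtype.ext
    refine hdual _ hzc _ w.2 fun v hv => ?_
    rw [Complex.conj_conj] at hv
    have h1 := LinearMap.congr_fun hw (⟨v, hv⟩ : K.Tl z)
    rw [hf, LinearMap.zero_apply] at h1
    rw [bil_comm]
    exact h1
  have hsurj : Function.Surjective f := by
    refine (LinearMap.injective_iff_surjective_of_finrank_eq_finrank ?_).1 hinj
    rw [Subspace.dual_finrank_eq, hdim z hz, hdim _ hzc]
  let b : Module.Basis (Fin m) ℂ (K.Tl z) :=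
    (Module.finBasis ℂ (K.Tl z)).reindex (finCongr (hdim z hz))
  have h1 : ∀ j, ∃ w, f w = b.coord j := fun j => hsurj _
  choose b' hb' using h1
  have hbb : ∀ i j, K.bil (b i) (b' j) = if i = j then 1 else 0 := by
    intro i j
    rw [← hf, hb', Module.Basis.coord_apply, Module.Basis.repr_self, Finsupp.single_apply]
  have hexp : ∀ v ∈ K.Tl z, v = ∑ j, K.bil v (b' j) • (b j : Fin n → ℂ) := by
    intro v hv
    have h2 := congrArg (K.Tl z).subtype (b.sum_repr ⟨v, hv⟩)
    rw [map_sum] at h2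
    have h3 : ∀ j, b.repr ⟨v, hv⟩ j = K.bil v (b' j) := by
      intro j
      rw [← Module.Basis.coord_apply, ← hb', hf]
    simp only [h3] at h2
    exact h2.symm
  refine ⟨fun i => (b i : Fin n → ℂ), fun i => (b' i : Fin n → ℂ), fun i => (b i).2, fun i => (b' i).2,
    hbb, hexp, fun v hv => ?_⟩
  rw [← sub_eq_zero]
  refine hdual _ hzc _ (Submodule.sub_mem _ hv (Submodule.sum_mem _ fun j _ =>
    Submodule.smul_mem _ _ (b' j).2)) fun w hw => ?_
  rw [Complex.conj_conj] at hw
  have h4 : K.bil (∑ j, K.bil (b j) v • (b' j : Fin n → ℂ)) w = K.bil v w := by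
    conv_rhs => rw [hexp w hw]
    rw [← bf_apply, ← bf_apply, map_sum, map_sum, LinearMap.sum_apply]
    refine Finset.sum_congr rfl fun j _ => ?_
    rw [map_smul, map_smul, LinearMap.smul_apply, bf_apply, bf_apply, smul_eq_mul, smul_eq_mul,
      bil_comm K (b' j) w, bil_comm K v (b j)]
    ring
  rw [bil_sub_left, h4, sub_self]

/-! ### Products of isotropic vectors -/

variable {ι : Type}

/-- Products of independent vectors do not vanish. -/
theorem pr_ne (hr : Rel K) [DecidableEq ι] (u w : ι → (Fin n → ℂ)) : ∀ l : List ι, l.Nodup →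
    (∀ i ∈ l, ∀ j ∈ l, K.bil (u i) (w j) = if i = j then 1 else 0) → pr K (l.map u) ≠ 0 := by
  intro l
  induction l with
  | nil =>
    intro _ _
    rw [List.map_nil, pr_nil]
    exact one_ne K.pos
  | cons a l ih =>
    intro hl h h0
    obtain ⟨ha, hl'⟩ := List.nodup_cons.1 hl
    refine ih hl' (fun i hi j hj => h i (by simp [hi]) j (by simp [hj])) ?_
    rw [List.map_cons, pr_cons] at h0
    have h1 := pr_orth hr (l.map u) (w a) (by
      intro v hv
      obtain ⟨i, hi, rfl⟩ := List.mem_map.1 hv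
      rw [h i (by simp [hi]) a (by simp), if_neg (by rintro rfl; exact ha hi)])
    have h2 := hr (w a) (u a)
    rw [bil_comm, h a (by simp) a (by simp), if_pos rfl, mul_one] at h2
    have h3 : K.cl (w a) * (K.cl (u a) * pr K (l.map u)) =
        (K.cl (w a) * K.cl (u a) + K.cl (u a) * K.cl (w a)) * pr K (l.map u) -
        K.cl (u a) * (K.cl (w a) * pr K (l.map u)) := by noncomm_ring
    have h4 : K.cl (w a) * pr K (l.map u) =
        (-1 : ℂ) ^ (l.map u).length • (pr K (l.map u) * K.cl (w a)) := by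
      rw [h1, smul_smul, ← mul_pow]
      simp
    rw [h2, h4, Matrix.mul_smul, ← Matrix.mul_assoc (K.cl (u a)), h0, Matrix.zero_mul, smul_zero,
      sub_zero, Matrix.mul_zero, Matrix.smul_mul, Matrix.one_mul] at h3
    exact (smul_eq_zero.1 h3.symm).resolve_left two_ne_zero

/-- A factor annihilates the product from the right. -/
theorem pr_mul_mem (hr : Rel K) (u : ι → (Fin n → ℂ)) : ∀ l : List ι,
    (∀ i ∈ l, ∀ j ∈ l, K.bil (u i) (u j) = 0) → ∀ i ∈ l, pr K (l.map u) * K.cl (u i) = 0 := by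
  intro l
  induction l with
  | nil => intro _ i hi; exact absurd hi (by simp)
  | cons a l ih =>
    intro h i hi
    rw [List.map_cons, pr_cons]
    rcases List.mem_cons.1 hi with rfl | hi'
    · have h1 := pr_orth hr (l.map u) (u i) (by
        intro v hv
        obtain ⟨j, hj, rfl⟩ := List.mem_map.1 hv
        exact h j (by simp [hj]) i (by simp))
      rw [Matrix.mul_assoc, h1, Matrix.mul_smul, ← Matrix.mul_assoc, sq hr, h i (by simp) i (by simp),
        zero_smul, Matrix.zero_mul, smul_zero]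
    · rw [Matrix.mul_assoc, ih (fun i hi j hj => h i (by simp [hi]) j (by simp [hj])) i hi',
        Matrix.mul_zero]

/-- A factor annihilates the product from the left. -/
theorem mem_mul_pr (hr : Rel K) (u : ι → (Fin n → ℂ)) (l : List ι)
    (h : ∀ i ∈ l, ∀ j ∈ l, K.bil (u i) (u j) = 0) (i : ι) (hi : i ∈ l) :
    K.cl (u i) * pr K (l.map u) = 0 := by
  have h1 := pr_orth hr (l.map u) (u i) (by
    intro v hv
    obtain ⟨j, hj, rfl⟩ := List.mem_map.1 hv
    exact h j hj i hi)
  rw [pr_mul_mem K hr u l h i hi] at h1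
  exact (smul_eq_zero.1 h1.symm).resolve_left (pow_ne_zero _ (by norm_num))

/-- The derivative of the volume element of an isotropic subspace. -/
theorem ad_vol (hr : Rel K) [DecidableEq ι] (s : Finset ι) (u w : ι → (Fin n → ℂ))
    (h1 : ∀ i ∈ s, ∀ j ∈ s, K.bil (u i) (u j) = 0)
    (h2 : ∀ i ∈ s, ∀ j ∈ s, K.bil (u i) (w j) = if i = j then 1 else 0)
    (Y : Matrix (Idx g) (Idx g) ℂ) (a : Matrix (Fin n) (Fin n) ℂ) (hY : K.Act Y a)
    (ha : ∀ i ∈ s, a *ᵥ u i = ∑ j ∈ s, K.bil (a *ᵥ u i) (w j) • u j) :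
    Y * pr K (s.toList.map u) - pr K (s.toList.map u) * Y =
      (∑ i ∈ s, K.bil (a *ᵥ u i) (w i)) • pr K (s.toList.map u) := by
  have hl1 : ∀ i ∈ s.toList, ∀ j ∈ s.toList, K.bil (u i) (u j) = 0 := fun i hi j hj =>
    h1 i (Finset.mem_toList.1 hi) j (Finset.mem_toList.1 hj)
  set Ω := pr K (s.toList.map u) with hΩ
  let G : Matrix (Idx g) (Idx g) ℂ := ∑ k ∈ s, (1 / 2 : ℂ) • (K.cl (a *ᵥ u k) * K.cl (w k))
  -- anticommutation of `a u_k` with `u_i`
  have hb0 : ∀ k ∈ s, ∀ i ∈ s, K.bil (a *ᵥ u k) (u i) = 0 := by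
    intro k hk i hi
    rw [ha k hk, ← bf_apply, map_sum, LinearMap.sum_apply]
    refine Finset.sum_eq_zero fun j hj => ?_
    rw [map_smul, LinearMap.smul_apply, bf_apply, h1 j hj i hi, smul_zero]
  have hG : ∀ i ∈ s, G * K.cl (u i) - K.cl (u i) * G = K.cl (a *ᵥ u i) := by
    intro i hi
    have e1 : ∀ k ∈ s, (1 / 2 : ℂ) • (K.cl (a *ᵥ u k) * K.cl (w k)) * K.cl (u i) -
        K.cl (u i) * ((1 / 2 : ℂ) • (K.cl (a *ᵥ u k) * K.cl (w k))) =
        (if i = k then (1 : ℂ) else 0) • K.cl (a *ᵥ u k) := by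
      intro k hk
      have f1 := hr (w k) (u i)
      have f2 := anti hr _ _ (hb0 k hk i hi)
      rw [bil_comm, h2 i hi k hk] at f1
      have f3 : K.cl (a *ᵥ u k) * K.cl (w k) * K.cl (u i) - K.cl (u i) * (K.cl (a *ᵥ u k) * K.cl (w k)) =
          K.cl (a *ᵥ u k) * (K.cl (w k) * K.cl (u i) + K.cl (u i) * K.cl (w k)) -
          (K.cl (a *ᵥ u k) * K.cl (u i) + K.cl (u i) * K.cl (a *ᵥ u k)) * K.cl (w k) := by noncomm_ring
      rw [Matrix.smul_mul, Matrix.mul_smul, ← smul_sub, f3, f1, f2, neg_add_cancel, Matrix.zero_mul,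
        sub_zero, Matrix.mul_smul, Matrix.mul_one, smul_smul]
      congr 1
      ring
    show (∑ k ∈ s, _) * _ - _ * (∑ k ∈ s, _) = _
    rw [Finset.sum_mul, Finset.mul_sum, ← Finset.sum_sub_distrib, Finset.sum_congr rfl e1]
    simp only [ite_smul, one_smul, zero_smul, Finset.sum_ite_eq, hi, if_true]
  -- `Y - G` commutes with `Ω`
  have hYG : (Y - G) * Ω = Ω * (Y - G) := by
    have e1 : ∀ l : List ι, (∀ i ∈ l, i ∈ s) → (Y - G) * pr K (l.map u) = pr K (l.map u) * (Y - G) := by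
      intro l
      induction l with
      | nil => intro _; rw [List.map_nil, pr_nil, Matrix.mul_one, Matrix.one_mul]
      | cons j l ih =>
        intro hl
        have f1 := hG j (hl j (by simp))
        have f2 := hY (u j)
        have f3 : (Y - G) * K.cl (u j) = K.cl (u j) * (Y - G) := by
          rw [← sub_eq_zero]
          have : (Y - G) * K.cl (u j) - K.cl (u j) * (Y - G) =
              (Y * K.cl (u j) - K.cl (u j) * Y) - (G * K.cl (u j) - K.cl (u j) * G) := by noncomm_ring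
          rw [this, f1, f2, sub_self]
        rw [List.map_cons, pr_cons, ← Matrix.mul_assoc, f3, Matrix.mul_assoc,
          ih fun i hi => hl i (by simp [hi]), Matrix.mul_assoc]
    exact e1 _ fun i hi => Finset.mem_toList.1 hi
  have hzero1 : ∀ k ∈ s, Ω * K.cl (a *ᵥ u k) = 0 := by
    intro k hk
    rw [ha k hk, cl_sum, Finset.mul_sum]
    refine Finset.sum_eq_zero fun j hj => ?_
    rw [Matrix.mul_smul, pr_mul_mem K hr u _ hl1 j (Finset.mem_toList.2 hj), smul_zero]
  have hzero2 : ∀ k ∈ s, K.cl (a *ᵥ u k) * Ω = 0 := by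
    intro k hk
    rw [ha k hk, cl_sum, Finset.sum_mul]
    refine Finset.sum_eq_zero fun j hj => ?_
    rw [Matrix.smul_mul, mem_mul_pr K hr u _ hl1 j (Finset.mem_toList.2 hj), smul_zero]
  have hG1 : Ω * G = 0 := by
    show Ω * (∑ k ∈ s, _) = 0
    rw [Finset.mul_sum]
    refine Finset.sum_eq_zero fun k hk => ?_
    rw [Matrix.mul_smul, ← Matrix.mul_assoc, hzero1 k hk, Matrix.zero_mul, smul_zero]
  have hG2 : G * Ω = (∑ i ∈ s, K.bil (a *ᵥ u i) (w i)) • Ω := by
    show (∑ k ∈ s, _) * Ω = _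
    rw [Finset.sum_mul, Finset.sum_smul]
    refine Finset.sum_congr rfl fun k hk => ?_
    have f1 := hr (a *ᵥ u k) (w k)
    have f2 : K.cl (a *ᵥ u k) * K.cl (w k) * Ω =
        (K.cl (a *ᵥ u k) * K.cl (w k) + K.cl (w k) * K.cl (a *ᵥ u k)) * Ω -
        K.cl (w k) * (K.cl (a *ᵥ u k) * Ω) := by noncomm_ring
    rw [Matrix.smul_mul, f2, f1, hzero2 k hk, Matrix.mul_zero, sub_zero, Matrix.smul_mul,
      Matrix.one_mul, smul_smul]
    congr 1
    ring
  have hfin : Y * Ω - Ω * Y = ((Y - G) * Ω - Ω * (Y - G)) + (G * Ω - Ω * G) := by noncomm_ring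
  rw [hfin, hYG, sub_self, zero_add, hG1, hG2, sub_zero]

/-- the commutator with an element of rank two -/
theorem comm_wm (a : Matrix (Fin n) (Fin n) ℂ) (ha : ∀ v w, K.bil (a *ᵥ v) w + K.bil v (a *ᵥ w) = 0)
    (x y : Fin n → ℂ) : a * wm K x y - wm K x y * a = wm K (a *ᵥ x) y + wm K x (a *ᵥ y) := by
  refine mat_ext fun v => ?_
  rw [Matrix.sub_mulVec, Matrix.add_mulVec, ← Matrix.mulVec_mulVec, ← Matrix.mulVec_mulVec, wm_mulVec,
    wm_mulVec, wm_mulVec, wm_mulVec, Matrix.mulVec_sub, Matrix.mulVec_smul, Matrix.mulVec_smul]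
  have h1 : K.bil y (a *ᵥ v) = -K.bil (a *ᵥ y) v := by linear_combination ha y v
  have h2 : K.bil x (a *ᵥ v) = -K.bil (a *ᵥ x) v := by linear_combination ha x v
  rw [h1, h2, neg_smul, neg_smul]
  abel

end C5W

open C5W in
theorem C5w2_proof (h5l : Stmt_C5l) : Stmt_C5w2 := by
  classical
  intro g A n m K hm
  have hex : ∀ z : ℂ, ∃ b b' : Fin m → (Fin n → ℂ), Polynomial.aeval z K.P = 0 →
      ((∀ i, b i ∈ K.Tl z) ∧ (∀ i, b' i ∈ K.Tl ((starRingEnd ℂ) z)) ∧
      (∀ i j, K.bil (b i) (b' j) = if i = j then 1 else 0) ∧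
      (∀ v ∈ K.Tl z, v = ∑ j, K.bil v (b' j) • b j) ∧
      (∀ v ∈ K.Tl ((starRingEnd ℂ) z), v = ∑ j, K.bil (b j) v • b' j)) := by
    intro z
    by_cases hz : Polynomial.aeval z K.P = 0
    · obtain ⟨b, b', h⟩ := exists_dual K h5l hm z hz
      exact ⟨b, b', fun _ => h⟩
    · exact ⟨0, 0, fun h => absurd h hz⟩
  choose b b' hbb using hex
  obtain ⟨hdim, htop, horth, hdual, hrk, hpres, -⟩ := h5l g A n m K hm
  have hr := rel K
  have hwS : ∀ z : ℂ, Polynomial.aeval z K.P = 0 → ∀ x ∈ K.Tl z, ∀ y ∈ K.Tl ((starRingEnd ℂ) z),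
      wm K x y ∈ K.S := by
    intro z hz x hx y hy
    obtain ⟨a, ha, h⟩ := hrk z hz x hx y hy
    have : wm K x y = a := mat_ext fun v => by rw [wm_mulVec, h]
    rw [this]
    exact ha
  let τ : ℂ → (Matrix (Fin n) (Fin n) ℂ →ₗ[ℂ] ℂ) := fun z =>
    { toFun := fun a => ∑ i, K.bil (a *ᵥ b z i) (b' z i)
      map_add' := by
        intro a a'
        rw [← Finset.sum_add_distrib]
        refine Finset.sum_congr rfl fun i _ => ?_
        rw [Matrix.add_mulVec, bil_add_left]
      map_smul' := by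
        intro c a
        rw [RingHom.id_apply, smul_eq_mul, Finset.mul_sum]
        refine Finset.sum_congr rfl fun i _ => ?_
        rw [Matrix.smul_mulVec, bil_smul_left] }
  have hτ : ∀ z a, τ z a = ∑ i, K.bil (a *ᵥ b z i) (b' z i) := fun _ _ => rfl
  refine ⟨τ, ?_, ?_, ?_, ?_, ?_⟩
  · intro z hz a ha a' ha'
    obtain ⟨h1, h2, h3, h4, h5⟩ := hbb z hz
    have key : ∀ a ∈ K.S, ∀ a' ∈ K.S, τ z (a * a') =
        ∑ i, ∑ j, K.bil (a' *ᵥ b z i) (b' z j) * K.bil (a *ᵥ b z j) (b' z i) := by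
      intro a ha a' ha'
      rw [hτ]
      refine Finset.sum_congr rfl fun i _ => ?_
      rw [← Matrix.mulVec_mulVec]
      conv_lhs => rw [h4 _ (hpres a' ha' z _ (h1 i))]
      rw [← Matrix.mulVecLin_apply, map_sum, ← bf_apply, map_sum, LinearMap.sum_apply]
      refine Finset.sum_congr rfl fun j _ => ?_
      rw [map_smul, Matrix.mulVecLin_apply, map_smul, LinearMap.smul_apply, bf_apply, smul_eq_mul]
    rw [map_sub, key a ha a' ha', key a' ha' a ha, sub_eq_zero, Finset.sum_comm]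
    refine Finset.sum_congr rfl fun i _ => Finset.sum_congr rfl fun j _ => mul_comm _ _
  · intro z hz a ha c hc
    obtain ⟨h1, h2, h3, h4, h5⟩ := hbb z hz
    rw [hτ]
    have : ∀ i, K.bil (a *ᵥ b z i) (b' z i) = c := by
      intro i
      rw [hc _ (h1 i), bil_smul_left, h3, if_pos rfl, mul_one]
    rw [Finset.sum_congr rfl fun i _ => this i, Finset.sum_const, Finset.card_univ, Fintype.card_fin,
      nsmul_eq_mul]
  · intro z hz a ha
    obtain ⟨h1, h2, h3, h4, h5⟩ := hbb z hz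
    obtain ⟨g1, g2, g3, g4, g5⟩ := hbb _ (C7X.conj_root K z hz)
    rw [hτ, hτ]
    have e1 : ∀ i, K.bil (a *ᵥ b ((starRingEnd ℂ) z) i) (b' ((starRingEnd ℂ) z) i) =
        ∑ k, K.bil (b z k) (b ((starRingEnd ℂ) z) i) *
          K.bil (a *ᵥ b' z k) (b' ((starRingEnd ℂ) z) i) := by
      intro i
      conv_lhs => rw [h5 _ (g1 i)]
      rw [← Matrix.mulVecLin_apply, map_sum, ← bf_apply, map_sum, LinearMap.sum_apply]
      refine Finset.sum_congr rfl fun k _ => ?_
      rw [map_smul, Matrix.mulVecLin_apply, map_smul, LinearMap.smul_apply, bf_apply, smul_eq_mul]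
    rw [Finset.sum_congr rfl fun i _ => e1 i, Finset.sum_comm, ← Finset.sum_neg_distrib]
    refine Finset.sum_congr rfl fun k _ => ?_
    have e2 : ∑ i, K.bil (b z k) (b ((starRingEnd ℂ) z) i) *
        K.bil (a *ᵥ b' z k) (b' ((starRingEnd ℂ) z) i) = K.bil (a *ᵥ b' z k) (b z k) := by
      conv_rhs => rw [g5 (b z k) (by rw [Complex.conj_conj]; exact h1 k)]
      rw [← bf_apply, map_sum]
      refine Finset.sum_congr rfl fun i _ => ?_
      rw [map_smul, bf_apply, smul_eq_mul, bil_comm K (b z k)]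
    rw [e2]
    have e3 := S_skew K a ha (b z k) (b' z k)
    rw [bil_comm K (b z k) (a *ᵥ b' z k)] at e3
    linear_combination e3
  · intro a ha hτ0
    set D := Submodule.span ℂ {c | ∃ b ∈ K.S, ∃ b' ∈ K.S, c = b * b' - b' * b} with hD
    let i0 : Fin m := ⟨0, hm⟩
    -- the claim on the elements of rank two
    have hclaim : ∀ z : ℂ, Polynomial.aeval z K.P = 0 → ∀ x ∈ K.Tl z, ∀ y ∈ K.Tl ((starRingEnd ℂ) z),
        wm K x y - K.bil x y • wm K (b z i0) (b' z i0) ∈ D := by
      intro z hz x hx y hy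
      obtain ⟨h1, h2, h3, h4, h5⟩ := hbb z hz
      have hne1 : z ≠ (starRingEnd ℂ) z := by
        intro h
        have e1 := (K.cm z hz).1
        have e2 := congrArg Complex.im h
        rw [Complex.conj_im] at e2
        exact e1 (by linarith)
      have hiso : ∀ v ∈ K.Tl z, ∀ w ∈ K.Tl z, K.bil v w = 0 := horth z z hz hne1
      have hzz : (starRingEnd ℂ) z ≠ (starRingEnd ℂ) ((starRingEnd ℂ) z) := by
        rw [Complex.conj_conj]
        exact hne1.symm
      have hiso' : ∀ v ∈ K.Tl ((starRingEnd ℂ) z), ∀ w ∈ K.Tl ((starRingEnd ℂ) z), K.bil v w = 0 :=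
        horth _ _ (C7X.conj_root K z hz) hzz
      have hA := hwS z hz x hx (b' z i0) (h2 i0)
      have hB := hwS z hz (b z i0) (h1 i0) y hy
      refine Submodule.subset_span ⟨_, hA, _, hB, ?_⟩
      rw [comm_wm K _ (S_skew K _ hA)]
      refine mat_ext fun v => ?_
      have e1 : K.bil (b' z i0) (b z i0) = 1 := by rw [bil_comm, h3, if_pos rfl]
      rw [wm_mulVec K x (b' z i0) (b z i0), wm_mulVec K x (b' z i0) y, e1,
        hiso x hx _ (h1 i0), hiso' _ (h2 i0) _ hy, zero_smul, sub_zero, one_smul, zero_smul, zero_sub,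
        Matrix.sub_mulVec, Matrix.smul_mulVec, Matrix.add_mulVec, wm_mulVec, wm_mulVec, wm_mulVec,
        ← neg_smul, bil_smul_left, smul_smul, smul_sub, smul_smul, smul_smul]
      module
    -- the decomposition
    have hP0 : K.P ≠ 0 := K.irr.ne_zero
    let R : Finset ℂ := (K.P.aroots ℂ).toFinset
    have hR : ∀ z, z ∈ R ↔ Polynomial.aeval z K.P = 0 := by
      intro z
      rw [Multiset.mem_toFinset, Polynomial.mem_aroots]
      exact ⟨fun h => h.2, fun h => ⟨hP0, h⟩⟩
    have hdec : (2 : ℂ) • a = ∑ z ∈ R, ∑ i, wm K (a *ᵥ b z i) (b' z i) := by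
      refine mat_ext fun v => ?_
      refine ext_Tl (K := K) h5l hm ((2 : ℂ) • a).mulVecLin
        (∑ z ∈ R, ∑ i, wm K (a *ᵥ b z i) (b' z i)).mulVecLin (fun z hz w hw => ?_) v
      rw [Matrix.mulVecLin_apply, Matrix.mulVecLin_apply, Matrix.sum_mulVec]
      have hzc := C7X.conj_root K z hz
      have hne1 : z ≠ (starRingEnd ℂ) z := by
        intro h
        have e1 := (K.cm z hz).1
        have e2 := congrArg Complex.im h
        rw [Complex.conj_im] at e2
        exact e1 (by linarith)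
      have hzero : ∀ x ∈ R, x ≠ z → x ≠ (starRingEnd ℂ) z →
          (∑ i, wm K (a *ᵥ b x i) (b' x i)) *ᵥ w = 0 := by
        intro x hx hx1 hx2
        obtain ⟨h1, h2, h3, h4, h5⟩ := hbb x ((hR x).1 hx)
        rw [Matrix.sum_mulVec]
        refine Finset.sum_eq_zero fun i _ => ?_
        rw [wm_mulVec, horth _ z (C7X.conj_root K x ((hR x).1 hx))
          (by rw [Complex.conj_conj]; exact hx1.symm) _ (h2 i) _ hw,
          horth x z ((hR x).1 hx) (fun h => hx2 (by rw [h, Complex.conj_conj])) _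
          (hpres a ha x _ (h1 i)) _ hw, zero_smul, zero_smul, sub_zero]
      have hzR := (hR z).2 hz
      have hzcR : (starRingEnd ℂ) z ∈ R.erase z := Finset.mem_erase.2 ⟨hne1.symm, (hR _).2 hzc⟩
      rw [← Finset.add_sum_erase R _ hzR, ← Finset.add_sum_erase (R.erase z) _ hzcR,
        Finset.sum_eq_zero (s := (R.erase z).erase _) (by
          intro x hx
          have hx1 := Finset.mem_erase.1 hx
          have hx2 := Finset.mem_erase.1 hx1.2
          exact hzero x hx2.2 hx2.1 hx1.1), add_zero]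
      -- the two main terms
      have t1 : (∑ i, wm K (a *ᵥ b z i) (b' z i)) *ᵥ w = a *ᵥ w := by
        obtain ⟨h1, h2, h3, h4, h5⟩ := hbb z hz
        rw [Matrix.sum_mulVec]
        conv_rhs => rw [h4 w hw]
        rw [← Matrix.mulVecLin_apply a, map_sum]
        refine Finset.sum_congr rfl fun i _ => ?_
        rw [wm_mulVec, horth z z hz hne1 _ (hpres a ha z _ (h1 i)) _ hw, zero_smul, sub_zero, map_smul,
          Matrix.mulVecLin_apply, bil_comm]
      have t2 : (∑ i, wm K (a *ᵥ b ((starRingEnd ℂ) z) i) (b' ((starRingEnd ℂ) z) i)) *ᵥ w = a *ᵥ w := by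
        obtain ⟨h1, h2, h3, h4, h5⟩ := hbb _ hzc
        rw [Matrix.sum_mulVec]
        have haw := hpres a ha z w hw
        conv_rhs => rw [h5 (a *ᵥ w) (by rw [Complex.conj_conj]; exact haw)]
        refine Finset.sum_congr rfl fun i _ => ?_
        have e0 : z ≠ (starRingEnd ℂ) z := hne1
        have h2i := h2 i
        rw [Complex.conj_conj] at h2i
        rw [wm_mulVec, horth z z hz hne1 _ h2i _ hw, zero_smul, zero_sub, ← neg_smul]
        congr 1
        linear_combination -(S_skew K a ha (b ((starRingEnd ℂ) z) i) w)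
      rw [t1, t2, Matrix.smul_mulVec, two_smul]
    have h2a : (2 : ℂ) • a ∈ D := by
      rw [hdec]
      refine Submodule.sum_mem _ fun z hz => ?_
      have hz' := (hR z).1 hz
      obtain ⟨h1, h2, h3, h4, h5⟩ := hbb z hz'
      have e1 : ∑ i, wm K (a *ᵥ b z i) (b' z i) =
          ∑ i, (wm K (a *ᵥ b z i) (b' z i) -
            K.bil (a *ᵥ b z i) (b' z i) • wm K (b z i0) (b' z i0)) + τ z a • wm K (b z i0) (b' z i0) := by
        rw [Finset.sum_sub_distrib, hτ, Finset.sum_smul, sub_add_cancel]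
      rw [e1, hτ0 z hz', zero_smul, add_zero]
      exact Submodule.sum_mem _ fun i _ => hclaim z hz' _ (hpres a ha z _ (h1 i)) _ (h2 i)
    have h3a := Submodule.smul_mem _ (2 : ℂ)⁻¹ h2a
    rw [smul_smul, inv_mul_cancel₀ two_ne_zero, one_smul] at h3a
    exact h3a
  · intro U hU
    let s : Finset (ℂ × Fin m) := U ×ˢ Finset.univ
    let u : ℂ × Fin m → (Fin n → ℂ) := fun p => b p.1 p.2
    let w : ℂ × Fin m → (Fin n → ℂ) := fun p => b' p.1 p.2
    have hs : ∀ p ∈ s, p.1 ∈ U := fun p hp => (Finset.mem_product.1 hp).1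
    have h1 : ∀ i ∈ s, ∀ j ∈ s, K.bil (u i) (u j) = 0 := by
      intro i hi j hj
      have hi1 := hU _ (hs i hi)
      have hj1 := hU _ (hs j hj)
      refine horth i.1 j.1 hi1.1 (fun h => hi1.2 (h ▸ hs j hj)) _ ((hbb _ hi1.1).1 _) _ ((hbb _ hj1.1).1 _)
    have h2 : ∀ i ∈ s, ∀ j ∈ s, K.bil (u i) (w j) = if i = j then 1 else 0 := by
      intro i hi j hj
      have hi1 := hU _ (hs i hi)
      have hj1 := hU _ (hs j hj)
      by_cases hz : i.1 = j.1
      · obtain ⟨z, i⟩ := i
        obtain ⟨z', j⟩ := j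
        obtain rfl : z = z' := hz
        have := (hbb _ hi1.1).2.2.1 i j
        show K.bil (b z i) (b' z j) = _
        rw [this]
        simp only [Prod.mk.injEq, true_and]
      · rw [if_neg (fun h => hz (congrArg Prod.fst h))]
        refine horth i.1 ((starRingEnd ℂ) j.1) hi1.1 (fun h => hz ?_) _ ((hbb _ hi1.1).1 _) _
          ((hbb _ hj1.1).2.1 _)
        have := congrArg (starRingEnd ℂ) h
        rw [Complex.conj_conj, Complex.conj_conj] at this
        exact this.symm
    refine ⟨pr K (s.toList.map u), pr_ne K hr u w _ s.nodup_toList (fun i hi j hj =>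
      h2 i (Finset.mem_toList.1 hi) j (Finset.mem_toList.1 hj)), ?_⟩
    intro Y a ha hY
    rw [ad_vol K hr s u w h1 h2 Y a hY]
    · rw [Finset.sum_product]
      rfl
    · intro i hi
      have hi1 := hU _ (hs i hi)
      obtain ⟨g1, g2, g3, g4, g5⟩ := hbb _ hi1.1
      rw [Finset.sum_product, Finset.sum_eq_single i.1]
      · exact g4 _ (hpres a ha _ _ (g1 _))
      · intro z hz hzi
        refine Finset.sum_eq_zero fun j _ => ?_
        have hz1 := hU z hz
        have : K.bil (a *ᵥ u i) (w (z, j)) = 0 := by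
          refine horth i.1 ((starRingEnd ℂ) z) hi1.1 (fun h => hzi ?_) _ (hpres a ha _ _ (g1 _)) _
            ((hbb _ hz1.1).2.1 _)
          have := congrArg (starRingEnd ℂ) h
          rw [Complex.conj_conj, Complex.conj_conj] at this
          exact this
        rw [this, zero_smul]
      · intro h
        exact absurd (hs i hi) h

theorem C5w_proof (h5l : Stmt_C5l) : Stmt_C5w := by
  intro g A n m K hm
  obtain ⟨τ, h1, h2, -, h3, h4⟩ := C5w2_proof h5l g A n m K hm
  exact ⟨τ, h1, h2, h3, h4⟩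

end

end Pool.Agent.K3C
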