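import Pool.Agent.K3C.C5m
import Pool.Agent.K3E.E5l

/-!
# C8b, first part: dual bases, generators of `u_E(T)` and of its derived algebra
-/

open scoped BigOperators Matrix
open Matrix Polynomial

namespace Pool.Agent.K3C

open Pool.Agent.DRB Pool.Agent.K3D Pool.Agent.K3E

noncomputable section

namespace C8D

variable {g n m : ℕ} {A : AbVar g} (K : KSC A n m)

open C5L (wm wm_mulVec)

theorem wm_add_left (x x' y : Fin n → ℂ) : wm K (x + x') y = wm K x y + wm K x' y := by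
  ext i j; simp only [wm, Matrix.of_apply, Matrix.add_apply, Pi.add_apply]; ring

theorem wm_add_right (x y y' : Fin n → ℂ) : wm K x (y + y') = wm K x y + wm K x y' := by
  ext i j; simp only [wm, Matrix.of_apply, Matrix.add_apply, Pi.add_apply]; ring

theorem wm_smul_left (c : ℂ) (x y : Fin n → ℂ) : wm K (c • x) y = c • wm K x y := by
  ext i j; simp only [wm, Matrix.of_apply, Matrix.smul_apply, Pi.smul_apply, smul_eq_mul]; ring

theorem wm_smul_right (c : ℂ) (x y : Fin n → ℂ) : wm K x (c • y) = c • wm K x y := by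
  ext i j; simp only [wm, Matrix.of_apply, Matrix.smul_apply, Pi.smul_apply, smul_eq_mul]; ring

theorem wm_swap (x y : Fin n → ℂ) : wm K y x = -wm K x y := by
  ext i j; simp only [wm, Matrix.of_apply, Matrix.neg_apply]; ring

theorem wm_zero_left (y : Fin n → ℂ) : wm K 0 y = 0 := by
  ext i j; simp [wm]

theorem wm_zero_right (x : Fin n → ℂ) : wm K x 0 = 0 := by
  ext i j; simp [wm]

/-- the wedge as a bilinear map -/
def wl : (Fin n → ℂ) →ₗ[ℂ] (Fin n → ℂ) →ₗ[ℂ] Matrix (Fin n) (Fin n) ℂ :=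
  LinearMap.mk₂ ℂ (wm K) (wm_add_left K) (wm_smul_left K) (wm_add_right K) (wm_smul_right K)

theorem wl_apply (x y : Fin n → ℂ) : wl K x y = wm K x y := rfl

/-- commutator with a wedge -/
theorem comm_wm {a : Matrix (Fin n) (Fin n) ℂ} (ha : a ∈ K.S) (x y : Fin n → ℂ) :
    a * wm K x y - wm K x y * a = wm K (a *ᵥ x) y + wm K x (a *ᵥ y) := by
  refine C5L.mat_ext fun v => ?_
  rw [Matrix.sub_mulVec, Matrix.add_mulVec, ← Matrix.mulVec_mulVec, ← Matrix.mulVec_mulVec, wm_mulVec,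
    wm_mulVec, wm_mulVec, wm_mulVec, Matrix.mulVec_sub, Matrix.mulVec_smul, Matrix.mulVec_smul,
    C5L.bil_S K ha x v, C5L.bil_S K ha y v]
  module

/-- Dual bases of `T_z` and `T_{z^c}`. -/
theorem dual {z : ℂ} (hz : aeval z K.P = 0) : ∃ b b' : Fin (Module.finrank ℂ (K.Tl z)) → (Fin n → ℂ),
    (∀ j, b j ∈ K.Tl z) ∧ (∀ j, b' j ∈ K.Tl ((starRingEnd ℂ) z)) ∧
    (∀ i j, K.bil (b' i) (b j) = if j = i then 1 else 0) ∧
    (∀ v ∈ K.Tl z, ∑ j, K.bil (b' j) v • b j = v) ∧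
    (∀ v ∈ K.Tl ((starRingEnd ℂ) z), ∑ j, K.bil (b j) v • b' j = v) := by
  classical
  have hz' := C5L.conj_root K hz
  let f : K.Tl ((starRingEnd ℂ) z) →ₗ[ℂ] Module.Dual ℂ (K.Tl z) :=
    ((C5L.bf K).domRestrict₁₂ (K.Tl ((starRingEnd ℂ) z)) (K.Tl z))
  have hf : ∀ w v, f w v = K.bil w.1 v.1 := fun w v => rfl
  have hinj : Function.Injective f := by
    rw [← LinearMap.ker_eq_bot, eq_bot_iff]
    intro w hw
    rw [LinearMap.mem_ker] at hw
    rw [Submodule.mem_bot]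
    apply Subtype.ext
    refine C5L.nondegT K w.2 fun v hv => ?_
    rw [Complex.conj_conj] at hv
    have h2 := congrArg (fun u => u ⟨v, hv⟩) hw
    exact h2
  have hdim : Module.finrank ℂ (K.Tl ((starRingEnd ℂ) z)) =
      Module.finrank ℂ (Module.Dual ℂ (K.Tl z)) := by
    rw [Subspace.dual_finrank_eq, C5L.finrank_Tl K hz, C5L.finrank_Tl K hz']
  let e := LinearEquiv.ofInjectiveOfFinrankEq f hinj hdim
  have he : ∀ w, e w = f w := fun w => rfl
  let b := Module.finBasis ℂ (K.Tl z)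
  let b' : Fin (Module.finrank ℂ (K.Tl z)) → K.Tl ((starRingEnd ℂ) z) := fun j => e.symm (b.coord j)
  have hb' : ∀ j v, K.bil (b' j).1 v.1 = b.repr v j := by
    intro j v
    rw [← hf, ← he]
    show e (e.symm (b.coord j)) v = _
    rw [e.apply_symm_apply]
    rfl
  have h2 : ∀ v : K.Tl z, ∑ j, K.bil (b' j).1 v.1 • (b j).1 = v.1 := by
    intro v
    have h3 := congrArg Subtype.val (b.sum_repr v)
    rw [Submodule.coe_sum] at h3
    rw [← h3]
    exact Finset.sum_congr rfl fun j _ => by rw [h3, hb']; rfl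
  refine ⟨fun j => (b j).1, fun j => (b' j).1, fun j => (b j).2, fun j => (b' j).2, ?_,
    fun v hv => h2 ⟨v, hv⟩, ?_⟩
  · intro i j
    show K.bil (b' i).1 (b j).1 = _
    rw [hb', Module.Basis.repr_self, Finsupp.single_apply]
  · intro w hw
    have h4 : (∑ j, K.bil (b j).1 w • b' j : K.Tl ((starRingEnd ℂ) z)) = ⟨w, hw⟩ := by
      apply hinj
      refine LinearMap.ext fun v => ?_
      rw [map_sum, LinearMap.sum_apply, hf]
      have h5 : ∀ j, (f (K.bil (b j).1 w • b' j)) v = K.bil (b j).1 w * K.bil (b' j).1 v.1 := by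
        intro j
        rw [map_smul, LinearMap.smul_apply, hf, smul_eq_mul]
      rw [Finset.sum_congr rfl fun j _ => h5 j]
      have h6 : K.bil w v.1 = K.bil w (∑ j, K.bil (b' j).1 v.1 • (b j).1) := by rw [h2]
      rw [h6]
      show _ = C5L.bf K w (∑ j, K.bil (b' j).1 v.1 • (b j).1)
      rw [map_sum]
      refine Finset.sum_congr rfl fun j _ => ?_
      rw [map_smul, C5L.bf_apply, smul_eq_mul, C5L.bil_comm K w, mul_comm]
    have h5 := congrArg Subtype.val h4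
    rw [Submodule.coe_sum] at h5
    exact h5

/-- The component of `a` at `z`. -/
theorem comp {a : Matrix (Fin n) (Fin n) ℂ} (ha : a ∈ K.S) (z : ℂ) {N : ℕ}
    (b b' : Fin N → (Fin n → ℂ))
    (hb : ∀ j, b j ∈ K.Tl z) (hb' : ∀ j, b' j ∈ K.Tl ((starRingEnd ℂ) z))
    (h1 : ∀ v ∈ K.Tl z, ∑ j, K.bil (b' j) v • b j = v)
    (h2 : ∀ v ∈ K.Tl ((starRingEnd ℂ) z), ∑ j, K.bil (b j) v • b' j = v) (hzz : (starRingEnd ℂ) z ≠ z) :
    (∀ v ∈ K.Tl z, (∑ j, (1 / 2 : ℂ) • wm K (a *ᵥ b j) (b' j)) *ᵥ v = (1 / 2 : ℂ) • (a *ᵥ v)) ∧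
    (∀ v ∈ K.Tl ((starRingEnd ℂ) z),
      (∑ j, (1 / 2 : ℂ) • wm K (a *ᵥ b j) (b' j)) *ᵥ v = (1 / 2 : ℂ) • (a *ᵥ v)) ∧
    (∀ z' : ℂ, z' ≠ z → z' ≠ (starRingEnd ℂ) z → ∀ v ∈ K.Tl z',
      (∑ j, (1 / 2 : ℂ) • wm K (a *ᵥ b j) (b' j)) *ᵥ v = 0) := by
  have e0 : ∀ (j : Fin N) (v : Fin n → ℂ), ((1 / 2 : ℂ) • wm K (a *ᵥ b j) (b' j)) *ᵥ v =
      (1 / 2 : ℂ) • (a *ᵥ (K.bil (b' j) v • b j)) + (1 / 2 : ℂ) • (K.bil (b j) (a *ᵥ v) • b' j) := by
    intro j v
    rw [Matrix.smul_mulVec, wm_mulVec, C5L.bil_S K ha, neg_smul, sub_neg_eq_add, smul_add,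
      Matrix.mulVec_smul]
  refine ⟨?_, ?_, ?_⟩
  · intro v hv
    have hav := C5L.S_pres K ha hv
    rw [Matrix.sum_mulVec, Finset.sum_congr rfl fun j _ => e0 j v, Finset.sum_add_distrib,
      ← Finset.smul_sum, ← Finset.smul_sum]
    have h3 : ∀ j, K.bil (b j) (a *ᵥ v) = 0 := fun j => C5L.orth K (Ne.symm hzz) (hb j) hav
    have h4 : ∑ j, a *ᵥ (K.bil (b' j) v • b j) = a *ᵥ v := by
      conv_rhs => rw [← h1 v hv]
      exact (map_sum (Matrix.mulVecLin a) _ _).symm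
    rw [h4]
    simp only [h3, zero_smul, Finset.sum_const_zero, smul_zero, add_zero]
  · intro v hv
    have hav := C5L.S_pres K ha hv
    rw [Matrix.sum_mulVec, Finset.sum_congr rfl fun j _ => e0 j v, Finset.sum_add_distrib,
      ← Finset.smul_sum, ← Finset.smul_sum, h2 _ hav]
    have h3 : ∀ j, K.bil (b' j) v = 0 := fun j =>
      C5L.orth K (by rw [Complex.conj_conj]; exact hzz) (hb' j) hv
    simp only [h3, zero_smul, Matrix.mulVec_zero, Finset.sum_const_zero, smul_zero, zero_add]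
  · intro z' hz1 hz2 v hv
    rw [Matrix.sum_mulVec]
    refine Finset.sum_eq_zero fun j _ => ?_
    rw [Matrix.smul_mulVec, wm_mulVec, C5L.orth K (by rw [Complex.conj_conj]; exact hz1) (hb' j) hv,
      C5L.orth K hz2 (C5L.S_pres K ha (hb j)) hv, zero_smul, zero_smul, sub_zero, smul_zero]

/-- `u_E(T)` is spanned by the `x ∧ y` with `x ∈ T_z`, `y ∈ T_{z^c}`. -/
theorem mem_span {a : Matrix (Fin n) (Fin n) ℂ} (ha : a ∈ K.S) :
    a ∈ Submodule.span ℂ {w : Matrix (Fin n) (Fin n) ℂ | ∃ (z : ℂ) (x y : Fin n → ℂ),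
      aeval z K.P = 0 ∧ x ∈ K.Tl z ∧ y ∈ K.Tl ((starRingEnd ℂ) z) ∧ w = wm K x y} := by
  classical
  choose b b' hb hb' h0 h1 h2 using fun z : {z : ℂ // aeval z K.P = 0} => dual K z.2
  let R : Finset ℂ := (K.P.aroots ℂ).toFinset
  have hR : ∀ w, w ∈ R ↔ aeval w K.P = 0 := by
    intro w
    rw [Multiset.mem_toFinset, Polynomial.mem_aroots]
    exact ⟨fun h => h.2, fun h => ⟨K.irr.ne_zero, h⟩⟩
  let c : ℂ → Matrix (Fin n) (Fin n) ℂ := fun z =>
    if hz : aeval z K.P = 0 then ∑ j, (1 / 2 : ℂ) • wm K (a *ᵥ b ⟨z, hz⟩ j) (b' ⟨z, hz⟩ j) else 0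
  have hc : ∀ z (hz : aeval z K.P = 0), (∀ v ∈ K.Tl z, c z *ᵥ v = (1 / 2 : ℂ) • (a *ᵥ v)) ∧
      (∀ v ∈ K.Tl ((starRingEnd ℂ) z), c z *ᵥ v = (1 / 2 : ℂ) • (a *ᵥ v)) ∧
      (∀ z' : ℂ, z' ≠ z → z' ≠ (starRingEnd ℂ) z → ∀ v ∈ K.Tl z', c z *ᵥ v = 0) := by
    intro z hz
    have h3 : c z = ∑ j, (1 / 2 : ℂ) • wm K (a *ᵥ b ⟨z, hz⟩ j) (b' ⟨z, hz⟩ j) := dif_pos hz
    rw [h3]
    exact comp K ha z (b ⟨z, hz⟩) (b' ⟨z, hz⟩) (hb ⟨z, hz⟩) (hb' ⟨z, hz⟩) (h1 ⟨z, hz⟩) (h2 ⟨z, hz⟩)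
      (C5L.conj_ne K hz)
  have key : a = ∑ z ∈ R, c z := by
    refine C5L.mat_extT K fun z hz v hv => ?_
    have hzc := C5L.conj_root K hz
    have hne := C5L.conj_ne K hz
    have hsub : ({z, (starRingEnd ℂ) z} : Finset ℂ) ⊆ R := by
      intro w hw
      rw [Finset.mem_insert, Finset.mem_singleton] at hw
      rcases hw with h | h
      · rw [h]; exact (hR _).2 hz
      · rw [h]; exact (hR _).2 hzc
    rw [Matrix.sum_mulVec, ← Finset.sum_subset hsub (by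
        intro w hwR hw
        rw [Finset.mem_insert, Finset.mem_singleton, not_or] at hw
        exact (hc w ((hR w).1 hwR)).2.2 z (Ne.symm hw.1) (fun h => hw.2 (by rw [h, Complex.conj_conj]))
          v hv), Finset.sum_pair (Ne.symm hne), (hc z hz).1 v hv,
      (hc _ hzc).2.1 v (by rw [Complex.conj_conj]; exact hv), ← add_smul]
    norm_num
  rw [key]
  refine Submodule.sum_mem _ fun z hz => ?_
  have hz := (hR z).1 hz
  have h3 : c z = ∑ j, (1 / 2 : ℂ) • wm K (a *ᵥ b ⟨z, hz⟩ j) (b' ⟨z, hz⟩ j) := dif_pos hz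
  rw [h3]
  refine Submodule.sum_mem _ fun j _ => Submodule.smul_mem _ _ ?_
  exact Submodule.subset_span ⟨z, _, _, hz, C5L.S_pres K ha (hb ⟨z, hz⟩ j), hb' ⟨z, hz⟩ j, rfl⟩

/-- combinations of wedges of trace zero -/
theorem tr_zero {L : Submodule ℂ (Matrix (Fin n) (Fin n) ℂ)} {z : ℂ} (hz : aeval z K.P = 0)
    (hL : ∀ x ∈ K.Tl z, ∀ y ∈ K.Tl ((starRingEnd ℂ) z), K.bil x y = 0 → wm K x y ∈ L) :
    ∃ w0 : Matrix (Fin n) (Fin n) ℂ, ∀ x ∈ K.Tl z, ∀ y ∈ K.Tl ((starRingEnd ℂ) z),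
      wm K x y - K.bil x y • w0 ∈ L := by
  classical
  obtain ⟨b, b', hb, hb', h0, h1, h2⟩ := dual K hz
  have h0' : ∀ i j, K.bil (b i) (b' j) = if i = j then 1 else 0 := by
    intro i j; rw [C5L.bil_comm, h0]
  rcases isEmpty_or_nonempty (Fin (Module.finrank ℂ (K.Tl z))) with hN | ⟨⟨i0⟩⟩
  · refine ⟨0, fun x hx y hy => ?_⟩
    have : x = 0 := by
      rw [← h1 x hx]
      exact Finset.sum_eq_zero fun j _ => (hN.false j).elim
    rw [this, wm_zero_left, smul_zero, sub_zero]; exact L.zero_mem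
  refine ⟨wm K (b i0) (b' i0), ?_⟩
  let M : (Fin n → ℂ) →ₗ[ℂ] (Fin n → ℂ) →ₗ[ℂ] Matrix (Fin n) (Fin n) ℂ :=
    wl K - (C5L.bf K).compr₂ (LinearMap.toSpanSingleton ℂ _ (wm K (b i0) (b' i0)))
  have hM : ∀ x y, M x y = wm K x y - K.bil x y • wm K (b i0) (b' i0) := fun x y => rfl
  have hMb : ∀ i j, M (b i) (b' j) ∈ L := by
    intro i j
    rw [hM, h0']
    by_cases hij : i = j
    · subst hij
      rw [if_pos rfl, one_smul]
      by_cases hi0 : i = i0
      · rw [hi0, sub_self]; exact L.zero_mem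
      · have e1 : wm K (b i + b i0) (b' i - b' i0) ∈ L := by
          refine hL _ ((K.Tl z).add_mem (hb i) (hb i0)) _
            (Submodule.sub_mem _ (hb' i) (hb' i0)) ?_
          rw [C5L.bil_add_left, C5L.bil_sub_right, C5L.bil_sub_right, h0', h0', h0', h0', if_pos rfl,
            if_pos rfl, if_neg hi0, if_neg (Ne.symm hi0)]
          ring
        have e2 : wm K (b i) (b' i0) ∈ L := hL _ (hb i) _ (hb' i0) (by rw [h0', if_neg hi0])
        have e3 : wm K (b i0) (b' i) ∈ L := hL _ (hb i0) _ (hb' i) (by rw [h0', if_neg (Ne.symm hi0)])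
        have e4 : wm K (b i) (b' i) - wm K (b i0) (b' i0) = wm K (b i + b i0) (b' i - b' i0) +
            wm K (b i) (b' i0) - wm K (b i0) (b' i) := by
          rw [sub_eq_add_neg (b' i), wm_add_left, wm_add_right, wm_add_right]
          have e5 : ∀ x y, wm K x (-y) = -wm K x y := fun x y => (wl K x).map_neg y
          rw [e5, e5]
          abel
        rw [e4]
        exact L.sub_mem (L.add_mem e1 e2) e3
    · rw [if_neg hij, zero_smul, sub_zero]
      exact hL _ (hb i) _ (hb' j) (by rw [h0', if_neg hij])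
  have s1 : ∀ i, ∀ y ∈ K.Tl ((starRingEnd ℂ) z), M (b i) y ∈ L := by
    intro i y hy
    rw [← h2 y hy, map_sum]
    refine L.sum_mem fun j _ => ?_
    rw [map_smul]
    exact L.smul_mem _ (hMb i j)
  intro x hx y hy
  rw [← hM, ← h1 x hx, map_sum, LinearMap.sum_apply]
  refine L.sum_mem fun i _ => ?_
  rw [map_smul, LinearMap.smul_apply]
  exact L.smul_mem _ (s1 i y hy)

/-- The derived algebra. -/
theorem derived {L : Submodule ℂ (Matrix (Fin n) (Fin n) ℂ)}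
    (hL : ∀ z : ℂ, aeval z K.P = 0 → ∀ x ∈ K.Tl z, ∀ y ∈ K.Tl ((starRingEnd ℂ) z), K.bil x y = 0 →
      wm K x y ∈ L) {a b : Matrix (Fin n) (Fin n) ℂ} (ha : a ∈ K.S) (hb : b ∈ K.S) :
    a * b - b * a ∈ L := by
  -- the case of two wedges at the same place
  have same : ∀ z : ℂ, aeval z K.P = 0 → ∀ x ∈ K.Tl z, ∀ y ∈ K.Tl ((starRingEnd ℂ) z),
      ∀ x' ∈ K.Tl z, ∀ y' ∈ K.Tl ((starRingEnd ℂ) z),
      wm K x y * wm K x' y' - wm K x' y' * wm K x y ∈ L := by
    intro z hz x hx y hy x' hx' y' hy'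
    obtain ⟨w0, hw0⟩ := tr_zero K hz (hL z hz)
    have hne := C5L.conj_ne K hz
    rw [comm_wm K (C5L.wm_mem K hz hx hy), wm_mulVec, wm_mulVec, C5L.orth K (Ne.symm hne) hx hx',
      C5L.orth K (by rw [Complex.conj_conj]; exact hne) hy hy', zero_smul, zero_smul, sub_zero,
      zero_sub, wm_smul_left]
    have e5 : wm K x' (-(K.bil x y' • y)) = -(K.bil x y' • wm K x' y) := by
      have : wm K x' (-(K.bil x y' • y)) = -wm K x' (K.bil x y' • y) := (wl K x').map_neg _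
      rw [this, wm_smul_right]
    rw [e5]
    have h1 := L.smul_mem (K.bil y x') (hw0 x hx y' hy')
    have h2 := L.smul_mem (K.bil x y') (hw0 x' hx' y hy)
    have h3 := L.sub_mem h1 h2
    convert h3 using 1
    rw [C5L.bil_comm K x' y]
    module
  have gen : ∀ z : ℂ, aeval z K.P = 0 → ∀ x ∈ K.Tl z, ∀ y ∈ K.Tl ((starRingEnd ℂ) z),
      ∀ z' : ℂ, aeval z' K.P = 0 → ∀ x' ∈ K.Tl z', ∀ y' ∈ K.Tl ((starRingEnd ℂ) z'),
      wm K x y * wm K x' y' - wm K x' y' * wm K x y ∈ L := by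
    intro z hz x hx y hy z' hz' x' hx' y' hy'
    by_cases h1 : z' = z
    · subst h1
      exact same z' hz x hx y hy x' hx' y' hy'
    by_cases h2 : z' = (starRingEnd ℂ) z
    · rw [h2, Complex.conj_conj] at hy'
      rw [h2] at hx'
      have h3 := same z hz x hx y hy y' hy' x' hx'
      rw [wm_swap K x' y'] at h3
      have h4 := L.neg_mem h3
      convert h4 using 1
      noncomm_ring
    · have hc1 : z' ≠ (starRingEnd ℂ) ((starRingEnd ℂ) z) := by rw [Complex.conj_conj]; exact h1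
      have hc2 : (starRingEnd ℂ) z' ≠ (starRingEnd ℂ) z := fun h =>
        h1 (by rw [← Complex.conj_conj z', h, Complex.conj_conj])
      have hc3 : (starRingEnd ℂ) z' ≠ (starRingEnd ℂ) ((starRingEnd ℂ) z) := fun h =>
        h2 (by rw [← Complex.conj_conj z', h, Complex.conj_conj])
      rw [comm_wm K (C5L.wm_mem K hz hx hy), wm_mulVec, wm_mulVec, C5L.orth K h2 hx hx',
        C5L.orth K hc1 hy hx', C5L.orth K hc2 hx hy', C5L.orth K hc3 hy hy', zero_smul, zero_smul,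
        sub_zero, wm_zero_left, wm_zero_right, add_zero]
      exact L.zero_mem
  have hb' := mem_span K hb
  have ha' := mem_span K ha
  refine Submodule.span_induction (p := fun a _ => a * b - b * a ∈ L) ?_ ?_ ?_ ?_ ha'
  · rintro _ ⟨z, x, y, hz, hx, hy, rfl⟩
    refine Submodule.span_induction (p := fun b _ => wm K x y * b - b * wm K x y ∈ L) ?_ ?_ ?_ ?_ hb'
    · rintro _ ⟨z', x', y', hz', hx', hy', rfl⟩
      exact gen z hz x hx y hy z' hz' x' hx' y' hy'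
    · rw [mul_zero, zero_mul, sub_zero]; exact L.zero_mem
    · intro b b' _ _ h h'
      have := L.add_mem h h'
      convert this using 1
      noncomm_ring
    · intro c b _ h
      rw [mul_smul_comm, smul_mul_assoc, ← smul_sub]
      exact L.smul_mem c h
  · rw [mul_zero, zero_mul, sub_zero]; exact L.zero_mem
  · intro a a' _ _ h h'
    have := L.add_mem h h'
    convert this using 1
    noncomm_ring
  · intro c a _ h
    rw [mul_smul_comm, smul_mul_assoc, ← smul_sub]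
    exact L.smul_mem c h

end C8D

end

end Pool.Agent.K3C
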