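import Pool.Agent.K3C.C8y
import Pool.Agent.K3C.C8b1

/-!
# C8b: the Lie algebra contains the derived algebra of `u_E(T)`
-/

open scoped BigOperators Matrix
open Matrix Polynomial

namespace Pool.Agent.K3C

open Pool.Agent.DRB Pool.Agent.K3D Pool.Agent.K3E

noncomputable section

/-- C6. The group generated by the exponentials of the real Lie algebra contains an element with an
eigenvalue of absolute value different from one. -/
def Stmt_C6 : Prop :=
  ∀ (g : ℕ) (A : AbVar g) (n m : ℕ) (K : KSC A n m), 2 ≤ m →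
    ∃ as : List (Matrix (Fin n) (Fin n) ℝ), (∀ a ∈ as, K.lie a) ∧
      ∃ (β : ℂ) (v : Fin n → ℂ), v ≠ 0 ∧ ‖β‖ ≠ 1 ∧
        ((as.map fun a => NormedSpace.exp a).prod.map Complex.ofReal) *ᵥ v = β • v

namespace C8Y

open K8X (cj cj_apply cj_mulVec exp_ofReal)
open K8Y (exp_gen diag_real)
open C7C

variable {g n m : ℕ} {A : AbVar g} (K : KSC A n m)

theorem lie_S (hK2c : Stmt_K2c) (hC5v : Stmt_C5v) (hm : 1 ≤ m) {a : Matrix (Fin n) (Fin n) ℝ}
    (ha : K.lie a) : a.map Complex.ofReal ∈ K.S := by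
  obtain ⟨X, ξ, hX, hXa⟩ := lie_out K ha
  exact (hC5v g A n m K hm).1 X _ ((hK2c g A X ξ hX).1) hXa

theorem lie_comm {a : Matrix (Fin n) (Fin n) ℝ} (ha : a.map Complex.ofReal ∈ K.S)
    (v : Fin n → ℝ) : a *ᵥ (JR K *ᵥ v) = JR K *ᵥ (a *ᵥ v) := by
  have h1 := ha.2
  rw [C7C.thC_eq] at h1
  have h2 : (a * thR K).map Complex.ofReal = (thR K * a).map Complex.ofReal := by
    have h3 : (a * thR K).map Complex.ofReal = a.map Complex.ofReal * (thR K).map Complex.ofReal :=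
      Matrix.map_mul (f := Complex.ofRealHom)
    have h4 : (thR K * a).map Complex.ofReal = (thR K).map Complex.ofReal * a.map Complex.ofReal :=
      Matrix.map_mul (f := Complex.ofRealHom)
    rw [h3, h4, h1]
  have h3 : a * thR K = thR K * a := by
    ext i j
    have h4 := congrFun (congrFun h2 i) j
    simp only [Matrix.map_apply, Complex.ofReal_inj] at h4
    exact h4
  rw [JR_mulVec, JR_mulVec, Matrix.mulVec_smul, Matrix.mulVec_sub, Matrix.mulVec_smul,
    Matrix.mulVec_mulVec, h3, ← Matrix.mulVec_mulVec]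

include K in
theorem n_ge (hm : 1 ≤ m) : 2 ≤ n := by
  have h1 := K.dim
  have h2 : 2 ≤ K.P.natDegree := by
    have hz := K.lam_root
    have hz' := C5L.conj_root K hz
    have hne := C5L.conj_ne K hz
    have hsub : ({K.lam, (starRingEnd ℂ) K.lam} : Finset ℂ) ⊆ (K.P.aroots ℂ).toFinset := by
      intro w hw
      rw [Finset.mem_insert, Finset.mem_singleton] at hw
      rw [Multiset.mem_toFinset, Polynomial.mem_aroots]
      rcases hw with h | h
      · rw [h]; exact ⟨K.irr.ne_zero, hz⟩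
      · rw [h]; exact ⟨K.irr.ne_zero, hz'⟩
    have h3 := Finset.card_le_card hsub
    rw [Finset.card_pair (Ne.symm hne)] at h3
    have h4 := Multiset.toFinset_card_le (K.P.aroots ℂ)
    have h5 : Multiset.card (K.P.aroots ℂ) ≤ K.P.natDegree := by
      have := Polynomial.card_roots' (K.P.map (algebraMap ℚ ℂ))
      rwa [Polynomial.natDegree_map] at this
    omega
  nlinarith

theorem horth : ∀ v ∈ K.Tl K.lam, ∀ w ∈ K.Tl K.lam, K.bil v w = 0 := fun _ hv _ hw =>
  C5L.orth K (Ne.symm (C5L.conj_ne K K.lam_root)) hv hw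

theorem hyp_ne (as : List (Matrix (Fin n) (Fin n) ℝ)) {β : ℂ} {v : Fin n → ℂ} (hv : v ≠ 0)
    (hβ : ‖β‖ ≠ 1) (hg : ((as.map fun a => NormedSpace.exp a).prod.map Complex.ofReal) *ᵥ v = β • v)
    {h : Matrix (Fin n) (Fin n) ℝ} (hl : IsHypLog (as.map fun a => NormedSpace.exp a).prod h) :
    h ≠ 0 := by
  have hβ0 : β ≠ 0 := by
    rintro rfl
    rw [zero_smul] at hg
    have hunit : ∀ as : List (Matrix (Fin n) (Fin n) ℝ),
        IsUnit (as.map fun a => NormedSpace.exp a).prod := by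
      intro as
      induction as with
      | nil => simp
      | cons a as ih =>
        rw [List.map_cons, List.prod_cons]
        exact (Matrix.isUnit_exp a).mul ih
    have hu : IsUnit ((as.map fun a => NormedSpace.exp a).prod.map Complex.ofReal) := by
      have := (hunit as).map (Complex.ofRealHom.mapMatrix :
        Matrix (Fin n) (Fin n) ℝ →+* Matrix (Fin n) (Fin n) ℂ)
      exact this
    obtain ⟨y, hy⟩ := hu
    apply hv
    have h1 : (y⁻¹ : (Matrix (Fin n) (Fin n) ℂ)ˣ).val *ᵥ (y.val *ᵥ v) = v := by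
      rw [Matrix.mulVec_mulVec, ← Units.val_mul]
      simp
    rw [hy, hg, Matrix.mulVec_zero] at h1
    exact h1.symm
  have hlogne : Real.log ‖β‖ ≠ 0 := by
    intro h0
    have h1 : 0 < ‖β‖ := norm_pos_iff.2 hβ0
    rcases Real.log_eq_zero.1 h0 with h2 | h2 | h2
    · linarith
    · exact hβ h2
    · linarith
  rintro rfl
  have h1 := hl β v ⟨1, by
    rw [pow_one, Matrix.sub_mulVec, Matrix.smul_mulVec, Matrix.one_mulVec, hg, sub_self]⟩
  have h2 : ((0 : Matrix (Fin n) (Fin n) ℝ).map Complex.ofReal) *ᵥ v = 0 := by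
    have : ((0 : Matrix (Fin n) (Fin n) ℝ).map Complex.ofReal) = 0 := by ext i j; simp
    rw [this, Matrix.zero_mulVec]
  rw [h2] at h1
  have h3 := smul_eq_zero.1 h1.symm
  rcases h3 with h3 | h3
  · exact hlogne (by exact_mod_cast h3)
  · exact hv h3

/-- real and imaginary parts -/
theorem LT_re_im (hK2a : Stmt_K2a) (hK2b : Stmt_K2b) (hG4 : Stmt_Gb4)
    {b : Matrix (Fin n) (Fin n) ℂ} (hb : K.LT b) :
    K.lie (b.map Complex.re) ∧ K.lie (b.map Complex.im) := by
  have h1 : b ∈ LC K hK2a := hb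
  have h2 : b.map cc0 ∈ LC K hK2a := LC_map K hK2a hK2b hG4 cc0 h1
  have hre : (b.map Complex.re).map Complex.ofReal = (1 / 2 : ℂ) • (b + b.map cc0) := by
    ext i j
    simp only [Matrix.map_apply, Matrix.smul_apply, Matrix.add_apply, cc0_apply, smul_eq_mul]
    rw [Complex.re_eq_add_conj]
    ring
  have him : (b.map Complex.im).map Complex.ofReal = (1 / (2 * Complex.I) : ℂ) • (b - b.map cc0) := by
    ext i j
    simp only [Matrix.map_apply, Matrix.smul_apply, Matrix.sub_apply, cc0_apply, smul_eq_mul]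
    rw [Complex.im_eq_sub_conj]
    ring
  refine ⟨?_, ?_⟩
  · show (b.map Complex.re).map Complex.ofReal ∈ LC K hK2a
    rw [hre]
    exact Submodule.smul_mem _ _ (Submodule.add_mem _ h1 h2)
  · show (b.map Complex.im).map Complex.ofReal ∈ LC K hK2a
    rw [him]
    exact Submodule.smul_mem _ _ (Submodule.sub_mem _ h1 h2)

/-- irreducibility -/
theorem irrC (hK2a : Stmt_K2a) (hK2b : Stmt_K2b) (hG4 : Stmt_Gb4) (hK2c : Stmt_K2c) (hC2d : Stmt_C2d)
    (hC5v : Stmt_C5v) (hC5d : Stmt_C5d) (hm : 1 ≤ m) (W : Submodule ℝ (Fin n → ℝ)) (hW0 : W ≤ V0 K)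
    (hJ : ∀ v ∈ W, JR K *ᵥ v ∈ W) (hW : ∀ a, K.lie a → ∀ v ∈ W, a *ᵥ v ∈ W) :
    W = ⊥ ∨ W = V0 K := by
  let WC : Submodule ℂ (Fin n → ℂ) :=
    { carrier := {v | ∃ x ∈ W, v = Pp K x}
      zero_mem' := ⟨0, W.zero_mem, (map_zero _).symm⟩
      add_mem' := by
        rintro _ _ ⟨x, hx, rfl⟩ ⟨y, hy, rfl⟩
        exact ⟨x + y, W.add_mem hx hy, (map_add _ _ _).symm⟩
      smul_mem' := by
        rintro c _ ⟨x, hx, rfl⟩
        refine ⟨c.re • x + c.im • (JR K *ᵥ x), W.add_mem (W.smul_mem _ hx) (W.smul_mem _ (hJ x hx)), ?_⟩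
        rw [map_add, map_smul, map_smul, Pp_J K (hW0 hx)]
        ext i
        simp only [Pi.add_apply, Pi.smul_apply, smul_eq_mul, Complex.real_smul]
        conv_lhs => rw [← Complex.re_add_im c]
        ring }
  have hstab : ∀ a, K.lie a → ∀ v ∈ WC, (a.map Complex.ofReal) *ᵥ v ∈ WC := by
    rintro a ha _ ⟨x, hx, rfl⟩
    exact ⟨a *ᵥ x, hW a ha x hx, map_Pp K (lie_comm K (lie_S K hK2c hC5v hm ha) x)⟩
  have hS := hC5d g A n m K hm WC (lie_stab K hK2a hK2b hG4 hC2d WC hstab)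
  rcases C5L.stable K hS K.lam_root with h | h
  · right
    refine le_antisymm hW0 fun x hx => ?_
    obtain ⟨y, hy, hxy⟩ := h (Pp_mem K hx)
    have h1 : x = y := by
      rw [← Pp_re K x, hxy, Pp_re]
    rw [h1]; exact hy
  · left
    rw [eq_bot_iff]
    intro x hx
    have h1 : Pp K x = 0 := by
      refine C5L.nondegT K (Pp_mem K (hW0 hx)) fun w hw => ?_
      rw [C5L.bil_comm]
      exact h (Pp K x) ⟨x, hx, rfl⟩ w hw
    rw [Submodule.mem_bot, ← Pp_re K x, h1]
    ext i; simp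

/-- From the real place to all the places. -/
theorem transport (hK2a : Stmt_K2a) (hK2b : Stmt_K2b) (hG4 : Stmt_Gb4)
    (h0 : ∀ x ∈ K.Tl K.lam, ∀ y ∈ K.Tl ((starRingEnd ℂ) K.lam), K.bil x y = 0 →
      C5L.wm K x y ∈ LC K hK2a) :
    ∀ z : ℂ, aeval z K.P = 0 → ∀ x ∈ K.Tl z, ∀ y ∈ K.Tl ((starRingEnd ℂ) z), K.bil x y = 0 →
      C5L.wm K x y ∈ LC K hK2a := by
  intro z hz x hx y hy hxy
  obtain ⟨σ, hσ⟩ := E5L.exists_aut K.irr K.lam_root hz
  have hσ' : σ.symm z = K.lam := by rw [← hσ]; simp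
  have hσc : σ.symm ((starRingEnd ℂ) z) = (starRingEnd ℂ) K.lam := by
    rw [← (K.cm z hz).2, ← (K.cm K.lam K.lam_root).2, ← hσ']
    exact (Polynomial.aeval_algHom_apply (σ.symm : ℂ →ₐ[ℚ] ℂ) z K.C).symm
  have h1 := C5L.map_Tl K σ.symm hx
  have h2 := C5L.map_Tl K σ.symm hy
  rw [hσ'] at h1
  rw [hσc] at h2
  have h4 : K.bil (fun i => σ.symm (x i)) (fun i => σ.symm (y i)) = 0 := by
    rw [C5X.bil_map, hxy, map_zero]
  have h3 := LC_map K hK2a hK2b hG4 σ (h0 _ h1 _ h2 h4)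
  have h5 : (C5L.wm K (fun i => σ.symm (x i)) (fun i => σ.symm (y i))).map σ = C5L.wm K x y := by
    ext i j
    simp only [C5L.wm, Matrix.map_apply, Matrix.of_apply, map_sub, map_mul,
      AlgEquiv.apply_symm_apply]
    have h : σ (K.q j : ℂ) = (K.q j : ℂ) := by simp
    rw [h]
  rwa [h5] at h3

/-- The dichotomy. -/
theorem mainC (hK2a : Stmt_K2a) (hK2b : Stmt_K2b) (hG4 : Stmt_Gb4) (hK2c : Stmt_K2c)
    (hC7 : Stmt_C7) (hC6 : Stmt_C6) (hC7x : Stmt_C7x) (hC2d : Stmt_C2d) (hC5a : Stmt_C5a)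
    (hC5v : Stmt_C5v) (hC5d : Stmt_C5d) (hC8a : Stmt_C8a) (hm : 2 ≤ m) (hev : Even m) :
    ∀ x ∈ K.Tl K.lam, ∀ y ∈ K.Tl ((starRingEnd ℂ) K.lam), K.bil x y = 0 →
      C5L.wm K x y ∈ LC K hK2a := by
  have hm1 : 1 ≤ m := by omega
  have hn2 := n_ge K hm1
  -- a hyperbolic element
  obtain ⟨as, has, β, v, hv, hβ, hg⟩ := hC6 g A n m K hm
  obtain ⟨h, hh, hl⟩ := hC8a g A n m K as has
  have hne := hyp_ne as hv hβ hg hl
  obtain ⟨S, d, hSd⟩ := diag_real _ _ hl
  let l := lieSub K hK2a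
  have hl' : ∀ a, a ∈ l ↔ K.lie a := fun a => Iff.rfl
  have hcomm : ∀ a, K.lie a → ∀ x ∈ V0 K, a *ᵥ (JR K *ᵥ x) = JR K *ᵥ (a *ᵥ x) :=
    fun a ha x _ => lie_comm K (lie_S K hK2c hC5v hm1 ha) x
  have hcast : ∀ i, (0 < qR K i ↔ 0 < K.q i) ∧ (qR K i < 0 ↔ K.q i < 0) := by
    intro i
    simp only [qR]
    constructor
    · exact_mod_cast Iff.rfl
    · exact_mod_cast Iff.rfl
  -- orthogonality
  have hperp : ∀ v : Fin n → ℝ, (∀ x ∈ V0 K, ∑ i, qR K i * x i * v i = 0) →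
      ∀ w : Fin n → ℂ, K.thC *ᵥ w = K.lam • w → ∑ i, (K.q i : ℂ) * (v i : ℂ) * w i = 0 := by
    intro v hv w hw
    obtain ⟨h1, h2⟩ := Tl_re K (v := w) hw
    rw [← h2]
    generalize (fun i => (w i).re) = x at *
    have e1 := hv x h1
    have e2 := hv _ (J_mem K h1)
    have e3 : ∑ i, (K.q i : ℂ) * (v i : ℂ) * Pp K x i =
        ((∑ i, qR K i * x i * v i : ℝ) : ℂ) - Complex.I * ((∑ i, qR K i * (JR K *ᵥ x) i * v i : ℝ) : ℂ) := by
      push_cast
      rw [Finset.mul_sum, ← Finset.sum_sub_distrib]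
      refine Finset.sum_congr rfl fun i _ => ?_
      rw [Pp_apply]
      simp only [qR]
      push_cast
      ring
    rw [e3, e1, e2]; simp
  -- the form with the right sign
  obtain ⟨ε, hε, hqpos, hqneg, hneg⟩ : ∃ ε : ℝ, (ε = 1 ∨ ε = -1) ∧
      (∀ i : Fin n, (i : ℕ) < 2 → 0 < ε * qR K i) ∧ (∀ i : Fin n, 2 ≤ (i : ℕ) → ε * qR K i < 0) ∧
      ∀ v : Fin n → ℝ, (∀ x ∈ V0 K, ∑ i, qR K i * x i * v i = 0) → v ≠ 0 →
        ε * ∑ i, qR K i * v i * v i < 0 := by
    rcases K.sig with ⟨hs, hs2⟩ | ⟨hs, hs2⟩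
    · refine ⟨1, Or.inl rfl, ?_, ?_, ?_⟩
      · intro i hi
        rw [one_mul, (hcast i).1, hs]; exact hi
      · intro i hi
        have h1 : ¬ 0 < K.q i := by rw [hs]; omega
        rw [one_mul, (hcast i).2]
        exact lt_of_le_of_ne (not_lt.1 h1) (K.q_ne i)
      · intro v hv hv0
        rw [one_mul]
        exact hs2 v hv0 (hperp v hv)
    · refine ⟨-1, Or.inr rfl, ?_, ?_, ?_⟩
      · intro i hi
        have h1 : qR K i < 0 := by rw [(hcast i).2, hs]; exact hi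
        linarith
      · intro i hi
        have h1 : ¬ K.q i < 0 := by rw [hs]; omega
        have h2 : 0 < qR K i := by
          rw [(hcast i).1]
          exact lt_of_le_of_ne (not_lt.1 h1) (K.q_ne i).symm
        linarith
      · intro v hv hv0
        have h1 := hs2 v hv0 (hperp v hv)
        have h2 : ∑ i, qR K i * v i * v i = ∑ i, (K.q i : ℝ) * v i * v i := rfl
        rw [h2]
        linarith
  have hε0 : ε ≠ 0 := by rcases hε with h | h <;> rw [h] <;> norm_num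
  have hsum : ∀ x y : Fin n → ℝ, ∑ i, ε * qR K i * x i * y i = ε * ∑ i, qR K i * x i * y i := by
    intro x y
    rw [Finset.mul_sum]
    exact Finset.sum_congr rfl fun i _ => by ring
  have hnd : ∀ x ∈ V0 K, (∀ y ∈ V0 K, ∑ i, qR K i * x i * y i = 0) → x = 0 := by
    intro x hx h1
    by_contra hx0
    have h2 := hneg x (fun y hy => by
      rw [← h1 y hy]
      exact Finset.sum_congr rfl fun i _ => by ring) hx0
    rw [h1 x hx, mul_zero] at h2
    exact lt_irrefl _ h2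
  have L : LHypC n (fun i => ε * qR K i) (V0 K) (JR K) l :=
    { n2 := hn2
      qpos := hqpos
      qneg := hqneg
      neg := fun v hv hv0 => by
        rw [hsum]
        refine hneg v (fun x hx => ?_) hv0
        have h1 := hv x hx
        rw [hsum] at h1
        exact (mul_eq_zero.1 h1).resolve_left hε0
      Jpres := fun v hv => J_mem K hv
      JJ := fun v hv => hv
      Jskew := fun v hv w hw => by
        rw [hsum, hsum, (Jskew K (horth K) hv hw).1]; ring
      Jcomm := hcomm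
      pres := fun a ha v hv => by
        have h1 := hcomm a ha v hv
        have h2 := hcomm a ha _ (J_mem K hv)
        rw [mem_V0, ← h1, ← h2, (mem_V0 K).1 hv, Matrix.mulVec_neg]
      skew := fun a ha => by
        have h1 := lie_skew K hC5a ha
        have h2 : Matrix.diagonal (fun i => ε * qR K i) = ε • Matrix.diagonal (fun i => (K.q i : ℝ)) := by
          rw [← Matrix.diagonal_smul]; rfl
        rw [h2, Matrix.mul_smul, Matrix.smul_mul, ← smul_add, h1, smul_zero]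
      brk := fun a ha b hb => lie_brk K hK2a ha hb
      irr := fun W hW0 hJ hW => irrC K hK2a hK2b hG4 hK2c hC2d hC5v hC5d hm1 W hW0 hJ hW
      hyp := fun a ha => by
        obtain ⟨h, h1, h2⟩ := lie_hyp K hC8a ha
        exact ⟨h, h1, h2⟩ }
  rcases hC7 n _ (V0 K) (JR K) l L ⟨h, hh, hne, S, d, hSd⟩ with hA | ⟨R, hR0, hR1, hR2, hR3⟩
  · intro x hx y hy hxy
    refine caseA K (horth K) (L := LC K hK2a) (fun x hx y hy hxy => ?_) hx hy hxy
    have h1 := hA x hx y hy (by rw [hsum, hxy, mul_zero]) (ε • um K x y) (by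
      intro v
      rw [Matrix.smul_mulVec, um_mulVec, hsum, hsum, hsum, hsum]
      module)
    have h2 := l.smul_mem ε⁻¹ h1
    rw [smul_smul, inv_mul_cancel₀ hε0, one_smul] at h2
    exact h2
  · exfalso
    obtain ⟨φ, h1, h2, h3, h4⟩ := caseB K hnd hR0 hR1 (fun x hx y hy => by
      have := hR2 x hx y hy
      rw [hsum] at this
      exact (mul_eq_zero.1 this).resolve_left hε0) (P := K.lie) hR3 hcomm
    refine hC7x g A n m K hm1 hev K.lam K.lam_root φ h1 h2 h3 fun a ha => ?_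
    obtain ⟨h5, h6⟩ := LT_re_im K hK2a hK2b hG4 ha
    exact h4 a h5 h6

end C8Y

open C8Y in
/-- C8B. -/
theorem C8b_proof (hK2a : Stmt_K2a) (hK2b : Stmt_K2b) (hG4 : Stmt_Gb4) (hK2c : Stmt_K2c)
    (hC7 : Stmt_C7) (hC6 : Stmt_C6) (hC7x : Stmt_C7x) (hC2d : Stmt_C2d) (hC5a : Stmt_C5a)
    (hC5v : Stmt_C5v) (hC5d : Stmt_C5d) (hC8a : Stmt_C8a) : Stmt_C8b := by
  intro g A n m K hm hev a ha b hb
  by_cases hm1 : m = 1
  · -- the algebra is commutative
    have h0 : a * b - b * a = 0 := by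
      refine C5L.mat_extT K fun z hz v hv => ?_
      have hfin : Module.finrank ℂ (K.Tl z) = 1 := by rw [C5L.finrank_Tl K hz, hm1]
      rw [Matrix.zero_mulVec]
      by_cases hv0 : v = 0
      · rw [hv0, Matrix.mulVec_zero]
      have hs : ∀ w ∈ K.Tl z, ∃ c : ℂ, w = c • v := by
        intro w hw
        obtain ⟨c, hc⟩ := (finrank_eq_one_iff_of_nonzero' (⟨v, hv⟩ : K.Tl z) (by
          intro h; exact hv0 (congrArg Subtype.val h))).1 hfin ⟨w, hw⟩
        exact ⟨c, (congrArg Subtype.val hc).symm⟩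
      obtain ⟨c, hc⟩ := hs _ (C5L.S_pres K ha hv)
      obtain ⟨d, hd⟩ := hs _ (C5L.S_pres K hb hv)
      rw [Matrix.sub_mulVec, ← Matrix.mulVec_mulVec, ← Matrix.mulVec_mulVec, hd, hc,
        Matrix.mulVec_smul, Matrix.mulVec_smul, hc, hd, smul_smul, smul_smul, mul_comm, sub_self]
    rw [h0]
    exact (LC K hK2a).zero_mem
  · have hm2 : 2 ≤ m := by omega
    have hev' : Even m := hev.resolve_right hm1
    exact C8D.derived K (L := LC K hK2a) (transport K hK2a hK2b hG4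
      (mainC K hK2a hK2b hG4 hK2c hC7 hC6 hC7x hC2d hC5a hC5v hC5d hC8a hm2 hev')) ha hb

end

end Pool.Agent.K3C
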