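import Pool.Agent.K3C.C6a
import Pool.Agent.K3C.C8b

/-!
# C6: the group generated by the exponentials of the real Lie algebra contains an element with an eigenvalue of
absolute value different from one
-/

open scoped BigOperators Matrix Topology
open Matrix Polynomial

namespace Pool.Agent.K3C

open Pool.Agent.DRB Pool.Agent.K3D Pool.Agent.K3E

noncomputable section

namespace C6X

open Pool.Agent.K3D.K7w Pool.Agent.K3D.K7x

/-- C6 relative to a subspace. -/
theorem C6rel {n : ℕ} (q : Fin n → ℝ) (V0 : Submodule ℝ (Fin n → ℝ)) (J : Matrix (Fin n) (Fin n) ℝ)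
    (l : Submodule ℝ (Matrix (Fin n) (Fin n) ℝ))
    (hnd : ∀ x ∈ V0, (∀ y ∈ V0, ∑ i, q i * x i * y i = 0) → x = 0)
    (hpos : ∃ x ∈ V0, 0 < ∑ i, q i * x i * x i) (hneg : ∃ x ∈ V0, ∑ i, q i * x i * x i < 0)
    (hJpres : ∀ v ∈ V0, J *ᵥ v ∈ V0) (hJJ : ∀ v ∈ V0, J *ᵥ (J *ᵥ v) = -v)
    (hJskew : ∀ v ∈ V0, ∀ w ∈ V0, ∑ i, q i * (J *ᵥ v) i * w i = -∑ i, q i * v i * (J *ᵥ w) i)
    (hJcomm : ∀ a ∈ l, ∀ v ∈ V0, a *ᵥ (J *ᵥ v) = J *ᵥ (a *ᵥ v))
    (hpres : ∀ a ∈ l, ∀ v ∈ V0, a *ᵥ v ∈ V0)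
    (hskew : ∀ a ∈ l, aᵀ * Matrix.diagonal q + Matrix.diagonal q * a = 0)
    (hirr : ∀ W : Submodule ℝ (Fin n → ℝ), W ≤ V0 → (∀ v ∈ W, J *ᵥ v ∈ W) →
      (∀ a ∈ l, ∀ v ∈ W, a *ᵥ v ∈ W) → W = ⊥ ∨ W = V0) :
    ∃ as : List (Matrix (Fin n) (Fin n) ℝ), (∀ a ∈ as, a ∈ l) ∧
      ∃ (β : ℂ) (v : Fin n → ℂ), v ≠ 0 ∧ ‖β‖ ≠ 1 ∧
        ((as.map fun a => NormedSpace.exp a).prod.map Complex.ofReal) *ᵥ v = β • v := by
  classical
  -- the form on V0
  let B0 : LinearMap.BilinForm ℝ V0 := LinearMap.mk₂ ℝ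
    (fun x y : V0 => ∑ i, q i * (x : Fin n → ℝ) i * (y : Fin n → ℝ) i)
    (fun x x' y => by
      rw [← Finset.sum_add_distrib]
      exact Finset.sum_congr rfl fun i _ => by
        simp only [Submodule.coe_add, Pi.add_apply]; ring)
    (fun c x y => by
      rw [smul_eq_mul, Finset.mul_sum]
      exact Finset.sum_congr rfl fun i _ => by
        simp only [Submodule.coe_smul, Pi.smul_apply, smul_eq_mul]; ring)
    (fun x y y' => by
      rw [← Finset.sum_add_distrib]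
      exact Finset.sum_congr rfl fun i _ => by
        simp only [Submodule.coe_add, Pi.add_apply]; ring)
    (fun c x y => by
      rw [smul_eq_mul, Finset.mul_sum]
      exact Finset.sum_congr rfl fun i _ => by
        simp only [Submodule.coe_smul, Pi.smul_apply, smul_eq_mul]; ring)
  have hB0 : ∀ x y : V0, B0 x y = ∑ i, q i * (x : Fin n → ℝ) i * (y : Fin n → ℝ) i :=
    fun x y => rfl
  have hsymm : LinearMap.IsSymm B0 := ⟨fun x y => by
    show B0 x y = B0 y x
    rw [hB0, hB0]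
    exact Finset.sum_congr rfl fun i _ => by ring⟩
  obtain ⟨d, b, hb⟩ : ∃ (d : ℕ) (b : Module.Basis (Fin d) ℝ V0), B0.IsOrthoᵢ b :=
    ⟨_, LinearMap.BilinForm.exists_orthogonal_basis hsymm⟩
  let q' : Fin d → ℝ := fun i => B0 (b i) (b i)
  have hoff : ∀ i j, i ≠ j → B0 (b i) (b j) = 0 := fun i j hij => hb hij
  have hsum : ∀ x y : Fin d → ℝ, B0 (∑ i, x i • b i) (∑ i, y i • b i) = ∑ i, q' i * x i * y i := by
    intro x y
    rw [map_sum]
    refine Finset.sum_congr rfl fun i _ => ?_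
    rw [map_smul, map_sum, LinearMap.sum_apply, Finset.sum_eq_single i]
    · rw [LinearMap.map_smul, LinearMap.smul_apply, smul_eq_mul, smul_eq_mul]
      show y i * (x i * B0 (b i) (b i)) = B0 (b i) (b i) * x i * y i
      ring
    · intro j _ hji
      rw [LinearMap.map_smul, LinearMap.smul_apply, hoff j i hji, smul_zero]
    · intro h; exact absurd (Finset.mem_univ i) h
  have hq'ne : ∀ i, q' i ≠ 0 := by
    intro i hi
    have h1 : ((b i : V0) : Fin n → ℝ) = 0 := by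
      refine hnd _ (b i).2 fun y hy => ?_
      have h2 : B0 (b i) ⟨y, hy⟩ = 0 := by
        rw [← b.sum_repr ⟨y, hy⟩, map_sum]
        refine Finset.sum_eq_zero fun j _ => ?_
        rw [map_smul]
        by_cases hij : i = j
        · subst hij
          show _ • q' i = 0
          rw [hi, smul_zero]
        · rw [hoff i j hij, smul_zero]
      exact h2
    exact b.ne_zero i (Subtype.ext h1)
  have hquad : ∀ x : V0, ∑ i, q i * (x : Fin n → ℝ) i * (x : Fin n → ℝ) i =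
      ∑ i, q' i * b.repr x i * b.repr x i := by
    intro x
    rw [← hsum, b.sum_repr]
    exact (hB0 x x).symm
  have hq'pos : ∃ i, 0 < q' i := by
    obtain ⟨x, hx, hx1⟩ := hpos
    by_contra hcon
    push Not at hcon
    have h1 := hquad ⟨x, hx⟩
    have h2 : ∑ i, q' i * b.repr ⟨x, hx⟩ i * b.repr ⟨x, hx⟩ i ≤ 0 :=
      Finset.sum_nonpos fun i _ => by
        rw [mul_assoc]
        exact mul_nonpos_of_nonpos_of_nonneg (hcon i) (mul_self_nonneg _)
    simp only at h1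
    linarith
  have hq'neg : ∃ i, q' i < 0 := by
    obtain ⟨x, hx, hx1⟩ := hneg
    by_contra hcon
    push Not at hcon
    have h1 := hquad ⟨x, hx⟩
    have h2 : 0 ≤ ∑ i, q' i * b.repr ⟨x, hx⟩ i * b.repr ⟨x, hx⟩ i :=
      Finset.sum_nonneg fun i _ => by
        rw [mul_assoc]
        exact mul_nonneg (hcon i) (mul_self_nonneg _)
    simp only at h1
    linarith
  -- the matrix of the basis
  set M : Matrix (Fin n) (Fin d) ℝ := E8Y.J b with hM
  have hMe : ∀ i j, M i j = ((b j : V0) : Fin n → ℝ) i := fun i j => rfl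
  have hMQ : Mᵀ * Matrix.diagonal q * M = Matrix.diagonal q' := by
    ext i j
    rw [Matrix.mul_apply]
    have h1 : ∑ k, (Mᵀ * Matrix.diagonal q) i k * M k j = B0 (b i) (b j) := by
      rw [hB0]
      refine Finset.sum_congr rfl fun k _ => ?_
      rw [Matrix.mul_diagonal, Matrix.transpose_apply, hMe, hMe]
      ring
    rw [h1]
    by_cases hij : i = j
    · subst hij
      rw [Matrix.diagonal_apply_eq]
    · rw [Matrix.diagonal_apply_ne _ hij]
      exact hoff i j hij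
  have hMmem : ∀ x, M *ᵥ x ∈ V0 := fun x => E8Y.J_mem b x
  have hMinj : ∀ x y, M *ᵥ x = M *ᵥ y → x = y := by
    intro x y h
    have h1 := E8Y.J_inj b (x - y) (by rw [Matrix.mulVec_sub]; exact sub_eq_zero.2 h)
    exact sub_eq_zero.1 h1
  have hrestr : ∀ a : Matrix (Fin n) (Fin n) ℝ, (∀ v ∈ V0, a *ᵥ v ∈ V0) →
      ∃ a' : Matrix (Fin d) (Fin d) ℝ, a * M = M * a' := by
    intro a ha
    have h1 : ∀ j, ∃ x, M *ᵥ x = a *ᵥ ((b j : V0) : Fin n → ℝ) := fun j =>
      E8Y.J_surj b _ (ha _ (b j).2)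
    choose x hx using h1
    refine ⟨Matrix.of fun i j => x j i, ?_⟩
    ext i j
    have h2 := congrFun (hx j) i
    rw [Matrix.mul_apply, Matrix.mul_apply]
    exact h2.symm
  obtain ⟨J', hJ'⟩ := hrestr J hJpres
  have hJ'v : ∀ x, J *ᵥ (M *ᵥ x) = M *ᵥ (J' *ᵥ x) := by
    intro x
    rw [Matrix.mulVec_mulVec, hJ', ← Matrix.mulVec_mulVec]
  have hJ'J' : J' * J' = -1 := by
    apply Matrix.toLin'.injective
    refine LinearMap.ext fun x => ?_
    rw [Matrix.toLin'_apply, Matrix.toLin'_apply, Matrix.neg_mulVec, Matrix.one_mulVec,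
      ← Matrix.mulVec_mulVec]
    apply hMinj
    rw [← hJ'v, ← hJ'v, hJJ _ (hMmem x), Matrix.mulVec_neg]
  have hJ's : J'ᵀ * Matrix.diagonal q' + Matrix.diagonal q' * J' = 0 := by
    rw [← hMQ]
    have h1 : J'ᵀ * (Mᵀ * Matrix.diagonal q * M) + Mᵀ * Matrix.diagonal q * M * J' =
        (J * M)ᵀ * Matrix.diagonal q * M + Mᵀ * Matrix.diagonal q * (J * M) := by
      rw [hJ', Matrix.transpose_mul]; simp only [Matrix.mul_assoc]
    rw [h1]
    ext i j
    have h2 := hJskew _ (b i).2 _ (b j).2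
    have h3 : ∀ k j, (J * M) k j = (J *ᵥ ((b j : V0) : Fin n → ℝ)) k := fun k j => by
      rw [Matrix.mul_apply]; rfl
    rw [Matrix.add_apply, Matrix.mul_apply, Matrix.mul_apply, Matrix.zero_apply]
    have h4 : ∑ k, ((J * M)ᵀ * Matrix.diagonal q) i k * M k j =
        ∑ k, q k * (J *ᵥ ((b i : V0) : Fin n → ℝ)) k * ((b j : V0) : Fin n → ℝ) k := by
      refine Finset.sum_congr rfl fun k _ => ?_
      rw [Matrix.mul_diagonal, Matrix.transpose_apply, h3, hMe]
      ring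
    have h5 : ∑ k, (Mᵀ * Matrix.diagonal q) i k * (J * M) k j =
        ∑ k, q k * ((b i : V0) : Fin n → ℝ) k * (J *ᵥ ((b j : V0) : Fin n → ℝ)) k := by
      refine Finset.sum_congr rfl fun k _ => ?_
      rw [Matrix.mul_diagonal, Matrix.transpose_apply, h3, hMe]
      ring
    rw [h4, h5, h2]
    ring
  -- the restricted Lie algebra
  let l' : Submodule ℝ (Matrix (Fin d) (Fin d) ℝ) :=
    { carrier := {a' | ∃ a ∈ l, a * M = M * a'}
      add_mem' := by
        rintro a1 a2 ⟨c1, h1, e1⟩ ⟨c2, h2, e2⟩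
        exact ⟨c1 + c2, l.add_mem h1 h2, by rw [Matrix.add_mul, Matrix.mul_add, e1, e2]⟩
      zero_mem' := ⟨0, l.zero_mem, by rw [Matrix.zero_mul, Matrix.mul_zero]⟩
      smul_mem' := by
        rintro c a1 ⟨c1, h1, e1⟩
        exact ⟨c • c1, l.smul_mem c h1, by rw [Matrix.smul_mul, Matrix.mul_smul, e1]⟩ }
  have hskew' : ∀ a' ∈ l', a'ᵀ * Matrix.diagonal q' + Matrix.diagonal q' * a' = 0 := by
    rintro a' ⟨a, ha, e⟩
    rw [← hMQ]
    calc a'ᵀ * (Mᵀ * Matrix.diagonal q * M) + Mᵀ * Matrix.diagonal q * M * a'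
        = (M * a')ᵀ * Matrix.diagonal q * M + Mᵀ * Matrix.diagonal q * (M * a') := by
          rw [Matrix.transpose_mul]; simp only [Matrix.mul_assoc]
      _ = Mᵀ * (aᵀ * Matrix.diagonal q + Matrix.diagonal q * a) * M := by
          rw [← e, Matrix.transpose_mul, Matrix.mul_add, Matrix.add_mul]
          simp only [Matrix.mul_assoc]
      _ = 0 := by rw [hskew a ha, Matrix.mul_zero, Matrix.zero_mul]
  have hJc' : ∀ a' ∈ l', a' * J' = J' * a' := by
    rintro a' ⟨a, ha, e⟩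
    have hav : ∀ x, a *ᵥ (M *ᵥ x) = M *ᵥ (a' *ᵥ x) := by
      intro x
      rw [Matrix.mulVec_mulVec, e, ← Matrix.mulVec_mulVec]
    apply Matrix.toLin'.injective
    refine LinearMap.ext fun x => ?_
    rw [Matrix.toLin'_apply, Matrix.toLin'_apply, ← Matrix.mulVec_mulVec, ← Matrix.mulVec_mulVec]
    apply hMinj
    rw [← hav, ← hJ'v, hJcomm a ha _ (hMmem x), hav, hJ'v]
  have hirr' : ∀ W : Submodule ℝ (Fin d → ℝ), (∀ v ∈ W, J' *ᵥ v ∈ W) →
      (∀ a ∈ l', ∀ v ∈ W, a *ᵥ v ∈ W) → W = ⊥ ∨ W = ⊤ := by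
    intro W hJW hW
    let F : (Fin d → ℝ) →ₗ[ℝ] (Fin n → ℝ) := Matrix.toLin' M
    have hF : ∀ v, F v = M *ᵥ v := fun v => Matrix.toLin'_apply _ _
    rcases hirr (W.map F) (by
      rintro _ ⟨v, hv, rfl⟩
      rw [hF]
      exact hMmem v) (by
      rintro _ ⟨v, hv, rfl⟩
      refine ⟨J' *ᵥ v, hJW v hv, ?_⟩
      rw [hF, hF, hJ'v]) (by
      rintro a ha _ ⟨v, hv, rfl⟩
      obtain ⟨a', e⟩ := hrestr a (hpres a ha)
      refine ⟨a' *ᵥ v, hW a' ⟨a, ha, e⟩ v hv, ?_⟩
      rw [hF, hF, Matrix.mulVec_mulVec, Matrix.mulVec_mulVec, e]) with h | h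
    · left
      rw [eq_bot_iff]
      intro v hv
      rw [Submodule.mem_bot]
      apply hMinj
      have : F v ∈ W.map F := ⟨v, hv, rfl⟩
      rw [h, Submodule.mem_bot, hF] at this
      rw [this, Matrix.mulVec_zero]
    · right
      rw [eq_top_iff]
      intro v _
      have : F v ∈ W.map F := by rw [h, hF]; exact hMmem v
      obtain ⟨w, hw, hwv⟩ := this
      rw [hF, hF] at hwv
      rw [← hMinj _ _ hwv]
      exact hw
  obtain ⟨as', has', β, v', hv', hβ, hg⟩ :=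
    K6C q' J' l' hq'ne hq'pos hq'neg hskew' hJ'J' hJ's hJc' hirr'
  -- lift
  have hlift : ∀ as' : List (Matrix (Fin d) (Fin d) ℝ), (∀ a ∈ as', a ∈ l') →
      ∃ as : List (Matrix (Fin n) (Fin n) ℝ), (∀ a ∈ as, a ∈ l) ∧
        (as.map fun a => NormedSpace.exp a).prod * M =
          M * (as'.map fun a => NormedSpace.exp a).prod := by
    intro as'
    induction as' with
    | nil => intro _; exact ⟨[], by simp, by simp⟩
    | cons a' as' ih =>
      intro h
      obtain ⟨as, h1, h2⟩ := ih fun x hx => h x (List.mem_cons_of_mem _ hx)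
      obtain ⟨a, ha, e⟩ := h a' List.mem_cons_self
      refine ⟨a :: as, ?_, ?_⟩
      · intro x hx
        rcases List.mem_cons.1 hx with rfl | hx
        · exact ha
        · exact h1 x hx
      · rw [List.map_cons, List.prod_cons, List.map_cons, List.prod_cons, Matrix.mul_assoc, h2,
          ← Matrix.mul_assoc, E8Y.exp_J a a' M e, Matrix.mul_assoc]
  obtain ⟨as, h1, h2⟩ := hlift as' has'
  refine ⟨as, h1, β, M.map Complex.ofReal *ᵥ v', fun h0 => hv' (E8Y.JC_inj b v' h0), hβ, ?_⟩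
  rw [Matrix.mulVec_mulVec, ← E8Y.map_mul_real, h2, E8Y.map_mul_real, ← Matrix.mulVec_mulVec, hg,
    Matrix.mulVec_smul]

/-- C6 for the hypotheses of C7. -/
theorem C6L {n : ℕ} {q : Fin n → ℝ} {V0 : Submodule ℝ (Fin n → ℝ)} {J : Matrix (Fin n) (Fin n) ℝ}
    {l : Submodule ℝ (Matrix (Fin n) (Fin n) ℝ)} (L : LHypC n q V0 J l)
    (hdim : 3 ≤ Module.finrank ℝ V0) :
    ∃ as : List (Matrix (Fin n) (Fin n) ℝ), (∀ a ∈ as, a ∈ l) ∧
      ∃ (β : ℂ) (v : Fin n → ℂ), v ≠ 0 ∧ ‖β‖ ≠ 1 ∧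
        ((as.map fun a => NormedSpace.exp a).prod.map Complex.ofReal) *ᵥ v = β • v := by
  have E := ctxC L
  have hpos : ∃ x ∈ V0, 0 < ∑ i, q i * x i * x i := by
    let i0 : Fin n := ⟨0, by have := L.n2; omega⟩
    obtain ⟨x, hx, y, hy, hxy⟩ := E.dec (Pi.single i0 1)
    refine ⟨x, hx, ?_⟩
    have h1 : Bq q (Pi.single i0 1) (Pi.single i0 1) = q i0 := by
      rw [Bq_single_left, Pi.single_eq_same, mul_one]
    have h2 : 0 < q i0 := L.qpos i0 (by simp [i0])
    rw [hxy, LinearMap.map_add, LinearMap.map_add, LinearMap.add_apply, LinearMap.add_apply, hy x hx,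
      E.symm y x, hy x hx] at h1
    have h3 : Bq q y y ≤ 0 := by
      by_contra hcon
      have h4 := E.neg y hy (not_le.1 hcon).le
      rw [h4] at hcon
      exact hcon (by simp)
    rw [← Bq_apply]
    linarith
  have hneg : ∃ x ∈ V0, ∑ i, q i * x i * x i < 0 := by
    obtain ⟨v, hv⟩ := exists_linearIndependent_of_le_finrank hdim
    have hv' : LinearIndependent ℝ fun i => (v i : Fin n → ℝ) :=
      hv.map' V0.subtype (Submodule.ker_subtype _)
    obtain ⟨c, hc⟩ := E.sig _ hv'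
    refine ⟨∑ i, c i • (v i : Fin n → ℝ), ?_, ?_⟩
    · exact Submodule.sum_mem _ fun i _ => V0.smul_mem _ (v i).2
    · rw [← Bq_apply]; exact hc
  have hnd : ∀ x ∈ V0, (∀ y ∈ V0, ∑ i, q i * x i * y i = 0) → x = 0 := E.nondeg
  exact C6rel q V0 J l hnd hpos hneg L.Jpres L.JJ L.Jskew L.Jcomm L.pres L.skew L.irr

section ksc

open K8X (cj cj_apply cj_mulVec exp_ofReal)
open K8Y (exp_gen diag_real)
open C7C C8Y

variable {g n m : ℕ} {A : AbVar g} (K : KSC A n m)

/-- The hypotheses of C7 hold for the real Lie algebra. -/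
theorem lhypC (hK2a : Stmt_K2a) (hK2b : Stmt_K2b) (hG4 : Stmt_Gb4) (hK2c : Stmt_K2c)
    (hC2d : Stmt_C2d) (hC5a : Stmt_C5a) (hC5v : Stmt_C5v) (hC5d : Stmt_C5d) (hC8a : Stmt_C8a)
    (hm1 : 1 ≤ m) : ∃ q : Fin n → ℝ, LHypC n q (V0 K) (JR K) (lieSub K hK2a) := by
  have hn2 := n_ge K hm1
  have hcomm : ∀ a, K.lie a → ∀ x ∈ V0 K, a *ᵥ (JR K *ᵥ x) = JR K *ᵥ (a *ᵥ x) :=
    fun a ha x _ => lie_comm K (lie_S K hK2c hC5v hm1 ha) x
  have hcast : ∀ i, (0 < qR K i ↔ 0 < K.q i) ∧ (qR K i < 0 ↔ K.q i < 0) := by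
    intro i
    simp only [qR]
    constructor
    · exact_mod_cast Iff.rfl
    · exact_mod_cast Iff.rfl
  -- orthogonality
  have hperp : ∀ v : Fin n → ℝ, (∀ x ∈ V0 K, ∑ i, qR K i * x i * v i = 0) →
      ∀ w : Fin n → ℂ, K.thC *ᵥ w = K.lam • w → ∑ i, (K.q i : ℂ) * (v i : ℂ) * w i = 0 := by
    intro v hv w hw
    obtain ⟨h1, h2⟩ := Tl_re K (v := w) hw
    rw [← h2]
    generalize (fun i => (w i).re) = x at *
    have e1 := hv x h1
    have e2 := hv _ (J_mem K h1)
    have e3 : ∑ i, (K.q i : ℂ) * (v i : ℂ) * Pp K x i =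
        ((∑ i, qR K i * x i * v i : ℝ) : ℂ) - Complex.I * ((∑ i, qR K i * (JR K *ᵥ x) i * v i : ℝ) : ℂ) := by
      push_cast
      rw [Finset.mul_sum, ← Finset.sum_sub_distrib]
      refine Finset.sum_congr rfl fun i _ => ?_
      rw [Pp_apply]
      simp only [qR]
      push_cast
      ring
    rw [e3, e1, e2]; simp
  -- the form with the right sign
  obtain ⟨ε, hε, hqpos, hqneg, hneg⟩ : ∃ ε : ℝ, (ε = 1 ∨ ε = -1) ∧
      (∀ i : Fin n, (i : ℕ) < 2 → 0 < ε * qR K i) ∧ (∀ i : Fin n, 2 ≤ (i : ℕ) → ε * qR K i < 0) ∧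
      ∀ v : Fin n → ℝ, (∀ x ∈ V0 K, ∑ i, qR K i * x i * v i = 0) → v ≠ 0 →
        ε * ∑ i, qR K i * v i * v i < 0 := by
    rcases K.sig with ⟨hs, hs2⟩ | ⟨hs, hs2⟩
    · refine ⟨1, Or.inl rfl, ?_, ?_, ?_⟩
      · intro i hi
        rw [one_mul, (hcast i).1, hs]; exact hi
      · intro i hi
        have h1 : ¬ 0 < K.q i := by rw [hs]; omega
        rw [one_mul, (hcast i).2]
        exact lt_of_le_of_ne (not_lt.1 h1) (K.q_ne i)
      · intro v hv hv0
        rw [one_mul]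
        exact hs2 v hv0 (hperp v hv)
    · refine ⟨-1, Or.inr rfl, ?_, ?_, ?_⟩
      · intro i hi
        have h1 : qR K i < 0 := by rw [(hcast i).2, hs]; exact hi
        linarith
      · intro i hi
        have h1 : ¬ K.q i < 0 := by rw [hs]; omega
        have h2 : 0 < qR K i := by
          rw [(hcast i).1]
          exact lt_of_le_of_ne (not_lt.1 h1) (K.q_ne i).symm
        linarith
      · intro v hv hv0
        have h1 := hs2 v hv0 (hperp v hv)
        have h2 : ∑ i, qR K i * v i * v i = ∑ i, (K.q i : ℝ) * v i * v i := rfl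
        rw [h2]
        linarith
  have hε0 : ε ≠ 0 := by rcases hε with h | h <;> rw [h] <;> norm_num
  have hsum : ∀ x y : Fin n → ℝ, ∑ i, ε * qR K i * x i * y i = ε * ∑ i, qR K i * x i * y i := by
    intro x y
    rw [Finset.mul_sum]
    exact Finset.sum_congr rfl fun i _ => by ring
  exact ⟨fun i => ε * qR K i,
    { n2 := hn2
      qpos := hqpos
      qneg := hqneg
      neg := fun v hv hv0 => by
        rw [hsum]
        refine hneg v (fun x hx => ?_) hv0
        have h1 := hv x hx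
        rw [hsum] at h1
        exact (mul_eq_zero.1 h1).resolve_left hε0
      Jpres := fun v hv => J_mem K hv
      JJ := fun v hv => hv
      Jskew := fun v hv w hw => by
        rw [hsum, hsum, (Jskew K (horth K) hv hw).1]; ring
      Jcomm := hcomm
      pres := fun a ha v hv => by
        have h1 := hcomm a ha v hv
        have h2 := hcomm a ha _ (J_mem K hv)
        rw [mem_V0, ← h1, ← h2, (mem_V0 K).1 hv, Matrix.mulVec_neg]
      skew := fun a ha => by
        have h1 := lie_skew K hC5a ha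
        have h2 : Matrix.diagonal (fun i => ε * qR K i) = ε • Matrix.diagonal (fun i => (K.q i : ℝ)) := by
          rw [← Matrix.diagonal_smul]; rfl
        rw [h2, Matrix.mul_smul, Matrix.smul_mul, ← smul_add, h1, smul_zero]
      brk := fun a ha b hb => lie_brk K hK2a ha hb
      irr := fun W hW0 hJ hW => irrC K hK2a hK2b hG4 hK2c hC2d hC5v hC5d hm1 W hW0 hJ hW
      hyp := fun a ha => by
        obtain ⟨h, h1, h2⟩ := lie_hyp K hC8a ha
        exact ⟨h, h1, h2⟩ }⟩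

theorem finrank_V0 : 2 * m ≤ Module.finrank ℝ (V0 K) := by
  let f : K.Tl K.lam →ₗ[ℝ] V0 K :=
    { toFun := fun v => ⟨fun i => ((v : Fin n → ℂ) i).re, (Tl_re K v.2).1⟩
      map_add' := fun v w => Subtype.ext (by funext i; simp)
      map_smul' := fun c v => Subtype.ext (by funext i; simp) }
  have hf : Function.Injective f := by
    intro v w h
    apply Subtype.ext
    have h1 : (fun i => ((v : Fin n → ℂ) i).re) = fun i => ((w : Fin n → ℂ) i).re :=
      congrArg Subtype.val h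
    rw [← (Tl_re K v.2).2, ← (Tl_re K w.2).2, h1]
  have h1 := LinearMap.finrank_le_finrank_of_injective hf
  have h2 : Module.finrank ℝ (K.Tl K.lam) = 2 * Module.finrank ℂ (K.Tl K.lam) :=
    finrank_real_of_complex _
  rw [h2, C5L.finrank_Tl K K.lam_root] at h1
  exact h1

end ksc

end C6X

open C6X C8Y in
/-- C6. -/
theorem C6_proof (hK2a : Stmt_K2a) (hK2b : Stmt_K2b) (hG4 : Stmt_Gb4) (hK2c : Stmt_K2c)
    (hC2d : Stmt_C2d) (hC5a : Stmt_C5a) (hC5v : Stmt_C5v) (hC5d : Stmt_C5d) (hC8a : Stmt_C8a) :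
    Stmt_C6 := by
  intro g A n m K hm
  obtain ⟨q, L⟩ := lhypC K hK2a hK2b hG4 hK2c hC2d hC5a hC5v hC5d hC8a (by omega)
  have h1 := finrank_V0 K
  exact C6L L (by omega)

end

end Pool.Agent.K3C
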