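import Pool.Agent.K3C.K7z

/-!
# K7U: total space version

`V = V0 ⊕ V0^⊥`, `V0^⊥` negative definite, `J` a complex structure on `V0`; `l` preserves `V0`, commutes with `J`
there, is irreducible, closed under hyperbolic parts.
-/

open scoped BigOperators

namespace Pool.Agent.K3C.K7z

open Module Pool.Agent.K3D.K7x

variable {V : Type*} [AddCommGroup V] [Module ℝ V]

variable {B : V →ₗ[ℝ] V →ₗ[ℝ] ℝ} {l : Submodule ℝ (Module.End ℝ V)} {J : Module.End ℝ V}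

/-- The total space context. -/
structure CtxUE (B : V →ₗ[ℝ] V →ₗ[ℝ] ℝ) (l : Submodule ℝ (Module.End ℝ V)) (J : Module.End ℝ V)
    (V0 : Submodule ℝ V) : Prop where
  symm : ∀ x y, B x y = B y x
  sig : ∀ v : Fin 3 → V, LinearIndependent ℝ v → ∃ c : Fin 3 → ℝ,
    B (∑ i, c i • v i) (∑ i, c i • v i) < 0
  dec : ∀ v, ∃ v0 ∈ V0, ∃ v1, (∀ x ∈ V0, B x v1 = 0) ∧ v = v0 + v1
  neg : ∀ v, (∀ x ∈ V0, B x v = 0) → 0 ≤ B v v → v = 0
  nondeg : ∀ x ∈ V0, (∀ y ∈ V0, B x y = 0) → x = 0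
  pres : ∀ Y ∈ l, ∀ x ∈ V0, Y x ∈ V0
  skew : ∀ Y ∈ l, ∀ x y, B (Y x) y = - B x (Y y)
  brk : ∀ X ∈ l, ∀ Y ∈ l, X * Y - Y * X ∈ l
  Jpres : ∀ x ∈ V0, J x ∈ V0
  JJ : ∀ x ∈ V0, J (J x) = -x
  Jskew : ∀ x ∈ V0, ∀ y ∈ V0, B (J x) y = - B x (J y)
  Jcomm : ∀ Y ∈ l, ∀ x ∈ V0, Y (J x) = J (Y x)
  irr : ∀ W : Submodule ℝ V, W ≤ V0 → (∀ x ∈ W, J x ∈ W) → (∀ Y ∈ l, ∀ x ∈ W, Y x ∈ W) →
    W = ⊥ ∨ W = V0
  hyp : ∀ Y ∈ l, ∃ H ∈ l, (⨆ μ : ℝ, Module.End.eigenspace H μ = ⊤) ∧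
    ∀ (c : ℝ) v, Y v = c • v → H v = c • v

variable {V0 : Submodule ℝ V}

namespace CtxUE

/-- a hyperbolic element kills the definite part -/
theorem hyp_kill (E : CtxUE B l J V0) {H : Module.End ℝ V} (hH : H ∈ l)
    (htop : ⨆ μ : ℝ, Module.End.eigenspace H μ = ⊤) {v : V} (hv : ∀ x ∈ V0, B x v = 0) :
    H v = 0 := by
  have sk := E.skew H hH
  have key : ∀ y : V, ∀ y0 ∈ V0, ∀ y1, (∀ x ∈ V0, B x y1 = 0) → y = y0 + y1 → H y1 = 0 := by
    intro y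
    have hy : y ∈ ⨆ μ : ℝ, Module.End.eigenspace H μ := by rw [htop]; exact Submodule.mem_top
    refine Submodule.iSup_induction _ (motive := fun y => ∀ y0 ∈ V0, ∀ y1,
      (∀ x ∈ V0, B x y1 = 0) → y = y0 + y1 → H y1 = 0) hy ?_ ?_ ?_
    · intro μ y hy y0 hy0 y1 hy1 h
      rw [Module.End.mem_eigenspace_iff] at hy
      have h1 : H y1 - μ • y1 = -(H y0 - μ • y0) := by
        have : H y0 + H y1 = μ • y0 + μ • y1 := by
          rw [← map_add, ← smul_add, ← h, hy]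
        have h2 : H y1 - μ • y1 + (H y0 - μ • y0) = (H y0 + H y1) - (μ • y0 + μ • y1) := by abel
        rw [eq_neg_iff_add_eq_zero, h2, this, sub_self]
      have hm : H y0 - μ • y0 ∈ V0 := V0.sub_mem (E.pres H hH y0 hy0) (V0.smul_mem _ hy0)
      have hperp : ∀ x ∈ V0, B x (H y1 - μ • y1) = 0 := by
        intro x hx
        have h3 := sk x y1
        rw [E.symm] at h3
        rw [map_sub, map_smul, hy1 x hx, smul_zero, sub_zero]
        have h4 : B y1 (H x) = 0 := by rw [E.symm]; exact hy1 _ (E.pres H hH x hx)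
        linarith
      have h5 : H y0 - μ • y0 = 0 := by
        refine E.nondeg _ hm fun x hx => ?_
        have h6 := hperp x hx
        rw [h1, map_neg, neg_eq_zero] at h6
        rw [E.symm]; exact h6
      rw [h5, neg_zero, sub_eq_zero] at h1
      have h7 : μ * B y1 y1 = 0 := by
        have h8 := sk y1 y1
        rw [h1] at h8
        simp only [map_smul, LinearMap.smul_apply, smul_eq_mul] at h8
        linarith
      rcases mul_eq_zero.1 h7 with h8 | h8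
      · rw [h1, h8, zero_smul]
      · rw [E.neg y1 hy1 h8.ge, map_zero]
    · intro y0 hy0 y1 hy1 h
      have h1 : y1 = -y0 := by
        rw [eq_neg_iff_add_eq_zero, add_comm]; exact h.symm
      have h2 : y1 = 0 := by
        refine E.nondeg _ (by rw [h1]; exact V0.neg_mem hy0) fun x hx => ?_
        rw [E.symm]; exact hy1 x hx
      rw [h2, map_zero]
    · intro a b ha hb y0 hy0 y1 hy1 h
      obtain ⟨a0, ha0, a1, ha1, ha2⟩ := E.dec a
      obtain ⟨b0, hb0, b1, hb1, hb2⟩ := E.dec b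
      have h3 := ha a0 ha0 a1 ha1 ha2
      have h4 := hb b0 hb0 b1 hb1 hb2
      have h5 : y1 - (a1 + b1) = -(y0 - (a0 + b0)) := by
        have h6 : y0 + y1 = (a0 + a1) + (b0 + b1) := by rw [← h, ← ha2, ← hb2]
        have h7 : y1 - (a1 + b1) + (y0 - (a0 + b0)) = (y0 + y1) - ((a0 + a1) + (b0 + b1)) := by abel
        rw [eq_neg_iff_add_eq_zero, h7, h6, sub_self]
      have h8 : y1 - (a1 + b1) = 0 := by
        refine E.nondeg _ (by
          rw [h5]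
          exact V0.neg_mem (V0.sub_mem hy0 (V0.add_mem ha0 hb0))) fun x hx => ?_
        rw [E.symm, map_sub, map_add, hy1 x hx, ha1 x hx, hb1 x hx]
        simp
      rw [sub_eq_zero] at h8
      rw [h8, map_add, h3, h4, add_zero]
  exact key v 0 V0.zero_mem v hv (by simp)

/-- the complex structure on `V0` -/
noncomputable def J0 (E : CtxUE B l J V0) : Module.End ℝ V0 := J.restrict E.Jpres

@[simp] theorem J0_apply (E : CtxUE B l J V0) (x : V0) : (E.J0 x : V) = J x := rfl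

end CtxUE

/-- the subalgebra of elements killing `V0^⊥`, restricted to `V0` -/
def l1 (B : V →ₗ[ℝ] V →ₗ[ℝ] ℝ) (l : Submodule ℝ (Module.End ℝ V)) (V0 : Submodule ℝ V) :
    Submodule ℝ (Module.End ℝ V0) where
  carrier := {Z | ∃ Y ∈ l, (∀ x : V0, (Z x : V) = Y x) ∧ ∀ v, (∀ x ∈ V0, B x v = 0) → Y v = 0}
  zero_mem' := ⟨0, l.zero_mem, fun x => by simp, fun v _ => rfl⟩
  add_mem' := by
    rintro a b ⟨Y, hY, h, k⟩ ⟨Y', hY', h', k'⟩
    exact ⟨Y + Y', l.add_mem hY hY', fun x => by simp [h, h'], fun v hv => by simp [k v hv, k' v hv]⟩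
  smul_mem' := by
    rintro c a ⟨Y, hY, h, k⟩
    exact ⟨c • Y, l.smul_mem _ hY, fun x => by simp [h], fun v hv => by simp [k v hv]⟩

theorem l1_le {Z : Module.End ℝ V0} (h : Z ∈ l1 B l V0) : Z ∈ l0 l V0 := by
  obtain ⟨Y, hY, h, -⟩ := h
  exact ⟨Y, hY, h⟩

theorem ctxP0 (E : CtxUE B l J V0) : CtxP (B0 B V0) (l0 l V0) E.J0 := by
  refine ⟨fun x y => E.symm _ _, ?_, ?_, ?_, ?_, ?_, ?_, ?_⟩
  · intro v hv
    have hv' : LinearIndependent ℝ (fun i => ((v i : V0) : V)) :=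
      hv.map' V0.subtype (Submodule.ker_subtype V0)
    obtain ⟨c, hc⟩ := E.sig _ hv'
    refine ⟨c, ?_⟩
    rw [B0_apply]
    have : ((∑ i, c i • v i : V0) : V) = ∑ i, c i • (v i : V) := by
      simp
    rw [this]
    exact hc
  · intro x hx
    exact Subtype.ext (E.nondeg x x.2 fun y hy => hx ⟨y, hy⟩)
  · rintro Z ⟨Y, hY, h⟩ x y
    rw [B0_apply, B0_apply, h, h]
    exact E.skew Y hY _ _
  · rintro X ⟨X', hX', hX⟩ Y ⟨Y', hY', hY⟩
    refine ⟨_, E.brk X' hX' Y' hY', fun x => ?_⟩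
    simp [hX, hY]
  · intro x
    exact Subtype.ext (E.JJ x x.2)
  · intro x y
    exact E.Jskew x x.2 y y.2
  · rintro Z ⟨Y, hY, h⟩ x
    apply Subtype.ext
    rw [h, E.J0_apply, E.J0_apply, h]
    exact E.Jcomm Y hY x x.2

theorem ctxP1 (E : CtxUE B l J V0) : CtxP (B0 B V0) (l1 B l V0) E.J0 := by
  have P := ctxP0 E
  refine ⟨P.symm, P.sig, P.nondeg, fun Y hY => P.skew Y (l1_le hY), ?_, P.JJ, P.Jskew,
    fun Y hY => P.Jcomm Y (l1_le hY)⟩
  rintro X ⟨X', hX', hX, kX⟩ Y ⟨Y', hY', hY, kY⟩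
  refine ⟨_, E.brk X' hX' Y' hY', fun x => ?_, fun v hv => ?_⟩
  · simp [hX, hY]
  · simp [kX v hv, kY v hv]

theorem ctxU0 (E : CtxUE B l J V0) : CtxU (B0 B V0) (l0 l V0) E.J0 := by
  refine ⟨ctxP0 E, ?_⟩
  intro W hJ hW
  have hW' : ∀ x : V0, (x : V) ∈ W.map V0.subtype ↔ x ∈ W := by
    intro x
    constructor
    · rintro ⟨x', hx', h⟩
      have : x' = x := Subtype.ext h
      rwa [← this]
    · intro hx
      exact ⟨x, hx, rfl⟩
  have hle : W.map V0.subtype ≤ V0 := by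
    rintro _ ⟨x, hx, rfl⟩
    exact x.2
  rcases E.irr (W.map V0.subtype) hle (by
    rintro _ ⟨x, hx, rfl⟩
    exact ⟨_, hJ x hx, rfl⟩) (by
    rintro Y hY _ ⟨x, hx, rfl⟩
    have hZ : Y.restrict (E.pres Y hY) ∈ l0 l V0 := ⟨Y, hY, fun x => rfl⟩
    exact ⟨_, hW _ hZ x hx, rfl⟩) with h | h
  · left
    rw [eq_bot_iff]
    intro x hx
    have h1 := (hW' x).2 hx
    rw [h, Submodule.mem_bot] at h1
    rw [Submodule.mem_bot]
    exact Subtype.ext h1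
  · right
    rw [eq_top_iff]
    rintro x -
    rw [← hW', h]
    exact x.2

variable [FiniteDimensional ℝ V]

/-- lifting of hyperbolic pairs -/
theorem liftP (E : CtxUE B l J V0) (hall : ∀ x y, B0 B V0 (E.J0 x) y = 0 → uw (B0 B V0) E.J0 x y ∈ l0 l V0)
    {e f : V0} (H : H4 (B0 B V0) e (E.J0 e) f (E.J0 f)) : uw (B0 B V0) E.J0 e f ∈ l1 B l V0 := by
  obtain ⟨Y, hY, hYe⟩ := hall e f H.ef21
  obtain ⟨T, hT, hTtop, hev⟩ := E.hyp Y hY
  have hYv : ∀ v : V0, Y v = ((uw (B0 B V0) E.J0 e f v : V0) : V) := fun v => (hYe v).symm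
  have val : ∀ v : V0, uw (B0 B V0) E.J0 e f v = B0 B V0 f v • e - B0 B V0 e v • f +
      (B0 B V0 (E.J0 f) v • E.J0 e - B0 B V0 (E.J0 e) v • E.J0 f) := fun v => uw_apply _ _ _
  have aux : ∀ (c : ℝ) (v : V0), uw (B0 B V0) E.J0 e f v = c • v → T v = c • (v : V) := by
    intro c v hv
    refine hev c v ?_
    rw [hYv, hv]; rfl
  have k1 := aux 1 e (by rw [val, H.fe11, H.e11, H.fe21, H.e21]; module)
  have k2 := aux 1 (E.J0 e) (by rw [val, H.fe12, H.e12, H.fe22, H.e22]; module)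
  have k3 := aux (-1) f (by rw [val, H.f11, H.ef11, H.f21, H.ef21]; module)
  have k4 := aux (-1) (E.J0 f) (by rw [val, H.f12, H.ef12, H.f22, H.ef22]; module)
  refine ⟨T, hT, fun v => ?_, fun v hv => E.hyp_kill hT hTtop hv⟩
  obtain ⟨u, hu, hvu⟩ := decU H v
  rw [mem_UU] at hu
  have k5 := aux 0 u (by rw [val, hu.1.1, hu.1.2, hu.2.1, hu.2.2]; module)
  have e1 : (v : V) = B0 B V0 f v • (e : V) + B0 B V0 (E.J0 f) v • (E.J0 e : V) +
      B0 B V0 e v • (f : V) + B0 B V0 (E.J0 e) v • (E.J0 f : V) + u := by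
    conv_lhs => rw [hvu]
    simp only [Submodule.coe_add, Submodule.coe_smul]
  have e2 : T v = T (B0 B V0 f v • (e : V) + B0 B V0 (E.J0 f) v • (E.J0 e : V) +
      B0 B V0 e v • (f : V) + B0 B V0 (E.J0 e) v • (E.J0 f : V) + u) := by rw [← e1]
  rw [e2, map_add, map_add, map_add, map_add, map_smul, map_smul, map_smul, map_smul, k1, k2, k3, k4,
    k5, val]
  simp only [Submodule.coe_add, Submodule.coe_smul, Submodule.coe_sub]
  module

theorem allA (E : CtxUE B l J V0) (hall : ∀ x y, B0 B V0 (E.J0 x) y = 0 → uw (B0 B V0) E.J0 x y ∈ l0 l V0)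
    {e f : V0} (H : H4 (B0 B V0) e (E.J0 e) f (E.J0 f)) :
    ∀ x y, B0 B V0 (E.J0 x) y = 0 → uw (B0 B V0) E.J0 x y ∈ l1 B l V0 := by
  have P := ctxP1 E
  have gen1 : ∀ {e f : V0}, H4 (B0 B V0) e (E.J0 e) f (E.J0 f) →
      wd (B0 B V0) e (E.J0 e) ∈ l1 B l V0 := by
    intro e f H
    have h1 := liftP E hall H
    have H' : H4 (B0 B V0) e (E.J0 e) (f + E.J0 e) (E.J0 (f + E.J0 e)) := by
      refine ⟨H.e11, H.e12, H.e21, H.e22, ?_, ?_, ?_, ?_, ?_, ?_, ?_, ?_, ?_, ?_, ?_, ?_⟩ <;>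
      simp only [map_add, LinearMap.add_apply, P.JJ, map_neg, LinearMap.neg_apply, H.e11, H.e12,
        H.e21, H.e22, H.f11, H.f12, H.f21, H.f22, H.ef11, H.ef12, H.ef21, H.ef22, H.fe11, H.fe12,
        H.fe21, H.fe22] <;> ring
    have h2 := liftP E hall H'
    have h3 := Submodule.smul_mem _ (1 / 2 : ℝ) (Submodule.sub_mem _ h2 h1)
    have h4 : uw (B0 B V0) E.J0 e (E.J0 e) = (2 : ℝ) • wd (B0 B V0) e (E.J0 e) := by
      rw [uw_eq, P.JJ, map_neg, wd_swap (B0 B V0) e (E.J0 e), neg_neg, two_smul]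
    rw [map_add, add_sub_cancel_left, h4, smul_smul] at h3
    norm_num at h3
    exact h3
  have gen2 : ∀ {e f : V0}, H4 (B0 B V0) e (E.J0 e) f (E.J0 f) → ∀ u ∈ UU (B0 B V0) e (E.J0 e) f (E.J0 f),
      uw (B0 B V0) E.J0 e u ∈ l1 B l V0 := by
    intro e f H u hu
    have hu2 := uu_J P hu
    rw [mem_UU] at hu hu2
    obtain ⟨⟨h1, h2⟩, h3, h4⟩ := hu
    obtain ⟨⟨j1, j2⟩, j3, j4⟩ := hu2
    have s1 : B0 B V0 u e = 0 := by rw [P.symm]; exact h1
    have s2 : B0 B V0 u (E.J0 e) = 0 := by rw [P.symm]; exact h2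
    have s3 : B0 B V0 u f = 0 := by rw [P.symm]; exact h3
    have s4 : B0 B V0 u (E.J0 f) = 0 := by rw [P.symm]; exact h4
    have t1 : B0 B V0 (E.J0 u) e = 0 := by rw [P.symm]; exact j1
    have t2 : B0 B V0 (E.J0 u) (E.J0 e) = 0 := by rw [P.symm]; exact j2
    have t3 : B0 B V0 (E.J0 u) f = 0 := by rw [P.symm]; exact j3
    have t4 : B0 B V0 (E.J0 u) (E.J0 f) = 0 := by rw [P.symm]; exact j4
    have a1 : B0 B V0 (E.J0 u) (E.J0 u) = B0 B V0 u u := P.BJJ _ _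
    have a2 : B0 B V0 (E.J0 u) u = 0 := P.BJself' _
    have a3 : B0 B V0 u (E.J0 u) = 0 := P.BJself _
    have k1 := liftP E hall H
    set c := B0 B V0 u u / 2 with hc
    have hc2 : B0 B V0 u u = 2 * c := by rw [hc]; ring
    have H' : H4 (B0 B V0) e (E.J0 e) (f - u - c • e) (E.J0 (f - u - c • e)) := by
      refine ⟨H.e11, H.e12, H.e21, H.e22, ?_, ?_, ?_, ?_, ?_, ?_, ?_, ?_, ?_, ?_, ?_, ?_⟩ <;>
      simp only [map_sub, map_smul, LinearMap.sub_apply, LinearMap.smul_apply, smul_eq_mul, H.e11,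
        H.e12, H.e21, H.e22, H.f11, H.f12, H.f21, H.f22, H.ef11, H.ef12, H.ef21, H.ef22, H.fe11,
        H.fe12, H.fe21, H.fe22, h1, h2, h3, h4, j1, j2, j3, j4, s1, s2, s3, s4, t1, t2, t3, t4, a1,
        a2, a3, hc2] <;> ring
    have k2 := liftP E hall H'
    have k3 := Submodule.sub_mem _ k1 k2
    rw [map_sub, map_sub, map_smul, uw_self] at k3
    convert k3 using 1
    module
  have Hs : H4 (B0 B V0) f (E.J0 f) e (E.J0 e) :=
    ⟨H.f11, H.f12, H.f21, H.f22, H.e11, H.e12, H.e21, H.e22, H.fe11, H.fe12, H.fe21, H.fe22,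
      H.ef11, H.ef12, H.ef21, H.ef22⟩
  refine altA P H (liftP E hall H) (gen1 H) (gen1 Hs) (gen2 H) ?_
  intro u hu
  refine gen2 Hs u ?_
  rw [mem_UU] at hu ⊢
  exact ⟨hu.2, hu.1⟩

/-- The main theorem, total space version. -/
theorem mainUE (E : CtxUE B l J V0) {h : Module.End ℝ V} (hh : h ∈ l) (h0 : h ≠ 0)
    (htop : ⨆ μ : ℝ, Module.End.eigenspace h μ = ⊤) :
    (∀ x ∈ V0, ∀ y ∈ V0, B (J x) y = 0 → uw B J x y ∈ l) ∨
      ∃ R : Submodule ℝ V, R ≤ V0 ∧ (∀ x ∈ V0, ∃ r ∈ R, ∃ s ∈ R, x = r + J s) ∧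
        (∀ x ∈ R, ∀ y ∈ R, B x (J y) = 0) ∧ ∀ Y ∈ l, ∃ c : ℝ, ∀ x ∈ R, Y x - c • J x ∈ R := by
  have C := ctxU0 E
  have hr0 : h.restrict (E.pres h hh) ≠ 0 := by
    intro hz
    apply h0
    refine LinearMap.ext fun v => ?_
    obtain ⟨v0, hv0, v1, hv1, rfl⟩ := E.dec v
    have h1 : h v1 = 0 := E.hyp_kill hh htop hv1
    have h2 : h v0 = 0 := by
      have := congrArg (fun Z => ((Z ⟨v0, hv0⟩ : V0) : V)) hz
      simpa using this
    rw [map_add, h1, h2]; simp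
  have hrtop : ⨆ μ : ℝ, Module.End.eigenspace (h.restrict (E.pres h hh)) μ = ⊤ :=
    Module.End.genEigenspace_restrict_eq_top (f := h) (k := 1) (E.pres h hh) htop
  have hrm : h.restrict (E.pres h hh) ∈ l0 l V0 := ⟨h, hh, fun x => rfl⟩
  rcases mainU C hrm hr0 hrtop with ha | ⟨R, hR1, hR2, hR3⟩
  · left
    -- a J-hyperbolic pair
    obtain ⟨a, e, f0, ha', he, hf0, hee, hff0, hef0⟩ :=
      extract C.symm C.nondeg (C.skew _ hrm) hrtop hr0
    obtain ⟨f, H⟩ : ∃ f : V0, H4 (B0 B V0) e (E.J0 e) f (E.J0 f) := by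
      have P := C.toCtxP
      set β := B0 B V0 (E.J0 e) f0 with hβ
      have hpos : (1 + β ^ 2) ≠ 0 := by positivity
      have eJ : B0 B V0 e (E.J0 f0) = -β := by
        have := P.Jskew e f0; rw [hβ]; linarith
      have e1 : B0 B V0 f0 (E.J0 f0) = 0 := P.BJself _
      have e2 : B0 B V0 (E.J0 f0) f0 = 0 := P.BJself' _
      have e3 : B0 B V0 (E.J0 f0) (E.J0 f0) = 0 := by rw [P.BJJ]; exact hff0
      have e4 : B0 B V0 e (E.J0 e) = 0 := P.BJself _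
      have e5 : B0 B V0 (E.J0 e) e = 0 := P.BJself' _
      have e6 : B0 B V0 (E.J0 e) (E.J0 e) = 0 := by rw [P.BJJ]; exact hee
      have e7 : B0 B V0 (E.J0 e) (E.J0 f0) = 1 := by rw [P.BJJ]; exact hef0
      have s1 : B0 B V0 f0 e = 1 := by rw [P.symm]; exact hef0
      have s2 : B0 B V0 (E.J0 f0) e = -β := by rw [P.symm]; exact eJ
      have s3 : B0 B V0 f0 (E.J0 e) = β := by rw [P.symm]
      have s4 : B0 B V0 (E.J0 f0) (E.J0 e) = 1 := by rw [P.symm]; exact e7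
      refine ⟨(1 / (1 + β ^ 2)) • (f0 - β • E.J0 f0), hee, e4, e5, e6, ?_, ?_, ?_, ?_, ?_, ?_, ?_, ?_,
        ?_, ?_, ?_, ?_⟩ <;>
      simp only [map_smul, map_sub, LinearMap.smul_apply, LinearMap.sub_apply, hff0, e1, e2, e3, e4,
        e5, e6, e7, s1, s2, s3, s4, hef0, eJ, ← hβ, P.JJ, map_neg, LinearMap.neg_apply,
        smul_eq_mul, mul_zero, sub_zero] <;> field_simp <;> ring
    have hA := allA E ha H
    intro x hx y hy hxy
    obtain ⟨Y, hY, hY1, hY2⟩ := hA ⟨x, hx⟩ ⟨y, hy⟩ hxy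
    have : uw B J x y = Y := by
      refine LinearMap.ext fun v => ?_
      obtain ⟨v0, hv0, v1, hv1, rfl⟩ := E.dec v
      rw [map_add, map_add, hY2 v1 hv1, ← hY1 ⟨v0, hv0⟩, uw_apply, uw_apply, hv1 x hx, hv1 y hy,
        hv1 _ (E.Jpres x hx), hv1 _ (E.Jpres y hy), uw_apply]
      simp only [zero_smul, sub_zero, add_zero]
      rfl
    rw [this]
    exact hY
  · right
    refine ⟨R.map V0.subtype, ?_, ?_, ?_, ?_⟩
    · rintro _ ⟨x, hx, rfl⟩
      exact x.2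
    · intro x hx
      obtain ⟨r, hr, s, hs, h⟩ := hR1 ⟨x, hx⟩
      refine ⟨_, ⟨r, hr, rfl⟩, _, ⟨s, hs, rfl⟩, ?_⟩
      exact congrArg Subtype.val h
    · rintro _ ⟨x, hx, rfl⟩ _ ⟨y, hy, rfl⟩
      exact hR2 x hx y hy
    · intro Y hY
      obtain ⟨c, hc⟩ := hR3 _ (show Y.restrict (E.pres Y hY) ∈ l0 l V0 from ⟨Y, hY, fun x => rfl⟩)
      refine ⟨c, ?_⟩
      rintro _ ⟨x, hx, rfl⟩
      exact ⟨_, hc x hx, rfl⟩

end Pool.Agent.K3C.K7z
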