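import Pool.Agent.K3E.K7E
import Pool.Agent.K3C.K7w

/-!
# C7: the classification for CM fields, for matrices
-/

open scoped BigOperators
open Matrix

namespace Pool.Agent.K3C

open Pool.Agent.K3D Pool.Agent.K3D.K7w Pool.Agent.K3D.K7x Pool.Agent.K3E Pool.Agent.K3C.K7z Module

/-- The hypotheses on the real Lie algebra, with multiplication by a CM field. -/
structure LHypC (n : ℕ) (q : Fin n → ℝ) (V0 : Submodule ℝ (Fin n → ℝ)) (J : Matrix (Fin n) (Fin n) ℝ)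
    (l : Submodule ℝ (Matrix (Fin n) (Fin n) ℝ)) : Prop where
  n2 : 2 ≤ n
  qpos : ∀ i : Fin n, (i : ℕ) < 2 → 0 < q i
  qneg : ∀ i : Fin n, 2 ≤ (i : ℕ) → q i < 0
  neg : ∀ v : Fin n → ℝ, (∀ x ∈ V0, ∑ i, q i * x i * v i = 0) → v ≠ 0 → ∑ i, q i * v i * v i < 0
  Jpres : ∀ v ∈ V0, J *ᵥ v ∈ V0
  JJ : ∀ v ∈ V0, J *ᵥ (J *ᵥ v) = -v
  Jskew : ∀ v ∈ V0, ∀ w ∈ V0, ∑ i, q i * (J *ᵥ v) i * w i = -∑ i, q i * v i * (J *ᵥ w) i
  Jcomm : ∀ a ∈ l, ∀ v ∈ V0, a *ᵥ (J *ᵥ v) = J *ᵥ (a *ᵥ v)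
  pres : ∀ a ∈ l, ∀ v ∈ V0, a *ᵥ v ∈ V0
  skew : ∀ a ∈ l, aᵀ * Matrix.diagonal q + Matrix.diagonal q * a = 0
  brk : ∀ a ∈ l, ∀ b ∈ l, a * b - b * a ∈ l
  irr : ∀ W : Submodule ℝ (Fin n → ℝ), W ≤ V0 → (∀ v ∈ W, J *ᵥ v ∈ W) →
    (∀ a ∈ l, ∀ v ∈ W, a *ᵥ v ∈ W) → W = ⊥ ∨ W = V0
  hyp : ∀ a ∈ l, ∃ h ∈ l, IsHypPart a h

/-- C7. The real Lie algebra contains `su(1, m - 1)`, or `V0` has a real form compatible with it. -/
def Stmt_C7 : Prop :=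
  ∀ (n : ℕ) (q : Fin n → ℝ) (V0 : Submodule ℝ (Fin n → ℝ)) (J : Matrix (Fin n) (Fin n) ℝ)
    (l : Submodule ℝ (Matrix (Fin n) (Fin n) ℝ)), LHypC n q V0 J l →
    (∃ h ∈ l, h ≠ 0 ∧ ∃ (S : GL (Fin n) ℝ) (d : Fin n → ℝ),
      h = S.val * Matrix.diagonal d * (S⁻¹).val) →
    (∀ x ∈ V0, ∀ y ∈ V0, ∑ i, q i * (J *ᵥ x) i * y i = 0 → ∀ a : Matrix (Fin n) (Fin n) ℝ,
      (∀ v, a *ᵥ v = (∑ i, q i * y i * v i) • x - (∑ i, q i * x i * v i) • y +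
        ((∑ i, q i * (J *ᵥ y) i * v i) • (J *ᵥ x) - (∑ i, q i * (J *ᵥ x) i * v i) • (J *ᵥ y))) →
      a ∈ l) ∨
    ∃ R : Submodule ℝ (Fin n → ℝ), R ≤ V0 ∧ (∀ x ∈ V0, ∃ r ∈ R, ∃ s ∈ R, x = r + J *ᵥ s) ∧
      (∀ x ∈ R, ∀ y ∈ R, ∑ i, q i * x i * (J *ᵥ y) i = 0) ∧
      ∀ a ∈ l, ∃ c : ℝ, ∀ x ∈ R, a *ᵥ x - c • (J *ᵥ x) ∈ R

variable {n : ℕ} {q : Fin n → ℝ} {l : Submodule ℝ (Matrix (Fin n) (Fin n) ℝ)}
  {V0 : Submodule ℝ (Fin n → ℝ)} {J : Matrix (Fin n) (Fin n) ℝ}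

theorem ctxC (L : LHypC n q V0 J l) : CtxUE (Bq q) (lE l) (Matrix.toLin' J) V0 := by
  have hneg : ∀ v : Fin n → ℝ, (∀ x ∈ V0, Bq q x v = 0) → 0 ≤ Bq q v v → v = 0 := by
    intro v hv h0
    by_contra hne
    have := L.neg v hv hne
    rw [Bq_apply] at h0
    linarith
  have hnd : ∀ x ∈ V0, (∀ y ∈ V0, Bq q x y = 0) → x = 0 := by
    intro x hx h
    exact hneg x (fun y hy => by rw [Bq_symm]; exact h y hy) (h x hx).ge
  refine ⟨Bq_symm, sigq L.n2 L.qpos L.qneg, ?_, hneg, hnd, ?_, ?_, ?_, ?_, ?_, ?_, ?_, ?_, ?_⟩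
  · -- decomposition
    have hrefl : (LinearMap.BilinForm.restrict (Bq q) V0).Nondegenerate := by
      refine ⟨?_, ?_⟩
      · intro x hx
        exact Subtype.ext (hnd x x.2 fun y hy => hx ⟨y, hy⟩)
      · intro x hx
        exact Subtype.ext (hnd x x.2 fun y hy => by rw [Bq_symm]; exact hx ⟨y, hy⟩)
    have hcompl := LinearMap.BilinForm.isCompl_orthogonal_of_restrict_nondegenerate
      (B := Bq q) (W := V0) (fun x y h => by rw [Bq_symm]; exact h) hrefl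
    intro v
    have htop : v ∈ V0 ⊔ LinearMap.BilinForm.orthogonal (Bq q) V0 := by
      rw [hcompl.sup_eq_top]; exact Submodule.mem_top
    obtain ⟨k, hk, k', hk', hkk⟩ := Submodule.mem_sup.1 htop
    exact ⟨k, hk, k', fun x hx => hk' x hx, hkk.symm⟩
  · intro Y hY x hx
    obtain ⟨a, ha, rfl⟩ := mem_lE.1 hY
    rw [Matrix.toLin'_apply]
    exact L.pres a ha x hx
  · intro Y hY x y
    obtain ⟨a, ha, rfl⟩ := mem_lE.1 hY
    exact Bq_skew (L.skew a ha) x y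
  · intro X hX Y hY
    obtain ⟨a, ha, rfl⟩ := mem_lE.1 hX
    obtain ⟨b, hb, rfl⟩ := mem_lE.1 hY
    have : Matrix.toLin' a * Matrix.toLin' b - Matrix.toLin' b * Matrix.toLin' a =
        Matrix.toLin' (a * b - b * a) := by
      rw [map_sub, Matrix.toLin'_mul, Matrix.toLin'_mul]; rfl
    rw [this]
    exact toLin'_mem_lE.2 (L.brk a ha b hb)
  · intro x hx
    rw [Matrix.toLin'_apply]
    exact L.Jpres x hx
  · intro x hx
    rw [Matrix.toLin'_apply, Matrix.toLin'_apply]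
    exact L.JJ x hx
  · intro x hx y hy
    rw [Matrix.toLin'_apply, Matrix.toLin'_apply, Bq_apply, Bq_apply]
    exact L.Jskew x hx y hy
  · intro Y hY x hx
    obtain ⟨a, ha, rfl⟩ := mem_lE.1 hY
    simp only [Matrix.toLin'_apply]
    exact L.Jcomm a ha x hx
  · intro W hle hJ hW
    refine L.irr W hle (fun v hv => ?_) (fun a ha v hv => ?_)
    · have := hJ v hv
      rwa [Matrix.toLin'_apply] at this
    · have := hW _ (toLin'_mem_lE.2 ha) v hv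
      rwa [Matrix.toLin'_apply] at this
  · intro Y hY
    obtain ⟨a, ha, rfl⟩ := mem_lE.1 hY
    obtain ⟨h, hh, hyp⟩ := L.hyp a ha
    exact ⟨Matrix.toLin' h, toLin'_mem_lE.2 hh, hypq hyp⟩

theorem C7_proof : Stmt_C7 := by
  rintro n q V0 J l L ⟨h, hh, h0, S, d, hS⟩
  rcases mainUE (ctxC L) (h := Matrix.toLin' h) (toLin'_mem_lE.2 hh) (by
    intro h1
    apply h0
    have : Matrix.toLin' h = Matrix.toLin' (0 : Matrix (Fin n) (Fin n) ℝ) := by rw [h1, map_zero]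
    exact Matrix.toLin'.injective this) (diag_top hS) with h1 | ⟨R, hR0, hR1, hR2, hR3⟩
  · left
    intro x hx y hy hxy a ha
    have h2 := h1 x hx y hy (by rw [Matrix.toLin'_apply, Bq_apply]; exact hxy)
    have h3 : uw (Bq q) (Matrix.toLin' J) x y = Matrix.toLin' a := by
      refine LinearMap.ext fun v => ?_
      rw [Matrix.toLin'_apply, ha v]
      rfl
    rw [h3] at h2
    exact toLin'_mem_lE.1 h2
  · right
    refine ⟨R, hR0, ?_, ?_, ?_⟩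
    · intro x hx
      obtain ⟨r, hr, s, hs, h⟩ := hR1 x hx
      exact ⟨r, hr, s, hs, by rwa [Matrix.toLin'_apply] at h⟩
    · intro x hx y hy
      have := hR2 x hx y hy
      rwa [Matrix.toLin'_apply, Bq_apply] at this
    · intro a ha
      obtain ⟨c, hc⟩ := hR3 _ (toLin'_mem_lE.2 ha)
      refine ⟨c, fun x hx => ?_⟩
      have := hc x hx
      rwa [Matrix.toLin'_apply, Matrix.toLin'_apply] at this

end Pool.Agent.K3C
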