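import Mathlib

/-!
# C7a: the coefficients of the volume elements of a pencil of subspaces (abstract Clifford computation)
-/

set_option autoImplicit false

open scoped BigOperators
open Polynomial

namespace Pool.Agent.K3C

namespace C7A

/-- A derivation with central eigenvalue. -/
theorem leib_list {R : Type*} [Ring R] (D : R → R) (hD : ∀ x y, D (x * y) = D x * y + x * D y)
    (c : R) (hc : ∀ x, c * x = x * c) (l : List R) (hl : ∀ e ∈ l, D e = c * e) :
    D l.prod = (l.length : R) * (c * l.prod) := by
  induction l with
  | nil =>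
    have h1 : D 1 = 0 := by
      have := hD 1 1
      simp only [mul_one, one_mul] at this
      exact left_eq_add.1 this
    simp [h1]
  | cons e l ih =>
    rw [List.prod_cons, hD, hl e (by simp), ih fun x hx => hl x (by simp [hx]), List.length_cons,
      Nat.cast_add, Nat.cast_one, add_mul, one_mul]
    have h2 : e * ((l.length : R) * (c * l.prod)) = (l.length : R) * (c * (e * l.prod)) := by
      rw [← mul_assoc, ← (Nat.cast_commute l.length e).eq, mul_assoc, ← mul_assoc e, ← hc e, mul_assoc c]
    rw [h2, mul_assoc, add_comm]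

variable {A : Type} [Ring A] {m : ℕ}

/-- The data: `P i = cl (v i)`, `F i = cl (φ i)`. -/
structure Dat (P F : Fin m → A) : Prop where
  pp : ∀ i j, P i * P j + P j * P i = 0
  ff : ∀ i j, F i * F j + F j * F i = 0
  pf : ∀ i j, P i * F j + F j * P i = if i = j then 2 else 0

variable {P F : Fin m → A}

/-- the elements `v i + t φ i` -/
noncomputable def e (P F : Fin m → A) (i : Fin m) : A[X] := C (P i) + X * C (F i)

theorem ee (h : Dat P F) (i j : Fin m) :
    e P F i * e P F j + e P F j * e P F i = if i = j then 4 * X else 0 := by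
  have h1 : e P F i * e P F j + e P F j * e P F i = C (P i * P j + P j * P i) +
      X * C (P i * F j + F j * P i + (P j * F i + F i * P j)) +
      X * X * C (F i * F j + F j * F i) := by
    simp only [e, add_mul, mul_add, map_add, map_mul]
    have hX : ∀ p : A[X], X * p = p * X := fun p => (commute_X p).eq
    have e1 : C (P i) * (X * C (F j)) = X * (C (P i) * C (F j)) := by
      rw [← mul_assoc, ← hX, mul_assoc]
    have e2 : C (P j) * (X * C (F i)) = X * (C (P j) * C (F i)) := by
      rw [← mul_assoc, ← hX, mul_assoc]
    have e3 : X * C (F i) * (X * C (F j)) = X * X * (C (F i) * C (F j)) := by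
      rw [mul_assoc X (C (F i)), ← mul_assoc (C (F i)), ← hX (C (F i)), mul_assoc X (C (F i)),
        ← mul_assoc X X]
    have e4 : X * C (F j) * (X * C (F i)) = X * X * (C (F j) * C (F i)) := by
      rw [mul_assoc X (C (F j)), ← mul_assoc (C (F j)), ← hX (C (F j)), mul_assoc X (C (F j)),
        ← mul_assoc X X]
    rw [e1, e2, e3, e4]
    simp only [mul_assoc]
    abel
  rw [h1, h.pp, h.ff, h.pf, h.pf, map_zero, zero_add, mul_zero, add_zero]
  by_cases hij : i = j
  · rw [if_pos hij, if_pos hij.symm, if_pos hij, (commute_X _).eq]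
    congr 1
    rw [show (2 + 2 : A) = ((4 : ℕ) : A) by norm_num, map_natCast]
    norm_num
  · rw [if_neg hij, if_neg (Ne.symm hij), if_neg hij, add_zero, map_zero, mul_zero]

/-- the product over a list -/
noncomputable def W (P F : Fin m → A) (l : List (Fin m)) : A[X] := (l.map (e P F)).prod

theorem W_nil : W P F [] = 1 := rfl

theorem W_cons (i : Fin m) (l : List (Fin m)) : W P F (i :: l) = e P F i * W P F l := rfl

theorem e_W (h : Dat P F) (k : Fin m) (l : List (Fin m)) :
    e P F k * W P F l = (-1) ^ (l.countP (· ≠ k)) * (W P F l * e P F k) := by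
  induction l with
  | nil => simp [W_nil]
  | cons j l ih =>
    rw [W_cons]
    by_cases hjk : j = k
    · subst hjk
      rw [List.countP_cons_of_neg (by simp), mul_assoc, ih, ← mul_assoc (e P F j),
        ((Commute.neg_one_left (e P F j)).pow_left _).eq.symm, mul_assoc]
    · rw [List.countP_cons_of_pos (by simpa using hjk), pow_succ, ← mul_assoc]
      have h1 : e P F k * e P F j = -(e P F j * e P F k) := by
        have := ee h k j
        rw [if_neg (Ne.symm hjk)] at this
        exact eq_neg_of_add_eq_zero_left this
      rw [h1, neg_mul, mul_assoc, ih, ← mul_assoc (e P F j),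
        ((Commute.neg_one_left (e P F j)).pow_left _).eq.symm]
      simp only [mul_assoc, mul_neg, neg_mul, one_mul]

theorem countP_finRange (k : Fin m) : (List.finRange m).countP (· ≠ k) + 1 = m := by
  have h1 := List.length_eq_countP_add_countP (p := fun x => decide (x ≠ k)) (l := List.finRange m)
  have h2 : (List.finRange m).countP (fun x => decide ¬(decide (x ≠ k)) = true) = 1 := by
    have : (List.finRange m).count k = 1 :=
      List.count_eq_one_of_mem (List.nodup_finRange m) (List.mem_finRange k)
    rw [List.count] at this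
    rw [← this]
    refine List.countP_congr fun x _ => ?_
    simp
  rw [List.length_finRange] at h1
  omega

theorem quad_comm (h : Dat P F) (i j : Fin m) :
    e P F j * e P F i * W P F (List.finRange m) = W P F (List.finRange m) * (e P F j * e P F i) := by
  have hi := countP_finRange i
  have hj := countP_finRange j
  have hij : (List.finRange m).countP (· ≠ i) = (List.finRange m).countP (· ≠ j) := by omega
  rw [mul_assoc, e_W h, hij, ← mul_assoc (e P F j), ← ((Commute.neg_one_left (e P F j)).pow_left _).eq,
    mul_assoc, ← mul_assoc (e P F j), e_W h]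
  rw [mul_assoc ((-1) ^ _), ← mul_assoc ((-1) ^ _) ((-1) ^ _), ← pow_add, ← two_mul, pow_mul,
    neg_one_sq, one_pow, one_mul, mul_assoc]

theorem X_cancel {f g : A[X]} (h : X * f = X * g) : f = g := by
  ext k
  have := congrArg (fun p => Polynomial.coeff p (k + 1)) h
  simpa [coeff_X_mul] using this

variable [Algebra ℂ A]

/-- The commutators with the coefficients of the volume element. -/
theorem comm_coeff (h : Dat P F) (Z : A) (M : Matrix (Fin m) (Fin m) ℂ) (c : ℂ)
    (hM : ∀ i j, M j i = -M i j)
    (hP : ∀ k, Z * P k - P k * Z = ∑ j, M j k • P j + c • P k)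
    (hF : ∀ k, Z * F k - F k * Z = ∑ j, M j k • F j - c • F k) (k : ℕ) :
    Z * (W P F (List.finRange m)).coeff k - (W P F (List.finRange m)).coeff k * Z =
      (c * (m - 2 * k)) • (W P F (List.finRange m)).coeff k := by
  set ω := W P F (List.finRange m) with hω
  -- the derivation
  let D1 : A[X] → A[X] := fun f => (C Z * f - f * C Z) + C (algebraMap ℂ A (2 * c)) * (X * derivative f)
  let G : A[X] := ∑ i, ∑ j, C (algebraMap ℂ A (M j i)) * (e P F j * e P F i)
  let D2 : A[X] → A[X] := fun f => 8 * X * D1 f - (G * f - f * G)
  have halg : ∀ (z : ℂ) (f : A[X]), C (algebraMap ℂ A z) * f = f * C (algebraMap ℂ A z) := by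
    intro z f
    ext n
    rw [coeff_C_mul, coeff_mul_C, Algebra.commutes]
  have hX : ∀ p : A[X], X * p = p * X := fun p => (commute_X p).eq
  have h8 : ∀ p : A[X], (8 : A[X]) * p = p * 8 := fun p => (Nat.cast_commute 8 p).eq
  have hD1 : ∀ x y, D1 (x * y) = D1 x * y + x * D1 y := by
    intro x y
    simp only [D1, derivative_mul]
    have e1 : C (algebraMap ℂ A (2 * c)) * (X * (derivative x * y + x * derivative y)) =
        C (algebraMap ℂ A (2 * c)) * (X * derivative x) * y +
          x * (C (algebraMap ℂ A (2 * c)) * (X * derivative y)) := by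
      rw [mul_add, mul_add, ← mul_assoc X x, hX x, mul_assoc x X, ← mul_assoc _ x, halg _ x]
      simp only [mul_assoc]
    rw [e1]
    noncomm_ring
  have hD2 : ∀ x y, D2 (x * y) = D2 x * y + x * D2 y := by
    intro x y
    simp only [D2, hD1]
    have e1 : 8 * X * (D1 x * y + x * D1 y) = 8 * X * D1 x * y + x * (8 * X * D1 y) := by
      have e2 : x * (8 * X * D1 y) = 8 * X * (x * D1 y) := by
        rw [← mul_assoc x, ← mul_assoc x, ← h8 x, mul_assoc 8 x X, ← hX x]
        simp only [mul_assoc]
      rw [e2, mul_add, mul_assoc (8 * X) (D1 x) y]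
    rw [e1]
    noncomm_ring
  have hDe : ∀ k, D1 (e P F k) = ∑ j, C (algebraMap ℂ A (M j k)) * e P F j +
      C (algebraMap ℂ A c) * e P F k := by
    intro k
    have hder : derivative (e P F k) = C (F k) := by
      simp [e, derivative_mul]
    have e1 : C Z * e P F k - e P F k * C Z = C (Z * P k - P k * Z) + X * C (Z * F k - F k * Z) := by
      simp only [e, mul_add, add_mul, map_sub, map_mul, mul_sub]
      rw [← mul_assoc (C Z) X, ← hX (C Z)]
      simp only [mul_assoc]
      abel
    have e2 : ∑ j, C (algebraMap ℂ A (M j k)) * e P F j =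
        C (∑ j, M j k • P j) + X * C (∑ j, M j k • F j) := by
      rw [map_sum, map_sum, Finset.mul_sum, ← Finset.sum_add_distrib]
      refine Finset.sum_congr rfl fun j _ => ?_
      rw [e, mul_add, ← mul_assoc, ← hX (C _), mul_assoc, Algebra.smul_def, Algebra.smul_def, map_mul,
        map_mul]
    change C Z * e P F k - e P F k * C Z + C (algebraMap ℂ A (2 * c)) * (X * derivative (e P F k)) = _
    rw [e1, hder, hP, hF, e2, e]
    have e3 : C (algebraMap ℂ A (2 * c)) * (X * C (F k)) = X * C ((2 * c) • F k) := by
      rw [← mul_assoc, ← hX, mul_assoc, ← map_mul, Algebra.smul_def]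
    have e4 : C (algebraMap ℂ A c) * (C (P k) + X * C (F k)) = C (c • P k) + X * C (c • F k) := by
      rw [mul_add, ← mul_assoc _ X, ← hX (C _), mul_assoc, ← map_mul, ← map_mul, Algebra.smul_def,
        Algebra.smul_def]
    rw [e3, e4, map_add, map_sub, mul_sub, mul_smul, two_smul, map_add, mul_add]
    abel
  have hGe : ∀ k, G * e P F k - e P F k * G = 8 * X * ∑ j, C (algebraMap ℂ A (M j k)) * e P F j := by
    intro k
    have e1 : ∀ i j, C (algebraMap ℂ A (M j i)) * (e P F j * e P F i) * e P F k -
        e P F k * (C (algebraMap ℂ A (M j i)) * (e P F j * e P F i)) =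
        (if i = k then C (algebraMap ℂ A (M j i)) * (4 * X * e P F j) else 0) -
          (if j = k then C (algebraMap ℂ A (M j i)) * (4 * X * e P F i) else 0) := by
      intro i j
      have e2 : e P F j * e P F i * e P F k - e P F k * (e P F j * e P F i) =
          e P F j * (e P F i * e P F k + e P F k * e P F i) -
            (e P F j * e P F k + e P F k * e P F j) * e P F i := by
        noncomm_ring
      have h4 : ∀ f : A[X], 4 * X * f = f * (4 * X) := by
        intro f
        have h44 : (4 : A[X]) * f = f * 4 := (Nat.cast_commute 4 f).eq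
        rw [mul_assoc, hX, ← mul_assoc, h44, mul_assoc]
      have e3 : e P F k * (C (algebraMap ℂ A (M j i)) * (e P F j * e P F i)) =
          C (algebraMap ℂ A (M j i)) * (e P F k * (e P F j * e P F i)) := by
        rw [← mul_assoc, ← halg, mul_assoc]
      rw [e3, mul_assoc (C _), ← mul_sub, e2, ee h, ee h]
      by_cases hik : i = k
      · by_cases hjk : j = k
        · rw [if_pos hik, if_pos hjk, if_pos hik, if_pos hjk, mul_sub, h4 (e P F j)]
        · rw [if_pos hik, if_neg hjk, if_pos hik, if_neg hjk, zero_mul, sub_zero, sub_zero, h4 (e P F j)]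
      · by_cases hjk : j = k
        · rw [if_neg hik, if_pos hjk, if_neg hik, if_pos hjk, mul_zero, zero_sub, zero_sub, mul_neg]
        · rw [if_neg hik, if_neg hjk, if_neg hik, if_neg hjk, mul_zero, zero_mul, sub_zero, mul_zero]
    have e5 : G * e P F k - e P F k * G = ∑ i, ∑ j, (C (algebraMap ℂ A (M j i)) * (e P F j * e P F i) *
        e P F k - e P F k * (C (algebraMap ℂ A (M j i)) * (e P F j * e P F i))) := by
      simp only [G, Finset.sum_mul, Finset.mul_sum, Finset.sum_sub_distrib]
    rw [e5]
    simp only [e1, Finset.sum_sub_distrib]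
    have e6 : ∑ i, ∑ j, (if i = k then C (algebraMap ℂ A (M j i)) * (4 * X * e P F j) else 0) =
        ∑ j, C (algebraMap ℂ A (M j k)) * (4 * X * e P F j) := by
      rw [Finset.sum_eq_single k]
      · simp
      · intro i _ hik; simp [hik]
      · intro h; exact absurd (Finset.mem_univ k) h
    have e7 : ∑ i, ∑ j, (if j = k then C (algebraMap ℂ A (M j i)) * (4 * X * e P F i) else 0) =
        -∑ j, C (algebraMap ℂ A (M j k)) * (4 * X * e P F j) := by
      rw [← Finset.sum_neg_distrib]
      refine Finset.sum_congr rfl fun i _ => ?_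
      rw [Finset.sum_eq_single k]
      · rw [if_pos rfl, hM, map_neg, map_neg, neg_mul]
      · intro j _ hjk; rw [if_neg hjk]
      · intro h; exact absurd (Finset.mem_univ k) h
    rw [e6, e7, sub_neg_eq_add, ← Finset.sum_add_distrib, Finset.mul_sum]
    refine Finset.sum_congr rfl fun j _ => ?_
    have e8 : (8 : A[X]) * X * (C (algebraMap ℂ A (M j k)) * e P F j) =
        C (algebraMap ℂ A (M j k)) * (8 * X * e P F j) := by
      rw [← mul_assoc, ← mul_assoc _ (8 * X), halg _ (8 * X)]
    rw [e8, ← mul_add, ← add_mul, ← add_mul]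
    norm_num
  have hD2e : ∀ k, D2 (e P F k) = (8 * X * C (algebraMap ℂ A c)) * e P F k := by
    intro k
    simp only [D2, hDe, hGe]
    rw [mul_add, add_sub_cancel_left]
    simp only [mul_assoc]
  have hGω : G * ω - ω * G = 0 := by
    rw [sub_eq_zero]
    simp only [G, Finset.sum_mul, Finset.mul_sum]
    refine Finset.sum_congr rfl fun i _ => Finset.sum_congr rfl fun j _ => ?_
    rw [mul_assoc, quad_comm h, ← mul_assoc, halg, mul_assoc]
  have h1 := leib_list D2 hD2 (8 * X * C (algebraMap ℂ A c))
    (fun x => by
      rw [← mul_assoc x, ← mul_assoc x, ← h8 x, mul_assoc 8 x X, ← hX x, mul_assoc (8 * X), halg]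
      simp only [mul_assoc])
    ((List.finRange m).map (e P F)) (by
      intro x hx
      obtain ⟨k, -, rfl⟩ := List.mem_map.1 hx
      exact hD2e k)
  rw [List.length_map, List.length_finRange] at h1
  change D2 ω = (m : A[X]) * (8 * X * C (algebraMap ℂ A c) * ω) at h1
  have h2 : 8 * X * D1 ω = 8 * X * ((m : A[X]) * (C (algebraMap ℂ A c) * ω)) := by
    have h3 : D2 ω = 8 * X * D1 ω - (G * ω - ω * G) := rfl
    rw [hGω, sub_zero] at h3
    rw [← h3, h1]
    have h4 : ∀ f : A[X], (m : A[X]) * f = f * m := fun f => (Nat.cast_commute m f).eq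
    rw [← mul_assoc (8 * X) (m : A[X]), ← h4 (8 * X)]
    simp only [mul_assoc]
  have h3 : D1 ω = (m : A[X]) * (C (algebraMap ℂ A c) * ω) := by
    rw [mul_assoc, mul_assoc] at h2
    apply X_cancel
    have h5 : ∀ f : A[X], (8 : A[X]) * f = (8 : ℂ) • f := by
      intro f
      rw [Algebra.smul_def]
      congr 1
      rw [map_ofNat]
    rw [h5, h5] at h2
    have h6 := congrArg (fun f : A[X] => (8 : ℂ)⁻¹ • f) h2
    simpa [smul_smul] using h6
  have h4 := congrArg (fun f : A[X] => f.coeff k) h3
  have h5 : (D1 ω).coeff k = Z * ω.coeff k - ω.coeff k * Z + (2 * c * k) • ω.coeff k := by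
    change (C Z * ω - ω * C Z + C (algebraMap ℂ A (2 * c)) * (X * derivative ω)).coeff k = _
    rw [coeff_add, coeff_sub, coeff_C_mul, coeff_mul_C, coeff_C_mul]
    congr 1
    rcases k with _ | k
    · simp
    · rw [coeff_X_mul, coeff_derivative, mul_smul, Algebra.smul_def]
      congr 1
      rw [← Nat.cast_add_one, ← (Nat.cast_commute (k + 1) (ω.coeff (k + 1))).eq, Nat.cast_smul_eq_nsmul,
        nsmul_eq_mul]
  have h6 : ((m : A[X]) * (C (algebraMap ℂ A c) * ω)).coeff k = (m * c : ℂ) • ω.coeff k := by
    rw [← C_eq_natCast, coeff_C_mul, coeff_C_mul, mul_smul, Algebra.smul_def c, Nat.cast_smul_eq_nsmul,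
      nsmul_eq_mul]
  simp only [h5, h6] at h4
  have h7 : (c * (m - 2 * k)) • ω.coeff k = (m * c : ℂ) • ω.coeff k - (2 * c * k) • ω.coeff k := by
    rw [← sub_smul]
    congr 1
    ring
  rw [h7, ← h4, add_sub_cancel_right]

/-- The coefficients do not vanish. -/
theorem coeff_ne [Nontrivial A] (h : Dat P F) : ∀ (l : List (Fin m)), l.Nodup → ∀ k ≤ l.length,
    (W P F l).coeff k ≠ 0 := by
  have two_ne : ∀ y : A, (2 : A) * y = 0 → y = 0 := by
    intro y hy
    have h1 : (2 : ℂ) • y = 0 := by
      rw [Algebra.smul_def, map_ofNat]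
      exact hy
    have h2 := congrArg (fun z : A => (2 : ℂ)⁻¹ • z) h1
    simpa [smul_smul] using h2
  intro l
  induction l with
  | nil =>
    intro _ k hk
    have : k = 0 := by simpa using hk
    rw [this, W_nil, coeff_one_zero]
    exact one_ne_zero
  | cons i l ih =>
    intro hl k hk hz
    obtain ⟨hil, hl'⟩ := List.nodup_cons.1 hl
    have hX : ∀ p : A[X], X * p = p * X := fun p => (commute_X p).eq
    -- anticommutation with a list
    have hanti : ∀ (a : A), (∀ j, j ≠ i → C a * e P F j = -(e P F j * C a)) → ∀ l' : List (Fin m), i ∉ l' →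
        C a * W P F l' = (-1) ^ l'.length * (W P F l' * C a) := by
      intro a ha l'
      induction l' with
      | nil => intro _; simp [W_nil]
      | cons j l' ih' =>
        intro hj
        rw [W_cons, ← mul_assoc, ha j (fun hji => hj (by simp [hji])), neg_mul, mul_assoc,
          ih' (fun hh => hj (by simp [hh])), ← mul_assoc (e P F j),
          ((Commute.neg_one_left (e P F j)).pow_left _).eq.symm, List.length_cons, pow_succ]
        simp only [mul_assoc, mul_neg, neg_mul, one_mul]
    have key : ∀ (a : A), (∀ j, j ≠ i → C a * e P F j = -(e P F j * C a)) →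
        (C a * e P F i + e P F i * C a) * W P F l =
          C a * W P F (i :: l) + (-1) ^ l.length * (W P F (i :: l) * C a) := by
      intro a ha
      have h1 := hanti a ha l hil
      rw [W_cons, add_mul, mul_assoc, mul_assoc, h1, ← mul_assoc (e P F i),
        ((Commute.neg_one_left (e P F i)).pow_left _).eq.symm]
      simp only [mul_assoc]
    have hzero : ∀ (a : A), (∀ j, j ≠ i → C a * e P F j = -(e P F j * C a)) →
        ((C a * e P F i + e P F i * C a) * W P F l).coeff k = 0 := by
      intro a ha
      rw [key a ha, coeff_add, coeff_C_mul, hz, mul_zero, zero_add]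
      have h2 : ((-1 : A[X]) ^ l.length * (W P F (i :: l) * C a)) =
          C ((-1 : A) ^ l.length) * (W P F (i :: l) * C a) := by
        rw [map_pow, map_neg, map_one]
      rw [h2, coeff_C_mul, coeff_mul_C, hz, zero_mul, mul_zero]
    have eF : ∀ j, C (F i) * e P F j + e P F j * C (F i) = if i = j then 2 else 0 := by
      intro j
      have h1 : C (F i) * e P F j + e P F j * C (F i) = C (P j * F i + F i * P j) +
          X * C (F i * F j + F j * F i) := by
        simp only [e, add_mul, mul_add, map_add, map_mul]
        rw [← mul_assoc (C (F i)) X, ← hX (C (F i))]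
        simp only [mul_assoc]
        abel
      rw [h1, h.pf, h.ff, map_zero, mul_zero, add_zero]
      by_cases hij : j = i
      · rw [if_pos hij, if_pos hij.symm]
        rw [show (2 : A) = ((2 : ℕ) : A) by norm_num, map_natCast]
        norm_num
      · rw [if_neg hij, if_neg (Ne.symm hij), map_zero]
    have eP : ∀ j, C (P i) * e P F j + e P F j * C (P i) = if i = j then X * 2 else 0 := by
      intro j
      have h1 : C (P i) * e P F j + e P F j * C (P i) = C (P i * P j + P j * P i) +
          X * C (P i * F j + F j * P i) := by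
        simp only [e, add_mul, mul_add, map_add, map_mul]
        rw [← mul_assoc (C (P i)) X, ← hX (C (P i))]
        simp only [mul_assoc]
        abel
      rw [h1, h.pf, h.pp, map_zero, zero_add]
      by_cases hij : i = j
      · rw [if_pos hij, if_pos hij]
        rw [show (2 : A) = ((2 : ℕ) : A) by norm_num, map_natCast]
        norm_num
      · rw [if_neg hij, if_neg hij, map_zero, mul_zero]
    rcases k with _ | k
    · have h1 := hzero (F i) (fun j hj => by
        have := eF j
        rw [if_neg (Ne.symm hj)] at this
        exact eq_neg_of_add_eq_zero_left this)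
      rw [eF, if_pos rfl] at h1
      have h2 : ((2 : A[X]) * W P F l).coeff 0 = 2 * (W P F l).coeff 0 := by
        rw [show (2 : A[X]) = C ((2 : ℕ) : A) by rw [map_natCast]; norm_num, coeff_C_mul]
        norm_num
      rw [h2] at h1
      exact ih hl' 0 (Nat.zero_le _) (two_ne _ h1)
    · have h1 := hzero (P i) (fun j hj => by
        have := eP j
        rw [if_neg (Ne.symm hj)] at this
        exact eq_neg_of_add_eq_zero_left this)
      rw [eP, if_pos rfl, mul_assoc, coeff_X_mul] at h1
      have h2 : ((2 : A[X]) * W P F l).coeff k = 2 * (W P F l).coeff k := by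
        rw [show (2 : A[X]) = C ((2 : ℕ) : A) by rw [map_natCast]; norm_num, coeff_C_mul]
        norm_num
      rw [h2] at h1
      refine ih hl' k ?_ (two_ne _ h1)
      rw [List.length_cons] at hk
      omega

omit [Algebra ℂ A] in
/-- The double commutator with a rank one element. -/
theorem double_comm (E : A) (i : Fin m)
    (hP : ∀ k, E * P k - P k * E = if k = i then P k else 0)
    (hF : ∀ k, E * F k - F k * E = if k = i then -F k else 0) (k : ℕ) :
    E * (E * (W P F (List.finRange m)).coeff k - (W P F (List.finRange m)).coeff k * E) -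
      (E * (W P F (List.finRange m)).coeff k - (W P F (List.finRange m)).coeff k * E) * E =
      (W P F (List.finRange m)).coeff k := by
  have hX : ∀ p : A[X], X * p = p * X := fun p => (commute_X p).eq
  have hD : ∀ x y : A[X], C E * (x * y) - x * y * C E = (C E * x - x * C E) * y + x * (C E * y - y * C E) := by
    intro x y
    noncomm_ring
  have he : ∀ k, C E * e P F k - e P F k * C E = C (E * P k - P k * E) + X * C (E * F k - F k * E) := by
    intro k
    simp only [e, mul_add, add_mul, map_sub, map_mul, mul_sub]
    rw [← mul_assoc (C E) X, ← hX (C E)]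
    simp only [mul_assoc]
    abel
  have he0 : ∀ k, k ≠ i → C E * e P F k - e P F k * C E = 0 := by
    intro k hk
    rw [he, hP, hF, if_neg hk, if_neg hk, map_zero, mul_zero, add_zero]
  have he1 : C E * (C E * e P F i - e P F i * C E) - (C E * e P F i - e P F i * C E) * C E = e P F i := by
    have h1 := hP i
    have h2 := hF i
    rw [if_pos rfl] at h1 h2
    rw [he, h1, h2, map_neg, mul_neg, ← sub_eq_add_neg, e]
    have h3 : C E * (C (P i) - X * C (F i)) - (C (P i) - X * C (F i)) * C E =
        C (E * P i - P i * E) - X * C (E * F i - F i * E) := by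
      simp only [mul_sub, sub_mul, map_sub, map_mul]
      rw [← mul_assoc (C E) X, ← hX (C E)]
      simp only [mul_assoc]
      abel
    rw [h3, h1, h2, map_neg, mul_neg, sub_neg_eq_add]
  have hW0 : ∀ l : List (Fin m), i ∉ l → C E * W P F l - W P F l * C E = 0 := by
    intro l
    induction l with
    | nil => intro _; simp [W_nil]
    | cons j l ih =>
      intro hi
      rw [W_cons, hD, he0 j (fun h => hi (by simp [h])), ih (fun h => hi (by simp [h])), zero_mul,
        mul_zero, add_zero]
  have hW : ∀ l : List (Fin m), l.Nodup → i ∈ l →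
      C E * (C E * W P F l - W P F l * C E) - (C E * W P F l - W P F l * C E) * C E = W P F l := by
    intro l
    induction l with
    | nil => intro _ h; exact absurd h (by simp)
    | cons j l ih =>
      intro hl hi
      obtain ⟨hjl, hl'⟩ := List.nodup_cons.1 hl
      by_cases hji : j = i
      · subst hji
        rw [W_cons, hD, hW0 l hjl, mul_zero, add_zero, hD, hW0 l hjl, mul_zero, add_zero, he1]
      · have hil : i ∈ l := by
          rcases List.mem_cons.1 hi with h | h
          · exact absurd h.symm hji
          · exact h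
        rw [W_cons, hD, he0 j hji, zero_mul, zero_add, hD, he0 j hji, zero_mul, zero_add, ih hl' hil]
  have h1 := congrArg (fun f : A[X] => f.coeff k) (hW _ (List.nodup_finRange m) (List.mem_finRange i))
  simpa only [coeff_sub, coeff_C_mul, coeff_mul_C] using h1

end C7A

end Pool.Agent.K3C
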