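import Pool.Agent.K3C.C5d
import Pool.Agent.K3C.C7a

/-!
# C7x: no symmetric isomorphism between conjugate eigenspaces compatible with the Lie algebra
-/

open scoped BigOperators
open Matrix

namespace Pool.Agent.K3C

open Pool.Agent.DRB Pool.Agent.K3D Pool.Agent.K3E C5X C5dX

noncomputable section

namespace C7X

/-- Orthonormal bases of nondegenerate symmetric complex forms. -/
theorem onb {V : Type} [AddCommGroup V] [Module ℂ V] [FiniteDimensional ℂ V]
    (B : LinearMap.BilinForm ℂ V) (hs : LinearMap.IsSymm B) (hnd : ∀ v, (∀ w, B v w = 0) → v = 0) :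
    ∃ b : Module.Basis (Fin (Module.finrank ℂ V)) ℂ V, ∀ i j, B (b i) (b j) = if i = j then 1 else 0 := by
  classical
  let : Invertible (2 : ℂ) := invertibleOfNonzero two_ne_zero
  obtain ⟨b, hb⟩ := LinearMap.BilinForm.exists_orthogonal_basis hs
  have horth : ∀ i j, i ≠ j → B (b i) (b j) = 0 := fun i j hij => hb hij
  have hne : ∀ i, B (b i) (b i) ≠ 0 := by
    intro i hi
    apply b.ne_zero i
    apply hnd
    have h0 : B (b i) = 0 := b.ext fun j => by
      by_cases hij : i = j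
      · subst hij
        rw [hi, LinearMap.zero_apply]
      · rw [horth i j hij, LinearMap.zero_apply]
    intro w
    rw [h0, LinearMap.zero_apply]
  have h1 : ∀ i, ∃ c : ℂ, c ^ 2 = (B (b i) (b i))⁻¹ := fun i =>
    IsAlgClosed.exists_pow_nat_eq _ (by norm_num)
  choose c hc using h1
  have hc0 : ∀ i, c i ≠ 0 := by
    intro i hi
    have h2 := hc i
    rw [hi] at h2
    exact inv_ne_zero (hne i) (by rw [← h2]; norm_num)
  refine ⟨b.isUnitSMul (w := c) fun i => isUnit_iff_ne_zero.2 (hc0 i), fun i j => ?_⟩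
  rw [Module.Basis.isUnitSMul_apply, Module.Basis.isUnitSMul_apply, map_smul, map_smul,
    LinearMap.smul_apply, smul_eq_mul, smul_eq_mul]
  by_cases hij : i = j
  · subst hij
    rw [if_pos rfl, ← mul_assoc, ← pow_two, hc, inv_mul_cancel₀ (hne i)]
  · rw [if_neg hij, horth i j hij, mul_zero, mul_zero]

variable {g n m : ℕ} {A : AbVar g} (K : KSC A n m)

theorem conj_root (z : ℂ) (hz : Polynomial.aeval z K.P = 0) :
    Polynomial.aeval ((starRingEnd ℂ) z) K.P = 0 := by
  have h := Polynomial.aeval_algHom_apply (Complex.conjAe.toAlgHom.restrictScalars ℚ) z K.P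
  rw [hz, map_zero] at h
  exact h

/-- An orthonormal basis for the form `B(v, φ w)`. -/
theorem exists_basis (h5l : Stmt_C5l) (hm : 1 ≤ m) (z : ℂ) (hz : Polynomial.aeval z K.P = 0)
    (φ : (Fin n → ℂ) →ₗ[ℂ] (Fin n → ℂ)) (hφ1 : ∀ v ∈ K.Tl z, φ v ∈ K.Tl ((starRingEnd ℂ) z))
    (hφ2 : ∀ v ∈ K.Tl z, φ v = 0 → v = 0)
    (hφ3 : ∀ v ∈ K.Tl z, ∀ w ∈ K.Tl z, K.bil v (φ w) = K.bil w (φ v)) :
    ∃ b : Module.Basis (Fin m) ℂ (K.Tl z), ∀ i j, K.bil (b i) (φ (b j)) = if i = j then 1 else 0 := by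
  classical
  obtain ⟨hdim, -, -, hdual, -⟩ := h5l g A n m K hm
  let B : LinearMap.BilinForm ℂ (K.Tl z) := (bf K).compl₁₂ (K.Tl z).subtype (φ ∘ₗ (K.Tl z).subtype)
  have hB : ∀ v w : K.Tl z, B v w = K.bil v (φ w) := fun v w => rfl
  have hs : LinearMap.IsSymm B := ⟨fun x y => by
    rw [RingHom.id_apply, hB, hB]
    exact hφ3 _ x.2 _ y.2⟩
  -- surjectivity of `φ`
  let ψ : K.Tl z →ₗ[ℂ] K.Tl ((starRingEnd ℂ) z) :=
    (φ ∘ₗ (K.Tl z).subtype).codRestrict _ fun v => hφ1 _ v.2
  have hinj : Function.Injective ψ := by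
    rw [← LinearMap.ker_eq_bot, LinearMap.ker_eq_bot']
    intro v hv
    apply Subtype.ext
    exact hφ2 _ v.2 (congrArg Subtype.val hv)
  have hsurj : Function.Surjective ψ := by
    refine (LinearMap.injective_iff_surjective_of_finrank_eq_finrank ?_).1 hinj
    rw [hdim z hz, hdim _ (conj_root K z hz)]
  obtain ⟨b, hb⟩ := onb B hs (by
    intro v hv
    apply Subtype.ext
    refine hdual z hz _ v.2 fun w hw => ?_
    obtain ⟨w', hw'⟩ := hsurj ⟨w, hw⟩
    have h1 := hv w'
    rw [hB] at h1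
    have h2 : φ w' = w := congrArg Subtype.val hw'
    rw [← h2]
    exact h1)
  have hd := hdim z hz
  refine ⟨b.reindex (finCongr hd), fun i j => ?_⟩
  have h1 := hb ((finCongr hd).symm i) ((finCongr hd).symm j)
  rw [hB] at h1
  rw [Module.Basis.reindex_apply, Module.Basis.reindex_apply, h1]
  simp only [EmbeddingLike.apply_eq_iff_eq]

end C7X

open C7X in
theorem C7x_proof (hq : DRB.Stmt_DescQ) (h2c : Stmt_K2c) (h2d : Stmt_C2d) (h4 : Stmt_K4) (h5v : Stmt_C5v)
    (h5l : Stmt_C5l) : Stmt_C7x := by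
  classical
  intro g A n m K hm heven z hz φ hφ1 hφ2 hφ3 hcon
  obtain ⟨b, hb⟩ := exists_basis K h5l hm z hz φ hφ1 hφ2 hφ3
  obtain ⟨hdim, htop, horth, hdual, hrk, hpres, -⟩ := h5l g A n m K hm
  have hne1 : z ≠ (starRingEnd ℂ) z := by
    intro h
    have h1 := (K.cm z hz).1
    have h2 := congrArg Complex.im h
    rw [Complex.conj_im] at h2
    exact h1 (by linarith)
  have hzz : (starRingEnd ℂ) z ≠ (starRingEnd ℂ) ((starRingEnd ℂ) z) := by
    rw [Complex.conj_conj]
    exact hne1.symm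
  have hiso : ∀ v ∈ K.Tl z, ∀ w ∈ K.Tl z, K.bil v w = 0 := horth z z hz hne1
  have hiso' : ∀ v ∈ K.Tl ((starRingEnd ℂ) z), ∀ w ∈ K.Tl ((starRingEnd ℂ) z), K.bil v w = 0 :=
    horth _ _ (conj_root K z hz) hzz
  have hr := rel K
  have hb' : ∀ i j, K.bil (φ (b i)) (b j) = if i = j then 1 else 0 := by
    intro i j
    rw [bil_comm, hb]
    simp only [eq_comm]
  have hdat : C7A.Dat (fun i => K.cl (b i : Fin n → ℂ)) (fun i => K.cl (φ (b i))) := by
    refine ⟨fun i j => ?_, fun i j => ?_, fun i j => ?_⟩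
    · rw [hr, hiso _ (b i).2 _ (b j).2, mul_zero, zero_smul]
    · rw [hr, hiso' _ (hφ1 _ (b i).2) _ (hφ1 _ (b j).2), mul_zero, zero_smul]
    · rw [hr, hb]
      by_cases hij : i = j
      · rw [if_pos hij, if_pos hij, mul_one, two_smul, one_add_one_eq_two]
      · rw [if_neg hij, if_neg hij, mul_zero, zero_smul]
  obtain ⟨r, hr2⟩ := heven
  set W : Polynomial (Matrix (Idx g) (Idx g) ℂ) :=
    C7A.W (fun i => K.cl (b i : Fin n → ℂ)) (fun i => K.cl (φ (b i))) (List.finRange m) with hW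
  have hcomm : ∀ X ξ, InLie (Gam A) X ξ → X * W.coeff r = W.coeff r * X := by
    intro X ξ hX
    obtain ⟨a, ha⟩ := exists_act (K := K) h2d X ξ hX
    have hLT : K.LT a := ⟨X, ξ, hX, ha⟩
    have haS := lt_S (K := K) h2c h5v hm a hLT
    obtain ⟨c, hc⟩ := hcon a hLT
    let N : Matrix (Fin m) (Fin m) ℂ := fun j k =>
      b.repr ⟨a *ᵥ (b k : Fin n → ℂ), hpres a haS z _ (b k).2⟩ j
    have hN : ∀ k, a *ᵥ (b k : Fin n → ℂ) = ∑ j, N j k • (b j : Fin n → ℂ) := by
      intro k
      have h1 := b.sum_repr ⟨a *ᵥ (b k : Fin n → ℂ), hpres a haS z _ (b k).2⟩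
      have h2 := congrArg (K.Tl z).subtype h1
      rw [map_sum] at h2
      exact h2.symm
    have hNφ : ∀ k, a *ᵥ φ (b k) = ∑ j, N j k • φ (b j) + c • φ (b k) := by
      intro k
      rw [hc _ (b k).2, hN, map_sum]
      simp only [map_smul]
    have hsk : ∀ k l, N l k + (N k l + if k = l then c else 0) = 0 := by
      intro k l
      have h1 := S_skew K a haS (b k) (φ (b l))
      have e1 : K.bil (a *ᵥ (b k : Fin n → ℂ)) (φ (b l)) = N l k := by
        rw [hN, ← bf_apply, map_sum, LinearMap.sum_apply, Finset.sum_eq_single l]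
        · rw [map_smul, LinearMap.smul_apply, bf_apply, hb, if_pos rfl, smul_eq_mul, mul_one]
        · intro j _ hj
          rw [map_smul, LinearMap.smul_apply, bf_apply, hb, if_neg hj, smul_zero]
        · intro h; exact absurd (Finset.mem_univ _) h
      have e2 : K.bil (b k) (a *ᵥ φ (b l)) = N k l + if k = l then c else 0 := by
        rw [hNφ, bil_add_right, bil_smul_right, hb, ← bf_apply, map_sum, Finset.sum_eq_single k]
        · rw [map_smul, bf_apply, hb, if_pos rfl, smul_eq_mul, mul_one]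
          by_cases hkl : k = l
          · rw [if_pos hkl, if_pos hkl, mul_one]
          · rw [if_neg hkl, if_neg hkl, mul_zero]
        · intro j _ hj
          rw [map_smul, bf_apply, hb, if_neg (Ne.symm hj), smul_zero]
        · intro h; exact absurd (Finset.mem_univ _) h
      rw [e1, e2] at h1
      exact h1
    let M : Matrix (Fin m) (Fin m) ℂ := fun j k => N j k + if j = k then c / 2 else 0
    have hM : ∀ i j, M j i = -M i j := by
      intro i j
      have h1 := hsk i j
      show N j i + (if j = i then c / 2 else 0) = -(N i j + if i = j then c / 2 else 0)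
      by_cases hij : i = j
      · subst hij
        rw [if_pos rfl] at h1 ⊢
        linear_combination h1
      · rw [if_neg hij] at h1 ⊢
        rw [if_neg (Ne.symm hij)]
        linear_combination h1
    have hsumM : ∀ (f : Fin m → Matrix (Idx g) (Idx g) ℂ) (k : Fin m),
        ∑ j, M j k • f j = ∑ j, N j k • f j + (c / 2) • f k := by
      intro f k
      show ∑ j, (N j k + if j = k then c / 2 else 0) • f j = _
      simp only [add_smul, Finset.sum_add_distrib, ite_smul, zero_smul, Finset.sum_ite_eq',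
        Finset.mem_univ, if_true]
    have hP : ∀ k, X * K.cl (b k : Fin n → ℂ) - K.cl (b k : Fin n → ℂ) * X =
        ∑ j, M j k • K.cl (b j : Fin n → ℂ) + (-(c / 2)) • K.cl (b k : Fin n → ℂ) := by
      intro k
      rw [ha, hN, cl_sum, hsumM (fun j => K.cl (b j : Fin n → ℂ)), neg_smul, add_neg_cancel_right]
    have hF : ∀ k, X * K.cl (φ (b k)) - K.cl (φ (b k)) * X =
        ∑ j, M j k • K.cl (φ (b j)) - (-(c / 2)) • K.cl (φ (b k)) := by
      intro k
      rw [ha, hNφ, cl_add, cl_sum, cl_smul, hsumM (fun j => K.cl (φ (b j))), neg_smul, sub_neg_eq_add,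
        add_assoc, ← add_smul, add_halves]
    have h1 := C7A.comm_coeff hdat X M (-(c / 2)) hM hP hF r
    have h2 : ((m : ℂ) - 2 * r) = 0 := by
      rw [hr2]
      push_cast
      ring
    rw [h2, mul_zero, zero_smul] at h1
    exact sub_eq_zero.1 h1
  have hspan := h4 g A (W.coeff r) hcomm
  have hm0 : 0 < m := hm
  let i0 : Fin m := ⟨0, hm0⟩
  obtain ⟨a, haS, ha⟩ := hrk z hz _ (b i0).2 _ (hφ1 _ (b i0).2)
  have hZ := Z_span K hq _ hspan a haS
  have hl := lift K a (S_skew K a haS)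
  have hE1 : ∀ k, K.Z a * K.cl (b k : Fin n → ℂ) - K.cl (b k : Fin n → ℂ) * K.Z a =
      if k = i0 then K.cl (b k : Fin n → ℂ) else 0 := by
    intro k
    rw [hl, ha, hb', hiso _ (b i0).2 _ (b k).2, zero_smul, sub_zero]
    by_cases hk : k = i0
    · rw [if_pos hk, if_pos hk.symm, one_smul, hk]
    · rw [if_neg hk, if_neg (Ne.symm hk), zero_smul, cl_zero]
  have hE2 : ∀ k, K.Z a * K.cl (φ (b k)) - K.cl (φ (b k)) * K.Z a =
      if k = i0 then -K.cl (φ (b k)) else 0 := by
    intro k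
    rw [hl, ha, hb, hiso' _ (hφ1 _ (b i0).2) _ (hφ1 _ (b k).2), zero_smul, zero_sub]
    by_cases hk : k = i0
    · rw [if_pos hk, if_pos hk.symm, one_smul, hk, ← neg_one_smul ℂ (φ _), cl_smul, neg_one_smul]
    · rw [if_neg hk, if_neg (Ne.symm hk), zero_smul, neg_zero, cl_zero]
  have hdc := C7A.double_comm (P := fun i => K.cl (b i : Fin n → ℂ)) (F := fun i => K.cl (φ (b i)))
    (K.Z a) i0 hE1 hE2 r
  rw [← hW, hZ, sub_self, mul_zero, zero_mul, sub_self] at hdc
  have : Nonempty (Idx g) := ⟨Sum.inl ⟨0, K.pos⟩⟩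
  refine C7A.coeff_ne hdat (List.finRange m) (List.nodup_finRange m) r ?_ hdc.symm
  rw [List.length_finRange]
  omega

end

end Pool.Agent.K3C
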