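import Pool.Agent.K3E.Defs

/-!
# De Rham-Betti conjecture: Kuga-Satake abelian varieties and K3 surfaces, CM fields

`KSC A n m`: the abelian variety `A` is of Kuga-Satake type for a quadratic space `T` of dimension `n` over the
rational numbers with multiplication by a CM field `E`, `dim_E T = m`; the form on `T` has signature
`(2, n - 2)` up to sign, and its positive part lies in one place of `E`.
-/

open scoped BigOperators
open Matrix

namespace Pool.Agent.K3C

open Pool.Agent.DRB Pool.Agent.K3D Pool.Agent.K3E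

noncomputable section

/-- A Kuga-Satake structure with multiplication by a CM field on the abelian variety `A`. -/
structure KSC {g : ℕ} (A : AbVar g) (n m : ℕ) where
  pos : 0 < g
  /-- an orthogonal basis of `T`, acting on `H_1(A, ℚ)` -/
  t : Fin n → Matrix (Idx g) (Idx g) ℚ
  /-- the values of the quadratic form of `T` on the basis -/
  q : Fin n → ℚ
  sq : ∀ i, t i * t i = q i • (1 : Matrix (Idx g) (Idx g) ℚ)
  anti : ∀ i j, i ≠ j → t i * t j = -(t j * t i)
  q_ne : ∀ i, q i ≠ 0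
  /-- a generator of the field `E`, acting on `T` -/
  th : Matrix (Fin n) (Fin n) ℚ
  /-- the complex conjugate of the generator, as a polynomial in the generator -/
  C : Polynomial ℚ
  /-- the adjoint of an element of `E` is its complex conjugate -/
  adj : thᵀ * Matrix.diagonal q = Matrix.diagonal q * Polynomial.aeval th C
  /-- the minimal polynomial of the generator of `E` -/
  P : Polynomial ℚ
  irr : Irreducible P
  root : Polynomial.aeval th P = 0
  /-- `E` is a CM field -/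
  cm : ∀ z : ℂ, Polynomial.aeval z P = 0 → z.im ≠ 0 ∧ Polynomial.aeval z C = (starRingEnd ℂ) z
  /-- the dimension of `T` over `E` is `m` -/
  dim : n = m * P.natDegree
  /-- the place where the form is indefinite -/
  lam : ℂ
  lam_root : Polynomial.aeval lam P = 0
  /-- the signature is `(2, n - 2)` up to sign, and the form is definite at the other places -/
  sig : ((∀ i, 0 < q i ↔ (i : ℕ) < 2) ∧ ∀ v : Fin n → ℝ, v ≠ 0 →
      (∀ w : Fin n → ℂ, (th.map (fun x => (x : ℂ))) *ᵥ w = lam • w →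
        ∑ i, (q i : ℂ) * (v i : ℂ) * w i = 0) → ∑ i, (q i : ℝ) * v i * v i < 0) ∨
    ((∀ i, q i < 0 ↔ (i : ℕ) < 2) ∧ ∀ v : Fin n → ℝ, v ≠ 0 →
      (∀ w : Fin n → ℂ, (th.map (fun x => (x : ℂ))) *ᵥ w = lam • w →
        ∑ i, (q i : ℂ) * (v i : ℂ) * w i = 0) → 0 < ∑ i, (q i : ℝ) * v i * v i)
  /-- the commutant of `End(A) ⊗ ℚ` is generated by the Lie algebra `u_E(T)` -/
  comm : ∀ X : Matrix (Idx g) (Idx g) ℚ, (∀ α, A.IsEnd α → X * α = α * X) ↔
    X ∈ Algebra.adjoin ℚ {Y | ∃ a : Matrix (Fin n) (Fin n) ℚ,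
      aᵀ * Matrix.diagonal q + Matrix.diagonal q * a = 0 ∧ a * th = th * a ∧ Y = zop t q a}
  /-- `T` is a de Rham-Betti subobject of `End(H_1(A))` -/
  drb : ∀ i, A.per * AbVar.toC (t i) * A.per⁻¹ ∈ Submodule.span ℂ
    {Y : Matrix (Idx g) (Idx g) ℂ | (∀ r s, IsAlgebraic ℚ (Y r s)) ∧
      A.per⁻¹ * Y * A.per ∈ Submodule.span ℂ (Set.range fun j => AbVar.toC (t j))}
  /-- `T` is a sub-Hodge structure of `End(H_1(A))` -/
  hdg : ∀ (z : ℂˣ) (x : GL (Idx g) ℂ), A.IsMu z x → ∀ i,
    x.val * AbVar.toC (t i) * (x⁻¹).val ∈ Submodule.span ℂ (Set.range fun j => AbVar.toC (t j))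

namespace KSC

variable {g n m : ℕ} {A : AbVar g} (K : KSC A n m)

/-- The complexification of `T`. -/
def TC : Submodule ℂ (Matrix (Idx g) (Idx g) ℂ) :=
  Submodule.span ℂ (Set.range fun j => AbVar.toC (K.t j))

/-- The Clifford map. -/
def cl (v : Fin n → ℂ) : Matrix (Idx g) (Idx g) ℂ := ∑ j, v j • AbVar.toC (K.t j)

/-- The bilinear form of `T`. -/
def bil (v w : Fin n → ℂ) : ℂ := ∑ j, (K.q j : ℂ) * v j * w j

/-- The action of the generator of `E` on the complexification of `T`. -/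
def thC : Matrix (Fin n) (Fin n) ℂ := K.th.map (fun x => (x : ℂ))

/-- The Lie algebra `u_E(T)` over the complex numbers. -/
def S : Submodule ℂ (Matrix (Fin n) (Fin n) ℂ) where
  carrier := {a | aᵀ * Matrix.diagonal (fun i => (K.q i : ℂ)) + Matrix.diagonal (fun i => (K.q i : ℂ)) * a = 0 ∧
    a * K.thC = K.thC * a}
  add_mem' := by
    rintro a b ⟨h1, h2⟩ ⟨h3, h4⟩
    refine ⟨?_, ?_⟩
    · rw [Matrix.transpose_add, add_mul, mul_add, add_add_add_comm, h1, h3, add_zero]
    · rw [add_mul, mul_add, h2, h4]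
  zero_mem' := by
    refine ⟨?_, ?_⟩ <;> simp
  smul_mem' := by
    rintro c a ⟨h1, h2⟩
    refine ⟨?_, ?_⟩
    · rw [Matrix.transpose_smul, Matrix.smul_mul, Matrix.mul_smul, ← smul_add, h1, smul_zero]
    · rw [Matrix.smul_mul, Matrix.mul_smul, h2]

/-- The element of the even Clifford algebra attached to an endomorphism of `T`. -/
def Z (a : Matrix (Fin n) (Fin n) ℂ) : Matrix (Idx g) (Idx g) ℂ :=
  ∑ i, ((4 * (K.q i : ℂ))⁻¹) • (K.cl (a *ᵥ Pi.single i 1) * K.cl (Pi.single i 1))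

/-- The eigenspace of `E`. -/
def Tl (z : ℂ) : Submodule ℂ (Fin n → ℂ) where
  carrier := {v | K.thC *ᵥ v = z • v}
  add_mem' := by
    intro a b h1 h2
    rw [Set.mem_ofPred_eq] at *
    rw [Matrix.mulVec_add, h1, h2, smul_add]
  zero_mem' := by
    rw [Set.mem_ofPred_eq, Matrix.mulVec_zero, smul_zero]
  smul_mem' := by
    intro c a h
    rw [Set.mem_ofPred_eq] at *
    rw [Matrix.mulVec_smul, h, smul_comm]

/-- The condition on the CM field: a nonzero group of odd functions on the set of complex embeddings, stable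
under the automorphisms of `ℂ`, contains a nonzero function with values in `{0, c, -c}`. -/
def Trit : Prop :=
  ∀ R : AddSubgroup (ℂ → ℤ),
    (∀ f ∈ R, ∀ z, Polynomial.aeval z K.P ≠ 0 → f z = 0) →
    (∀ f ∈ R, ∀ z, f ((starRingEnd ℂ) z) = - f z) →
    (∀ σ : ℂ ≃ₐ[ℚ] ℂ, ∀ f ∈ R, (fun z => f (σ z)) ∈ R) →
    R ≠ ⊥ → ∃ f ∈ R, f ≠ 0 ∧ ∃ c : ℤ, ∀ z, f z = 0 ∨ f z = c ∨ f z = -c

end KSC

/-- The de Rham-Betti conjecture for Kuga-Satake varieties with multiplication by a CM field: de Rham-Betti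
subobjects of tensor spaces are sub-Hodge structures. -/
def MainC : Prop :=
  ∀ (g : ℕ) (A : AbVar g) (n m : ℕ) (K : KSC A n m), 1 ≤ m → (Even m ∨ m = 1) → K.Trit →
    ∀ (t : TData) (D : Submodule ℂ (TIdx t (Idx g) → ℂ)), IsDRB A t D → IsHodge A t D

end

end Pool.Agent.K3C
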