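import Pool.Agent.K3D.Stmts
import Pool.Agent.K3C.Defs

/-!
# De Rham-Betti conjecture for K3 surfaces, CM fields: exact statements of the modules
-/

open scoped BigOperators
open Matrix

namespace Pool.Agent.K3C

open Pool.Agent.DRB Pool.Agent.K3D Pool.Agent.K3E

noncomputable section

/-- The matrix `X` acts on `T` as `a`. -/
def KSC.Act {g n m : ℕ} {A : AbVar g} (K : KSC A n m) (X : Matrix (Idx g) (Idx g) ℂ)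
    (a : Matrix (Fin n) (Fin n) ℂ) : Prop :=
  ∀ v, X * K.cl v - K.cl v * X = K.cl (a *ᵥ v)

/-- `a` belongs to the image `L_T` of the Lie algebra in the endomorphisms of `T`. -/
def KSC.LT {g n m : ℕ} {A : AbVar g} (K : KSC A n m) (a : Matrix (Fin n) (Fin n) ℂ) : Prop :=
  ∃ (X : Matrix (Idx g) (Idx g) ℂ) (ξ : ℂ), InLie (Gam A) X ξ ∧ K.Act X a

/-- The subspace `W` of `T` is stable under the Lie algebra. -/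
def KSC.LStab {g n m : ℕ} {A : AbVar g} (K : KSC A n m) (W : Submodule ℂ (Fin n → ℂ)) : Prop :=
  ∀ X ξ, InLie (Gam A) X ξ → ∀ v ∈ W, ∃ w ∈ W, X * K.cl v - K.cl v * X = K.cl w

/-- C2D. The group and its Lie algebra preserve `T`. -/
def Stmt_C2d : Prop :=
  ∀ (g : ℕ) (A : AbVar g) (n m : ℕ) (K : KSC A n m),
    (∀ p ∈ Gam A, ∀ Y ∈ K.TC, p.1.val * Y * (p.1⁻¹).val ∈ K.TC) ∧
    (∀ X ξ, InLie (Gam A) X ξ → ∀ Y ∈ K.TC, X * Y - Y * X ∈ K.TC)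

/-! ## Clifford algebra -/

/-- C5A. The Clifford relations, the lift of skew maps, and scalars. -/
def Stmt_C5a : Prop :=
  ∀ (g : ℕ) (A : AbVar g) (n m : ℕ) (K : KSC A n m),
    (∀ v w, K.cl v * K.cl w + K.cl w * K.cl v = (2 * K.bil v w) • (1 : Matrix (Idx g) (Idx g) ℂ)) ∧
    (∀ v, K.cl v = 0 → v = 0) ∧
    (∀ a : Matrix (Fin n) (Fin n) ℂ, (∀ v w, K.bil (a *ᵥ v) w + K.bil v (a *ᵥ w) = 0) →
      ∀ v, K.Z a * K.cl v - K.cl v * K.Z a = K.cl (a *ᵥ v)) ∧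
    (∀ Y : Matrix (Idx g) (Idx g) ℂ, (∀ α, A.IsEnd α → Y * AbVar.toC α = AbVar.toC α * Y) →
      (∀ v, Y * K.cl v = K.cl v * Y) → ∃ c : ℂ, Y = c • 1) ∧
    (∀ Y ∈ Submodule.span ℂ {Z | ∃ α ∈ A.EndQ, Z = AbVar.toC α}, ∀ a ∈ K.S, Y * K.Z a = K.Z a * Y) ∧
    (∀ α, A.IsEnd α → ∀ a ∈ K.S, K.Z a * AbVar.toC α = AbVar.toC α * K.Z a)

/-- C5V. Matrices commuting with the endomorphisms and preserving `T` act `E`-linearly on `T`. -/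
def Stmt_C5v : Prop :=
  ∀ (g : ℕ) (A : AbVar g) (n m : ℕ) (K : KSC A n m), 1 ≤ m →
    (∀ (Y : Matrix (Idx g) (Idx g) ℂ) (a : Matrix (Fin n) (Fin n) ℂ),
      (∀ α, A.IsEnd α → Y * AbVar.toC α = AbVar.toC α * Y) → K.Act Y a → a ∈ K.S) ∧
    (∀ (x : GL (Idx g) ℂ) (b : Matrix (Fin n) (Fin n) ℂ),
      (∀ α, A.IsEnd α → x.val * AbVar.toC α = AbVar.toC α * x.val) →
      (∀ v, x.val * K.cl v * (x⁻¹).val = K.cl (b *ᵥ v)) → b * K.thC = K.thC * b)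

/-- C5L. Linear algebra of the eigenspaces of `E`. -/
def Stmt_C5l : Prop :=
  ∀ (g : ℕ) (A : AbVar g) (n m : ℕ) (K : KSC A n m), 1 ≤ m →
    -- (1) dimensions
    (∀ z : ℂ, Polynomial.aeval z K.P = 0 → Module.finrank ℂ (K.Tl z) = m) ∧
    -- (2) the eigenspaces generate
    (∀ v : Fin n → ℂ, v ∈ ⨆ z ∈ {z : ℂ | Polynomial.aeval z K.P = 0}, K.Tl z) ∧
    -- (3) orthogonality
    (∀ z z' : ℂ, Polynomial.aeval z K.P = 0 → z' ≠ (starRingEnd ℂ) z →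
      ∀ v ∈ K.Tl z, ∀ w ∈ K.Tl z', K.bil v w = 0) ∧
    -- (4) duality
    (∀ z : ℂ, Polynomial.aeval z K.P = 0 →
      ∀ v ∈ K.Tl z, (∀ w ∈ K.Tl ((starRingEnd ℂ) z), K.bil v w = 0) → v = 0) ∧
    -- (5) elements of rank two
    (∀ z : ℂ, Polynomial.aeval z K.P = 0 → ∀ x ∈ K.Tl z, ∀ y ∈ K.Tl ((starRingEnd ℂ) z),
      ∃ a ∈ K.S, ∀ v, a *ᵥ v = K.bil y v • x - K.bil x v • y) ∧
    -- (6) stability
    (∀ a ∈ K.S, ∀ z : ℂ, ∀ v ∈ K.Tl z, a *ᵥ v ∈ K.Tl z) ∧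
    -- (7) central elements
    (∀ z : ℂ, Polynomial.aeval z K.P = 0 → ∃ a ∈ K.S, (∀ b ∈ K.S, a * b = b * a) ∧
      (∀ v ∈ K.Tl z, a *ᵥ v = v) ∧ (∀ v ∈ K.Tl ((starRingEnd ℂ) z), a *ᵥ v = -v) ∧
      ∀ z' : ℂ, z' ≠ z → z' ≠ (starRingEnd ℂ) z → ∀ v ∈ K.Tl z', a *ᵥ v = 0) ∧
    -- (8) stable subspaces
    (∀ W : Submodule ℂ (Fin n → ℂ), (∀ a ∈ K.S, ∀ v ∈ W, a *ᵥ v ∈ W) →
      ∀ z : ℂ, Polynomial.aeval z K.P = 0 →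
        K.Tl z ≤ W ∨ ∀ w ∈ W, ∀ y ∈ K.Tl ((starRingEnd ℂ) z), K.bil y w = 0) ∧
    -- (9) rational stable subspaces
    (∀ W : Submodule ℂ (Fin n → ℂ), (∀ (σ : ℂ ≃ₐ[ℚ] ℂ), ∀ v ∈ W, (fun i => σ (v i)) ∈ W) →
      (∀ a ∈ K.S, ∀ v ∈ W, a *ᵥ v ∈ W) → W = ⊥ ∨ W = ⊤) ∧
    -- (10) the commutant of `S` consists of scalars on the eigenspaces
    (∀ b : Matrix (Fin n) (Fin n) ℂ, (∀ a ∈ K.S, b * a = a * b) →
      ∀ z : ℂ, Polynomial.aeval z K.P = 0 → ∃ c : ℂ, ∀ v ∈ K.Tl z, b *ᵥ v = c • v)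

/-- C5B. A rational subspace of `T` stable under the group is trivial. -/
def Stmt_C5b : Prop :=
  ∀ (g : ℕ) (A : AbVar g) (n m : ℕ) (K : KSC A n m), 1 ≤ m → ∀ W : Submodule ℂ (Fin n → ℂ),
    (∀ (σ : ℂ ≃ₐ[ℚ] ℂ), ∀ v ∈ W, (fun i => σ (v i)) ∈ W) →
    (∀ p ∈ Gam A, ∀ v ∈ W, ∃ w ∈ W, p.1.val * K.cl v * (p.1⁻¹).val = K.cl w) →
    W = ⊥ ∨ W = ⊤

/-- C5C. A nondegenerate subspace stable under the Lie algebra is stable under `u_E(T)`. -/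
def Stmt_C5c : Prop :=
  ∀ (g : ℕ) (A : AbVar g) (n m : ℕ) (K : KSC A n m), ∀ W : Submodule ℂ (Fin n → ℂ),
    K.LStab W → (∀ v ∈ W, (∀ w ∈ W, K.bil v w = 0) → v = 0) → ∀ a ∈ K.S, ∀ v ∈ W, a *ᵥ v ∈ W

/-- C5D. A subspace stable under the Lie algebra is stable under `u_E(T)`. -/
def Stmt_C5d : Prop :=
  ∀ (g : ℕ) (A : AbVar g) (n m : ℕ) (K : KSC A n m), 1 ≤ m → ∀ W : Submodule ℂ (Fin n → ℂ),
    K.LStab W → ∀ a ∈ K.S, ∀ v ∈ W, a *ᵥ v ∈ W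

/-- C7X. A symmetric isomorphism `φ` from `T_z` to `T_{z^c}` compatible with the Lie algebra up to scalars does
not exist if `m` is even. -/
def Stmt_C7x : Prop :=
  ∀ (g : ℕ) (A : AbVar g) (n m : ℕ) (K : KSC A n m), 1 ≤ m → Even m →
    ∀ z : ℂ, Polynomial.aeval z K.P = 0 → ∀ φ : (Fin n → ℂ) →ₗ[ℂ] (Fin n → ℂ),
      (∀ v ∈ K.Tl z, φ v ∈ K.Tl ((starRingEnd ℂ) z)) → (∀ v ∈ K.Tl z, φ v = 0 → v = 0) →
      (∀ v ∈ K.Tl z, ∀ w ∈ K.Tl z, K.bil v (φ w) = K.bil w (φ v)) →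
      ¬ ∀ a, K.LT a → ∃ c : ℂ, ∀ v ∈ K.Tl z, a *ᵥ (φ v) = φ (a *ᵥ v) + c • φ v

/-- The real Lie algebra acting on `T`. -/
def KSC.lie {g n m : ℕ} {A : AbVar g} (K : KSC A n m) (a : Matrix (Fin n) (Fin n) ℝ) : Prop :=
  K.LT (a.map Complex.ofReal)

/-- C8A. Products of exponentials of elements of `K.lie` have their hyperbolic logarithm in `K.lie`. -/
def Stmt_C8a : Prop :=
  ∀ (g : ℕ) (A : AbVar g) (n m : ℕ) (K : KSC A n m) (as : List (Matrix (Fin n) (Fin n) ℝ)),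
    (∀ a ∈ as, K.lie a) → ∃ h, K.lie h ∧ IsHypLog (as.map fun a => NormedSpace.exp a).prod h

/-- C8B. The Lie algebra contains the derived algebra of `u_E(T)` if `m` is even (or `m = 1`). -/
def Stmt_C8b : Prop :=
  ∀ (g : ℕ) (A : AbVar g) (n m : ℕ) (K : KSC A n m), 1 ≤ m → (Even m ∨ m = 1) →
    ∀ a ∈ K.S, ∀ b ∈ K.S, K.LT (a * b - b * a)

/-- C8R. The Lie algebra is closed under replicas of the elements which act as scalars on the eigenspaces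
of `E`. -/
def Stmt_C8r : Prop :=
  ∀ (g : ℕ) (A : AbVar g) (n m : ℕ) (K : KSC A n m), 1 ≤ m → ∀ (X : Matrix (Idx g) (Idx g) ℂ) (ξ : ℂ)
    (f : ℂ → ℂ), InLie (Gam A) X ξ →
    (∀ z : ℂ, Polynomial.aeval z K.P = 0 → ∀ v ∈ K.Tl z, X * K.cl v - K.cl v * X = f z • K.cl v) →
    ∀ φ : ℂ →ₗ[ℚ] ℂ, ∃ Y : Matrix (Idx g) (Idx g) ℂ, InLie (Gam A) Y (φ ξ) ∧
      ∀ z : ℂ, Polynomial.aeval z K.P = 0 → ∀ v ∈ K.Tl z,
        Y * K.cl v - K.cl v * Y = φ (f z) • K.cl v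

/-- C5W. Weight vectors in the Clifford algebra: products of the volume elements of the eigenspaces `T_z`. -/
def Stmt_C5w : Prop :=
  ∀ (g : ℕ) (A : AbVar g) (n m : ℕ) (K : KSC A n m), 1 ≤ m →
    ∃ τ : ℂ → (Matrix (Fin n) (Fin n) ℂ →ₗ[ℂ] ℂ),
      (∀ z : ℂ, Polynomial.aeval z K.P = 0 → ∀ a ∈ K.S, ∀ b ∈ K.S, τ z (a * b - b * a) = 0) ∧
      (∀ z : ℂ, Polynomial.aeval z K.P = 0 → ∀ a ∈ K.S, ∀ c : ℂ, (∀ v ∈ K.Tl z, a *ᵥ v = c • v) →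
        τ z a = m * c) ∧
      (∀ a ∈ K.S, (∀ z : ℂ, Polynomial.aeval z K.P = 0 → τ z a = 0) →
        a ∈ Submodule.span ℂ {c | ∃ b ∈ K.S, ∃ b' ∈ K.S, c = b * b' - b' * b}) ∧
      ∀ U : Finset ℂ, (∀ z ∈ U, Polynomial.aeval z K.P = 0 ∧ (starRingEnd ℂ) z ∉ U) →
        ∃ Ω : Matrix (Idx g) (Idx g) ℂ, Ω ≠ 0 ∧ ∀ (Y : Matrix (Idx g) (Idx g) ℂ), ∀ a ∈ K.S, K.Act Y a →
          Y * Ω - Ω * Y = (∑ z ∈ U, τ z a) • Ω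

/-- C8T. The torus: if the Lie algebra contains the derived algebra of `u_E(T)` it is everything. -/
def Stmt_C8t : Prop :=
  ∀ (g : ℕ) (A : AbVar g) (n m : ℕ) (K : KSC A n m), 1 ≤ m → K.Trit →
    (∀ a ∈ K.S, ∀ b ∈ K.S, K.LT (a * b - b * a)) → ∀ a ∈ K.S, K.LT a

/-- C9W. The weight. -/
def Stmt_C9w : Prop :=
  ∀ (g : ℕ) (A : AbVar g) (n m : ℕ) (K : KSC A n m), 1 ≤ m → (∀ a ∈ K.S, K.LT a) →
    InLie (Gam A) ((1 / 2 : ℂ) • (1 : Matrix (Idx g) (Idx g) ℂ)) 1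

/-- C9. The conclusion. -/
def Stmt_C9 : Prop := MainC

end

end Pool.Agent.K3C
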