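import Pool.Agent.K3D.K8a
import Pool.Agent.K3C.C5l

/-!
# C8R: replicas
-/

set_option autoImplicit false

open scoped BigOperators
open Matrix Polynomial

namespace Pool.Agent.K3C

open Pool.Agent.DRB Pool.Agent.K3D

noncomputable section

namespace C8R

/-- matrices with `X ω - ω X = c ω` -/
theorem exp_eig {ι : Type} [Fintype ι] [DecidableEq ι] {X ω : Matrix ι ι ℂ} {c : ℂ}
    (h : X * ω - ω * X = c • ω) :
    NormedSpace.exp X * ω = Complex.exp c • (ω * NormedSpace.exp X) := by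
  let C : (Unit → ℂ) →ₗ[ℂ] Matrix ι ι ℂ :=
    { toFun := fun v => v () • ω
      map_add' := by intro v w; rw [Pi.add_apply, add_smul]
      map_smul' := by intro a v; rw [Pi.smul_apply, smul_eq_mul, mul_smul, RingHom.id_apply] }
  have h1 := K8X.exp_intertwine C X (Matrix.diagonal fun _ : Unit => c) (by
    intro v
    simp only [C, LinearMap.coe_mk, AddHom.coe_mk, Matrix.mulVec_diagonal]
    rw [mul_smul_comm, smul_mul_assoc, ← smul_sub, h, smul_smul, mul_comm]) (fun _ => 1)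
  rw [Matrix.exp_diagonal] at h1
  simp only [C, LinearMap.coe_mk, AddHom.coe_mk, Matrix.mulVec_diagonal, one_smul, mul_one,
    smul_mul_assoc] at h1
  rw [h1]
  congr 1
  rw [Pi.exp_def, Complex.exp_eq_exp_ℂ]

/-- the logarithms of `x` on a matrix `ω` with `x ω x⁻¹ = β ω` -/
theorem log_eig {ι : Type} [Fintype ι] [DecidableEq ι] {x S : GL ι ℂ} {α : ι → ℂˣ}
    {N : Matrix ι ι ℂ} (hN : IsNilpotent N)
    (hc : Matrix.diagonal (fun i => (α i).val) * N = N * Matrix.diagonal (fun i => (α i).val))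
    (hx : x.val = S.val * Matrix.diagonal (fun i => (α i).val) * (1 + N) * (S⁻¹).val)
    (L : Additive ℂˣ →+ ℂ) {β : ℂˣ} {ω : Matrix ι ι ℂ} (h : x.val * ω = β.val • (ω * x.val)) :
    (S.val * Matrix.diagonal (fun i => L (Additive.ofMul (α i))) * (S⁻¹).val) * ω -
      ω * (S.val * Matrix.diagonal (fun i => L (Additive.ofMul (α i))) * (S⁻¹).val) =
      L (Additive.ofMul β) • ω := by
  set Dg : Matrix ι ι ℂ := Matrix.diagonal (fun i => (α i).val) with hDg
  set lg : Matrix ι ι ℂ := Matrix.diagonal (fun i => L (Additive.ofMul (α i))) with hlg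
  have hSS : (S⁻¹).val * S.val = 1 := by rw [← Units.val_mul]; simp
  have hSS' : S.val * (S⁻¹).val = 1 := by rw [← Units.val_mul]; simp
  set Y : Matrix ι ι ℂ := (S⁻¹).val * ω * S.val with hY
  have hω : ω = S.val * Y * (S⁻¹).val := by
    calc ω = (S.val * (S⁻¹).val) * ω * (S.val * (S⁻¹).val) := by rw [hSS', one_mul, mul_one]
      _ = _ := by rw [hY]; simp only [mul_assoc]
  have h1 : Dg * (1 + N) * Y = β.val • (Y * (Dg * (1 + N))) := by
    calc Dg * (1 + N) * Y = ((S⁻¹).val * S.val) * (Dg * (1 + N)) * ((S⁻¹).val * ω * S.val) := by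
          rw [hSS, one_mul, hY]
      _ = (S⁻¹).val * (S.val * Dg * (1 + N) * (S⁻¹).val * ω) * S.val := by simp only [mul_assoc]
      _ = (S⁻¹).val * (β.val • (ω * (S.val * Dg * (1 + N) * (S⁻¹).val))) * S.val := by
          rw [← hx, h]
      _ = β.val • ((S⁻¹).val * ω * S.val * (Dg * (1 + N)) * ((S⁻¹).val * S.val)) := by
          rw [mul_smul_comm, smul_mul_assoc]; simp only [mul_assoc]
      _ = _ := by rw [hSS, mul_one, hY]
  have h2 := K8X.diag_of_gen α N hN hc β.val Y 1 (by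
    rw [pow_one, LinearMap.sub_apply, LinearMap.smul_apply, K8X.Lm_apply, K8X.Rm_apply, ← hDg, h1,
      sub_self])
  have h3 : lg * Y - Y * lg = L (Additive.ofMul β) • Y := by
    ext i j
    rw [Matrix.sub_apply, hlg, Matrix.diagonal_mul, Matrix.mul_diagonal, Matrix.smul_apply,
      smul_eq_mul]
    by_cases hij : Y i j = 0
    · rw [hij]; ring
    · have h4 : α i = β * α j := Units.ext (h2 i j hij)
      rw [h4, ofMul_mul, map_add]
      ring
  calc (S.val * lg * (S⁻¹).val) * ω - ω * (S.val * lg * (S⁻¹).val)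
      = (S.val * lg * (S⁻¹).val) * (S.val * Y * (S⁻¹).val) -
        (S.val * Y * (S⁻¹).val) * (S.val * lg * (S⁻¹).val) := by rw [← hω]
    _ = S.val * lg * ((S⁻¹).val * S.val) * Y * (S⁻¹).val -
        S.val * Y * ((S⁻¹).val * S.val) * lg * (S⁻¹).val := by simp only [mul_assoc]
    _ = S.val * (lg * Y - Y * lg) * (S⁻¹).val := by
        rw [hSS, mul_one, mul_one, mul_sub, sub_mul]; simp only [mul_assoc]
    _ = _ := by rw [h3, mul_smul_comm, smul_mul_assoc, ← hω]

/-- a rational linear map vanishing on `2 π i` is an additive function of the exponential -/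
theorem psi_congr {ψ : ℂ →ₗ[ℚ] ℂ} (h : ψ (2 * Real.pi * Complex.I) = 0) {u v : ℂ}
    (huv : Complex.exp u = Complex.exp v) : ψ u = ψ v := by
  obtain ⟨n, hn⟩ := Complex.exp_eq_exp_iff_exists_int.1 huv
  have h1 : (n : ℂ) * (2 * Real.pi * Complex.I) = (n : ℚ) • (2 * Real.pi * Complex.I) := by
    rw [Algebra.smul_def]; simp
  rw [hn, map_add, h1, map_smul, h, smul_zero, add_zero]

/-- the additive function of the exponential -/
def Lf (ψ : ℂ →ₗ[ℚ] ℂ) (h : ψ (2 * Real.pi * Complex.I) = 0) : Additive ℂˣ →+ ℂ where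
  toFun y := ψ (Complex.log (Additive.toMul y).val)
  map_zero' := by simp
  map_add' := by
    intro x y
    rw [← map_add]
    apply psi_congr h
    rw [Complex.exp_add, toMul_add, Units.val_mul, Complex.exp_log, Complex.exp_log,
      Complex.exp_log]
    · exact Units.ne_zero _
    · exact Units.ne_zero _
    · exact mul_ne_zero (Units.ne_zero _) (Units.ne_zero _)

theorem Lf_exp (ψ : ℂ →ₗ[ℚ] ℂ) (h : ψ (2 * Real.pi * Complex.I) = 0) (u : ℂ) (y : ℂˣ)
    (hy : y.val = Complex.exp u) : Lf ψ h (Additive.ofMul y) = ψ u := by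
  change ψ (Complex.log y.val) = ψ u
  apply psi_congr h
  rw [Complex.exp_log (Units.ne_zero _), hy]

/-- scaling and correcting a rational linear map -/
theorem exists_scale (V : Submodule ℚ ℂ) (hV : V ≠ ⊤) (φ : ℂ →ₗ[ℚ] ℂ) :
    ∃ (s : ℂ) (ψ : ℂ →ₗ[ℚ] ℂ), ψ (2 * Real.pi * Complex.I) = 0 ∧ ∀ v ∈ V, ψ (s * v) = φ v := by
  obtain ⟨w, hw⟩ : ∃ w, w ∉ V := by
    by_contra hcon
    push Not at hcon
    exact hV (eq_top_iff.2 fun w _ => hcon w)
  have hw0 : w ≠ 0 := fun h => hw (h ▸ V.zero_mem)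
  obtain ⟨f, hf, hVf⟩ := Submodule.exists_le_ker_of_notMem hw
  have h2 : (2 * Real.pi * Complex.I : ℂ) ≠ 0 := Complex.two_pi_I_ne_zero
  let μ : ℂ →ₗ[ℚ] ℂ := LinearMap.mulLeft ℚ (w / (2 * Real.pi * Complex.I))
  let ψ₀ : ℂ →ₗ[ℚ] ℂ := φ - (LinearMap.toSpanSingleton ℚ ℂ (φ w)).comp ((f w)⁻¹ • f)
  refine ⟨2 * Real.pi * Complex.I / w, ψ₀.comp μ, ?_, fun v hv => ?_⟩
  · rw [LinearMap.comp_apply]
    have : μ (2 * Real.pi * Complex.I) = w := by
      rw [LinearMap.mulLeft_apply, div_mul_cancel₀ _ h2]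
    rw [this]
    simp only [ψ₀, LinearMap.sub_apply, LinearMap.comp_apply, LinearMap.smul_apply,
      LinearMap.toSpanSingleton_apply, smul_eq_mul, inv_mul_cancel₀ hf, one_smul, sub_self]
  · rw [LinearMap.comp_apply]
    have : μ (2 * Real.pi * Complex.I / w * v) = v := by
      rw [LinearMap.mulLeft_apply]
      field_simp
    rw [this]
    have h3 : f v = 0 := hVf hv
    simp only [ψ₀, LinearMap.sub_apply, LinearMap.comp_apply, LinearMap.smul_apply,
      LinearMap.toSpanSingleton_apply, h3, smul_zero, zero_smul, sub_zero]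

theorem span_ne_top {T : Set ℂ} (hT : T.Finite) : Submodule.span ℚ T ≠ ⊤ := by
  intro h
  have h1 : Module.Finite ℚ ℂ := ⟨⟨hT.toFinset, by rw [hT.coe_toFinset]; exact h⟩⟩
  have h2 := Module.rank_lt_aleph0 ℚ ℂ
  rw [Complex.rank_rat_complex] at h2
  exact absurd h2 (not_lt.2 Cardinal.aleph0_lt_continuum.le)

/-- replicas -/
theorem replica (hK1 : Stmt_K1) (hK3 : Stmt_K3) {ι : Type} [Fintype ι] [DecidableEq ι]
    (Γ : Subgroup (GL ι ℂ × ℂˣ)) {X : Matrix ι ι ℂ} {ξ : ℂ} (hX : InLie Γ X ξ) {T : Set ℂ}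
    (hT : T.Finite) (hξ : ξ ∈ T) (φ : ℂ →ₗ[ℚ] ℂ) :
    ∃ Y : Matrix ι ι ℂ, InLie Γ Y (φ ξ) ∧
      ∀ c ∈ T, ∀ ω : Matrix ι ι ℂ, X * ω - ω * X = c • ω → Y * ω - ω * Y = φ c • ω := by
  obtain ⟨s, ψ, hψ0, hψ⟩ := exists_scale (Submodule.span ℚ T) (span_ne_top hT) φ
  let e : GL ι ℂ := ⟨NormedSpace.exp (s • X), NormedSpace.exp (-(s • X)),
    (K8X.exp_mul_exp_neg _).1, (K8X.exp_mul_exp_neg _).2⟩
  let ex : ℂ → ℂˣ := fun u => Units.mk0 (Complex.exp u) (Complex.exp_ne_zero u)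
  obtain ⟨S, α, N, M, hN, hcomm, hxe, _, hstab⟩ := hK1 ι e
  refine ⟨S.val * Matrix.diagonal (fun i => Lf ψ hψ0 (Additive.ofMul (α i))) * (S⁻¹).val, ?_, ?_⟩
  · intro t D hD
    have h1 := hX t D hD
    have h2 : D.map (DAct t (s • X) (s * ξ)) ≤ D := by
      have h3 : DAct t (s • X) (s * ξ) = s • DAct t X ξ := by
        refine LinearMap.ext fun u => ?_
        funext p
        rw [LinearMap.smul_apply, Pi.smul_apply, smul_eq_mul]
        change (t.k p.1 : ℂ) * (s * ξ) * u p + ∑ r : Fin (t.a p.1), ∑ j : ι,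
          (s • X) (p.2 r) j * u ⟨p.1, Function.update p.2 r j⟩ = s * ((t.k p.1 : ℂ) * ξ * u p +
          ∑ r : Fin (t.a p.1), ∑ j : ι, X (p.2 r) j * u ⟨p.1, Function.update p.2 r j⟩)
        simp only [Matrix.smul_apply, smul_eq_mul, mul_add, Finset.mul_sum]
        congr 1
        · ring
        · refine Finset.sum_congr rfl fun r _ => Finset.sum_congr rfl fun j _ => ?_
          ring
      rw [h3]
      rintro _ ⟨v, hv, rfl⟩
      rw [LinearMap.smul_apply]
      exact D.smul_mem s (h1 ⟨v, hv, rfl⟩)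
    have h4 := (hstab (ex (s * ξ)) t D (hK3 ι t (s • X) (s * ξ) D h2)).1 (Lf ψ hψ0)
    rwa [Lf_exp ψ hψ0 (s * ξ) _ rfl, hψ ξ (Submodule.subset_span hξ)] at h4
  · intro c hc ω hω
    have h1 : e.val * ω = (ex (s * c)).val • (ω * e.val) := by
      refine exp_eig ?_
      rw [smul_mul_assoc, mul_smul_comm, ← smul_sub, hω, smul_smul]
    have h2 := log_eig hN hcomm hxe (Lf ψ hψ0) h1
    rwa [Lf_exp ψ hψ0 (s * c) _ rfl, hψ c (Submodule.subset_span hc)] at h2

end C8R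

open C8R in
/-- C8R. -/
theorem C8r_proof (hK1 : Stmt_K1) (hK3 : Stmt_K3) : Stmt_C8r := by
  intro g A n m K _ X ξ f hX hf φ
  have hfin : {z : ℂ | aeval z K.P = 0}.Finite := by
    have h := (Polynomial.rootSet_finite K.P ℂ)
    refine h.subset fun z hz => ?_
    rw [Polynomial.mem_rootSet]
    exact ⟨K.irr.ne_zero, hz⟩
  obtain ⟨Y, hY, hc⟩ := replica hK1 hK3 (Gam A) hX (T := insert ξ (f '' {z : ℂ | aeval z K.P = 0}))
    ((hfin.image f).insert ξ) (Set.mem_insert _ _) φ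
  exact ⟨Y, hY, fun z hz v hv => hc (f z) (Set.mem_insert_of_mem _ ⟨z, hz, rfl⟩) _ (hf z hz v hv)⟩

end

end Pool.Agent.K3C
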