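import Pool.Agent.K3D.K9
import Pool.Agent.K3C.Stmts

/-!
# C9: the generator of the Hodge structure belongs to the Lie algebra, and the conclusion
-/

open scoped BigOperators
open Matrix

namespace Pool.Agent.K3C

open Pool.Agent.DRB Pool.Agent.K3D

noncomputable section

namespace C9X

variable {g n m : ℕ} {A : AbVar g} (K : KSC A n m)

theorem cl_single (i : Fin n) : K.cl (Pi.single i 1) = AbVar.toC (K.t i) := by
  unfold KSC.cl
  rw [Finset.sum_eq_single i]
  · simp
  · intro j _ hj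
    rw [Pi.single_eq_of_ne hj, zero_smul]
  · intro h; exact absurd (Finset.mem_univ i) h

theorem cl_add (v w : Fin n → ℂ) : K.cl (v + w) = K.cl v + K.cl w := by
  unfold KSC.cl
  rw [← Finset.sum_add_distrib]
  exact Finset.sum_congr rfl fun i _ => by rw [Pi.add_apply, add_smul]

theorem cl_smul (c : ℂ) (v : Fin n → ℂ) : K.cl (c • v) = c • K.cl v := by
  unfold KSC.cl
  rw [Finset.smul_sum]
  exact Finset.sum_congr rfl fun i _ => by rw [Pi.smul_apply, smul_eq_mul, mul_smul]

theorem cl_zero : K.cl 0 = 0 := by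
  have := cl_smul K 0 0
  simpa using this

theorem cl_sub (v w : Fin n → ℂ) : K.cl (v - w) = K.cl v - K.cl w := by
  rw [sub_eq_add_neg, cl_add, ← neg_one_smul ℂ w, cl_smul, neg_one_smul, ← sub_eq_add_neg]

theorem mem_TC (Y : Matrix (Idx g) (Idx g) ℂ) : Y ∈ K.TC ↔ ∃ w, Y = K.cl w := by
  constructor
  · intro hY
    unfold KSC.TC at hY
    refine Submodule.span_induction (p := fun Y _ => ∃ w, Y = K.cl w) ?_ ?_ ?_ ?_ hY
    · rintro _ ⟨j, rfl⟩
      exact ⟨Pi.single j 1, (cl_single K j).symm⟩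
    · exact ⟨0, (cl_zero K).symm⟩
    · rintro _ _ _ _ ⟨v, rfl⟩ ⟨w, rfl⟩
      exact ⟨v + w, (cl_add K v w).symm⟩
    · rintro c _ _ ⟨v, rfl⟩
      exact ⟨c • v, (cl_smul K c v).symm⟩
  · rintro ⟨w, rfl⟩
    unfold KSC.cl KSC.TC
    exact Submodule.sum_mem _ fun j _ => Submodule.smul_mem _ _ (Submodule.subset_span ⟨j, rfl⟩)

/-- a matrix normalizing `T` acts on `T` -/
theorem exists_act (hinj : ∀ v, K.cl v = 0 → v = 0) (Y : Matrix (Idx g) (Idx g) ℂ)
    (h2 : ∀ v, ∃ w, Y * K.cl v - K.cl v * Y = K.cl w) : ∃ a : Matrix (Fin n) (Fin n) ℂ, K.Act Y a := by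
  choose b hb using h2
  have hinj' : ∀ v w, K.cl v = K.cl w → v = w := by
    intro v w h
    have h3 := hinj (v - w) (by rw [cl_sub, h, sub_self])
    exact sub_eq_zero.1 h3
  let f : (Fin n → ℂ) →ₗ[ℂ] (Fin n → ℂ) :=
    { toFun := b
      map_add' := by
        intro v w
        apply hinj'
        rw [← hb, cl_add, cl_add, ← hb, ← hb, mul_add, add_mul]
        abel
      map_smul' := by
        intro c v
        apply hinj'
        rw [← hb, RingHom.id_apply, cl_smul, cl_smul, ← hb, Matrix.mul_smul, Matrix.smul_mul, smul_sub] }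
  refine ⟨LinearMap.toMatrix' f, fun v => ?_⟩
  rw [LinearMap.toMatrix'_mulVec, hb]
  rfl

end C9X

open C9X

theorem C9_proof (hPI : Stmt_PI) (hL : Stmt_Leg) (hG2 : Stmt_Gb2) (hK2a : Stmt_K2a) (hK2c : Stmt_K2c)
    (hK5a : Stmt_C5a) (h5v : Stmt_C5v) (h8b : Stmt_C8b) (h8t : Stmt_C8t) (h9w : Stmt_C9w) : Stmt_C9 := by
  intro g A n m K hn hpar hTrit t D hD
  have hLT : ∀ a ∈ K.S, K.LT a := h8t g A n m K hn hTrit (h8b g A n m K hn hpar)
  refine ⟨hD.1, ?_⟩
  obtain ⟨π, hπ, hmu, hex, hcomm, hsim⟩ := hPI g A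
  -- π normalizes T
  have hT : ∀ v, ∃ w, π * K.cl v - K.cl v * π = K.cl w := by
    have h0 : ∀ i, π * AbVar.toC (K.t i) - AbVar.toC (K.t i) * π ∈ K.TC := by
      intro i
      set y := AbVar.toC (K.t i) with hy
      have hf : ∀ z : ℂ, z ≠ 0 → y + (z - 1) • (π * y) + (z⁻¹ - 1) • (y * π) +
          ((z - 1) * (z⁻¹ - 1)) • (π * y * π) ∈ K.TC := by
        intro z hz
        obtain ⟨x, hx⟩ := hex (Units.mk0 z hz)
        have h1 := K.hdg _ x hx i
        have h2 : x.val = 1 + (z - 1) • π := (hmu _ x).1 hx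
        have h3 : (x⁻¹).val = 1 + (z⁻¹ - 1) • π := by
          have h4 : x.val * (1 + (z⁻¹ - 1) • π) = 1 := by
            rw [h2]
            simp only [mul_add, add_mul, mul_one, one_mul, Matrix.smul_mul, Matrix.mul_smul, hπ,
              smul_smul]
            have h5 : (z - 1) + ((z⁻¹ - 1) + (z⁻¹ - 1) * (z - 1)) = 0 := by field_simp; ring
            rw [add_assoc, ← add_smul, ← add_smul, h5, zero_smul, add_zero]
          have h6 : (x⁻¹).val * x.val = 1 := by rw [← Units.val_mul]; simp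
          calc (x⁻¹).val = (x⁻¹).val * (x.val * (1 + (z⁻¹ - 1) • π)) := by rw [h4, mul_one]
            _ = _ := by rw [← mul_assoc, h6, one_mul]
        rw [h2, h3] at h1
        have h5 : (1 + (z - 1) • π) * y * (1 + (z⁻¹ - 1) • π) = y + (z - 1) • (π * y) +
            (z⁻¹ - 1) • (y * π) + ((z - 1) * (z⁻¹ - 1)) • (π * y * π) := by
          simp only [mul_add, add_mul, mul_one, one_mul, Matrix.smul_mul, Matrix.mul_smul, smul_smul]
          rw [mul_comm (z⁻¹ - 1) (z - 1)]
          abel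
        rw [← h5]
        exact h1
      have hy0 : y ∈ K.TC := Submodule.subset_span ⟨i, rfl⟩
      have h2 := hf 2 two_ne_zero
      have h3 := hf (-1) (by norm_num)
      -- combination
      have h4 : π * y - y * π = (4 / 3 : ℂ) • ((y + ((2 : ℂ) - 1) • (π * y) + ((2 : ℂ)⁻¹ - 1) • (y * π) +
          (((2 : ℂ) - 1) * ((2 : ℂ)⁻¹ - 1)) • (π * y * π)) - y) +
          (1 / 6 : ℂ) • ((y + ((-1 : ℂ) - 1) • (π * y) + ((-1 : ℂ)⁻¹ - 1) • (y * π) +
          (((-1 : ℂ) - 1) * ((-1 : ℂ)⁻¹ - 1)) • (π * y * π)) - y) := by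
        ext a b
        simp only [Matrix.add_apply, Matrix.sub_apply, Matrix.smul_apply, smul_eq_mul]
        norm_num
        ring
      rw [h4]
      exact Submodule.add_mem _ (Submodule.smul_mem _ _ (Submodule.sub_mem _ h2 hy0))
        (Submodule.smul_mem _ _ (Submodule.sub_mem _ h3 hy0))
    intro v
    rw [← mem_TC]
    unfold KSC.cl
    rw [Finset.mul_sum, Finset.sum_mul, ← Finset.sum_sub_distrib]
    refine Submodule.sum_mem _ fun i _ => ?_
    rw [Matrix.mul_smul, Matrix.smul_mul, ← smul_sub]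
    exact Submodule.smul_mem _ _ (h0 i)
  obtain ⟨hcl, hinj, hlift, hscal, -, -⟩ := hK5a g A n m K
  obtain ⟨a, ha⟩ := exists_act K hinj π hT
  have haS : a ∈ K.S := (h5v g A n m K hn).1 π a hcomm ha
  obtain ⟨X, ξ, hX, hXa⟩ := hLT a haS
  obtain ⟨c, hc⟩ := hscal (X - π) (by
      intro α hα
      rw [sub_mul, mul_sub, (hK2c g A X ξ hX).1 α hα, hcomm α hα]) (by
      intro v
      have h3 := ha v
      have h4 := hXa v
      rw [← sub_eq_zero]
      have h5 : (X - π) * K.cl v - K.cl v * (X - π) =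
          (X * K.cl v - K.cl v * X) - (π * K.cl v - K.cl v * π) := by noncomm_ring
      rw [h5, h3, h4, sub_self])
  have hXe : X = π + c • 1 := by
    rw [← hc]; abel
  have hξ : 1 + 2 * c = ξ := by
    have h1 := (hK2c g A X ξ hX).2
    have h2 : (1 + 2 * c - ξ) • A.riem = 0 := by
      rw [hXe, Matrix.transpose_add, Matrix.transpose_smul, Matrix.transpose_one, add_mul, mul_add,
        Matrix.smul_mul, one_mul, Matrix.mul_smul, mul_one] at h1
      have h4 : πᵀ * A.riem + c • A.riem + (A.riem * π + c • A.riem) =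
          (πᵀ * A.riem + A.riem * π) + (2 * c) • A.riem := by
        rw [two_mul, add_smul]; abel
      rw [h4, hsim] at h1
      rw [sub_smul, add_smul, one_smul, h1, sub_self]
    rcases smul_eq_zero.1 h2 with h | h
    · exact sub_eq_zero.1 h
    · exact absurd h (K9X.riem_ne hL K.pos)
  have hπm : InLie (Gam A) π 1 := by
    have h1 := (hK2a (Idx g) (Gam A)).1 X _ ξ 1 (-(2 * c)) hX (h9w g A n m K hn hLT)
    have e1 : X + -(2 * c) • ((1 / 2 : ℂ) • (1 : Matrix (Idx g) (Idx g) ℂ)) = π := by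
      rw [hXe, smul_smul, add_assoc, ← add_smul]
      have : c + -(2 * c) * (1 / 2) = 0 := by ring
      rw [this, zero_smul, add_zero]
    have e2 : ξ + -(2 * c) * 1 = 1 := by
      rw [← hξ]; ring
    rwa [e1, e2] at h1
  intro z x hx
  have hz : Complex.exp (Complex.log z.val) = z.val := Complex.exp_log (Units.ne_zero z)
  have h1 := K2Y.inLie_smul hK2a hπm (Complex.log z.val)
  rw [mul_one] at h1
  have h2 := K2Y.exp_stab_eq hK2a h1 t D (fun p hp => hG2 g A t D hD p hp)
  rw [K2Y.eX_val, K9X.exp_idem π hπ, hz] at h2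
  rw [(hmu z x).1 hx]
  exact h2

end

end Pool.Agent.K3C
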