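import Pool.Agent.K3C.C8t
import Pool.Agent.K3D.K9

/-!
# C9W: the weight
-/

set_option autoImplicit false

open scoped BigOperators
open Matrix Polynomial

namespace Pool.Agent.K3C

open Pool.Agent.DRB Pool.Agent.K3D

noncomputable section

namespace C9W

variable {g n m : ℕ} {A : AbVar g} {K : KSC A n m}

theorem trace_L (hL : Stmt_Leg) (hK2c : Stmt_K2c) {X : Matrix (Idx g) (Idx g) ℂ} {ξ : ℂ}
    (hX : InLie (Gam A) X ξ) : 2 * X.trace = ξ * (Fintype.card (Idx g) : ℂ) := by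
  have h1 := (hK2c g A X ξ hX).2
  have hdet := (hL g A).2.2.1
  have h2 : A.riem * A.riem⁻¹ = 1 := Matrix.mul_nonsing_inv _ hdet
  have h3 := congrArg (fun Z => (Z * A.riem⁻¹).trace) h1
  simp only [add_mul, Matrix.smul_mul, h2, Matrix.trace_add, Matrix.trace_smul, Matrix.trace_one,
    smul_eq_mul] at h3
  rw [Matrix.mul_assoc, h2, Matrix.mul_one, Matrix.trace_transpose, Matrix.mul_assoc,
    Matrix.trace_mul_comm A.riem, Matrix.mul_assoc, Matrix.nonsing_inv_mul _ hdet, Matrix.mul_one] at h3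
  rw [two_mul]
  exact h3

/-- The trace of the lift of a skew map vanishes. -/
theorem trace_Z {a : Matrix (Fin n) (Fin n) ℂ} (ha : a ∈ K.S) : (K.Z a).trace = 0 := by
  have hr := C5X.rel K
  have htr : ∀ v w, (K.cl v * K.cl w).trace = K.bil v w * (Fintype.card (Idx g) : ℂ) := by
    intro v w
    have h1 := congrArg Matrix.trace (hr v w)
    rw [Matrix.trace_add, Matrix.trace_mul_comm (K.cl w), Matrix.trace_smul, Matrix.trace_one,
      smul_eq_mul] at h1
    linear_combination (1 / 2) * h1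
  unfold KSC.Z
  rw [Matrix.trace_sum]
  refine Finset.sum_eq_zero fun i _ => ?_
  have h2 : K.bil (a *ᵥ Pi.single i 1) (Pi.single i 1) = 0 := by
    have h3 := C5L.bil_S K ha (Pi.single i 1) (Pi.single i 1)
    rw [C5L.bil_comm K (Pi.single i 1) (a *ᵥ Pi.single i 1)] at h3
    linear_combination (1 / 2) * h3
  rw [Matrix.trace_smul, htr, h2, zero_mul, smul_zero]

theorem Z_act (hC5a : Stmt_C5a) {a : Matrix (Fin n) (Fin n) ℂ} (ha : a ∈ K.S) : K.Act (K.Z a) a := by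
  obtain ⟨-, -, hlift, -, -, -⟩ := hC5a g A n m K
  exact fun v => hlift a (fun v w => C5X.S_skew K a ha v w) v

/-- normal form -/
theorem normal (hL : Stmt_Leg) (hK2c : Stmt_K2c) (hC5a : Stmt_C5a) {X : Matrix (Idx g) (Idx g) ℂ} {ξ : ℂ}
    (hX : InLie (Gam A) X ξ) {a : Matrix (Fin n) (Fin n) ℂ} (ha : a ∈ K.S) (hXa : K.Act X a) :
    ∃ c : ℂ, X = K.Z a + c • 1 ∧ ξ = 2 * c := by
  obtain ⟨-, -, -, hscal, -, hZend⟩ := hC5a g A n m K
  obtain ⟨c, hc⟩ := hscal (X - K.Z a) (by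
      intro α hα
      rw [sub_mul, mul_sub, (hK2c g A X ξ hX).1 α hα, hZend α hα a ha]) (by
      intro v
      have h3 := hXa v
      have h4 := Z_act hC5a ha v
      rw [← sub_eq_zero]
      have h5 : (X - K.Z a) * K.cl v - K.cl v * (X - K.Z a) =
          (X * K.cl v - K.cl v * X) - (K.Z a * K.cl v - K.cl v * K.Z a) := by noncomm_ring
      rw [h5, h3, h4, sub_self])
  have hXe : X = K.Z a + c • 1 := by
    rw [← hc]; abel
  refine ⟨c, hXe, ?_⟩
  have h1 := trace_L hL hK2c hX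
  rw [hXe, Matrix.trace_add, trace_Z ha, zero_add, Matrix.trace_smul, Matrix.trace_one, smul_eq_mul] at h1
  have : Nonempty (Idx g) := ⟨Sum.inl ⟨0, K.pos⟩⟩
  have h2 : (Fintype.card (Idx g) : ℂ) ≠ 0 := by
    exact_mod_cast Fintype.card_ne_zero
  have h3 : (ξ - 2 * c) * (Fintype.card (Idx g) : ℂ) = 0 := by
    linear_combination -h1
  rcases mul_eq_zero.1 h3 with h | h
  · exact sub_eq_zero.1 h
  · exact absurd h h2

/-- the elements with multiplier zero -/
def L0 (K : KSC A n m) (hK2a : Stmt_K2a) : Submodule ℂ (Matrix (Fin n) (Fin n) ℂ) where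
  carrier := {a | InLie (Gam A) (K.Z a) 0}
  add_mem' := by
    intro X Y hX hY
    have := (hK2a _ (Gam A)).1 _ _ 0 0 1 hX hY
    show InLie (Gam A) (K.Z (X + Y)) 0
    rw [C5X.Z_add]
    simpa using this
  zero_mem' := by
    show InLie (Gam A) (K.Z 0) 0
    have : K.Z 0 = 0 := by
      have := C5X.Z_smul K 0 0
      simpa using this
    rw [this]
    exact (hK2a _ (Gam A)).2.1
  smul_mem' := by
    intro c X hX
    have := (hK2a _ (Gam A)).1 0 _ 0 0 c (hK2a _ (Gam A)).2.1 hX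
    show InLie (Gam A) (K.Z (c • X)) 0
    rw [C5X.Z_smul]
    simpa using this

theorem mem_L0 (hK2a : Stmt_K2a) {a : Matrix (Fin n) (Fin n) ℂ} :
    a ∈ L0 K hK2a ↔ InLie (Gam A) (K.Z a) 0 := Iff.rfl

theorem Act_comm {X Y : Matrix (Idx g) (Idx g) ℂ} {a b : Matrix (Fin n) (Fin n) ℂ}
    (hX : K.Act X a) (hY : K.Act Y b) : K.Act (X * Y - Y * X) (a * b - b * a) := by
  intro v
  have h1 : (X * Y - Y * X) * K.cl v - K.cl v * (X * Y - Y * X) =
      (X * (Y * K.cl v - K.cl v * Y) - (Y * K.cl v - K.cl v * Y) * X) -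
        (Y * (X * K.cl v - K.cl v * X) - (X * K.cl v - K.cl v * X) * Y) := by noncomm_ring
  rw [h1, hY v, hX v, hX, hY, Matrix.sub_mulVec, ← Matrix.mulVec_mulVec, ← Matrix.mulVec_mulVec]
  rw [sub_eq_add_neg (a *ᵥ _), C5X.cl_add, ← neg_one_smul ℂ, C5X.cl_smul, neg_one_smul, ← sub_eq_add_neg]

/-- the elementary central elements have multiplier zero -/
theorem central_L0 (hL : Stmt_Leg) (hK2a : Stmt_K2a) (hK2b : Stmt_K2b) (hG4 : Stmt_Gb4) (hK2c : Stmt_K2c)
    (hC5a : Stmt_C5a) (hC8r : Stmt_C8r) (hm : 1 ≤ m)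
    (hns : ∀ c : ℂ, InLie (Gam A) (c • (1 : Matrix (Idx g) (Idx g) ℂ)) (2 * c) → c = 0)
    {z0 : ℂ} (hz0 : aeval z0 K.P = 0) {δ : Matrix (Fin n) (Fin n) ℂ} (hδS : δ ∈ K.S)
    (hδ : ∀ z : ℂ, aeval z K.P = 0 → ∀ v ∈ K.Tl z, δ *ᵥ v = ((C8T.ef z0 z : ℚ) : ℂ) • v)
    (hδL : K.LT δ) : δ ∈ L0 K hK2a := by
  obtain ⟨X, ξ, hX, hXa⟩ := hδL
  obtain ⟨c, hXc, hξc⟩ := normal hL hK2c hC5a hX hδS hXa
  -- ξ is rational
  have hrat : ∃ q : ℚ, ξ = (q : ℂ) := by
    by_contra hcon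
    have h1 : ξ ∉ Submodule.span ℚ {(1 : ℂ)} := by
      intro h
      obtain ⟨q, hq⟩ := Submodule.mem_span_singleton.1 h
      apply hcon
      refine ⟨q, ?_⟩
      rw [← hq, Rat.smul_def, mul_one]
    obtain ⟨ψ, hψ, hψ1⟩ := Submodule.exists_le_ker_of_notMem h1
    have hψ1' : ψ 1 = 0 := hψ1 (Submodule.mem_span_singleton_self 1)
    obtain ⟨Y, hY, hYf⟩ := hC8r g A n m K hm X ξ (fun z => ((C8T.ef z0 z : ℚ) : ℂ)) hX
      (fun z hz v hv => by rw [hXa v, hδ z hz v hv, C5X.cl_smul]) ((Algebra.linearMap ℚ ℂ).comp ψ)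
    have hY0 : K.Act Y 0 := by
      intro v
      rw [Matrix.zero_mulVec, C5X.cl_zero]
      refine C5L.indT K (p := fun v => Y * K.cl v - K.cl v * Y = 0) ?_ ?_ ?_ v
      · intro z hz v hv
        rw [hYf z hz v hv]
        have h2 : ((Algebra.linearMap ℚ ℂ).comp ψ) (((C8T.ef z0 z : ℚ) : ℂ)) = 0 := by
          have h3 : (((C8T.ef z0 z : ℚ) : ℂ)) = (C8T.ef z0 z) • (1 : ℂ) := by
            rw [Rat.smul_def, mul_one]
          rw [h3, map_smul, LinearMap.comp_apply, hψ1', map_zero, smul_zero]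
        rw [h2, zero_smul]
      · rw [C5X.cl_zero, mul_zero, zero_mul, sub_zero]
      · intro v w h1 h2
        rw [C5X.cl_add, mul_add, add_mul]
        have : Y * K.cl v + Y * K.cl w - (K.cl v * Y + K.cl w * Y) =
          (Y * K.cl v - K.cl v * Y) + (Y * K.cl w - K.cl w * Y) := by abel
        rw [this, h1, h2, add_zero]
    obtain ⟨c', hYc, hc'⟩ := normal hL hK2c hC5a hY K.S.zero_mem hY0
    have hZ0 : K.Z 0 = 0 := by
      have := C5X.Z_smul K 0 0
      simpa using this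
    rw [hZ0, zero_add] at hYc
    rw [hYc, hc'] at hY
    have h4 := hns c' hY
    rw [h4, mul_zero] at hc'
    apply hψ
    have h5 : algebraMap ℚ ℂ (ψ ξ) = 0 := hc'
    exact (map_eq_zero (algebraMap ℚ ℂ)).1 h5
  obtain ⟨q, hq⟩ := hrat
  obtain ⟨σ, hσ⟩ := Pool.Agent.K3E.E5L.exists_aut K.irr hz0 (C5L.conj_root K hz0)
  have hXσ : InLie (Gam A) (X.map σ) ξ := by
    have h1 := hK2b (Idx g) (Gam A) (fun σ p hp q h1 h2 => hG4 g A σ p hp q h1 h2) σ X ξ hX
    have h2 : σ ξ = ξ := by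
      rw [hq]
      simp
    rwa [h2] at h1
  have hδσ : δ.map σ = -δ := by
    refine C5L.mat_extT K fun z hz v hv => ?_
    have hzs := C8T.root_aut K σ.symm hz
    have h3 := hδ (σ.symm z) hzs (fun i => σ.symm (v i)) (C5L.map_Tl K σ.symm hv)
    have h4 : C8T.ef z0 (σ.symm z) = - C8T.ef z0 z := by
      have hne := C5L.conj_ne K hz0
      have e1 : σ.symm z = z0 ↔ z = (starRingEnd ℂ) z0 := by
        rw [← hσ]
        constructor
        · intro h; rw [← h, AlgEquiv.apply_symm_apply]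
        · intro h; rw [h, AlgEquiv.symm_apply_apply]
      have e2 : σ.symm z = (starRingEnd ℂ) z0 ↔ z = z0 := by
        have h5 : σ ((starRingEnd ℂ) z0) = z0 := by
          rw [C8T.conj_aut K σ hz0, hσ, Complex.conj_conj]
        constructor
        · intro h
          rw [← h5, ← h, AlgEquiv.apply_symm_apply]
        · intro h
          have h6 := AlgEquiv.symm_apply_apply σ ((starRingEnd ℂ) z0)
          rw [h5] at h6
          rw [h, h6]
      unfold C8T.ef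
      by_cases h5 : z = z0
      · have h6 : z ≠ (starRingEnd ℂ) z0 := by
          rw [h5]; exact hne.symm
        rw [if_neg (fun h => h6 (e1.1 h)), if_pos (e2.2 h5), if_pos h5]
      · by_cases h6 : z = (starRingEnd ℂ) z0
        · rw [if_pos (e1.2 h6), if_neg h5, if_pos h6, neg_neg]
        · rw [if_neg (fun h => h6 (e1.1 h)), if_neg (fun h => h5 (e2.1 h)), if_neg h5, if_neg h6, neg_zero]
    rw [h4] at h3
    rw [Matrix.neg_mulVec, hδ z hz v hv]
    funext i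
    have h5 := congrArg σ (congrFun h3 i)
    simp only [Matrix.mulVec, dotProduct, map_sum, map_mul, Pi.smul_apply, smul_eq_mul,
      AlgEquiv.apply_symm_apply] at h5
    simp only [Matrix.mulVec, dotProduct, Matrix.map_apply, Pi.neg_apply, Pi.smul_apply, smul_eq_mul]
    rw [h5]
    simp
  have hactσ : K.Act (X.map σ) (-δ) := by
    intro w
    have h1 := congrArg (fun Z : Matrix (Idx g) (Idx g) ℂ => Z.map σ) (hXa fun i => σ.symm (w i))
    have h3 : ∀ Z Z' : Matrix (Idx g) (Idx g) ℂ, (Z * Z').map σ = Z.map σ * Z'.map σ :=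
      fun Z Z' => Matrix.map_mul (f := (σ : ℂ →+* ℂ))
    have h4 : ∀ Z Z' : Matrix (Idx g) (Idx g) ℂ, (Z - Z').map σ = Z.map σ - Z'.map σ := by
      intro Z Z'
      ext i j
      rw [Matrix.map_apply, Matrix.sub_apply, map_sub, Matrix.sub_apply, Matrix.map_apply,
        Matrix.map_apply]
    simp only [h4, h3] at h1
    rw [← C5X.cl_map, ← C5X.cl_map] at h1
    have h5 : (fun i => σ (σ.symm (w i))) = w := by funext i; simp
    rw [h5] at h1
    rw [h1, ← hδσ]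
    congr 1
    funext i
    simp only [Matrix.mulVec, dotProduct, map_sum, map_mul, Matrix.map_apply, AlgEquiv.apply_symm_apply]
  obtain ⟨c', hXc', hξc'⟩ := normal hL hK2c hC5a hXσ (K.S.neg_mem hδS) hactσ
  have hcc : c' = c := by
    have : 2 * c' = 2 * c := by rw [← hξc', ← hξc]
    exact mul_left_cancel₀ two_ne_zero this
  have hsum := (hK2a _ (Gam A)).1 _ _ _ _ 1 hX hXσ
  have e1 : X + (1 : ℂ) • X.map σ = (2 * c) • (1 : Matrix (Idx g) (Idx g) ℂ) := by
    have hZn : K.Z (-δ) = - K.Z δ := by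
      have := C5X.Z_smul K (-1) δ
      rwa [neg_one_smul, neg_one_smul] at this
    rw [one_smul, hXc', hXc, hZn, hcc, two_mul, add_smul]
    abel
  have e2 : ξ + 1 * ξ = 2 * (2 * c) := by
    rw [hξc]; ring
  rw [e1, e2] at hsum
  have hc0 : c = 0 := by
    have := hns _ hsum
    rcases mul_eq_zero.1 this with h | h
    · exact absurd h two_ne_zero
    · exact h
  rw [hc0, zero_smul, add_zero] at hXc
  rw [hc0, mul_zero] at hξc
  rw [hXc, hξc] at hX
  exact hX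

end C9W

open C9W in
theorem C9w_proof (hK1 : Stmt_K1) (hH : Stmt_Homx) (hTau : Stmt_TAU) (hL : Stmt_Leg)
    (hK2a : Stmt_K2a) (hK2b : Stmt_K2b) (hG4 : Stmt_Gb4) (hK2c : Stmt_K2c)
    (hC2d : Stmt_C2d) (hC5a : Stmt_C5a) (hC5v : Stmt_C5v) (hC8r : Stmt_C8r) (hC5w : Stmt_C5w2) :
    Stmt_C9w := by
  intro g A n m K hm hLT
  classical
  by_contra hno
  have hm0 : (m : ℂ) ≠ 0 := by
    have : m ≠ 0 := by omega
    exact_mod_cast this
  have hns : ∀ c : ℂ, InLie (Gam A) (c • (1 : Matrix (Idx g) (Idx g) ℂ)) (2 * c) → c = 0 := by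
    intro c hc
    by_contra hc0
    apply hno
    have h1 := K2Y.inLie_smul hK2a hc (1 / (2 * c))
    rw [smul_smul] at h1
    have e1 : 1 / (2 * c) * c = 1 / 2 := by field_simp
    have e2 : 1 / (2 * c) * (2 * c) = 1 := by field_simp
    rwa [e1, e2] at h1
  obtain ⟨τ, -, h2, hodd, h3, -⟩ := hC5w g A n m K hm
  have hder : Submodule.span ℂ {c | ∃ b ∈ K.S, ∃ b' ∈ K.S, c = b * b' - b' * b} ≤ L0 K hK2a := by
    rw [Submodule.span_le]
    rintro _ ⟨b, hb, b', hb', rfl⟩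
    obtain ⟨X, ξ, hX, hXa⟩ := hLT b hb
    obtain ⟨Y, η, hY, hYb⟩ := hLT b' hb'
    have h4 := (hK2a _ (Gam A)).2.2.1 X Y ξ η hX hY
    have h5 : K.Act (X * Y - Y * X) (b * b' - b' * b) := Act_comm hXa hYb
    obtain ⟨a, haS, ha⟩ := C8T.exists_S (K := K) hm hC2d hK2c hC5v h4
    have h6 : a = b * b' - b' * b := by
      refine C5L.mat_ext fun v => ?_
      apply C5X.cl_inj K
      rw [← ha v, ← h5 v]
    rw [h6] at haS ha
    obtain ⟨c, hc, h0⟩ := normal hL hK2c hC5a h4 haS ha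
    have hc0 : c = 0 := by
      rcases mul_eq_zero.1 h0.symm with h | h
      · exact absurd h two_ne_zero
      · exact h
    rw [hc0, zero_smul, add_zero] at hc
    rw [hc] at h4
    exact h4
  have hall : ∀ a ∈ K.S, a ∈ L0 K hK2a := by
    intro a ha
    have hef : ∀ z0 : {z // z ∈ C8T.roots K}, ∃ δ ∈ K.S, (∀ z : ℂ, aeval z K.P = 0 →
        ∀ v ∈ K.Tl z, δ *ᵥ v = ((C8T.ef z0 z : ℚ) : ℂ) • v) := by
      intro z0
      have hz0 := C8T.mem_roots.1 z0.2
      obtain ⟨δ, h1, -, h2⟩ := C5L.exists_central K (fun z => ((C8T.ef z0 z : ℚ) : ℂ)) (fun z _ => by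
        show ((C8T.ef z0 ((starRingEnd ℂ) z) : ℚ) : ℂ) = -((C8T.ef z0 z : ℚ) : ℂ)
        rw [C8T.ef_conj hz0]
        push_cast
        rfl)
      exact ⟨δ, h1, h2⟩
    choose δ hδS hδ using hef
    have hδL : ∀ z0, δ z0 ∈ L0 K hK2a := fun z0 =>
      central_L0 hL hK2a hK2b hG4 hK2c hC5a hC8r hm hns (C8T.mem_roots.1 z0.2) (hδS z0) (hδ z0)
        (hLT _ (hδS z0))
    have hbv := C8T.sum_ef (K := K) τ hodd ha δ hδ
    set b := ∑ z0 : {z // z ∈ C8T.roots K}, (τ z0 a / m / 2) • δ z0 with hb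
    have hbS : b ∈ K.S := Submodule.sum_mem _ fun z0 _ => K.S.smul_mem _ (hδS z0)
    have hbL : b ∈ L0 K hK2a := Submodule.sum_mem _ fun z0 _ => (L0 K hK2a).smul_mem _ (hδL z0)
    have hab : a - b ∈ L0 K hK2a := by
      refine hder (h3 _ (K.S.sub_mem ha hbS) fun z hz => ?_)
      rw [map_sub, h2 z hz b hbS _ (hbv z hz)]
      field_simp
      ring
    have : a = (a - b) + b := by abel
    rw [this]
    exact (L0 K hK2a).add_mem hab hbL
  obtain ⟨p, hp, hpN⟩ := hTau g A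
  obtain ⟨L, hLne⟩ : ∃ L : Additive ℂˣ →+ ℂ, L (Additive.ofMul p.2) ≠ 0 := by
    by_contra hcon
    push Not at hcon
    obtain ⟨N, hN, h1⟩ := K4X.tors_of_L hH p.2 hcon
    exact hpN N hN h1
  obtain ⟨S, α, N, M, -, -, -, -, hst⟩ := hK1 (Idx g) p.1
  have hXm : InLie (Gam A) (S.val * Matrix.diagonal (fun i => L (Additive.ofMul (α i))) *
    (S⁻¹).val) (L (Additive.ofMul p.2)) := fun t D hD => (hst p.2 t D (hD p hp)).1 L
  obtain ⟨a, haS, ha⟩ := C8T.exists_S (K := K) hm hC2d hK2c hC5v hXm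
  obtain ⟨c, hc, hζ⟩ := normal hL hK2c hC5a hXm haS ha
  have h4 := (hK2a _ (Gam A)).1 _ _ _ _ (-1) hXm (hall a haS)
  rw [hc, mul_zero, add_zero, neg_one_smul] at h4
  have e : K.Z a + c • (1 : Matrix (Idx g) (Idx g) ℂ) + -K.Z a = c • 1 := by abel
  rw [e, hζ] at h4
  have h5 := hns c h4
  rw [h5, mul_zero] at hζ
  exact hLne hζ

end

end Pool.Agent.K3C
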