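import Pool.Agent.K3E.Assembly
import Pool.Agent.K3C.C2d
import Pool.Agent.K3C.C5a
import Pool.Agent.K3C.C5b
import Pool.Agent.K3C.C5c
import Pool.Agent.K3C.C5d
import Pool.Agent.K3C.C5m
import Pool.Agent.K3C.C5v
import Pool.Agent.K3C.C5w
import Pool.Agent.K3C.C6
import Pool.Agent.K3C.C7
import Pool.Agent.K3C.C7x
import Pool.Agent.K3C.C8a
import Pool.Agent.K3C.C8b
import Pool.Agent.K3C.C8r
import Pool.Agent.K3C.C8t
import Pool.Agent.K3C.C9
import Pool.Agent.K3C.C9w

/-!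
# De Rham-Betti conjecture for Kuga-Satake varieties with complex multiplication: assembly
-/

namespace Pool.Agent.K3C

open Pool.Agent.DRB Pool.Agent.K3D Pool.Agent.K3E

theorem c2dC : Stmt_C2d := C2d_proof k2aC gb1C gb2_proof (rev_proof leg_proof) leg_proof

theorem c5aC : Stmt_C5a := C5a_proof descqC

theorem c5vC : Stmt_C5v := C5v_proof descqC C5l_proof

theorem c5bC : Stmt_C5b := C5b_proof descqC (gb3_proof descaC) t1eC finC c2dC C5l_proof

theorem c5cC : Stmt_C5c := C5c_proof descqC c2dC k4C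

theorem c5dC : Stmt_C5d :=
  C5d_proof descqC gb4_proof k2aC k2b_proof k2cC c2dC k4C c5aC c5vC c5bC c5cC C5l_proof

theorem c7xC : Stmt_C7x := C7x_proof descqC k2cC c2dC k4C c5vC C5l_proof

theorem c8aC : Stmt_C8a := C8a_proof k1C c2dC k3_proof c5aC

theorem c8rC : Stmt_C8r := C8r_proof k1C k3_proof

theorem c5wC : Stmt_C5w2 := C5w2_proof C5l_proof

theorem c8tC : Stmt_C8t := C8t_proof k2aC k2b_proof gb4_proof k2cC k4C c2dC c5aC c5vC c8rC c5wC

theorem c9wC : Stmt_C9w :=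
  C9w_proof k1C homx_proof tauC leg_proof k2aC k2b_proof gb4_proof k2cC c2dC c5aC c5vC c8rC c5wC

theorem c6C : Stmt_C6 := C6_proof k2aC k2b_proof gb4_proof k2cC c2dC c5aC c5vC c5dC c8aC

theorem c8bC : Stmt_C8b :=
  C8b_proof k2aC k2b_proof gb4_proof k2cC C7_proof c6C c7xC c2dC c5aC c5vC c5dC c8aC

/-- The main theorem. -/
theorem mainC : MainC :=
  C9_proof piC leg_proof gb2_proof k2aC k2cC c5aC c5vC c8bC c8tC c9wC

end Pool.Agent.K3C
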