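import Pool.Agent.K3C.Stmts

/-!
# K5b: a rational `Gam`-stable subspace of `T` is trivial
-/

open scoped BigOperators
open Matrix

namespace Pool.Agent.K3C

open Pool.Agent.DRB Pool.Agent.K3D Pool.Agent.K3E

namespace C5X

section

variable {g n m : ℕ} {A : AbVar g} (K : KSC A n m)

theorem one_ne {g : ℕ} (hg : 0 < g) : (1 : Matrix (Idx g) (Idx g) ℂ) ≠ 0 := by
  intro h
  have := congrFun (congrFun h (Sum.inl ⟨0, hg⟩)) (Sum.inl ⟨0, hg⟩)
  simp at this

theorem cl_add (v w : Fin n → ℂ) : K.cl (v + w) = K.cl v + K.cl w := by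
  simp [KSC.cl, add_smul, Finset.sum_add_distrib]

theorem cl_smul (c : ℂ) (v : Fin n → ℂ) : K.cl (c • v) = c • K.cl v := by
  simp [KSC.cl, Finset.smul_sum, smul_smul]

theorem cl_zero : K.cl 0 = 0 := by simp [KSC.cl]

/-- The Clifford map as a linear map. -/
noncomputable def clL : (Fin n → ℂ) →ₗ[ℂ] Matrix (Idx g) (Idx g) ℂ where
  toFun := K.cl
  map_add' := cl_add K
  map_smul' := cl_smul K

theorem mem_TC {Y : Matrix (Idx g) (Idx g) ℂ} : Y ∈ K.TC ↔ ∃ v, Y = K.cl v := by
  unfold KSC.TC KSC.cl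
  rw [Submodule.mem_span_range_iff_exists_fun]
  exact ⟨fun ⟨c, hc⟩ => ⟨c, hc.symm⟩, fun ⟨c, hc⟩ => ⟨c, hc.symm⟩⟩

/-- The form as a bilinear form. -/
noncomputable def bf : LinearMap.BilinForm ℂ (Fin n → ℂ) :=
  LinearMap.mk₂ ℂ K.bil
    (fun a b c => by
      simp only [KSC.bil, Pi.add_apply, ← Finset.sum_add_distrib]
      exact Finset.sum_congr rfl fun j _ => by ring)
    (fun c a b => by
      simp only [KSC.bil, Pi.smul_apply, smul_eq_mul, Finset.mul_sum]
      exact Finset.sum_congr rfl fun j _ => by ring)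
    (fun a b c => by
      simp only [KSC.bil, Pi.add_apply, ← Finset.sum_add_distrib]
      exact Finset.sum_congr rfl fun j _ => by ring)
    (fun c a b => by
      simp only [KSC.bil, Pi.smul_apply, smul_eq_mul, Finset.mul_sum]
      exact Finset.sum_congr rfl fun j _ => by ring)

theorem bf_apply (v w : Fin n → ℂ) : bf K v w = K.bil v w := rfl

theorem bil_comm (v w : Fin n → ℂ) : K.bil v w = K.bil w v := by
  simp only [KSC.bil]
  exact Finset.sum_congr rfl fun j _ => by ring

theorem bil_add_left (a b c : Fin n → ℂ) : K.bil (a + b) c = K.bil a c + K.bil b c := by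
  simp only [KSC.bil, Pi.add_apply, ← Finset.sum_add_distrib]
  exact Finset.sum_congr rfl fun j _ => by ring

theorem bil_add_right (a b c : Fin n → ℂ) : K.bil a (b + c) = K.bil a b + K.bil a c := by
  rw [bil_comm, bil_add_left, bil_comm K b, bil_comm K c]

theorem bil_smul_left (r : ℂ) (a b : Fin n → ℂ) : K.bil (r • a) b = r * K.bil a b := by
  simp only [KSC.bil, Pi.smul_apply, smul_eq_mul, Finset.mul_sum]
  exact Finset.sum_congr rfl fun j _ => by ring

theorem bil_smul_right (r : ℂ) (a b : Fin n → ℂ) : K.bil a (r • b) = r * K.bil a b := by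
  rw [bil_comm, bil_smul_left, bil_comm K b]

theorem bil_single (v : Fin n → ℂ) (i : Fin n) (c : ℂ) :
    K.bil v (Pi.single i c) = (K.q i : ℂ) * v i * c := by
  unfold KSC.bil
  rw [Finset.sum_eq_single i]
  · simp
  · intro j _ hj
    simp [Pi.single_eq_of_ne hj]
  · simp

theorem bil_nondeg (v : Fin n → ℂ) (h : ∀ w, K.bil v w = 0) : v = 0 := by
  funext i
  have := h (Pi.single i 1)
  rw [bil_single] at this
  have hq : (K.q i : ℂ) ≠ 0 := by exact_mod_cast K.q_ne i
  simpa [hq] using this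

theorem bil_map (σ : ℂ ≃ₐ[ℚ] ℂ) (v w : Fin n → ℂ) :
    K.bil (fun i => σ (v i)) (fun i => σ (w i)) = σ (K.bil v w) := by
  unfold KSC.bil
  rw [map_sum]
  refine Finset.sum_congr rfl fun j _ => ?_
  rw [map_mul, map_mul]
  have : σ (K.q j : ℂ) = (K.q j : ℂ) := by
    have := σ.commutes (K.q j)
    simp
  rw [this]

theorem cl_map (σ : ℂ ≃ₐ[ℚ] ℂ) (v : Fin n → ℂ) :
    K.cl (fun i => σ (v i)) = (K.cl v).map σ := by
  ext r s
  simp only [KSC.cl, Matrix.sum_apply, Matrix.smul_apply, Matrix.map_apply, smul_eq_mul, map_sum,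
    map_mul]
  refine Finset.sum_congr rfl fun j _ => ?_
  have : σ (AbVar.toC (K.t j) r s) = AbVar.toC (K.t j) r s := by
    simp only [AbVar.toC, Matrix.map_apply]
    exact σ.commutes _
  rw [this]

end

/-! ### Conjugation by elements of the group -/

section

variable {g n m : ℕ} {A : AbVar g} (K : KSC A n m)

/-- The relations of the Clifford algebra. -/
def Rel : Prop := ∀ v w, K.cl v * K.cl w + K.cl w * K.cl v =
  (2 * K.bil v w) • (1 : Matrix (Idx g) (Idx g) ℂ)

variable {K}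

theorem sq (hr : Rel K) (v : Fin n → ℂ) : K.cl v * K.cl v = K.bil v v • 1 := by
  have h := hr v v
  have h2 : (2 : ℂ) • (K.cl v * K.cl v) = (2 : ℂ) • (K.bil v v • (1 : Matrix (Idx g) (Idx g) ℂ)) := by
    rw [two_smul, h, smul_smul]
  exact smul_right_injective _ (two_ne_zero : (2 : ℂ) ≠ 0) h2

theorem anti (hr : Rel K) (v w : Fin n → ℂ) (h : K.bil v w = 0) :
    K.cl v * K.cl w = -(K.cl w * K.cl v) := by
  have := hr v w
  rw [h, mul_zero, zero_smul] at this
  exact eq_neg_of_add_eq_zero_left this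

theorem inv_mul_self (x : GL (Idx g) ℂ) : (x⁻¹).val * x.val = 1 := by
  rw [← Units.val_mul, inv_mul_cancel, Units.val_one]

theorem mul_inv_self (x : GL (Idx g) ℂ) : x.val * (x⁻¹).val = 1 := by
  rw [← Units.val_mul, mul_inv_cancel, Units.val_one]

theorem conj_mul (x : GL (Idx g) ℂ) (Y Z : Matrix (Idx g) (Idx g) ℂ) :
    x.val * (Y * Z) * (x⁻¹).val = (x.val * Y * (x⁻¹).val) * (x.val * Z * (x⁻¹).val) := by
  have : (x.val * Y * (x⁻¹).val) * (x.val * Z * (x⁻¹).val) =
      x.val * Y * ((x⁻¹).val * x.val) * Z * (x⁻¹).val := by noncomm_ring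
  rw [this, inv_mul_self]
  noncomm_ring

theorem bil_conj (hg : 0 < g) (hr : Rel K) (x : GL (Idx g) ℂ) {v w v' w' : Fin n → ℂ}
    (hv : x.val * K.cl v * (x⁻¹).val = K.cl v') (hw : x.val * K.cl w * (x⁻¹).val = K.cl w') :
    K.bil v' w' = K.bil v w := by
  have h1 := hr v' w'
  rw [← hv, ← hw, ← conj_mul, ← conj_mul] at h1
  have h2 : x.val * (K.cl v * K.cl w) * (x⁻¹).val + x.val * (K.cl w * K.cl v) * (x⁻¹).val =
      x.val * (K.cl v * K.cl w + K.cl w * K.cl v) * (x⁻¹).val := by noncomm_ring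
  rw [h2, hr v w, Matrix.mul_smul, Matrix.smul_mul, Matrix.mul_one, mul_inv_self] at h1
  have h3 : (2 * K.bil v w - 2 * K.bil v' w') • (1 : Matrix (Idx g) (Idx g) ℂ) = 0 := by
    rw [sub_smul, h1, sub_self]
  rcases smul_eq_zero.1 h3 with h4 | h4
  · have := sub_eq_zero.1 h4
    have h5 : (2 : ℂ) ≠ 0 := two_ne_zero
    exact (mul_left_cancel₀ h5 this).symm
  · exact absurd h4 (one_ne hg)

end

/-! ### The isotropic case -/

section

variable {g n m : ℕ} {A : AbVar g} {K : KSC A n m}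

/-- Anticommuting matrices of square zero have a common kernel. -/
theorem exists_ker (hg : 0 < g) (hr : Rel K) (s : Finset (Fin n → ℂ))
    (hs : ∀ v ∈ s, ∀ w ∈ s, K.bil v w = 0) :
    ∃ h : Idx g → ℂ, h ≠ 0 ∧ ∀ v ∈ s, K.cl v *ᵥ h = 0 := by
  classical
  induction s using Finset.induction_on with
  | empty =>
    refine ⟨Pi.single (Sum.inl ⟨0, hg⟩) 1, ?_, by simp⟩
    intro h
    have := congrFun h (Sum.inl ⟨0, hg⟩)
    simp at this
  | insert a s ha ih =>
    obtain ⟨h, h0, h1⟩ := ih fun v hv w hw =>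
      hs v (Finset.mem_insert_of_mem hv) w (Finset.mem_insert_of_mem hw)
    by_cases hc : K.cl a *ᵥ h = 0
    · exact ⟨h, h0, fun v hv => by
        rcases Finset.mem_insert.1 hv with rfl | hv
        · exact hc
        · exact h1 v hv⟩
    · refine ⟨K.cl a *ᵥ h, hc, fun v hv => ?_⟩
      rcases Finset.mem_insert.1 hv with rfl | hv
      · rw [Matrix.mulVec_mulVec, sq hr, hs _ (Finset.mem_insert_self _ _) _
          (Finset.mem_insert_self _ _), zero_smul, Matrix.zero_mulVec]
      · rw [Matrix.mulVec_mulVec, anti hr v a (hs v (Finset.mem_insert_of_mem hv) a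
          (Finset.mem_insert_self _ _)), Matrix.neg_mulVec, ← Matrix.mulVec_mulVec, h1 v hv,
          Matrix.mulVec_zero, neg_zero]

end

/-! ### Products of vectors -/

section

variable {g n m : ℕ} {A : AbVar g} {K : KSC A n m}

/-- The product of the Clifford images of a list of vectors. -/
noncomputable def pr (K : KSC A n m) (l : List (Fin n → ℂ)) : Matrix (Idx g) (Idx g) ℂ :=
  (l.map K.cl).prod

theorem pr_nil : pr K [] = 1 := rfl

theorem pr_cons (a : Fin n → ℂ) (l : List (Fin n → ℂ)) : pr K (a :: l) = K.cl a * pr K l := by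
  simp [pr]

theorem pr_append (l l' : List (Fin n → ℂ)) : pr K (l ++ l') = pr K l * pr K l' := by
  simp [pr]

/-- A vector orthogonal to all factors. -/
theorem pr_orth (hr : Rel K) (l : List (Fin n → ℂ)) (w : Fin n → ℂ) (h : ∀ v ∈ l, K.bil v w = 0) :
    pr K l * K.cl w = (-1 : ℂ) ^ l.length • (K.cl w * pr K l) := by
  induction l with
  | nil => simp [pr_nil]
  | cons a l ih =>
    have h1 := ih fun v hv => h v (List.mem_cons_of_mem _ hv)
    have h2 := anti hr a w (h a List.mem_cons_self)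
    rw [pr_cons, Matrix.mul_assoc, h1, Matrix.mul_smul, ← Matrix.mul_assoc, h2, List.length_cons,
      pow_succ, mul_neg_one, neg_smul, Matrix.neg_mul, smul_neg, Matrix.mul_assoc]

/-- A vector which is one of the factors, orthogonal to the others. -/
theorem pr_mem (hr : Rel K) (l₁ l₂ : List (Fin n → ℂ)) (w : Fin n → ℂ)
    (h₁ : ∀ v ∈ l₁, K.bil v w = 0) (h₂ : ∀ v ∈ l₂, K.bil v w = 0) :
    pr K (l₁ ++ w :: l₂) * K.cl w =
      (-1 : ℂ) ^ (l₁.length + l₂.length) • (K.cl w * pr K (l₁ ++ w :: l₂)) := by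
  have e1 := pr_orth hr l₁ w h₁
  have e2 := pr_orth hr l₂ w h₂
  have e3 : K.cl w * pr K l₁ = (-1 : ℂ) ^ l₁.length • (pr K l₁ * K.cl w) := by
    rw [e1, smul_smul, ← mul_pow]
    simp
  rw [pr_append, pr_cons]
  have e4 : K.cl w * (pr K l₁ * (K.cl w * pr K l₂)) = (K.cl w * pr K l₁) * K.cl w * pr K l₂ := by
    noncomm_ring
  have e5 : pr K l₁ * (K.cl w * pr K l₂) * K.cl w = pr K l₁ * K.cl w * (pr K l₂ * K.cl w) := by
    noncomm_ring
  rw [e4, e5, e2, e3, Matrix.mul_smul, Matrix.smul_mul, Matrix.smul_mul, smul_smul]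
  congr 1
  · rw [pow_add, mul_assoc, mul_comm, mul_assoc, ← mul_pow]
    simp
  · noncomm_ring

theorem pr_isUnit (hr : Rel K) (l : List (Fin n → ℂ)) (h : ∀ v ∈ l, K.bil v v ≠ 0) :
    IsUnit (pr K l) := by
  induction l with
  | nil => exact isUnit_one
  | cons a l ih =>
    rw [pr_cons]
    refine IsUnit.mul ?_ (ih fun v hv => h v (List.mem_cons_of_mem _ hv))
    have ha := h a List.mem_cons_self
    refine ⟨⟨K.cl a, (K.bil a a)⁻¹ • K.cl a, ?_, ?_⟩, rfl⟩
    · rw [Matrix.mul_smul, sq hr, smul_smul, inv_mul_cancel₀ ha, one_smul]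
    · rw [Matrix.smul_mul, sq hr, smul_smul, inv_mul_cancel₀ ha, one_smul]

/-- Conjugation of products. -/
theorem pr_conj (x : GL (Idx g) ℂ) (hx : ∀ v, ∃ v', x.val * K.cl v * (x⁻¹).val = K.cl v')
    (l : List (Fin n → ℂ)) : ∃ l' : List (Fin n → ℂ), l'.length = l.length ∧
      x.val * pr K l * (x⁻¹).val = pr K l' := by
  induction l with
  | nil =>
    refine ⟨[], rfl, ?_⟩
    rw [pr_nil, Matrix.mul_one, mul_inv_self]
  | cons a l ih =>
    obtain ⟨l', h1, h2⟩ := ih
    obtain ⟨a', ha⟩ := hx a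
    refine ⟨a' :: l', by simp [h1], ?_⟩
    rw [pr_cons, conj_mul, ha, h2, pr_cons]

end

/-! ### The nondegenerate case -/

section

variable {g n m : ℕ} {A : AbVar g}

/-- Orthogonal bases and orthogonal decomposition. -/
theorem orth_basis (K : KSC A n m) (W : Submodule ℂ (Fin n → ℂ))
    (hnd : ∀ v ∈ W, (∀ w ∈ W, K.bil v w = 0) → v = 0) :
    ∃ (k : ℕ) (b : Fin k → (Fin n → ℂ)), (∀ i, b i ∈ W) ∧ Function.Injective b ∧
      (∀ i j, i ≠ j → K.bil (b i) (b j) = 0) ∧ (∀ i, K.bil (b i) (b i) ≠ 0) ∧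
      (∀ w ∈ W, w ∈ Submodule.span ℂ (Set.range b)) ∧
      ∀ v, ∃ a ∈ W, ∃ u, (∀ w ∈ W, K.bil u w = 0) ∧ v = a + u := by
  classical
  let : Invertible (2 : ℂ) := invertibleOfNonzero two_ne_zero
  let B' : LinearMap.BilinForm ℂ W := (bf K).domRestrict₁₂ W W
  have hs : LinearMap.IsSymm B' := ⟨fun x y => bil_comm K x.1 y.1⟩
  obtain ⟨b, hb⟩ := LinearMap.BilinForm.exists_orthogonal_basis hs
  have horth : ∀ i j, i ≠ j → K.bil (b i : Fin n → ℂ) (b j) = 0 := fun i j hij => hb hij
  have hspan : ∀ w ∈ W, w ∈ Submodule.span ℂ (Set.range fun i => (b i : Fin n → ℂ)) := by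
    intro w hw
    have h1 := Submodule.mem_map_of_mem (f := W.subtype) (b.mem_span ⟨w, hw⟩)
    rw [Submodule.map_span, ← Set.range_comp] at h1
    exact h1
  have hne : ∀ i, K.bil (b i : Fin n → ℂ) (b i) ≠ 0 := by
    intro i hi
    apply b.ne_zero i
    apply Subtype.ext
    apply hnd _ (b i).2
    intro w hw
    have := hspan w hw
    induction this using Submodule.span_induction with
    | mem x hx =>
      obtain ⟨j, rfl⟩ := hx
      by_cases hij : i = j
      · subst hij; exact hi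
      · exact horth i j hij
    | zero => simpa using bil_smul_right K 0 (b i : Fin n → ℂ) 0
    | add x y hx' hy' hx hy =>
      rw [bil_add_right, hx, hy, add_zero]
      all_goals
        first
          | exact (Submodule.span_le.2 (by rintro _ ⟨j, rfl⟩; exact (b j).2)) hx'
          | exact (Submodule.span_le.2 (by rintro _ ⟨j, rfl⟩; exact (b j).2)) hy'
    | smul c x hx' hx =>
      rw [bil_smul_right, hx, mul_zero]
      exact (Submodule.span_le.2 (by rintro _ ⟨j, rfl⟩; exact (b j).2)) hx'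
  refine ⟨Module.finrank ℂ W, fun i => (b i : Fin n → ℂ), fun i => (b i).2,
    Subtype.coe_injective.comp b.injective, horth, hne, hspan, ?_⟩
  intro v
  refine ⟨∑ i, (K.bil v (b i) / K.bil (b i : Fin n → ℂ) (b i)) • (b i : Fin n → ℂ),
    Submodule.sum_mem _ fun i _ => Submodule.smul_mem _ _ (b i).2,
    v - ∑ i, (K.bil v (b i) / K.bil (b i : Fin n → ℂ) (b i)) • (b i : Fin n → ℂ), ?_, by abel⟩
  have hbi : ∀ j, K.bil (v - ∑ i, (K.bil v (b i) / K.bil (b i : Fin n → ℂ) (b i)) •
      (b i : Fin n → ℂ)) (b j) = 0 := by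
    intro j
    rw [← bf_apply, map_sub, map_sum, LinearMap.sub_apply, LinearMap.sum_apply,
      Finset.sum_eq_single j]
    · rw [map_smul, LinearMap.smul_apply, smul_eq_mul, bf_apply, bf_apply, div_mul_cancel₀ _ (hne j),
        sub_self]
    · intro i _ hij
      rw [map_smul, LinearMap.smul_apply, bf_apply, horth i j hij, smul_zero]
    · intro h; exact absurd (Finset.mem_univ j) h
  intro w hw
  have := hspan w hw
  induction this using Submodule.span_induction with
  | mem x hx =>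
    obtain ⟨j, rfl⟩ := hx
    exact hbi j
  | zero => simpa using bil_smul_right K 0 _ 0
  | add x y hx' hy' hx hy =>
    rw [bil_add_right, hx, hy, add_zero]
    all_goals
      first
        | exact (Submodule.span_le.2 (by rintro _ ⟨j, rfl⟩; exact (b j).2)) hx'
        | exact (Submodule.span_le.2 (by rintro _ ⟨j, rfl⟩; exact (b j).2)) hy'
  | smul c x hx' hx =>
    rw [bil_smul_right, hx, mul_zero]
    exact (Submodule.span_le.2 (by rintro _ ⟨j, rfl⟩; exact (b j).2)) hx'

/-- The volume element of a nondegenerate subspace. -/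
theorem exists_vol (K : KSC A n m) (hr : Rel K) (W : Submodule ℂ (Fin n → ℂ))
    (hnd : ∀ v ∈ W, (∀ w ∈ W, K.bil v w = 0) → v = 0) :
    ∃ (l : List (Fin n → ℂ)) (e : ℂ), e * e = 1 ∧ IsUnit (pr K l) ∧
      (∀ w ∈ W, pr K l * K.cl w = e • (K.cl w * pr K l)) ∧
      (∀ w, (∀ v ∈ W, K.bil w v = 0) → pr K l * K.cl w = (-e) • (K.cl w * pr K l)) := by
  classical
  obtain ⟨k, b, hbW, hinj, horth, hne, hspan, -⟩ := orth_basis K W hnd
  refine ⟨List.ofFn b, (-1 : ℂ) ^ (k + 1), ?_, ?_, ?_, ?_⟩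
  · rw [← mul_pow]; simp
  · refine pr_isUnit hr _ fun v hv => ?_
    obtain ⟨i, rfl⟩ := (List.mem_ofFn' _ _).1 hv
    exact hne i
  · intro w hw
    have := hspan w hw
    clear hw
    induction this using Submodule.span_induction with
    | mem x hx =>
      obtain ⟨j, rfl⟩ := hx
      have hmem : b j ∈ List.ofFn b := (List.mem_ofFn' _ _).2 ⟨j, rfl⟩
      obtain ⟨s, t, hst⟩ := List.append_of_mem hmem
      have hnod : (List.ofFn b).Nodup := List.nodup_ofFn.2 hinj
      rw [hst] at hnod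
      have hlen : s.length + t.length + 1 = k := by
        have := congrArg List.length hst
        simp at this
        omega
      have hor : ∀ v ∈ List.ofFn b, v ≠ b j → K.bil v (b j) = 0 := by
        intro v hv hvj
        obtain ⟨i, rfl⟩ := (List.mem_ofFn' _ _).1 hv
        exact horth i j fun h => hvj (by rw [h])
      have h1 : ∀ v ∈ s, K.bil v (b j) = 0 := by
        intro v hv
        refine hor v (by rw [hst]; exact List.mem_append_left _ hv) ?_
        rintro rfl
        rw [List.nodup_append] at hnod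
        exact hnod.2.2 _ hv _ List.mem_cons_self rfl
      have h2 : ∀ v ∈ t, K.bil v (b j) = 0 := by
        intro v hv
        refine hor v (by rw [hst]; exact List.mem_append_right _ (List.mem_cons_of_mem _ hv)) ?_
        rintro rfl
        rw [List.nodup_append, List.nodup_cons] at hnod
        exact hnod.2.1.1 hv
      have h3 := pr_mem hr s t (b j) h1 h2
      rw [hst, h3]
      congr 1
      rw [← hlen, pow_succ, pow_succ]
      ring
    | zero => simp [cl_zero]
    | add x y _ _ hx hy =>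
      rw [cl_add, Matrix.mul_add, hx, hy, Matrix.add_mul, smul_add]
    | smul c x _ hx =>
      rw [cl_smul, Matrix.mul_smul, hx, Matrix.smul_mul, smul_comm]
  · intro w hw
    rw [pr_orth hr _ w fun v hv => ?_]
    · congr 1
      simp [pow_succ]
    · obtain ⟨i, rfl⟩ := (List.mem_ofFn' _ _).1 hv
      rw [bil_comm]
      exact hw _ (hbW i)

end

/-! ### Generators and words -/

section

variable {g n m : ℕ} {A : AbVar g} (K : KSC A n m)

/-- The generators over the complex numbers. -/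
noncomputable def T (i : Fin n) : Matrix (Idx g) (Idx g) ℂ := AbVar.toC (K.t i)

theorem toC_smul (q : ℚ) (Y : Matrix (Idx g) (Idx g) ℚ) :
    AbVar.toC (q • Y) = (q : ℂ) • AbVar.toC Y := by
  ext i j
  simp [AbVar.toC]

theorem toC_neg (Y : Matrix (Idx g) (Idx g) ℚ) : AbVar.toC (-Y) = -AbVar.toC Y := by
  ext i j
  simp [AbVar.toC]

theorem toC_sum {κ : Type} (s : Finset κ) (f : κ → Matrix (Idx g) (Idx g) ℚ) :
    AbVar.toC (∑ k ∈ s, f k) = ∑ k ∈ s, AbVar.toC (f k) := by
  ext i j
  simp [AbVar.toC, Matrix.sum_apply]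

theorem toC_one' : AbVar.toC (1 : Matrix (Idx g) (Idx g) ℚ) = 1 := by
  ext i j
  by_cases h : i = j
  · subst h
    simp [AbVar.toC]
  · simp [AbVar.toC, Matrix.one_apply_ne h]

theorem toC_inj' {α β : Matrix (Idx g) (Idx g) ℚ} (h : AbVar.toC α = AbVar.toC β) : α = β := by
  ext i j
  have := congrFun (congrFun h i) j
  simp only [AbVar.toC, Matrix.map_apply] at this
  exact (algebraMap ℚ ℂ).injective this

theorem T_sq (i : Fin n) : T K i * T K i = (K.q i : ℂ) • 1 := by
  unfold T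
  rw [← AbVar.toC_mul, K.sq, toC_smul, toC_one']

theorem T_anti (i j : Fin n) (h : i ≠ j) : T K i * T K j = -(T K j * T K i) := by
  unfold T
  rw [← AbVar.toC_mul, K.anti i j h, toC_neg, AbVar.toC_mul]

theorem T_rel (i j : Fin n) : T K i * T K j + T K j * T K i =
    if i = j then (2 * (K.q i : ℂ)) • (1 : Matrix (Idx g) (Idx g) ℂ) else 0 := by
  split_ifs with h
  · subst h
    rw [T_sq, ← add_smul, two_mul]
  · rw [T_anti K i j h, neg_add_cancel]

theorem cl_eq (v : Fin n → ℂ) : K.cl v = ∑ i, v i • T K i := rfl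

theorem cl_mul_cl (v w : Fin n → ℂ) : K.cl v * K.cl w = ∑ i, ∑ j, (v i * w j) • (T K i * T K j) := by
  rw [cl_eq, cl_eq, Finset.sum_mul]
  refine Finset.sum_congr rfl fun i _ => ?_
  rw [Finset.mul_sum]
  refine Finset.sum_congr rfl fun j _ => ?_
  rw [Matrix.smul_mul, Matrix.mul_smul, smul_smul]

theorem rel : Rel K := by
  intro v w
  have h2 : K.cl w * K.cl v = ∑ i, ∑ j, (v i * w j) • (T K j * T K i) := by
    rw [cl_mul_cl, Finset.sum_comm]
    refine Finset.sum_congr rfl fun i _ => Finset.sum_congr rfl fun j _ => ?_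
    rw [mul_comm]
  rw [cl_mul_cl, h2, ← Finset.sum_add_distrib]
  have h3 : ∀ i, (∑ j, (v i * w j) • (T K i * T K j)) + (∑ j, (v i * w j) • (T K j * T K i)) =
      (2 * ((K.q i : ℂ) * v i * w i)) • (1 : Matrix (Idx g) (Idx g) ℂ) := by
    intro i
    rw [← Finset.sum_add_distrib]
    have h4 : ∀ j, (v i * w j) • (T K i * T K j) + (v i * w j) • (T K j * T K i) =
        if i = j then (v i * w j * (2 * (K.q i : ℂ))) • (1 : Matrix (Idx g) (Idx g) ℂ) else 0 := by
      intro j
      rw [← smul_add, T_rel]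
      split_ifs with h
      · rw [smul_smul]
      · rw [smul_zero]
    rw [Finset.sum_congr rfl fun j _ => h4 j, Finset.sum_ite_eq Finset.univ i]
    simp only [Finset.mem_univ, if_true]
    congr 1
    ring
  rw [Finset.sum_congr rfl fun i _ => h3 i, ← Finset.sum_smul, ← Finset.mul_sum]
  rfl

theorem cl_eq_zero (v : Fin n → ℂ) (h : K.cl v = 0) : v = 0 := by
  refine bil_nondeg K v fun w => ?_
  have h1 := rel K v w
  rw [h, Matrix.zero_mul, Matrix.mul_zero, add_zero] at h1
  rcases smul_eq_zero.1 h1.symm with h2 | h2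
  · exact (mul_eq_zero.1 h2).resolve_left two_ne_zero
  · exact absurd h2 (one_ne K.pos)

theorem cl_inj {v w : Fin n → ℂ} (h : K.cl v = K.cl w) : v = w := by
  have h1 : K.cl (v - w) = 0 := by
    rw [sub_eq_add_neg, cl_add, ← neg_one_smul ℂ w, cl_smul, h]
    simp
  exact sub_eq_zero.1 (cl_eq_zero K _ h1)

theorem cl_single (i : Fin n) : K.cl (Pi.single i 1) = T K i := by
  rw [cl_eq, Finset.sum_eq_single i]
  · simp
  · intro j _ hj
    simp [Pi.single_eq_of_ne hj]
  · simp

theorem cl_sum {κ : Type} (s : Finset κ) (c : κ → ℂ) (f : κ → (Fin n → ℂ)) :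
    K.cl (∑ k ∈ s, c k • f k) = ∑ k ∈ s, c k • K.cl (f k) := by
  have h := map_sum (clL K) (fun k => c k • f k) s
  simp only [map_smul] at h
  exact h

/-- The product of the generators along a word. -/
noncomputable def wd (l : List (Fin n)) : Matrix (Idx g) (Idx g) ℂ := (l.map (T K)).prod

theorem wd_nil : wd K [] = 1 := rfl

theorem wd_cons (i : Fin n) (l : List (Fin n)) : wd K (i :: l) = T K i * wd K l := by
  simp [wd]

theorem wd_append (l l' : List (Fin n)) : wd K (l ++ l') = wd K l * wd K l' := by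
  simp [wd]

/-- Spans of words of given parity with letters in `s`. -/
noncomputable def Pw (s : Finset (Fin n)) (e : ℕ) : Submodule ℂ (Matrix (Idx g) (Idx g) ℂ) :=
  Submodule.span ℂ {Y | ∃ l : List (Fin n), (∀ j ∈ l, j ∈ s) ∧ Even (l.length + e) ∧ Y = wd K l}

theorem Pw_two (s : Finset (Fin n)) (e : ℕ) : Pw K s (e + 2) = Pw K s e := by
  unfold Pw
  congr 1
  ext Y
  constructor
  · rintro ⟨l, h1, h2, h3⟩
    exact ⟨l, h1, by
      rw [← add_assoc] at h2
      exact (Nat.even_add.1 h2).2 (by decide), h3⟩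
  · rintro ⟨l, h1, h2, h3⟩
    exact ⟨l, h1, by
      rw [← add_assoc]
      exact h2.add (by decide), h3⟩

theorem T_mul_Pw (s : Finset (Fin n)) (e : ℕ) (j : Fin n) (hj : j ∈ s)
    (a : Matrix (Idx g) (Idx g) ℂ) (ha : a ∈ Pw K s (e + 1)) : T K j * a ∈ Pw K s e := by
  unfold Pw at ha
  induction ha using Submodule.span_induction with
  | mem x hx =>
    obtain ⟨l, h1, h2, rfl⟩ := hx
    refine Submodule.subset_span ⟨j :: l, ?_, ?_, by rw [wd_cons]⟩
    · intro k hk
      rcases List.mem_cons.1 hk with rfl | hk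
      · exact hj
      · exact h1 k hk
    · rw [List.length_cons]
      have : l.length + 1 + e = l.length + (e + 1) := by ring
      rw [this]
      exact h2
  | zero => rw [Matrix.mul_zero]; exact Submodule.zero_mem _
  | add x y _ _ hx hy => rw [Matrix.mul_add]; exact Submodule.add_mem _ hx hy
  | smul c x _ hx => rw [Matrix.mul_smul]; exact Submodule.smul_mem _ _ hx

theorem T_comm_wd (i : Fin n) : ∀ l : List (Fin n), i ∉ l →
    T K i * wd K l = (-1 : ℂ) ^ l.length • (wd K l * T K i) := by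
  intro l
  induction l with
  | nil => intro _; simp [wd_nil]
  | cons j l ih =>
    intro h
    have h1 : i ≠ j := fun h' => h (by rw [h']; exact List.mem_cons_self)
    have h2 : i ∉ l := fun h' => h (List.mem_cons_of_mem _ h')
    rw [wd_cons, ← Matrix.mul_assoc, T_anti K i j h1, Matrix.neg_mul, Matrix.mul_assoc, ih h2,
      Matrix.mul_smul, List.length_cons, pow_succ, mul_neg_one, neg_smul, Matrix.mul_assoc]

theorem T_comm_Pw (s : Finset (Fin n)) (e : ℕ) (i : Fin n) (hi : i ∉ s)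
    (a : Matrix (Idx g) (Idx g) ℂ) (ha : a ∈ Pw K s e) :
    T K i * a = (-1 : ℂ) ^ e • (a * T K i) := by
  unfold Pw at ha
  induction ha using Submodule.span_induction with
  | mem x hx =>
    obtain ⟨l, h1, h2, rfl⟩ := hx
    rw [T_comm_wd K i l fun h => hi (h1 i h)]
    congr 1
    rcases Nat.even_or_odd e with he | he
    · rw [he.neg_one_pow, ((Nat.even_add.1 h2).2 he).neg_one_pow]
    · have : ¬ Even l.length := fun h => (Nat.not_even_iff_odd.2 he) ((Nat.even_add.1 h2).1 h)
      rw [he.neg_one_pow, (Nat.not_even_iff_odd.1 this).neg_one_pow]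
  | zero => simp
  | add x y _ _ hx hy => rw [Matrix.mul_add, hx, hy, Matrix.add_mul, smul_add]
  | smul c x _ hx => rw [Matrix.mul_smul, hx, Matrix.smul_mul, smul_comm]

theorem decomp_wd (s : Finset (Fin n)) (i : Fin n) (hi : i ∉ s) : ∀ l : List (Fin n),
    (∀ j ∈ l, j ∈ insert i s) → ∀ e, Even (l.length + e) →
    ∃ a ∈ Pw K s e, ∃ b ∈ Pw K s (e + 1), wd K l = a + T K i * b := by
  intro l
  induction l with
  | nil =>
    intro _ e he
    refine ⟨1, Submodule.subset_span ⟨[], by simp, he, rfl⟩, 0, Submodule.zero_mem _, ?_⟩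
    rw [Matrix.mul_zero, add_zero, wd_nil]
  | cons j l ih =>
    intro hl e he
    have he' : Even (l.length + (e + 1)) := by
      rw [List.length_cons] at he
      have : l.length + (e + 1) = l.length + 1 + e := by ring
      rw [this]
      exact he
    obtain ⟨a, ha, b, hb, hab⟩ := ih (fun k hk => hl k (List.mem_cons_of_mem _ hk)) (e + 1) he'
    rw [wd_cons, hab, Matrix.mul_add, ← Matrix.mul_assoc]
    rcases Finset.mem_insert.1 (hl j List.mem_cons_self) with rfl | hj
    · refine ⟨(K.q j : ℂ) • b, Submodule.smul_mem _ _ ?_, a, ha, ?_⟩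
      · have := Pw_two K s e
        rw [← this]
        exact hb
      · rw [T_sq, Matrix.smul_mul, Matrix.one_mul, add_comm]
    · have hji : j ≠ i := fun h => hi (by rw [← h]; exact hj)
      refine ⟨T K j * a, T_mul_Pw K s e j hj a ha, -(T K j * b), Submodule.neg_mem _ ?_, ?_⟩
      · exact T_mul_Pw K s (e + 1) j hj b hb
      · rw [T_anti K j i hji, Matrix.mul_neg, Matrix.neg_mul, Matrix.mul_assoc]

theorem decomp (s : Finset (Fin n)) (i : Fin n) (hi : i ∉ s) (e : ℕ)
    (Y : Matrix (Idx g) (Idx g) ℂ) (hY : Y ∈ Pw K (insert i s) e) :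
    ∃ a ∈ Pw K s e, ∃ b ∈ Pw K s (e + 1), Y = a + T K i * b := by
  unfold Pw at hY
  induction hY using Submodule.span_induction with
  | mem x hx =>
    obtain ⟨l, h1, h2, rfl⟩ := hx
    exact decomp_wd K s i hi l h1 e h2
  | zero => exact ⟨0, Submodule.zero_mem _, 0, Submodule.zero_mem _, by simp⟩
  | add x y _ _ hx hy =>
    obtain ⟨a, ha, b, hb, rfl⟩ := hx
    obtain ⟨a', ha', b', hb', rfl⟩ := hy
    refine ⟨a + a', Submodule.add_mem _ ha ha', b + b', Submodule.add_mem _ hb hb', ?_⟩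
    rw [Matrix.mul_add]
    abel
  | smul c x _ hx =>
    obtain ⟨a, ha, b, hb, rfl⟩ := hx
    refine ⟨c • a, Submodule.smul_mem _ _ ha, c • b, Submodule.smul_mem _ _ hb, ?_⟩
    rw [Matrix.mul_smul, smul_add]

theorem descend (s : Finset (Fin n)) : ∀ Y : Matrix (Idx g) (Idx g) ℂ, Y ∈ Pw K s 0 →
    (∀ i ∈ s, Y * T K i = T K i * Y) → Y ∈ Pw K ∅ 0 := by
  classical
  induction s using Finset.induction_on with
  | empty => intro Y hY _; exact hY
  | insert i s hi ih =>
    intro Y hY hc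
    obtain ⟨a, ha, b, hb, hab⟩ := decomp K s i hi 0 Y hY
    have h1 := T_comm_Pw K s 0 i hi a ha
    have h2 := T_comm_Pw K s 1 i hi b hb
    have h3 := hc i (Finset.mem_insert_self i s)
    rw [pow_zero, one_smul] at h1
    rw [pow_one, neg_one_smul] at h2
    rw [hab, Matrix.add_mul, Matrix.mul_add, ← h1, Matrix.mul_assoc] at h3
    have h4 : b * T K i = -(T K i * b) := by rw [h2, neg_neg]
    rw [h4, Matrix.mul_neg] at h3
    have h5 : -(T K i * (T K i * b)) = T K i * (T K i * b) := add_left_cancel h3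
    have h6 : T K i * (T K i * b) = 0 := by
      have h7 : (2 : ℂ) • (T K i * (T K i * b)) = 0 := by
        rw [two_smul]
        nth_rw 1 [← h5]
        rw [neg_add_cancel]
      exact (smul_eq_zero.1 h7).resolve_left two_ne_zero
    rw [← Matrix.mul_assoc, T_sq, Matrix.smul_mul, Matrix.one_mul] at h6
    have hq : (K.q i : ℂ) ≠ 0 := by exact_mod_cast K.q_ne i
    have hb0 : b = 0 := (smul_eq_zero.1 h6).resolve_left hq
    rw [hb0, Matrix.mul_zero, add_zero] at hab
    refine ih Y (by rw [hab]; exact ha) fun j hj => hc j (Finset.mem_insert_of_mem hj)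

theorem Pw_empty (Y : Matrix (Idx g) (Idx g) ℂ) (hY : Y ∈ Pw K ∅ 0) : ∃ c : ℂ, Y = c • 1 := by
  unfold Pw at hY
  induction hY using Submodule.span_induction with
  | mem x hx =>
    obtain ⟨l, h1, h2, rfl⟩ := hx
    have : l = [] := by
      rcases l with _ | ⟨j, l⟩
      · rfl
      · exact absurd (h1 j List.mem_cons_self) (by simp)
    rw [this, wd_nil]
    exact ⟨1, by rw [one_smul]⟩
  | zero => exact ⟨0, by simp⟩
  | add x y _ _ hx hy =>
    obtain ⟨c, rfl⟩ := hx
    obtain ⟨d, rfl⟩ := hy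
    exact ⟨c + d, by rw [add_smul]⟩
  | smul c x _ hx =>
    obtain ⟨d, rfl⟩ := hx
    exact ⟨c * d, by rw [smul_smul]⟩

/-- An even element commuting with `T` is a scalar. -/
theorem even_scalar (Y : Matrix (Idx g) (Idx g) ℂ) (hY : Y ∈ Pw K Finset.univ 0)
    (h : ∀ v, Y * K.cl v = K.cl v * Y) : ∃ c : ℂ, Y = c • 1 := by
  refine Pw_empty K Y (descend K Finset.univ Y hY fun i _ => ?_)
  rw [← cl_single]
  exact h _

theorem Pw_mul (Y Z : Matrix (Idx g) (Idx g) ℂ) (hY : Y ∈ Pw K Finset.univ 0)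
    (hZ : Z ∈ Pw K Finset.univ 0) : Y * Z ∈ Pw K Finset.univ 0 := by
  unfold Pw at hY
  induction hY using Submodule.span_induction with
  | mem x hx =>
    obtain ⟨l, _, h2, rfl⟩ := hx
    unfold Pw at hZ
    induction hZ using Submodule.span_induction with
    | mem y hy =>
      obtain ⟨l', _, h2', rfl⟩ := hy
      refine Submodule.subset_span ⟨l ++ l', by simp, ?_, by rw [wd_append]⟩
      rw [add_zero] at h2 h2' ⊢
      rw [List.length_append]
      exact h2.add h2'
    | zero => rw [Matrix.mul_zero]; exact Submodule.zero_mem _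
    | add x y _ _ hx hy => rw [Matrix.mul_add]; exact Submodule.add_mem _ hx hy
    | smul c x _ hx => rw [Matrix.mul_smul]; exact Submodule.smul_mem _ _ hx
  | zero => rw [Matrix.zero_mul]; exact Submodule.zero_mem _
  | add x y _ _ hx hy => rw [Matrix.add_mul]; exact Submodule.add_mem _ hx hy
  | smul c x _ hx => rw [Matrix.smul_mul]; exact Submodule.smul_mem _ _ hx

theorem cl_mul_Pw (e : ℕ) (v : Fin n → ℂ) (a : Matrix (Idx g) (Idx g) ℂ)
    (ha : a ∈ Pw K Finset.univ (e + 1)) : K.cl v * a ∈ Pw K Finset.univ e := by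
  rw [cl_eq, Finset.sum_mul]
  refine Submodule.sum_mem _ fun i _ => ?_
  rw [Matrix.smul_mul]
  exact Submodule.smul_mem _ _ (T_mul_Pw K Finset.univ e i (Finset.mem_univ i) a ha)

theorem pr_mem_Pw : ∀ (l : List (Fin n → ℂ)) (e : ℕ), Even (l.length + e) →
    pr K l ∈ Pw K Finset.univ e := by
  intro l
  induction l with
  | nil =>
    intro e he
    exact Submodule.subset_span ⟨[], by simp, he, rfl⟩
  | cons a l ih =>
    intro e he
    rw [pr_cons]
    refine cl_mul_Pw K e a _ (ih (e + 1) ?_)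
    rw [List.length_cons] at he
    have : l.length + (e + 1) = l.length + 1 + e := by ring
    rw [this]
    exact he

/-! ### The elements `Z a` -/

theorem Z_add (a b : Matrix (Fin n) (Fin n) ℂ) : K.Z (a + b) = K.Z a + K.Z b := by
  unfold KSC.Z
  rw [← Finset.sum_add_distrib]
  refine Finset.sum_congr rfl fun i _ => ?_
  rw [Matrix.add_mulVec, cl_add, Matrix.add_mul, smul_add]

theorem Z_smul (c : ℂ) (a : Matrix (Fin n) (Fin n) ℂ) : K.Z (c • a) = c • K.Z a := by
  unfold KSC.Z
  rw [Finset.smul_sum]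
  refine Finset.sum_congr rfl fun i _ => ?_
  rw [Matrix.smul_mulVec, cl_smul, Matrix.smul_mul, smul_comm]

theorem Z_even (a : Matrix (Fin n) (Fin n) ℂ) : K.Z a ∈ Pw K Finset.univ 0 := by
  unfold KSC.Z
  refine Submodule.sum_mem _ fun i _ => Submodule.smul_mem _ _ ?_
  have h := pr_mem_Pw K [a *ᵥ Pi.single i 1, Pi.single i 1] 0 (by simp)
  rw [pr_cons, pr_cons, pr_nil, Matrix.mul_one] at h
  exact h

/-- `pr l * Z a * pr l` is even. -/
theorem RZR_even (a : Matrix (Fin n) (Fin n) ℂ) (l : List (Fin n → ℂ)) :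
    pr K l * K.Z a * pr K l ∈ Pw K Finset.univ 0 := by
  unfold KSC.Z
  rw [Finset.mul_sum, Finset.sum_mul]
  refine Submodule.sum_mem _ fun i _ => ?_
  rw [Matrix.mul_smul, Matrix.smul_mul]
  refine Submodule.smul_mem _ _ ?_
  have h := pr_mem_Pw K (l ++ ([a *ᵥ Pi.single i 1, Pi.single i 1] ++ l)) 0 (by
    simp only [List.length_append, List.length_cons, List.length_nil]
    exact ⟨l.length + 1, by ring⟩)
  rw [pr_append, pr_append, pr_cons, pr_cons, pr_nil, Matrix.mul_one, ← Matrix.mul_assoc] at h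
  exact h

/-- The lift of a skew endomorphism. -/
theorem lift (a : Matrix (Fin n) (Fin n) ℂ)
    (ha : ∀ v w, K.bil (a *ᵥ v) w + K.bil v (a *ᵥ w) = 0) (v : Fin n → ℂ) :
    K.Z a * K.cl v - K.cl v * K.Z a = K.cl (a *ᵥ v) := by
  have hcom : ∀ x y : Fin n → ℂ, K.cl x * K.cl y * K.cl v - K.cl v * (K.cl x * K.cl y) =
      (2 * K.bil y v) • K.cl x - (2 * K.bil x v) • K.cl y := by
    intro x y
    have e1 := rel K y v
    have e2 := rel K x v
    have e3 : K.cl x * K.cl y * K.cl v - K.cl v * (K.cl x * K.cl y) =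
        K.cl x * (K.cl y * K.cl v + K.cl v * K.cl y) - (K.cl x * K.cl v + K.cl v * K.cl x) * K.cl y := by
      noncomm_ring
    rw [e3, e1, e2, Matrix.mul_smul, Matrix.smul_mul, Matrix.mul_one, Matrix.one_mul]
  unfold KSC.Z
  rw [Finset.sum_mul, Finset.mul_sum, ← Finset.sum_sub_distrib]
  have h1 : ∀ i, ((4 * (K.q i : ℂ))⁻¹) • (K.cl (a *ᵥ Pi.single i 1) * K.cl (Pi.single i 1)) * K.cl v -
      K.cl v * ((4 * (K.q i : ℂ))⁻¹) • (K.cl (a *ᵥ Pi.single i 1) * K.cl (Pi.single i 1)) =
      (v i / 2) • K.cl (a *ᵥ Pi.single i 1) + ((a *ᵥ v) i / 2) • K.cl (Pi.single i 1) := by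
    intro i
    have hq : (K.q i : ℂ) ≠ 0 := by exact_mod_cast K.q_ne i
    rw [Matrix.smul_mul, Matrix.mul_smul, ← smul_sub, hcom]
    have e1 : K.bil (Pi.single i 1) v = (K.q i : ℂ) * v i := by
      rw [bil_comm, bil_single, mul_one]
    have e2 : K.bil (a *ᵥ Pi.single i 1) v = -((K.q i : ℂ) * (a *ᵥ v) i) := by
      have e3 := ha (Pi.single i 1) v
      rw [bil_comm K (Pi.single i 1) (a *ᵥ v), bil_single, mul_one] at e3
      exact eq_neg_of_add_eq_zero_left e3
    rw [e1, e2, smul_sub, smul_smul, smul_smul, sub_eq_add_neg, ← neg_smul]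
    congr 2
    · field_simp
      ring
    · field_simp
      ring
  rw [Finset.sum_congr rfl fun i _ => h1 i, Finset.sum_add_distrib]
  have h2 : ∑ i, (v i / 2) • K.cl (a *ᵥ Pi.single i 1) = (2 : ℂ)⁻¹ • K.cl (a *ᵥ v) := by
    rw [← cl_sum, ← cl_smul]
    congr 1
    funext r
    simp only [Finset.sum_apply, Pi.smul_apply, smul_eq_mul, Matrix.mulVec_single_one,
      Matrix.col_apply, Matrix.mulVec, dotProduct, Finset.mul_sum]
    exact Finset.sum_congr rfl fun i _ => by ring
  have h3 : ∑ i, ((a *ᵥ v) i / 2) • K.cl (Pi.single i 1) = (2 : ℂ)⁻¹ • K.cl (a *ᵥ v) := by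
    rw [← cl_sum, ← cl_smul]
    congr 1
    funext r
    simp only [Finset.sum_apply, Pi.smul_apply, smul_eq_mul]
    rw [Finset.sum_eq_single r]
    · simp
      ring
    · intro j _ hj
      simp [Pi.single_eq_of_ne (Ne.symm hj)]
    · simp
  rw [h2, h3, ← add_smul]
  norm_num

/-- Elements of `S` are skew for the form. -/
theorem S_skew (a : Matrix (Fin n) (Fin n) ℂ) (ha : a ∈ K.S) (v w : Fin n → ℂ) :
    K.bil (a *ᵥ v) w + K.bil v (a *ᵥ w) = 0 := by
  have h0 : aᵀ * Matrix.diagonal (fun i => (K.q i : ℂ)) +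
    Matrix.diagonal (fun i => (K.q i : ℂ)) * a = 0 := ha.1
  have hb : ∀ x y : Fin n → ℂ, K.bil x y = x ⬝ᵥ (Matrix.diagonal (fun i => (K.q i : ℂ)) *ᵥ y) := by
    intro x y
    unfold KSC.bil
    simp only [dotProduct, Matrix.mulVec_diagonal]
    exact Finset.sum_congr rfl fun i _ => by ring
  have e1 : K.bil (a *ᵥ v) w = v ⬝ᵥ ((aᵀ * Matrix.diagonal (fun i => (K.q i : ℂ))) *ᵥ w) := by
    rw [hb, ← Matrix.mulVec_mulVec, Matrix.dotProduct_mulVec v aᵀ, Matrix.vecMul_transpose]
  have e2 : K.bil v (a *ᵥ w) = v ⬝ᵥ ((Matrix.diagonal (fun i => (K.q i : ℂ)) * a) *ᵥ w) := by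
    rw [hb, Matrix.mulVec_mulVec]
  rw [e1, e2, ← dotProduct_add, ← Matrix.add_mulVec, h0, Matrix.zero_mulVec, dotProduct_zero]

end

end C5X

end Pool.Agent.K3C
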