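import Pool.Agent.K3C.C7
import Pool.Agent.K3C.C5x

/-!
# C7c: from real to complex
-/

open scoped BigOperators
open Matrix Polynomial

namespace Pool.Agent.K3C

open Pool.Agent.DRB Pool.Agent.K3D Pool.Agent.K3E

noncomputable section

namespace C7C

variable {g n m : ℕ} {A : AbVar g} (K : KSC A n m)

theorem im_ne : K.lam.im ≠ 0 := (K.cm K.lam K.lam_root).1

theorem lamc_ne : K.lam ≠ (starRingEnd ℂ) K.lam := by
  intro h
  have := congrArg Complex.im h
  rw [Complex.conj_im] at this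
  exact im_ne K (by linarith)

/-- The real form of the generator. -/
def thR : Matrix (Fin n) (Fin n) ℝ := K.th.map (fun x => (x : ℝ))

/-- The complex structure. -/
def JR : Matrix (Fin n) (Fin n) ℝ := (K.lam.im)⁻¹ • (thR K - K.lam.re • (1 : Matrix (Fin n) (Fin n) ℝ))

theorem JR_mulVec (v : Fin n → ℝ) : JR K *ᵥ v = (K.lam.im)⁻¹ • (thR K *ᵥ v - K.lam.re • v) := by
  rw [JR, Matrix.smul_mulVec, Matrix.sub_mulVec, Matrix.smul_mulVec, Matrix.one_mulVec]

theorem thR_mulVec (v : Fin n → ℝ) : thR K *ᵥ v = K.lam.re • v + K.lam.im • (JR K *ᵥ v) := by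
  rw [JR_mulVec, smul_smul, mul_inv_cancel₀ (im_ne K), one_smul]
  abel

/-- The real subspace. -/
def V0 : Submodule ℝ (Fin n → ℝ) where
  carrier := {v | JR K *ᵥ (JR K *ᵥ v) = -v}
  add_mem' := by
    intro a b (h1 : _ = _) (h2 : _ = _)
    show _ = _
    rw [Matrix.mulVec_add, Matrix.mulVec_add, h1, h2, neg_add]
  zero_mem' := by
    show _ = _
    rw [Matrix.mulVec_zero, Matrix.mulVec_zero, neg_zero]
  smul_mem' := by
    intro c a (h : _ = _)
    show _ = _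
    rw [Matrix.mulVec_smul, Matrix.mulVec_smul, h, smul_neg]

theorem mem_V0 {v : Fin n → ℝ} : v ∈ V0 K ↔ JR K *ᵥ (JR K *ᵥ v) = -v := Iff.rfl

theorem J_mem {v : Fin n → ℝ} (hv : v ∈ V0 K) : JR K *ᵥ v ∈ V0 K := by
  rw [mem_V0] at hv ⊢
  rw [hv, Matrix.mulVec_neg]

/-- `x - i J x` -/
def Pp : (Fin n → ℝ) →ₗ[ℝ] (Fin n → ℂ) where
  toFun x := fun i => (x i : ℂ) - Complex.I * ((JR K *ᵥ x) i : ℂ)
  map_add' x y := by
    ext i
    simp only [Matrix.mulVec_add, Pi.add_apply, Complex.ofReal_add]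
    ring
  map_smul' c x := by
    ext i
    simp only [Matrix.mulVec_smul, Pi.smul_apply, smul_eq_mul, Complex.ofReal_mul, RingHom.id_apply,
      Complex.real_smul]
    ring

/-- `x + i J x` -/
def Pm : (Fin n → ℝ) →ₗ[ℝ] (Fin n → ℂ) where
  toFun x := fun i => (x i : ℂ) + Complex.I * ((JR K *ᵥ x) i : ℂ)
  map_add' x y := by
    ext i
    simp only [Matrix.mulVec_add, Pi.add_apply, Complex.ofReal_add]
    ring
  map_smul' c x := by
    ext i
    simp only [Matrix.mulVec_smul, Pi.smul_apply, smul_eq_mul, Complex.ofReal_mul, RingHom.id_apply,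
      Complex.real_smul]
    ring

theorem Pp_apply (x : Fin n → ℝ) (i : Fin n) :
    Pp K x i = (x i : ℂ) - Complex.I * ((JR K *ᵥ x) i : ℂ) := rfl

theorem Pm_apply (x : Fin n → ℝ) (i : Fin n) :
    Pm K x i = (x i : ℂ) + Complex.I * ((JR K *ᵥ x) i : ℂ) := rfl

theorem Pp_re (x : Fin n → ℝ) : (fun i => (Pp K x i).re) = x := by
  ext i; simp [Pp_apply]

theorem Pm_re (x : Fin n → ℝ) : (fun i => (Pm K x i).re) = x := by
  ext i; simp [Pm_apply]

theorem Pp_J {x : Fin n → ℝ} (hx : x ∈ V0 K) : Pp K (JR K *ᵥ x) = Complex.I • Pp K x := by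
  ext i
  rw [Pp_apply, Pi.smul_apply, Pp_apply, (mem_V0 K).1 hx, smul_eq_mul, Pi.neg_apply,
    Complex.ofReal_neg, mul_sub, ← mul_assoc, Complex.I_mul_I]
  ring

theorem Pm_J {x : Fin n → ℝ} (hx : x ∈ V0 K) : Pm K (JR K *ᵥ x) = -(Complex.I • Pm K x) := by
  ext i
  rw [Pm_apply, Pi.neg_apply, Pi.smul_apply, Pm_apply, (mem_V0 K).1 hx, smul_eq_mul, Pi.neg_apply,
    Complex.ofReal_neg, mul_add, ← mul_assoc, Complex.I_mul_I]
  ring

theorem real_mulVec_re (a : Matrix (Fin n) (Fin n) ℝ) (v : Fin n → ℂ) (i : Fin n) :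
    ((a.map Complex.ofReal *ᵥ v) i).re = (a *ᵥ fun j => (v j).re) i := by
  simp only [Matrix.mulVec, dotProduct, Matrix.map_apply, Complex.re_sum]
  exact Finset.sum_congr rfl fun j _ => Complex.re_ofReal_mul _ _

theorem real_mulVec_im (a : Matrix (Fin n) (Fin n) ℝ) (v : Fin n → ℂ) (i : Fin n) :
    ((a.map Complex.ofReal *ᵥ v) i).im = (a *ᵥ fun j => (v j).im) i := by
  simp only [Matrix.mulVec, dotProduct, Matrix.map_apply, Complex.im_sum]
  exact Finset.sum_congr rfl fun j _ => Complex.im_ofReal_mul _ _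

theorem thC_eq : K.thC = (thR K).map Complex.ofReal := by
  ext i j
  simp only [KSC.thC, thR, Matrix.map_apply]
  norm_cast

theorem mem_Tl {z : ℂ} {v : Fin n → ℂ} : v ∈ K.Tl z ↔ K.thC *ᵥ v = z • v := Iff.rfl

/-- the structure of the vectors of `T_lam` -/
theorem Tl_re {v : Fin n → ℂ} (hv : v ∈ K.Tl K.lam) :
    (fun i => (v i).re) ∈ V0 K ∧ Pp K (fun i => (v i).re) = v := by
  rw [mem_Tl, thC_eq] at hv
  have h1 : thR K *ᵥ (fun i => (v i).re) = K.lam.re • (fun i => (v i).re) -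
      K.lam.im • (fun i => (v i).im) := by
    ext i
    rw [← real_mulVec_re, hv]
    simp [Complex.mul_re]
  have h2 : thR K *ᵥ (fun i => (v i).im) = K.lam.re • (fun i => (v i).im) +
      K.lam.im • (fun i => (v i).re) := by
    ext i
    rw [← real_mulVec_im, hv]
    simp [Complex.mul_im]
  have h3 : JR K *ᵥ (fun i => (v i).re) = -fun i => (v i).im := by
    rw [JR_mulVec, h1, sub_sub_cancel_left, smul_neg, smul_smul, inv_mul_cancel₀ (im_ne K), one_smul]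
  have h4 : JR K *ᵥ (fun i => (v i).im) = fun i => (v i).re := by
    rw [JR_mulVec, h2, add_sub_cancel_left, smul_smul, inv_mul_cancel₀ (im_ne K), one_smul]
  refine ⟨?_, ?_⟩
  · rw [mem_V0, h3, Matrix.mulVec_neg, h4]
  · ext i
    rw [Pp_apply, h3]
    apply Complex.ext <;> simp

/-- the structure of the vectors of `T_lambar` -/
theorem Tl_re' {v : Fin n → ℂ} (hv : v ∈ K.Tl ((starRingEnd ℂ) K.lam)) :
    (fun i => (v i).re) ∈ V0 K ∧ Pm K (fun i => (v i).re) = v := by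
  rw [mem_Tl, thC_eq] at hv
  have h1 : thR K *ᵥ (fun i => (v i).re) = K.lam.re • (fun i => (v i).re) +
      K.lam.im • (fun i => (v i).im) := by
    ext i
    rw [← real_mulVec_re, hv]
    simp [Complex.mul_re]
  have h2 : thR K *ᵥ (fun i => (v i).im) = K.lam.re • (fun i => (v i).im) -
      K.lam.im • (fun i => (v i).re) := by
    ext i
    rw [← real_mulVec_im, hv]
    simp [Complex.mul_im]
    ring
  have h3 : JR K *ᵥ (fun i => (v i).re) = fun i => (v i).im := by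
    rw [JR_mulVec, h1, add_sub_cancel_left, smul_smul, inv_mul_cancel₀ (im_ne K), one_smul]
  have h4 : JR K *ᵥ (fun i => (v i).im) = -fun i => (v i).re := by
    rw [JR_mulVec, h2, sub_sub_cancel_left, smul_neg, smul_smul, inv_mul_cancel₀ (im_ne K), one_smul]
  refine ⟨?_, ?_⟩
  · rw [mem_V0, h3, h4]
  · ext i
    rw [Pm_apply, h3]
    apply Complex.ext <;> simp

theorem Pp_mem {x : Fin n → ℝ} (hx : x ∈ V0 K) : Pp K x ∈ K.Tl K.lam := by
  rw [mem_Tl, thC_eq]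
  have e1 : thR K *ᵥ x = K.lam.re • x + K.lam.im • (JR K *ᵥ x) := thR_mulVec K x
  have e2 : thR K *ᵥ (JR K *ᵥ x) = K.lam.re • (JR K *ᵥ x) - K.lam.im • x := by
    rw [thR_mulVec, (mem_V0 K).1 hx, smul_neg, sub_eq_add_neg]
  have r1 : (fun j => (Pp K x j).re) = x := Pp_re K x
  have r2 : (fun j => (Pp K x j).im) = -(JR K *ᵥ x) := by
    ext j; simp [Pp_apply]
  ext i
  apply Complex.ext
  · rw [real_mulVec_re, r1, e1]
    simp [Pp_apply, Complex.mul_re]
  · rw [real_mulVec_im, r2, Matrix.mulVec_neg, e2]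
    simp [Pp_apply, Complex.mul_im]
    ring

theorem Pm_mem {x : Fin n → ℝ} (hx : x ∈ V0 K) : Pm K x ∈ K.Tl ((starRingEnd ℂ) K.lam) := by
  rw [mem_Tl, thC_eq]
  have e1 : thR K *ᵥ x = K.lam.re • x + K.lam.im • (JR K *ᵥ x) := thR_mulVec K x
  have e2 : thR K *ᵥ (JR K *ᵥ x) = K.lam.re • (JR K *ᵥ x) - K.lam.im • x := by
    rw [thR_mulVec, (mem_V0 K).1 hx, smul_neg, sub_eq_add_neg]
  have r1 : (fun j => (Pm K x j).re) = x := Pm_re K x
  have r2 : (fun j => (Pm K x j).im) = JR K *ᵥ x := by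
    ext j; simp [Pm_apply]
  ext i
  apply Complex.ext
  · rw [real_mulVec_re, r1, e1]
    simp [Pm_apply, Complex.mul_re]
  · rw [real_mulVec_im, r2, e2]
    simp [Pm_apply, Complex.mul_im]
    ring

/-- the action of real matrices commuting with `J` -/
theorem map_Pp {a : Matrix (Fin n) (Fin n) ℝ} {x : Fin n → ℝ}
    (h : a *ᵥ (JR K *ᵥ x) = JR K *ᵥ (a *ᵥ x)) : (a.map Complex.ofReal) *ᵥ Pp K x = Pp K (a *ᵥ x) := by
  have r2 : (fun j => (Pp K x j).im) = -(JR K *ᵥ x) := by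
    ext j; simp [Pp_apply]
  ext i
  apply Complex.ext
  · rw [real_mulVec_re, Pp_re]; simp [Pp_apply]
  · rw [real_mulVec_im, r2, Matrix.mulVec_neg, h]; simp [Pp_apply]

theorem map_Pm {a : Matrix (Fin n) (Fin n) ℝ} {x : Fin n → ℝ}
    (h : a *ᵥ (JR K *ᵥ x) = JR K *ᵥ (a *ᵥ x)) : (a.map Complex.ofReal) *ᵥ Pm K x = Pm K (a *ᵥ x) := by
  have r2 : (fun j => (Pm K x j).im) = JR K *ᵥ x := by
    ext j; simp [Pm_apply]
  ext i
  apply Complex.ext
  · rw [real_mulVec_re, Pm_re]; simp [Pm_apply]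
  · rw [real_mulVec_im, r2, h]; simp [Pm_apply]

/-- the real form -/
def qR : Fin n → ℝ := fun i => (K.q i : ℝ)

theorem bil_Pp_Pp (x y : Fin n → ℝ) : K.bil (Pp K x) (Pp K y) =
    ((∑ i, qR K i * x i * y i - ∑ i, qR K i * (JR K *ᵥ x) i * (JR K *ᵥ y) i : ℝ) : ℂ) -
    Complex.I * ((∑ i, qR K i * x i * (JR K *ᵥ y) i + ∑ i, qR K i * (JR K *ᵥ x) i * y i : ℝ) : ℂ) := by
  simp only [KSC.bil, Pp_apply, qR]
  push_cast
  rw [← Finset.sum_sub_distrib, ← Finset.sum_add_distrib, Finset.mul_sum, ← Finset.sum_sub_distrib]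
  refine Finset.sum_congr rfl fun i _ => ?_
  linear_combination (K.q i : ℂ) * ((JR K *ᵥ x) i : ℂ) * ((JR K *ᵥ y) i : ℂ) * Complex.I_sq

theorem bil_Pp_Pm (x y : Fin n → ℝ) : K.bil (Pp K x) (Pm K y) =
    ((∑ i, qR K i * x i * y i + ∑ i, qR K i * (JR K *ᵥ x) i * (JR K *ᵥ y) i : ℝ) : ℂ) +
    Complex.I * ((∑ i, qR K i * x i * (JR K *ᵥ y) i - ∑ i, qR K i * (JR K *ᵥ x) i * y i : ℝ) : ℂ) := by
  simp only [KSC.bil, Pp_apply, Pm_apply, qR]
  push_cast
  rw [← Finset.sum_sub_distrib, ← Finset.sum_add_distrib, Finset.mul_sum, ← Finset.sum_add_distrib]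
  refine Finset.sum_congr rfl fun i _ => ?_
  linear_combination -(K.q i : ℂ) * ((JR K *ᵥ x) i : ℂ) * ((JR K *ᵥ y) i : ℂ) * Complex.I_sq

/-- `J` is skew on `V0` -/
theorem Jskew (horth : ∀ v ∈ K.Tl K.lam, ∀ w ∈ K.Tl K.lam, K.bil v w = 0) {x y : Fin n → ℝ}
    (hx : x ∈ V0 K) (hy : y ∈ V0 K) :
    (∑ i, qR K i * (JR K *ᵥ x) i * y i = -∑ i, qR K i * x i * (JR K *ᵥ y) i) ∧
    (∑ i, qR K i * (JR K *ᵥ x) i * (JR K *ᵥ y) i = ∑ i, qR K i * x i * y i) := by
  have h := horth _ (Pp_mem K hx) _ (Pp_mem K hy)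
  rw [bil_Pp_Pp] at h
  have h1 := congrArg Complex.re h
  have h2 := congrArg Complex.im h
  simp only [Complex.sub_re, Complex.sub_im, Complex.ofReal_re, Complex.ofReal_im, Complex.mul_re,
    Complex.mul_im, Complex.I_re, Complex.I_im, Complex.zero_re, Complex.zero_im] at h1 h2
  constructor <;> linarith

/-- the matrix of `x ∧ y` -/
def wm (x y : Fin n → ℂ) : Matrix (Fin n) (Fin n) ℂ :=
  Matrix.of fun i j => x i * ((K.q j : ℂ) * y j) - y i * ((K.q j : ℂ) * x j)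

theorem wm_mulVec (x y v : Fin n → ℂ) : wm K x y *ᵥ v = K.bil y v • x - K.bil x v • y := by
  ext i
  simp only [Matrix.mulVec, dotProduct, wm, Matrix.of_apply, Pi.sub_apply, Pi.smul_apply,
    smul_eq_mul, KSC.bil, Finset.sum_mul]
  rw [← Finset.sum_sub_distrib]
  exact Finset.sum_congr rfl fun j _ => by ring

/-- the real matrix of `x ∧ y + J x ∧ J y` -/
def um (x y : Fin n → ℝ) : Matrix (Fin n) (Fin n) ℝ :=
  Matrix.of fun i j => x i * (qR K j * y j) - y i * (qR K j * x j) +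
    ((JR K *ᵥ x) i * (qR K j * (JR K *ᵥ y) j) - (JR K *ᵥ y) i * (qR K j * (JR K *ᵥ x) j))

theorem um_mulVec (x y v : Fin n → ℝ) : um K x y *ᵥ v =
    (∑ i, qR K i * y i * v i) • x - (∑ i, qR K i * x i * v i) • y +
    ((∑ i, qR K i * (JR K *ᵥ y) i * v i) • (JR K *ᵥ x) -
      (∑ i, qR K i * (JR K *ᵥ x) i * v i) • (JR K *ᵥ y)) := by
  unfold um
  generalize JR K *ᵥ x = x'
  generalize JR K *ᵥ y = y'
  ext i
  simp only [Matrix.mulVec, dotProduct, Matrix.of_apply, Pi.sub_apply, Pi.add_apply,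
    Pi.smul_apply, smul_eq_mul, Finset.sum_mul]
  rw [← Finset.sum_sub_distrib, ← Finset.sum_sub_distrib, ← Finset.sum_add_distrib]
  exact Finset.sum_congr rfl fun j _ => by ring

theorem wm_eq {x y : Fin n → ℝ} (hy : y ∈ V0 K) : wm K (Pp K x) (Pm K y) =
    (um K x y).map Complex.ofReal + Complex.I • (um K x (JR K *ᵥ y)).map Complex.ofReal := by
  ext i j
  simp only [wm, um, Matrix.of_apply, Matrix.add_apply, Matrix.smul_apply, Matrix.map_apply,
    Pp_apply, Pm_apply, (mem_V0 K).1 hy, qR, smul_eq_mul, Pi.neg_apply]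
  push_cast
  have := Complex.I_sq
  linear_combination (-(JR K *ᵥ x) i * ((K.q j : ℂ) * (JR K *ᵥ y) j) +
    (JR K *ᵥ y) i * ((K.q j : ℂ) * (JR K *ᵥ x) j)) * this

/-- Case (a). -/
theorem caseA (horth : ∀ v ∈ K.Tl K.lam, ∀ w ∈ K.Tl K.lam, K.bil v w = 0)
    {L : Submodule ℂ (Matrix (Fin n) (Fin n) ℂ)}
    (h : ∀ x ∈ V0 K, ∀ y ∈ V0 K, ∑ i, qR K i * (JR K *ᵥ x) i * y i = 0 →
      (um K x y).map Complex.ofReal ∈ L) {v w : Fin n → ℂ} (hv : v ∈ K.Tl K.lam)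
    (hw : w ∈ K.Tl ((starRingEnd ℂ) K.lam)) (hvw : K.bil v w = 0) : wm K v w ∈ L := by
  obtain ⟨hx, hxv⟩ := Tl_re K hv
  obtain ⟨hy, hyw⟩ := Tl_re' K hw
  generalize (fun i => (v i).re) = x at *
  generalize (fun i => (w i).re) = y at *
  subst hxv hyw
  rw [bil_Pp_Pm] at hvw
  have h1 := congrArg Complex.re hvw
  have h2 := congrArg Complex.im hvw
  simp only [Complex.add_re, Complex.add_im, Complex.ofReal_re, Complex.ofReal_im, Complex.mul_re,
    Complex.mul_im, Complex.I_re, Complex.I_im, Complex.zero_re, Complex.zero_im] at h1 h2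
  obtain ⟨h3, h4⟩ := Jskew K horth hx hy
  rw [wm_eq K hy]
  refine L.add_mem (h x hx y hy (by linarith)) (L.smul_mem _ (h x hx _ (J_mem K hy) (by linarith)))

/-- Case (b). -/
theorem caseB (hnd : ∀ x ∈ V0 K, (∀ y ∈ V0 K, ∑ i, qR K i * x i * y i = 0) → x = 0)
    {R : Submodule ℝ (Fin n → ℝ)} (hR0 : R ≤ V0 K)
    (hR1 : ∀ x ∈ V0 K, ∃ r ∈ R, ∃ s ∈ R, x = r + JR K *ᵥ s)
    (hR2 : ∀ x ∈ R, ∀ y ∈ R, ∑ i, qR K i * x i * (JR K *ᵥ y) i = 0)
    {P : Matrix (Fin n) (Fin n) ℝ → Prop}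
    (hR3 : ∀ a, P a → ∃ c : ℝ, ∀ x ∈ R, a *ᵥ x - c • (JR K *ᵥ x) ∈ R)
    (hcomm : ∀ a, P a → ∀ x ∈ V0 K, a *ᵥ (JR K *ᵥ x) = JR K *ᵥ (a *ᵥ x)) :
    ∃ φ : (Fin n → ℂ) →ₗ[ℂ] (Fin n → ℂ),
      (∀ v ∈ K.Tl K.lam, φ v ∈ K.Tl ((starRingEnd ℂ) K.lam)) ∧
      (∀ v ∈ K.Tl K.lam, φ v = 0 → v = 0) ∧
      (∀ v ∈ K.Tl K.lam, ∀ w ∈ K.Tl K.lam, K.bil v (φ w) = K.bil w (φ v)) ∧
      ∀ a : Matrix (Fin n) (Fin n) ℂ, P (a.map Complex.re) → P (a.map Complex.im) →
        ∃ c : ℂ, ∀ v ∈ K.Tl K.lam, a *ᵥ (φ v) = φ (a *ᵥ v) + c • φ v := by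
  have hsym : ∀ x y : Fin n → ℝ, ∑ i, qR K i * x i * y i = ∑ i, qR K i * y i * x i :=
    fun x y => Finset.sum_congr rfl fun i _ => by ring
  have uniq : ∀ r ∈ R, ∀ s ∈ R, r + JR K *ᵥ s = 0 → r = 0 ∧ s = 0 := by
    intro r hr s hs h
    have hrs : r = -(JR K *ᵥ s) := eq_neg_of_add_eq_zero_left h
    have h1 : r = 0 := by
      refine hnd r (hR0 hr) fun y hy => ?_
      obtain ⟨p, hp, p', hp', rfl⟩ := hR1 y hy
      have e1 : ∑ i, qR K i * r i * p i = 0 := by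
        have h3 := hR2 p hp s hs
        rw [hsym]
        have : ∑ i, qR K i * p i * r i = -∑ i, qR K i * p i * (JR K *ᵥ s) i := by
          rw [← Finset.sum_neg_distrib]
          refine Finset.sum_congr rfl fun i _ => ?_
          conv_lhs => rw [hrs]
          rw [Pi.neg_apply]; ring
        rw [this, h3, neg_zero]
      have e2 := hR2 r hr p' hp'
      have : ∑ i, qR K i * r i * (p + JR K *ᵥ p') i =
          ∑ i, qR K i * r i * p i + ∑ i, qR K i * r i * (JR K *ᵥ p') i := by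
        rw [← Finset.sum_add_distrib]
        exact Finset.sum_congr rfl fun i _ => by rw [Pi.add_apply]; ring
      rw [this, e1, e2, add_zero]
    refine ⟨h1, ?_⟩
    rw [h1, zero_add] at h
    have h2 := (mem_V0 K).1 (hR0 hs)
    rw [h, Matrix.mulVec_zero] at h2
    rw [← neg_eq_zero]; exact h2.symm
  let T : (R × R) →ₗ[ℝ] V0 K := LinearMap.codRestrict (V0 K)
    ((R.subtype).coprod ((Matrix.mulVecLin (JR K)).comp R.subtype)) (by
      rintro ⟨r, s⟩
      exact (V0 K).add_mem (hR0 r.2) (J_mem K (hR0 s.2)))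
  have hT : ∀ r s : R, (T (r, s) : Fin n → ℝ) = r + JR K *ᵥ s := fun r s => rfl
  have hTi : Function.Injective T := by
    rw [← LinearMap.ker_eq_bot, eq_bot_iff]
    rintro ⟨r, s⟩ h
    rw [LinearMap.mem_ker] at h
    have h1 := congrArg Subtype.val h
    rw [hT] at h1
    obtain ⟨h2, h3⟩ := uniq r r.2 s s.2 h1
    rw [Submodule.mem_bot]
    exact Prod.ext (Subtype.ext h2) (Subtype.ext h3)
  have hTs : Function.Surjective T := by
    intro x
    obtain ⟨r, hr, s, hs, h⟩ := hR1 x x.2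
    exact ⟨(⟨r, hr⟩, ⟨s, hs⟩), Subtype.ext h.symm⟩
  let e : (R × R) ≃ₗ[ℝ] V0 K := LinearEquiv.ofBijective T ⟨hTi, hTs⟩
  let ψ : V0 K →ₗ[ℝ] (Fin n → ℝ) :=
    ((R.subtype).coprod (-((Matrix.mulVecLin (JR K)).comp R.subtype))).comp e.symm.toLinearMap
  have hψ : ∀ (r s : R) (x : V0 K), (x : Fin n → ℝ) = r + JR K *ᵥ s →
      ψ x = r - JR K *ᵥ s := by
    intro r s x hx
    have h1 : e (r, s) = x := Subtype.ext hx.symm
    have h2 : e.symm x = (r, s) := by rw [← h1]; exact e.symm_apply_apply _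
    show ((R.subtype).coprod (-((Matrix.mulVecLin (JR K)).comp R.subtype))) (e.symm x) = _
    rw [h2, LinearMap.coprod_apply, LinearMap.neg_apply, ← sub_eq_add_neg]
    rfl
  have hψV : ∀ x : V0 K, ψ x ∈ V0 K := by
    intro x
    obtain ⟨r, hr, s, hs, h⟩ := hR1 x x.2
    rw [hψ ⟨r, hr⟩ ⟨s, hs⟩ x h]
    exact (V0 K).sub_mem (hR0 hr) (J_mem K (hR0 hs))
  have hψJ : ∀ x : V0 K, ψ ⟨JR K *ᵥ x, J_mem K x.2⟩ = -(JR K *ᵥ ψ x) := by
    intro x
    obtain ⟨r, hr, s, hs, h⟩ := hR1 x x.2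
    have h1 : JR K *ᵥ (x : Fin n → ℝ) = (-s) + JR K *ᵥ r := by
      rw [h, Matrix.mulVec_add, (mem_V0 K).1 (hR0 hs)]; abel
    rw [hψ ⟨r, hr⟩ ⟨s, hs⟩ x h, hψ ⟨-s, R.neg_mem hs⟩ ⟨r, hr⟩ ⟨_, J_mem K x.2⟩ h1]
    simp only [Matrix.mulVec_sub, (mem_V0 K).1 (hR0 hs)]
    abel
  have him : ∀ v : K.Tl K.lam, (fun i => ((v : Fin n → ℂ) i).im) =
      -(JR K *ᵥ fun i => ((v : Fin n → ℂ) i).re) := by
    intro v
    have h1 := (Tl_re K v.2).2
    ext i
    have h2 := congrArg Complex.im (congrFun h1 i)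
    rw [Pp_apply] at h2
    simp only [Complex.sub_im, Complex.ofReal_im, Complex.mul_im, Complex.I_re, Complex.I_im,
      Complex.ofReal_re, zero_mul, one_mul, zero_add, zero_sub] at h2
    rw [Pi.neg_apply]
    exact h2.symm
  let φ0 : K.Tl K.lam →ₗ[ℂ] (Fin n → ℂ) :=
    { toFun := fun v => Pm K (ψ ⟨fun i => ((v : Fin n → ℂ) i).re, (Tl_re K v.2).1⟩)
      map_add' := by
        intro v w
        rw [← map_add, ← map_add]
        congr 2
      map_smul' := by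
        intro c v
        have h1 : (⟨fun i => (((c • v : K.Tl K.lam) : Fin n → ℂ) i).re, (Tl_re K (c • v).2).1⟩ : V0 K) =
            c.re • ⟨fun i => ((v : Fin n → ℂ) i).re, (Tl_re K v.2).1⟩ +
            c.im • ⟨JR K *ᵥ (fun i => ((v : Fin n → ℂ) i).re), J_mem K (Tl_re K v.2).1⟩ := by
          apply Subtype.ext
          ext i
          have h2 := congrFun (him v) i
          rw [Pi.neg_apply] at h2
          simp only [Submodule.coe_smul, Submodule.coe_add, Pi.smul_apply, Pi.add_apply, smul_eq_mul,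
            Complex.mul_re]
          rw [h2]; ring
        have h3 : ψ ⟨JR K *ᵥ (fun i => ((v : Fin n → ℂ) i).re), J_mem K (Tl_re K v.2).1⟩ =
            -(JR K *ᵥ ψ ⟨fun i => ((v : Fin n → ℂ) i).re, (Tl_re K v.2).1⟩) :=
          hψJ ⟨_, (Tl_re K v.2).1⟩
        rw [h1, map_add, map_smul, map_smul, h3, map_add, map_smul, map_smul, map_neg,
          Pm_J K (hψV _), neg_neg]
        ext i
        simp only [Pi.add_apply, Pi.smul_apply, RingHom.id_apply, smul_eq_mul, Complex.real_smul]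
        conv_rhs => rw [← Complex.re_add_im c]
        ring }
  have hφ0 : ∀ v : K.Tl K.lam, φ0 v = Pm K (ψ ⟨fun i => ((v : Fin n → ℂ) i).re, (Tl_re K v.2).1⟩) :=
    fun v => rfl
  obtain ⟨φ, hφ⟩ := LinearMap.exists_extend φ0
  have key : ∀ r ∈ R, φ (Pp K r) = Pm K r := by
    intro r hr
    have h1 : φ (Pp K r) = φ0 ⟨Pp K r, Pp_mem K (hR0 hr)⟩ :=
      congrArg (fun f => f ⟨Pp K r, Pp_mem K (hR0 hr)⟩) hφ
    rw [h1, hφ0, hψ ⟨r, hr⟩ 0 _ (by
      show (fun i => (Pp K r i).re) = _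
      rw [Pp_re]
      simp)]
    simp
  have dec : ∀ v ∈ K.Tl K.lam, ∃ r ∈ R, ∃ s ∈ R, v = Pp K r + Complex.I • Pp K s := by
    intro v hv
    obtain ⟨h1, h2⟩ := Tl_re K hv
    obtain ⟨r, hr, s, hs, h⟩ := hR1 _ h1
    refine ⟨r, hr, s, hs, ?_⟩
    rw [← h2, h, map_add, Pp_J K (hR0 hs)]
  have sym : ∀ r ∈ R, ∀ s ∈ R, K.bil (Pp K r) (Pm K s) = K.bil (Pp K s) (Pm K r) := by
    intro r hr s hs
    rw [bil_Pp_Pm, bil_Pp_Pm, hR2 r hr s hs, hR2 s hs r hr, hsym (JR K *ᵥ r) s, hR2 s hs r hr,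
      hsym (JR K *ᵥ s) r, hR2 r hr s hs, hsym r s, hsym (JR K *ᵥ r) (JR K *ᵥ s)]
  refine ⟨φ, ?_, ?_, ?_, ?_⟩
  · intro v hv
    obtain ⟨r, hr, s, hs, rfl⟩ := dec v hv
    rw [map_add, map_smul, key r hr, key s hs]
    exact Submodule.add_mem _ (Pm_mem K (hR0 hr)) (Submodule.smul_mem _ _ (Pm_mem K (hR0 hs)))
  · intro v hv h
    obtain ⟨r, hr, s, hs, rfl⟩ := dec v hv
    rw [map_add, map_smul, key r hr, key s hs] at h
    have h1 : Pm K (r + JR K *ᵥ (-s)) = 0 := by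
      rw [map_add, Pm_J K (hR0 (R.neg_mem hs)), map_neg, smul_neg, neg_neg]; exact h
    have h2 : r + JR K *ᵥ (-s) = 0 := by
      rw [← Pm_re K (r + JR K *ᵥ (-s)), h1]
      ext i; simp
    obtain ⟨h3, h4⟩ := uniq r hr _ (R.neg_mem hs) h2
    rw [neg_eq_zero] at h4
    rw [h3, h4]; simp
  · intro v hv w hw
    obtain ⟨r, hr, s, hs, rfl⟩ := dec v hv
    obtain ⟨r', hr', s', hs', rfl⟩ := dec w hw
    rw [map_add, map_add, map_smul, map_smul, key r hr, key s hs, key r' hr', key s' hs']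
    simp only [C5X.bil_add_left, C5X.bil_add_right, C5X.bil_smul_left, C5X.bil_smul_right]
    rw [sym r hr r' hr', sym r hr s' hs', sym s hs r' hr', sym s hs s' hs']
    ring
  · intro a h1 h2
    obtain ⟨c1, hc1⟩ := hR3 _ h1
    obtain ⟨c2, hc2⟩ := hR3 _ h2
    have ha : a = (a.map Complex.re).map Complex.ofReal +
        Complex.I • (a.map Complex.im).map Complex.ofReal := by
      ext i j
      simp only [Matrix.add_apply, Matrix.smul_apply, Matrix.map_apply, smul_eq_mul]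
      rw [mul_comm]; exact (Complex.re_add_im _).symm
    have step : ∀ (b : Matrix (Fin n) (Fin n) ℝ) (c : ℝ), P b →
        (∀ x ∈ R, b *ᵥ x - c • (JR K *ᵥ x) ∈ R) → ∀ r ∈ R,
        (b.map Complex.ofReal) *ᵥ (Pm K r) = φ ((b.map Complex.ofReal) *ᵥ Pp K r) +
          (-2 * Complex.I * c) • Pm K r := by
      intro b c hb hbc r hr
      have hco := hcomm b hb r (hR0 hr)
      have h3 := hbc r hr
      have h4 : b *ᵥ r = (b *ᵥ r - c • (JR K *ᵥ r)) + c • (JR K *ᵥ r) := by abel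
      rw [map_Pm K hco, map_Pp K hco, h4]
      generalize b *ᵥ r - c • (JR K *ᵥ r) = r1 at h3
      rw [map_add, map_add, map_smul, map_smul, Pm_J K (hR0 hr), Pp_J K (hR0 hr), map_add, key r1 h3]
      have h5 : (c : ℝ) • (Complex.I • Pp K r) = ((c : ℂ) * Complex.I) • Pp K r := by
        ext i
        simp only [Pi.smul_apply, smul_eq_mul, Complex.real_smul]
        ring
      rw [h5, map_smul, key r hr]
      ext i
      simp only [Pi.add_apply, Pi.smul_apply, Pi.neg_apply, smul_eq_mul, Complex.real_smul]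
      ring
    refine ⟨-2 * Complex.I * c1 + Complex.I * (-2 * Complex.I * c2), fun v hv => ?_⟩
    have main : ∀ r ∈ R, a *ᵥ (Pm K r) = φ (a *ᵥ Pp K r) +
        (-2 * Complex.I * c1 + Complex.I * (-2 * Complex.I * c2)) • Pm K r := by
      intro r hr
      have e1 := step _ c1 h1 hc1 r hr
      have e2 := step _ c2 h2 hc2 r hr
      rw [ha]
      simp only [Matrix.add_mulVec, Matrix.smul_mulVec, map_add, map_smul, e1, e2]
      module
    obtain ⟨r, hr, s, hs, rfl⟩ := dec v hv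
    rw [map_add, map_smul, key r hr, key s hs, Matrix.mulVec_add, Matrix.mulVec_smul,
      Matrix.mulVec_add, Matrix.mulVec_smul, map_add, map_smul, main r hr, main s hs]
    module

end C7C

end

end Pool.Agent.K3C
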