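import Pool.Agent.K3C.Stmts

/-!
# De Rham-Betti conjecture for K3 surfaces, CM fields: the group
-/

open scoped BigOperators
open Matrix

namespace Pool.Agent.K3C

open Pool.Agent.DRB Pool.Agent.K3D Pool.Agent.K3E

noncomputable section

/-- The main theorem, with the de Rham-Betti group: `G_dRB(A)` is the group of all `(x, ν)`, where `x` commutes
with the endomorphisms of `A`, normalizes `T` and multiplies the Riemann form by `ν`. -/
def MainC2 : Prop :=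
  ∀ (g : ℕ) (A : AbVar g) (n m : ℕ) (K : KSC A n m), 1 ≤ m → (Even m ∨ m = 1) → K.Trit →
    (∀ (x : GL (Idx g) ℂ) (ν : ℂˣ), InGdRB A x ν ↔
      ((∀ α ∈ A.EndQ, x.val * AbVar.toC α = AbVar.toC α * x.val) ∧
        (∀ Y ∈ K.TC, x.val * Y * (x⁻¹).val ∈ K.TC) ∧ x.valᵀ * A.riem * x.val = ν.val • A.riem)) ∧
    ∀ (t : TData) (D : Submodule ℂ (TIdx t (Idx g) → ℂ)), IsDRB A t D → IsHodge A t D

/-- C10A. Elements of the de Rham-Betti group normalize `T`. -/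
def Stmt_C10a : Prop :=
  ∀ (g : ℕ) (A : AbVar g) (n m : ℕ) (K : KSC A n m) (x : GL (Idx g) ℂ) (ν : ℂˣ), InGdRB A x ν →
    ∀ Y ∈ K.TC, x.val * Y * (x⁻¹).val ∈ K.TC

/-- C10C. The group is everything. -/
def Stmt_C10c : Prop :=
  ∀ (g : ℕ) (A : AbVar g) (n m : ℕ) (K : KSC A n m), 1 ≤ m →
    (∀ a ∈ K.S, InLie (Gam A) (K.Z a) 0) → InLie (Gam A) ((1 / 2 : ℂ) • (1 : Matrix (Idx g) (Idx g) ℂ)) 1 →
    ∀ (x : GL (Idx g) ℂ) (ν : ℂˣ), (∀ α ∈ A.EndQ, x.val * AbVar.toC α = AbVar.toC α * x.val) →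
      (∀ Y ∈ K.TC, x.val * Y * (x⁻¹).val ∈ K.TC) → x.valᵀ * A.riem * x.val = ν.val • A.riem →
      ∀ (t : TData) (D : Submodule ℂ (TIdx t (Idx g) → ℂ)), StabG (Gam A) t D →
        D.map (TAct t x.val ν.val) ≤ D

/-- C10X. The elements of `U_E(T)` are products of exponentials of elements of its Lie algebra. -/
def Stmt_C10x : Prop :=
  ∀ (g : ℕ) (A : AbVar g) (n m : ℕ) (K : KSC A n m), 1 ≤ m → ∀ b : Matrix (Fin n) (Fin n) ℂ,
    b * K.thC = K.thC * b → (∀ v w, K.bil (b *ᵥ v) (b *ᵥ w) = K.bil v w) →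
    ∃ as : List (Matrix (Fin n) (Fin n) ℂ), (∀ a ∈ as, a ∈ K.S) ∧
      (as.map fun a => NormedSpace.exp a).prod = b

end

end Pool.Agent.K3C
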