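import Pool.Agent.K3E.E10b
import Pool.Agent.K3E.E10c
import Pool.Agent.K3C.Stmts2
import Pool.Agent.K3C.C5m
import Pool.Agent.K3C.C8y

/-!
# C10c: the group of the tensors contains `GU_E(T)`
-/

open scoped BigOperators
open Matrix

namespace Pool.Agent.K3C

open Pool.Agent.DRB Pool.Agent.K3D Pool.Agent.K3E

noncomputable section

namespace C10C

variable {g n m : ℕ} {A : AbVar g}

/-- `y` preserves the stable subspaces of the tensor spaces. -/
def Good (A : AbVar g) (y : GL (Idx g) ℂ) : Prop :=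
  ∀ (t : TData) (D : Submodule ℂ (TIdx t (Idx g) → ℂ)), StabG (Gam A) t D →
    D.map (TAct t y.val 1) ≤ D

theorem Good.mul {y y' : GL (Idx g) ℂ} (h : Good A y) (h' : Good A y') : Good A (y * y') := by
  intro t D hD
  have e : (1 : ℂ) = 1 * 1 := (mul_one 1).symm
  rw [Units.val_mul, e, TAct_comp, Submodule.map_comp]
  exact (Submodule.map_mono (h' t D hD)).trans (h t D hD)

theorem Good.one : Good A 1 := by
  intro t D _
  rw [Units.val_one, TAct_one, Submodule.map_id]

/-- The exponential as an element of the group. -/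
def expU (X : Matrix (Idx g) (Idx g) ℂ) : GL (Idx g) ℂ :=
  ⟨NormedSpace.exp X, NormedSpace.exp (-X), (K8X.exp_mul_exp_neg X).1, (K8X.exp_mul_exp_neg X).2⟩

theorem good_exp {X : Matrix (Idx g) (Idx g) ℂ} (hX : InLie (Gam A) X 0) : Good A (expU X) := by
  intro t D hD
  have h := k3_proof (Idx g) t X 0 D (hX t D hD)
  rw [Complex.exp_zero] at h
  exact h

theorem good_exp' (hK2a : Stmt_K2a) {X : Matrix (Idx g) (Idx g) ℂ} (hX : InLie (Gam A) X 0) :
    Good A (expU X)⁻¹ := by
  intro t D hD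
  have h1 : InLie (Gam A) (-X) 0 := by
    have h2 := (hK2a (Idx g) (Gam A)).1 0 X 0 0 (-1) (hK2a (Idx g) (Gam A)).2.1 hX
    simpa using h2
  have h := k3_proof (Idx g) t (-X) 0 D (h1 t D hD)
  rw [Complex.exp_zero] at h
  exact h

variable (K : KSC A n m)

/-- lifting products of exponentials -/
theorem lift (hK2a : Stmt_K2a) (hC5a : Stmt_C5a) (hZ : ∀ a ∈ K.S, InLie (Gam A) (K.Z a) 0)
    (as : List (Matrix (Fin n) (Fin n) ℂ)) (has : ∀ a ∈ as, a ∈ K.S) :
    ∃ y : GL (Idx g) ℂ, Good A y ∧ Good A y⁻¹ ∧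
      ∀ v, y.val * K.cl v = K.cl ((as.map fun a => NormedSpace.exp a).prod *ᵥ v) * y.val := by
  induction as with
  | nil =>
    refine ⟨1, Good.one, by rw [inv_one]; exact Good.one, fun v => ?_⟩
    rw [List.map_nil, List.prod_nil, Matrix.one_mulVec, Units.val_one, one_mul, mul_one]
  | cons a as ih =>
    obtain ⟨y, h1, h2, h3⟩ := ih fun b hb => has b (List.mem_cons_of_mem _ hb)
    have ha := has a List.mem_cons_self
    have hact := (hC5a g A n m K).2.2.1 a (fun v w => by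
      rw [C5L.bil_S K ha v w]; ring)
    refine ⟨expU (K.Z a) * y, (good_exp (hZ a ha)).mul h1, ?_, fun v => ?_⟩
    · rw [_root_.mul_inv_rev]
      exact h2.mul (good_exp' hK2a (hZ a ha))
    · have h4 := K8X.exp_intertwine (C8Y.clL K) (K.Z a) a (fun w => hact w)
        ((as.map fun a => NormedSpace.exp a).prod *ᵥ v)
      rw [C8Y.clL_apply, C8Y.clL_apply, Matrix.mulVec_mulVec] at h4
      have h5 : (expU (K.Z a)).val = NormedSpace.exp (K.Z a) := rfl
      rw [List.map_cons, List.prod_cons, Units.val_mul, h5, mul_assoc, h3 v, ← mul_assoc, h4,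
        mul_assoc]

end C10C

open C10C in
/-- C10C. -/
theorem C10c_proof (hK2a : Stmt_K2a) (hL : DRB.Stmt_Leg) (hG2 : Stmt_Gb2) (hRev : Stmt_Rev)
    (hC5a : Stmt_C5a) (hC5v : Stmt_C5v) (hx : Stmt_C10x) : Stmt_C10c := by
  intro g A n m K hm hZ hs x ν hcom hnor hriem t D hD
  have hrel := C5X.rel K
  -- the action on `T`
  obtain ⟨b, hb⟩ : ∃ b : Matrix (Fin n) (Fin n) ℂ, ∀ v, x.val * K.cl v * (x⁻¹).val = K.cl (b *ᵥ v) := by
    have h1 : ∀ i : Fin n, ∃ w, K.cl w = x.val * K.cl (Pi.single i 1) * (x⁻¹).val := by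
      intro i
      exact (C8Y.mem_TC_iff K _).1 (hnor _ ((C8Y.mem_TC_iff K _).2 ⟨_, rfl⟩))
    choose w hw using h1
    refine ⟨Matrix.of fun i j => w j i, fun v => ?_⟩
    let F : (Fin n → ℂ) →ₗ[ℂ] Matrix (Idx g) (Idx g) ℂ :=
      ((LinearMap.mulLeft ℂ x.val).comp (LinearMap.mulRight ℂ (x⁻¹).val)).comp (C8Y.clL K)
    let G : (Fin n → ℂ) →ₗ[ℂ] Matrix (Idx g) (Idx g) ℂ :=
      (C8Y.clL K).comp (Matrix.toLin' (Matrix.of fun i j => w j i))
    have hFG : F = G := by
      refine LinearMap.pi_ext' fun i => LinearMap.ext_ring ?_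
      simp only [F, G, LinearMap.comp_apply, LinearMap.mulLeft_apply, LinearMap.mulRight_apply,
        LinearMap.single_apply, Matrix.toLin'_apply, C8Y.clL_apply, Matrix.mulVec_single_one]
      rw [← mul_assoc, ← hw i]
      congr 1
    have h2 := congrArg (fun H : (Fin n → ℂ) →ₗ[ℂ] Matrix (Idx g) (Idx g) ℂ => H v) hFG
    simp only [F, G, LinearMap.comp_apply, LinearMap.mulLeft_apply, LinearMap.mulRight_apply,
      Matrix.toLin'_apply, C8Y.clL_apply] at h2
    rw [mul_assoc]; exact h2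
  have hbil : ∀ v w, K.bil (b *ᵥ v) (b *ᵥ w) = K.bil v w := fun v w =>
    C5X.bil_conj K.pos hrel x (hb v) (hb w)
  have hbth : b * K.thC = K.thC * b := (hC5v g A n m K hm).2 x b (fun α hα => hcom α hα) hb
  obtain ⟨as, has, hprod⟩ := hx g A n m K hm b hbth hbil
  obtain ⟨y, hy, hy', hact⟩ := lift K hK2a hC5a hZ as has
  rw [hprod] at hact
  -- `y` is in the group
  have hyG : InGdRB A y 1 := by
    intro t D hD
    have hst : StabG (Gam A) t D := fun p hp => hG2 g A t D hD p hp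
    apply le_antisymm (hy t D hst)
    intro u hu
    have h5 := hy' t D hst ⟨u, hu, rfl⟩
    refine ⟨_, h5, ?_⟩
    have h6 := TAct_comp t y.val (y⁻¹).val 1 1
    have e1 : y.val * (y⁻¹).val = 1 := by rw [← Units.val_mul]; simp
    rw [e1, mul_one, TAct_one] at h6
    have h7 := congrArg (fun f => f u) h6
    simp only [LinearMap.comp_apply, LinearMap.id_apply] at h7
    exact h7.symm
  obtain ⟨hyc, hyr⟩ := hRev g A y 1 hyG
  rw [Units.val_one, one_smul] at hyr
  have e1 : y.val * (y⁻¹).val = 1 := by rw [← Units.val_mul]; simp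
  have e2 : (y⁻¹).val * y.val = 1 := by rw [← Units.val_mul]; simp
  -- the quotient is a scalar
  obtain ⟨c, hc⟩ := (hC5a g A n m K).2.2.2.1 ((y⁻¹).val * x.val) (by
    intro α hα
    have h1 : (y⁻¹).val * AbVar.toC α = AbVar.toC α * (y⁻¹).val := by
      calc (y⁻¹).val * AbVar.toC α = (y⁻¹).val * (AbVar.toC α * y.val) * (y⁻¹).val := by
            rw [mul_assoc, mul_assoc, e1, mul_one]
        _ = (y⁻¹).val * (y.val * AbVar.toC α) * (y⁻¹).val := by rw [hyc α hα]
        _ = AbVar.toC α * (y⁻¹).val := by rw [← mul_assoc, e2, one_mul]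
    rw [mul_assoc, hcom α hα, ← mul_assoc, h1, mul_assoc]) (by
    intro v
    have h1 : x.val * K.cl v = K.cl (b *ᵥ v) * x.val := by
      rw [← hb v, mul_assoc _ _ x.val, C5X.inv_mul_self, mul_one]
    have h2 : (y⁻¹).val * K.cl (b *ᵥ v) = K.cl v * (y⁻¹).val := by
      calc (y⁻¹).val * K.cl (b *ᵥ v) = (y⁻¹).val * (K.cl (b *ᵥ v) * y.val) * (y⁻¹).val := by
            rw [mul_assoc, mul_assoc, e1, mul_one]
        _ = (y⁻¹).val * (y.val * K.cl v) * (y⁻¹).val := by rw [hact v]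
        _ = K.cl v * (y⁻¹).val := by rw [← mul_assoc, e2, one_mul]
    rw [mul_assoc, h1, ← mul_assoc, h2, mul_assoc])
  have hxy : x.val = y.val * (c • (1 : Matrix (Idx g) (Idx g) ℂ)) := by
    rw [← hc, ← mul_assoc, e1, one_mul]
  have hc0 : c ≠ 0 := by
    rintro rfl
    rw [zero_smul, mul_zero] at hxy
    have h1 : x.val * (x⁻¹).val = 1 := by rw [← Units.val_mul]; simp
    rw [hxy, zero_mul] at h1
    exact C5X.one_ne K.pos h1.symm
  -- the multiplier
  have hν : ν.val = c ^ 2 := by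
    have h1 : x.valᵀ * A.riem * x.val = c ^ 2 • A.riem := by
      rw [hxy, Matrix.transpose_mul, Matrix.transpose_smul, Matrix.transpose_one, Matrix.smul_mul,
        Matrix.one_mul, Matrix.mul_smul, Matrix.mul_one, Matrix.smul_mul, Matrix.smul_mul,
        Matrix.mul_smul, hyr, smul_smul, pow_two]
    rw [hriem] at h1
    have h2 : (ν.val - c ^ 2) • A.riem = 0 := by rw [sub_smul, h1, sub_self]
    exact sub_eq_zero.1 ((smul_eq_zero.1 h2).resolve_right (K9X.riem_ne hL K.pos))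
  have h4 := E10C.scalar_mem hK2a hs c hc0 t D hD
  rw [hν, hxy]
  have e : c ^ 2 = 1 * c ^ 2 := (one_mul _).symm
  rw [e, TAct_comp, Submodule.map_comp]
  exact (Submodule.map_mono h4).trans (hy t D hD)

end

end Pool.Agent.K3C
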