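import Pool.Agent.SPH.GB3T
import Pool.Agent.K3C.C2d
import Pool.Agent.K3C.C9
import Pool.Agent.K3C.C9w
import Pool.Agent.K3C.Stmts2

/-!
# C10a: elements of the de Rham-Betti group normalize `T`; the main theorem with the group
-/

open scoped BigOperators
open Matrix

namespace Pool.Agent.K3C

open Pool.Agent.DRB Pool.Agent.K3D Pool.Agent.K3E Pool.Agent.K3D.K2Y

noncomputable section

theorem C10a_proof (hG : SPH.Stmt_GB3T) (hq : Stmt_DescQ) (hRev : Stmt_Rev) (hL : Stmt_Leg) (hG1 : Stmt_Gb1)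
    (hC2d : Stmt_C2d) : Stmt_C10a := by
  intro g A n m K x ν hx Y hY
  obtain ⟨hint, -, hdet, -⟩ := hL g A
  have hs := (hRev g A x ν hx).2
  have hst : ∀ p ∈ Gam A, (DT A.riem K.TC).map (TAct tT p.1.val p.2.val) ≤ DT A.riem K.TC := by
    rintro p hp _ ⟨u, hu, rfl⟩
    rw [mem_DT, act_T A.riem p.1 p.2.val (Units.ne_zero _) (hG1 g A p hp).2]
    exact (hC2d g A n m K).1 p hp _ hu
  have hrat : RatSpan (DT A.riem K.TC) := by
    apply hq
    intro σ v hv
    rw [mem_DT] at hv ⊢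
    have h1 : (UU v * A.riem).map σ ∈ K.TC := map_TC K σ _ hv
    have h2 : (UU v * A.riem).map σ = UU (fun k => σ (v k)) * A.riem := by
      rw [FinX.map_mul']
      have e1 : (UU v).map σ = UU (fun k => σ (v k)) := by
        ext i j
        rfl
      have e2 : A.riem.map σ = A.riem := by
        ext i j
        obtain ⟨k, hk⟩ := hint i j
        rw [Matrix.map_apply, hk, map_intCast]
      rw [e1, e2]
    rwa [h2] at h1
  have hD : IsDRB A tT (DT A.riem K.TC) := hG g A tT _ hrat hst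
  have hu : VV (Y * A.riem⁻¹) ∈ DT A.riem K.TC := by
    rw [mem_DT, UU_VV, Matrix.mul_assoc, Matrix.nonsing_inv_mul _ hdet, Matrix.mul_one]
    exact hY
  have h1 : TAct tT x.val ν.val (VV (Y * A.riem⁻¹)) ∈ DT A.riem K.TC := by
    have h3 := hx tT _ hD
    rw [← h3]
    exact ⟨_, hu, rfl⟩
  have h2 : Y * A.riem⁻¹ * A.riem = Y := by
    rw [Matrix.mul_assoc, Matrix.nonsing_inv_mul _ hdet, Matrix.mul_one]
  rw [mem_DT, act_T A.riem x ν.val (Units.ne_zero _) hs, UU_VV, h2] at h1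
  exact h1

/-- The inverse of an element satisfying the three conditions satisfies them too. -/
theorem C10X_inv {g n m : ℕ} {A : AbVar g} (K : KSC A n m) (x : GL (Idx g) ℂ) (ν : ℂˣ)
    (h1 : ∀ α ∈ A.EndQ, x.val * AbVar.toC α = AbVar.toC α * x.val)
    (h2 : ∀ Y ∈ K.TC, x.val * Y * (x⁻¹).val ∈ K.TC)
    (h3 : x.valᵀ * A.riem * x.val = ν.val • A.riem) :
    (∀ α ∈ A.EndQ, (x⁻¹).val * AbVar.toC α = AbVar.toC α * (x⁻¹).val) ∧
    (∀ Y ∈ K.TC, (x⁻¹).val * Y * ((x⁻¹)⁻¹).val ∈ K.TC) ∧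
    (x⁻¹).valᵀ * A.riem * (x⁻¹).val = (ν⁻¹).val • A.riem := by
  have e1 : x.val * (x⁻¹).val = 1 := by rw [← Units.val_mul]; simp
  have e2 : (x⁻¹).val * x.val = 1 := by rw [← Units.val_mul]; simp
  refine ⟨?_, ?_, ?_⟩
  · intro α hα
    calc (x⁻¹).val * AbVar.toC α = (x⁻¹).val * (AbVar.toC α * x.val) * (x⁻¹).val := by
          rw [mul_assoc, mul_assoc, e1, mul_one]
      _ = (x⁻¹).val * (x.val * AbVar.toC α) * (x⁻¹).val := by rw [h1 α hα]
      _ = AbVar.toC α * (x⁻¹).val := by rw [← mul_assoc, e2, one_mul]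
  · intro Y hY
    rw [inv_inv]
    let f : K.TC →ₗ[ℂ] K.TC :=
      { toFun := fun Z => ⟨x.val * Z.1 * (x⁻¹).val, h2 Z.1 Z.2⟩
        map_add' := by
          intro Z W
          apply Subtype.ext
          simp only [Submodule.coe_add, mul_add, add_mul]
        map_smul' := by
          intro c Z
          apply Subtype.ext
          simp only [Submodule.coe_smul, Matrix.mul_smul, Matrix.smul_mul, RingHom.id_apply] }
    have hback : ∀ Z : Matrix (Idx g) (Idx g) ℂ, (x⁻¹).val * (x.val * Z * (x⁻¹).val) * x.val = Z := by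
      intro Z
      calc _ = ((x⁻¹).val * x.val) * Z * ((x⁻¹).val * x.val) := by simp only [mul_assoc]
        _ = Z := by rw [e2, one_mul, mul_one]
    have hinj : Function.Injective f := by
      intro Z W hZW
      have h4 : x.val * Z.1 * (x⁻¹).val = x.val * W.1 * (x⁻¹).val := congrArg Subtype.val hZW
      apply Subtype.ext
      rw [← hback Z.1, h4, hback]
    obtain ⟨Z, hZ⟩ := (LinearMap.injective_iff_surjective.1 hinj) ⟨Y, hY⟩
    have h4 : x.val * Z.1 * (x⁻¹).val = Y := congrArg Subtype.val hZ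
    rw [← h4, hback]
    exact Z.2
  · have e3 : x.valᵀ * (x⁻¹).valᵀ = 1 := by
      rw [← Matrix.transpose_mul, e2, Matrix.transpose_one]
    have e4 : (x⁻¹).valᵀ * x.valᵀ = 1 := by
      rw [← Matrix.transpose_mul, e1, Matrix.transpose_one]
    have h4 : A.riem = ν.val • ((x⁻¹).valᵀ * A.riem * (x⁻¹).val) := by
      calc A.riem = ((x⁻¹).valᵀ * x.valᵀ) * A.riem * (x.val * (x⁻¹).val) := by
            rw [e4, e1, one_mul, mul_one]
        _ = (x⁻¹).valᵀ * (x.valᵀ * A.riem * x.val) * (x⁻¹).val := by simp only [mul_assoc]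
        _ = _ := by rw [h3, Matrix.mul_smul, Matrix.smul_mul]
    calc (x⁻¹).valᵀ * A.riem * (x⁻¹).val = (ν⁻¹).val • (ν.val • ((x⁻¹).valᵀ * A.riem * (x⁻¹).val)) := by
          rw [smul_smul, ← Units.val_mul, inv_mul_cancel, Units.val_one, one_smul]
      _ = _ := by rw [← h4]

/-- The elements `Z a` belong to the Lie algebra. -/
theorem C10X_Z {g n m : ℕ} {A : AbVar g} (K : KSC A n m) (hL : Stmt_Leg) (hK2a : Stmt_K2a)
    (hK2c : Stmt_K2c) (hC5a : Stmt_C5a) (hLT : ∀ a ∈ K.S, K.LT a)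
    (hw : InLie (Gam A) ((1 / 2 : ℂ) • (1 : Matrix (Idx g) (Idx g) ℂ)) 1) :
    ∀ a ∈ K.S, InLie (Gam A) (K.Z a) 0 := by
  intro a ha
  obtain ⟨X, ξ, hX, hXa⟩ := hLT a ha
  obtain ⟨c, h1, h2⟩ := C9W.normal hL hK2c hC5a hX ha hXa
  have h3 := (hK2a (Idx g) (Gam A)).1 X _ ξ 1 (-(2 * c)) hX hw
  have e1 : X + -(2 * c) • ((1 / 2 : ℂ) • (1 : Matrix (Idx g) (Idx g) ℂ)) = K.Z a := by
    rw [h1, smul_smul, add_assoc, ← add_smul]
    have : c + -(2 * c) * (1 / 2) = 0 := by ring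
    rw [this, zero_smul, add_zero]
  have e2 : ξ + -(2 * c) * 1 = 0 := by
    rw [h2]; ring
  rwa [e1, e2] at h3

theorem C10g_proof (hPI : Stmt_PI) (hL : Stmt_Leg) (hG2 : Stmt_Gb2) (hRev : Stmt_Rev) (hK2a : Stmt_K2a)
    (hK2c : Stmt_K2c) (hK5a : Stmt_C5a) (h5v : Stmt_C5v) (h8b : Stmt_C8b) (h8t : Stmt_C8t)
    (h9w : Stmt_C9w) (h10a : Stmt_C10a) (h10c : Stmt_C10c) : MainC2 := by
  intro g A n m K hn hpar hTrit
  have hLT : ∀ a ∈ K.S, K.LT a := h8t g A n m K hn hTrit (h8b g A n m K hn hpar)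
  have hw := h9w g A n m K hn hLT
  have h8 := C10X_Z K hL hK2a hK2c hK5a hLT hw
  refine ⟨?_, C9_proof hPI hL hG2 hK2a hK2c hK5a h5v h8b h8t h9w g A n m K hn hpar hTrit⟩
  intro x ν
  constructor
  · intro h
    exact ⟨(hRev g A x ν h).1, h10a g A n m K x ν h, (hRev g A x ν h).2⟩
  · rintro ⟨h1, h2, h3⟩ t D hD
    have hst : StabG (Gam A) t D := fun p hp => hG2 g A t D hD p hp
    apply le_antisymm (h10c g A n m K hn h8 hw x ν h1 h2 h3 t D hst)
    obtain ⟨i1, i2, i3⟩ := C10X_inv K x ν h1 h2 h3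
    intro u hu
    have h5 := h10c g A n m K hn h8 hw x⁻¹ ν⁻¹ i1 i2 i3 t D hst ⟨u, hu, rfl⟩
    refine ⟨_, h5, ?_⟩
    have h6 := TAct_comp t x.val (x⁻¹).val ν.val (ν⁻¹).val
    have e1 : x.val * (x⁻¹).val = 1 := by rw [← Units.val_mul]; simp
    rw [e1, ← Units.val_mul, mul_inv_cancel, Units.val_one, TAct_one] at h6
    rw [← LinearMap.comp_apply, ← h6, LinearMap.id_apply]

end

end Pool.Agent.K3C
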