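import Pool.Agent.K3C.C8b1
import Pool.Agent.K3E.E10b
import Pool.Agent.K3D.K8a
import Pool.Agent.K3C.Stmts2

/-!
# C10x: the unitary group of `T` over `E` is generated by exponentials
-/

open scoped BigOperators Matrix
open Matrix Polynomial

namespace Pool.Agent.K3C

open Pool.Agent.DRB Pool.Agent.K3D Pool.Agent.K3E

noncomputable section

namespace CX10

section expo

attribute [local instance] Matrix.linftyOpNormedAddCommGroup Matrix.linftyOpNormedRing
  Matrix.linftyOpNormedAlgebra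

theorem exp_J {ι κ : Type} [Fintype ι] [DecidableEq ι] [Fintype κ] [DecidableEq κ]
    (a : Matrix ι ι ℂ) (a' : Matrix κ κ ℂ) (J : Matrix ι κ ℂ) (h : a * J = J * a') :
    NormedSpace.exp a * J = J * NormedSpace.exp a' := by
  have hs : HasSum (fun k : ℕ => ((k.factorial : ℂ)⁻¹) • a ^ k) (NormedSpace.exp a) :=
    NormedSpace.exp_series_hasSum_exp' (𝕂 := ℂ) a
  have hs' : HasSum (fun k : ℕ => ((k.factorial : ℂ)⁻¹) • a' ^ k) (NormedSpace.exp a') :=
    NormedSpace.exp_series_hasSum_exp' (𝕂 := ℂ) a'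
  have hp : ∀ k : ℕ, a ^ k * J = J * a' ^ k := by
    intro k
    induction k with
    | zero => simp
    | succ k ih => rw [pow_succ, Matrix.mul_assoc, h, ← Matrix.mul_assoc, ih, Matrix.mul_assoc, ← pow_succ]
  let φ : Matrix ι ι ℂ →+ Matrix ι κ ℂ :=
    { toFun := fun M => M * J, map_zero' := Matrix.zero_mul J, map_add' := fun M N => Matrix.add_mul M N J }
  let ψ : Matrix κ κ ℂ →+ Matrix ι κ ℂ :=
    { toFun := fun M => J * M, map_zero' := Matrix.mul_zero J, map_add' := fun M N => Matrix.mul_add J M N }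
  have hφ : Continuous φ := Continuous.matrix_mul continuous_id continuous_const
  have hψ : Continuous ψ := Continuous.matrix_mul continuous_const continuous_id
  have h1 := hs.map φ hφ
  have h2 := hs'.map ψ hψ
  have h3 : (φ ∘ fun k : ℕ => ((k.factorial : ℂ)⁻¹) • a ^ k) =
      (ψ ∘ fun k : ℕ => ((k.factorial : ℂ)⁻¹) • a' ^ k) := by
    funext k
    show (((k.factorial : ℂ)⁻¹) • a ^ k) * J = J * (((k.factorial : ℂ)⁻¹) • a' ^ k)
    rw [Matrix.smul_mul, Matrix.mul_smul, hp]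
  rw [h3] at h1
  exact h1.unique h2

end expo

theorem exp_fix {ι : Type} [Fintype ι] [DecidableEq ι] {a : Matrix ι ι ℂ} {v : ι → ℂ}
    (h : a *ᵥ v = 0) : NormedSpace.exp a *ᵥ v = v := by
  let J : Matrix ι (Fin 1) ℂ := Matrix.of fun i _ => v i
  have hJ : ∀ M : Matrix ι ι ℂ, ∀ i, (M * J) i 0 = (M *ᵥ v) i := by
    intro M i
    rw [Matrix.mul_apply]
    rfl
  have h1 : a * J = J * (0 : Matrix (Fin 1) (Fin 1) ℂ) := by
    ext i j
    have hj : j = 0 := Subsingleton.elim _ _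
    rw [hj, hJ, h, Matrix.mul_zero]
    rfl
  have h2 := exp_J a 0 J h1
  rw [NormedSpace.exp_zero, Matrix.mul_one] at h2
  funext i
  rw [← hJ, h2]
  rfl

/-- Products of exponentials. -/
def Gen {ι : Type} [Fintype ι] [DecidableEq ι] (S : Submodule ℂ (Matrix ι ι ℂ)) (y : Matrix ι ι ℂ) :
    Prop :=
  ∃ as : List (Matrix ι ι ℂ), (∀ a ∈ as, a ∈ S) ∧ (as.map fun a => NormedSpace.exp a).prod = y

section gen

variable {ι : Type} [Fintype ι] [DecidableEq ι] {S : Submodule ℂ (Matrix ι ι ℂ)}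

theorem Gen.one : Gen S 1 := ⟨[], by simp, by simp⟩

theorem Gen.mul {x y : Matrix ι ι ℂ} (hx : Gen S x) (hy : Gen S y) : Gen S (x * y) := by
  obtain ⟨l, h1, rfl⟩ := hx
  obtain ⟨l', h2, rfl⟩ := hy
  refine ⟨l ++ l', ?_, by rw [List.map_append, List.prod_append]⟩
  intro a ha
  rcases List.mem_append.1 ha with h | h
  · exact h1 a h
  · exact h2 a h

theorem Gen.exp {a : Matrix ι ι ℂ} (ha : a ∈ S) : Gen S (NormedSpace.exp a) :=
  ⟨[a], by simpa using ha, by simp⟩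

theorem Gen.induction {p : Matrix ι ι ℂ → Prop} (h1 : p 1)
    (h2 : ∀ a ∈ S, ∀ y, p y → p (NormedSpace.exp a * y)) {y : Matrix ι ι ℂ} (hy : Gen S y) : p y := by
  obtain ⟨l, h, rfl⟩ := hy
  induction l with
  | nil => simpa using h1
  | cons a l ih =>
    rw [List.map_cons, List.prod_cons]
    exact h2 a (h a List.mem_cons_self) _ (ih fun x hx => h x (List.mem_cons_of_mem _ hx))

theorem Gen.inv {y : Matrix ι ι ℂ} (hy : Gen S y) : ∃ y', Gen S y' ∧ y' * y = 1 ∧ y * y' = 1 := by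
  refine Gen.induction (p := fun y => ∃ y', Gen S y' ∧ y' * y = 1 ∧ y * y' = 1)
    ⟨1, Gen.one, by simp, by simp⟩ ?_ hy
  rintro a ha y ⟨y', h1, h2, h3⟩
  obtain ⟨h4, h5⟩ := K8X.exp_mul_exp_neg a
  refine ⟨y' * NormedSpace.exp (-a), h1.mul (Gen.exp (S.neg_mem ha)), ?_, ?_⟩
  · rw [Matrix.mul_assoc, ← Matrix.mul_assoc _ _ y, h5, Matrix.one_mul, h2]
  · rw [Matrix.mul_assoc, ← Matrix.mul_assoc y, h3, Matrix.one_mul, h4]

end gen

variable {g n m : ℕ} {A : AbVar g} (K : KSC A n m)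

open C5L (wm wm_mulVec)

/-- Elements of the unitary group. -/
structure Un (b : Matrix (Fin n) (Fin n) ℂ) : Prop where
  com : b * K.thC = K.thC * b
  bil : ∀ v w, K.bil (b *ᵥ v) (b *ᵥ w) = K.bil v w

variable {K}

theorem Un.mul {b c : Matrix (Fin n) (Fin n) ℂ} (hb : Un K b) (hc : Un K c) : Un K (b * c) := by
  refine ⟨?_, fun v w => ?_⟩
  · rw [Matrix.mul_assoc, hc.com, ← Matrix.mul_assoc, hb.com, Matrix.mul_assoc]
  · rw [← Matrix.mulVec_mulVec, ← Matrix.mulVec_mulVec, hb.bil, hc.bil]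

theorem Un.one : Un K 1 := ⟨by rw [one_mul, mul_one], fun v w => by rw [one_mulVec, one_mulVec]⟩

theorem Un.exp {a : Matrix (Fin n) (Fin n) ℂ} (ha : a ∈ K.S) : Un K (NormedSpace.exp a) := by
  refine ⟨exp_J a a K.thC ha.2, fun v w => ?_⟩
  set Q := Matrix.diagonal (fun i => (K.q i : ℂ)) with hQ
  have h1 : aᵀ * Q = Q * (-a) := by
    rw [Matrix.mul_neg]
    exact eq_neg_of_add_eq_zero_left ha.1
  have h2 := exp_J _ _ Q h1
  rw [Matrix.exp_transpose] at h2
  have h3 : (NormedSpace.exp a)ᵀ * Q * NormedSpace.exp a = Q := by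
    rw [h2, Matrix.mul_assoc, (K8X.exp_mul_exp_neg a).2, Matrix.mul_one]
  rw [C5L.bil_dot, C5L.bil_dot, ← hQ, Matrix.mulVec_mulVec, ← Matrix.vecMul_transpose,
    ← Matrix.dotProduct_mulVec, Matrix.mulVec_mulVec, ← Matrix.mul_assoc, h3]

theorem Un.gen {y : Matrix (Fin n) (Fin n) ℂ} (hy : Gen K.S y) : Un K y :=
  Gen.induction (p := Un K) Un.one (fun _ ha _ h => (Un.exp ha).mul h) hy

theorem Un.pres {b : Matrix (Fin n) (Fin n) ℂ} (hb : Un K b) {z : ℂ} {v : Fin n → ℂ}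
    (hv : v ∈ K.Tl z) : b *ᵥ v ∈ K.Tl z := by
  rw [C5L.mem_Tl] at hv ⊢
  rw [Matrix.mulVec_mulVec, ← hb.com, ← Matrix.mulVec_mulVec, hv, Matrix.mulVec_smul]

theorem Un.inj {b : Matrix (Fin n) (Fin n) ℂ} (hb : Un K b) {v : Fin n → ℂ}
    (hv : b *ᵥ v = 0) : v = 0 := by
  refine C5L.bil_nondeg K v fun w => ?_
  rw [← hb.bil, hv, C5L.bil_zero_left]

/-- The group elements supported on one pair of eigenspaces. -/
def P1 (K : KSC A n m) (z : ℂ) {N : ℕ} (B : Matrix (Fin n) (Fin N) ℂ) (M : Matrix (Fin N) (Fin N) ℂ) :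
    Prop :=
  ∃ y, Gen K.S y ∧ y * B = B * M ∧
    ∀ z', z' ≠ z → z' ≠ (starRingEnd ℂ) z → ∀ v ∈ K.Tl z', y *ᵥ v = v

theorem P1_exp {z : ℂ} {N : ℕ} {B : Matrix (Fin n) (Fin N) ℂ} {M : Matrix (Fin N) (Fin N) ℂ}
    {a : Matrix (Fin n) (Fin n) ℂ} (ha : a ∈ K.S) (h : a * B = B * M)
    (h0 : ∀ z', z' ≠ z → z' ≠ (starRingEnd ℂ) z → ∀ v ∈ K.Tl z', a *ᵥ v = 0) :
    P1 K z B (NormedSpace.exp M) :=
  ⟨NormedSpace.exp a, Gen.exp ha, exp_J a M B h, fun z' h1 h2 v hv => exp_fix (h0 z' h1 h2 v hv)⟩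

/-- One pair of eigenspaces. -/
theorem P1_all {z : ℂ} (hz : aeval z K.P = 0) {N : ℕ} (b b' : Fin N → (Fin n → ℂ))
    (hb : ∀ j, b j ∈ K.Tl z) (hb' : ∀ j, b' j ∈ K.Tl ((starRingEnd ℂ) z))
    (hd : ∀ i j, K.bil (b' i) (b j) = if j = i then 1 else 0)
    (M : Matrix (Fin N) (Fin N) ℂ) (hM : M.det ≠ 0) :
    P1 K z (Matrix.of fun i j => b j i) M := by
  classical
  set B : Matrix (Fin n) (Fin N) ℂ := Matrix.of fun i j => b j i with hB
  have hne := C5L.conj_ne K hz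
  -- the elementary elements
  have hw : ∀ i j, wm K (b i) (b' j) ∈ K.S := fun i j => C5L.wm_mem K hz (hb i) (hb' j)
  have hwb : ∀ i j k, wm K (b i) (b' j) *ᵥ b k = if k = j then b i else 0 := by
    intro i j k
    have h1 : K.bil (b i) (b k) = 0 := C5L.orth K (Ne.symm hne) (hb i) (hb k)
    rw [wm_mulVec, hd, h1, zero_smul, sub_zero]
    split_ifs <;> simp
  have hw0 : ∀ i j z', z' ≠ z → z' ≠ (starRingEnd ℂ) z → ∀ v ∈ K.Tl z',
      wm K (b i) (b' j) *ᵥ v = 0 := by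
    intro i j z' h1 h2 v hv
    have h3 : K.bil (b' j) v = 0 := C5L.orth K (by rwa [Complex.conj_conj]) (hb' j) hv
    have h4 : K.bil (b i) v = 0 := C5L.orth K h2 (hb i) hv
    rw [wm_mulVec, h3, h4, zero_smul, zero_smul, sub_zero]
  let Φ : Matrix (Fin N) (Fin N) ℂ → Matrix (Fin n) (Fin n) ℂ := fun M =>
    ∑ i, ∑ j, M i j • wm K (b i) (b' j)
  have hΦS : ∀ M, Φ M ∈ K.S := fun M => Submodule.sum_mem _ fun i _ =>
    Submodule.sum_mem _ fun j _ => Submodule.smul_mem _ _ (hw i j)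
  have hΦv : ∀ M v, Φ M *ᵥ v = ∑ i, ∑ j, M i j • (wm K (b i) (b' j) *ᵥ v) := by
    intro M v
    simp only [Φ, Matrix.sum_mulVec, Matrix.smul_mulVec]
  have hΦB : ∀ M, Φ M * B = B * M := by
    intro M
    ext i k
    have h1 : (Φ M * B) i k = (Φ M *ᵥ b k) i := by
      rw [Matrix.mul_apply]; rfl
    rw [h1, hΦv, Matrix.mul_apply, Finset.sum_apply]
    refine Finset.sum_congr rfl fun j _ => ?_
    rw [Finset.sum_eq_single k]
    · rw [hwb, if_pos rfl, Pi.smul_apply, smul_eq_mul, mul_comm]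
      rfl
    · intro l _ hl
      rw [hwb, if_neg (Ne.symm hl), smul_zero]
    · intro h; exact absurd (Finset.mem_univ _) h
  have hΦ0 : ∀ M z', z' ≠ z → z' ≠ (starRingEnd ℂ) z → ∀ v ∈ K.Tl z', Φ M *ᵥ v = 0 := by
    intro M z' h1 h2 v hv
    rw [hΦv]
    refine Finset.sum_eq_zero fun i _ => Finset.sum_eq_zero fun j _ => ?_
    rw [hw0 i j z' h1 h2 v hv, smul_zero]
  have hexp : ∀ M, P1 K z B (NormedSpace.exp M) := fun M => P1_exp (hΦS M) (hΦB M) (hΦ0 M)
  refine Matrix.diagonal_transvection_induction_of_det_ne_zero (P1 K z B) M hM ?_ ?_ ?_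
  · intro D hD
    have hD' : ∀ i, D i ≠ 0 := by
      intro i hi
      apply hD
      rw [Matrix.det_diagonal]
      exact Finset.prod_eq_zero (Finset.mem_univ i) hi
    have h1 := hexp (Matrix.diagonal fun i => Complex.log (D i))
    have h2 : NormedSpace.exp (Matrix.diagonal fun i => Complex.log (D i)) = Matrix.diagonal D := by
      rw [Matrix.exp_diagonal]
      congr 1
      funext i
      rw [Pi.coe_exp, ← Complex.exp_eq_exp_ℂ, Complex.exp_log (hD' i)]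
    rwa [h2] at h1
  · intro t
    have h1 := hexp (Matrix.single t.i t.j t.c)
    have h2 : NormedSpace.exp (Matrix.single t.i t.j t.c) = t.toMatrix := by
      rw [E10B.exp_nil2]
      · rfl
      · exact Matrix.single_mul_single_of_ne _ _ _ _ (Ne.symm t.hij) _
    rwa [h2] at h1
  · rintro M M' - - ⟨y, h1, h2, h3⟩ ⟨y', h4, h5, h6⟩
    refine ⟨y * y', h1.mul h4, ?_, fun z' h7 h8 v hv => ?_⟩
    · rw [Matrix.mul_assoc, h5, ← Matrix.mul_assoc, h2, Matrix.mul_assoc]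
    · rw [← Matrix.mulVec_mulVec, h6 z' h7 h8 v hv, h3 z' h7 h8 v hv]

/-- One step. -/
theorem step {z : ℂ} (hz : aeval z K.P = 0) {c : Matrix (Fin n) (Fin n) ℂ} (hc : Un K c) :
    ∃ y, Gen K.S y ∧ (∀ v ∈ K.Tl z, (y * c) *ᵥ v = v) ∧
      (∀ v ∈ K.Tl ((starRingEnd ℂ) z), (y * c) *ᵥ v = v) ∧
      ∀ z', z' ≠ z → z' ≠ (starRingEnd ℂ) z → ∀ v ∈ K.Tl z', y *ᵥ v = v := by
  classical
  obtain ⟨b, b', hb, hb', hd, h1, h2⟩ := C8D.dual K hz
  set B : Matrix (Fin n) (Fin (Module.finrank ℂ (K.Tl z))) ℂ := Matrix.of fun i j => b j i with hB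
  have hBv : ∀ x, B *ᵥ x = ∑ j, x j • b j := by
    intro x
    funext i
    rw [Finset.sum_apply]
    simp only [Matrix.mulVec, dotProduct, hB, Matrix.of_apply, Pi.smul_apply, smul_eq_mul]
    exact Finset.sum_congr rfl fun j _ => mul_comm _ _
  have hBinj : ∀ x, B *ᵥ x = 0 → x = 0 := by
    intro x hx
    rw [hBv] at hx
    funext i
    have h3 : K.bil (b' i) (∑ j, x j • b j) = x i := by
      rw [← C5L.bf_apply, map_sum, Finset.sum_eq_single i]
      · rw [map_smul, C5L.bf_apply, hd, if_pos rfl, smul_eq_mul, mul_one]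
      · intro j _ hj
        rw [map_smul, C5L.bf_apply, hd, if_neg hj, smul_zero]
      · intro h; exact absurd (Finset.mem_univ _) h
    rw [hx, C5L.bil_zero_right] at h3
    exact h3.symm
  -- the matrix of c
  let M : Matrix (Fin (Module.finrank ℂ (K.Tl z))) (Fin (Module.finrank ℂ (K.Tl z))) ℂ :=
    Matrix.of fun i j => K.bil (b' i) (c *ᵥ b j)
  have hcB : c * B = B * M := by
    ext i k
    have h3 : (c * B) i k = (c *ᵥ b k) i := by
      rw [Matrix.mul_apply]; rfl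
    rw [h3, ← h1 _ (hc.pres (hb k)), Finset.sum_apply, Matrix.mul_apply]
    refine Finset.sum_congr rfl fun j _ => ?_
    rw [Pi.smul_apply, smul_eq_mul, mul_comm]
    rfl
  have hM : M.det ≠ 0 := by
    intro h0
    obtain ⟨x, hx, hMx⟩ := Matrix.exists_mulVec_eq_zero_iff.2 h0
    apply hx
    apply hBinj
    apply hc.inj
    rw [Matrix.mulVec_mulVec, hcB, ← Matrix.mulVec_mulVec, hMx, Matrix.mulVec_zero]
  have hMinv : (M⁻¹).det ≠ 0 :=
    (Matrix.isUnit_nonsing_inv_det M (isUnit_iff_ne_zero.2 hM)).ne_zero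
  obtain ⟨y, h4, h5, h6⟩ := P1_all hz b b' hb hb' hd M⁻¹ hMinv
  have hyc : ∀ v ∈ K.Tl z, (y * c) *ᵥ v = v := by
    intro v hv
    have h7 : v = B *ᵥ fun j => K.bil (b' j) v := by rw [hBv, h1 v hv]
    rw [h7, Matrix.mulVec_mulVec, Matrix.mul_assoc, hcB, ← Matrix.mul_assoc, h5, Matrix.mul_assoc,
      Matrix.nonsing_inv_mul _ (isUnit_iff_ne_zero.2 hM), Matrix.mul_one]
  have hUy := (Un.gen h4).mul hc
  refine ⟨y, h4, hyc, ?_, h6⟩
  intro v hv
  have h7 : (y * c) *ᵥ v + (-1 : ℂ) • v = 0 := by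
    refine C5L.nondegT K (z := (starRingEnd ℂ) z)
      (Submodule.add_mem _ (hUy.pres hv) (Submodule.smul_mem _ _ hv)) fun w hw => ?_
    rw [Complex.conj_conj] at hw
    rw [C5L.bil_add_left, C5L.bil_smul_left]
    nth_rewrite 1 [← hyc w hw]
    rw [hUy.bil]
    ring
  have h8 : (y * c) *ᵥ v = (y * c) *ᵥ v + (-1 : ℂ) • v + v := by
    module
  rw [h8, h7, zero_add]

end CX10

open CX10 in
/-- Elements of the unitary group are products of exponentials. -/
theorem C10x_main {g n m : ℕ} {A : AbVar g} (K : KSC A n m) (b : Matrix (Fin n) (Fin n) ℂ)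
    (hb : Un K b) : ∃ as : List (Matrix (Fin n) (Fin n) ℂ), (∀ a ∈ as, a ∈ K.S) ∧
      (as.map fun a => NormedSpace.exp a).prod = b := by
  classical
  have key : ∀ s : Finset ℂ, (∀ z ∈ s, aeval z K.P = 0) →
      ∃ y, Gen K.S y ∧ ∀ z ∈ s, ∀ v ∈ K.Tl z, (y * b) *ᵥ v = v := by
    intro s
    induction s using Finset.induction_on with
    | empty => exact fun _ => ⟨1, Gen.one, fun z hz => absurd hz (Finset.notMem_empty z)⟩
    | insert z s hz ih =>
      intro hs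
      obtain ⟨y, hy, hyv⟩ := ih fun z' hz' => hs z' (Finset.mem_insert_of_mem hz')
      obtain ⟨y1, h1, h2, h3, h4⟩ := step (hs z (Finset.mem_insert_self _ _)) ((Un.gen hy).mul hb)
      refine ⟨y1 * y, h1.mul hy, fun z' hz' v hv => ?_⟩
      rw [Matrix.mul_assoc]
      by_cases e1 : z' = z
      · subst e1; exact h2 v hv
      by_cases e2 : z' = (starRingEnd ℂ) z
      · subst e2; exact h3 v hv
      have hz'' := (Finset.mem_insert.1 hz').resolve_left e1
      rw [← Matrix.mulVec_mulVec, hyv z' hz'' v hv]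
      exact h4 z' e1 e2 v hv
  obtain ⟨y, hy, hyv⟩ := key ((K.P.aroots ℂ).toFinset) (fun z hz => by
    rw [Multiset.mem_toFinset, Polynomial.mem_aroots] at hz
    exact hz.2)
  have hyb : y * b = 1 := by
    refine C5L.mat_extT K fun z hz v hv => ?_
    rw [hyv z (by
      rw [Multiset.mem_toFinset, Polynomial.mem_aroots]
      exact ⟨K.irr.ne_zero, hz⟩) v hv, Matrix.one_mulVec]
  obtain ⟨y', h1, h2, h3⟩ := hy.inv
  have h4 : b = y' := by
    rw [← Matrix.one_mul b, ← h2, Matrix.mul_assoc, hyb, Matrix.mul_one]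
  rw [h4]
  exact h1

/-- C10X. -/
theorem C10x_proof : Stmt_C10x := fun _ _ _ _ K _ b h1 h2 => C10x_main K b ⟨h1, h2⟩

end

end Pool.Agent.K3C
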