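import Mathlib

/-!
# Three-valued elements of ideals of group rings of finite commutative groups
-/

set_option autoImplicit false

open scoped BigOperators
open Polynomial

namespace Pool.Agent.K3C

namespace TritG

variable {G : Type} [CommGroup G] [Fintype G]

/-- The evaluation of a group ring element at a character. -/
noncomputable abbrev ev (χ : G →* ℂ) : MonoidAlgebra ℚ G →ₐ[ℚ] ℂ := MonoidAlgebra.lift ℚ ℂ G χ

theorem ev_eq (χ : G →* ℂ) (x : MonoidAlgebra ℚ G) : ev χ x = ∑ g, (x.coeff g : ℂ) * χ g := by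
  show MonoidAlgebra.lift ℚ ℂ G χ x = _
  rw [MonoidAlgebra.lift_apply, Finsupp.sum_fintype _ _ (fun g => by simp)]
  refine Finset.sum_congr rfl fun g _ => ?_
  rw [Algebra.smul_def]
  rfl

/-- A nonzero element is detected by a character. -/
theorem exists_char (x : MonoidAlgebra ℚ G) (hx : x ≠ 0) : ∃ χ : G →* ℂ, ev χ x ≠ 0 := by
  classical
  by_contra hcon
  push Not at hcon
  let ℓ : (Additive G → ℂ) →ₗ[ℂ] ℂ :=
    { toFun := fun u => ∑ g : G, (x.coeff g : ℂ) * u (Additive.ofMul g)
      map_add' := fun u v => by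
        rw [← Finset.sum_add_distrib]
        exact Finset.sum_congr rfl fun g _ => by rw [Pi.add_apply, mul_add]
      map_smul' := fun c u => by
        rw [RingHom.id_apply, smul_eq_mul, Finset.mul_sum]
        exact Finset.sum_congr rfl fun g _ => by rw [Pi.smul_apply, smul_eq_mul]; ring }
  have h1 : ℓ = 0 := by
    refine (AddChar.complexBasis (Additive G)).ext fun ψ => ?_
    rw [AddChar.complexBasis_apply, LinearMap.zero_apply]
    let χ : G →* ℂ :=
      { toFun := fun g => ψ (Additive.ofMul g)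
        map_one' := by rw [ofMul_one, AddChar.map_zero_eq_one]
        map_mul' := fun a b => by rw [ofMul_mul, AddChar.map_add_eq_mul] }
    have h2 := hcon χ
    rw [ev_eq] at h2
    exact h2
  apply hx
  ext g
  have h3 := LinearMap.congr_fun h1 (Pi.single (Additive.ofMul g) 1)
  have h4 : ℓ (Pi.single (Additive.ofMul g) 1) = (x.coeff g : ℂ) := by
    show ∑ h : G, (x.coeff h : ℂ) * (Pi.single (Additive.ofMul g) (1 : ℂ) : Additive G → ℂ) (Additive.ofMul h) = _
    rw [Finset.sum_eq_single g]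
    · rw [Pi.single_eq_same, mul_one]
    · intro h _ hne
      rw [Pi.single_eq_of_ne, mul_zero]
      exact fun h' => hne (Additive.ofMul.injective h')
    · intro h; exact absurd (Finset.mem_univ g) h
  rw [h4, LinearMap.zero_apply] at h3
  rw [MonoidAlgebra.coeff_zero, Finsupp.zero_apply]
  exact_mod_cast h3

/-- The image of a character is cyclic. -/
theorem exists_gen (χ : G →* ℂ) : ∃ g0 : G, ∀ g, ∃ k : ℕ, χ g = χ g0 ^ k := by
  have : Finite χ.toHomUnits.range := Finite.of_surjective _ χ.toHomUnits.rangeRestrict_surjective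
  obtain ⟨⟨z, g0, hg0⟩, hz⟩ := IsCyclic.exists_monoid_generator (α := χ.toHomUnits.range)
  refine ⟨g0, fun g => ?_⟩
  obtain ⟨k, hk⟩ := hz ⟨χ.toHomUnits g, g, rfl⟩
  refine ⟨k, ?_⟩
  have h1 := congrArg (fun u : χ.toHomUnits.range => ((u : ℂˣ) : ℂ)) hk
  simp only [SubmonoidClass.coe_pow, Units.val_pow_eq_pow_val] at h1
  rw [← hg0] at h1
  simpa using h1.symm

variable (χ : G →* ℂ) (g0 : G)

open scoped Classical in
/-- The sum of the kernel. -/
noncomputable def e : MonoidAlgebra ℚ G := ∑ h : G, if χ h = 1 then MonoidAlgebra.single h 1 else 0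

open scoped Classical in
theorem e_coeff (x : G) : (e χ).coeff x = if χ x = 1 then 1 else 0 := by
  rw [e, MonoidAlgebra.coeff_sum, Finsupp.finsetSum_apply, Finset.sum_eq_single x]
  · split_ifs
    · simp
    · simp
  · intro h _ hne
    split_ifs
    · rw [MonoidAlgebra.coeff_single, Finsupp.single_apply, if_neg hne]
    · simp
  · intro h; exact absurd (Finset.mem_univ x) h

/-- The partial products. -/
noncomputable def F (S : Finset ℕ) : MonoidAlgebra ℚ G :=
  e χ * ∏ p ∈ S, (1 - MonoidAlgebra.single (g0 ^ (orderOf (χ g0) / p)) 1)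

theorem F_insert {S : Finset ℕ} {p : ℕ} (hp : p ∉ S) (x : G) : (F χ g0 (insert p S)).coeff x =
    (F χ g0 S).coeff x - (F χ g0 S).coeff (x * (g0 ^ (orderOf (χ g0) / p))⁻¹) := by
  rw [F, Finset.prod_insert hp, mul_comm (1 - _), ← mul_assoc, mul_sub, mul_one,
    MonoidAlgebra.coeff_sub, Finsupp.sub_apply, MonoidAlgebra.coeff_mul_single_apply, mul_one]
  rfl

theorem F_coeff (hd : 0 < orderOf (χ g0)) (S : Finset ℕ) (hS : S ⊆ (orderOf (χ g0)).primeFactors) :
    (∀ x, ((F χ g0 S).coeff x = 0 ∨ (F χ g0 S).coeff x = 1 ∨ (F χ g0 S).coeff x = -1) ∧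
      ((F χ g0 S).coeff x ≠ 0 → χ x ^ (∏ p ∈ S, p) = 1)) ∧ (F χ g0 S).coeff 1 = 1 := by
  classical
  induction S using Finset.induction_on with
  | empty =>
    have h0 : F χ g0 ∅ = e χ := by rw [F, Finset.prod_empty, mul_one]
    rw [h0]
    refine ⟨fun x => ?_, ?_⟩
    · rw [e_coeff, Finset.prod_empty, pow_one]
      by_cases h : χ x = 1
      · rw [if_pos h]; exact ⟨Or.inr (Or.inl rfl), fun _ => h⟩
      · rw [if_neg h]; exact ⟨Or.inl rfl, fun h' => absurd rfl h'⟩
    · rw [e_coeff, if_pos χ.map_one]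
  | insert p S hp ih =>
    obtain ⟨ih1, ih2⟩ := ih fun q hq => hS (Finset.mem_insert_of_mem hq)
    have hpd := hS (Finset.mem_insert_self p S)
    rw [Nat.mem_primeFactors] at hpd
    obtain ⟨hpp, hpdvd, -⟩ := hpd
    set d := orderOf (χ g0) with hd'
    -- the two terms are not both nonzero
    have hζ : χ (g0 ^ (d / p)) ^ (∏ q ∈ S, q) ≠ 1 := by
      intro h
      rw [map_pow, ← pow_mul] at h
      have h1 : d ∣ d / p * ∏ q ∈ S, q := orderOf_dvd_of_pow_eq_one h
      have h2 : p ∣ ∏ q ∈ S, q := by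
        obtain ⟨c, hc⟩ := hpdvd
        have hc0 : 0 < c := by
          rcases Nat.eq_zero_or_pos c with h0 | h0
          · rw [h0, mul_zero] at hc; omega
          · exact h0
        have h3 : d / p = c := by rw [hc, Nat.mul_div_cancel_left _ hpp.pos]
        rw [h3] at h1
        rw [hc, mul_comm p c] at h1
        exact Nat.dvd_of_mul_dvd_mul_left hc0 h1
      rw [hpp.prime.dvd_finsetProd_iff] at h2
      obtain ⟨q, hq, hpq⟩ := h2
      have hqp : q.Prime := (Nat.mem_primeFactors.1 (hS (Finset.mem_insert_of_mem hq))).1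
      rw [(Nat.prime_dvd_prime_iff_eq hpp hqp).1 hpq] at hp
      exact hp hq
    have hne0 : ∀ y, χ y ≠ 0 := by
      intro y hy
      have h1 : χ (y * y⁻¹) = 1 := by rw [mul_inv_cancel, map_one]
      rw [map_mul, hy, zero_mul] at h1
      exact zero_ne_one h1
    have hdisj : ∀ x, (F χ g0 S).coeff x ≠ 0 → (F χ g0 S).coeff (x * (g0 ^ (d / p))⁻¹) = 0 := by
      intro x hx
      by_contra h
      have h1 := (ih1 x).2 hx
      have h2 := (ih1 _).2 h
      apply hζ
      have h3 : χ x = χ (x * (g0 ^ (d / p))⁻¹) * χ (g0 ^ (d / p)) := by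
        rw [← map_mul, inv_mul_cancel_right]
      rw [h3, mul_pow, h2, one_mul] at h1
      exact h1
    have hpow : (χ (g0 ^ (d / p))) ^ (p * ∏ q ∈ S, q) = 1 := by
      rw [map_pow, ← pow_mul, ← mul_assoc, Nat.div_mul_cancel hpdvd, pow_mul, hd',
        pow_orderOf_eq_one, one_pow]
    refine ⟨fun x => ?_, ?_⟩
    · rw [F_insert χ g0 hp, Finset.prod_insert hp]
      by_cases h : (F χ g0 S).coeff x = 0
      · rw [h, zero_sub]
        refine ⟨?_, fun h' => ?_⟩
        · rcases (ih1 (x * (g0 ^ (d / p))⁻¹)).1 with h1 | h1 | h1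
          · left; rw [h1, neg_zero]
          · right; right; rw [h1]
          · right; left; rw [h1, neg_neg]
        · have h1 := (ih1 (x * (g0 ^ (d / p))⁻¹)).2 (fun h0 => h' (by rw [h0, neg_zero]))
          have h3 : χ x = χ (x * (g0 ^ (d / p))⁻¹) * χ (g0 ^ (d / p)) := by
            rw [← map_mul, inv_mul_cancel_right]
          rw [h3, mul_pow, hpow, mul_one, mul_comm p, pow_mul, h1, one_pow]
      · rw [hdisj x h, sub_zero]
        refine ⟨(ih1 x).1, fun h' => ?_⟩
        rw [mul_comm p, pow_mul, (ih1 x).2 h', one_pow]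
    · rw [F_insert χ g0 hp, ih2, hdisj 1 (by rw [ih2]; exact one_ne_zero), sub_zero]

variable {χ g0}

/-- The kernel of the character annihilates the product. -/
theorem annihilate (hd : 0 < orderOf (χ g0)) (hgen : ∀ g, ∃ k : ℕ, χ g = χ g0 ^ k)
    (x : MonoidAlgebra ℚ G) (hx : ev χ x = 0) :
    x * F χ g0 (orderOf (χ g0)).primeFactors = 0 := by
  classical
  by_contra hcon
  obtain ⟨ψ, hψ⟩ := exists_char _ hcon
  apply hψ
  rw [map_mul, F, map_mul, map_prod]
  set d := orderOf (χ g0) with hd'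
  by_cases hA : ∃ h, χ h = 1 ∧ ψ h ≠ 1
  · obtain ⟨h, hh, hψh⟩ := hA
    have h1 : e χ * MonoidAlgebra.single h 1 = e χ := by
      ext y
      rw [MonoidAlgebra.coeff_mul_single_apply, e_coeff, e_coeff, mul_one]
      have h2 : χ (y * h⁻¹) = χ y := by
        have h3 : χ y = χ (y * h⁻¹) * χ h := by rw [← map_mul, inv_mul_cancel_right]
        rw [h3, hh, mul_one]
      rw [h2]
    have h2 := congrArg (ev ψ) h1
    rw [map_mul] at h2
    have h3 : ev ψ (MonoidAlgebra.single h 1) = ψ h := by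
      show MonoidAlgebra.lift ℚ ℂ G ψ _ = _
      rw [MonoidAlgebra.lift_single, one_smul]
    rw [h3] at h2
    have h4 : ev ψ (e χ) * (ψ h - 1) = 0 := by rw [mul_sub, h2, mul_one, sub_self]
    rcases mul_eq_zero.1 h4 with h5 | h5
    · rw [h5, zero_mul, mul_zero]
    · exact absurd (sub_eq_zero.1 h5) hψh
  · push Not at hA
    have hηd : ψ g0 ^ d = 1 := by
      rw [← map_pow]
      apply hA
      rw [map_pow, hd', pow_orderOf_eq_one]
    by_cases hprim : ∀ p : ℕ, p.Prime → p ∣ d → ψ g0 ^ (d / p) ≠ 1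
    · -- primitive
      have hord : orderOf (ψ g0) = d := orderOf_eq_of_pow_and_pow_div_prime hd hηd hprim
      have hζ : IsPrimitiveRoot (χ g0) d := IsPrimitiveRoot.orderOf (χ g0)
      have hη : IsPrimitiveRoot (ψ g0) d := by
        rw [← hord]; exact IsPrimitiveRoot.orderOf (ψ g0)
      choose k hk using hgen
      have hψk : ∀ g, ψ g = ψ g0 ^ k g := by
        intro g
        have h1 : χ (g * (g0 ^ k g)⁻¹) = 1 := by
          have h2 : χ (g0 ^ k g) ≠ 0 := by
            rw [map_pow]
            exact pow_ne_zero _ (hζ.ne_zero hd.ne')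
          have h3 : χ (g * (g0 ^ k g)⁻¹) * χ (g0 ^ k g) = χ g := by
            rw [← map_mul, inv_mul_cancel_right]
          have h4 : χ g = χ (g0 ^ k g) := by rw [map_pow, hk g]
          rw [h4] at h3
          exact mul_right_cancel₀ h2 (h3.trans (one_mul _).symm)
        have h2 := hA _ h1
        have h3 : ψ g = ψ (g * (g0 ^ k g)⁻¹) * ψ (g0 ^ k g) := by
          rw [← map_mul, inv_mul_cancel_right]
        rw [h3, h2, one_mul, map_pow]
      let Q : ℚ[X] := ∑ g : G, C (x.coeff g) * X ^ k g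
      have hQ : ∀ w : ℂ, aeval w Q = ∑ g : G, (x.coeff g : ℂ) * w ^ k g := by
        intro w
        simp only [Q, map_sum, map_mul, map_pow, aeval_C, aeval_X]
        rfl
      have hQχ : aeval (χ g0) Q = 0 := by
        rw [hQ, ← hx, ev_eq]
        exact Finset.sum_congr rfl fun g _ => by rw [hk g]
      have h5 : minpoly ℚ (χ g0) ∣ Q := minpoly.dvd _ _ hQχ
      rw [← Polynomial.cyclotomic_eq_minpoly_rat hζ hd, Polynomial.cyclotomic_eq_minpoly_rat hη hd] at h5
      obtain ⟨R, hR⟩ := h5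
      have h6 : aeval (ψ g0) Q = 0 := by rw [hR, map_mul, minpoly.aeval, zero_mul]
      have h7 : ev ψ x = 0 := by
        rw [ev_eq, ← h6, hQ]
        exact Finset.sum_congr rfl fun g _ => by rw [hψk g]
      rw [h7, zero_mul]
    · push Not at hprim
      obtain ⟨p, hp, hpd, hη⟩ := hprim
      have h1 : ∏ q ∈ d.primeFactors, ev ψ (1 - MonoidAlgebra.single (g0 ^ (d / q)) 1) = 0 := by
        refine Finset.prod_eq_zero (i := p) (Nat.mem_primeFactors.2 ⟨hp, hpd, hd.ne'⟩) ?_
        rw [map_sub, map_one]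
        show 1 - MonoidAlgebra.lift ℚ ℂ G ψ _ = 0
        rw [MonoidAlgebra.lift_single, one_smul, map_pow, hη, sub_self]
      rw [h1, mul_zero, mul_zero]

/-- The main lemma. -/
theorem main (L : AddSubgroup (G → ℤ)) (hL : ∀ y : G, ∀ f ∈ L, (fun x => f (y * x)) ∈ L)
    (hne : L ≠ ⊥) : ∃ f ∈ L, f ≠ 0 ∧ ∃ c : ℤ, ∀ x, f x = 0 ∨ f x = c ∨ f x = -c := by
  classical
  obtain ⟨r0, hr0, hr0'⟩ : ∃ r0, r0 ∈ L ∧ r0 ≠ 0 := by
    by_contra hcon
    push Not at hcon
    exact hne ((AddSubgroup.eq_bot_iff_forall L).2 hcon)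
  let r : MonoidAlgebra ℚ G := ∑ g : G, MonoidAlgebra.single g (r0 g : ℚ)
  have hr : ∀ g, r.coeff g = r0 g := by
    intro g
    simp only [r]
    rw [MonoidAlgebra.coeff_sum, Finsupp.finsetSum_apply, Finset.sum_eq_single g]
    · rw [MonoidAlgebra.coeff_single, Finsupp.single_eq_same]
    · intro h _ hne
      rw [MonoidAlgebra.coeff_single, Finsupp.single_apply, if_neg hne]
    · intro h; exact absurd (Finset.mem_univ g) h
  have hrne : r ≠ 0 := by
    intro h
    apply hr0'
    funext g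
    have := hr g
    rw [h, MonoidAlgebra.coeff_zero, Finsupp.zero_apply] at this
    exact_mod_cast this.symm
  obtain ⟨χ, hχ⟩ := exists_char r hrne
  obtain ⟨g0, hgen⟩ := exists_gen χ
  have hd : 0 < orderOf (χ g0) := by
    rw [orderOf_pos_iff, isOfFinOrder_iff_pow_eq_one]
    exact ⟨Fintype.card G, Fintype.card_pos, by rw [← map_pow, pow_card_eq_one, map_one]⟩
  have hint : IsIntegral ℚ (ev χ r) := by
    rw [ev_eq]
    refine IsIntegral.sum _ fun g _ => ?_
    have h1 : IsIntegral ℚ (χ g) := by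
      refine IsIntegral.of_pow (n := Fintype.card G) Fintype.card_pos ?_
      rw [← map_pow, pow_card_eq_one, map_one]
      exact isIntegral_one
    exact (isIntegral_algebraMap (R := ℚ) (x := r.coeff g)).mul h1
  have hinv : (ev χ r)⁻¹ ∈ (ev χ).range := hint.inv_mem ⟨r, rfl⟩
  obtain ⟨s, hs⟩ := hinv
  have hs' : ev χ s = (ev χ r)⁻¹ := hs
  set f := F χ g0 (orderOf (χ g0)).primeFactors with hf
  have h1 : (s * r - 1) * f = 0 := annihilate hd hgen _ (by
    rw [map_sub, map_mul, hs', inv_mul_cancel₀ hχ, map_one, sub_self])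
  have h2 : f = (s * f) * r := by
    rw [sub_mul, one_mul, sub_eq_zero] at h1
    rw [mul_right_comm, h1]
  obtain ⟨hF1, hF2⟩ := F_coeff χ g0 hd _ (Finset.Subset.refl _)
  rw [← hf] at hF1 hF2
  -- common denominator
  obtain ⟨b, hb⟩ := IsLocalization.exist_integer_multiples_of_finite (nonZeroDivisors ℤ)
    (S := ℚ) (fun g : G => (s * f).coeff g)
  choose N hN using hb
  have hb0 : ((b : ℤ) : ℚ) ≠ 0 := by
    have := nonZeroDivisors.coe_ne_zero b
    exact_mod_cast this
  have hN' : ∀ g, ((N g : ℤ) : ℚ) = (b : ℤ) * (s * f).coeff g := by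
    intro g
    have h3 := hN g
    rw [eq_intCast] at h3
    rw [h3, zsmul_eq_mul]
  -- the function
  let u : G → ℤ := ∑ y : G, N y • (fun x => r0 (y⁻¹ * x))
  have hu : u ∈ L := L.sum_mem fun y _ => L.zsmul_mem (hL _ _ hr0) _
  have hux : ∀ x, ((u x : ℤ) : ℚ) = (b : ℤ) * f.coeff x := by
    intro x
    have h3 : f.coeff x = ∑ y : G, (s * f).coeff y * r.coeff (y⁻¹ * x) := by
      have h4 : s * f = ∑ y : G, MonoidAlgebra.single y ((s * f).coeff y) := by
        ext g
        rw [MonoidAlgebra.coeff_sum, Finsupp.finsetSum_apply, Finset.sum_eq_single g]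
        · rw [MonoidAlgebra.coeff_single, Finsupp.single_eq_same]
        · intro h _ hne
          rw [MonoidAlgebra.coeff_single, Finsupp.single_apply, if_neg hne]
        · intro h; exact absurd (Finset.mem_univ g) h
      conv_lhs => rw [h2, h4, Finset.sum_mul]
      rw [MonoidAlgebra.coeff_sum, Finsupp.finsetSum_apply]
      refine Finset.sum_congr rfl fun y _ => ?_
      rw [MonoidAlgebra.coeff_single_mul_apply]
    rw [h3, Finset.mul_sum]
    simp only [u, Finset.sum_apply, Pi.smul_apply, smul_eq_mul]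
    push_cast
    refine Finset.sum_congr rfl fun y _ => ?_
    rw [hN' y, hr]
    ring
  refine ⟨u, hu, ?_, b, fun x => ?_⟩
  · intro h
    have h3 := hux 1
    rw [h, Pi.zero_apply, Int.cast_zero, hF2, mul_one] at h3
    exact hb0 h3.symm
  · have h3 := hux x
    rcases (hF1 x).1 with h4 | h4 | h4
    · left
      rw [h4, mul_zero] at h3
      exact_mod_cast h3
    · right; left
      rw [h4, mul_one] at h3
      exact_mod_cast h3
    · right; right
      rw [h4, mul_neg, mul_one] at h3
      exact_mod_cast h3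

end TritG

end Pool.Agent.K3C
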