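import Pool.Agent.K3C.C8t
import Pool.Agent.K3C.TritG

/-!
# The condition on the CM field

`K.Trit` holds if the automorphisms of `ℂ` contain a subgroup acting commutatively and transitively on the
complex embeddings of `E`, in particular if `E` is abelian over `ℚ`, or if `[E : ℚ]` is `2` or twice a
prime; it also holds if some automorphism exchanges one embedding with its complex conjugate and fixes the
others.
-/

set_option autoImplicit false

open scoped BigOperators
open Matrix Polynomial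

namespace Pool.Agent.K3C

open Pool.Agent.DRB Pool.Agent.K3D

noncomputable section

namespace TritX

open Pool.Agent.K3E.E5L (exists_aut)
open C8T

variable {g n m : ℕ} {A : AbVar g} (K : KSC A n m)

/-- the roots as a type -/
abbrev Om : Type := {z : ℂ // aeval z K.P = 0}

instance : Finite (Om K) :=
  Finite.of_injective (fun z : Om K => (⟨z.1, mem_roots.2 z.2⟩ : {z // z ∈ roots K}))
    fun _ _ h => Subtype.ext (congrArg (fun y : {z // z ∈ roots K} => (y : ℂ)) h)

/-- the action on the roots -/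
def act : (ℂ ≃ₐ[ℚ] ℂ) →* Equiv.Perm (Om K) where
  toFun σ :=
    { toFun := fun z => ⟨σ z.1, root_aut K σ z.2⟩
      invFun := fun z => ⟨σ.symm z.1, root_aut K σ.symm z.2⟩
      left_inv := fun z => Subtype.ext (σ.symm_apply_apply z.1)
      right_inv := fun z => Subtype.ext (σ.apply_symm_apply z.1) }
  map_one' := by ext z; rfl
  map_mul' σ τ := by ext z; rfl

theorem act_apply (σ : ℂ ≃ₐ[ℚ] ℂ) (z : Om K) : ((act K σ z : Om K) : ℂ) = σ z := rfl

/-- The main criterion. -/
theorem trit_of_comm (B : Subgroup (ℂ ≃ₐ[ℚ] ℂ))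
    (hcomm : ∀ σ ∈ B, ∀ τ ∈ B, ∀ z, aeval z K.P = 0 → σ (τ z) = τ (σ z))
    (htrans : ∀ z w : ℂ, aeval z K.P = 0 → aeval w K.P = 0 → ∃ σ ∈ B, σ z = w) : K.Trit := by
  classical
  intro R hR1 hR2 hR3 hR0
  let G := B.map (act K)
  have hG : ∀ a b : G, a * b = b * a := by
    rintro ⟨_, σ, hσ, rfl⟩ ⟨_, τ, hτ, rfl⟩
    apply Subtype.ext
    apply Equiv.ext
    intro z
    exact Subtype.ext (hcomm σ hσ τ hτ z z.2)
  let _ : CommGroup G := { (inferInstance : Group G) with mul_comm := hG }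
  let _ : Fintype G := Fintype.ofFinite G
  obtain ⟨f0, hf0, hf0'⟩ : ∃ f, f ∈ R ∧ f ≠ 0 := by
    by_contra hcon
    push Not at hcon
    exact hR0 ((AddSubgroup.eq_bot_iff_forall R).2 hcon)
  obtain ⟨z0, hz0⟩ : ∃ z, f0 z ≠ 0 := by
    by_contra hcon
    push Not at hcon
    exact hf0' (funext hcon)
  have hz0r : aeval z0 K.P = 0 := by
    by_contra h
    exact hz0 (hR1 f0 hf0 z0 h)
  let w0 : Om K := ⟨z0, hz0r⟩
  let T : (ℂ → ℤ) →+ (G → ℤ) :=
    { toFun := fun f γ => f ((γ.1 w0 : Om K) : ℂ)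
      map_zero' := rfl
      map_add' := fun _ _ => rfl }
  obtain ⟨u, ⟨f, hf, hfu⟩, hu0, c, hc⟩ := TritG.main (R.map T) (by
    rintro ⟨_, σ, hσ, rfl⟩ _ ⟨f, hf, rfl⟩
    exact ⟨_, hR3 σ f hf, rfl⟩) (by
    intro h
    apply hz0
    have h1 : T f0 ∈ R.map T := ⟨f0, hf0, rfl⟩
    rw [h, AddSubgroup.mem_bot] at h1
    exact congrFun h1 1)
  have hval : ∀ z, aeval z K.P = 0 → ∃ γ : G, f z = u γ := by
    intro z hz
    obtain ⟨σ, hσ, hσz⟩ := htrans z0 z hz0r hz
    refine ⟨⟨act K σ, σ, hσ, rfl⟩, ?_⟩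
    rw [← hfu, ← hσz]
    rfl
  refine ⟨f, hf, ?_, c, fun z => ?_⟩
  · rintro rfl
    apply hu0
    rw [← hfu]
    rfl
  · by_cases hz : aeval z K.P = 0
    · obtain ⟨γ, hγ⟩ := hval z hz
      rw [hγ]
      exact hc γ
    · left
      exact hR1 f hf z hz

/-- complex conjugation -/
def rho : ℂ ≃ₐ[ℚ] ℂ := Complex.conjAe.restrictScalars ℚ

theorem rho_apply (z : ℂ) : rho z = (starRingEnd ℂ) z := rfl

/-- an automorphism acting as a full cycle on the pairs of conjugate roots -/
theorem trit_of_cycle (σ : ℂ ≃ₐ[ℚ] ℂ)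
    (hσ : ∀ z w : ℂ, aeval z K.P = 0 → aeval w K.P = 0 →
      ∃ i : ℕ, (σ ^ i) z = w ∨ (σ ^ i) z = (starRingEnd ℂ) w) : K.Trit := by
  refine trit_of_comm K (Subgroup.closure {σ, rho}) ?_ ?_
  · -- commutativity on the roots
    have h1 : ∀ τ ∈ Subgroup.closure {σ, rho}, ∀ z, aeval z K.P = 0 → σ (τ z) = τ (σ z) := by
      intro τ hτ
      induction hτ using Subgroup.closure_induction with
      | mem τ h =>
        intro z hz
        rcases h with rfl | h
        · rfl
        · rw [Set.mem_singleton_iff] at h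
          subst h
          rw [rho_apply, rho_apply, conj_aut K σ hz]
      | one => intro z _; rfl
      | mul a b _ _ ha hb =>
        intro z hz
        show σ (a (b z)) = a (b (σ z))
        rw [ha _ (root_aut K b hz), hb z hz]
      | inv a _ ha =>
        intro z hz
        have h2 := ha _ (root_aut K a.symm hz)
        show σ (a.symm z) = a.symm (σ z)
        rw [AlgEquiv.apply_symm_apply] at h2
        rw [h2, AlgEquiv.symm_apply_apply]
    have h2 : ∀ τ ∈ Subgroup.closure {σ, rho}, ∀ z, aeval z K.P = 0 → rho (τ z) = τ (rho z) := by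
      intro τ _ z hz
      rw [rho_apply, rho_apply, conj_aut K τ hz]
    intro a ha
    induction ha using Subgroup.closure_induction with
    | mem a h =>
      intro τ hτ z hz
      rcases h with rfl | h
      · exact h1 τ hτ z hz
      · rw [Set.mem_singleton_iff] at h
        subst h
        exact h2 τ hτ z hz
    | one => intro τ _ z _; rfl
    | mul a b _ _ ha hb =>
      intro τ hτ z hz
      show a (b (τ z)) = τ (a (b z))
      rw [hb τ hτ z hz, ha τ hτ _ (root_aut K b hz)]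
    | inv a _ ha =>
      intro τ hτ z hz
      have h3 := ha τ hτ _ (root_aut K a.symm hz)
      show a.symm (τ z) = τ (a.symm z)
      rw [AlgEquiv.apply_symm_apply] at h3
      rw [← h3, AlgEquiv.symm_apply_apply]
  · intro z w hz hw
    have hσm : σ ∈ Subgroup.closure {σ, rho} := Subgroup.subset_closure (Or.inl rfl)
    have hρm : rho ∈ Subgroup.closure {σ, rho} := Subgroup.subset_closure (Or.inr rfl)
    obtain ⟨i, hi | hi⟩ := hσ z w hz hw
    · exact ⟨σ ^ i, Subgroup.pow_mem _ hσm i, hi⟩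
    · refine ⟨rho * σ ^ i, Subgroup.mul_mem _ hρm (Subgroup.pow_mem _ hσm i), ?_⟩
      show rho ((σ ^ i) z) = w
      rw [hi, rho_apply, Complex.conj_conj]

theorem card_roots : (roots K).card = K.P.natDegree := by
  have hsep : (K.P.map (algebraMap ℚ ℂ)).Separable := K.irr.separable.map
  show ((K.P.aroots ℂ).toFinset).card = _
  rw [Multiset.toFinset_card_of_nodup (nodup_roots hsep)]
  show (K.P.map (algebraMap ℚ ℂ)).roots.card = _
  rw [IsAlgClosed.card_roots_eq_natDegree, natDegree_map]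

/-- the pairs of conjugate roots -/
abbrev PT : Type := {S : Finset ℂ // ∃ z, aeval z K.P = 0 ∧ S = {z, (starRingEnd ℂ) z}}

theorem image_pair (σ : ℂ ≃ₐ[ℚ] ℂ) {z : ℂ} (hz : aeval z K.P = 0) :
    (({z, (starRingEnd ℂ) z} : Finset ℂ)).image σ = {σ z, (starRingEnd ℂ) (σ z)} := by
  rw [Finset.image_insert, Finset.image_singleton, conj_aut K σ hz]

/-- the action on the pairs -/
def actP : (ℂ ≃ₐ[ℚ] ℂ) →* Equiv.Perm (PT K) where
  toFun σ :=
    { toFun := fun S => ⟨S.1.image σ, by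
        obtain ⟨z, hz, hS⟩ := S.2
        exact ⟨σ z, root_aut K σ hz, by rw [hS, image_pair K σ hz]⟩⟩
      invFun := fun S => ⟨S.1.image σ.symm, by
        obtain ⟨z, hz, hS⟩ := S.2
        exact ⟨σ.symm z, root_aut K σ.symm hz, by rw [hS, image_pair K σ.symm hz]⟩⟩
      left_inv := fun S => Subtype.ext (by
        show (S.1.image σ).image σ.symm = S.1
        rw [Finset.image_image]
        have : (σ.symm : ℂ → ℂ) ∘ (σ : ℂ → ℂ) = id := by funext z; exact σ.symm_apply_apply z
        rw [this, Finset.image_id])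
      right_inv := fun S => Subtype.ext (by
        show (S.1.image σ.symm).image σ = S.1
        rw [Finset.image_image]
        have : (σ : ℂ → ℂ) ∘ (σ.symm : ℂ → ℂ) = id := by funext z; exact σ.apply_symm_apply z
        rw [this, Finset.image_id]) }
  map_one' := by
    apply Equiv.ext
    intro S
    apply Subtype.ext
    show S.1.image (fun z => z) = S.1
    exact Finset.image_id
  map_mul' σ τ := by
    apply Equiv.ext
    intro S
    apply Subtype.ext
    show S.1.image (fun z => σ (τ z)) = (S.1.image τ).image σ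
    rw [Finset.image_image]
    rfl

theorem actP_apply (σ : ℂ ≃ₐ[ℚ] ℂ) (S : PT K) : ((actP K σ S : PT K) : Finset ℂ) = S.1.image σ := rfl

/-- the pair of a root -/
def pr (z : Om K) : PT K := ⟨{z.1, (starRingEnd ℂ) z.1}, z.1, z.2, rfl⟩

theorem actP_pr (σ : ℂ ≃ₐ[ℚ] ℂ) (z : Om K) : actP K σ (pr K z) = pr K (act K σ z) :=
  Subtype.ext (image_pair K σ z.2)

theorem pr_surj : Function.Surjective (pr K) := by
  rintro ⟨S, z, hz, rfl⟩
  exact ⟨⟨z, hz⟩, rfl⟩

theorem pr_eq {z w : Om K} : pr K z = pr K w ↔ z.1 = w.1 ∨ z.1 = (starRingEnd ℂ) w.1 := by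
  constructor
  · intro h
    have h1 : z.1 ∈ ({w.1, (starRingEnd ℂ) w.1} : Finset ℂ) := by
      have h2 := congrArg Subtype.val h
      have h3 : z.1 ∈ (pr K z).1 := Finset.mem_insert_self _ _
      rw [h2] at h3
      exact h3
    rw [Finset.mem_insert, Finset.mem_singleton] at h1
    exact h1
  · intro h
    apply Subtype.ext
    show ({z.1, (starRingEnd ℂ) z.1} : Finset ℂ) = {w.1, (starRingEnd ℂ) w.1}
    rcases h with h | h
    · rw [h]
    · rw [h, Complex.conj_conj, Finset.pair_comm]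

instance : Finite (PT K) := Finite.of_surjective (pr K) (pr_surj K)

theorem two_mul_card : Nat.card (PT K) * 2 = K.P.natDegree := by
  classical
  let _ : Fintype (PT K) := Fintype.ofFinite _
  let _ : Fintype (Om K) := Fintype.ofFinite _
  have h1 : Fintype.card (Om K) = K.P.natDegree := by
    rw [← card_roots K]
    refine Fintype.card_of_subtype (roots K) fun z => mem_roots
  rw [Nat.card_eq_fintype_card, ← h1, ← Finset.card_univ (α := Om K),
    Finset.card_eq_sum_card_fiberwise (f := pr K) (t := Finset.univ) (fun _ _ => Finset.mem_univ _),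
    Finset.sum_const_nat (m := 2) (fun S _ => ?_), Finset.card_univ]
  obtain ⟨z, rfl⟩ := pr_surj K S
  have hzc : aeval ((starRingEnd ℂ) z.1) K.P = 0 := C5L.conj_root K z.2
  have h2 : Finset.univ.filter (fun w => pr K w = pr K z) = {z, ⟨(starRingEnd ℂ) z.1, hzc⟩} := by
    ext w
    rw [Finset.mem_filter, Finset.mem_insert, Finset.mem_singleton, pr_eq]
    constructor
    · rintro ⟨-, h | h⟩
      · exact Or.inl (Subtype.ext h)
      · exact Or.inr (Subtype.ext h)
    · rintro (h | h)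
      · exact ⟨Finset.mem_univ _, Or.inl (congrArg Subtype.val h)⟩
      · exact ⟨Finset.mem_univ _, Or.inr (congrArg Subtype.val h)⟩
  rw [h2, Finset.card_pair]
  intro h
  exact C5L.conj_ne K z.2 (congrArg Subtype.val h).symm

/-- degree twice a prime -/
theorem exists_cycle (hp : (Nat.card (PT K)).Prime) : ∃ σ : ℂ ≃ₐ[ℚ] ℂ, ∀ z w : ℂ, aeval z K.P = 0 →
    aeval w K.P = 0 → ∃ i : ℕ, (σ ^ i) z = w ∨ (σ ^ i) z = (starRingEnd ℂ) w := by
  classical
  let _ : Fintype (PT K) := Fintype.ofFinite _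
  let G := (actP K).range
  let _ : Fintype G := Fintype.ofFinite _
  have htrans : MulAction.IsPretransitive G (PT K) := by
    refine ⟨fun x y => ?_⟩
    obtain ⟨z, rfl⟩ := pr_surj K x
    obtain ⟨w, rfl⟩ := pr_surj K y
    obtain ⟨σ, hσ⟩ := exists_aut K.irr z.2 w.2
    refine ⟨⟨actP K σ, σ, rfl⟩, ?_⟩
    show actP K σ (pr K z) = pr K w
    rw [actP_pr]
    congr 1
    exact Subtype.ext hσ
  have hne : Nonempty (PT K) := by
    rw [← Finite.card_pos_iff]
    exact hp.pos
  obtain ⟨x0⟩ := hne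
  have hdvd : Nat.card (PT K) ∣ Nat.card G := by
    rw [← MulAction.index_stabilizer_of_transitive G x0]
    exact Subgroup.index_dvd_card _
  have := Fact.mk hp
  obtain ⟨τ, hτ⟩ := exists_prime_orderOf_dvd_card' (G := G) (Nat.card (PT K)) hdvd
  obtain ⟨σ, hσ⟩ := τ.2
  have hτ' : orderOf (actP K σ) = Nat.card (PT K) := by
    rw [← hτ, hσ]
    exact Subgroup.orderOf_coe τ
  have hcyc : (actP K σ).IsCycle := by
    apply Equiv.Perm.isCycle_of_prime_order''
    · rw [← Nat.card_eq_fintype_card]; exact hp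
    · rw [← Nat.card_eq_fintype_card]; exact hτ'
  have hsupp : (actP K σ).support = Finset.univ := by
    apply Finset.eq_univ_of_card
    rw [← hcyc.orderOf, hτ', Nat.card_eq_fintype_card]
  refine ⟨σ, fun z w hz hw => ?_⟩
  have hx : actP K σ (pr K ⟨z, hz⟩) ≠ pr K ⟨z, hz⟩ := by
    rw [← Equiv.Perm.mem_support, hsupp]; exact Finset.mem_univ _
  have hy : actP K σ (pr K ⟨w, hw⟩) ≠ pr K ⟨w, hw⟩ := by
    rw [← Equiv.Perm.mem_support, hsupp]; exact Finset.mem_univ _
  obtain ⟨i, hi⟩ := (hcyc.sameCycle hx hy).exists_nat_pow_eq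
  refine ⟨i, ?_⟩
  rw [← map_pow, actP_pr, pr_eq] at hi
  exact hi

theorem trit_two_prime {p : ℕ} (hp : p.Prime) (h : K.P.natDegree = 2 * p) : K.Trit := by
  have h1 : Nat.card (PT K) = p := by
    have := two_mul_card K
    omega
  obtain ⟨σ, hσ⟩ := exists_cycle K (h1 ▸ hp)
  exact trit_of_cycle K σ hσ

theorem trit_two (h : K.P.natDegree = 2) : K.Trit := by
  have h1 : Nat.card (PT K) = 1 := by
    have := two_mul_card K
    omega
  have h2 : Subsingleton (PT K) := (Nat.card_eq_one_iff_unique.1 h1).1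
  refine trit_of_cycle K 1 fun z w hz hw => ⟨0, ?_⟩
  have h3 : pr K ⟨z, hz⟩ = pr K ⟨w, hw⟩ := Subsingleton.elim _ _
  rw [pr_eq] at h3
  exact h3

theorem trit_abelian (h : ∀ a b : K.P.Gal, a * b = b * a) : K.Trit := by
  have : Fact ((K.P.map (algebraMap ℚ ℂ)).Splits) := ⟨IsAlgClosed.splits _⟩
  refine trit_of_comm K ⊤ (fun σ _ τ _ z hz => ?_) fun z w hz hw => ?_
  · have hz' : z ∈ K.P.rootSet ℂ := by
      rw [mem_rootSet]
      exact ⟨K.irr.ne_zero, hz⟩
    have h1 := Gal.restrict_smul (p := K.P) (E := ℂ) (σ * τ) ⟨z, hz'⟩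
    have h2 := Gal.restrict_smul (p := K.P) (E := ℂ) (τ * σ) ⟨z, hz'⟩
    rw [map_mul, h, ← map_mul, h2] at h1
    exact h1.symm
  · obtain ⟨σ, hσ⟩ := exists_aut K.irr hz hw
    exact ⟨σ, trivial, hσ⟩

/-- a subgroup of the Galois group -/
theorem trit_subgroup (B : Subgroup K.P.Gal) (hB : ∀ a ∈ B, ∀ b ∈ B, a * b = b * a)
    (htr : ∀ x y : K.P.SplittingField, aeval x K.P = 0 → aeval y K.P = 0 → ∃ a ∈ B, a x = y) :
    K.Trit := by
  have : Fact ((K.P.map (algebraMap ℚ ℂ)).Splits) := ⟨IsAlgClosed.splits _⟩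
  -- extension of automorphisms
  have hext : ∀ a : K.P.Gal, ∃ σ : ℂ ≃ₐ[ℚ] ℂ, ∀ x : K.P.SplittingField,
      σ (algebraMap K.P.SplittingField ℂ x) = algebraMap K.P.SplittingField ℂ (a x) := by
    intro a
    obtain ⟨ι, v, hv⟩ := exists_isTranscendenceBasis' K.P.SplittingField ℂ
    obtain ⟨σ, hσ, -⟩ := Aut1X.ext_aut v hv a.toRingEquiv (Equiv.refl ι)
    obtain ⟨σ', hσ'⟩ := Aut1X.to_alg σ
    exact ⟨σ', fun x => (hσ' _).trans (hσ x)⟩
  -- all roots come from the splitting field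
  have hroot : ∀ z : ℂ, aeval z K.P = 0 → ∃ x : K.P.SplittingField, aeval x K.P = 0 ∧
      algebraMap K.P.SplittingField ℂ x = z := by
    intro z hz
    have hz' : z ∈ K.P.rootSet ℂ := by
      rw [mem_rootSet]
      exact ⟨K.irr.ne_zero, hz⟩
    obtain ⟨x, hx⟩ := (Gal.mapRoots_bijective K.P ℂ).2 ⟨z, hz'⟩
    exact ⟨x.1, (mem_rootSet.1 x.2).2, congrArg Subtype.val hx⟩
  let B' : Subgroup (ℂ ≃ₐ[ℚ] ℂ) :=
    { carrier := {σ | ∃ a ∈ B, ∀ x : K.P.SplittingField,
        σ (algebraMap K.P.SplittingField ℂ x) = algebraMap K.P.SplittingField ℂ (a x)}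
      mul_mem' := by
        rintro σ τ ⟨a, ha, h1⟩ ⟨b, hb, h2⟩
        refine ⟨a * b, B.mul_mem ha hb, fun x => ?_⟩
        show σ (τ _) = algebraMap K.P.SplittingField ℂ (a (b x))
        rw [h2, h1]
      one_mem' := ⟨1, B.one_mem, fun x => rfl⟩
      inv_mem' := by
        rintro σ ⟨a, ha, h1⟩
        refine ⟨a⁻¹, B.inv_mem ha, fun x => ?_⟩
        have h2 : a (a⁻¹ x) = x :=
          congrArg (fun c : K.P.Gal => c x) (mul_inv_cancel a)
        show σ.symm _ = algebraMap K.P.SplittingField ℂ (a⁻¹ x)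
        rw [AlgEquiv.symm_apply_eq, h1, h2] }
  refine trit_of_comm K B' ?_ ?_
  · rintro σ ⟨a, ha, h1⟩ τ ⟨b, hb, h2⟩ z hz
    obtain ⟨x, -, rfl⟩ := hroot z hz
    rw [h2, h1, h1, h2]
    exact congrArg (fun c : K.P.Gal => algebraMap K.P.SplittingField ℂ (c x)) (hB a ha b hb)
  · intro z w hz hw
    obtain ⟨x, hx, rfl⟩ := hroot z hz
    obtain ⟨y, hy, rfl⟩ := hroot w hw
    obtain ⟨a, ha, hax⟩ := htr x y hx hy
    obtain ⟨σ, hσ⟩ := hext a
    exact ⟨σ, ⟨a, ha, hσ⟩, by rw [hσ, hax]⟩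

/-- an automorphism exchanging one root with its conjugate and fixing the others -/
theorem trit_refl (σ : ℂ ≃ₐ[ℚ] ℂ) (z0 : ℂ) (hz0 : aeval z0 K.P = 0) (h0 : σ z0 = (starRingEnd ℂ) z0)
    (h1 : ∀ z, aeval z K.P = 0 → z ≠ z0 → z ≠ (starRingEnd ℂ) z0 → σ z = z) : K.Trit := by
  intro R hR1 hR2 hR3 hR0
  obtain ⟨f, hf, hf'⟩ : ∃ f, f ∈ R ∧ f ≠ 0 := by
    by_contra hcon
    push Not at hcon
    exact hR0 ((AddSubgroup.eq_bot_iff_forall R).2 hcon)
  obtain ⟨z1, hz1⟩ : ∃ z, f z ≠ 0 := by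
    by_contra hcon
    push Not at hcon
    exact hf' (funext hcon)
  have hz1r : aeval z1 K.P = 0 := by
    by_contra h
    exact hz1 (hR1 f hf z1 h)
  obtain ⟨τ, hτ⟩ := exists_aut K.irr hz0 hz1r
  -- the translate is nonzero at `z0`
  let f1 : ℂ → ℤ := fun z => f (τ z)
  have hf1 : f1 ∈ R := hR3 τ f hf
  have hf10 : f1 z0 ≠ 0 := by
    show f (τ z0) ≠ 0
    rw [hτ]; exact hz1
  let f2 : ℂ → ℤ := fun z => f1 (σ z)
  have hf2 : f2 ∈ R := hR3 σ f1 hf1
  refine ⟨f1 - f2, R.sub_mem hf1 hf2, ?_, 2 * f1 z0, fun z => ?_⟩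
  · intro h
    have h2 := congrFun h z0
    have h3 : f2 z0 = - f1 z0 := by
      show f1 (σ z0) = - f1 z0
      rw [h0, hR2 f1 hf1]
    rw [Pi.sub_apply, h3, Pi.zero_apply] at h2
    omega
  · by_cases hz : aeval z K.P = 0
    · by_cases hz2 : z = z0
      · right; left
        have h3 : f2 z0 = - f1 z0 := by
          show f1 (σ z0) = - f1 z0
          rw [h0, hR2 f1 hf1]
        rw [hz2, Pi.sub_apply, h3]
        ring
      · by_cases hz3 : z = (starRingEnd ℂ) z0
        · right; right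
          have h3 : f2 z = f1 z0 := by
            show f1 (σ z) = f1 z0
            rw [hz3, conj_aut K σ hz0, h0, Complex.conj_conj]
          rw [Pi.sub_apply, h3, hz3, hR2 f1 hf1]
          ring
        · left
          have h3 : f2 z = f1 z := by
            show f1 (σ z) = f1 z
            rw [h1 z hz hz2 hz3]
          rw [Pi.sub_apply, h3, sub_self]
    · left
      rw [Pi.sub_apply, hR1 f1 hf1 z hz, hR1 f2 hf2 z hz, sub_zero]

end TritX

/-- C10. The condition `Trit` holds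
* if `[E : ℚ]` is `2` or twice a prime, or
* if the Galois group of the normal closure of `E` is commutative (`E/ℚ` is abelian), or more generally
* if it contains a commutative subgroup which is transitive on the conjugates of the generator of `E`, or
* if some automorphism exchanges one conjugate of the generator with its complex conjugate and fixes all the
  others. -/
def Stmt_Trit : Prop :=
  ∀ (g : ℕ) (A : AbVar g) (n m : ℕ) (K : KSC A n m),
    ((K.P.natDegree = 2 ∨ ∃ p : ℕ, p.Prime ∧ K.P.natDegree = 2 * p) ∨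
      (∀ a b : K.P.Gal, a * b = b * a) ∨
      (∃ B : Subgroup K.P.Gal, (∀ a ∈ B, ∀ b ∈ B, a * b = b * a) ∧
        ∀ x y : K.P.SplittingField, Polynomial.aeval x K.P = 0 → Polynomial.aeval y K.P = 0 →
          ∃ a ∈ B, a x = y) ∨
      (∃ (σ : ℂ ≃ₐ[ℚ] ℂ) (z : ℂ), Polynomial.aeval z K.P = 0 ∧ σ z = (starRingEnd ℂ) z ∧
        ∀ w : ℂ, Polynomial.aeval w K.P = 0 → w ≠ z → w ≠ (starRingEnd ℂ) z → σ w = w)) → K.Trit

theorem Trit_proof : Stmt_Trit := by
  intro g A n m K h
  rcases h with (h | ⟨p, hp, h⟩) | h | ⟨B, hB, htr⟩ | ⟨σ, z, hz, h0, h1⟩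
  · exact TritX.trit_two K h
  · exact TritX.trit_two_prime K hp h
  · exact TritX.trit_abelian K h
  · exact TritX.trit_subgroup K B hB htr
  · exact TritX.trit_refl K σ z hz h0 h1

end

end Pool.Agent.K3C
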