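import Pool.Agent.K3C.Assembly
import Pool.Agent.K3C.C10g
import Pool.Agent.K3C.C10c
import Pool.Agent.K3C.C10x
import Pool.Agent.K3C.Trit

/-!
# De Rham-Betti conjecture for Kuga-Satake varieties with complex multiplication: assembly with the group
-/

namespace Pool.Agent.K3C

open Pool.Agent.DRB Pool.Agent.K3D Pool.Agent.K3E

theorem c10aC : Stmt_C10a :=
  C10a_proof (SPH.gb3t_proof descaC) descqC (rev_proof leg_proof) leg_proof gb1C c2dC

theorem c10cC : Stmt_C10c :=
  C10c_proof k2aC leg_proof gb2_proof (rev_proof leg_proof) c5aC c5vC C10x_proof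

/-- The main theorem, with the group. -/
theorem mainC2 : MainC2 :=
  C10g_proof piC leg_proof gb2_proof (rev_proof leg_proof) k2aC k2cC c5aC c5vC c8bC c8tC c9wC c10aC c10cC

end Pool.Agent.K3C
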