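import Mathlib

set_option linter.unusedSectionVars false

/-!
# Galois stable groups of odd functions: abstract part

`C` is a finite set (the complex embeddings of a CM field) with a group `G` of permutations, `c` a central
involution (complex conjugation), `h` an odd function with values `1`, `-1`.
-/

open scoped BigOperators

namespace Pool.Agent.K3C.TA

noncomputable section

variable {C : Type} [Fintype C] [DecidableEq C]

structure Dat (G : Subgroup (Equiv.Perm C)) (c : Equiv.Perm C) (h : C → ℤ) : Prop where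
  cG : c ∈ G
  cc : ∀ p, c (c p) = p
  comm : ∀ g ∈ G, ∀ p, c (g p) = g (c p)
  hh : ∀ p, h p = 1 ∨ h p = -1
  hc : ∀ p, h (c p) = - h p

/-- odd functions -/
def Vo (c : Equiv.Perm C) : Submodule ℚ (C → ℚ) where
  carrier := {v | ∀ p, v (c p) = - v p}
  zero_mem' := fun p => by simp
  add_mem' := by
    intro a b ha hb p
    show a (c p) + b (c p) = -(a p + b p)
    rw [ha p, hb p]; ring
  smul_mem' := by
    intro r a ha p
    show r * a (c p) = -(r * a p)
    rw [ha p]; ring

/-- the rational span of the odd elements of `R` -/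
def Mo (c : Equiv.Perm C) (R : AddSubgroup (C → ℤ)) : Submodule ℚ (C → ℚ) where
  carrier := {v | v ∈ Vo c ∧ ∃ m : ℤ, m ≠ 0 ∧ ∃ n ∈ R, ∀ p, (n p : ℚ) = m * v p}
  zero_mem' := ⟨(Vo c).zero_mem, 1, one_ne_zero, 0, R.zero_mem, fun p => by simp⟩
  add_mem' := by
    rintro a b ⟨ha, m, hm, n, hn, h1⟩ ⟨hb, m', hm', n', hn', h2⟩
    refine ⟨(Vo c).add_mem ha hb, m * m', mul_ne_zero hm hm', m' • n + m • n',
      R.add_mem (R.zsmul_mem hn _) (R.zsmul_mem hn' _), fun p => ?_⟩
    show (((m' • n + m • n') p : ℤ) : ℚ) = ((m * m' : ℤ) : ℚ) * (a p + b p)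
    rw [Pi.add_apply, Pi.smul_apply, Pi.smul_apply, smul_eq_mul, smul_eq_mul]
    push_cast
    rw [h1 p, h2 p]; ring
  smul_mem' := by
    rintro r a ⟨ha, m, hm, n, hn, h1⟩
    refine ⟨(Vo c).smul_mem r ha, r.den * m, mul_ne_zero (by exact_mod_cast r.den_ne_zero) hm,
      r.num • n, R.zsmul_mem hn _, fun p => ?_⟩
    show (((r.num • n) p : ℤ) : ℚ) = ((r.den * m : ℤ) : ℚ) * (r * a p)
    rw [Pi.smul_apply, smul_eq_mul]
    push_cast
    rw [h1 p]
    have h3 : (r.den : ℚ) * r = r.num := by
      rw [mul_comm]; exact Rat.mul_den_eq_num r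
    calc (r.num : ℚ) * (m * a p) = (r.den * r) * (m * a p) := by rw [h3]
      _ = _ := by ring

theorem Mo_le (c : Equiv.Perm C) (R : AddSubgroup (C → ℤ)) : Mo c R ≤ Vo c := fun _ h => h.1

/-- trits -/
def HasTrit (R : AddSubgroup (C → ℤ)) : Prop :=
  ∃ n ∈ R, n ≠ 0 ∧ ∃ k : ℤ, ∀ p, n p = 0 ∨ n p = k ∨ n p = -k

variable {G : Subgroup (Equiv.Perm C)} {c : Equiv.Perm C} {h : C → ℤ} {R : AddSubgroup (C → ℤ)}

theorem c_ne (D : Dat G c h) (p : C) : c p ≠ p := by
  intro hp
  have h1 := D.hc p
  rw [hp] at h1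
  rcases D.hh p with h2 | h2 <;> rw [h2] at h1 <;> norm_num at h1

/-- the function `δ_p - δ_{cp}` -/
def dl (c : Equiv.Perm C) (p : C) : C → ℚ := fun r => (if r = p then 1 else 0) - (if r = c p then 1 else 0)

theorem dl_mem (D : Dat G c h) (p : C) : dl c p ∈ Vo c := by
  intro r
  unfold dl
  have h1 : (c r = p) ↔ (r = c p) := by
    constructor
    · rintro rfl; exact (D.cc r).symm
    · rintro rfl; exact D.cc p
  have h2 : (c r = c p) ↔ (r = p) := c.apply_eq_iff_eq
  simp only [h1, h2]
  ring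

theorem trit_of_dl (D : Dat G c h) {p : C} (hp : dl c p ∈ Mo c R) : HasTrit R := by
  obtain ⟨_, m, hm, n, hn, h1⟩ := hp
  have h2 : ∀ r, n r = m * ((if r = p then 1 else 0) - (if r = c p then 1 else 0)) := by
    intro r
    have := h1 r
    unfold dl at this
    have h3 : ((n r : ℤ) : ℚ) = ((m * ((if r = p then 1 else 0) - (if r = c p then 1 else 0)) : ℤ) : ℚ) := by
      rw [this]; push_cast; rfl
    exact_mod_cast h3
  have hcp := c_ne D p
  refine ⟨n, hn, fun h0 => hm ?_, m, fun r => ?_⟩
  · have h3 := h2 p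
    rw [if_pos rfl, if_neg hcp.symm, h0, Pi.zero_apply] at h3
    linarith
  · rw [h2 r]
    by_cases e1 : r = p
    · subst e1
      rw [if_pos rfl, if_neg hcp.symm]
      right; left; ring
    · rw [if_neg e1]
      by_cases e2 : r = c p
      · rw [if_pos e2]
        right; right; ring
      · rw [if_neg e2]
        left; ring

/-- an element of `M` gives an element of `R` -/
theorem trit_of_dl_sub (D : Dat G c h) {p q : C} (hpq : p ≠ q) (hp : dl c q - dl c p ∈ Mo c R) :
    HasTrit R := by
  obtain ⟨_, m, hm, n, hn, h1⟩ := hp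
  have h2 : ∀ r, n r = m * (((if r = q then 1 else 0) - (if r = c q then 1 else 0)) -
      ((if r = p then 1 else 0) - (if r = c p then 1 else 0))) := by
    intro r
    have := h1 r
    rw [Pi.sub_apply] at this
    unfold dl at this
    have h3 : ((n r : ℤ) : ℚ) = ((m * (((if r = q then 1 else 0) - (if r = c q then 1 else 0)) -
      ((if r = p then 1 else 0) - (if r = c p then 1 else 0))) : ℤ) : ℚ) := by
      rw [this]
      push_cast; rfl
    exact_mod_cast h3
  have hcp := c_ne D p
  have hcq := c_ne D q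
  by_cases hq : q = c p
  · subst hq
    have hccp : c (c p) = p := D.cc p
    refine ⟨n, hn, fun h0 => hm ?_, 2 * m, fun r => ?_⟩
    · have h3 := h2 p
      rw [hccp, if_pos rfl, if_neg hcp.symm, h0, Pi.zero_apply] at h3
      linarith
    · rw [h2 r, hccp]
      by_cases e1 : r = p
      · subst e1
        rw [if_pos rfl, if_neg hcp.symm]
        right; right; ring
      · rw [if_neg e1]
        by_cases e2 : r = c p
        · rw [if_pos e2]
          right; left; ring
        · rw [if_neg e2]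
          left; ring
  · have hcpq : c q ≠ c p := fun h3 => hpq (c.injective h3).symm
    have hcq' : c q ≠ p := by
      intro h3
      apply hq
      rw [← h3, D.cc]
    refine ⟨n, hn, fun h0 => hm ?_, m, fun r => ?_⟩
    · have h3 := h2 q
      rw [if_pos rfl, if_neg hcq.symm, if_neg (Ne.symm hpq), if_neg hq, h0, Pi.zero_apply] at h3
      linarith
    · rw [h2 r]
      by_cases e1 : r = q
      · subst e1
        rw [if_pos rfl, if_neg hcq.symm, if_neg (Ne.symm hpq), if_neg hq]
        right; left; ring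
      · rw [if_neg e1]
        by_cases e2 : r = c q
        · subst e2
          rw [if_pos rfl, if_neg hcq', if_neg hcpq]
          right; right; ring
        · rw [if_neg e2]
          by_cases e3 : r = p
          · subst e3
            rw [if_pos rfl, if_neg hcp.symm]
            right; right; ring
          · rw [if_neg e3]
            by_cases e4 : r = c p
            · rw [if_pos e4]
              right; left; ring
            · rw [if_neg e4]
              left; ring

/-- `f` is mapped to `± f` by all elements of the group. -/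
theorem trit_of_eig (htr : ∀ p q : C, ∃ g ∈ G, g p = q) {f : C → ℤ} (hf : f ∈ R) (hne : f ≠ 0)
    (he : ∀ g ∈ G, (∀ p, f (g p) = f p) ∨ (∀ p, f (g p) = - f p)) : HasTrit R := by
  obtain ⟨p0, hp0⟩ := Function.ne_iff.1 hne
  refine ⟨f, hf, hne, f p0, fun p => ?_⟩
  obtain ⟨g, hg, rfl⟩ := htr p0 p
  rcases he g hg with h1 | h1
  · right; left; exact h1 p0
  · right; right; exact h1 p0

theorem sq_eig {v : C → ℚ} {g : Equiv.Perm C} {l : ℚ} (hv : v ≠ 0) (h1 : ∀ p, v (g p) = l * v p) :
    l = 1 ∨ l = -1 := by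
  have h2 : ∑ p, v (g p) ^ 2 = ∑ p, v p ^ 2 := Fintype.sum_equiv g _ _ fun p => rfl
  have h3 : ∑ p, v (g p) ^ 2 = l ^ 2 * ∑ p, v p ^ 2 := by
    rw [Finset.mul_sum]
    exact Finset.sum_congr rfl fun p _ => by rw [h1 p]; ring
  have h4 : ∑ p, v p ^ 2 ≠ 0 := by
    intro h5
    apply hv
    funext p
    have := (Finset.sum_eq_zero_iff_of_nonneg (fun i _ => sq_nonneg (v i))).1 h5 p (Finset.mem_univ p)
    exact pow_eq_zero_iff two_ne_zero |>.1 this
  have h5 : l ^ 2 = 1 := by
    have h6 : l ^ 2 * ∑ p, v p ^ 2 = 1 * ∑ p, v p ^ 2 := by rw [← h3, h2, one_mul]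
    exact mul_right_cancel₀ h4 h6
  exact mul_self_eq_one_iff.1 (by rw [← sq]; exact h5)

/-! ### stability of `M` -/

theorem Mo_stable (D : Dat G c h) (hst : ∀ g ∈ G, ∀ n ∈ R, (fun p => n (g p)) ∈ R) {g : Equiv.Perm C}
    (hg : g ∈ G) {v : C → ℚ} (hv : v ∈ Mo c R) : (fun p => v (g p)) ∈ Mo c R := by
  obtain ⟨h1, m, hm, n, hn, h2⟩ := hv
  refine ⟨fun p => ?_, m, hm, _, hst g hg n hn, fun p => h2 (g p)⟩
  show v (g (c p)) = - v (g p)
  rw [← D.comm g hg, h1 (g p)]

theorem Vo_stable (D : Dat G c h) {g : Equiv.Perm C}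
    (hg : g ∈ G) {v : C → ℚ} (hv : v ∈ Vo c) : (fun p => v (g p)) ∈ Vo c := by
  intro p
  show v (g (c p)) = - v (g p)
  rw [← D.comm g hg, hv (g p)]

theorem mem_Mo {f : C → ℤ} (hf : f ∈ R) (hodd : ∀ p, f (c p) = - f p) :
    (fun p => (f p : ℚ)) ∈ Mo c R :=
  ⟨fun p => by show ((f (c p) : ℤ) : ℚ) = -((f p : ℤ) : ℚ); rw [hodd p]; push_cast; rfl,
    1, one_ne_zero, f, hf, fun p => by push_cast; ring⟩

/-- Lemma A1. -/
theorem trit_top (D : Dat G c h) (hne : ∃ f ∈ R, f ≠ 0) (hM : Vo c ≤ Mo c R) : HasTrit R := by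
  obtain ⟨f, hf, hf0⟩ := hne
  obtain ⟨p, -⟩ := Function.ne_iff.1 hf0
  exact trit_of_dl D (hM (dl_mem D p))

/-- Lemma A2. -/
theorem trit_one (D : Dat G c h) (hst : ∀ g ∈ G, ∀ n ∈ R, (fun p => n (g p)) ∈ R)
    (hodd : ∀ n ∈ R, ∀ p, n (c p) = - n p) (htr : ∀ p q : C, ∃ g ∈ G, g p = q)
    (hne : ∃ f ∈ R, f ≠ 0) (hM : Module.finrank ℚ (Mo c R) ≤ 1) :
    HasTrit R := by
  obtain ⟨f, hf, hf0⟩ := hne
  refine trit_of_eig htr hf hf0 fun g hg => ?_
  have hv : (fun p => (f p : ℚ)) ∈ Mo c R := mem_Mo hf (hodd f hf)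
  have hv0 : (fun p => (f p : ℚ)) ≠ 0 := by
    intro h0
    apply hf0
    funext p
    have : (f p : ℚ) = 0 := congrFun h0 p
    have h2 : f p = 0 := by exact_mod_cast this
    exact h2
  have hgv := Mo_stable D hst hg hv
  have h1 : Module.finrank ℚ (Mo c R) = 1 := by
    have : 0 < Module.finrank ℚ (Mo c R) := by
      have : Nontrivial (Mo c R) := ⟨⟨⟨_, hv⟩, 0, fun h => hv0 (congrArg Subtype.val h)⟩⟩
      exact Module.finrank_pos
    omega
  obtain ⟨l, hl⟩ := (finrank_eq_one_iff_of_nonzero' (⟨_, hv⟩ : Mo c R)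
    (fun h => hv0 (congrArg Subtype.val h))).1 h1 ⟨_, hgv⟩
  have hl' : ∀ p, (f (g p) : ℚ) = l * f p := fun p => (congrFun (congrArg Subtype.val hl) p).symm
  rcases sq_eig (v := fun p => (f p : ℚ)) hv0 hl' with h2 | h2
  · left
    intro p
    have := hl' p
    rw [h2, one_mul] at this
    exact_mod_cast this
  · right
    intro p
    have := hl' p
    rw [h2] at this
    have h3 : ((f (g p) : ℤ) : ℚ) = ((- f p : ℤ) : ℚ) := by rw [this]; push_cast; ring
    exact_mod_cast h3

/-- Lemma A3. -/
theorem trit_codim (D : Dat G c h) (hst : ∀ g ∈ G, ∀ n ∈ R, (fun p => n (g p)) ∈ R)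
    (hodd : ∀ n ∈ R, ∀ p, n (c p) = - n p) (htr : ∀ p q : C, ∃ g ∈ G, g p = q)
    (hne : ∃ f ∈ R, f ≠ 0)
    (hM : Module.finrank ℚ (Mo c R) + 1 = Module.finrank ℚ (Vo c)) :
    HasTrit R := by
  -- the vector `w`
  have hlt : ¬ Vo c ≤ Mo c R := by
    intro hle
    have := Submodule.finrank_mono hle
    omega
  obtain ⟨x, hxV, hxM⟩ := SetLike.not_le_iff_exists.1 hlt
  obtain ⟨φ, hφx, hφM⟩ := Submodule.exists_dual_map_eq_bot_of_notMem (p := Mo c R) hxM inferInstance
  let a : C → ℚ := fun p => φ (Pi.single p 1)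
  have ha : ∀ v, φ v = ∑ p, v p * a p := by
    intro v
    have h1 : v = ∑ p, v p • (Pi.single p (1 : ℚ) : C → ℚ) := by
      funext r
      rw [Finset.sum_apply]
      rw [Finset.sum_eq_single r]
      · rw [Pi.smul_apply, Pi.single_eq_same, smul_eq_mul, mul_one]
      · intro b _ hb
        rw [Pi.smul_apply, Pi.single_eq_of_ne (Ne.symm hb), smul_zero]
      · intro hr
        exact absurd (Finset.mem_univ r) hr
    conv_lhs => rw [h1]
    rw [map_sum]
    exact Finset.sum_congr rfl fun p _ => by rw [map_smul, smul_eq_mul]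
  let w : C → ℚ := fun p => a p - a (c p)
  have hwV : w ∈ Vo c := by
    intro p
    show a (c p) - a (c (c p)) = -(a p - a (c p))
    rw [D.cc]; ring
  have hw : ∀ v ∈ Vo c, ∑ p, v p * w p = 2 * φ v := by
    intro v hv
    have h1 : ∑ p, v p * a (c p) = - ∑ p, v p * a p := by
      rw [← Finset.sum_neg_distrib]
      refine Fintype.sum_equiv c _ _ fun p => ?_
      rw [hv p]; ring
    have h2 : ∑ p, v p * w p = ∑ p, v p * a p - ∑ p, v p * a (c p) := by
      rw [← Finset.sum_sub_distrib]
      exact Finset.sum_congr rfl fun p _ => by show v p * (a p - a (c p)) = _; ring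
    rw [h2, h1, ha v]; ring
  have hwM : ∀ v ∈ Mo c R, ∑ p, v p * w p = 0 := by
    intro v hv
    rw [hw v hv.1]
    have : φ v ∈ (Mo c R).map φ := ⟨v, hv, rfl⟩
    rw [hφM, Submodule.mem_bot] at this
    rw [this, mul_zero]
  have hw0 : w ≠ 0 := by
    intro h0
    have h1 := hw x hxV
    rw [h0] at h1
    simp only [Pi.zero_apply, mul_zero, Finset.sum_const_zero] at h1
    exact hφx (by linarith)
  -- `M` is the orthogonal complement
  let K : Submodule ℚ (C → ℚ) :=
    { carrier := {v | v ∈ Vo c ∧ ∑ p, v p * w p = 0}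
      zero_mem' := ⟨(Vo c).zero_mem, by simp⟩
      add_mem' := by
        rintro u v ⟨hu, h1⟩ ⟨hv, h2⟩
        refine ⟨(Vo c).add_mem hu hv, ?_⟩
        have : ∑ p, (u + v) p * w p = ∑ p, u p * w p + ∑ p, v p * w p := by
          rw [← Finset.sum_add_distrib]
          exact Finset.sum_congr rfl fun p _ => by rw [Pi.add_apply]; ring
        rw [this, h1, h2, add_zero]
      smul_mem' := by
        rintro r v ⟨hv, h2⟩
        refine ⟨(Vo c).smul_mem r hv, ?_⟩
        have : ∑ p, (r • v) p * w p = r * ∑ p, v p * w p := by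
          rw [Finset.mul_sum]
          exact Finset.sum_congr rfl fun p _ => by rw [Pi.smul_apply, smul_eq_mul]; ring
        rw [this, h2, mul_zero] }
  have hMK : Mo c R ≤ K := fun v hv => ⟨hv.1, hwM v hv⟩
  have hKV : K < Vo c := by
    refine lt_of_le_of_ne (fun v hv => hv.1) fun h0 => ?_
    have : x ∈ K := h0 ▸ hxV
    have h1 := hw x hxV
    rw [this.2] at h1
    exact hφx (by linarith)
  have hKM : K = Mo c R := by
    refine (Submodule.eq_of_le_of_finrank_le hMK ?_).symm
    have := Submodule.finrank_lt_finrank_of_lt hKV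
    omega
  have hmem : ∀ v ∈ Vo c, ∑ p, v p * w p = 0 → v ∈ Mo c R := fun v hv h0 => hKM ▸ ⟨hv, h0⟩
  have hdl : ∀ p, ∑ r, dl c p r * w r = 2 * w p := by
    intro p
    unfold dl
    have : ∀ r, ((if r = p then (1 : ℚ) else 0) - (if r = c p then 1 else 0)) * w r =
        (if r = p then w r else 0) - (if r = c p then w r else 0) := by
      intro r
      split_ifs <;> ring
    rw [Finset.sum_congr rfl fun r _ => this r, Finset.sum_sub_distrib, Finset.sum_ite_eq' Finset.univ p,
      Finset.sum_ite_eq' Finset.univ (c p)]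
    simp only [Finset.mem_univ, if_true]
    rw [hwV p]; ring
  by_cases hz : ∃ q, w q = 0
  · obtain ⟨q, hq⟩ := hz
    exact trit_of_dl D (hmem _ (dl_mem D q) (by rw [hdl, hq, mul_zero]))
  push Not at hz
  by_cases he : ∃ p q, p ≠ q ∧ w q = w p
  · obtain ⟨p, q, hpq, he⟩ := he
    refine trit_of_dl_sub D hpq (hmem _ ((Vo c).sub_mem (dl_mem D q) (dl_mem D p)) ?_)
    have : ∑ r, (dl c q - dl c p) r * w r = ∑ r, dl c q r * w r - ∑ r, dl c p r * w r := by
      rw [← Finset.sum_sub_distrib]
      exact Finset.sum_congr rfl fun r _ => by rw [Pi.sub_apply]; ring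
    rw [this, hdl, hdl, he, sub_self]
  push Not at he
  -- the group is `{1, c}`
  obtain ⟨f, hf, hf0⟩ := hne
  refine trit_of_eig htr hf hf0 fun g hg => ?_
  -- `w ∘ g = l w`
  have hgw : ∀ v ∈ Mo c R, ∑ p, v p * w (g p) = 0 := by
    intro v hv
    have h1 := hwM _ (Mo_stable D hst (G.inv_mem hg) hv)
    rw [← h1]
    refine Fintype.sum_equiv g _ _ fun p => ?_
    show v p * w (g p) = v (g.symm (g p)) * w (g p)
    rw [Equiv.symm_apply_apply]
  have hww : ∑ p, w p * w p ≠ 0 := by
    intro h5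
    apply hw0
    funext p
    have := (Finset.sum_eq_zero_iff_of_nonneg (fun i _ => mul_self_nonneg (w i))).1 h5 p (Finset.mem_univ p)
    exact mul_self_eq_zero.1 this
  let l : ℚ := (∑ p, w (g p) * w p) / ∑ p, w p * w p
  have hl0 : (fun p => w (g p) - l * w p) ∈ Mo c R := by
    refine hmem _ ?_ ?_
    · have h1 := (Vo c).sub_mem (Vo_stable D hg hwV) ((Vo c).smul_mem l hwV)
      exact h1
    · have : ∑ p, (w (g p) - l * w p) * w p = ∑ p, w (g p) * w p - l * ∑ p, w p * w p := by
        rw [Finset.mul_sum, ← Finset.sum_sub_distrib]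
        exact Finset.sum_congr rfl fun r _ => by ring
      rw [this, div_mul_cancel₀ _ hww, sub_self]
  have hl : ∀ p, w (g p) = l * w p := by
    have h1 := hgw _ hl0
    have h2 := hwM _ hl0
    have h3 : ∑ p, (w (g p) - l * w p) ^ 2 = 0 := by
      have : ∑ p, (w (g p) - l * w p) ^ 2 = ∑ p, (w (g p) - l * w p) * w (g p) -
          l * ∑ p, (w (g p) - l * w p) * w p := by
        rw [Finset.mul_sum, ← Finset.sum_sub_distrib]
        exact Finset.sum_congr rfl fun r _ => by ring
      rw [this, h1, h2, mul_zero, sub_zero]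
    intro p
    have := (Finset.sum_eq_zero_iff_of_nonneg (fun i _ => sq_nonneg (w (g i) - l * w i))).1 h3 p
      (Finset.mem_univ p)
    have h4 := pow_eq_zero_iff two_ne_zero |>.1 this
    linarith
  rcases sq_eig hw0 hl with h1 | h1
  · left
    intro p
    have h2 : g p = p := by
      by_contra h3
      refine he p (g p) (Ne.symm h3) ?_
      rw [hl p, h1, one_mul]
    rw [h2]
  · right
    intro p
    have h2 : g p = c p := by
      by_contra h3
      refine he (c p) (g p) (Ne.symm h3) ?_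
      rw [hl p, h1, hwV p]; ring
    rw [h2, hodd f hf p]

/-- the dimension of the space of odd functions -/
theorem finrank_Vo (D : Dat G c h) : 2 * Module.finrank ℚ (Vo c) = Fintype.card C := by
  -- even functions
  let Ve : Submodule ℚ (C → ℚ) :=
    { carrier := {v | ∀ p, v (c p) = v p}
      zero_mem' := fun p => rfl
      add_mem' := by
        intro a b ha hb p
        show a (c p) + b (c p) = a p + b p
        rw [ha p, hb p]
      smul_mem' := by
        intro r a ha p
        show r * a (c p) = r * a p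
        rw [ha p] }
  have hq : ∀ p, (h p : ℚ) * h p = 1 := by
    intro p
    rcases D.hh p with h2 | h2 <;> rw [h2] <;> norm_num
  have hqc : ∀ p, (h (c p) : ℚ) = - h p := by
    intro p
    rw [D.hc p]; push_cast; rfl
  let e : Vo c ≃ₗ[ℚ] Ve :=
    { toFun := fun v => ⟨fun p => h p * v.1 p, fun p => by
        show (h (c p) : ℚ) * v.1 (c p) = h p * v.1 p
        rw [hqc, v.2 p]; ring⟩
      invFun := fun v => ⟨fun p => h p * v.1 p, fun p => by
        show (h (c p) : ℚ) * v.1 (c p) = -(h p * v.1 p)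
        rw [hqc, v.2 p]; ring⟩
      left_inv := fun v => by
        apply Subtype.ext
        funext p
        show (h p : ℚ) * (h p * v.1 p) = v.1 p
        rw [← mul_assoc, hq, one_mul]
      right_inv := fun v => by
        apply Subtype.ext
        funext p
        show (h p : ℚ) * (h p * v.1 p) = v.1 p
        rw [← mul_assoc, hq, one_mul]
      map_add' := fun u v => by
        apply Subtype.ext
        funext p
        show (h p : ℚ) * (u.1 p + v.1 p) = h p * u.1 p + h p * v.1 p
        ring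
      map_smul' := fun r v => by
        apply Subtype.ext
        funext p
        show (h p : ℚ) * (r * v.1 p) = r * (h p * v.1 p)
        ring }
  have h1 : Module.finrank ℚ (Vo c) = Module.finrank ℚ Ve := e.finrank_eq
  have h2 : Vo c ⊔ Ve = ⊤ := by
    rw [eq_top_iff]
    intro v _
    rw [Submodule.mem_sup]
    refine ⟨fun p => (v p - v (c p)) / 2, fun p => ?_, fun p => (v p + v (c p)) / 2, fun p => ?_, ?_⟩
    · show (v (c p) - v (c (c p))) / 2 = -((v p - v (c p)) / 2)
      rw [D.cc]; ring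
    · show (v (c p) + v (c (c p))) / 2 = (v p + v (c p)) / 2
      rw [D.cc]; ring
    · funext p
      show (v p - v (c p)) / 2 + (v p + v (c p)) / 2 = v p
      ring
  have h3 : Vo c ⊓ Ve = ⊥ := by
    rw [eq_bot_iff]
    rintro v ⟨hv1, hv2⟩
    rw [Submodule.mem_bot]
    funext p
    have h4 := hv1 p
    have h5 := hv2 p
    show v p = 0
    linarith
  have h4 := Submodule.finrank_sup_add_finrank_inf_eq (Vo c) Ve
  rw [h2, h3, finrank_bot, finrank_top, Module.finrank_fintype_fun_eq_card, ← h1] at h4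
  omega

/-- groups of characters of dimension at most three -/
theorem trit_small (D : Dat G c h) (hst : ∀ g ∈ G, ∀ n ∈ R, (fun p => n (g p)) ∈ R)
    (hodd : ∀ n ∈ R, ∀ p, n (c p) = - n p) (htr : ∀ p q : C, ∃ g ∈ G, g p = q)
    (hne : ∃ f ∈ R, f ≠ 0) (hC : Fintype.card C ≤ 6) : HasTrit R := by
  have h1 := finrank_Vo D
  have h2 := Submodule.finrank_mono (Mo_le c R)
  have h3 : Module.finrank ℚ (Mo c R) ≤ 1 ∨ Module.finrank ℚ (Mo c R) + 1 = Module.finrank ℚ (Vo c) ∨
      Module.finrank ℚ (Mo c R) = Module.finrank ℚ (Vo c) := by omega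
  rcases h3 with h3 | h3 | h3
  · exact trit_one D hst hodd htr hne h3
  · exact trit_codim D hst hodd htr hne h3
  · exact trit_top D hne (Submodule.eq_of_le_of_finrank_le (Mo_le c R) h3.ge).ge

/-! ### the prime case -/

theorem exists_order (l : ℕ) (hl : l.Prime) (hC : Fintype.card C = 2 * l)
    (htr : ∀ p q : C, ∃ g ∈ G, g p = q) : ∃ t ∈ G, orderOf t = l := by
  classical
  have hne : Nonempty C := by
    rw [← Fintype.card_pos_iff, hC]
    have := hl.pos
    omega
  obtain ⟨p⟩ := hne
  have h1 := MulAction.card_orbit_mul_card_stabilizer_eq_card_group G p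
  have h2 : MulAction.orbit G p = Set.univ := by
    rw [Set.eq_univ_iff_forall]
    intro q
    obtain ⟨g, hg, hq⟩ := htr p q
    exact ⟨⟨g, hg⟩, hq⟩
  have h3 : Fintype.card (MulAction.orbit G p) = 2 * l := by
    rw [← hC]
    exact Fintype.card_congr ((Equiv.setCongr h2).trans (Equiv.Set.univ C))
  have h4 : l ∣ Fintype.card G := by
    rw [← h1, h3]
    exact ⟨2 * Fintype.card (MulAction.stabilizer G p), by ring⟩
  have : Fact l.Prime := ⟨hl⟩
  obtain ⟨t, ht⟩ := exists_prime_orderOf_dvd_card l h4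
  refine ⟨t.1, t.2, ?_⟩
  rw [← ht]
  exact Subgroup.orderOf_coe t

theorem c_pow (D : Dat G c h) {t : Equiv.Perm C} (ht : t ∈ G) (i : ℕ) (p : C) :
    c ((t ^ i) p) = (t ^ i) (c p) := D.comm _ (G.pow_mem ht i) p

/-- All components are of the form `t ^ i p` or `c t ^ i p`. -/
theorem cover (D : Dat G c h) (l : ℕ) (hl : l.Prime) (hl2 : l ≠ 2) (hC : Fintype.card C = 2 * l)
    {t : Equiv.Perm C} (ht : t ∈ G) (hord : orderOf t = l) :
    ∃ p : C, ∀ q, ∃ i : ℕ, q = (t ^ i) p ∨ q = c ((t ^ i) p) := by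
  classical
  have ht1 : t ≠ 1 := by
    rintro rfl
    rw [orderOf_one] at hord
    exact hl.one_lt.ne hord
  obtain ⟨p, hp⟩ : ∃ p, t p ≠ p := by
    by_contra hcon
    push Not at hcon
    exact ht1 (Equiv.ext hcon)
  have htl : t ^ l = 1 := by rw [← hord]; exact pow_orderOf_eq_one t
  -- the stabilizer of `p` in the cyclic group
  have hstab : ∀ i : ℕ, (t ^ i) p = p → l ∣ i := by
    intro i hi
    by_contra hnd
    have hco : Nat.Coprime i l := (Nat.coprime_comm.1 ((Nat.Prime.coprime_iff_not_dvd hl).2 hnd))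
    -- t = (t^i)^j
    obtain ⟨j, _, hj⟩ := Nat.exists_mul_mod_eq_one_of_coprime hco hl.one_lt
    have h1 : (t ^ i) ^ j = t := by
      rw [← pow_mul, ← Nat.div_add_mod (i * j) l, pow_add, pow_mul, htl, one_pow, one_mul, hj, pow_one]
    have h2 : ∀ k : ℕ, ((t ^ i) ^ k) p = p := by
      intro k
      induction k with
      | zero => rfl
      | succ k ih => rw [pow_succ, Equiv.Perm.mul_apply, hi, ih]
    exact hp (by have := h2 j; rwa [h1] at this)
  have hinj : ∀ i j : ℕ, i < l → j < l → (t ^ i) p = (t ^ j) p → i = j := by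
    have key : ∀ i j : ℕ, i ≤ j → j < l → (t ^ i) p = (t ^ j) p → i = j := by
      intro i j hij hj he
      have h1 : (t ^ (j - i)) p = p := by
        have h2 : t ^ j = t ^ i * t ^ (j - i) := by rw [← pow_add]; congr 1; omega
        rw [h2, Equiv.Perm.mul_apply] at he
        exact ((t ^ i).injective he).symm
      have h3 := hstab _ h1
      have h4 : j - i = 0 := Nat.eq_zero_of_dvd_of_lt h3 (by omega)
      omega
    intro i j hi hj he
    rcases le_total i j with h1 | h1
    · exact key i j h1 hj he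
    · exact (key j i h1 hi he.symm).symm
  have hdisj : ∀ i j : ℕ, (t ^ i) p ≠ c ((t ^ j) p) := by
    intro i j he
    -- t^i p = t^j c p, so c p = t^k p
    have h0 : ∃ k : ℕ, (t ^ k) p = c p := by
      -- choose m with t^(m + j) = 1
      refine ⟨(l - 1) * j + i, ?_⟩
      have h1 : t ^ ((l - 1) * j + i) = t ^ ((l - 1) * j) * t ^ i := pow_add _ _ _
      rw [h1, Equiv.Perm.mul_apply, he, c_pow D ht, ← Equiv.Perm.mul_apply, ← pow_add]
      have h2 : (l - 1) * j + j = l * j := by
        obtain ⟨l', rfl⟩ : ∃ l', l = l' + 1 := ⟨l - 1, by have := hl.pos; omega⟩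
        rw [Nat.add_sub_cancel]; ring
      rw [h2, pow_mul, htl, one_pow]
      rfl
    obtain ⟨k, hk⟩ := h0
    have h1 : (t ^ (k + k)) p = p := by
      rw [pow_add, Equiv.Perm.mul_apply, hk, ← c_pow D ht, hk, D.cc]
    have h2 := hstab _ h1
    have h3 : l ∣ k := by
      have h4 : l ∣ 2 * k := by rwa [two_mul]
      rcases (Nat.Prime.dvd_mul hl).1 h4 with h5 | h5
      · exact absurd ((Nat.prime_dvd_prime_iff_eq hl Nat.prime_two).1 h5) hl2
      · exact h5
    obtain ⟨m, rfl⟩ := h3
    rw [pow_mul, htl, one_pow] at hk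
    exact c_ne D p hk.symm
  refine ⟨p, ?_⟩
  -- counting
  let F : Fin l × Bool → C := fun x => if x.2 then (t ^ (x.1 : ℕ)) p else c ((t ^ (x.1 : ℕ)) p)
  have hF : Function.Injective F := by
    rintro ⟨i, a⟩ ⟨j, b⟩ he
    cases a <;> cases b
    · have h1 : c ((t ^ (i : ℕ)) p) = c ((t ^ (j : ℕ)) p) := he
      have h2 := hinj _ _ i.2 j.2 (c.injective h1)
      rw [Fin.ext h2]
    · exact absurd (show c ((t ^ (i : ℕ)) p) = (t ^ (j : ℕ)) p from he).symm (hdisj _ _)
    · exact absurd (show (t ^ (i : ℕ)) p = c ((t ^ (j : ℕ)) p) from he) (hdisj _ _)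
    · have h1 : (t ^ (i : ℕ)) p = (t ^ (j : ℕ)) p := he
      rw [Fin.ext (hinj _ _ i.2 j.2 h1)]
  have hcard : Fintype.card (Fin l × Bool) = Fintype.card C := by
    rw [Fintype.card_prod, Fintype.card_fin, Fintype.card_bool, hC]; ring
  have hbij := (Fintype.bijective_iff_injective_and_card F).2 ⟨hF, hcard⟩
  intro q
  obtain ⟨⟨i, a⟩, rfl⟩ := hbij.2 q
  refine ⟨i, ?_⟩
  cases a
  · right; rfl
  · left; rfl

/-- the operator `v ↦ v ∘ t` -/
def Top (t : Equiv.Perm C) : (C → ℚ) →ₗ[ℚ] (C → ℚ) := LinearMap.funLeft ℚ ℚ t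

theorem Top_pow (t : Equiv.Perm C) (i : ℕ) (v : C → ℚ) (p : C) : ((Top t) ^ i) v p = v ((t ^ i) p) := by
  induction i generalizing v p with
  | zero => rfl
  | succ i ih =>
    rw [pow_succ', Module.End.mul_apply]
    show ((Top t) ^ i) v (t p) = _
    rw [ih, pow_succ, Equiv.Perm.mul_apply]

/-- a nonzero vector killed by the norm generates a space of dimension at least `l - 1` -/
theorem finrank_ge {l : ℕ} (hl : l.Prime) {t : Equiv.Perm C} {M : Submodule ℚ (C → ℚ)}
    (hM : ∀ v ∈ M, Top t v ∈ M) {v : C → ℚ} (hv : v ∈ M) (hv0 : v ≠ 0)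
    (hN : (Polynomial.aeval (Top t) (Polynomial.cyclotomic l ℚ)) v = 0) :
    l - 1 ≤ Module.finrank ℚ M := by
  have hst : ∀ P : Polynomial ℚ, (Polynomial.aeval (Top t) P) v ∈ M := by
    intro P
    induction P using Polynomial.induction_on' with
    | add P Q h1 h2 => rw [map_add, LinearMap.add_apply]; exact M.add_mem h1 h2
    | monomial i a =>
      rw [Polynomial.aeval_monomial, Module.End.mul_apply]
      have h1 : ∀ i : ℕ, ((Top t) ^ i) v ∈ M := by
        intro i
        induction i with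
        | zero => exact hv
        | succ i ih => rw [pow_succ', Module.End.mul_apply]; exact hM _ ih
      exact M.smul_mem a (h1 i)
  let φ : Polynomial.degreeLT ℚ (l - 1) →ₗ[ℚ] M :=
    { toFun := fun P => ⟨(Polynomial.aeval (Top t) P.1) v, hst P.1⟩
      map_add' := fun P Q => by
        apply Subtype.ext
        show (Polynomial.aeval (Top t) (P.1 + Q.1)) v = _
        rw [map_add, LinearMap.add_apply]; rfl
      map_smul' := fun r P => by
        apply Subtype.ext
        show (Polynomial.aeval (Top t) (r • P.1)) v = r • _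
        rw [map_smul, LinearMap.smul_apply] }
  have hφ : Function.Injective φ := by
    rw [injective_iff_map_eq_zero]
    intro P hP
    by_contra hP0
    have hP0' : P.1 ≠ 0 := fun h => hP0 (Subtype.ext h)
    have hdeg : P.1.natDegree < l - 1 := by
      rw [Polynomial.natDegree_lt_iff_degree_lt hP0']
      exact Polynomial.mem_degreeLT.1 P.2
    have hirr := Polynomial.cyclotomic.irreducible_rat hl.pos
    have hnd : ¬ Polynomial.cyclotomic l ℚ ∣ P.1 := by
      intro hd
      have := Polynomial.natDegree_le_of_dvd hd hP0'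
      rw [Polynomial.natDegree_cyclotomic, Nat.totient_prime hl] at this
      omega
    obtain ⟨a, b, hab⟩ := (hirr.coprime_iff_not_dvd).2 hnd
    apply hv0
    have h1 : (Polynomial.aeval (Top t) (a * Polynomial.cyclotomic l ℚ + b * P.1)) v = v := by
      rw [hab, map_one]; rfl
    rw [← h1, map_add, map_mul, map_mul, LinearMap.add_apply, Module.End.mul_apply, Module.End.mul_apply,
      hN, map_zero, zero_add]
    have h2 : (Polynomial.aeval (Top t) P.1) v = 0 := congrArg Subtype.val hP
    rw [h2, map_zero]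
  have h1 := LinearMap.finrank_le_finrank_of_injective hφ
  have h2 : Module.finrank ℚ (Polynomial.degreeLT ℚ (l - 1)) = l - 1 := by
    rw [(Polynomial.degreeLTEquiv ℚ (l - 1)).finrank_eq, Module.finrank_fin_fun]
  rwa [h2] at h1

theorem trit_prime (D : Dat G c h) (hst : ∀ g ∈ G, ∀ n ∈ R, (fun p => n (g p)) ∈ R)
    (hodd : ∀ n ∈ R, ∀ p, n (c p) = - n p) (hR : ∃ f ∈ R, f ≠ 0)
    (l : ℕ) (hl : l.Prime) (hC : Fintype.card C = 2 * l)
    (htr : ∀ p q : C, ∃ g ∈ G, g p = q) : HasTrit R := by
  by_cases hl2 : l = 2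
  · exact trit_small D hst hodd htr hR (by rw [hC, hl2]; norm_num)
  obtain ⟨t, ht, hord⟩ := exists_order l hl hC htr
  obtain ⟨p0, hp0⟩ := cover D l hl hl2 hC ht hord
  have htl : t ^ l = 1 := by rw [← hord]; exact pow_orderOf_eq_one t
  have hMs : ∀ v ∈ Mo c R, Top t v ∈ Mo c R := fun v hv => Mo_stable D hst ht hv
  by_cases hinv : ∀ v ∈ Mo c R, Top t v = v
  · -- at most one dimension
    refine trit_one D hst hodd htr hR ?_
    let φ : Mo c R →ₗ[ℚ] ℚ :=
      { toFun := fun v => v.1 p0
        map_add' := fun u v => rfl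
        map_smul' := fun r v => rfl }
    have hφ : Function.Injective φ := by
      rw [injective_iff_map_eq_zero]
      rintro ⟨v, hv⟩ h0
      apply Subtype.ext
      funext q
      have h1 : ∀ i : ℕ, v ((t ^ i) p0) = 0 := by
        intro i
        have h2 : ∀ i : ℕ, ((Top t) ^ i) v = v := by
          intro i
          induction i with
          | zero => rfl
          | succ i ih => rw [pow_succ, Module.End.mul_apply, hinv v hv, ih]
        have h3 := Top_pow t i v p0
        rw [h2 i] at h3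
        rw [← h3]
        exact h0
      obtain ⟨i, h2 | h2⟩ := hp0 q
      · show v q = 0
        rw [h2, h1]
      · show v q = 0
        rw [h2, hv.1, h1, neg_zero]
    have := LinearMap.finrank_le_finrank_of_injective hφ
    rwa [Module.finrank_self] at this
  · push Not at hinv
    obtain ⟨u, hu, hne⟩ := hinv
    have h1 : Top t u - u ∈ Mo c R := (Mo c R).sub_mem (hMs u hu) hu
    have h2 : Top t u - u ≠ 0 := sub_ne_zero.2 hne
    have h3 : (Polynomial.aeval (Top t) (Polynomial.cyclotomic l ℚ)) (Top t u - u) = 0 := by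
      have h4 : Top t u - u = (Polynomial.aeval (Top t) (Polynomial.X - 1 : Polynomial ℚ)) u := by
        rw [map_sub, Polynomial.aeval_X, map_one]; rfl
      have : Fact l.Prime := ⟨hl⟩
      rw [h4, ← Module.End.mul_apply, ← map_mul, Polynomial.cyclotomic_prime_mul_X_sub_one, map_sub,
        map_pow, Polynomial.aeval_X, map_one, LinearMap.sub_apply]
      rw [sub_eq_zero]
      funext q
      rw [Top_pow, htl]
      rfl
    have h4 := finrank_ge hl hMs h1 h2 h3
    have h5 := finrank_Vo D
    have h6 := Submodule.finrank_mono (Mo_le c R)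
    have h7 : Module.finrank ℚ (Mo c R) + 1 = Module.finrank ℚ (Vo c) ∨
      Module.finrank ℚ (Mo c R) = Module.finrank ℚ (Vo c) := by
      have := hl.pos
      omega
    rcases h7 with h7 | h7
    · exact trit_codim D hst hodd htr hR h7
    · exact trit_top D hR (Submodule.eq_of_le_of_finrank_le (Mo_le c R) h7.ge).ge

end

end Pool.Agent.K3C.TA
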