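import Pool.Agent.K3C.C8t
import Pool.Agent.K3C.TritAbs

/-!
# C10: the condition on the CM field holds if its degree is two or twice a prime
-/

open scoped BigOperators
open Matrix Polynomial

namespace Pool.Agent.K3C

open Pool.Agent.DRB Pool.Agent.K3D Pool.Agent.K3E

noncomputable section

namespace C10X

variable {g n m : ℕ} {A : AbVar g} (K : KSC A n m)

/-- the complex embeddings of `E` -/
abbrev CC : Type := {z : ℂ // aeval z K.P = 0}

instance : Fintype (CC K) :=
  Fintype.ofEquiv {z : ℂ // z ∈ C8T.roots K}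
    { toFun := fun z => ⟨z.1, C8T.mem_roots.1 z.2⟩
      invFun := fun z => ⟨z.1, C8T.mem_roots.2 z.2⟩
      left_inv := fun _ => rfl
      right_inv := fun _ => rfl }

theorem card_CC : Fintype.card (CC K) = K.P.natDegree := by
  have h1 : Fintype.card (CC K) = (C8T.roots K).card := by
    rw [← Fintype.card_coe]
    exact Fintype.card_congr
      { toFun := fun z => ⟨z.1, C8T.mem_roots.2 z.2⟩
        invFun := fun z => ⟨z.1, C8T.mem_roots.1 z.2⟩
        left_inv := fun _ => rfl
        right_inv := fun _ => rfl }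
  rw [h1]
  unfold C8T.roots
  have hsep : K.P.Separable := K.irr.separable
  have hnd : (K.P.aroots ℂ).Nodup := Polynomial.nodup_aroots_iff_of_splits K.irr.ne_zero
    (IsAlgClosed.splits _) |>.2 hsep
  rw [Multiset.toFinset_card_of_nodup hnd]
  exact (Polynomial.splits_iff_card_roots.1 (IsAlgClosed.splits _)).trans
    (Polynomial.natDegree_map _)

/-- the action of the automorphisms of `ℂ` -/
def rho : (ℂ ≃ₐ[ℚ] ℂ) →* Equiv.Perm (CC K) where
  toFun σ :=
    { toFun := fun z => ⟨σ z.1, C8T.root_aut K σ z.2⟩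
      invFun := fun z => ⟨σ.symm z.1, C8T.root_aut K σ.symm z.2⟩
      left_inv := fun z => by
        apply Subtype.ext
        exact σ.symm_apply_apply z.1
      right_inv := fun z => by
        apply Subtype.ext
        exact σ.apply_symm_apply z.1 }
  map_one' := by
    ext z
    rfl
  map_mul' := by
    intro σ τ
    ext z
    rfl

theorem rho_apply (σ : ℂ ≃ₐ[ℚ] ℂ) (z : CC K) : (rho K σ z).1 = σ z.1 := rfl

/-- complex conjugation over the rational numbers -/
def cj : ℂ ≃ₐ[ℚ] ℂ := Complex.conjAe.restrictScalars ℚ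

theorem cj_apply (z : ℂ) : cj z = (starRingEnd ℂ) z := rfl

open Classical in
/-- a half system -/
def hf (z : CC K) : ℤ := if 0 < z.1.im then 1 else -1

theorem dat : TA.Dat (rho K).range (rho K cj) (hf K) where
  cG := ⟨cj, rfl⟩
  cc := by
    intro p
    apply Subtype.ext
    rw [rho_apply, rho_apply, cj_apply, cj_apply, Complex.conj_conj]
  comm := by
    rintro _ ⟨σ, rfl⟩ p
    apply Subtype.ext
    rw [rho_apply, rho_apply, rho_apply, rho_apply, cj_apply, cj_apply, C8T.conj_aut K σ p.2]
  hh := by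
    intro p
    unfold hf
    split_ifs
    · left; rfl
    · right; rfl
  hc := by
    intro p
    have h0 : p.1.im ≠ 0 := (K.cm p.1 p.2).1
    have h1 : (rho K cj p).1.im = - p.1.im := by
      rw [rho_apply, cj_apply, Complex.conj_im]
    unfold hf
    rw [h1]
    rcases lt_or_gt_of_ne h0 with h2 | h2
    · rw [if_pos (by linarith), if_neg (by linarith)]
      norm_num
    · rw [if_neg (by linarith), if_pos h2]

theorem trans (p q : CC K) : ∃ g ∈ (rho K).range, g p = q := by
  obtain ⟨σ, hσ⟩ := E5L.exists_aut K.irr p.2 q.2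
  exact ⟨rho K σ, ⟨σ, rfl⟩, Subtype.ext hσ⟩

open Classical in
/-- extension by zero -/
def ext (f : CC K → ℤ) (z : ℂ) : ℤ := if hz : aeval z K.P = 0 then f ⟨z, hz⟩ else 0

theorem ext_apply (f : CC K → ℤ) (z : CC K) : ext K f z.1 = f z := by
  unfold ext
  rw [dif_pos z.2]

theorem ext_not (f : CC K → ℤ) {z : ℂ} (hz : aeval z K.P ≠ 0) : ext K f z = 0 := by
  unfold ext
  rw [dif_neg hz]

/-- the group of restrictions -/
def res (R : AddSubgroup (ℂ → ℤ)) : AddSubgroup (CC K → ℤ) where
  carrier := {f | ext K f ∈ R}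
  zero_mem' := by
    have : ext K (0 : CC K → ℤ) = 0 := by
      funext z
      by_cases hz : aeval z K.P = 0
      · exact ext_apply K _ ⟨z, hz⟩
      · exact ext_not K _ hz
    show ext K 0 ∈ R
    rw [this]
    exact R.zero_mem
  add_mem' := by
    intro a b ha hb
    have : ext K (a + b) = ext K a + ext K b := by
      funext z
      rw [Pi.add_apply]
      by_cases hz : aeval z K.P = 0
      · rw [ext_apply K _ ⟨z, hz⟩, ext_apply K _ ⟨z, hz⟩, ext_apply K _ ⟨z, hz⟩]
        rfl
      · rw [ext_not K _ hz, ext_not K _ hz, ext_not K _ hz, add_zero]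
    show ext K (a + b) ∈ R
    rw [this]
    exact R.add_mem ha hb
  neg_mem' := by
    intro a ha
    have : ext K (-a) = - ext K a := by
      funext z
      rw [Pi.neg_apply]
      by_cases hz : aeval z K.P = 0
      · rw [ext_apply K _ ⟨z, hz⟩, ext_apply K _ ⟨z, hz⟩]
        rfl
      · rw [ext_not K _ hz, ext_not K _ hz, neg_zero]
    show ext K (-a) ∈ R
    rw [this]
    exact R.neg_mem ha

end C10X

open C10X in
/-- The condition `Trit` holds if the degree of the CM field is `2`, or twice a prime. -/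
theorem trit_of_deg {g n m : ℕ} {A : AbVar g} (K : KSC A n m)
    (hd : K.P.natDegree = 2 ∨ ∃ l : ℕ, l.Prime ∧ K.P.natDegree = 2 * l) : K.Trit := by
  classical
  intro R hsupp hodd hst hR
  obtain ⟨f0, hf0, hne⟩ := R.bot_or_exists_ne_zero.resolve_left hR
  have hext : ∀ f ∈ R, ext K (fun z : CC K => f z.1) = f := by
    intro f hf
    funext z
    by_cases hz : aeval z K.P = 0
    · exact ext_apply K _ ⟨z, hz⟩
    · rw [ext_not K _ hz, hsupp f hf z hz]
  have h1 : ∀ g ∈ (rho K).range, ∀ f ∈ res K R, (fun p => f (g p)) ∈ res K R := by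
    rintro _ ⟨σ, rfl⟩ f hf
    have h2 := hst σ _ hf
    have h3 : ext K (fun p => f (rho K σ p)) = fun z => ext K f (σ z) := by
      funext z
      by_cases hz : aeval z K.P = 0
      · rw [ext_apply K _ ⟨z, hz⟩]
        exact (ext_apply K f ⟨σ z, C8T.root_aut K σ hz⟩).symm
      · rw [ext_not K _ hz, ext_not K _ (C8T.root_symm K σ hz)]
    show ext K _ ∈ R
    rw [h3]
    exact h2
  have h2 : ∀ f ∈ res K R, ∀ p, f (rho K cj p) = - f p := by
    intro f hf p
    have h3 := hodd _ hf p.1
    rw [ext_apply] at h3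
    have h4 := ext_apply K f (rho K cj p)
    rw [rho_apply, cj_apply, h3] at h4
    exact h4.symm
  have h3 : ∃ f ∈ res K R, f ≠ 0 := by
    refine ⟨fun z : CC K => f0 z.1, ?_, ?_⟩
    · show ext K _ ∈ R
      rw [hext f0 hf0]
      exact hf0
    · intro h0
      apply hne
      rw [← hext f0 hf0, h0]
      funext z
      by_cases hz : aeval z K.P = 0
      · exact ext_apply K _ ⟨z, hz⟩
      · exact ext_not K _ hz
  have h4 : TA.HasTrit (res K R) := by
    rcases hd with hd | ⟨l, hl, hd⟩
    · exact TA.trit_small (dat K) h1 h2 (trans K) h3 (by rw [card_CC, hd]; norm_num)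
    · exact TA.trit_prime (dat K) h1 h2 h3 l hl (by rw [card_CC, hd]) (trans K)
  obtain ⟨f, hf, hf1, k, hk⟩ := h4
  refine ⟨ext K f, hf, ?_, k, fun z => ?_⟩
  · intro h0
    apply hf1
    funext z
    rw [← ext_apply K f z, h0]
    rfl
  · by_cases hz : aeval z K.P = 0
    · rw [ext_apply K f ⟨z, hz⟩]
      exact hk _
    · left
      exact ext_not K f hz

end

end Pool.Agent.K3C
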