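import Pool.Agent.K3C.C5x

/-!
# Commutant of the endomorphisms (tools for E5V, E5B)
-/

open scoped BigOperators
open Matrix

namespace Pool.Agent.K3C

open Pool.Agent.DRB Pool.Agent.K3D Pool.Agent.K3E

namespace C5X

section

variable {g n m : ℕ} {A : AbVar g} (K : KSC A n m)

/-- A rational matrix over the complex numbers. -/
noncomputable def cx (a : Matrix (Fin n) (Fin n) ℚ) : Matrix (Fin n) (Fin n) ℂ := a.map (Rat.castHom ℂ)

theorem cx_apply (a : Matrix (Fin n) (Fin n) ℚ) (i j : Fin n) : cx a i j = (a i j : ℂ) := rfl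

theorem cx_mul (a b : Matrix (Fin n) (Fin n) ℚ) : cx (a * b) = cx a * cx b := by
  unfold cx
  rw [Matrix.map_mul]

theorem cx_add (a b : Matrix (Fin n) (Fin n) ℚ) : cx (a + b) = cx a + cx b := by
  ext i j
  simp [cx_apply]

theorem cx_transpose (a : Matrix (Fin n) (Fin n) ℚ) : cx aᵀ = (cx a)ᵀ := rfl

theorem cx_diagonal (d : Fin n → ℚ) : cx (Matrix.diagonal d) = Matrix.diagonal (fun i => (d i : ℂ)) := by
  ext i j
  rw [cx_apply]
  by_cases h : i = j
  · subst h
    simp
  · simp [Matrix.diagonal_apply_ne _ h]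

theorem cx_zero : cx (0 : Matrix (Fin n) (Fin n) ℚ) = 0 := by
  ext i j
  simp [cx_apply]

theorem cx_inj {a b : Matrix (Fin n) (Fin n) ℚ} (h : cx a = cx b) : a = b := by
  ext i j
  have := congrFun (congrFun h i) j
  rw [cx_apply, cx_apply] at this
  exact_mod_cast this

theorem thC_eq : K.thC = cx K.th := rfl

theorem cx_mem_S (a : Matrix (Fin n) (Fin n) ℚ) : cx a ∈ K.S ↔
    (aᵀ * Matrix.diagonal K.q + Matrix.diagonal K.q * a = 0 ∧ a * K.th = K.th * a) := by
  have e1 : (cx a)ᵀ * Matrix.diagonal (fun i => (K.q i : ℂ)) +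
      Matrix.diagonal (fun i => (K.q i : ℂ)) * cx a =
      cx (aᵀ * Matrix.diagonal K.q + Matrix.diagonal K.q * a) := by
    rw [cx_add, cx_mul, cx_mul, cx_diagonal, cx_transpose]
  constructor
  · rintro ⟨h1, h2⟩
    refine ⟨?_, ?_⟩
    · apply cx_inj
      rw [← e1, cx_zero]
      exact h1
    · apply cx_inj
      rw [cx_mul, cx_mul, ← thC_eq]
      exact h2
  · rintro ⟨h1, h2⟩
    refine ⟨?_, ?_⟩
    · rw [e1, h1, cx_zero]
    · rw [thC_eq, ← cx_mul, h2, cx_mul]

theorem toC_zop (a : Matrix (Fin n) (Fin n) ℚ) : AbVar.toC (zop K.t K.q a) = K.Z (cx a) := by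
  unfold zop KSC.Z
  rw [toC_sum]
  refine Finset.sum_congr rfl fun i _ => ?_
  rw [toC_smul, AbVar.toC_mul, toC_sum, cl_single]
  have e1 : K.cl (cx a *ᵥ Pi.single i 1) = ∑ j, AbVar.toC (a j i • K.t j) := by
    rw [cl_eq]
    refine Finset.sum_congr rfl fun j _ => ?_
    rw [toC_smul, Matrix.mulVec_single_one]
    rfl
  rw [e1]
  congr 1
  push_cast
  ring

/-- The matrix of a vector. -/
def mt {ι : Type} (v : ι × ι → ℂ) : Matrix ι ι ℂ := Matrix.of fun i j => v (i, j)

/-- A matrix commuting with the endomorphisms belongs to the algebra generated by the `Z a`. -/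
theorem comm_mem (hq : DRB.Stmt_DescQ) (Y : Matrix (Idx g) (Idx g) ℂ)
    (hY : ∀ α, A.IsEnd α → Y * AbVar.toC α = AbVar.toC α * Y) :
    Y ∈ Algebra.adjoin ℂ {Z | ∃ a ∈ K.S, Z = K.Z a} := by
  let D : Submodule ℂ (Idx g × Idx g → ℂ) :=
    { carrier := {v | ∀ α, A.IsEnd α → mt v * AbVar.toC α = AbVar.toC α * mt v}
      add_mem' := by
        intro a b ha hb α hα
        have e : mt (a + b) = mt a + mt b := rfl
        rw [e, Matrix.add_mul, Matrix.mul_add, ha α hα, hb α hα]
      zero_mem' := by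
        intro α hα
        have e : mt (0 : Idx g × Idx g → ℂ) = 0 := rfl
        rw [e, Matrix.zero_mul, Matrix.mul_zero]
      smul_mem' := by
        intro c a ha α hα
        have e : mt (c • a) = c • mt a := rfl
        rw [e, Matrix.smul_mul, Matrix.mul_smul, ha α hα] }
  have hD : ∀ v, v ∈ D ↔ ∀ α, A.IsEnd α → mt v * AbVar.toC α = AbVar.toC α * mt v := fun v => Iff.rfl
  have hrat : RatSpan D := by
    apply hq (Idx g × Idx g) D
    intro σ v hv
    rw [hD] at hv ⊢
    intro α hα
    have e1 : mt (fun k => σ (v k)) = (mt v).map σ := rfl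
    have e2 : (AbVar.toC α).map σ = AbVar.toC α := by
      ext i j
      simp only [AbVar.toC, Matrix.map_apply]
      exact σ.commutes _
    have e3 := congrArg (fun Z : Matrix (Idx g) (Idx g) ℂ => Z.map σ) (hv α hα)
    simp only [Matrix.map_mul, e2] at e3
    rw [e1]
    exact e3
  have hv0 : (fun k : Idx g × Idx g => Y k.1 k.2) ∈ D := by
    rw [hD]
    intro α hα
    exact hY α hα
  have h1 := hrat hv0
  have key : ∀ v ∈ Submodule.span ℂ {v | v ∈ D ∧ ∀ k, ∃ q : ℚ, v k = q},
      mt v ∈ Algebra.adjoin ℂ {Z | ∃ a ∈ K.S, Z = K.Z a} := by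
    intro v hv
    induction hv using Submodule.span_induction with
    | mem x hx =>
      obtain ⟨hx1, hx2⟩ := hx
      choose f hf using hx2
      have e1 : mt x = AbVar.toC (Matrix.of fun i j => f (i, j)) := by
        ext i j
        simp [mt, AbVar.toC, hf]
      rw [e1]
      have h2 := (K.comm (Matrix.of fun i j => f (i, j))).1 fun α hα => by
        apply toC_inj'
        rw [AbVar.toC_mul, AbVar.toC_mul, ← e1]
        exact hx1 α hα
      generalize (Matrix.of fun i j => f (i, j)) = X at h2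
      induction h2 using Algebra.adjoin_induction with
      | mem x hx =>
        obtain ⟨a, ha1, ha2, rfl⟩ := hx
        rw [toC_zop]
        exact Algebra.subset_adjoin ⟨cx a, (cx_mem_S K a).2 ⟨ha1, ha2⟩, rfl⟩
      | algebraMap r =>
        rw [Algebra.algebraMap_eq_smul_one, toC_smul, toC_one']
        exact Subalgebra.smul_mem _ (Subalgebra.one_mem _) _
      | add x y _ _ hx hy =>
        rw [AbVar.toC_add]
        exact Subalgebra.add_mem _ hx hy
      | mul x y _ _ hx hy =>
        rw [AbVar.toC_mul]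
        exact Subalgebra.mul_mem _ hx hy
    | zero => exact Subalgebra.zero_mem _
    | add x y _ _ hx hy => exact Subalgebra.add_mem _ hx hy
    | smul c x _ hx => exact Subalgebra.smul_mem _ hx _
  exact key _ h1

/-- A matrix commuting with the endomorphisms commutes with what the `Z a` commute with. -/
theorem comm_of (hq : DRB.Stmt_DescQ) (R Y : Matrix (Idx g) (Idx g) ℂ)
    (hR : ∀ a ∈ K.S, K.Z a * R = R * K.Z a)
    (hY : ∀ α, A.IsEnd α → Y * AbVar.toC α = AbVar.toC α * Y) : Y * R = R * Y := by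
  have h := comm_mem K hq Y hY
  clear hY
  induction h using Algebra.adjoin_induction with
  | mem x hx =>
    obtain ⟨a, ha, rfl⟩ := hx
    exact hR a ha
  | algebraMap r =>
    rw [Algebra.algebraMap_eq_smul_one, Matrix.smul_mul, Matrix.mul_smul, Matrix.one_mul,
      Matrix.mul_one]
  | add x y _ _ hx hy => rw [Matrix.add_mul, Matrix.mul_add, hx, hy]
  | mul x y _ _ hx hy => rw [Matrix.mul_assoc, hy, ← Matrix.mul_assoc, hx, Matrix.mul_assoc]

/-- A matrix commuting with the endomorphisms is even. -/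
theorem comm_even (hq : DRB.Stmt_DescQ) (Y : Matrix (Idx g) (Idx g) ℂ)
    (hY : ∀ α, A.IsEnd α → Y * AbVar.toC α = AbVar.toC α * Y) : Y ∈ Pw K Finset.univ 0 := by
  have h := comm_mem K hq Y hY
  clear hY
  induction h using Algebra.adjoin_induction with
  | mem x hx =>
    obtain ⟨a, ha, rfl⟩ := hx
    exact Z_even K a
  | algebraMap r =>
    rw [Algebra.algebraMap_eq_smul_one]
    exact Submodule.smul_mem _ _ (Submodule.subset_span ⟨[], by simp, by simp, rfl⟩)
  | add x y _ _ hx hy => exact Submodule.add_mem _ hx hy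
  | mul x y _ _ hx hy => exact Pw_mul K _ _ hx hy

/-- The Lie algebra `S` is spanned by rational elements. -/
theorem S_rat (hq : DRB.Stmt_DescQ) (a : Matrix (Fin n) (Fin n) ℂ) (ha : a ∈ K.S) :
    a ∈ Submodule.span ℂ {b | ∃ c : Matrix (Fin n) (Fin n) ℚ, cx c ∈ K.S ∧ b = cx c} := by
  let D : Submodule ℂ (Fin n × Fin n → ℂ) :=
    { carrier := {v | mt v ∈ K.S}
      add_mem' := by
        intro a b ha hb
        have e : mt (a + b) = mt a + mt b := rfl
        show mt (a + b) ∈ K.S
        rw [e]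
        exact K.S.add_mem ha hb
      zero_mem' := K.S.zero_mem
      smul_mem' := by
        intro c a ha
        have e : mt (c • a) = c • mt a := rfl
        show mt (c • a) ∈ K.S
        rw [e]
        exact K.S.smul_mem c ha }
  have hD : ∀ v, v ∈ D ↔ mt v ∈ K.S := fun v => Iff.rfl
  have hrat : RatSpan D := by
    apply hq (Fin n × Fin n) D
    intro σ v hv
    rw [hD] at hv ⊢
    have e1 : mt (fun k => σ (v k)) = (mt v).map σ := rfl
    have hc : ∀ b : Matrix (Fin n) (Fin n) ℚ, (cx b).map σ = cx b := by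
      intro b
      ext i j
      rw [Matrix.map_apply, cx_apply]
      simp
    obtain ⟨h1, h2⟩ := hv
    rw [e1]
    refine ⟨?_, ?_⟩
    · have e3 := congrArg (fun Z : Matrix (Fin n) (Fin n) ℂ => Z.map σ) h1
      have e4 : ((mt v).map σ)ᵀ = ((mt v)ᵀ).map σ := rfl
      rw [e4, ← cx_diagonal]
      rw [← cx_diagonal] at e3
      have e5 : ((mt v)ᵀ * cx (Matrix.diagonal K.q) + cx (Matrix.diagonal K.q) * mt v).map σ =
          ((mt v)ᵀ).map σ * cx (Matrix.diagonal K.q) + cx (Matrix.diagonal K.q) * (mt v).map σ := by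
        rw [Matrix.map_add σ (fun a b => map_add σ a b), Matrix.map_mul, Matrix.map_mul, hc]
      rw [← e5]
      refine e3.trans ?_
      ext i j
      simp
    · have e3 := congrArg (fun Z : Matrix (Fin n) (Fin n) ℂ => Z.map σ) h2
      simp only [Matrix.map_mul] at e3
      rw [thC_eq, hc] at e3
      rw [thC_eq]
      exact e3
  have hv0 : (fun k : Fin n × Fin n => a k.1 k.2) ∈ D := ha
  have h1 := hrat hv0
  have key : ∀ v ∈ Submodule.span ℂ {v | v ∈ D ∧ ∀ k, ∃ q : ℚ, v k = q},
      mt v ∈ Submodule.span ℂ {b | ∃ c : Matrix (Fin n) (Fin n) ℚ, cx c ∈ K.S ∧ b = cx c} := by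
    intro v hv
    induction hv using Submodule.span_induction with
    | mem x hx =>
      obtain ⟨hx1, hx2⟩ := hx
      choose f hf using hx2
      have e1 : mt x = cx (Matrix.of fun i j => f (i, j)) := by
        ext i j
        simp [mt, cx_apply, hf]
      refine Submodule.subset_span ⟨Matrix.of fun i j => f (i, j), ?_, e1⟩
      rw [← e1]
      exact hx1
    | zero => exact Submodule.zero_mem _
    | add x y _ _ hx hy => exact Submodule.add_mem _ hx hy
    | smul c x _ hx => exact Submodule.smul_mem _ _ hx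
  exact key _ h1

theorem Z_end (hq : DRB.Stmt_DescQ) (α : Matrix (Idx g) (Idx g) ℚ) (hα : A.IsEnd α)
    (a : Matrix (Fin n) (Fin n) ℂ) (ha : a ∈ K.S) :
    K.Z a * AbVar.toC α = AbVar.toC α * K.Z a := by
  have h := S_rat K hq a ha
  clear ha
  induction h using Submodule.span_induction with
  | mem x hx =>
    obtain ⟨c, hc, rfl⟩ := hx
    rw [← toC_zop, ← AbVar.toC_mul, ← AbVar.toC_mul]
    have h1 := (cx_mem_S K c).1 hc
    rw [(K.comm (zop K.t K.q c)).2 (Algebra.subset_adjoin ⟨c, h1.1, h1.2, rfl⟩) α hα]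
  | zero =>
    have : K.Z 0 = 0 := by
      have := Z_smul K 0 0
      rw [zero_smul, zero_smul] at this
      exact this
    rw [this, Matrix.zero_mul, Matrix.mul_zero]
  | add x y _ _ hx hy => rw [Z_add, Matrix.add_mul, Matrix.mul_add, hx, hy]
  | smul c x _ hx => rw [Z_smul, Matrix.smul_mul, Matrix.mul_smul, hx]

theorem Z_span (hq : DRB.Stmt_DescQ) (Y : Matrix (Idx g) (Idx g) ℂ)
    (hY : Y ∈ Submodule.span ℂ {Z | ∃ α ∈ A.EndQ, Z = AbVar.toC α})
    (a : Matrix (Fin n) (Fin n) ℂ) (ha : a ∈ K.S) : Y * K.Z a = K.Z a * Y := by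
  induction hY using Submodule.span_induction with
  | mem x hx =>
    obtain ⟨α, hα, rfl⟩ := hx
    exact (Z_end K hq α hα a ha).symm
  | zero => rw [Matrix.zero_mul, Matrix.mul_zero]
  | add x y _ _ hx hy => rw [Matrix.add_mul, Matrix.mul_add, hx, hy]
  | smul c x _ hx => rw [Matrix.smul_mul, Matrix.mul_smul, hx]

end

end C5X

end Pool.Agent.K3C
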