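import Pool.Agent.K3E.E8b1

/-!
# C6, first part: an irreducible subgroup of an indefinite unitary group contains an element with an eigenvalue
of absolute value different from one
-/

open scoped BigOperators Matrix Topology
open Matrix

namespace Pool.Agent.K3C

open Pool.Agent.DRB Pool.Agent.K3D Pool.Agent.K3E

noncomputable section

namespace C6X

open K6X (trace_bound deriv_entry stable_of_exp burnside exists_form)

variable {d : ℕ}

theorem stable_of_exp_real (a : Matrix (Fin d) (Fin d) ℝ) (W : Submodule ℝ (Fin d → ℝ))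
    (h : ∀ t : ℝ, ∀ w ∈ W, (NormedSpace.exp (t • a)) *ᵥ w ∈ W) :
    ∀ w ∈ W, a *ᵥ w ∈ W := by
  intro w hw
  have hd : HasDerivAt (fun t : ℝ => (NormedSpace.exp (t • a)) *ᵥ w) (a *ᵥ w) 0 := by
    rw [hasDerivAt_pi]
    intro i
    have h1 : ∀ j, HasDerivAt (fun t : ℝ => (NormedSpace.exp (t • a)) i j * w j) (a i j * w j) 0 := by
      intro j
      exact (deriv_entry a i j).mul_const (w j)
    have h2 := HasDerivAt.fun_sum (u := Finset.univ) fun j _ => h1 j
    exact h2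
  have hclosed : IsClosed (W : Set (Fin d → ℝ)) := W.closed_of_finiteDimensional
  rw [hasDerivAt_iff_tendsto_slope_zero] at hd
  refine hclosed.mem_of_tendsto hd ?_
  refine Filter.Eventually.of_forall fun t => ?_
  refine W.smul_mem _ ?_
  exact W.sub_mem (h _ w hw) (h _ w hw)

/-- The complex vector `x - i J x`. -/
def Pv (J : Matrix (Fin d) (Fin d) ℝ) (x : Fin d → ℝ) : Fin d → ℂ :=
  fun i => (x i : ℂ) - Complex.I * ((J *ᵥ x) i : ℂ)

/-- The eigenspace of `J`. -/
def U (J : Matrix (Fin d) (Fin d) ℝ) : Submodule ℂ (Fin d → ℂ) :=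
  LinearMap.ker (Matrix.toLin' (J.map Complex.ofReal) - Complex.I • LinearMap.id)

theorem mem_U {J : Matrix (Fin d) (Fin d) ℝ} {v : Fin d → ℂ} :
    v ∈ U J ↔ (J.map Complex.ofReal) *ᵥ v = Complex.I • v := by
  rw [U, LinearMap.mem_ker, LinearMap.sub_apply, LinearMap.smul_apply, LinearMap.id_apply,
    Matrix.toLin'_apply, sub_eq_zero]

theorem map_mulVec_real (a : Matrix (Fin d) (Fin d) ℝ) (x : Fin d → ℝ) :
    (a.map Complex.ofReal) *ᵥ (fun i => (x i : ℂ)) = fun i => (((a *ᵥ x) i : ℝ) : ℂ) := by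
  funext i
  simp [Matrix.mulVec, dotProduct]

theorem Pv_eq (J : Matrix (Fin d) (Fin d) ℝ) (x : Fin d → ℝ) :
    Pv J x = (fun i => (x i : ℂ)) - Complex.I • fun i => (((J *ᵥ x) i : ℝ) : ℂ) := by
  funext i
  simp [Pv]

theorem Pv_comm (J a : Matrix (Fin d) (Fin d) ℝ) (h : a * J = J * a) (x : Fin d → ℝ) :
    (a.map Complex.ofReal) *ᵥ Pv J x = Pv J (a *ᵥ x) := by
  rw [Pv_eq, Pv_eq, Matrix.mulVec_sub, Matrix.mulVec_smul, map_mulVec_real, map_mulVec_real,
    Matrix.mulVec_mulVec, Matrix.mulVec_mulVec, h]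

theorem Pv_J (J : Matrix (Fin d) (Fin d) ℝ) (hJ : J * J = -1) (x : Fin d → ℝ) :
    Pv J (J *ᵥ x) = Complex.I • Pv J x := by
  rw [Pv_eq, Pv_eq, Matrix.mulVec_mulVec, hJ, Matrix.neg_mulVec, Matrix.one_mulVec]
  funext i
  simp only [Pi.sub_apply, Pi.smul_apply, smul_eq_mul, Pi.neg_apply, Complex.ofReal_neg]
  linear_combination (((J *ᵥ x) i : ℝ) : ℂ) * Complex.I_mul_I

theorem Pv_mem (J : Matrix (Fin d) (Fin d) ℝ) (hJ : J * J = -1) (x : Fin d → ℝ) :
    Pv J x ∈ U J := by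
  rw [mem_U, Pv_comm J J rfl, Pv_J J hJ]

theorem Pv_re (J : Matrix (Fin d) (Fin d) ℝ) (x : Fin d → ℝ) (i : Fin d) : (Pv J x i).re = x i := by
  simp [Pv]

theorem Pv_add (J : Matrix (Fin d) (Fin d) ℝ) (x y : Fin d → ℝ) :
    Pv J (x + y) = Pv J x + Pv J y := by
  funext i
  simp only [Pv, Matrix.mulVec_add, Pi.add_apply, Complex.ofReal_add]
  ring

theorem Pv_smul (J : Matrix (Fin d) (Fin d) ℝ) (c : ℝ) (x : Fin d → ℝ) :
    Pv J (c • x) = (c : ℂ) • Pv J x := by
  funext i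
  simp only [Pv, Matrix.mulVec_smul, Pi.smul_apply, smul_eq_mul, Complex.ofReal_mul]
  ring

theorem Pv_zero (J : Matrix (Fin d) (Fin d) ℝ) : Pv J 0 = 0 := by
  funext i
  simp [Pv]

/-- Vectors of `U` come from real vectors. -/
theorem U_re (J : Matrix (Fin d) (Fin d) ℝ) {u : Fin d → ℂ} (hu : u ∈ U J) :
    Pv J (fun i => (u i).re) = u := by
  rw [mem_U] at hu
  funext i
  have h1 := congrArg Complex.re (congrFun hu i)
  have h2 : (((J.map Complex.ofReal) *ᵥ u) i).re = (J *ᵥ fun i => (u i).re) i := by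
    simp [Matrix.mulVec, dotProduct]
  rw [h2] at h1
  rw [Pv, h1]
  refine Complex.ext ?_ ?_
  · simp
  · simp

/-- K6 with a complex structure. -/
theorem K6C (q : Fin d → ℝ) (J : Matrix (Fin d) (Fin d) ℝ) (l : Submodule ℝ (Matrix (Fin d) (Fin d) ℝ))
    (hq : ∀ i, q i ≠ 0) (hpos : ∃ i, 0 < q i) (hneg : ∃ i, q i < 0)
    (hskew : ∀ a ∈ l, aᵀ * Matrix.diagonal q + Matrix.diagonal q * a = 0)
    (hJJ : J * J = -1) (hJs : Jᵀ * Matrix.diagonal q + Matrix.diagonal q * J = 0)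
    (hJc : ∀ a ∈ l, a * J = J * a)
    (hirr : ∀ W : Submodule ℝ (Fin d → ℝ), (∀ v ∈ W, J *ᵥ v ∈ W) → (∀ a ∈ l, ∀ v ∈ W, a *ᵥ v ∈ W) →
      W = ⊥ ∨ W = ⊤) :
    ∃ as : List (Matrix (Fin d) (Fin d) ℝ), (∀ a ∈ as, a ∈ l) ∧
      ∃ (β : ℂ) (v : Fin d → ℂ), v ≠ 0 ∧ ‖β‖ ≠ 1 ∧
        ((as.map fun a => NormedSpace.exp a).prod.map Complex.ofReal) *ᵥ v = β • v := by
  classical
  obtain ⟨ip, hip⟩ := hpos
  obtain ⟨im, him⟩ := hneg
  set S : Set (Matrix (Fin d) (Fin d) ℝ) := (fun a => NormedSpace.exp a) '' (l : Set _) with hS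
  set H : Submonoid (Matrix (Fin d) (Fin d) ℝ) := Submonoid.closure S with hH
  by_contra hcon
  -- eigenvalues have absolute value one
  have heig : ∀ g ∈ H, ∀ (β : ℂ) (v : Fin d → ℂ), v ≠ 0 →
      (g.map Complex.ofReal) *ᵥ v = β • v → ‖β‖ = 1 := by
    intro g hg β v hv hgv
    by_contra hb
    obtain ⟨L, hL, hLg⟩ := Submonoid.exists_list_of_mem_closure hg
    have hex : ∀ L : List (Matrix (Fin d) (Fin d) ℝ), (∀ y ∈ L, y ∈ S) →
        ∃ as : List (Matrix (Fin d) (Fin d) ℝ), (∀ a ∈ as, a ∈ l) ∧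
          as.map (fun a => NormedSpace.exp a) = L := by
      intro L
      induction L with
      | nil => intro _; exact ⟨[], by simp, rfl⟩
      | cons y L ih =>
        intro hy
        obtain ⟨as, h1, h2⟩ := ih fun z hz => hy z (List.mem_cons_of_mem _ hz)
        obtain ⟨a, ha, hay⟩ := hy y List.mem_cons_self
        refine ⟨a :: as, ?_, ?_⟩
        · intro b hb
          rcases List.mem_cons.1 hb with rfl | hb
          · exact ha
          · exact h1 b hb
        · rw [List.map_cons, h2]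
          exact congrArg (fun z => z :: L) hay
    obtain ⟨as, h1, h2⟩ := hex L hL
    exact hcon ⟨as, h1, β, v, hv, hb, by rw [h2, hLg]; exact hgv⟩
  -- inverses
  have hexp_inv : ∀ a : Matrix (Fin d) (Fin d) ℝ,
      NormedSpace.exp (-a) * NormedSpace.exp a = 1 ∧ NormedSpace.exp a * NormedSpace.exp (-a) = 1 := by
    intro a
    have h1 : IsUnit (NormedSpace.exp a) := Matrix.isUnit_exp a
    have h2 : IsUnit (NormedSpace.exp a).det := (Matrix.isUnit_iff_isUnit_det _).1 h1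
    rw [Matrix.exp_neg]
    exact ⟨Matrix.nonsing_inv_mul _ h2, Matrix.mul_nonsing_inv _ h2⟩
  have hinv : ∀ g ∈ H, ∃ h ∈ H, h * g = 1 ∧ g * h = 1 := by
    intro g hg
    induction hg using Submonoid.closure_induction with
    | mem x hx =>
      obtain ⟨a, ha, rfl⟩ := hx
      exact ⟨NormedSpace.exp (-a), Submonoid.subset_closure ⟨-a, l.neg_mem ha, rfl⟩,
        (hexp_inv a).1, (hexp_inv a).2⟩
    | one => exact ⟨1, H.one_mem, by simp⟩
    | mul x y _ _ hx hy =>
      obtain ⟨x', hx', h1, h2⟩ := hx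
      obtain ⟨y', hy', h3, h4⟩ := hy
      refine ⟨y' * x', H.mul_mem hy' hx', ?_, ?_⟩
      · rw [Matrix.mul_assoc, ← Matrix.mul_assoc x' x y, h1, Matrix.one_mul, h3]
      · rw [Matrix.mul_assoc, ← Matrix.mul_assoc y y' x', h4, Matrix.one_mul, h2]
  have hcJ : ∀ g ∈ H, g * J = J * g := by
    intro g hg
    induction hg using Submonoid.closure_induction with
    | mem x hx =>
      obtain ⟨a, ha, rfl⟩ := hx
      exact E8Y.exp_J a a J (hJc a ha)
    | one => rw [one_mul, mul_one]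
    | mul x y _ _ hx hy => rw [mul_assoc, hy, ← mul_assoc, hx, mul_assoc]
  -- the form
  have hdetQ : IsUnit (Matrix.diagonal q) := by
    rw [Matrix.isUnit_iff_isUnit_det, Matrix.det_diagonal, isUnit_iff_ne_zero]
    exact Finset.prod_ne_zero_iff.2 fun i _ => hq i
  have hdetQ' : IsUnit (Matrix.diagonal q).det := (Matrix.isUnit_iff_isUnit_det _).1 hdetQ
  have hform : ∀ g ∈ H, gᵀ * Matrix.diagonal q * g = Matrix.diagonal q := by
    intro g hg
    induction hg using Submonoid.closure_induction with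
    | mem x hx =>
      obtain ⟨a, ha, rfl⟩ := hx
      have h1 : aᵀ = Matrix.diagonal q * (-a) * (Matrix.diagonal q)⁻¹ := by
        have h2 := hskew a ha
        have h3 : aᵀ * Matrix.diagonal q = Matrix.diagonal q * (-a) := by
          rw [Matrix.mul_neg]
          exact eq_neg_of_add_eq_zero_left h2
        rw [← h3, Matrix.mul_assoc, Matrix.mul_nonsing_inv _ hdetQ', Matrix.mul_one]
      have h4 : (NormedSpace.exp a)ᵀ =
          Matrix.diagonal q * NormedSpace.exp (-a) * (Matrix.diagonal q)⁻¹ := by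
        rw [← Matrix.exp_transpose, h1, Matrix.exp_conj _ _ hdetQ]
      show (NormedSpace.exp a)ᵀ * Matrix.diagonal q * NormedSpace.exp a = Matrix.diagonal q
      rw [h4]
      simp only [Matrix.mul_assoc]
      rw [← Matrix.mul_assoc (Matrix.diagonal q)⁻¹, Matrix.nonsing_inv_mul _ hdetQ', Matrix.one_mul,
        (hexp_inv a).1, Matrix.mul_one]
    | one => simp
    | mul x y _ _ hx hy =>
      calc (x * y)ᵀ * Matrix.diagonal q * (x * y) = yᵀ * (xᵀ * Matrix.diagonal q * x) * y := by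
            rw [Matrix.transpose_mul]; simp only [Matrix.mul_assoc]
        _ = Matrix.diagonal q := by rw [hx, hy]
  -- coordinates on the eigenspace of `J`
  let k := Module.finrank ℂ (U J)
  let b := Module.finBasis ℂ (U J)
  let F : (Fin k → ℂ) →ₗ[ℂ] (Fin d → ℂ) := (U J).subtype.comp b.equivFun.symm.toLinearMap
  have hFinj : Function.Injective F := by
    intro v w hvw
    exact b.equivFun.symm.injective (Subtype.ext hvw)
  have hFU : ∀ v, F v ∈ U J := fun v => (b.equivFun.symm v).2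
  have hFsurj : ∀ u ∈ U J, ∃ v, F v = u := by
    intro u hu
    refine ⟨b.equivFun ⟨u, hu⟩, ?_⟩
    show ((b.equivFun.symm (b.equivFun ⟨u, hu⟩) : U J) : Fin d → ℂ) = u
    rw [LinearEquiv.symm_apply_apply]
  obtain ⟨F', hF'⟩ := F.exists_leftInverse_of_injective (LinearMap.ker_eq_bot.2 hFinj)
  have hF'F : ∀ v, F' (F v) = v := fun v => by
    have := congrArg (fun f : (Fin k → ℂ) →ₗ[ℂ] (Fin k → ℂ) => f v) hF'
    exact this
  have hFF' : ∀ u ∈ U J, F (F' u) = u := by
    intro u hu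
    obtain ⟨v, rfl⟩ := hFsurj u hu
    rw [hF'F]
  let φ : Matrix (Fin d) (Fin d) ℝ → Matrix (Fin k) (Fin k) ℂ := fun g =>
    LinearMap.toMatrix' (F'.comp ((Matrix.toLin' (g.map Complex.ofReal)).comp F))
  have hφ0 : ∀ g v, φ g *ᵥ v = F' ((g.map Complex.ofReal) *ᵥ F v) := by
    intro g v
    show LinearMap.toMatrix' _ *ᵥ v = _
    rw [← Matrix.toLin'_apply, Matrix.toLin'_toMatrix', LinearMap.comp_apply, LinearMap.comp_apply,
      Matrix.toLin'_apply]
  have hUpres : ∀ g, g * J = J * g → ∀ u ∈ U J, (g.map Complex.ofReal) *ᵥ u ∈ U J := by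
    intro g hg u hu
    rw [mem_U] at hu ⊢
    rw [Matrix.mulVec_mulVec, ← E8Y.map_mul_real, ← hg, E8Y.map_mul_real, ← Matrix.mulVec_mulVec, hu,
      Matrix.mulVec_smul]
  have hφ : ∀ g, g * J = J * g → ∀ v, F (φ g *ᵥ v) = (g.map Complex.ofReal) *ᵥ F v := by
    intro g hg v
    rw [hφ0, hFF' _ (hUpres g hg _ (hFU v))]
  have hφmul : ∀ g h, h * J = J * h → φ (g * h) = φ g * φ h := by
    intro g h hh
    apply Matrix.toLin'.injective
    refine LinearMap.ext fun v => ?_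
    rw [Matrix.toLin'_apply, Matrix.toLin'_apply, ← Matrix.mulVec_mulVec, hφ0, hφ0 g, hφ h hh,
      E8Y.map_mul_real, Matrix.mulVec_mulVec]
  have hφ1 : φ 1 = 1 := by
    apply Matrix.toLin'.injective
    refine LinearMap.ext fun v => ?_
    rw [Matrix.toLin'_apply, Matrix.toLin'_apply, hφ0, Matrix.one_mulVec,
      Matrix.map_one _ Complex.ofReal_zero Complex.ofReal_one, Matrix.one_mulVec, hF'F]
  let G : Submonoid (Matrix (Fin k) (Fin k) ℂ) :=
    { carrier := {M | ∃ g ∈ H, M = φ g}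
      one_mem' := ⟨1, H.one_mem, hφ1.symm⟩
      mul_mem' := by
        rintro _ _ ⟨g, hg, rfl⟩ ⟨h, hh, rfl⟩
        exact ⟨g * h, H.mul_mem hg hh, (hφmul g h (hcJ h hh)).symm⟩ }
  have hk : 0 < k := by
    rw [Nat.pos_iff_ne_zero]
    intro h0
    have h1 : U J = ⊥ := Submodule.finrank_eq_zero.1 h0
    have h2 := Pv_mem J hJJ (Pi.single ip 1)
    rw [h1, Submodule.mem_bot] at h2
    have h3 := Pv_re J (Pi.single ip 1) ip
    rw [h2] at h3
    simp at h3
  -- irreducibility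
  have hirrG : ∀ W : Submodule ℂ (Fin k → ℂ), (∀ M ∈ G, ∀ w ∈ W, M *ᵥ w ∈ W) → W = ⊥ ∨ W = ⊤ := by
    intro W hW
    let W' : Submodule ℝ (Fin d → ℝ) :=
      { carrier := {x | Pv J x ∈ W.map F}
        add_mem' := by
          intro x y hx hy
          have hx' : Pv J x ∈ W.map F := hx
          have hy' : Pv J y ∈ W.map F := hy
          show Pv J (x + y) ∈ W.map F
          rw [Pv_add]
          exact Submodule.add_mem _ hx' hy'
        zero_mem' := by
          show Pv J 0 ∈ W.map F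
          rw [Pv_zero]
          exact Submodule.zero_mem _
        smul_mem' := by
          intro c x hx
          have hx' : Pv J x ∈ W.map F := hx
          show Pv J (c • x) ∈ W.map F
          rw [Pv_smul]
          exact Submodule.smul_mem _ _ hx' }
    have hmem : ∀ x, x ∈ W' ↔ Pv J x ∈ W.map F := fun x => Iff.rfl
    have hst : ∀ g ∈ H, ∀ x ∈ W', g *ᵥ x ∈ W' := by
      intro g hg x hx
      rw [hmem] at hx ⊢
      obtain ⟨w, hw, hwx⟩ := hx
      rw [← Pv_comm J g (hcJ g hg), ← hwx, ← hφ g (hcJ g hg)]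
      exact ⟨_, hW _ ⟨g, hg, rfl⟩ w hw, rfl⟩
    rcases hirr W' (by
      intro x hx
      rw [hmem] at hx ⊢
      rw [Pv_J J hJJ]
      exact Submodule.smul_mem _ _ hx) (by
      intro a ha
      refine stable_of_exp_real a W' fun t w hw => ?_
      exact hst _ (Submonoid.subset_closure ⟨t • a, l.smul_mem t ha, rfl⟩) w hw) with h | h
    · left
      rw [eq_bot_iff]
      intro w hw
      rw [Submodule.mem_bot]
      have h1 : (fun i => (F w i).re) ∈ W' := by
        rw [hmem, U_re J (hFU w)]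
        exact ⟨w, hw, rfl⟩
      rw [h, Submodule.mem_bot] at h1
      have h2 := U_re J (hFU w)
      rw [h1, Pv_zero] at h2
      apply hFinj
      rw [← h2, map_zero]
    · right
      rw [eq_top_iff]
      intro w _
      have h1 : (fun i => (F w i).re) ∈ W' := by rw [h]; trivial
      rw [hmem, U_re J (hFU w)] at h1
      obtain ⟨w', hw', hww⟩ := h1
      rw [← hFinj hww]
      exact hw'
  have hspan := burnside hk G hirrG
  -- boundedness
  have hb1 : ∀ X : Matrix (Fin k) (Fin k) ℂ, ∃ C : ℝ, ∀ g ∈ H, ‖(φ g * X).trace‖ ≤ C := by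
    intro X
    have hX : X ∈ Submodule.span ℂ (G : Set (Matrix (Fin k) (Fin k) ℂ)) := by
      rw [hspan]; trivial
    induction hX using Submodule.span_induction with
    | mem x hx =>
      obtain ⟨h, hh, rfl⟩ := hx
      refine ⟨k, fun g hg => ?_⟩
      rw [← hφmul g h (hcJ h hh)]
      refine trace_bound _ fun β v hv hβ => ?_
      refine heig (g * h) (H.mul_mem hg hh) β (F v) (fun h0 => hv (hFinj (by rw [h0, map_zero]))) ?_
      rw [← hφ _ (hcJ _ (H.mul_mem hg hh)), hβ, map_smul]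
    | zero => exact ⟨0, fun g _ => by simp⟩
    | add x y _ _ hx hy =>
      obtain ⟨C1, h1⟩ := hx
      obtain ⟨C2, h2⟩ := hy
      refine ⟨C1 + C2, fun g hg => ?_⟩
      rw [Matrix.mul_add, Matrix.trace_add]
      exact (norm_add_le _ _).trans (add_le_add (h1 g hg) (h2 g hg))
    | smul c x _ hx =>
      obtain ⟨C1, h1⟩ := hx
      refine ⟨‖c‖ * C1, fun g hg => ?_⟩
      rw [Matrix.mul_smul, Matrix.trace_smul, norm_smul]
      exact mul_le_mul_of_nonneg_left (h1 g hg) (norm_nonneg c)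
  have hb2 : ∀ i j : Fin d, ∃ C : ℝ, ∀ g ∈ H, |g i j| ≤ C := by
    intro i j
    let c : Fin k → ℂ := F' (Pv J (Pi.single j 1))
    obtain ⟨C, hC⟩ := hb1 (Matrix.of fun s r => c s * F (Pi.single r 1) i)
    refine ⟨C, fun g hg => ?_⟩
    have h1 := hC g hg
    have h2 : (φ g * Matrix.of fun s r => c s * F (Pi.single r 1) i).trace = F (φ g *ᵥ c) i := by
      have h3 : φ g *ᵥ c = ∑ r, (φ g *ᵥ c) r • (Pi.single r (1 : ℂ) : Fin k → ℂ) := by
        funext s
        simp [Finset.sum_apply, Pi.single_apply]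
      conv_rhs => rw [h3, map_sum, Finset.sum_apply]
      rw [Matrix.trace]
      refine Finset.sum_congr rfl fun r _ => ?_
      rw [Matrix.diag_apply, Matrix.mul_apply, map_smul, Pi.smul_apply, smul_eq_mul, Matrix.mulVec,
        dotProduct, Finset.sum_mul]
      refine Finset.sum_congr rfl fun s _ => ?_
      rw [Matrix.of_apply]
      ring
    rw [h2, hφ g (hcJ g hg)] at h1
    have h4 : F c = Pv J (Pi.single j 1) := hFF' _ (Pv_mem J hJJ _)
    rw [h4, Pv_comm J g (hcJ g hg)] at h1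
    have h5 : (Pv J (g *ᵥ Pi.single j 1) i).re = g i j := by
      rw [Pv_re, Matrix.mulVec_single_one]
      rfl
    rw [← h5]
    exact (Complex.abs_re_le_norm _).trans h1
  choose C hC using hb2
  set C0 : ℝ := ∑ i, ∑ j, |C i j| with hC0
  have hbound : ∀ g ∈ H, ∀ i j, |g i j| ≤ C0 := by
    intro g hg i j
    have h1 : |C i j| ≤ ∑ j, |C i j| :=
      Finset.single_le_sum (f := fun j => |C i j|) (fun _ _ => abs_nonneg _) (Finset.mem_univ j)
    have h2 : ∑ j, |C i j| ≤ C0 := Finset.single_le_sum (f := fun i => ∑ j, |C i j|)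
      (fun _ _ => Finset.sum_nonneg fun _ _ => abs_nonneg _) (Finset.mem_univ i)
    exact (hC i j g hg).trans ((le_abs_self _).trans (h1.trans h2))
  obtain ⟨P0, hP0pos, hP0inv⟩ := exists_form H C0 hbound hinv
  -- the averaged form
  set P1 : Matrix (Fin d) (Fin d) ℝ := (P0 + P0ᵀ) + Jᵀ * (P0 + P0ᵀ) * J with hP1
  have hsymP : P1ᵀ = P1 := by
    rw [hP1, Matrix.transpose_add, Matrix.transpose_mul, Matrix.transpose_mul, Matrix.transpose_add,
      Matrix.transpose_transpose, Matrix.transpose_transpose, add_comm P0ᵀ P0, Matrix.mul_assoc]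
  have hdot : ∀ (M : Matrix (Fin d) (Fin d) ℝ) (v : Fin d → ℝ), v ⬝ᵥ (Mᵀ *ᵥ v) = v ⬝ᵥ (M *ᵥ v) := by
    intro M v
    rw [Matrix.mulVec_transpose, dotProduct_comm, ← Matrix.dotProduct_mulVec]
  have hJv : ∀ v : Fin d → ℝ, v ≠ 0 → J *ᵥ v ≠ 0 := by
    intro v hv h0
    apply hv
    have h1 : J *ᵥ (J *ᵥ v) = -v := by
      rw [Matrix.mulVec_mulVec, hJJ, Matrix.neg_mulVec, Matrix.one_mulVec]
    rw [h0, Matrix.mulVec_zero] at h1
    exact neg_eq_zero.1 h1.symm
  have hP1pos : ∀ v, v ≠ 0 → 0 < v ⬝ᵥ (P1 *ᵥ v) := by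
    intro v hv
    have h1 : v ⬝ᵥ (P1 *ᵥ v) = 2 * (v ⬝ᵥ (P0 *ᵥ v)) + 2 * ((J *ᵥ v) ⬝ᵥ (P0 *ᵥ (J *ᵥ v))) := by
      have h2 : ∀ M : Matrix (Fin d) (Fin d) ℝ, v ⬝ᵥ ((Jᵀ * M * J) *ᵥ v) =
          (J *ᵥ v) ⬝ᵥ (M *ᵥ (J *ᵥ v)) := by
        intro M
        rw [Matrix.mul_assoc, ← Matrix.mulVec_mulVec, Matrix.dotProduct_mulVec v,
          Matrix.vecMul_transpose, ← Matrix.mulVec_mulVec]
      rw [hP1, Matrix.add_mulVec, Matrix.add_mulVec, dotProduct_add, dotProduct_add, hdot, h2,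
        Matrix.add_mulVec, dotProduct_add, hdot]
      ring
    rw [h1]
    have h3 := hP0pos v hv
    have h4 := hP0pos (J *ᵥ v) (hJv v hv)
    linarith
  have hP1J : P1 * J = -(Jᵀ * P1) := by
    have hJJt : Jᵀ * Jᵀ = -1 := by
      rw [← Matrix.transpose_mul, hJJ, Matrix.transpose_neg, Matrix.transpose_one]
    rw [hP1]
    generalize P0 + P0ᵀ = N
    have h1 : Jᵀ * N * J * J = -(Jᵀ * N) := by
      rw [Matrix.mul_assoc, hJJ, Matrix.mul_neg, Matrix.mul_one]
    have h2 : Jᵀ * (Jᵀ * N * J) = -(N * J) := by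
      rw [← Matrix.mul_assoc, ← Matrix.mul_assoc, hJJt, Matrix.neg_mul, Matrix.one_mul, Matrix.neg_mul]
    rw [Matrix.add_mul, Matrix.mul_add, h1, h2]
    abel
  have hP1inv : ∀ g ∈ H, gᵀ * P1 * g = P1 := by
    intro g hg
    have h1 : gᵀ * (P0 + P0ᵀ) * g = P0 + P0ᵀ := by
      have h2 := hP0inv g hg
      have h3 : gᵀ * P0ᵀ * g = P0ᵀ := by
        have h4 := congrArg Matrix.transpose h2
        rw [Matrix.transpose_mul, Matrix.transpose_mul, Matrix.transpose_transpose] at h4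
        rw [Matrix.mul_assoc]
        exact h4
      rw [Matrix.mul_add, Matrix.add_mul, h2, h3]
    have hcJt : gᵀ * Jᵀ = Jᵀ * gᵀ := by
      rw [← Matrix.transpose_mul, ← Matrix.transpose_mul, hcJ g hg]
    rw [hP1, Matrix.mul_add, Matrix.add_mul, h1]
    congr 1
    calc gᵀ * (Jᵀ * (P0 + P0ᵀ) * J) * g = (gᵀ * Jᵀ) * (P0 + P0ᵀ) * (J * g) := by
          simp only [Matrix.mul_assoc]
      _ = Jᵀ * (gᵀ * (P0 + P0ᵀ) * g) * J := by
          rw [hcJt, ← hcJ g hg]; simp only [Matrix.mul_assoc]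
      _ = _ := by rw [h1]
  -- a real eigenvalue
  have hPdet : P1.det ≠ 0 := by
    intro h0
    obtain ⟨v, hv, hv2⟩ := Matrix.exists_mulVec_eq_zero_iff.2 h0
    have := hP1pos v hv
    rw [hv2] at this
    simp at this
  set ψ : Matrix (Fin d) (Fin d) ℝ →+* Matrix (Fin d) (Fin d) ℂ := Complex.ofRealHom.mapMatrix with hψ
  have hψ0 : ∀ M : Matrix (Fin d) (Fin d) ℝ, ψ M = M.map Complex.ofReal := fun M => rfl
  have hPcu : IsUnit (ψ P1).det := by
    have : (ψ P1).det = ((P1.det : ℝ) : ℂ) := (RingHom.map_det Complex.ofRealHom P1).symm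
    rw [this, isUnit_iff_ne_zero]
    exact_mod_cast hPdet
  have : Nonempty (Fin d) := ⟨ip⟩
  obtain ⟨c, hc⟩ := Module.End.exists_eigenvalue (Matrix.toLin' ((ψ P1)⁻¹ * ψ (Matrix.diagonal q)))
  obtain ⟨v0, hv0⟩ := hc.exists_hasEigenvector
  have hv1 : ψ (Matrix.diagonal q) *ᵥ v0 = c • (ψ P1 *ᵥ v0) := by
    have h1 := hv0.apply_eq_smul
    rw [Matrix.toLin'_apply] at h1
    have h2 : ψ P1 *ᵥ (((ψ P1)⁻¹ * ψ (Matrix.diagonal q)) *ᵥ v0) = ψ (Matrix.diagonal q) *ᵥ v0 := by
      rw [Matrix.mulVec_mulVec, ← Matrix.mul_assoc, Matrix.mul_nonsing_inv _ hPcu, Matrix.one_mul]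
    rw [← h2, h1, Matrix.mulVec_smul]
  -- real and imaginary parts
  set x : Fin d → ℝ := fun i => (v0 i).re with hx
  set y : Fin d → ℝ := fun i => (v0 i).im with hy
  have hre : ∀ (M : Matrix (Fin d) (Fin d) ℝ) (i : Fin d), ((ψ M *ᵥ v0) i).re = (M *ᵥ x) i := by
    intro M i
    simp [hψ0, Matrix.mulVec, dotProduct, hx]
  have him' : ∀ (M : Matrix (Fin d) (Fin d) ℝ) (i : Fin d), ((ψ M *ᵥ v0) i).im = (M *ᵥ y) i := by
    intro M i
    simp [hψ0, Matrix.mulVec, dotProduct, hy]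
  have hQx : Matrix.diagonal q *ᵥ x = c.re • (P1 *ᵥ x) - c.im • (P1 *ᵥ y) := by
    funext i
    have h1 := congrArg Complex.re (congrFun hv1 i)
    rw [hre, Pi.smul_apply, smul_eq_mul, Complex.mul_re, hre, him'] at h1
    rw [h1]
    rfl
  have hQy : Matrix.diagonal q *ᵥ y = c.re • (P1 *ᵥ y) + c.im • (P1 *ᵥ x) := by
    funext i
    have h1 := congrArg Complex.im (congrFun hv1 i)
    rw [him', Pi.smul_apply, smul_eq_mul, Complex.mul_im, hre, him'] at h1
    rw [h1]
    rfl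
  have hsymdot : ∀ M : Matrix (Fin d) (Fin d) ℝ, Mᵀ = M → ∀ v w : Fin d → ℝ,
      v ⬝ᵥ (M *ᵥ w) = w ⬝ᵥ (M *ᵥ v) := by
    intro M hM v w
    rw [dotProduct_comm, Matrix.dotProduct_mulVec w M v, ← Matrix.mulVec_transpose, hM]
  have hxy : x ≠ 0 ∨ y ≠ 0 := by
    by_contra hcon2
    push Not at hcon2
    apply hv0.2
    funext i
    refine Complex.ext ?_ ?_
    · exact congrFun hcon2.1 i
    · exact congrFun hcon2.2 i
  have hcim : c.im = 0 := by
    have h1 : y ⬝ᵥ (Matrix.diagonal q *ᵥ x) = x ⬝ᵥ (Matrix.diagonal q *ᵥ y) :=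
      hsymdot _ (Matrix.diagonal_transpose q) _ _
    rw [hQx, hQy, dotProduct_sub, dotProduct_add, dotProduct_smul, dotProduct_smul, dotProduct_smul,
      dotProduct_smul, hsymdot P1 hsymP y x] at h1
    simp only [smul_eq_mul] at h1
    have h2 : c.im * (x ⬝ᵥ (P1 *ᵥ x) + y ⬝ᵥ (P1 *ᵥ y)) = 0 := by linarith
    rcases mul_eq_zero.1 h2 with h | h
    · exact h
    · exfalso
      have hnn : ∀ v, 0 ≤ v ⬝ᵥ (P1 *ᵥ v) := by
        intro v
        by_cases hv : v = 0
        · rw [hv]; simp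
        · exact (hP1pos v hv).le
      rcases hxy with h3 | h3
      · have := hP1pos x h3
        have := hnn y
        linarith
      · have := hP1pos y h3
        have := hnn x
        linarith
  rw [hcim, zero_smul, sub_zero] at hQx
  rw [hcim, zero_smul, add_zero] at hQy
  let W : Submodule ℝ (Fin d → ℝ) := LinearMap.ker (Matrix.toLin' (Matrix.diagonal q - c.re • P1))
  have hmemW : ∀ v, v ∈ W ↔ Matrix.diagonal q *ᵥ v = c.re • (P1 *ᵥ v) := by
    intro v
    rw [LinearMap.mem_ker, Matrix.toLin'_apply, Matrix.sub_mulVec, sub_eq_zero, Matrix.smul_mulVec]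
  have hWne : W ≠ ⊥ := by
    intro h0
    rcases hxy with h3 | h3
    · have h4 : x ∈ W := (hmemW x).2 hQx
      rw [h0, Submodule.mem_bot] at h4
      exact h3 h4
    · have h4 : y ∈ W := (hmemW y).2 hQy
      rw [h0, Submodule.mem_bot] at h4
      exact h3 h4
  have hWtop : W = ⊤ := by
    refine (hirr W ?_ ?_).resolve_left hWne
    · intro v hv
      rw [hmemW] at hv ⊢
      have h1 : Matrix.diagonal q * J = -(Jᵀ * Matrix.diagonal q) :=
        eq_neg_of_add_eq_zero_right hJs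
      rw [Matrix.mulVec_mulVec, Matrix.mulVec_mulVec, h1, hP1J, Matrix.neg_mulVec, Matrix.neg_mulVec,
        ← Matrix.mulVec_mulVec, ← Matrix.mulVec_mulVec, hv, Matrix.mulVec_smul, smul_neg]
    · intro a ha
      refine stable_of_exp_real a W fun t w hw => ?_
      have hg : NormedSpace.exp (t • a) ∈ H := Submonoid.subset_closure ⟨t • a, l.smul_mem t ha, rfl⟩
      generalize NormedSpace.exp (t • a) = g at hg
      rw [hmemW] at hw ⊢
      obtain ⟨h, hh, h1, h2⟩ := hinv g hg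
      have hX : ∀ X : Matrix (Fin d) (Fin d) ℝ, gᵀ * X * g = X → X * g = hᵀ * X := by
        intro X hX
        calc X * g = (g * h)ᵀ * X * g := by rw [h2, Matrix.transpose_one, Matrix.one_mul]
          _ = hᵀ * (gᵀ * X * g) := by rw [Matrix.transpose_mul]; simp only [Matrix.mul_assoc]
          _ = hᵀ * X := by rw [hX]
      rw [Matrix.mulVec_mulVec, Matrix.mulVec_mulVec, hX _ (hform g hg), hX _ (hP1inv g hg),
        ← Matrix.mulVec_mulVec, ← Matrix.mulVec_mulVec, hw, Matrix.mulVec_smul]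
  have hall : ∀ i, q i = c.re * P1 i i := by
    intro i
    have h1 : Pi.single i (1 : ℝ) ∈ W := by rw [hWtop]; trivial
    rw [hmemW] at h1
    have h2 := congrFun h1 i
    rw [Matrix.mulVec_single_one, Pi.smul_apply, Matrix.mulVec_single_one, smul_eq_mul] at h2
    have h3 : (Matrix.diagonal q).col i i = q i := Matrix.diagonal_apply_eq q i
    rw [h3] at h2
    exact h2
  have hPd : ∀ i, 0 < P1 i i := by
    intro i
    have h1 := hP1pos (Pi.single i 1) (by
      intro h0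
      have := congrFun h0 i
      simp at this)
    rw [Matrix.mulVec_single_one] at h1
    simpa using h1
  have h1 := hall ip
  have h2 := hall im
  have h3 := hPd ip
  have h4 := hPd im
  have h5 : 0 < c.re := by
    by_contra h
    push Not at h
    nlinarith
  nlinarith

end C6X

end

end Pool.Agent.K3C
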