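import Pool.Agent.K3E.K7y

/-!
# K7U: irreducible real Lie subalgebras of `u(1, m - 1)` containing a hyperbolic element (abstract part)
-/

open scoped BigOperators

namespace Pool.Agent.K3C.K7z

open Module Pool.Agent.K3D.K7x

variable {V : Type*} [AddCommGroup V] [Module ℝ V]

variable {B : V →ₗ[ℝ] V →ₗ[ℝ] ℝ} {l : Submodule ℝ (Module.End ℝ V)} {J : Module.End ℝ V}

/-- The context. -/
structure CtxP (B : V →ₗ[ℝ] V →ₗ[ℝ] ℝ) (l : Submodule ℝ (Module.End ℝ V)) (J : Module.End ℝ V) :
    Prop where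
  symm : ∀ x y, B x y = B y x
  sig : ∀ v : Fin 3 → V, LinearIndependent ℝ v → ∃ c : Fin 3 → ℝ,
    B (∑ i, c i • v i) (∑ i, c i • v i) < 0
  nondeg : ∀ x, (∀ y, B x y = 0) → x = 0
  skew : ∀ Y ∈ l, ∀ x y, B (Y x) y = - B x (Y y)
  brk : ∀ X ∈ l, ∀ Y ∈ l, X * Y - Y * X ∈ l
  JJ : ∀ x, J (J x) = -x
  Jskew : ∀ x y, B (J x) y = - B x (J y)
  Jcomm : ∀ Y ∈ l, ∀ x, Y (J x) = J (Y x)

/-- The context. -/
structure CtxU (B : V →ₗ[ℝ] V →ₗ[ℝ] ℝ) (l : Submodule ℝ (Module.End ℝ V)) (J : Module.End ℝ V) :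
    Prop extends CtxP B l J where
  irr : ∀ W : Submodule ℝ V, (∀ x ∈ W, J x ∈ W) → (∀ Y ∈ l, ∀ x ∈ W, Y x ∈ W) → W = ⊥ ∨ W = ⊤

/-- `x ∧ y + J x ∧ J y` -/
noncomputable def uw (B : V →ₗ[ℝ] V →ₗ[ℝ] ℝ) (J : Module.End ℝ V) : V →ₗ[ℝ] V →ₗ[ℝ] Module.End ℝ V :=
  wd B + (wd B).compl₁₂ J J

theorem uw_eq (x y : V) : uw B J x y = wd B x y + wd B (J x) (J y) := rfl

@[simp] theorem uw_apply (x y v : V) : uw B J x y v =
    B y v • x - B x v • y + (B (J y) v • J x - B (J x) v • J y) := rfl

theorem comm_uw {A : Module.End ℝ V} (hA : ∀ x y, B (A x) y = - B x (A y))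
    (hJ : ∀ x, A (J x) = J (A x)) (x y : V) :
    A * uw B J x y - uw B J x y * A = uw B J (A x) y + uw B J x (A y) := by
  have h1 := comm_wd hA x y
  have h2 := comm_wd hA (J x) (J y)
  rw [hJ, hJ] at h2
  rw [uw_eq, uw_eq, uw_eq, mul_add, add_mul, add_sub_add_comm, h1, h2]
  abel

theorem uw_self (x : V) : uw B J x x = 0 := by
  rw [uw_eq, wd_self, wd_self, add_zero]

theorem uw_swap (x y : V) : uw B J y x = - uw B J x y := by
  rw [uw_eq, uw_eq, wd_swap B x y, wd_swap B (J x) (J y)]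
  abel

namespace CtxP

theorem uwJ (C : CtxP B l J) (x y : V) : uw B J (J x) y = - uw B J x (J y) := by
  rw [uw_eq, uw_eq, C.JJ, C.JJ]
  simp only [map_neg, LinearMap.neg_apply]
  abel

theorem brku (C : CtxP B l J) {A : Module.End ℝ V} (hA : A ∈ l) {x y : V} (h : uw B J x y ∈ l) :
    uw B J (A x) y + uw B J x (A y) ∈ l := by
  rw [← comm_uw (C.skew A hA) (C.Jcomm A hA)]
  exact C.brk _ hA _ h

theorem BJJ (C : CtxP B l J) (x y : V) : B (J x) (J y) = B x y := by
  rw [C.Jskew, C.JJ, map_neg, neg_neg]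

theorem BJself (C : CtxP B l J) (x : V) : B x (J x) = 0 := by
  have h := C.Jskew x x
  rw [C.symm] at h
  linarith

theorem BJself' (C : CtxP B l J) (x : V) : B (J x) x = 0 := by
  rw [C.symm]; exact C.BJself x

theorem uneg (C : CtxP B l J) {e1 e2 f1 f2 : V} (H : H4 B e1 e2 f1 f2) {u : V}
    (hu : u ∈ UU B e1 e2 f1 f2) (h0 : 0 ≤ B u u) : u = 0 := by
  by_contra hne
  rw [mem_UU] at hu
  obtain ⟨⟨h1, h2⟩, h3, h4⟩ := hu
  have s1 : B u e1 = 0 := by rw [C.symm]; exact h1
  have s2 : B u e2 = 0 := by rw [C.symm]; exact h2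
  have s3 : B u f1 = 0 := by rw [C.symm]; exact h3
  have s4 : B u f2 = 0 := by rw [C.symm]; exact h4
  have hli : LinearIndependent ℝ ![e1 + f1, e2 + f2, u] := by
    rw [Fintype.linearIndependent_iff]
    intro g hg
    simp only [Fin.sum_univ_three, Matrix.cons_val_zero, Matrix.cons_val_one,
      Matrix.cons_val_two, Matrix.head_cons, Matrix.tail_cons] at hg
    have g0 : g 0 = 0 := by
      have := congrArg (fun x => B e1 x) hg
      simpa [H.e11, H.e12, H.ef11, H.ef12, h1] using this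
    have g1 : g 1 = 0 := by
      have := congrArg (fun x => B e2 x) hg
      simpa [H.e21, H.e22, H.ef21, H.ef22, h2] using this
    rw [g0, g1, zero_smul, zero_smul, zero_add, zero_add, smul_eq_zero] at hg
    intro i
    fin_cases i
    · exact g0
    · exact g1
    · exact hg.resolve_right hne
  obtain ⟨c, hc⟩ := C.sig _ hli
  simp only [Fin.sum_univ_three, Matrix.cons_val_zero, Matrix.cons_val_one,
    Matrix.cons_val_two, Matrix.head_cons, Matrix.tail_cons, map_add, map_smul,
    LinearMap.add_apply, LinearMap.smul_apply, smul_eq_mul, H.e11, H.e12, H.e21, H.e22, H.f11,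
    H.f12, H.f21, H.f22, H.ef11, H.ef12, H.ef21, H.ef22, H.fe11, H.fe12, H.fe21, H.fe22, h1, h2,
    h3, h4, s1, s2, s3, s4] at hc
  nlinarith [mul_nonneg (mul_self_nonneg (c 2)) h0, mul_self_nonneg (c 0), mul_self_nonneg (c 1)]

theorem zero_of_top (C : CtxP B l J) {e1 e2 f1 f2 : V} (H : H4 B e1 e2 f1 f2)
    {h : Module.End ℝ V} (hsk : ∀ x y, B (h x) y = - B x (h y))
    (htop : ⨆ μ : ℝ, Module.End.eigenspace h μ = ⊤) (h1 : h e1 = 0) (h2 : h e2 = 0)
    (h3 : h f1 = 0) (h4 : h f2 = 0) : h = 0 := by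
  by_contra hne
  obtain ⟨a, e, f, ha, he, hf, hee, hff, hef⟩ := extract C.symm C.nondeg hsk htop hne
  have aux : ∀ x, h x = 0 → B x e = 0 := by
    intro x hx
    have := hsk x e
    rw [hx, he] at this
    simp only [map_zero, LinearMap.zero_apply, map_smul, smul_eq_mul] at this
    have h5 : a * B x e = 0 := by linarith
    exact (mul_eq_zero.1 h5).resolve_left ha.ne'
  have h5 : e = 0 := C.uneg H (mem_UU.2 ⟨⟨aux _ h1, aux _ h2⟩, aux _ h3, aux _ h4⟩) hee.ge
  rw [h5] at hef
  simp at hef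

theorem decomp [FiniteDimensional ℝ V] (C : CtxP B l J) {h : Module.End ℝ V} (hh : h ∈ l)
    (htop : ⨆ μ : ℝ, Module.End.eigenspace h μ = ⊤) (W : Submodule ℝ (Module.End ℝ V))
    (hW : ∀ μ, ∀ Y ∈ Gr l h μ, Y ∈ W) : l ≤ W := by
  have h1 : l ≤ ⨆ μ : ℝ, Module.End.eigenspace (adm h) μ := by
    intro Y hY
    have h2 := span_of_nondeg C.symm C.nondeg (C.skew Y hY)
    refine Submodule.span_le.2 ?_ h2
    rintro Z ⟨x, y, rfl⟩
    exact wd_mem_iSup (C.skew h hh) htop x y
  have h2 : l = ⨆ μ : ℝ, l ⊓ Module.End.eigenspace (adm h) μ := by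
    have := Submodule.inf_iSup_genEigenspace (p := l) (f := adm h)
      (fun Y hY => C.brk h hh Y hY) 1
    rw [← this]
    exact (inf_eq_left.2 h1).symm
  rw [h2]
  refine iSup_le fun μ => ?_
  rintro Y ⟨hY1, hY2⟩
  exact hW μ Y ⟨hY1, by simpa [Module.End.mem_eigenspace_iff] using hY2⟩

theorem grbrk (C : CtxP B l J) {h X Y : Module.End ℝ V} {μ ν : ℝ} (hX : X ∈ Gr l h μ)
    (hY : Y ∈ Gr l h ν) : X * Y - Y * X ∈ Gr l h (μ + ν) := by
  refine ⟨C.brk _ hX.1 _ hY.1, ?_⟩
  have h1 : h * X = X * h + μ • X := by rw [← hX.2]; abel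
  have h2 : h * Y = Y * h + ν • Y := by rw [← hY.2]; abel
  have h3 : h * (X * Y) = X * Y * h + (μ + ν) • (X * Y) := by
    rw [← mul_assoc, h1, add_mul, mul_assoc, h2, mul_add, smul_mul_assoc, mul_smul_comm, add_smul,
      mul_assoc]
    abel
  have h4 : h * (Y * X) = Y * X * h + (μ + ν) • (Y * X) := by
    rw [← mul_assoc, h2, add_mul, mul_assoc, h1, mul_add, smul_mul_assoc, mul_smul_comm, add_smul,
      mul_assoc]
    abel
  rw [mul_sub, sub_mul, h3, h4, smul_sub]
  abel

end CtxP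

/-! ## The structure of the graded pieces -/

section

variable {e f : V} {a : ℝ}

theorem uu_J (C : CtxP B l J) {u : V} (hu : u ∈ UU B e (J e) f (J f)) :
    J u ∈ UU B e (J e) f (J f) := by
  rw [mem_UU] at hu ⊢
  obtain ⟨⟨h1, h2⟩, h3, h4⟩ := hu
  refine ⟨⟨?_, ?_⟩, ?_, ?_⟩
  · have := C.Jskew e u; linarith
  · rw [C.BJJ]; exact h1
  · have := C.Jskew f u; linarith
  · rw [C.BJJ]; exact h3

theorem uu_swap {u : V} (hu : u ∈ UU B e (J e) f (J f)) : u ∈ UU B f (J f) e (J e) := by
  rw [mem_UU] at hu ⊢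
  exact ⟨hu.2, hu.1⟩

theorem mem_U_of (H : H4 B e (J e) f (J f)) (ha : 0 < a) {x : V}
    (hx : (a • wd B e f + a • wd B (J e) (J f)) x = (0 : ℝ) • x) : x ∈ UU B e (J e) f (J f) := by
  obtain ⟨k1, k2, k3, k4⟩ := h_eig H hx
  rw [mem_UU]
  refine ⟨⟨?_, ?_⟩, ?_, ?_⟩
  · rw [zero_mul] at k2
    exact (mul_eq_zero.1 k2).resolve_left (by linarith)
  · rw [zero_mul] at k4
    exact (mul_eq_zero.1 k4).resolve_left (by linarith)
  · rw [zero_mul] at k1
    exact (mul_eq_zero.1 k1).resolve_left (by linarith)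
  · rw [zero_mul] at k3
    exact (mul_eq_zero.1 k3).resolve_left (by linarith)

/-- Two skew operators of the same nonzero degree which agree on the hyperbolic planes are equal. -/
theorem ext4 (hs : ∀ x y, B x y = B y x) (H : H4 B e (J e) f (J f)) {w : ℝ} (hw : w ≠ 0)
    {Y Z : Module.End ℝ V} (hY : ∀ x y, B (Y x) y = - B x (Y y))
    (hZ : ∀ x y, B (Z x) y = - B x (Z y))
    (hYd : (a • wd B e f + a • wd B (J e) (J f)) * Y - Y * (a • wd B e f + a • wd B (J e) (J f)) =
      w • Y)
    (hZd : (a • wd B e f + a • wd B (J e) (J f)) * Z - Z * (a • wd B e f + a • wd B (J e) (J f)) =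
      w • Z)
    (h1 : Y e = Z e) (h2 : Y (J e) = Z (J e)) (h3 : Y f = Z f) (h4 : Y (J f) = Z (J f)) : Y = Z := by
  rw [← sub_eq_zero]
  set D := Y - Z with hD
  have sk : ∀ x y, B (D x) y = - B x (D y) := by
    intro x y
    rw [hD, LinearMap.sub_apply, LinearMap.sub_apply, map_sub, map_sub, LinearMap.sub_apply, hY, hZ]
    ring
  have d1 : D e = 0 := by rw [hD, LinearMap.sub_apply, h1, sub_self]
  have d2 : D (J e) = 0 := by rw [hD, LinearMap.sub_apply, h2, sub_self]
  have d3 : D f = 0 := by rw [hD, LinearMap.sub_apply, h3, sub_self]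
  have d4 : D (J f) = 0 := by rw [hD, LinearMap.sub_apply, h4, sub_self]
  have hd : (a • wd B e f + a • wd B (J e) (J f)) * D - D * (a • wd B e f + a • wd B (J e) (J f)) =
      w • D := by
    rw [hD, mul_sub, sub_mul, smul_sub, ← hYd, ← hZd]
    abel
  refine LinearMap.ext fun x => ?_
  have p1 : B e (D x) = 0 := by
    have := sk e x; rw [d1] at this; simp at this; linarith
  have p2 : B (J e) (D x) = 0 := by
    have := sk (J e) x; rw [d2] at this; simp at this; linarith
  have p3 : B f (D x) = 0 := by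
    have := sk f x; rw [d3] at this; simp at this; linarith
  have p4 : B (J f) (D x) = 0 := by
    have := sk (J f) x; rw [d4] at this; simp at this; linarith
  have h5 := congrArg (fun Z => Z x) hd
  simp only [LinearMap.sub_apply, Module.End.mul_apply, LinearMap.smul_apply] at h5
  rw [h_apply, h_apply, p1, p2, p3, p4] at h5
  simp only [mul_zero, zero_smul, sub_zero, add_zero, map_add, map_sub, map_smul, d1, d2, d3, d4,
    smul_zero] at h5
  rw [LinearMap.zero_apply]
  exact (smul_eq_zero.1 h5.symm).resolve_left hw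

theorem uw_skew (C : CtxP B l J) (x y : V) : ∀ v w, B (uw B J x y v) w = - B v (uw B J x y w) := by
  intro v w
  rw [uw_eq, LinearMap.add_apply, LinearMap.add_apply, map_add, map_add, LinearMap.add_apply,
    wd_skew C.symm, wd_skew C.symm]
  ring

theorem uwf (C : CtxP B l J) (H : H4 B e (J e) f (J f)) {u : V} (hu : u ∈ UU B e (J e) f (J f)) :
    uw B J f u e = -u ∧ uw B J f u (J e) = -(J u) ∧ uw B J f u f = 0 ∧ uw B J f u (J f) = 0 ∧
      ∀ w ∈ UU B e (J e) f (J f), uw B J f u w = B u w • f + B (J u) w • J f := by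
  have hJ := uu_J C hu
  rw [mem_UU] at hu hJ
  obtain ⟨⟨u1, u2⟩, u3, u4⟩ := hu
  obtain ⟨⟨v1, v2⟩, v3, v4⟩ := hJ
  refine ⟨?_, ?_, ?_, ?_, ?_⟩
  · rw [uw_apply, C.symm u e, u1, C.symm (J u) e, v1, H.fe11, H.fe21]
    module
  · rw [uw_apply, C.symm u (J e), u2, C.symm (J u) (J e), v2, H.fe12, H.fe22]
    module
  · rw [uw_apply, C.symm u f, u3, C.symm (J u) f, v3, H.f11, H.f21]
    module
  · rw [uw_apply, C.symm u (J f), u4, C.symm (J u) (J f), v4, H.f12, H.f22]
    module
  · intro w hw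
    rw [mem_UU] at hw
    rw [uw_apply, hw.2.1, hw.2.2]
    module

/-- degree `-a` -/
theorem str1 (C : CtxU B l J) (H : H4 B e (J e) f (J f)) (ha : 0 < a)
    (hh : a • wd B e f + a • wd B (J e) (J f) ∈ l) {Y : Module.End ℝ V}
    (hY : Y ∈ Gr l (a • wd B e f + a • wd B (J e) (J f)) (-a)) :
    ∃ u ∈ UU B e (J e) f (J f), Y = uw B J f u ∧ Y e = -u := by
  have h1 := Gr.eig hY (h_e1 H)
  rw [add_neg_cancel] at h1
  have hu := mem_U_of H ha h1
  have h2 := h_eig0 H (Gr.eig hY (h_f1 H)) (by linarith) (by linarith) (by linarith)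
    (by linarith) (by linarith)
  have hu' : -(Y e) ∈ UU B e (J e) f (J f) := Submodule.neg_mem _ hu
  refine ⟨-(Y e), hu', ?_, by rw [neg_neg]⟩
  have c1 := C.Jcomm _ hh
  have sk := C.skew _ hh
  have hd := comm_uw sk c1 f (-(Y e))
  rw [h_f1 H, h_U hu', map_zero, add_zero, map_smul, LinearMap.smul_apply] at hd
  obtain ⟨t1, t2, t3, t4, -⟩ := uwf C.toCtxP H hu'
  refine ext4 C.symm H (by linarith : (-a) ≠ 0) (C.skew Y hY.1) (uw_skew C.toCtxP _ _) hY.2 hd ?_ ?_ ?_ ?_
  · rw [t1, neg_neg]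
  · rw [t2, C.Jcomm Y hY.1, map_neg, neg_neg]
  · rw [t3, h2]
  · rw [t4, C.Jcomm Y hY.1, h2, map_zero]

/-- degree `-2a` -/
theorem str2 (C : CtxU B l J) (H : H4 B e (J e) f (J f)) (ha : 0 < a)
    (hh : a • wd B e f + a • wd B (J e) (J f) ∈ l) {Y : Module.End ℝ V}
    (hY : Y ∈ Gr l (a • wd B e f + a • wd B (J e) (J f)) (-(2 * a))) :
    ∃ c : ℝ, Y = c • wd B f (J f) := by
  have h1 := Gr.eig hY (h_e1 H)
  rw [show a + -(2 * a) = -a by ring] at h1
  have h2 := eqA' H ha h1
  have s1 : B e (Y e) = 0 := by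
    have := C.skew Y hY.1 e e; rw [C.symm] at this; linarith
  rw [s1, zero_smul, zero_add] at h2
  have h3 := h_eig0 H (Gr.eig hY (h_f1 H)) (by linarith) (by linarith) (by linarith)
    (by linarith) (by linarith)
  refine ⟨-(B (J e) (Y e)), ?_⟩
  generalize B (J e) (Y e) = c at h2
  have c1 := C.Jcomm _ hh
  have sk := C.skew _ hh
  have hd := comm_wd sk f (J f)
  rw [h_f1 H, h_f2 H, map_smul, map_smul, LinearMap.smul_apply] at hd
  have hd2 : (a • wd B e f + a • wd B (J e) (J f)) * ((-c) • wd B f (J f)) -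
      ((-c) • wd B f (J f)) * (a • wd B e f + a • wd B (J e) (J f)) =
      (-(2 * a)) • ((-c) • wd B f (J f)) := by
    rw [mul_smul_comm, smul_mul_assoc, ← smul_sub, hd]
    module
  have hsk2 : ∀ x y, B (((-c) • wd B f (J f)) x) y = - B x (((-c) • wd B f (J f)) y) := by
    intro x y
    rw [LinearMap.smul_apply, LinearMap.smul_apply, map_smul, map_smul, LinearMap.smul_apply,
      wd_skew C.symm, smul_eq_mul, smul_eq_mul]
    ring
  refine ext4 C.symm H (by linarith : (-(2 * a)) ≠ 0) (C.skew Y hY.1) hsk2 hY.2 hd2 ?_ ?_ ?_ ?_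
  · rw [h2, LinearMap.smul_apply, wd_apply, H.fe11, H.fe21]
    module
  · rw [C.Jcomm Y hY.1, h2, map_smul, C.JJ, LinearMap.smul_apply, wd_apply, H.fe12, H.fe22]
    module
  · rw [h3, LinearMap.smul_apply, wd_apply, H.f11, H.f21]
    module
  · rw [C.Jcomm Y hY.1, h3, LinearMap.smul_apply, wd_apply, H.f12, H.f22]
    simp

/-- other negative degrees -/
theorem str3 (C : CtxU B l J) (H : H4 B e (J e) f (J f)) (ha : 0 < a)
    {Y : Module.End ℝ V} {μ : ℝ} (hμ : μ < 0) (h1 : μ ≠ -a) (h2 : μ ≠ -(2 * a))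
    (hY : Y ∈ Gr l (a • wd B e f + a • wd B (J e) (J f)) μ) : Y = 0 := by
  have k1 := h_eig0 H (Gr.eig hY (h_e1 H)) (by linarith)
    (by intro h; apply h2; linarith) (by linarith) (by intro h; apply h2; linarith)
    (by intro h; apply h1; linarith)
  have k2 := h_eig0 H (Gr.eig hY (h_f1 H)) (by linarith) (by linarith) (by linarith)
    (by linarith) (by linarith)
  refine ext4 C.symm H hμ.ne (C.skew Y hY.1) (by simp) hY.2 (by simp) ?_ ?_ ?_ ?_
  · rw [k1]; rfl
  · rw [C.Jcomm Y hY.1, k1, map_zero]; rfl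
  · rw [k2]; rfl
  · rw [C.Jcomm Y hY.1, k2, map_zero]; rfl

theorem wd_nonzero (H : H4 B e (J e) f (J f)) : e ≠ 0 := by
  rintro rfl
  have := H.ef11
  simp at this

end

variable [FiniteDimensional ℝ V]

section

variable {e f : V} {a : ℝ}

/-- The low lemma, `J`-linear version. -/
theorem lowU (C : CtxU B l J) (H : H4 B e (J e) f (J f)) (ha : 0 < a)
    (hh : a • wd B e f + a • wd B (J e) (J f) ∈ l) {v : V} (h1 : B e v = 0) (h2 : B (J e) v = 0)
    (hneg : ∀ μ < 0, ∀ Y ∈ Gr l (a • wd B e f + a • wd B (J e) (J f)) μ, Y v = 0) : v = 0 := by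
  let S : ℝ → Set (Module.End ℝ V) := fun μ =>
    {T | T ∈ Gr l (a • wd B e f + a • wd B (J e) (J f)) μ ∨ (μ = 0 ∧ T = J)}
  let L : Submodule ℝ V := Submodule.span ℝ {e, J e}
  let W0 : Submodule ℝ V := LinearMap.ker (B v) ⊓ LinearMap.ker (B (J v))
  have hW0 : ∀ x, x ∈ W0 ↔ B v x = 0 ∧ B (J v) x = 0 := by
    intro x; simp [W0]
  have m1 : e ∈ L := Submodule.subset_span (Or.inl rfl)
  have m2 : J e ∈ L := Submodule.subset_span (Or.inr rfl)
  have key := topLemma S (by
      rintro μ ν A (hA | ⟨rfl, rfl⟩) b (hb | ⟨rfl, rfl⟩)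
      · exact Or.inl (C.grbrk hA hb)
      · left
        have : A * A - A * A = (0 : Module.End ℝ V) := sub_self _
        have h3 : A * b - b * A = 0 := by
          refine LinearMap.ext fun x => ?_
          rw [LinearMap.sub_apply, Module.End.mul_apply, Module.End.mul_apply, C.Jcomm A hA.1,
            sub_self]
          rfl
        rw [h3]
        exact ⟨l.zero_mem, by simp⟩
      · left
        have h3 : A * b - b * A = 0 := by
          refine LinearMap.ext fun x => ?_
          rw [LinearMap.sub_apply, Module.End.mul_apply, Module.End.mul_apply, C.Jcomm b hb.1,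
            sub_self]
          rfl
        rw [h3]
        exact ⟨l.zero_mem, by simp⟩
      · left
        rw [sub_self]
        exact ⟨l.zero_mem, by simp⟩)
    (by
      intro W hW
      refine C.irr W (fun x hx => hW 0 J (Or.inr ⟨rfl, rfl⟩) x hx) ?_
      intro Y hY x hx
      let K : Submodule ℝ (Module.End ℝ V) :=
        { carrier := {Y | ∀ x ∈ W, Y x ∈ W}
          zero_mem' := fun x _ => W.zero_mem
          add_mem' := fun {a b} ha hb x hx => W.add_mem (ha x hx) (hb x hx)
          smul_mem' := fun c a ha x hx => W.smul_mem c (ha x hx) }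
      have : l ≤ K := C.decomp hh (h_top H) K (by
        intro μ Y hY x hx
        exact hW μ Y (Or.inl hY) x hx)
      exact this hY x hx)
    L W0 (by
      intro hbot
      rw [hbot, Submodule.mem_bot] at m1
      exact wd_nonzero H m1)
    (by
      rintro μ hμ A (hA | ⟨rfl, rfl⟩) x hx
      · have hAe : A e ∈ L := by
          have h3 := Gr.eig hA (h_e1 H)
          rcases eq_or_lt_of_le hμ with h | h
          · rw [← h, add_zero] at h3
            rw [eqA H ha h3]
            exact L.add_mem (L.smul_mem _ m1) (L.smul_mem _ m2)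
          · rw [h_eig0 H h3 (by linarith) (by linarith) (by linarith) (by linarith) (by linarith)]
            exact L.zero_mem
        have hLJ : ∀ x ∈ L, J x ∈ L := by
          intro x hx
          have : L ≤ Submodule.comap J L := by
            refine Submodule.span_le.2 ?_
            rintro q (rfl | rfl)
            · exact m2
            · show J (J e) ∈ L
              rw [C.JJ]; exact L.neg_mem m1
          exact this hx
        have : L ≤ Submodule.comap A L := by
          refine Submodule.span_le.2 ?_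
          rintro q (rfl | rfl)
          · exact hAe
          · show A (J e) ∈ L
            rw [C.Jcomm A hA.1]
            exact hLJ _ hAe
        exact this hx
      · have : L ≤ Submodule.comap A L := by
          refine Submodule.span_le.2 ?_
          rintro q (rfl | rfl)
          · exact m2
          · show A (A e) ∈ L
            rw [C.JJ]; exact L.neg_mem m1
        exact this hx)
    (by
      refine Submodule.span_le.2 ?_
      rintro q (rfl | rfl)
      · refine (hW0 _).2 ⟨?_, ?_⟩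
        · rw [C.symm]; exact h1
        · rw [C.Jskew, C.symm, h2, neg_zero]
      · refine (hW0 _).2 ⟨?_, ?_⟩
        · rw [C.symm]; exact h2
        · rw [C.BJJ, C.symm]; exact h1)
    (by
      rintro μ hμ A (hA | ⟨rfl, rfl⟩) x hx
      · have hv := hneg μ hμ A hA
        have sk := C.skew A hA.1
        refine (hW0 _).2 ⟨?_, ?_⟩
        · have := sk v x; rw [hv] at this; simp at this; linarith
        · have := sk (J v) x; rw [C.Jcomm A hA.1, hv] at this; simp at this; linarith
      · exact absurd hμ (lt_irrefl 0))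
  refine C.nondeg _ fun y => ?_
  have : y ∈ W0 := by rw [key]; exact Submodule.mem_top
  exact ((hW0 y).1 this).1

/-- `N = {u ∈ U : f ∧ u + J f ∧ J u ∈ l}` -/
noncomputable def NN (B : V →ₗ[ℝ] V →ₗ[ℝ] ℝ) (l : Submodule ℝ (Module.End ℝ V))
    (J : Module.End ℝ V) (e f : V) : Submodule ℝ V :=
  UU B e (J e) f (J f) ⊓ Submodule.comap (uw B J f) l

omit [FiniteDimensional ℝ V] in
theorem mem_NN {u : V} : u ∈ NN B l J e f ↔ u ∈ UU B e (J e) f (J f) ∧ uw B J f u ∈ l := Iff.rfl

/-- `U = N + J N` -/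
theorem NJ (C : CtxU B l J) (H : H4 B e (J e) f (J f)) (ha : 0 < a)
    (hh : a • wd B e f + a • wd B (J e) (J f) ∈ l) {x : V} (hx : x ∈ UU B e (J e) f (J f)) :
    ∃ u ∈ NN B l J e f, ∃ w ∈ NN B l J e f, x = u + J w := by
  let K : Submodule ℝ V := NN B l J e f ⊔ (NN B l J e f).map J
  have hKU : K ≤ UU B e (J e) f (J f) := by
    refine sup_le inf_le_left ?_
    rintro _ ⟨u, hu, rfl⟩
    exact uu_J C.toCtxP hu.1
  have hrefl : (LinearMap.BilinForm.restrict B K).Nondegenerate := by
    refine ⟨?_, ?_⟩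
    · intro x hx
      have h1 : B x x = 0 := hx x
      exact Subtype.ext (C.uneg H (hKU x.2) h1.ge)
    · intro x hx
      have h1 : B x x = 0 := hx x
      exact Subtype.ext (C.uneg H (hKU x.2) h1.ge)
  have hcompl := LinearMap.BilinForm.isCompl_orthogonal_of_restrict_nondegenerate
    (B := B) (W := K) (fun x y h => by rw [C.symm]; exact h) hrefl
  have htop : x ∈ K ⊔ LinearMap.BilinForm.orthogonal B K := by
    rw [hcompl.sup_eq_top]; exact Submodule.mem_top
  obtain ⟨k, hk, k', hk', hkk⟩ := Submodule.mem_sup.1 htop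
  have hk'U : k' ∈ UU B e (J e) f (J f) := by
    have : k' = x - k := by rw [← hkk]; abel
    rw [this]
    exact Submodule.sub_mem _ hx (hKU hk)
  have horth : ∀ y ∈ K, B y k' = 0 := fun y hy => hk' y hy
  have hk'0 : k' = 0 := by
    have hkU := hk'U
    rw [mem_UU] at hkU
    obtain ⟨⟨a1, a2⟩, a3, a4⟩ := hkU
    refine lowU C H ha hh a1 a2 ?_
    intro μ hμ Y hY
    by_cases h1 : μ = -a
    · subst h1
      obtain ⟨u, hu, hYu, -⟩ := str1 C H ha hh hY
      have huN : u ∈ NN B l J e f := mem_NN.2 ⟨hu, hYu ▸ hY.1⟩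
      have b1 := horth u (Submodule.mem_sup_left huN)
      have b2 := horth (J u) (Submodule.mem_sup_right ⟨u, huN, rfl⟩)
      rw [hYu, uw_apply, a3, a4, b1, b2]
      simp
    · by_cases h2 : μ = -(2 * a)
      · subst h2
        obtain ⟨c, hYc⟩ := str2 C H ha hh hY
        rw [hYc, LinearMap.smul_apply, wd_apply, a3, a4]
        simp
      · rw [str3 C H ha hμ h1 h2 hY]; rfl
  rw [hk'0, add_zero] at hkk
  rw [← hkk]
  obtain ⟨u, hu, y, ⟨w, hw, rfl⟩, huy⟩ := Submodule.mem_sup.1 hk
  exact ⟨u, hu, w, hw, huy.symm⟩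

/-- If `N = 0` then `f ∧ J f ∈ l`. -/
theorem has2 (C : CtxU B l J) (H : H4 B e (J e) f (J f)) (ha : 0 < a)
    (hh : a • wd B e f + a • wd B (J e) (J f) ∈ l) (hN : NN B l J e f = ⊥) :
    wd B f (J f) ∈ l := by
  by_contra hF
  refine wd_nonzero H (lowU C H ha hh H.e11 H.e21 ?_)
  intro μ hμ Y hY
  by_cases h1 : μ = -a
  · subst h1
    obtain ⟨u, hu, hYu, -⟩ := str1 C H ha hh hY
    have huN : u ∈ NN B l J e f := mem_NN.2 ⟨hu, hYu ▸ hY.1⟩
    rw [hN, Submodule.mem_bot] at huN
    rw [hYu, huN, map_zero]; rfl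
  · by_cases h2 : μ = -(2 * a)
    · subst h2
      obtain ⟨c, hYc⟩ := str2 C H ha hh hY
      have hc : c = 0 := by
        by_contra hc
        apply hF
        have := l.smul_mem c⁻¹ hY.1
        rwa [hYc, smul_smul, inv_mul_cancel₀ hc, one_smul] at this
      rw [hYc, hc, zero_smul]; rfl
    · rw [str3 C H ha hμ h1 h2 hY]; rfl

end

section

variable {e f : V} {a : ℝ}

omit [FiniteDimensional ℝ V] in
theorem uwe (C : CtxP B l J) (H : H4 B e (J e) f (J f)) {u : V} (hu : u ∈ UU B e (J e) f (J f)) :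
    uw B J e u e = 0 ∧ uw B J e u (J e) = 0 ∧ uw B J e u f = -u ∧ uw B J e u (J f) = -(J u) ∧
      ∀ w ∈ UU B e (J e) f (J f), uw B J e u w = B u w • e + B (J u) w • J e := by
  obtain ⟨h1, h2, h3, h4, h5⟩ := uwf C H.swap (uu_swap hu)
  exact ⟨h3, h4, h1, h2, fun w hw => h5 w (uu_swap hw)⟩

omit [FiniteDimensional ℝ V] in
/-- Lemma K -/
theorem lemK (C : CtxU B l J) (H : H4 B e (J e) f (J f)) {u w v : V} (hu : u ∈ NN B l J e f)
    (hw : w ∈ NN B l J e f) (hv : v ∈ UU B e (J e) f (J f)) (hvl : uw B J e v ∈ l) :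
    B u v • w - B (J u) v • J w - B u w • v - B (J u) w • J v + B v w • u + B (J v) w • J u ∈
      NN B l J e f := by
  have hu1 := hu.1
  have hw1 := hw.1
  obtain ⟨a1, a2, a3, a4, a5⟩ := uwe C.toCtxP H hv
  obtain ⟨b1, b2, b3, b4, b5⟩ := uwf C.toCtxP H hu1
  have hY : uw B J e v * uw B J f u - uw B J f u * uw B J e v ∈ l := C.brk _ hvl _ hu.2
  have h1 := C.brku hY hw.2
  have h2 : (uw B J e v * uw B J f u - uw B J f u * uw B J e v) f = B u v • f + B (J u) v • J f := by
    rw [LinearMap.sub_apply, Module.End.mul_apply, Module.End.mul_apply, b3, a3, map_zero, map_neg,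
      b5 v hv]
    abel
  have h3 : (uw B J e v * uw B J f u - uw B J f u * uw B J e v) w =
      -(B u w • v) - B (J u) w • J v + B v w • u + B (J v) w • J u := by
    rw [LinearMap.sub_apply, Module.End.mul_apply, Module.End.mul_apply, b5 w hw1, a5 w hw1,
      map_add, map_add, map_smul, map_smul, map_smul, map_smul, a3, a4, b1, b2]
    module
  rw [h2, h3] at h1
  refine mem_NN.2 ⟨?_, ?_⟩
  · have hJu := uu_J C.toCtxP hu1
    have hJw := uu_J C.toCtxP hw1
    have hJv := uu_J C.toCtxP hv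
    exact Submodule.add_mem _ (Submodule.add_mem _ (Submodule.sub_mem _ (Submodule.sub_mem _
      (Submodule.sub_mem _ (Submodule.smul_mem _ _ hw1) (Submodule.smul_mem _ _ hJw))
      (Submodule.smul_mem _ _ hv)) (Submodule.smul_mem _ _ hJv)) (Submodule.smul_mem _ _ hu1))
      (Submodule.smul_mem _ _ hJu)
  · convert h1 using 1
    simp only [map_add, map_sub, map_smul, map_neg, LinearMap.add_apply, LinearMap.smul_apply,
      C.uwJ f w]
    module

/-- If `f ∧ J f ∉ l`, then `N` is totally real and contains `N'`. -/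
theorem Nreal (C : CtxU B l J) (H : H4 B e (J e) f (J f)) (ha : 0 < a)
    (hh : a • wd B e f + a • wd B (J e) (J f) ∈ l) (hF : wd B f (J f) ∉ l) :
    (∀ u ∈ NN B l J e f, ∀ w ∈ NN B l J e f, B (J u) w = 0) ∧
      ∀ v ∈ UU B e (J e) f (J f), uw B J e v ∈ l → v ∈ NN B l J e f := by
  have hi : ∀ u ∈ NN B l J e f, ∀ w ∈ NN B l J e f, B (J u) w = 0 := by
    intro u hu w hw
    by_contra hne
    apply hF
    have h1 := C.brku hu.2 hw.2
    obtain ⟨b1, b2, b3, b4, b5⟩ := uwf C.toCtxP H hu.1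
    rw [b3, b5 w hw.1, map_zero, LinearMap.zero_apply, zero_add, map_add, map_smul, map_smul,
      uw_self, smul_zero, zero_add] at h1
    have h2 : uw B J f (J f) = (2 : ℝ) • wd B f (J f) := by
      rw [uw_eq, C.JJ, map_neg, wd_swap B f (J f), neg_neg, two_smul]
    rw [h2, smul_smul] at h1
    have h3 := l.smul_mem (B (J u) w * 2)⁻¹ h1
    rwa [smul_smul, inv_mul_cancel₀ (mul_ne_zero hne two_ne_zero), one_smul] at h3
  refine ⟨hi, ?_⟩
  intro v hv hvl
  obtain ⟨v1, hv1, v2, hv2, rfl⟩ := NJ C H ha hh hv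
  have h1 := lemK C H hv2 hv2 hv hvl
  have e1 : B (J v2) v1 = 0 := hi v2 hv2 v1 hv1
  have e2 : B (J v2) (J v2) = B v2 v2 := C.BJJ _ _
  have e3 : B (J v2) v2 = 0 := C.BJself' _
  have e4 : B v2 (J v2) = 0 := C.BJself _
  have e5 : B (J v1) v2 = 0 := hi v1 hv1 v2 hv2
  have e6 : B (J (J v2)) v2 = - B v2 v2 := by rw [C.JJ, map_neg, LinearMap.neg_apply]
  have e7 : B v1 v2 = B v2 v1 := C.symm _ _
  have h2 : (3 * B v2 v2) • J v2 ∈ NN B l J e f := by
    have h3 := Submodule.add_mem _ h1 (Submodule.smul_mem _ (B v2 v2) hv1)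
    have h4 := Submodule.sub_mem _ h3 (Submodule.smul_mem _ (2 * B v2 v1) hv2)
    have h5 := Submodule.neg_mem _ h4
    convert h5 using 1
    simp only [map_add, LinearMap.add_apply, e1, e2, e3, e4, e5, e6, e7]
    module
  by_cases hv0 : v2 = 0
  · rw [hv0, map_zero, add_zero]; exact hv1
  · exfalso
    have hne : B v2 v2 ≠ 0 := fun h => hv0 (C.uneg H hv2.1 h.ge)
    have h3 : J v2 ∈ NN B l J e f := by
      have := Submodule.smul_mem _ (3 * B v2 v2)⁻¹ h2
      rwa [smul_smul, inv_mul_cancel₀ (mul_ne_zero three_ne_zero hne), one_smul] at this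
    have h4 := hi v2 hv2 (J v2) h3
    rw [e2] at h4
    exact hne h4

omit [FiniteDimensional ℝ V] in
theorem JN (C : CtxU B l J) (H : H4 B e (J e) f (J f)) (hE : wd B e (J e) ∈ l) {u : V}
    (hu : u ∈ NN B l J e f) : uw B J e (J u) ∈ l := by
  have h2 : uw B J e (J e) = (2 : ℝ) • wd B e (J e) := by
    rw [uw_eq, C.JJ, map_neg, wd_swap B e (J e), neg_neg, two_smul]
  have h3 := C.brku hE hu.2
  have hu1 := mem_UU.1 hu.1
  have e1 : wd B e (J e) f = -(J e) := by
    rw [wd_apply, H.ef21, H.ef11]; module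
  have e2 : wd B e (J e) u = 0 := by
    rw [wd_apply, hu1.1.1, hu1.1.2]; module
  rw [e1, e2, map_zero, add_zero, map_neg, LinearMap.neg_apply, C.uwJ, neg_neg] at h3
  exact h3

/-- Lemma A -/
theorem lemA (C : CtxU B l J) (H : H4 B e (J e) f (J f)) (ha : 0 < a)
    (hh : a • wd B e f + a • wd B (J e) (J f) ∈ l) (hE : wd B e (J e) ∈ l) : wd B f (J f) ∈ l := by
  by_contra hF
  obtain ⟨hi, hii⟩ := Nreal C H ha hh hF
  apply hF
  refine has2 C H ha hh ?_
  rw [eq_bot_iff]
  intro u hu
  have h1 := JN C H hE hu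
  have h2 := hii _ (uu_J C.toCtxP hu.1) h1
  have h3 := hi u hu _ h2
  rw [C.BJJ] at h3
  rw [Submodule.mem_bot]
  exact C.uneg H hu.1 h3.ge

theorem hswap (C : CtxU B l J) (hh : a • wd B e f + a • wd B (J e) (J f) ∈ l) :
    a • wd B f e + a • wd B (J f) (J e) = -(a • wd B e f + a • wd B (J e) (J f)) ∧
      a • wd B f e + a • wd B (J f) (J e) ∈ l := by
  have h1 : a • wd B f e + a • wd B (J f) (J e) = -(a • wd B e f + a • wd B (J e) (J f)) := by
    rw [wd_swap B e f, wd_swap B (J e) (J f)]; module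
  exact ⟨h1, by rw [h1]; exact l.neg_mem hh⟩

/-- Both `e ∧ J e` and `f ∧ J f` in `l`: `N = U`. -/
theorem NU (C : CtxU B l J) (H : H4 B e (J e) f (J f)) (ha : 0 < a)
    (hh : a • wd B e f + a • wd B (J e) (J f) ∈ l) (hE : wd B e (J e) ∈ l) {u : V}
    (hu : u ∈ UU B e (J e) f (J f)) : uw B J f u ∈ l := by
  have hJN : ∀ x ∈ NN B l J e f, J x ∈ NN B l J e f := by
    intro x hx
    by_cases hx0 : x = 0
    · rw [hx0, map_zero]; exact Submodule.zero_mem _
    have h1 := lemK C H hx hx (uu_J C.toCtxP hx.1) (JN C H hE hx)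
    have e3 : B (J x) x = 0 := C.BJself' _
    have e4 : B x (J x) = 0 := C.BJself _
    have e2 : B (J x) (J x) = B x x := C.BJJ _ _
    have e6 : B (J (J x)) x = - B x x := by rw [C.JJ, map_neg, LinearMap.neg_apply]
    have hne : B x x ≠ 0 := fun h => hx0 (C.uneg H hx.1 h.ge)
    have h2 : (3 * B x x) • J x ∈ NN B l J e f := by
      have h5 := Submodule.neg_mem _ h1
      convert h5 using 1
      rw [e3, e4, e2, e6]
      module
    have := Submodule.smul_mem _ (3 * B x x)⁻¹ h2
    rwa [smul_smul, inv_mul_cancel₀ (mul_ne_zero three_ne_zero hne), one_smul] at this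
  obtain ⟨x, hx, y, hy, rfl⟩ := NJ C H ha hh hu
  exact (Submodule.add_mem _ hx (hJN y hy)).2

/-- Alternative (a) from the generators. -/
theorem altA (C : CtxP B l J) (H : H4 B e (J e) f (J f)) (hef : uw B J e f ∈ l)
    (hE : wd B e (J e) ∈ l) (hF : wd B f (J f) ∈ l)
    (he : ∀ u ∈ UU B e (J e) f (J f), uw B J e u ∈ l)
    (hf : ∀ u ∈ UU B e (J e) f (J f), uw B J f u ∈ l) :
    ∀ x y, B (J x) y = 0 → uw B J x y ∈ l := by
  have hE2 : uw B J e (J e) = (2 : ℝ) • wd B e (J e) := by
    rw [uw_eq, C.JJ, map_neg, wd_swap B e (J e), neg_neg, two_smul]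
  have hF2 : uw B J f (J f) = (2 : ℝ) • wd B f (J f) := by
    rw [uw_eq, C.JJ, map_neg, wd_swap B f (J f), neg_neg, two_smul]
  -- M x y = uw x y - B (J x) y uw e (J f)
  let M : V →ₗ[ℝ] V →ₗ[ℝ] Module.End ℝ V :=
    uw B J - ((B.comp J).compr₂ (LinearMap.toSpanSingleton ℝ (Module.End ℝ V) (uw B J e (J f))))
  have hM : ∀ x y, M x y = uw B J x y - B (J x) y • uw B J e (J f) := fun x y => rfl
  have hMJ : ∀ x y, M (J x) y = - M x (J y) := by
    intro x y
    rw [hM, hM, C.uwJ, C.JJ, C.BJJ, map_neg, LinearMap.neg_apply]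
    module
  have hMs : ∀ x y, M y x = - M x y := by
    intro x y
    rw [hM, hM, uw_swap x y, C.Jskew y x, C.symm y (J x)]
    module
  have gen : ∀ W : Submodule ℝ V, e ∈ W → J e ∈ W → f ∈ W → J f ∈ W →
      (∀ u ∈ UU B e (J e) f (J f), u ∈ W) → ∀ x, x ∈ W := by
    intro W h1 h2 h3 h4 h5 x
    obtain ⟨u, hu, hx⟩ := decU H x
    rw [hx]
    exact W.add_mem (W.add_mem (W.add_mem (W.add_mem (W.smul_mem _ h1) (W.smul_mem _ h2))
      (W.smul_mem _ h3)) (W.smul_mem _ h4)) (h5 u hu)
  have me : ∀ y, M e y ∈ l := by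
    intro y
    refine gen (l.comap (M e)) ?_ ?_ ?_ ?_ ?_ y
    · show M e e ∈ l
      rw [hM, uw_self, H.e21]; simp
    · show M e (J e) ∈ l
      rw [hM, hE2, H.e22, zero_smul, sub_zero]; exact l.smul_mem _ hE
    · show M e f ∈ l
      rw [hM, H.ef21, zero_smul, sub_zero]; exact hef
    · show M e (J f) ∈ l
      rw [hM, H.ef22, one_smul, sub_self]; exact l.zero_mem
    · intro u hu
      show M e u ∈ l
      have := (mem_UU.1 hu).1.2
      rw [hM, this, zero_smul, sub_zero]; exact he u hu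
  have mf : ∀ y, M f y ∈ l := by
    intro y
    refine gen (l.comap (M f)) ?_ ?_ ?_ ?_ ?_ y
    · show M f e ∈ l
      rw [hMs]; exact l.neg_mem (me f)
    · show M f (J e) ∈ l
      rw [hMs, hMJ, neg_neg]; exact me _
    · show M f f ∈ l
      rw [hM, uw_self, H.f21]; simp
    · show M f (J f) ∈ l
      rw [hM, hF2, H.f22, zero_smul, sub_zero]; exact l.smul_mem _ hF
    · intro u hu
      show M f u ∈ l
      have := (mem_UU.1 hu).2.2
      rw [hM, this, zero_smul, sub_zero]; exact hf u hu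
  have mu : ∀ u ∈ UU B e (J e) f (J f), ∀ y, M u y ∈ l := by
    intro u hu y
    refine gen (l.comap (M u)) ?_ ?_ ?_ ?_ ?_ y
    · show M u e ∈ l
      rw [hMs]; exact l.neg_mem (me u)
    · show M u (J e) ∈ l
      rw [hMs, hMJ, neg_neg]; exact me _
    · show M u f ∈ l
      rw [hMs]; exact l.neg_mem (mf u)
    · show M u (J f) ∈ l
      rw [hMs, hMJ, neg_neg]; exact mf _
    · intro v hv
      show M u v ∈ l
      have h1 := C.brku (he u hu) (hf v hv)
      obtain ⟨a1, a2, a3, a4, a5⟩ := uwe C H hu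
      rw [a3, a5 v hv, map_neg, LinearMap.neg_apply, map_add, map_smul, map_smul] at h1
      have e1 : uw B J f e = - uw B J e f := uw_swap e f
      have e2 : uw B J f (J e) = uw B J e (J f) := by
        rw [uw_swap (J e) f, C.uwJ, neg_neg]
      rw [e1, e2] at h1
      have h2 := l.add_mem h1 (l.smul_mem (B u v) hef)
      have h3 := l.neg_mem h2
      rw [hM]
      convert h3 using 1
      module
  have mall : ∀ x y, M x y ∈ l := by
    intro x y
    refine gen (l.comap (M.flip y)) ?_ ?_ ?_ ?_ ?_ x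
    · exact me y
    · show M (J e) y ∈ l
      rw [hMJ]; exact l.neg_mem (me _)
    · exact mf y
    · show M (J f) y ∈ l
      rw [hMJ]; exact l.neg_mem (mf _)
    · intro u hu
      exact mu u hu y
  intro x y hxy
  have := mall x y
  rwa [hM, hxy, zero_smul, sub_zero] at this

/-- the real form -/
noncomputable def RR (N : Submodule ℝ V) (e f : V) : Submodule ℝ V :=
  Submodule.span ℝ {e} ⊔ Submodule.span ℝ {f} ⊔ N

omit [FiniteDimensional ℝ V] in
theorem RR_stab {N : Submodule ℝ V} {T : V →ₗ[ℝ] V} (h1 : T e ∈ RR N e f) (h2 : T f ∈ RR N e f)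
    (h3 : ∀ u ∈ N, T u ∈ RR N e f) : ∀ x ∈ RR N e f, T x ∈ RR N e f := by
  have : RR N e f ≤ Submodule.comap T (RR N e f) := by
    refine sup_le (sup_le ?_ ?_) h3
    · rw [Submodule.span_le]; rintro x (rfl : x = e); exact h1
    · rw [Submodule.span_le]; rintro x (rfl : x = f); exact h2
  exact this

omit [FiniteDimensional ℝ V] in
theorem e_mem {N : Submodule ℝ V} : e ∈ RR N e f :=
  Submodule.mem_sup_left (Submodule.mem_sup_left (Submodule.mem_span_singleton_self e))

omit [FiniteDimensional ℝ V] in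
theorem f_mem {N : Submodule ℝ V} : f ∈ RR N e f :=
  Submodule.mem_sup_left (Submodule.mem_sup_right (Submodule.mem_span_singleton_self f))

omit [FiniteDimensional ℝ V] in
theorem n_mem {N : Submodule ℝ V} {u : V} (hu : u ∈ N) : u ∈ RR N e f :=
  Submodule.mem_sup_right hu

omit [FiniteDimensional ℝ V] in
theorem RR_comm {N : Submodule ℝ V} : RR N e f = RR N f e := by
  rw [RR, RR, sup_comm (Submodule.span ℝ {e})]

/-- elements of negative degree preserve `R` -/
theorem Rneg (C : CtxU B l J) (H : H4 B e (J e) f (J f)) (ha : 0 < a)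
    (hh : a • wd B e f + a • wd B (J e) (J f) ∈ l) (hF : wd B f (J f) ∉ l) {μ : ℝ} (hμ : μ < 0)
    {Y : Module.End ℝ V} (hY : Y ∈ Gr l (a • wd B e f + a • wd B (J e) (J f)) μ) :
    ∀ x ∈ RR (NN B l J e f) e f, Y x ∈ RR (NN B l J e f) e f := by
  obtain ⟨hi, -⟩ := Nreal C H ha hh hF
  by_cases h1 : μ = -a
  · subst h1
    obtain ⟨u, hu, hYu, hYe⟩ := str1 C H ha hh hY
    have huN : u ∈ NN B l J e f := mem_NN.2 ⟨hu, hYu ▸ hY.1⟩
    obtain ⟨b1, b2, b3, b4, b5⟩ := uwf C.toCtxP H hu
    rw [hYu]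
    refine RR_stab ?_ ?_ ?_
    · rw [b1]; exact Submodule.neg_mem _ (n_mem huN)
    · rw [b3]; exact Submodule.zero_mem _
    · intro w hw
      rw [b5 w hw.1, hi u huN w hw, zero_smul, add_zero]
      exact Submodule.smul_mem _ _ f_mem
  · intro x hx
    by_cases h2 : μ = -(2 * a)
    · subst h2
      obtain ⟨c, hYc⟩ := str2 C H ha hh hY
      have hc : c = 0 := by
        by_contra hc
        apply hF
        have := l.smul_mem c⁻¹ hY.1
        rwa [hYc, smul_smul, inv_mul_cancel₀ hc, one_smul] at this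
      rw [hYc, hc, zero_smul]; exact Submodule.zero_mem _
    · rw [str3 C H ha hμ h1 h2 hY]; exact Submodule.zero_mem _

/-- elements of degree zero preserve `R` up to multiples of `J` -/
theorem Rzero (C : CtxU B l J) (H : H4 B e (J e) f (J f)) (ha : 0 < a)
    {Y : Module.End ℝ V} (hY : Y ∈ Gr l (a • wd B e f + a • wd B (J e) (J f)) 0) :
    ∃ c : ℝ, ∀ x ∈ RR (NN B l J e f) e f, Y x - c • J x ∈ RR (NN B l J e f) e f := by
  have sk := C.skew Y hY.1
  have h1 := Gr.eig hY (h_e1 H)
  rw [add_zero] at h1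
  have h2 := eqA H ha h1
  have h3 := Gr.eig hY (h_f1 H)
  rw [add_zero] at h3
  have h4 := eqA' H ha h3
  have e1 : B e (Y f) = - B f (Y e) := by
    have := sk e f; rw [C.symm] at this; linarith
  have e2 : B (J e) (Y f) = B (J f) (Y e) := by
    have h5 := sk (J e) f
    rw [C.Jcomm Y hY.1, C.Jskew, C.symm (Y e) (J f)] at h5
    linarith
  rw [e1, e2] at h4
  generalize hα : B f (Y e) = α at h2 h4
  generalize hβ : B (J f) (Y e) = β at h2 h4
  refine ⟨β, ?_⟩
  have hT : ∀ x, (Y - β • J) x = Y x - β • J x := fun x => rfl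
  simp only [← hT]
  refine RR_stab (T := Y - β • J) ?_ ?_ ?_
  · rw [hT, h2, add_sub_cancel_right]
    exact Submodule.smul_mem _ _ e_mem
  · rw [hT, h4, add_sub_cancel_right]
    exact Submodule.smul_mem _ _ f_mem
  · intro w hw
    rw [hT]
    apply n_mem
    have h5 := C.brku hY.1 hw.2
    rw [h4, map_add, map_smul, map_smul, LinearMap.add_apply, LinearMap.smul_apply,
      LinearMap.smul_apply, C.uwJ] at h5
    have h6 : Y w ∈ UU B e (J e) f (J f) := by
      refine mem_U_of H ha ?_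
      have := Gr.eig hY (c := 0) (x := w) (by rw [h_U hw.1, zero_smul])
      rwa [add_zero] at this
    have hJw := uu_J C.toCtxP hw.1
    refine mem_NN.2 ⟨Submodule.sub_mem _ h6 (Submodule.smul_mem _ _ hJw), ?_⟩
    have h7 := l.add_mem h5 (l.smul_mem α hw.2)
    convert h7 using 1
    simp only [map_sub, map_smul]
    module

/-- The classification. -/
theorem mainU (C : CtxU B l J) {h : Module.End ℝ V} (hh : h ∈ l) (h0 : h ≠ 0)
    (htop : ⨆ μ : ℝ, Module.End.eigenspace h μ = ⊤) :
    (∀ x y, B (J x) y = 0 → uw B J x y ∈ l) ∨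
      ∃ R : Submodule ℝ V, (∀ x, ∃ r ∈ R, ∃ s ∈ R, x = r + J s) ∧
        (∀ x ∈ R, ∀ y ∈ R, B x (J y) = 0) ∧ ∀ Y ∈ l, ∃ c : ℝ, ∀ x ∈ R, Y x - c • J x ∈ R := by
  have sk := C.skew h hh
  have cJ := C.Jcomm h hh
  obtain ⟨a, e, f0, ha, he, hf0, hee, hff0, hef0⟩ := extract C.symm C.nondeg sk htop h0
  -- adjust f
  obtain ⟨f, hf, hff, hef, hJef⟩ : ∃ f : V, h f = (-a) • f ∧ B f f = 0 ∧ B e f = 1 ∧
      B (J e) f = 0 := by
    set β := B (J e) f0 with hβ
    have hpos : (1 + β ^ 2) ≠ 0 := by positivity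
    have eJ : B e (J f0) = -β := by
      have := C.Jskew e f0; rw [hβ]; linarith
    refine ⟨(1 / (1 + β ^ 2)) • (f0 - β • J f0), ?_, ?_, ?_, ?_⟩
    · rw [map_smul, map_sub, map_smul, cJ, hf0, map_smul]
      module
    · have e1 : B f0 (J f0) = 0 := C.BJself _
      have e2 : B (J f0) f0 = 0 := C.BJself' _
      have e3 : B (J f0) (J f0) = 0 := by rw [C.BJJ]; exact hff0
      simp only [map_smul, map_sub, LinearMap.smul_apply, LinearMap.sub_apply, hff0, e1, e2, e3,
        smul_eq_mul, mul_zero, sub_zero]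
    · rw [map_smul, map_sub, map_smul, hef0, eJ, smul_eq_mul, smul_eq_mul]
      field_simp
      ring
    · rw [map_smul, map_sub, map_smul, C.BJJ, hef0, ← hβ, smul_eq_mul, smul_eq_mul]
      ring
  have H : H4 B e (J e) f (J f) := by
    have eJf : B e (J f) = 0 := by
      have := C.Jskew e f; linarith
    exact ⟨hee, C.BJself e, C.BJself' e, by rw [C.BJJ]; exact hee, hff, C.BJself f, C.BJself' f,
      by rw [C.BJJ]; exact hff, hef, eJf, hJef, by rw [C.BJJ]; exact hef, by rw [C.symm]; exact hef,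
      by rw [C.symm]; exact hJef, by rw [C.symm]; exact eJf, by rw [C.BJJ, C.symm]; exact hef⟩
  have hsum : h = a • wd B e f + a • wd B (J e) (J f) := by
    have t1 := diag_sub C.symm sk htop he hf H.e11 H.f11 H.ef11
    have sk1 := skew_sub C.symm sk a e f
    have heJ : h (J e) = a • J e := by rw [cJ, he, map_smul]
    have hfJ : h (J f) = (-a) • J f := by rw [cJ, hf, map_smul]
    have k1 : (h - a • wd B e f) (J e) = a • J e := by
      simp [heJ, H.fe12, H.e12]
    have k2 : (h - a • wd B e f) (J f) = (-a) • J f := by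
      simp [hfJ, H.f12, H.ef12]
    have t2 := diag_sub C.symm sk1 t1 k1 k2 H.e22 H.f22 H.ef22
    have sk2 := skew_sub C.symm sk1 a (J e) (J f)
    have hz := C.zero_of_top H sk2 t2
      (by simp [he, H.fe11, H.e11, H.fe21, H.e21])
      (by rw [LinearMap.sub_apply, k1]; simp [H.fe22, H.e22])
      (by simp [hf, H.f11, H.ef11, H.f21, H.ef21])
      (by rw [LinearMap.sub_apply, k2]; simp [H.f22, H.ef22])
    rw [sub_sub, sub_eq_zero] at hz
    exact hz
  rw [hsum] at hh
  obtain ⟨hneg, hh'⟩ := hswap C hh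
  have hef' : uw B J e f ∈ l := by
    have := l.smul_mem a⁻¹ hh
    rw [← smul_add, smul_smul, inv_mul_cancel₀ ha.ne', one_smul] at this
    exact this
  by_cases hE : wd B e (J e) ∈ l
  · left
    have hF := lemA C H ha hh hE
    refine altA C.toCtxP H hef' hE hF ?_ ?_
    · intro u hu
      exact NU C H.swap ha hh' hF (uu_swap hu)
    · intro u hu
      exact NU C H ha hh hE hu
  · right
    have hF : wd B f (J f) ∉ l := fun hF => hE (lemA C H.swap ha hh' hF)
    obtain ⟨hi, hii⟩ := Nreal C H ha hh hF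
    obtain ⟨hi', hii'⟩ := Nreal C H.swap ha hh' hE
    have hNN : NN B l J f e = NN B l J e f := by
      apply le_antisymm
      · intro u hu
        exact hii u (uu_swap hu.1) hu.2
      · intro u hu
        exact hii' u (uu_swap hu.1) hu.2
    refine ⟨RR (NN B l J e f) e f, ?_, ?_, ?_⟩
    · intro x
      obtain ⟨u, hu, hx⟩ := decU H x
      obtain ⟨v, hv, w, hw, rfl⟩ := NJ C H ha hh hu
      refine ⟨B f x • e + B e x • f + v, ?_, B (J f) x • e + B (J e) x • f + w, ?_, ?_⟩
      · exact Submodule.add_mem _ (Submodule.add_mem _ (Submodule.smul_mem _ _ e_mem)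
          (Submodule.smul_mem _ _ f_mem)) (n_mem hv)
      · exact Submodule.add_mem _ (Submodule.add_mem _ (Submodule.smul_mem _ _ e_mem)
          (Submodule.smul_mem _ _ f_mem)) (n_mem hw)
      · conv_lhs => rw [hx]
        simp only [map_add, map_smul]
        abel
    · -- B (x, J y) = 0
      have key : ∀ x ∈ RR (NN B l J e f) e f, B x (J e) = 0 ∧ B x (J f) = 0 ∧
          ∀ w ∈ NN B l J e f, B x (J w) = 0 := by
        intro x hx
        have hle : RR (NN B l J e f) e f ≤ (LinearMap.ker (B (J e)) ⊓ LinearMap.ker (B (J f))) ⊓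
            ⨅ w : NN B l J e f, LinearMap.ker (B (J w)) := by
          refine sup_le (sup_le ?_ ?_) ?_
          · rw [Submodule.span_le]
            rintro x (rfl : x = e)
            refine ⟨⟨H.e21, H.fe21⟩, ?_⟩
            simp only [Submodule.coe_iInf, Set.mem_iInter, SetLike.mem_coe, LinearMap.mem_ker]
            intro w
            have hw := (mem_UU.1 w.2.1).1.2
            have := C.Jskew (w : V) x
            rw [C.symm (w : V) (J x), hw] at this
            simpa using this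
          · rw [Submodule.span_le]
            rintro x (rfl : x = f)
            refine ⟨⟨H.ef21, H.f21⟩, ?_⟩
            simp only [Submodule.coe_iInf, Set.mem_iInter, SetLike.mem_coe, LinearMap.mem_ker]
            intro w
            have hw := (mem_UU.1 w.2.1).2.2
            have := C.Jskew (w : V) x
            rw [C.symm (w : V) (J x), hw] at this
            simpa using this
          · intro u hu
            refine ⟨⟨(mem_UU.1 hu.1).1.2, (mem_UU.1 hu.1).2.2⟩, ?_⟩
            simp only [Submodule.coe_iInf, Set.mem_iInter, SetLike.mem_coe, LinearMap.mem_ker]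
            intro w
            exact hi w w.2 u hu
        obtain ⟨⟨h1, h2⟩, h3⟩ := hle hx
        simp only [Submodule.coe_iInf, Set.mem_iInter, SetLike.mem_coe, LinearMap.mem_ker] at h3
        refine ⟨by rw [C.symm]; exact h1, by rw [C.symm]; exact h2, fun w hw => ?_⟩
        rw [C.symm]
        exact h3 ⟨w, hw⟩
      intro x hx y hy
      obtain ⟨k1, k2, k3⟩ := key x hx
      have hle : RR (NN B l J e f) e f ≤ LinearMap.ker ((B x).comp J) := by
        refine sup_le (sup_le ?_ ?_) ?_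
        · rw [Submodule.span_le]; rintro z (rfl : z = e); exact k1
        · rw [Submodule.span_le]; rintro z (rfl : z = f); exact k2
        · intro w hw; exact k3 w hw
      exact hle hy
    · intro Y hY
      let K : Submodule ℝ (Module.End ℝ V) :=
        { carrier := {Y | ∃ c : ℝ, ∀ x ∈ RR (NN B l J e f) e f, Y x - c • J x ∈
            RR (NN B l J e f) e f}
          zero_mem' := ⟨0, fun x _ => by
            rw [LinearMap.zero_apply, zero_smul, sub_zero]; exact Submodule.zero_mem _⟩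
          add_mem' := by
            rintro X Y ⟨c, hc⟩ ⟨d, hd⟩
            refine ⟨c + d, fun x hx => ?_⟩
            have := Submodule.add_mem _ (hc x hx) (hd x hx)
            convert this using 1
            rw [LinearMap.add_apply]
            module
          smul_mem' := by
            rintro t X ⟨c, hc⟩
            refine ⟨t * c, fun x hx => ?_⟩
            have := Submodule.smul_mem _ t (hc x hx)
            convert this using 1
            rw [LinearMap.smul_apply]
            module }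
      have : l ≤ K := C.decomp hh (h_top H) K (by
        intro μ Y hY
        rcases lt_trichotomy μ 0 with h | h | h
        · refine ⟨0, fun x hx => ?_⟩
          rw [zero_smul, sub_zero]
          exact Rneg C H ha hh hF h hY x hx
        · subst h
          exact Rzero C H ha hY
        · refine ⟨0, fun x hx => ?_⟩
          rw [zero_smul, sub_zero]
          have hY' : Y ∈ Gr l (a • wd B f e + a • wd B (J f) (J e)) (-μ) := by
            refine ⟨hY.1, ?_⟩
            have := hY.2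
            rw [hneg, neg_mul, mul_neg, neg_smul, ← this]
            abel
          have h5 := Rneg C H.swap ha hh' hE (by linarith : -μ < 0) hY'
          rw [hNN, RR_comm] at h5
          exact h5 x hx)
      exact this hY

end

end Pool.Agent.K3C.K7z
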